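import Pool.Agent.Lib.MP_9d820d_co.Lin

set_option autoImplicit false

namespace Pool.Agent.Lib.MP_9d820d_co

noncomputable section

variable {α : Type} {o : Ops α} {ι : α → ℝ} {P : Prm} {t : ℝ}

theorem w_nonneg {x t w : ℝ} (t0 : 0 < t) (h : |x| ≤ t * w) : 0 ≤ w := by
  by_contra hn
  have := mul_neg_of_pos_of_neg t0 (not_le.1 hn)
  linarith [abs_nonneg x]

theorem abs_mul_le {x y a b : ℝ} (h1 : |x| ≤ a) (h2 : |y| ≤ b) : |x * y| ≤ a * b := by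
  rw [abs_mul]
  exact mul_le_mul h1 h2 (abs_nonneg _) ((abs_nonneg _).trans h1)

theorem BxOK.cn {bx : Bx α} (h : BxOK o ι P t bx) :
    ∀ n < 7, |zc P n - ι (get7 o bx.B n)| ≤ t * ι (get7 o bx.W n) := by
  intro n hn
  interval_cases n
  exacts [h.c0, h.c1, h.c2, h.c3, h.c4, h.c5, h.c6]

theorem setC_sp (P : Prm) (t : ℝ) {f : Fx α} {c0 c1 : α} {k : Fx α → Bool}
    (h : setC f c0 c1 k = true) : ∃ r, k r = true ∧
      valN ι P t r = valN ι P t f + (ι c0 - ι f.c0) + t * (ι c1 - ι f.c1) ∧ r.ch = f.ch := by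
  cases f
  refine ⟨_, h, ?_, rfl⟩
  simp only [valN, val4, val3]; ring

variable (L : Lawful o ι)
include L

theorem finBx_ex (lo hi B W : V7 α) : ∃ bx, (∀ k, finBx o lo hi B W k = k bx) ∧ bx.lo = lo ∧
    bx.hi = hi ∧ ∀ P t, InV o ι P t lo hi →
      (∀ n < 7, |zc P n - ι (get7 o B n)| ≤ t * ι (get7 o W n)) → BxOK o ι P t bx := by
  cases B; cases W
  refine ⟨_, fun k => by simp only [finBx, L.frc]; rfl, rfl, rfl, fun P t h1 h => ?_⟩
  exact ⟨h1, h 0 (by norm_num), h 1 (by norm_num), h 2 (by norm_num), h 3 (by norm_num),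
    h 4 (by norm_num), h 5 (by norm_num), h 6 (by norm_num), by simp only [L.add, L.abs],
    by simp only [L.add, L.abs], by simp only [L.add, L.abs], by simp only [L.add, L.mul],
    by simp only [L.sub, L.mul]⟩

theorem mkBx_ex (lo hi : V7 α) : ∃ bx, (∀ k, mkBx o lo hi k = k bx) ∧ bx.lo = lo ∧
    bx.hi = hi ∧ ∀ P t, TT o t → InV o ι P t lo hi → BxOK o ι P t bx := by
  obtain ⟨b0, w0, e0, h0⟩ := L.ctr o.base.a0 lo.a0 hi.a0
  obtain ⟨b1, w1, e1, h1⟩ := L.ctr o.base.a1 lo.a1 hi.a1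
  obtain ⟨b2, w2, e2, h2⟩ := L.ctr o.base.a2 lo.a2 hi.a2
  obtain ⟨b3, w3, e3, h3⟩ := L.ctr o.base.a3 lo.a3 hi.a3
  obtain ⟨b4, w4, e4, h4⟩ := L.ctr o.base.a4 lo.a4 hi.a4
  obtain ⟨b5, w5, e5, h5⟩ := L.ctr o.base.a5 lo.a5 hi.a5
  obtain ⟨b6, w6, e6, h6⟩ := L.ctr o.base.a6 lo.a6 hi.a6
  obtain ⟨bx, e, hl, hh, hb⟩ := finBx_ex L lo hi ⟨b0, b1, b2, b3, b4, b5, b6⟩ ⟨w0, w1, w2, w3, w4, w5, w6⟩
  refine ⟨bx, fun k => by simp only [mkBx, e0, e1, e2, e3, e4, e5, e6, e], hl, hh,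
    fun P t ht h => hb P t h fun n hn => ?_⟩
  obtain ⟨g0, g1, g2, g3, g4, g5, g6⟩ := h
  interval_cases n
  · exact h0 (fun i => L.base0 i 0) t _ ht g0.1 g0.2
  · exact h1 (fun i => L.base0 i 1) t _ ht g1.1 g1.2
  · exact h2 (fun i => L.base0 i 2) t _ ht g2.1 g2.2
  · exact h3 (fun i => L.base0 i 3) t _ ht g3.1 g3.2
  · exact h4 (fun i => L.base0 i 4) t _ ht g4.1 g4.2
  · exact h5 (fun i => L.base0 i 5) t _ ht g5.1 g5.2
  · exact h6 (fun i => L.base0 i 6) t _ ht g6.1 g6.2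

theorem updBx_sp {bx : Bx α} {n : Nat} {lo hi : V7 α} {k : Bx α → Bool}
    (h : updBx o bx n lo hi k = true) : ∃ r, k r = true ∧
      (TT o t → BxOK o ι P t bx → InV o ι P t lo hi → BxOK o ι P t r) := by
  obtain ⟨b, w, e, hb⟩ := L.ctr (get7 o o.base n) (get7 o lo n) (get7 o hi n)
  rw [updBx, e] at h
  obtain ⟨B, h, hn, b1, b2⟩ := set7_sp o h
  obtain ⟨W, h, -, w1, w2⟩ := set7_sp o h
  obtain ⟨r, e, -, -, hr⟩ := finBx_ex L lo hi B W
  rw [e] at h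
  refine ⟨r, h, fun ht h1 h2 => hr P t h2 fun j hj => ?_⟩
  by_cases hjn : j = n
  · subst hjn
    rw [b1, w1]
    have := InV_iff.1 h2 j hj
    exact hb (fun i => L.base0 i j) t _ ht this.1 this.2
  · rw [b2 j hj hjn, w2 j hj hjn]
    exact h1.cn j hj

theorem linF_sp (ht : TT o t) {bx : Bx α} (hb : BxOK o ι P t bx) {f : Fx α} {k : Fx α → Bool}
    (h : linF o bx f k = true) : ∃ r, k r = true ∧ valF ι P t f ≤ valN ι P t r := by
  rcases f with ⟨c0, c1, a0, a1, a2, a3, a4, a5, a6, ch⟩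
  rcases cnd_sp h with ⟨h1, h⟩ | ⟨-, h⟩
  · exact ⟨_, h, by rw [valF_eq, L.isz _ h1]; linarith⟩
  · have k0 := hb.c0
    have k1 := hb.c1
    have k2 := hb.c2
    have k3 := hb.c3
    have k4 := hb.r7
    have k5 := hb.chB
    rcases bx with ⟨lo, hi, ⟨b0, b1, b2, b3, b4, b5, b6⟩, W, A4, A5, A6, r7, chB⟩
    simp only [L.frc] at h
    refine ⟨_, h, ?_⟩
    dsimp only at k0 k1 k2 k3 k4 k5
    have m1 := abs_mul_le k0 k3
    have m2 := abs_mul_le k1 k2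
    have w0 := w_nonneg ht.1 k0
    have w1 := w_nonneg ht.1 k1
    have w2 := w_nonneg ht.1 k2
    have w3 := w_nonneg ht.1 k3
    have tt : t * t ≤ t := by nlinarith [ht.1, ht.2.1]
    have m3 : |(Sr * P.x1 - ι b0) * (Sr * P.y4 - ι b3) - (Sr * P.y1 - ι b1) * (Sr * P.x4 - ι b2)| ≤
        t * ι r7 := by
      refine (abs_sub _ _).trans ?_
      rw [k4]
      nlinarith [mul_le_mul_of_nonneg_right tt (mul_nonneg w0 w3),
        mul_le_mul_of_nonneg_right tt (mul_nonneg w1 w2)]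
    have m4 := (le_abs_self _).trans (abs_mul_le (le_refl |ι ch|) m3)
    simp only [valF, valN, val4, val3, L.add, L.sub, L.mul, L.abs, k5, Prm.V, Prm.pt, crs]
    linarith

theorem lpart_sp {lo hi l : L10 α} (hr : InL o ι P t lo hi) {c0 c1 : α}
    {k : α → α → Bool} (h : lpart o lo hi l c0 c1 k = true) :
    ∃ d0 d1, k d0 d1 = true ∧ ι c0 + t * ι c1 + valL ι P l ≤ ι d0 + t * ι d1 := by
  rcases l with ⟨l0, l1, l2, l3, l4, l5, l6, l7, l8, l9⟩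
  cases lo; cases hi
  obtain ⟨h0, h1, h2, h3, h4, h5, h6, h7, h8, h9⟩ := hr
  have g0 := mx_ge L l0 h0
  have g1 := mx_ge L l1 h1
  have g2 := mx_ge L l2 h2
  have g3 := mx_ge L l3 h3
  have g4 := mx_ge L l4 h4
  have g5 := mx_ge L l5 h5
  have g6 := mx_ge L l6 h6
  have g7 := mx_ge L l7 h7
  have g8 := mx_ge L l8 h8
  have g9 := mx_ge L l9 h9
  simp only [lpart, mx0_eq L] at h
  dsimp only at g0 g1 g2 g3 g4 g5 g6 g7 g8 g9
  rcases cnd_sp h with ⟨-, h⟩ | ⟨hi, h⟩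
  · generalize o.basel = b at *
    cases b
    simp only [dotL, fma_eq L] at h
    refine ⟨_, _, h, ?_⟩
    simp only [valL, fmaV_val L, mxV_val L]
    linarith
  · refine ⟨_, _, h, ?_⟩
    have b0 : ι o.basel.l0 = 0 := L.basel0 hi 0
    have b1 : ι o.basel.l1 = 0 := L.basel0 hi 1
    have b2 : ι o.basel.l2 = 0 := L.basel0 hi 2
    have b3 : ι o.basel.l3 = 0 := L.basel0 hi 3
    have b4 : ι o.basel.l4 = 0 := L.basel0 hi 4
    have b5 : ι o.basel.l5 = 0 := L.basel0 hi 5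
    have b6 : ι o.basel.l6 = 0 := L.basel0 hi 6
    have b7 : ι o.basel.l7 = 0 := L.basel0 hi 7
    have b8 : ι o.basel.l8 = 0 := L.basel0 hi 8
    have b9 : ι o.basel.l9 = 0 := L.basel0 hi 9
    simp only [b0, b1, b2, b3, b4, b5, b6, b7, b8, b9] at g0 g1 g2 g3 g4 g5 g6 g7 g8 g9
    simp only [valL, mxV_val L]
    linarith

theorem fold456_sp {bx : Bx α} (hb : BxOK o ι P t bx) {f : Fx α} {k : Fx α → Bool}
    (h : fold456 o bx f k = true) : ∃ r, k r = true ∧ valN ι P t f ≤ val4 ι P t r := by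
  rcases f with ⟨c0, c1, a0, a1, a2, a3, a4, a5, a6, ch⟩
  obtain ⟨-, -, -, -, h4, h5, h6⟩ := hb.box
  have g4 := mx_ge L a4 h4
  have g5 := mx_ge L a5 h5
  have g6 := mx_ge L a6 h6
  rcases bx with ⟨⟨⟩, ⟨⟩, B, W, A4, A5, A6, r7, chB⟩
  simp only [fold456, mx0_eq L, fma_eq L] at h
  dsimp only at g4 g5 g6
  rcases cnd_sp h with ⟨-, h⟩ | ⟨hi, h⟩
  · refine ⟨_, h, ?_⟩
    simp only [valN, val4, val3, fmaV_val L, mxV_val L]
    linarith
  · refine ⟨_, h, ?_⟩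
    have b4 : ι o.base.a4 = 0 := L.base0 hi 4
    have b5 : ι o.base.a5 = 0 := L.base0 hi 5
    have b6 : ι o.base.a6 = 0 := L.base0 hi 6
    simp only [b4, b5, b6] at g4 g5 g6
    simp only [valN, val4, val3, mxV_val L]
    linarith

theorem top4_sp {bx : Bx α} (hb : BxOK o ι P t bx) {f : Fx α} {k : α → α → Bool}
    (h : top4 o bx f k = true) : ∃ x y, k x y = true ∧ val4 ι P t f ≤ ι x + t * ι y := by
  rcases f with ⟨c0, c1, a0, a1, a2, a3, a4, a5, a6, ch⟩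
  obtain ⟨h0, h1, h2, h3, -, -, -⟩ := hb.box
  have g0 := mx_ge L a0 h0
  have g1 := mx_ge L a1 h1
  have g2 := mx_ge L a2 h2
  have g3 := mx_ge L a3 h3
  rcases bx with ⟨⟨⟩, ⟨⟩, B, W, A4, A5, A6, r7, chB⟩
  simp only [top4, L.frc, fma_eq L] at h
  dsimp only at g0 g1 g2 g3
  rcases cnd_sp h with ⟨-, h⟩ | ⟨hi, h⟩
  · refine ⟨_, _, h, ?_⟩
    simp only [val4, fmaV_val L, L.add]
    linarith
  · refine ⟨_, _, h, ?_⟩
    have b0 : ι o.base.a0 = 0 := L.base0 hi 0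
    have b1 : ι o.base.a1 = 0 := L.base0 hi 1
    have b2 : ι o.base.a2 = 0 := L.base0 hi 2
    have b3 : ι o.base.a3 = 0 := L.base0 hi 3
    simp only [b0, b1, b2, b3] at g0 g1 g2 g3
    simp only [val4, L.add]
    linarith

theorem nonposF_sp (ht : TT o t) {bx : Bx α} (hb : BxOK o ι P t bx) {c0 c1 x : α} {f : Fx α}
    (h : nonposF o bx c0 c1 x f = true) : ι c0 + t * ι c1 + ι x * valN ι P t f ≤ 0 := by
  rw [nonposF, L.frc, L.frc] at h
  obtain ⟨g, h, e, -⟩ := axF_sp L P t h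
  obtain ⟨g2, h, e2⟩ := fold456_sp L hb h
  obtain ⟨x, y, h, e3⟩ := top4_sp L hb h
  have := leT_sp L ht h
  rw [cF_val L] at e
  linarith

theorem nonposA_sp (ht : TT o t) {bx : Bx α} (hb : BxOK o ι P t bx) {lo hi l : L10 α}
    (hr : InL o ι P t lo hi) {f : Fx α} (h : nonposA o bx lo hi f l = true) :
    valF ι P t f + valL ι P l ≤ 0 := by
  obtain ⟨g, h, e⟩ := linF_sp L ht hb h
  obtain ⟨c0, c1, h, e1⟩ := lpart_sp L hr h
  obtain ⟨g1, h, e2, -⟩ := setC_sp (ι := ι) P t h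
  obtain ⟨g2, h, e3⟩ := fold456_sp L hb h
  obtain ⟨x, y, h, e4⟩ := top4_sp L hb h
  have := leT_sp L ht h
  linarith

end

end Pool.Agent.Lib.MP_9d820d_co
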