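import Mathlib

set_option autoImplicit false

namespace Pool.Agent.Lib.MP_9d820d_co

noncomputable section

/-- the golden ratio -/
def gphi : ℝ := (1 + Real.sqrt 5) / 2

/-- cross product of two plane vectors -/
def crs (p q : ℝ × ℝ) : ℝ := p.1 * q.2 - p.2 * q.1

/-- twice the signed area of the triangle p q r -/
def cr3 (p q r : ℝ × ℝ) : ℝ := crs p q + crs q r + crs r p

/-- twice the signed (shoelace) area of the closed polygon a b c d e -/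
def sh5 (a b c d e : ℝ × ℝ) : ℝ := crs a b + crs b c + crs c d + crs d e + crs e a

/-- the quadratic form with matrix (al be; be ga) -/
def Qf (al be ga : ℝ) (v : ℝ × ℝ) : ℝ := al * v.1 ^ 2 + 2 * be * v.1 * v.2 + ga * v.2 ^ 2

/-- the length function of the quadratic form -/
def Lf (al be ga : ℝ) (v : ℝ × ℝ) : ℝ := Real.sqrt (Qf al be ga v)

/-- pq is a longest side of the triangle p q r and the altitude over it is at most 1 -/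
def Lg (al be ga : ℝ) (p q r : ℝ × ℝ) : Prop :=
  |cr3 p q r| ≤ Lf al be ga (p - q) ∧ Lf al be ga (p - r) ≤ Lf al be ga (p - q) ∧
    Lf al be ga (q - r) ≤ Lf al be ga (p - q)

/-- normalized counterexample: X is the point set in the affine frame of an area maximizing
five-tuple (0,0), (x1,y1), (1,-1/2), (1,1/2), (x4,y4); the Euclidean metric is the form al be ga -/
structure Cfg (X : Set (ℝ × ℝ)) (x1 y1 x4 y4 al be ga : ℝ) : Prop where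
  m0 : ((0 : ℝ), (0 : ℝ)) ∈ X
  m1 : (x1, y1) ∈ X
  m2 : ((1 : ℝ), (-1 / 2 : ℝ)) ∈ X
  m3 : ((1 : ℝ), (1 / 2 : ℝ)) ∈ X
  m4 : (x4, y4) ∈ X
  psd : ∀ v, 0 ≤ Qf al be ga v
  t3 : ∀ p ∈ X, ∀ q ∈ X, ∀ r ∈ X, Lg al be ga p q r ∨ Lg al be ga p r q ∨ Lg al be ga q r p
  area : ∀ a ∈ X, ∀ b ∈ X, ∀ c ∈ X, ∀ d ∈ X, ∀ e ∈ X,
    sh5 a b c d e ≤ sh5 (0, 0) (x1, y1) (1, -1 / 2) (1, 1 / 2) (x4, y4)
  t1 : 0 ≤ cr3 (x1, y1) (1, 1 / 2) (x4, y4) ∧ cr3 (x1, y1) (1, 1 / 2) (x4, y4) ≤ 1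
  t2 : 0 ≤ cr3 (1, -1 / 2) (x4, y4) (0, 0) ∧ cr3 (1, -1 / 2) (x4, y4) (0, 0) ≤ 1
  t3' : 0 ≤ cr3 (1, 1 / 2) (0, 0) (x1, y1) ∧ cr3 (1, 1 / 2) (0, 0) (x1, y1) ≤ 1
  t4 : 0 ≤ cr3 (x4, y4) (x1, y1) (1, -1 / 2) ∧ cr3 (x4, y4) (x1, y1) (1, -1 / 2) ≤ 1
  bx1 : -1 ≤ x1 ∧ x1 ≤ 1
  by1 : -1 ≤ y1 ∧ y1 ≤ 0
  bx4 : -1 ≤ x4 ∧ x4 ≤ 1
  by4 : 0 ≤ y4 ∧ y4 ≤ 1
  bal : 0 ≤ al ∧ al ≤ 8
  bbe : -8 ≤ be ∧ be ≤ 0
  bga : 0 ≤ ga ∧ ga ≤ 8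
  root : ∀ p ∈ X, 0 ≤ p.1 / 2 - p.2 + 1 ∧ 0 ≤ p.1 / 2 + p.2 + 1 ∧ 0 ≤ 2 - p.1
  wid : ∀ e : ℝ × ℝ, ∃ p ∈ X, ∃ q ∈ X, gphi * Lf al be ga e ≤ crs e p - crs e q
  neP : ¬ (x1 = 2 - gphi ∧ y1 = -gphi / 2 ∧ x4 = 2 - gphi ∧ y4 = gphi / 2 ∧
    al = (2 + gphi) / 4 ∧ be = 0 ∧ ga = 2 - gphi)

/-- the statement certified by computation -/
def CoreStmt : Prop :=
  ∀ (X : Set (ℝ × ℝ)) (x1 y1 x4 y4 al be ga : ℝ), ¬ Cfg X x1 y1 x4 y4 al be ga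

end

end Pool.Agent.Lib.MP_9d820d_co
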