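set_option autoImplicit false

namespace Pool.Agent.Lib.MP_9d820d_co

noncomputable section

def cnd {β : Type} (c : Bool) (a b : β) : β := Bool.rec (motive := fun _ => β) b a c
def band (a b : Bool) : Bool := Bool.rec (motive := fun _ => Bool) false b a
def bor (a b : Bool) : Bool := Bool.rec (motive := fun _ => Bool) b true a
def frcN (n : Nat) (k : Nat → Bool) : Bool :=
  Nat.rec (motive := fun _ => Bool) (k 0) (fun m _ => k (Nat.succ m)) n
def frcB (b : Bool) (k : Bool → Bool) : Bool := Bool.rec (motive := fun _ => Bool) (k false) (k true) b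
def frcI (n : Int) (k : Int → Bool) : Bool :=
  Int.rec (motive := fun _ => Bool) (fun m => frcN m (fun m => k (Int.ofNat m)))
    (fun m => frcN m (fun m => k (Int.negSucc m))) n
def nsub (m n : Nat) : Int :=
  Bool.rec (motive := fun _ => Int) (Int.negSucc (Nat.sub n (Nat.succ m))) (Int.ofNat (Nat.sub m n)) (Nat.ble n m)
def nneg (n : Nat) : Int := Nat.rec (motive := fun _ => Int) (Int.ofNat 0) (fun m _ => Int.negSucc m) n
def iadd (a b : Int) : Int :=
  Int.rec (motive := fun _ => Int)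
    (fun m => Int.rec (motive := fun _ => Int) (fun n => Int.ofNat (Nat.add m n)) (fun n => nsub m (Nat.succ n)) b)
    (fun m => Int.rec (motive := fun _ => Int) (fun n => nsub n (Nat.succ m))
      (fun n => Int.negSucc (Nat.succ (Nat.add m n))) b) a
def isub (a b : Int) : Int :=
  Int.rec (motive := fun _ => Int)
    (fun m => Int.rec (motive := fun _ => Int) (fun n => nsub m n) (fun n => Int.ofNat (Nat.succ (Nat.add m n))) b)
    (fun m => Int.rec (motive := fun _ => Int) (fun n => Int.negSucc (Nat.add m n)) (fun n => nsub n m) b) a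
def imul (a b : Int) : Int :=
  Int.rec (motive := fun _ => Int)
    (fun m => Int.rec (motive := fun _ => Int) (fun n => Int.ofNat (Nat.mul m n))
      (fun n => nneg (Nat.mul m (Nat.succ n))) b)
    (fun m => Int.rec (motive := fun _ => Int) (fun n => nneg (Nat.mul (Nat.succ m) n))
      (fun n => Int.ofNat (Nat.mul (Nat.succ m) (Nat.succ n))) b) a
def ineg (a : Int) : Int :=
  Int.rec (motive := fun _ => Int) (fun m => nneg m) (fun m => Int.ofNat (Nat.succ m)) a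
def iabs (a : Int) : Int :=
  Int.rec (motive := fun _ => Int) (fun m => Int.ofNat m) (fun m => Int.ofNat (Nat.succ m)) a
def iltz (a : Int) : Bool := Int.rec (motive := fun _ => Bool) (fun _ => false) (fun _ => true) a
def ilez (a : Int) : Bool :=
  Int.rec (motive := fun _ => Bool) (fun m => Nat.rec (motive := fun _ => Bool) true (fun _ _ => false) m)
    (fun _ => true) a
def iisz (a : Int) : Bool :=
  Int.rec (motive := fun _ => Bool) (fun m => Nat.rec (motive := fun _ => Bool) true (fun _ _ => false) m)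
    (fun _ => false) a
def ibeq (a b : Int) : Bool :=
  Int.rec (motive := fun _ => Bool)
    (fun m => Int.rec (motive := fun _ => Bool) (fun n => Nat.beq m n) (fun _ => false) b)
    (fun m => Int.rec (motive := fun _ => Bool) (fun _ => false) (fun n => Nat.beq m n) b) a
def ifdiv (a : Int) (d : Nat) : Int :=
  Int.rec (motive := fun _ => Int) (fun m => Int.ofNat (Nat.div m d)) (fun m => Int.negSucc (Nat.div m d)) a
def inat (a : Int) : Nat := Int.rec (motive := fun _ => Nat) (fun m => m) (fun _ => 0) a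

def sel7 {β : Type} (n : Nat) (x0 x1 x2 x3 x4 x5 x6 xd : β) : β :=
  Nat.rec (motive := fun _ => β) x0 (fun n _ => Nat.rec (motive := fun _ => β) x1 (fun n _ =>
    Nat.rec (motive := fun _ => β) x2 (fun n _ => Nat.rec (motive := fun _ => β) x3 (fun n _ =>
      Nat.rec (motive := fun _ => β) x4 (fun n _ => Nat.rec (motive := fun _ => β) x5 (fun n _ =>
        Nat.rec (motive := fun _ => β) x6 (fun _ _ => xd) n) n) n) n) n) n) n
def sel10 {β : Type} (n : Nat) (x0 x1 x2 x3 x4 x5 x6 x7 x8 x9 xd : β) : β :=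
  cnd (Nat.ble n 4) (sel7 n x0 x1 x2 x3 x4 xd xd xd) (sel7 (Nat.sub n 5) x5 x6 x7 x8 x9 xd xd xd)

def nthK {β : Type} (l : List β) (i : Nat) (k : β → Bool) : Bool :=
  List.rec (motive := fun _ => Nat → Bool) (fun _ => false)
    (fun a _ ih i => Nat.rec (motive := fun _ => Bool) (k a) (fun j _ => ih j) i) l i
def lall {β : Type} (l : List β) (f : β → Bool) : Bool :=
  List.rec (motive := fun _ => Bool) true (fun a _ ih => band (f a) ih) l
def lany {β : Type} (l : List β) (f : β → Bool) : Bool :=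
  List.rec (motive := fun _ => Bool) false (fun a _ ih => bor (f a) ih) l
/-- filter in continuation passing style -/
def lfil {β : Type} (l : List β) (f : β → Bool) (k : List β → Bool) : Bool :=
  List.rec (motive := fun _ => (List β → Bool) → Bool) (fun k => k [])
    (fun a _ ih k => ih (fun r => cnd (f a) (k (a :: r)) (k r))) l k
/-- sublist selected by the bits of a mask -/
def lmask {β : Type} (l : List β) (m : Nat) (k : List β → Bool) : Bool :=
  List.rec (motive := fun _ => Nat → (List β → Bool) → Bool) (fun _ k => k [])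
    (fun a _ ih m k => frcN (Nat.div m 2) (fun m2 => ih m2 (fun r =>
      cnd (Nat.beq (Nat.mod m 2) 0) (k r) (k (a :: r))))) l m k

/-- read a field below the modulus p -/
def rdN (p w : Nat) (k : Nat → Nat → Bool) : Bool :=
  frcN (Nat.mod w p) (fun u => frcN (Nat.div w p) (fun w => k u w))
def zz (u : Nat) : Int := cnd (Nat.beq (Nat.mod u 2) 0) (Int.ofNat (Nat.div u 2)) (Int.negSucc (Nat.div u 2))
/-- read a length coded integer -/
def rdV (p w : Nat) (k : Int → Nat → Bool) : Bool :=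
  rdN p w (fun n w => frcN (Nat.pow 2 n) (fun q => rdN q w (fun u w => frcI (zz u) (fun a => k a w))))
def rdI (w : Nat) (k : Int → Nat → Bool) : Bool := rdV 32 w k
def rdB (w : Nat) (k : Int → Nat → Bool) : Bool := rdV 256 w k

structure V7 (α : Type) where
  a0 : α
  a1 : α
  a2 : α
  a3 : α
  a4 : α
  a5 : α
  a6 : α

structure L10 (α : Type) where
  l0 : α
  l1 : α
  l2 : α
  l3 : α
  l4 : α
  l5 : α
  l6 : α
  l7 : α
  l8 : α
  l9 : α

structure Fx (α : Type) where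
  c0 : α
  c1 : α
  a0 : α
  a1 : α
  a2 : α
  a3 : α
  a4 : α
  a5 : α
  a6 : α
  ch : α

structure Mx (α : Type) where
  m12 : α
  m13 : α
  m14 : α
  m23 : α
  m24 : α
  m34 : α
  m15 : α
  m25 : α
  m35 : α
  m45 : α
  m16 : α
  m26 : α
  m36 : α
  m46 : α
  m56 : α
  e5x : α
  e5y : α
  e6x : α
  e6y : α

structure Line (α : Type) where
  nx : α
  ny : α
  c0 : α
  c1 : α

structure Vx (α : Type) where
  x0 : α
  y0 : α
  x1 : α
  y1 : α

structure Fact (α : Type) where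
  f : Fx α
  l : L10 α

structure Acc (α : Type) where
  f : Fx α
  l : L10 α
  m : Mx α

structure G3 where
  i : Nat
  j : Nat
  k : Nat

structure Bx (α : Type) where
  lo : V7 α
  hi : V7 α
  B : V7 α
  W : V7 α
  A4 : α
  A5 : α
  A6 : α
  r7 : α
  chB : α

structure St (α : Type) where
  bx : Bx α
  llo : L10 α
  lhi : L10 α
  facts : List (Fact α)
  gam : List G3
  root : List (Line α)
  ls5 : List (Line α)
  ls6 : List (Line α)
  ini : Acc α
  d5 : Acc α

structure Ops (α : Type) where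
  add : α → α → α
  sub : α → α → α
  mul : α → α → α
  neg : α → α
  abs : α → α
  ofI : Int → α
  ltz : α → Bool
  lez : α → Bool
  isz : α → Bool
  beq : α → α → Bool
  frc : α → (α → Bool) → Bool
  rd : Nat → (α → Nat → Bool) → Bool
  rd1 : Nat → (α → Nat → Bool) → Bool
  rdL : Nat → (α → Nat → Bool) → Bool
  rdLine : Nat → (Line α → Nat → Bool) → Bool
  aux : Line α → α
  cor : Line α → α → Line α → α → Nat → (Vx α → Nat → Bool) → Bool
  ctr : α → α → α → (α → α → Bool) → Bool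
  hnt : α → α → Nat
  inner : Bool
  zero : α
  s1 : α
  hf : α
  s2 : α
  s3 : α
  s4 : α
  phi : α
  base : V7 α
  basel : L10 α
  locLo : V7 α
  locHi : V7 α

inductive Tr where
  | lf (w : Nat)
  | n1 (w : Nat) (a : Tr)
  | n2 (w : Nat) (a b : Tr)
  | n3 (w : Nat) (a b c : Tr)

/-- the scale and its powers -/
def nS : Nat := 16777212
def nS2 : Nat := 281474842492944
def nS3 : Nat := 4722363105170729992128
def nS4 : Nat := 79228086956427633272689787136
def nS5 : Nat := 1329226411222421166074170369015544832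
def nS6 : Nat := 22300713297077739056513564005092026941968384

section
variable {α : Type} (o : Ops α)

def ofN (n : Nat) : α := o.ofI (Int.ofNat n)
def leT (x0 x1 : α) : Bool :=
  cnd o.inner (band (o.lez x0) (o.lez (o.add x0 x1))) (o.lez (o.add x0 x1))
def ltT (x0 x1 : α) : Bool :=
  cnd o.inner (band (o.lez x0) (o.ltz (o.add x0 x1))) (o.ltz (o.add x0 x1))
def le2 (x y : α) : Bool := o.lez (o.sub x y)
/-- acc + x * y, skipping zero y -/
def fma (acc x y : α) (k : α → Bool) : Bool := cnd (o.isz y) (k acc) (o.frc (o.add acc (o.mul x y)) k)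
/-- maximum of a * d over lo ≤ d ≤ hi -/
def mx (a lo hi : α) : α := cnd (o.ltz a) (o.mul a lo) (o.mul a hi)
def mx0 (acc a lo hi : α) (k : α → Bool) : Bool := cnd (o.isz a) (k acc) (o.frc (o.add acc (mx o a lo hi)) k)
def dbl (a : α) : α := o.add a a

def zV : V7 α := ⟨o.zero, o.zero, o.zero, o.zero, o.zero, o.zero, o.zero⟩
def zL : L10 α := ⟨o.zero, o.zero, o.zero, o.zero, o.zero, o.zero, o.zero, o.zero, o.zero, o.zero⟩
def zF : Fx α := ⟨o.zero, o.zero, o.zero, o.zero, o.zero, o.zero, o.zero, o.zero, o.zero, o.zero⟩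
def zM : Mx α := ⟨o.zero, o.zero, o.zero, o.zero, o.zero, o.zero, o.zero, o.zero, o.zero, o.zero, o.zero, o.zero, o.zero, o.zero, o.zero, o.zero, o.zero, o.zero, o.zero⟩
def zA : Acc α := ⟨zF o, zL o, zM o⟩
def zVx : Vx α := ⟨o.zero, o.zero, o.zero, o.zero⟩
def get7 (v : V7 α) (n : Nat) : α := V7.rec (motive := fun _ => α) (fun a0 a1 a2 a3 a4 a5 a6 => sel7 n a0 a1 a2 a3 a4 a5 a6 o.zero) v
def get10 (v : L10 α) (n : Nat) : α := L10.rec (motive := fun _ => α) (fun l0 l1 l2 l3 l4 l5 l6 l7 l8 l9 => sel10 n l0 l1 l2 l3 l4 l5 l6 l7 l8 l9 o.zero) v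
def set7 (v : V7 α) (n : Nat) (x : α) (k : V7 α → Bool) : Bool :=
  V7.rec (motive := fun _ => Bool) (fun a0 a1 a2 a3 a4 a5 a6 =>
    sel7 n (k ⟨x, a1, a2, a3, a4, a5, a6⟩)
      (k ⟨a0, x, a2, a3, a4, a5, a6⟩)
      (k ⟨a0, a1, x, a3, a4, a5, a6⟩)
      (k ⟨a0, a1, a2, x, a4, a5, a6⟩)
      (k ⟨a0, a1, a2, a3, x, a5, a6⟩)
      (k ⟨a0, a1, a2, a3, a4, x, a6⟩)
      (k ⟨a0, a1, a2, a3, a4, a5, x⟩) false) v
def set10 (v : L10 α) (n : Nat) (x : α) (k : L10 α → Bool) : Bool :=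
  L10.rec (motive := fun _ => Bool) (fun l0 l1 l2 l3 l4 l5 l6 l7 l8 l9 =>
    sel10 n (k ⟨x, l1, l2, l3, l4, l5, l6, l7, l8, l9⟩)
      (k ⟨l0, x, l2, l3, l4, l5, l6, l7, l8, l9⟩)
      (k ⟨l0, l1, x, l3, l4, l5, l6, l7, l8, l9⟩)
      (k ⟨l0, l1, l2, x, l4, l5, l6, l7, l8, l9⟩)
      (k ⟨l0, l1, l2, l3, x, l5, l6, l7, l8, l9⟩)
      (k ⟨l0, l1, l2, l3, l4, x, l6, l7, l8, l9⟩)
      (k ⟨l0, l1, l2, l3, l4, l5, x, l7, l8, l9⟩)
      (k ⟨l0, l1, l2, l3, l4, l5, l6, x, l8, l9⟩)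
      (k ⟨l0, l1, l2, l3, l4, l5, l6, l7, x, l9⟩)
      (k ⟨l0, l1, l2, l3, l4, l5, l6, l7, l8, x⟩) false) v
/-- u + x * v -/
def axF (u : Fx α) (x : α) (v : Fx α) (k : Fx α → Bool) : Bool :=
  Fx.rec (motive := fun _ => Bool) (fun c0 c1 a0 a1 a2 a3 a4 a5 a6 ch =>
    Fx.rec (motive := fun _ => Bool) (fun bc0 bc1 ba0 ba1 ba2 ba3 ba4 ba5 ba6 bch =>
    fma o c0 x bc0 (fun c0 =>
    fma o c1 x bc1 (fun c1 =>
    fma o a0 x ba0 (fun a0 =>
    fma o a1 x ba1 (fun a1 =>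
    fma o a2 x ba2 (fun a2 =>
    fma o a3 x ba3 (fun a3 =>
    fma o a4 x ba4 (fun a4 =>
    fma o a5 x ba5 (fun a5 =>
    fma o a6 x ba6 (fun a6 =>
    fma o ch x bch (fun ch =>
    k ⟨c0, c1, a0, a1, a2, a3, a4, a5, a6, ch⟩))))))))))) v) u
/-- u + x * v -/
def axL (u : L10 α) (x : α) (v : L10 α) (k : L10 α → Bool) : Bool :=
  L10.rec (motive := fun _ => Bool) (fun l0 l1 l2 l3 l4 l5 l6 l7 l8 l9 =>
    L10.rec (motive := fun _ => Bool) (fun bl0 bl1 bl2 bl3 bl4 bl5 bl6 bl7 bl8 bl9 =>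
    fma o l0 x bl0 (fun l0 =>
    fma o l1 x bl1 (fun l1 =>
    fma o l2 x bl2 (fun l2 =>
    fma o l3 x bl3 (fun l3 =>
    fma o l4 x bl4 (fun l4 =>
    fma o l5 x bl5 (fun l5 =>
    fma o l6 x bl6 (fun l6 =>
    fma o l7 x bl7 (fun l7 =>
    fma o l8 x bl8 (fun l8 =>
    fma o l9 x bl9 (fun l9 =>
    k ⟨l0, l1, l2, l3, l4, l5, l6, l7, l8, l9⟩))))))))))) v) u
/-- u + x * v -/
def axM (u : Mx α) (x : α) (v : Mx α) (k : Mx α → Bool) : Bool :=
  Mx.rec (motive := fun _ => Bool) (fun m12 m13 m14 m23 m24 m34 m15 m25 m35 m45 m16 m26 m36 m46 m56 e5x e5y e6x e6y =>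
    Mx.rec (motive := fun _ => Bool) (fun bm12 bm13 bm14 bm23 bm24 bm34 bm15 bm25 bm35 bm45 bm16 bm26 bm36 bm46 bm56 be5x be5y be6x be6y =>
    fma o m12 x bm12 (fun m12 =>
    fma o m13 x bm13 (fun m13 =>
    fma o m14 x bm14 (fun m14 =>
    fma o m23 x bm23 (fun m23 =>
    fma o m24 x bm24 (fun m24 =>
    fma o m34 x bm34 (fun m34 =>
    fma o m15 x bm15 (fun m15 =>
    fma o m25 x bm25 (fun m25 =>
    fma o m35 x bm35 (fun m35 =>
    fma o m45 x bm45 (fun m45 =>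
    fma o m16 x bm16 (fun m16 =>
    fma o m26 x bm26 (fun m26 =>
    fma o m36 x bm36 (fun m36 =>
    fma o m46 x bm46 (fun m46 =>
    fma o m56 x bm56 (fun m56 =>
    fma o e5x x be5x (fun e5x =>
    fma o e5y x be5y (fun e5y =>
    fma o e6x x be6x (fun e6x =>
    fma o e6y x be6y (fun e6y =>
    k ⟨m12, m13, m14, m23, m24, m34, m15, m25, m35, m45, m16, m26, m36, m46, m56, e5x, e5y, e6x, e6y⟩)))))))))))))))))))) v) u
def eqF (u v : Fx α) : Bool :=
  Fx.rec (motive := fun _ => Bool) (fun c0 c1 a0 a1 a2 a3 a4 a5 a6 ch =>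
    Fx.rec (motive := fun _ => Bool) (fun bc0 bc1 ba0 ba1 ba2 ba3 ba4 ba5 ba6 bch =>
    band (o.beq c0 bc0) (band (o.beq c1 bc1) (band (o.beq a0 ba0) (band (o.beq a1 ba1) (band (o.beq a2 ba2) (band (o.beq a3 ba3) (band (o.beq a4 ba4) (band (o.beq a5 ba5) (band (o.beq a6 ba6) (o.beq ch bch)))))))))) v) u
def eqL (u v : L10 α) : Bool :=
  L10.rec (motive := fun _ => Bool) (fun l0 l1 l2 l3 l4 l5 l6 l7 l8 l9 =>
    L10.rec (motive := fun _ => Bool) (fun bl0 bl1 bl2 bl3 bl4 bl5 bl6 bl7 bl8 bl9 =>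
    band (o.beq l0 bl0) (band (o.beq l1 bl1) (band (o.beq l2 bl2) (band (o.beq l3 bl3) (band (o.beq l4 bl4) (band (o.beq l5 bl5) (band (o.beq l6 bl6) (band (o.beq l7 bl7) (band (o.beq l8 bl8) (o.beq l9 bl9)))))))))) v) u
def eqLine (u v : Line α) : Bool :=
  Line.rec (motive := fun _ => Bool) (fun nx ny c0 c1 =>
    Line.rec (motive := fun _ => Bool) (fun bnx bny bc0 bc1 =>
    band (o.beq nx bnx) (band (o.beq ny bny) (band (o.beq c0 bc0) (o.beq c1 bc1)))) v) u
def leV (u v : V7 α) : Bool :=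
  V7.rec (motive := fun _ => Bool) (fun a0 a1 a2 a3 a4 a5 a6 =>
    V7.rec (motive := fun _ => Bool) (fun ba0 ba1 ba2 ba3 ba4 ba5 ba6 =>
    band (le2 o a0 ba0) (band (le2 o a1 ba1) (band (le2 o a2 ba2) (band (le2 o a3 ba3) (band (le2 o a4 ba4) (band (le2 o a5 ba5) (le2 o a6 ba6))))))) v) u
def leL (u v : L10 α) : Bool :=
  L10.rec (motive := fun _ => Bool) (fun l0 l1 l2 l3 l4 l5 l6 l7 l8 l9 =>
    L10.rec (motive := fun _ => Bool) (fun bl0 bl1 bl2 bl3 bl4 bl5 bl6 bl7 bl8 bl9 =>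
    band (le2 o l0 bl0) (band (le2 o l1 bl1) (band (le2 o l2 bl2) (band (le2 o l3 bl3) (band (le2 o l4 bl4) (band (le2 o l5 bl5) (band (le2 o l6 bl6) (band (le2 o l7 bl7) (band (le2 o l8 bl8) (le2 o l9 bl9)))))))))) v) u
def u12 (m : Mx α) (x : α) (k : Mx α → Bool) : Bool :=
  Mx.rec (motive := fun _ => Bool) (fun m12 m13 m14 m23 m24 m34 m15 m25 m35 m45 m16 m26 m36 m46 m56 e5x e5y e6x e6y =>
    o.frc (o.add m12 x) (fun y => k ⟨y, m13, m14, m23, m24, m34, m15, m25, m35, m45, m16, m26, m36, m46, m56, e5x, e5y, e6x, e6y⟩)) m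
def u13 (m : Mx α) (x : α) (k : Mx α → Bool) : Bool :=
  Mx.rec (motive := fun _ => Bool) (fun m12 m13 m14 m23 m24 m34 m15 m25 m35 m45 m16 m26 m36 m46 m56 e5x e5y e6x e6y =>
    o.frc (o.add m13 x) (fun y => k ⟨m12, y, m14, m23, m24, m34, m15, m25, m35, m45, m16, m26, m36, m46, m56, e5x, e5y, e6x, e6y⟩)) m
def u14 (m : Mx α) (x : α) (k : Mx α → Bool) : Bool :=
  Mx.rec (motive := fun _ => Bool) (fun m12 m13 m14 m23 m24 m34 m15 m25 m35 m45 m16 m26 m36 m46 m56 e5x e5y e6x e6y =>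
    o.frc (o.add m14 x) (fun y => k ⟨m12, m13, y, m23, m24, m34, m15, m25, m35, m45, m16, m26, m36, m46, m56, e5x, e5y, e6x, e6y⟩)) m
def u23 (m : Mx α) (x : α) (k : Mx α → Bool) : Bool :=
  Mx.rec (motive := fun _ => Bool) (fun m12 m13 m14 m23 m24 m34 m15 m25 m35 m45 m16 m26 m36 m46 m56 e5x e5y e6x e6y =>
    o.frc (o.add m23 x) (fun y => k ⟨m12, m13, m14, y, m24, m34, m15, m25, m35, m45, m16, m26, m36, m46, m56, e5x, e5y, e6x, e6y⟩)) m
def u24 (m : Mx α) (x : α) (k : Mx α → Bool) : Bool :=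
  Mx.rec (motive := fun _ => Bool) (fun m12 m13 m14 m23 m24 m34 m15 m25 m35 m45 m16 m26 m36 m46 m56 e5x e5y e6x e6y =>
    o.frc (o.add m24 x) (fun y => k ⟨m12, m13, m14, m23, y, m34, m15, m25, m35, m45, m16, m26, m36, m46, m56, e5x, e5y, e6x, e6y⟩)) m
def u34 (m : Mx α) (x : α) (k : Mx α → Bool) : Bool :=
  Mx.rec (motive := fun _ => Bool) (fun m12 m13 m14 m23 m24 m34 m15 m25 m35 m45 m16 m26 m36 m46 m56 e5x e5y e6x e6y =>
    o.frc (o.add m34 x) (fun y => k ⟨m12, m13, m14, m23, m24, y, m15, m25, m35, m45, m16, m26, m36, m46, m56, e5x, e5y, e6x, e6y⟩)) m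
def u15 (m : Mx α) (x : α) (k : Mx α → Bool) : Bool :=
  Mx.rec (motive := fun _ => Bool) (fun m12 m13 m14 m23 m24 m34 m15 m25 m35 m45 m16 m26 m36 m46 m56 e5x e5y e6x e6y =>
    o.frc (o.add m15 x) (fun y => k ⟨m12, m13, m14, m23, m24, m34, y, m25, m35, m45, m16, m26, m36, m46, m56, e5x, e5y, e6x, e6y⟩)) m
def u25 (m : Mx α) (x : α) (k : Mx α → Bool) : Bool :=
  Mx.rec (motive := fun _ => Bool) (fun m12 m13 m14 m23 m24 m34 m15 m25 m35 m45 m16 m26 m36 m46 m56 e5x e5y e6x e6y =>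
    o.frc (o.add m25 x) (fun y => k ⟨m12, m13, m14, m23, m24, m34, m15, y, m35, m45, m16, m26, m36, m46, m56, e5x, e5y, e6x, e6y⟩)) m
def u35 (m : Mx α) (x : α) (k : Mx α → Bool) : Bool :=
  Mx.rec (motive := fun _ => Bool) (fun m12 m13 m14 m23 m24 m34 m15 m25 m35 m45 m16 m26 m36 m46 m56 e5x e5y e6x e6y =>
    o.frc (o.add m35 x) (fun y => k ⟨m12, m13, m14, m23, m24, m34, m15, m25, y, m45, m16, m26, m36, m46, m56, e5x, e5y, e6x, e6y⟩)) m
def u45 (m : Mx α) (x : α) (k : Mx α → Bool) : Bool :=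
  Mx.rec (motive := fun _ => Bool) (fun m12 m13 m14 m23 m24 m34 m15 m25 m35 m45 m16 m26 m36 m46 m56 e5x e5y e6x e6y =>
    o.frc (o.add m45 x) (fun y => k ⟨m12, m13, m14, m23, m24, m34, m15, m25, m35, y, m16, m26, m36, m46, m56, e5x, e5y, e6x, e6y⟩)) m
def u16 (m : Mx α) (x : α) (k : Mx α → Bool) : Bool :=
  Mx.rec (motive := fun _ => Bool) (fun m12 m13 m14 m23 m24 m34 m15 m25 m35 m45 m16 m26 m36 m46 m56 e5x e5y e6x e6y =>
    o.frc (o.add m16 x) (fun y => k ⟨m12, m13, m14, m23, m24, m34, m15, m25, m35, m45, y, m26, m36, m46, m56, e5x, e5y, e6x, e6y⟩)) m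
def u26 (m : Mx α) (x : α) (k : Mx α → Bool) : Bool :=
  Mx.rec (motive := fun _ => Bool) (fun m12 m13 m14 m23 m24 m34 m15 m25 m35 m45 m16 m26 m36 m46 m56 e5x e5y e6x e6y =>
    o.frc (o.add m26 x) (fun y => k ⟨m12, m13, m14, m23, m24, m34, m15, m25, m35, m45, m16, y, m36, m46, m56, e5x, e5y, e6x, e6y⟩)) m
def u36 (m : Mx α) (x : α) (k : Mx α → Bool) : Bool :=
  Mx.rec (motive := fun _ => Bool) (fun m12 m13 m14 m23 m24 m34 m15 m25 m35 m45 m16 m26 m36 m46 m56 e5x e5y e6x e6y =>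
    o.frc (o.add m36 x) (fun y => k ⟨m12, m13, m14, m23, m24, m34, m15, m25, m35, m45, m16, m26, y, m46, m56, e5x, e5y, e6x, e6y⟩)) m
def u46 (m : Mx α) (x : α) (k : Mx α → Bool) : Bool :=
  Mx.rec (motive := fun _ => Bool) (fun m12 m13 m14 m23 m24 m34 m15 m25 m35 m45 m16 m26 m36 m46 m56 e5x e5y e6x e6y =>
    o.frc (o.add m46 x) (fun y => k ⟨m12, m13, m14, m23, m24, m34, m15, m25, m35, m45, m16, m26, m36, y, m56, e5x, e5y, e6x, e6y⟩)) m
def u56 (m : Mx α) (x : α) (k : Mx α → Bool) : Bool :=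
  Mx.rec (motive := fun _ => Bool) (fun m12 m13 m14 m23 m24 m34 m15 m25 m35 m45 m16 m26 m36 m46 m56 e5x e5y e6x e6y =>
    o.frc (o.add m56 x) (fun y => k ⟨m12, m13, m14, m23, m24, m34, m15, m25, m35, m45, m16, m26, m36, m46, y, e5x, e5y, e6x, e6y⟩)) m
def uZ (m : Mx α) (_x : α) (k : Mx α → Bool) : Bool := k m
def uF (_m : Mx α) (_x : α) (_k : Mx α → Bool) : Bool := false
/-- update for the cross product of points a < b -/
def updX (a b : Nat) : Mx α → α → (Mx α → Bool) → Bool :=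
  sel7 a (sel7 b uF uZ uZ uZ uZ uZ uZ uF)
    (sel7 b uF uF (u12 o) (u13 o) (u14 o) (u15 o) (u16 o) uF)
    (sel7 b uF uF uF (u23 o) (u24 o) (u25 o) (u26 o) uF)
    (sel7 b uF uF uF uF (u34 o) (u35 o) (u36 o) uF)
    (sel7 b uF uF uF uF uF (u45 o) (u46 o) uF)
    (sel7 b uF uF uF uF uF uF (u56 o) uF)
    (sel7 b uF uF uF uF uF uF uF uF) uF
/-- add xp * cross(P a, P b), where xn = - xp -/
def addX (a b : Nat) (xp xn : α) (m : Mx α) (k : Mx α → Bool) : Bool :=
  cnd (Nat.ble a b) (cnd (Nat.beq a b) (k m) (updX o a b m xp k)) (updX o b a m xn k)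
def addT (a b c : Nat) (xp xn : α) (m : Mx α) (k : Mx α → Bool) : Bool :=
  addX o a b xp xn m (fun m => addX o b c xp xn m (fun m => addX o c a xp xn m k))
def v0 (l : L10 α) (x : α) (k : L10 α → Bool) : Bool :=
  L10.rec (motive := fun _ => Bool) (fun l0 l1 l2 l3 l4 l5 l6 l7 l8 l9 =>
    o.frc (o.add l0 x) (fun y => k ⟨y, l1, l2, l3, l4, l5, l6, l7, l8, l9⟩)) l
def v1 (l : L10 α) (x : α) (k : L10 α → Bool) : Bool :=
  L10.rec (motive := fun _ => Bool) (fun l0 l1 l2 l3 l4 l5 l6 l7 l8 l9 =>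
    o.frc (o.add l1 x) (fun y => k ⟨l0, y, l2, l3, l4, l5, l6, l7, l8, l9⟩)) l
def v2 (l : L10 α) (x : α) (k : L10 α → Bool) : Bool :=
  L10.rec (motive := fun _ => Bool) (fun l0 l1 l2 l3 l4 l5 l6 l7 l8 l9 =>
    o.frc (o.add l2 x) (fun y => k ⟨l0, l1, y, l3, l4, l5, l6, l7, l8, l9⟩)) l
def v3 (l : L10 α) (x : α) (k : L10 α → Bool) : Bool :=
  L10.rec (motive := fun _ => Bool) (fun l0 l1 l2 l3 l4 l5 l6 l7 l8 l9 =>
    o.frc (o.add l3 x) (fun y => k ⟨l0, l1, l2, y, l4, l5, l6, l7, l8, l9⟩)) l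
def v4 (l : L10 α) (x : α) (k : L10 α → Bool) : Bool :=
  L10.rec (motive := fun _ => Bool) (fun l0 l1 l2 l3 l4 l5 l6 l7 l8 l9 =>
    o.frc (o.add l4 x) (fun y => k ⟨l0, l1, l2, l3, y, l5, l6, l7, l8, l9⟩)) l
def v5 (l : L10 α) (x : α) (k : L10 α → Bool) : Bool :=
  L10.rec (motive := fun _ => Bool) (fun l0 l1 l2 l3 l4 l5 l6 l7 l8 l9 =>
    o.frc (o.add l5 x) (fun y => k ⟨l0, l1, l2, l3, l4, y, l6, l7, l8, l9⟩)) l
def v6 (l : L10 α) (x : α) (k : L10 α → Bool) : Bool :=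
  L10.rec (motive := fun _ => Bool) (fun l0 l1 l2 l3 l4 l5 l6 l7 l8 l9 =>
    o.frc (o.add l6 x) (fun y => k ⟨l0, l1, l2, l3, l4, l5, y, l7, l8, l9⟩)) l
def v7 (l : L10 α) (x : α) (k : L10 α → Bool) : Bool :=
  L10.rec (motive := fun _ => Bool) (fun l0 l1 l2 l3 l4 l5 l6 l7 l8 l9 =>
    o.frc (o.add l7 x) (fun y => k ⟨l0, l1, l2, l3, l4, l5, l6, y, l8, l9⟩)) l
def v8 (l : L10 α) (x : α) (k : L10 α → Bool) : Bool :=
  L10.rec (motive := fun _ => Bool) (fun l0 l1 l2 l3 l4 l5 l6 l7 l8 l9 =>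
    o.frc (o.add l8 x) (fun y => k ⟨l0, l1, l2, l3, l4, l5, l6, l7, y, l9⟩)) l
def v9 (l : L10 α) (x : α) (k : L10 α → Bool) : Bool :=
  L10.rec (motive := fun _ => Bool) (fun l0 l1 l2 l3 l4 l5 l6 l7 l8 l9 =>
    o.frc (o.add l9 x) (fun y => k ⟨l0, l1, l2, l3, l4, l5, l6, l7, l8, y⟩)) l
def vF (_l : L10 α) (_x : α) (_k : L10 α → Bool) : Bool := false
/-- add x to the coefficient of the length of the pair a b -/
def updL (a b : Nat) : L10 α → α → (L10 α → Bool) → Bool :=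
  sel7 a (sel7 b vF (v0 o) (v1 o) (v2 o) (v3 o) vF vF vF)
    (sel7 b (v0 o) vF (v4 o) (v5 o) (v6 o) vF vF vF)
    (sel7 b (v1 o) (v4 o) vF (v7 o) (v8 o) vF vF vF)
    (sel7 b (v2 o) (v5 o) (v7 o) vF (v9 o) vF vF vF)
    (sel7 b (v3 o) (v6 o) (v8 o) (v9 o) vF vF vF vF)
    vF
    vF vF
def updJ (j : Nat) : L10 α → α → (L10 α → Bool) → Bool :=
  sel10 j (v0 o) (v1 o) (v2 o) (v3 o) (v4 o) (v5 o) (v6 o) (v7 o) (v8 o) (v9 o) vF
/-- coefficients of V1 V2 V3 V4 in the vector of pair j -/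
def pairC (j : Nat) (k : α → α → α → α → Bool) : Bool :=
  sel10 j (k (o.neg o.s1) o.zero o.zero o.zero)
    (k o.zero (o.neg o.s1) o.zero o.zero)
    (k o.zero o.zero (o.neg o.s1) o.zero)
    (k o.zero o.zero o.zero (o.neg o.s1))
    (k o.s1 (o.neg o.s1) o.zero o.zero)
    (k o.s1 o.zero (o.neg o.s1) o.zero)
    (k o.s1 o.zero o.zero (o.neg o.s1))
    (k o.zero o.s1 (o.neg o.s1) o.zero)
    (k o.zero o.s1 o.zero (o.neg o.s1))
    (k o.zero o.zero o.s1 (o.neg o.s1)) false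
/-- derived data of a box -/
def finBx (lo hi B W : V7 α) (k : Bx α → Bool) : Bool :=
  V7.rec (motive := fun _ => Bool) (fun b0 b1 b2 b3 b4 b5 b6 =>
    V7.rec (motive := fun _ => Bool) (fun w0 w1 w2 w3 w4 w5 w6 =>
      o.frc (o.add (o.abs b4) w4) (fun A4 => o.frc (o.add (o.abs b5) w5) (fun A5 =>
      o.frc (o.add (o.abs b6) w6) (fun A6 => o.frc (o.add (o.mul w0 w3) (o.mul w1 w2)) (fun r7 =>
      o.frc (o.sub (o.mul b0 b3) (o.mul b1 b2)) (fun chB => k ⟨lo, hi, B, W, A4, A5, A6, r7, chB⟩)))))) W) B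
def mkBx (lo hi : V7 α) (k : Bx α → Bool) : Bool :=
  o.ctr o.base.a0 lo.a0 hi.a0 (fun b0 w0 => o.ctr o.base.a1 lo.a1 hi.a1 (fun b1 w1 =>
  o.ctr o.base.a2 lo.a2 hi.a2 (fun b2 w2 => o.ctr o.base.a3 lo.a3 hi.a3 (fun b3 w3 =>
  o.ctr o.base.a4 lo.a4 hi.a4 (fun b4 w4 => o.ctr o.base.a5 lo.a5 hi.a5 (fun b5 w5 =>
  o.ctr o.base.a6 lo.a6 hi.a6 (fun b6 w6 =>
    finBx o lo hi ⟨b0, b1, b2, b3, b4, b5, b6⟩ ⟨w0, w1, w2, w3, w4, w5, w6⟩ k)))))))
/-- new box lo hi which differs from the old one in coordinate n only -/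
def updBx (bx : Bx α) (n : Nat) (lo hi : V7 α) (k : Bx α → Bool) : Bool :=
  o.ctr (get7 o o.base n) (get7 o lo n) (get7 o hi n) (fun b w =>
    set7 bx.B n b (fun B => set7 bx.W n w (fun W => finBx o lo hi B W k)))

/-- replace ch * cross(V1,V4) by an affine upper bound -/
def linF (bx : Bx α) (f : Fx α) (k : Fx α → Bool) : Bool :=
  Fx.rec (motive := fun _ => Bool) (fun c0 c1 a0 a1 a2 a3 a4 a5 a6 ch =>
    cnd (o.isz ch) (k f) (V7.rec (motive := fun _ => Bool) (fun b0 b1 b2 b3 _ _ _ =>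
      o.frc (o.add a0 (o.mul ch b3)) (fun a0 => o.frc (o.sub a1 (o.mul ch b2)) (fun a1 =>
      o.frc (o.sub a2 (o.mul ch b1)) (fun a2 => o.frc (o.add a3 (o.mul ch b0)) (fun a3 =>
      o.frc (o.sub c0 (o.mul ch bx.chB)) (fun c0 => o.frc (o.add c1 (o.mul (o.abs ch) bx.r7)) (fun c1 =>
        k ⟨c0, c1, a0, a1, a2, a3, a4, a5, a6, o.zero⟩))))))) bx.B)) f
/-- c + sum of l_j * b_j -/
def dotL (c : α) (b l : L10 α) (k : α → Bool) : Bool :=
  L10.rec (motive := fun _ => Bool) (fun l0 l1 l2 l3 l4 l5 l6 l7 l8 l9 =>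
    L10.rec (motive := fun _ => Bool) (fun b0 b1 b2 b3 b4 b5 b6 b7 b8 b9 =>
      fma o c b0 l0 (fun c => fma o c b1 l1 (fun c => fma o c b2 l2 (fun c => fma o c b3 l3 (fun c =>
      fma o c b4 l4 (fun c => fma o c b5 l5 (fun c => fma o c b6 l6 (fun c => fma o c b7 l7 (fun c =>
      fma o c b8 l8 (fun c => fma o c b9 l9 k)))))))))) b) l
/-- bound the length part by the ranges and add it to the constants -/
def lpart (llo lhi l : L10 α) (c0 c1 : α) (k : α → α → Bool) : Bool :=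
  L10.rec (motive := fun _ => Bool) (fun l0 l1 l2 l3 l4 l5 l6 l7 l8 l9 =>
    L10.rec (motive := fun _ => Bool) (fun p0 p1 p2 p3 p4 p5 p6 p7 p8 p9 =>
      L10.rec (motive := fun _ => Bool) (fun q0 q1 q2 q3 q4 q5 q6 q7 q8 q9 =>
        mx0 o c1 l0 p0 q0 (fun c => mx0 o c l1 p1 q1 (fun c => mx0 o c l2 p2 q2 (fun c =>
        mx0 o c l3 p3 q3 (fun c => mx0 o c l4 p4 q4 (fun c => mx0 o c l5 p5 q5 (fun c =>
        mx0 o c l6 p6 q6 (fun c => mx0 o c l7 p7 q7 (fun c => mx0 o c l8 p8 q8 (fun c =>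
        mx0 o c l9 p9 q9 (fun c1 =>
          cnd o.inner (dotL o c0 o.basel l (fun c0 => k c0 c1)) (k c0 c1)))))))))))) lhi) llo) l
/-- bound the part a4 a5 a6 and add it to the constants -/
def fold456 (bx : Bx α) (f : Fx α) (k : Fx α → Bool) : Bool :=
  Fx.rec (motive := fun _ => Bool) (fun c0 c1 a0 a1 a2 a3 a4 a5 a6 ch =>
    V7.rec (motive := fun _ => Bool) (fun _ _ _ _ p4 p5 p6 =>
      V7.rec (motive := fun _ => Bool) (fun _ _ _ _ q4 q5 q6 =>
        mx0 o c1 a4 p4 q4 (fun c => mx0 o c a5 p5 q5 (fun c => mx0 o c a6 p6 q6 (fun c1 =>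
          cnd o.inner (fma o c0 o.base.a4 a4 (fun c => fma o c o.base.a5 a5 (fun c =>
              fma o c o.base.a6 a6 (fun c0 => k ⟨c0, c1, a0, a1, a2, a3, a4, a5, a6, ch⟩))))
            (k ⟨c0, c1, a0, a1, a2, a3, a4, a5, a6, ch⟩))))) bx.hi) bx.lo) f
/-- bound the part a0 .. a3; the value is at most F0 + t * H -/
def top4 (bx : Bx α) (f : Fx α) (k : α → α → Bool) : Bool :=
  Fx.rec (motive := fun _ => Bool) (fun c0 c1 a0 a1 a2 a3 _ _ _ _ =>
    V7.rec (motive := fun _ => Bool) (fun p0 p1 p2 p3 _ _ _ =>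
      V7.rec (motive := fun _ => Bool) (fun q0 q1 q2 q3 _ _ _ =>
        o.frc (o.add (o.add (o.add c1 (mx o a0 p0 q0)) (mx o a1 p1 q1))
            (o.add (mx o a2 p2 q2) (mx o a3 p3 q3))) (fun c1 =>
          cnd o.inner (fma o c0 o.base.a0 a0 (fun c => fma o c o.base.a1 a1 (fun c =>
              fma o c o.base.a2 a2 (fun c => fma o c o.base.a3 a3 (fun c0 => k c0 c1)))))
            (k c0 c1))) bx.hi) bx.lo) f
def setC (f : Fx α) (c0 c1 : α) (k : Fx α → Bool) : Bool :=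
  Fx.rec (motive := fun _ => Bool) (fun _ _ a0 a1 a2 a3 a4 a5 a6 ch => k ⟨c0, c1, a0, a1, a2, a3, a4, a5, a6, ch⟩) f
def cF (c0 c1 : α) : Fx α := ⟨c0, c1, o.zero, o.zero, o.zero, o.zero, o.zero, o.zero, o.zero, o.zero⟩
/-- c0 + t c1 + x * (f without ch) ≤ 0 on the box -/
def nonposF (bx : Bx α) (c0 c1 x : α) (f : Fx α) : Bool :=
  o.frc c0 (fun c0 => o.frc c1 (fun c1 =>
    axF o (cF o c0 c1) x f (fun g => fold456 o bx g (fun g => top4 o bx g (leT o)))))
/-- f + l ≤ 0 on the box and the ranges -/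
def nonposA (bx : Bx α) (llo lhi : L10 α) (f : Fx α) (l : L10 α) : Bool :=
  linF o bx f (fun f => lpart o llo lhi l f.c0 f.c1 (fun c0 c1 => setC f c0 c1 (fun f =>
    fold456 o bx f (fun f => top4 o bx f (leT o)))))

/-- remainder bounds of the quadratic form at base vector v with displacement at most t * w -/
def remB (bx : Bx α) (vx vy wx wy : α) (k : α → α → Bool) : Bool :=
  V7.rec (motive := fun _ => Bool) (fun _ _ _ _ w4 w5 w6 =>
    o.frc (o.abs vx) (fun ax => o.frc (o.abs vy) (fun ay =>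
    o.frc (dbl o (o.add (o.mul wx (o.add (o.mul w4 ax) (o.mul w5 ay)))
        (o.mul wy (o.add (o.mul w5 ax) (o.mul w6 ay))))) (fun qm =>
    o.frc (o.mul bx.A5 wy) (fun y5 =>
    o.frc (o.add qm (o.add (o.mul wx (o.add (o.mul bx.A4 wx) (dbl o y5))) (o.mul bx.A6 (o.mul wy wy))))
      (fun qp => k qm qp)))))) bx.W
/-- affine model of Q(c1 V1 + c2 V2 + c3 V3 + c4 V4 + t e) with lower and upper remainders -/
def qtm (bx : Bx α) (c1 c2 c3 c4 ex ey : α) (k : Fx α → α → α → Bool) : Bool :=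
  V7.rec (motive := fun _ => Bool) (fun b0 b1 b2 b3 b4 b5 b6 =>
    V7.rec (motive := fun _ => Bool) (fun w0 w1 w2 w3 _ _ _ =>
      o.frc (o.add (o.add (o.mul c1 b0) (o.mul c4 b2)) (o.mul o.s1 (o.add c2 c3))) (fun vx =>
      o.frc (o.add (o.add (o.mul c1 b1) (o.mul c4 b3)) (o.mul o.hf (o.sub c3 c2))) (fun vy =>
      o.frc (o.add (o.mul b4 vx) (o.mul b5 vy)) (fun hx => o.frc (dbl o hx) (fun cx =>
      o.frc (o.add (o.mul b5 vx) (o.mul b6 vy)) (fun hy => o.frc (dbl o hy) (fun cy =>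
      o.frc (o.mul c1 cx) (fun a0 => o.frc (o.mul c1 cy) (fun a1 =>
      o.frc (o.mul c4 cx) (fun a2 => o.frc (o.mul c4 cy) (fun a3 =>
      o.frc (o.mul vx vx) (fun a4 => o.frc (o.mul vx vy) (fun h5 => o.frc (dbl o h5) (fun a5 =>
      o.frc (o.mul vy vy) (fun a6 =>
      o.frc (o.neg (o.add (o.add (o.mul a0 b0) (o.mul a1 b1)) (o.add (o.mul a2 b2) (o.mul a3 b3)))) (fun k0 =>
      o.frc (o.add (o.mul cx ex) (o.mul cy ey)) (fun k1 =>
      o.frc (o.abs c1) (fun n1 => o.frc (o.abs c4) (fun n4 =>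
      o.frc (o.add (o.abs ex) (o.add (o.mul n1 w0) (o.mul n4 w2))) (fun wx =>
      o.frc (o.add (o.abs ey) (o.add (o.mul n1 w1) (o.mul n4 w3))) (fun wy =>
      remB o bx vx vy wx wy (fun qm qp =>
        k ⟨k0, k1, a0, a1, a2, a3, a4, a5, a6, o.zero⟩ qm qp)))))))))))))))))))))) bx.W) bx.B
/-- the length is at most b + t u (f, qp at scale S^5) -/
def upOK (bx : Bx α) (f : Fx α) (qp b u : α) : Bool :=
  band (leT o (o.neg b) (o.neg u))
    (nonposF o bx (o.neg (o.mul o.s3 (o.mul b b)))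
      (o.sub qp (o.mul o.s3 (o.mul u (o.add (dbl o b) (cnd o.inner o.zero u))))) (ofN o 1) f)
/-- the length is at least b + t d -/
def loOK (bx : Bx α) (f : Fx α) (qm b d : α) : Bool :=
  bor (leT o b d)
    (nonposF o bx (o.mul o.s3 (o.mul b b)) (o.add qm (o.mul o.s3 (o.mul d (o.add (dbl o b) d))))
      (o.ofI (Int.negSucc 0)) f)

/-! terms of a leaf -/
def addLen (i j lam : Nat) (l : L10 α) (pd : List G3) (k : L10 α → List G3 → Bool) : Bool :=
  cnd (band (Nat.ble i 4) (Nat.ble j 4))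
    (o.frc (ofN o (Nat.mul lam nS5)) (fun x => updL o i j l x (fun l => k l pd)))
    (cnd (Nat.ble i j) (k l (⟨i, j, lam⟩ :: pd)) (k l (⟨j, i, lam⟩ :: pd)))
def Kt (α : Type) : Type := Fx α → L10 α → Mx α → List G3 → Nat → Bool
def tTri (st : St α) (lam : Nat) (f : Fx α) (l : L10 α) (m : Mx α) (pd : List G3) (w : Nat) (k : Kt α) : Bool :=
  rdN 32 w (fun n w => rdN 2 w (fun s w => nthK st.gam n (fun g =>
    G3.rec (motive := fun _ => Bool) (fun i j h =>
      o.frc (ofN o (Nat.mul lam nS4)) (fun xp => o.frc (o.neg xp) (fun xn =>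
        addLen o i j lam l pd (fun l pd =>
          cnd (Nat.beq s 0) (addT o i j h xp xn m (fun m => k f l m pd w))
            (addT o i j h xn xp m (fun m => k f l m pd w)))))) g)))
def tLong (st : St α) (lam : Nat) (f : Fx α) (l : L10 α) (m : Mx α) (pd : List G3) (w : Nat) (k : Kt α) : Bool :=
  rdN 32 w (fun n w => rdN 2 w (fun s w => nthK st.gam n (fun g =>
    G3.rec (motive := fun _ => Bool) (fun i j h =>
      o.frc (o.neg (ofN o (Nat.mul lam nS5))) (fun xn =>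
        addLen o i j lam l pd (fun l pd =>
          updL o (cnd (Nat.beq s 0) i j) h l xn (fun l => k f l m pd w)))) g)))
def nxt (i : Nat) : Nat := Nat.mod (Nat.succ i) 5
def tArea (_st : St α) (lam : Nat) (f : Fx α) (l : L10 α) (m : Mx α) (pd : List G3) (w : Nat) (k : Kt α) : Bool :=
  rdN 8 w (fun i w => rdN 8 w (fun j w => rdN 8 w (fun h w =>
    cnd (band (band (Nat.ble i 4) (Nat.ble j 4)) (cnd (Nat.beq i j) false true))
      (frcN (Nat.mod (Nat.add i 4) 5) (fun a => frcN (nxt i) (fun b =>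
        frcN (cnd (Nat.beq j a) b (nxt j)) (fun j2 =>
        o.frc (ofN o (Nat.mul lam nS4)) (fun xp => o.frc (o.neg xp) (fun xn =>
          addT o a i b xp xn m (fun m => addT o j h j2 xn xp m (fun m => k f l m pd w))))))))
      false)))
def tMax (_st : St α) (lam : Nat) (f : Fx α) (l : L10 α) (m : Mx α) (pd : List G3) (w : Nat) (k : Kt α) : Bool :=
  rdN 4 w (fun i w => frcN (Nat.succ i) (fun i =>
    frcN (Nat.mod (Nat.add i 2) 5) (fun a => frcN (Nat.mod (Nat.add i 3) 5) (fun b =>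
      o.frc (ofN o (Nat.mul lam nS4)) (fun xp => o.frc (o.neg xp) (fun xn =>
      o.frc (o.add f.c0 (ofN o (Nat.mul lam nS6))) (fun c0 => setC f c0 f.c1 (fun f =>
        addT o i a b xn xp m (fun m => k f l m pd w)))))))))
def tPos (_st : St α) (lam : Nat) (f : Fx α) (l : L10 α) (m : Mx α) (pd : List G3) (w : Nat) (k : Kt α) : Bool :=
  rdN 4 w (fun i w => frcN (Nat.succ i) (fun i =>
    frcN (Nat.mod (Nat.add i 2) 5) (fun a => frcN (Nat.mod (Nat.add i 3) 5) (fun b =>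
      o.frc (ofN o (Nat.mul lam nS4)) (fun xp => o.frc (o.neg xp) (fun xn =>
        addT o i a b xp xn m (fun m => k f l m pd w)))))))
def tPsd (_st : St α) (lam : Nat) (f : Fx α) (l : L10 α) (m : Mx α) (pd : List G3) (w : Nat) (k : Kt α) : Bool :=
  rdI w (fun ux w => rdI w (fun uy w => o.frc (ofN o (Nat.mul lam nS4)) (fun x =>
    axF o f x ⟨o.zero, o.zero, o.zero, o.zero, o.zero, o.zero, o.ofI (imul ux ux),
      o.ofI (imul (iadd ux ux) uy), o.ofI (imul uy uy), o.zero⟩ (fun f => k f l m pd w))))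
def tAff (st : St α) (lam : Nat) (f : Fx α) (l : L10 α) (m : Mx α) (pd : List G3) (w : Nat) (k : Kt α) : Bool :=
  rdN 128 w (fun n w => nthK st.facts n (fun g => o.frc (ofN o lam) (fun x =>
    axF o f x g.f (fun f => axL o l x g.l (fun l => k f l m pd w)))))
def tDir (st : St α) (lam : Nat) (f : Fx α) (l : L10 α) (m : Mx α) (pd : List G3) (w : Nat) (k : Kt α) : Bool :=
  o.frc (ofN o (Nat.mul lam nS3)) (fun x =>
    axF o f x st.d5.f (fun f => axL o l x st.d5.l (fun l => axM o m x st.d5.m (fun m => k f l m pd w))))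
def trms (st : St α) (pb ps nt : Nat) (k : Kt α) : Kt α :=
  Nat.rec (motive := fun _ => Kt α) k (fun _ ih f l m pd w =>
    rdN 8 w (fun kind w => rdN pb w (fun u w => frcN (Nat.mul u ps) (fun lam =>
      sel7 kind (tTri o) (tLong o) (tArea o) (tMax o) (tPos o) (tPsd o) (tAff o) (tDir o)
        st lam f l m pd w ih)))) nt

/-- vertices of a polygon whose sides are taken from ls -/
def poly (ls : List (Line α)) (w : Nat) (k : List (Vx α) → Nat → Bool) : Bool :=
  rdN 16 w (fun n w => rdN 32 w (fun i w => nthK ls i (fun a => o.frc (o.aux a) (fun xa =>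
    Nat.rec (motive := fun _ => Line α → α → List (Vx α) → Nat → Bool)
      (fun p xp vs w => o.cor p xp a xa w (fun v w => k (v :: vs) w))
      (fun _ ih p xp vs w => rdN 32 w (fun i w => nthK ls i (fun b => o.frc (o.aux b) (fun xb =>
        o.cor p xp b xb w (fun v w => ih b xb (v :: vs) w)))))
      n a xa [] w))))
/-- add an upper bound of cross(m1 V1 + m4 V4 + (kx,ky) + t (ex,ey), v) -/
def ptUpd (bx : Bx α) (m1 m4 kx ky ex ey : α) (f : Fx α) (v : Vx α) (k : Fx α → Bool) : Bool :=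
  Fx.rec (motive := fun _ => Bool) (fun c0 c1 a0 a1 a2 a3 a4 a5 a6 ch =>
    Vx.rec (motive := fun _ => Bool) (fun x0 y0 x1 y1 =>
      o.frc (o.neg x0) (fun n0 =>
      fma o a0 y0 m1 (fun a0 => fma o a1 n0 m1 (fun a1 => fma o a2 y0 m4 (fun a2 => fma o a3 n0 m4 (fun a3 =>
      o.frc (o.add c0 (o.add (o.mul kx y0) (o.mul ky n0))) (fun c0 =>
      fma o c1 y0 ex (fun c1 => fma o c1 n0 ey (fun c1 =>
      cnd o.inner
        (o.frc (o.add (o.add c1 (o.sub
              (o.mul y1 (o.add kx (o.add (o.mul m1 bx.B.a0) (o.mul m4 bx.B.a2))))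
              (o.mul x1 (o.add ky (o.add (o.mul m1 bx.B.a1) (o.mul m4 bx.B.a3))))))
            (o.add
              (o.mul (o.abs y1) (o.add (o.abs ex) (o.add (o.mul (o.abs m1) bx.W.a0) (o.mul (o.abs m4) bx.W.a2))))
              (o.mul (o.abs x1) (o.add (o.abs ey) (o.add (o.mul (o.abs m1) bx.W.a1) (o.mul (o.abs m4) bx.W.a3))))))
          (fun c1 => k ⟨c0, c1, a0, a1, a2, a3, a4, a5, a6, ch⟩))
        (k ⟨c0, c1, a0, a1, a2, a3, a4, a5, a6, ch⟩)))))))))) v) f
/-- base point, first order part and displacement bounds of point i -/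
def pnt (bx : Bx α) (v5 v6 : Vx α) (i : Nat) (k : α → α → α → α → α → α → Bool) : Bool :=
  sel7 i (k o.zero o.zero o.zero o.zero o.zero o.zero) (k bx.B.a0 bx.B.a1 o.zero o.zero bx.W.a0 bx.W.a1)
    (k o.s1 (o.neg o.hf) o.zero o.zero o.zero o.zero) (k o.s1 o.hf o.zero o.zero o.zero o.zero)
    (k bx.B.a2 bx.B.a3 o.zero o.zero bx.W.a2 bx.W.a3)
    (k v5.x0 v5.y0 v5.x1 v5.y1 o.zero o.zero) (k v6.x0 v6.y0 v6.x1 v6.y1 o.zero o.zero) false
def isVar (i : Nat) : Bool := bor (Nat.beq i 1) (Nat.beq i 4)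
/-- second half of qpd -/
def qpd2 (bx : Bx α) (i mu : Nat) (vx vy cx cy k1 qp : α) (f : Fx α) (k : Fx α → Bool) : Bool :=
  frcN (o.hnt (o.add (o.mul cx vx) (o.mul cy vy)) qp) (fun h0 => frcN (Nat.succ h0) (fun h =>
  frcN (Nat.mul mu nS) (fun ms =>
  o.frc (ofN o (Nat.mul (Nat.div (Nat.add (Nat.mul ms 32768) h0) h) nS2)) (fun a =>
  o.frc (ofN o (Nat.mul (Nat.div (Nat.add (Nat.mul ms h) 131071) 131072) nS5)) (fun b =>
  Fx.rec (motive := fun _ => Bool) (fun c0 c1 a0 a1 a2 a3 a4 a5 a6 ch =>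
    o.frc (o.mul a vx) (fun ax =>
    o.frc (o.add a4 (o.mul ax vx)) (fun a4 => o.frc (o.mul ax vy) (fun h5 => o.frc (o.add a5 (dbl o h5)) (fun a5 =>
    o.frc (o.add a6 (o.mul a (o.mul vy vy))) (fun a6 =>
    o.frc (o.add c0 b) (fun c0 => fma o c1 a k1 (fun c1 =>
    cnd (isVar i)
      (o.frc (o.mul a cx) (fun gx => o.frc (o.mul a cy) (fun gy =>
        cnd (Nat.beq i 1)
          (o.frc (o.add a0 gx) (fun a0 => o.frc (o.add a1 gy) (fun a1 =>
            o.frc (o.sub c0 (o.add (o.mul gx bx.B.a0) (o.mul gy bx.B.a1))) (fun c0 =>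
              k ⟨c0, c1, a0, a1, a2, a3, a4, a5, a6, ch⟩))))
          (o.frc (o.add a2 gx) (fun a2 => o.frc (o.add a3 gy) (fun a3 =>
            o.frc (o.sub c0 (o.add (o.mul gx bx.B.a2) (o.mul gy bx.B.a3))) (fun c0 =>
              k ⟨c0, c1, a0, a1, a2, a3, a4, a5, a6, ch⟩)))))))
      (k ⟨c0, c1, a0, a1, a2, a3, a4, a5, a6, ch⟩))))))))) f)))))
/-- add an upper bound of mu S^4 * (S^2 * length of P i - P j), where j is 5 or 6 -/
def qpd (bx : Bx α) (v5 v6 : Vx α) (g : G3) (f : Fx α) (k : Fx α → Bool) : Bool :=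
  G3.rec (motive := fun _ => Bool) (fun i j mu =>
    pnt o bx v5 v6 i (fun x0 y0 x1 y1 wx wy =>
    Vx.rec (motive := fun _ => Bool) (fun u0 z0 u1 z1 =>
      o.frc (o.sub x0 u0) (fun vx => o.frc (o.sub y0 z0) (fun vy =>
      V7.rec (motive := fun _ => Bool) (fun _ _ _ _ b4 b5 b6 =>
        o.frc (o.add (o.mul b4 vx) (o.mul b5 vy)) (fun hx => o.frc (dbl o hx) (fun cx =>
        o.frc (o.add (o.mul b5 vx) (o.mul b6 vy)) (fun hy => o.frc (dbl o hy) (fun cy =>
        cnd o.inner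
          (o.frc (o.sub x1 u1) (fun ex => o.frc (o.sub y1 z1) (fun ey =>
            o.frc (o.add wx (o.abs ex)) (fun wx => o.frc (o.add wy (o.abs ey)) (fun wy =>
            remB o bx vx vy wx wy (fun _ qp =>
            o.frc (o.add qp (o.add (o.mul cx ex) (o.mul cy ey))) (fun k1 =>
              qpd2 o bx i mu vx vy cx cy k1 qp f k)))))))
          (cnd (isVar i)
            (o.frc wx (fun wx => o.frc wy (fun wy =>
              remB o bx vx vy wx wy (fun _ qp => qpd2 o bx i mu vx vy cx cy qp qp f k))))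
            (qpd2 o bx i mu vx vy cx cy o.zero o.zero f k))))))) bx.B)))
      (cnd (Nat.beq j 5) v5 v6))) g
def qall (bx : Bx α) (v5 v6 : Vx α) (pd : List G3) (k : Fx α → Bool) : Fx α → Bool :=
  List.rec (motive := fun _ => Fx α → Bool) k (fun g _ ih f => qpd o bx v5 v6 g f ih) pd
def isz6 (a b c d e f : α) : Bool :=
  band (o.isz a) (band (o.isz b) (band (o.isz c) (band (o.isz d) (band (o.isz e) (o.isz f)))))
/-- pending entries have j in 5 6, i < j, and use only the points in use -/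
def pdOK (u5 u6 : Bool) (g : G3) : Bool :=
  G3.rec (motive := fun _ => Bool) (fun i j _ =>
    cnd (Nat.beq j 5) (band u5 (Nat.ble i 4))
      (band (band (Nat.beq j 6) u6) (bor (Nat.ble i 4) (band (Nat.beq i 5) u5)))) g
/-- loop over the vertices of the polygons -/
def loops (st : St α) (u5 u6 : Bool) (m : Mx α) (w : Nat) (f : Fx α) (kk : Vx α → Vx α → Fx α → Bool) : Bool :=
  Mx.rec (motive := fun _ => Bool)
    (fun _ _ _ _ _ _ m15 m25 m35 m45 m16 m26 m36 m46 m56 e5x e5y e6x e6y =>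
    cnd u5
      (o.frc (o.mul o.s1 (o.add m25 m35)) (fun kx => o.frc (o.mul o.hf (o.sub m35 m25)) (fun ky =>
        poly o st.ls5 w (fun vs5 w =>
          cnd u6
            (o.frc (o.mul o.s1 (o.add m26 m36)) (fun jx => o.frc (o.mul o.hf (o.sub m36 m26)) (fun jy =>
              poly o st.ls6 w (fun vs6 _ =>
                lall vs5 (fun v5 => ptUpd o st.bx m15 m45 kx ky e5x e5y f v5 (fun f =>
                  fma o jx v5.x0 m56 (fun jx => fma o jy v5.y0 m56 (fun jy =>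
                  fma o e6x v5.x1 m56 (fun ex => fma o e6y v5.y1 m56 (fun ey =>
                    lall vs6 (fun v6 => ptUpd o st.bx m16 m46 jx jy ex ey f v6 (kk v5 v6))))))))))))
            (band (band (o.isz m56) (isz6 o m16 m26 m36 m46 e6x e6y))
              (lall vs5 (fun v5 => ptUpd o st.bx m15 m45 kx ky e5x e5y f v5 (kk v5 (zVx o)))))))))
      (band (band (o.isz m56) (isz6 o m15 m25 m35 m45 e5x e5y))
        (cnd u6
          (o.frc (o.mul o.s1 (o.add m26 m36)) (fun jx => o.frc (o.mul o.hf (o.sub m36 m26)) (fun jy =>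
            poly o st.ls6 w (fun vs6 _ =>
              lall vs6 (fun v6 => ptUpd o st.bx m16 m46 jx jy e6x e6y f v6 (kk (zVx o) v6))))))
          (band (isz6 o m16 m26 m36 m46 e6x e6y) (kk (zVx o) (zVx o) f))))) m
/-- move the cross products of the five points into the affine part -/
def finM (f : Fx α) (m : Mx α) (k : Fx α → Bool) : Bool :=
  Mx.rec (motive := fun _ => Bool)
    (fun m12 m13 m14 m23 m24 m34 _ _ _ _ _ _ _ _ _ _ _ _ _ =>
    Fx.rec (motive := fun _ => Bool) (fun c0 c1 a0 a1 a2 a3 a4 a5 a6 ch =>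
      o.frc (o.add a0 (o.mul o.hf (o.sub m13 m12))) (fun a0 =>
      o.frc (o.sub a1 (o.mul o.s1 (o.add m12 m13))) (fun a1 =>
      o.frc (o.add a2 (o.mul o.hf (o.sub m24 m34))) (fun a2 =>
      o.frc (o.add a3 (o.mul o.s1 (o.add m24 m34))) (fun a3 =>
      fma o c0 o.s2 m23 (fun c0 => o.frc (o.add ch m14) (fun ch =>
        k ⟨c0, c1, a0, a1, a2, a3, a4, a5, a6, ch⟩))))))) f) m
def fin (st : St α) (u5 u6 : Bool) : Kt α := fun f l m pd w =>
  finM o f m (fun f => linF o st.bx f (fun f =>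
    lpart o st.llo st.lhi l f.c0 f.c1 (fun c0 c1 => setC f c0 c1 (fun f =>
      List.rec (motive := fun _ => Bool)
        (fold456 o st.bx f (fun f => loops o st u5 u6 m w f (fun _ _ f => top4 o st.bx f (ltT o))))
        (fun _ _ _ => band (lall pd (pdOK u5 u6))
          (loops o st u5 u6 m w f (fun v5 v6 =>
            qall o st.bx v5 v6 pd (fun f => fold456 o st.bx f (fun f => top4 o st.bx f (ltT o))))))
        pd))))
def leaf (st : St α) (w : Nat) : Bool :=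
  rdN 2 w (fun ui w => rdN 2 w (fun u5 w => rdN 2 w (fun u6 w => rdN 32 w (fun nt w =>
  rdN 32 w (fun nb w => rdN 32 w (fun sh w =>
  frcN (Nat.pow 2 nb) (fun pb => frcN (Nat.pow 2 sh) (fun ps =>
  frcB (Nat.beq u5 1) (fun u5 => frcB (Nat.beq u6 1) (fun u6 =>
    Acc.rec (motive := fun _ => Bool) (fun f l m => trms o st pb ps nt (fin o st u5 u6) f l m [] w)
      (cnd (Nat.beq ui 0) (zA o) st.ini)))))))))))

/-! contexts of holes -/
def rdO (w : Nat) (k : α → Nat → Bool) : Bool := rdI w (fun a w => o.frc (o.ofI a) (fun a => k a w))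
def rd7 (w : Nat) (k : V7 α → Nat → Bool) : Bool :=
  rdO o w (fun a0 w => rdO o w (fun a1 w => rdO o w (fun a2 w => rdO o w (fun a3 w =>
  rdO o w (fun a4 w => rdO o w (fun a5 w => rdO o w (fun a6 w => k ⟨a0, a1, a2, a3, a4, a5, a6⟩ w)))))))
def rd10 (r : Nat → (α → Nat → Bool) → Bool) (w : Nat) (k : L10 α → Nat → Bool) : Bool :=
  r w (fun a0 w => r w (fun a1 w => r w (fun a2 w => r w (fun a3 w => r w (fun a4 w =>
  r w (fun a5 w => r w (fun a6 w => r w (fun a7 w => r w (fun a8 w => r w (fun a9 w =>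
    k ⟨a0, a1, a2, a3, a4, a5, a6, a7, a8, a9⟩ w))))))))))
def rdList {β : Type} (r : Nat → (β → Nat → Bool) → Bool) (w : Nat) (k : List β → Nat → Bool) : Bool :=
  rdN 64 w (fun n w => Nat.rec (motive := fun _ => List β → Nat → Bool) k
    (fun _ ih l w => r w (fun a w => ih (a :: l) w)) n [] w)
def rdFact (w : Nat) (k : Fact α → Nat → Bool) : Bool :=
  rd10 o.rdL w (fun a w => rd10 o.rdL w (fun l w =>
    L10.rec (motive := fun _ => Bool) (fun c0 c1 a0 a1 a2 a3 a4 a5 a6 ch =>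
      k ⟨⟨c0, c1, a0, a1, a2, a3, a4, a5, a6, ch⟩, l⟩ w) a))
def rdG (w : Nat) (k : G3 → Nat → Bool) : Bool :=
  rdN 8 w (fun i w => rdN 8 w (fun j w => rdN 8 w (fun h w => k ⟨i, j, h⟩ w)))
def decCtx (w : Nat) (k : St α → Bool) : Bool :=
  rd7 o w (fun lo w => rd7 o w (fun hi w => rd10 (rdO o) w (fun llo w => rd10 (rdO o) w (fun lhi w =>
  rdList (rdFact o) w (fun facts w => rdList rdG w (fun gam w => rdList o.rdLine w (fun root _ =>
    mkBx o lo hi (fun bx => k ⟨bx, llo, lhi, facts, gam, root, [], [], zA o, zA o⟩))))))))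
def eqG (g h : G3) : Bool := band (Nat.beq g.i h.i) (band (Nat.beq g.j h.j) (Nat.beq g.k h.k))
/-- the context c is weaker than st -/
def subSt (st c : St α) : Bool :=
  band (band (band (leV o c.bx.lo st.bx.lo) (leV o st.bx.hi c.bx.hi)) (band (leL o c.llo st.llo) (leL o st.lhi c.lhi)))
    (band (lall c.facts (fun g => lany st.facts (fun h => band (eqF o g.f h.f) (eqL o g.l h.l))))
      (band (lall c.gam (fun g => lany st.gam (eqG g))) (lall c.root (fun g => lany st.root (eqLine o g)))))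
def chkLf (holes : List Nat) (w : Nat) (st : St α) : Bool :=
  rdN 4 w (fun tag w => cnd (Nat.beq tag 0) (leaf o st w)
    (cnd (Nat.beq tag 1)
      (cnd o.inner false (band (leV o o.locLo st.bx.lo) (leV o st.bx.hi o.locHi)))
      (nthK holes w (fun h => decCtx o h (subSt o st)))))

/-! inner nodes -/
def ellR (w : Nat) (ka : St α → Bool) (st : St α) : Bool :=
  St.rec (motive := fun _ => Bool) (fun bx llo lhi facts gam root ls5 ls6 ini d5 =>
    rdN 16 w (fun j w => rdO o w (fun lo w => rdO o w (fun hi _ =>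
    pairC o j (fun c1 c2 c3 c4 => qtm o bx c1 c2 c3 c4 o.zero o.zero (fun f qm qp =>
    o.frc (get10 o o.basel j) (fun b0 =>
    band (band (bor (le2 o (get10 o lhi j) hi) (upOK o bx f qp b0 hi))
        (bor (le2 o lo (get10 o llo j)) (loOK o bx f qm b0 lo)))
      (o.ctr b0 lo hi (fun b r =>
        o.frc (o.neg (o.mul o.s4 (o.mul b b))) (fun k0 =>
        o.frc (o.add (o.mul o.s1 qm) (o.mul o.s4 (o.mul r r))) (fun k1 => o.frc (o.neg o.s1) (fun x =>
        axF o (cF o k0 k1) x f (fun g => o.frc (o.mul o.s4 (dbl o b)) (fun y => updJ o j (zL o) y (fun l =>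
        set10 llo j lo (fun llo => set10 lhi j hi (fun lhi =>
          ka ⟨bx, llo, lhi, ⟨g, l⟩ :: facts, gam, root, ls5, ls6, ini, d5⟩))))))))))))))))) st
def ellU (w : Nat) (ka : St α → Bool) (st : St α) : Bool :=
  St.rec (motive := fun _ => Bool) (fun bx llo lhi facts gam root ls5 ls6 ini d5 =>
    rdN 16 w (fun j w => o.rd w (fun c _ =>
    pairC o j (fun c1 c2 c3 c4 => qtm o bx c1 c2 c3 c4 o.zero o.zero (fun f _ qp =>
      o.frc (o.mul o.s4 (o.mul c c)) (fun k0 => o.frc (o.mul o.s1 qp) (fun k1 =>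
      axF o (cF o k0 k1) o.s1 f (fun g => o.frc (o.neg (o.mul o.s4 (dbl o c))) (fun y =>
      updJ o j (zL o) y (fun l =>
        ka ⟨bx, llo, lhi, ⟨g, l⟩ :: facts, gam, root, ls5, ls6, ini, d5⟩)))))))))) st
def split (w : Nat) (ka kb : St α → Bool) (st : St α) : Bool :=
  St.rec (motive := fun _ => Bool) (fun bx llo lhi facts gam root ls5 ls6 ini d5 =>
    rdN 32 w (fun n w => rdO o w (fun v _ =>
    cnd (Nat.ble n 6)
      (band (set7 bx.hi n v (fun hi => updBx o bx n bx.lo hi (fun bx =>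
          ka ⟨bx, llo, lhi, facts, gam, root, ls5, ls6, ini, d5⟩)))
        (set7 bx.lo n v (fun lo => updBx o bx n lo bx.hi (fun bx =>
          kb ⟨bx, llo, lhi, facts, gam, root, ls5, ls6, ini, d5⟩))))
      (frcN (Nat.sub n 7) (fun j =>
        band (set10 lhi j v (fun lhi => ka ⟨bx, llo, lhi, facts, gam, root, ls5, ls6, ini, d5⟩))
          (set10 llo j v (fun llo => kb ⟨bx, llo, lhi, facts, gam, root, ls5, ls6, ini, d5⟩))))))) st
def negLn (a : Line α) (k : Line α → Bool) : Bool :=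
  Line.rec (motive := fun _ => Bool) (fun nx ny c0 c1 =>
    o.frc (o.neg nx) (fun nx => o.frc (o.neg ny) (fun ny => o.frc (o.neg c0) (fun c0 =>
    o.frc (o.neg c1) (fun c1 => k ⟨nx, ny, c0, c1⟩))))) a
def cut (w : Nat) (ka kb : St α → Bool) (st : St α) : Bool :=
  St.rec (motive := fun _ => Bool) (fun bx llo lhi facts gam root ls5 ls6 ini d5 =>
    rdN 2 w (fun s w => o.rdLine w (fun a _ => negLn o a (fun b =>
    cnd (Nat.beq s 0)
      (band (ka ⟨bx, llo, lhi, facts, gam, root, a :: ls5, ls6, ini, d5⟩)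
        (kb ⟨bx, llo, lhi, facts, gam, root, b :: ls5, ls6, ini, d5⟩))
      (band (ka ⟨bx, llo, lhi, facts, gam, root, ls5, a :: ls6, ini, d5⟩)
        (kb ⟨bx, llo, lhi, facts, gam, root, ls5, b :: ls6, ini, d5⟩)))))) st
def gLe (n : Nat) (g : G3) : Bool :=
  G3.rec (motive := fun _ => Bool) (fun i j h => band (Nat.ble i n) (band (Nat.ble j n) (Nat.ble h n))) g
def addLn (w : Nat) (ka kb : St α → Bool) (st : St α) : Bool :=
  St.rec (motive := fun _ => Bool) (fun bx llo lhi facts gam root ls5 ls6 ini d5 =>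
    o.rdLine w (fun a w => negLn o a (fun b =>
      band (lfil gam (gLe 4) (fun gam => ka ⟨bx, llo, lhi, facts, gam, root, b :: root, [], zA o, zA o⟩))
        (lmask root w (fun root => kb ⟨bx, llo, lhi, facts, gam, a :: root, ls5, ls6, ini, d5⟩))))) st
def branch (w : Nat) (ka kb kc : St α → Bool) (st : St α) : Bool :=
  St.rec (motive := fun _ => Bool) (fun bx llo lhi facts gam root ls5 ls6 ini d5 =>
    rdN 8 w (fun i w => rdN 8 w (fun j w => rdN 8 w (fun h _ =>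
      band (gLe 6 ⟨i, j, h⟩)
        (band (ka ⟨bx, llo, lhi, facts, ⟨i, j, h⟩ :: gam, root, ls5, ls6, ini, d5⟩)
          (band (kb ⟨bx, llo, lhi, facts, ⟨i, h, j⟩ :: gam, root, ls5, ls6, ini, d5⟩)
            (kc ⟨bx, llo, lhi, facts, ⟨j, h, i⟩ :: gam, root, ls5, ls6, ini, d5⟩))))))) st
def rdM (c : Int) (w : Nat) (k : α → Nat → Bool) : Bool :=
  rdI w (fun a w => o.frc (o.ofI (imul a c)) (fun a => k a w))
/-- read an affine function at scale S^3 -/
def rdU (w : Nat) (k : Fx α → L10 α → Nat → Bool) : Bool :=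
  o.rd w (fun u0 w => o.rd1 w (fun u1 w =>
  rdM o (Int.ofNat 17179865088) w (fun a0 w => rdM o (Int.ofNat 17179865088) w (fun a1 w =>
  rdM o (Int.ofNat 17179865088) w (fun a2 w => rdM o (Int.ofNat 17179865088) w (fun a3 w =>
  rdM o (Int.ofNat 17179865088) w (fun a4 w => rdM o (Int.ofNat 17179865088) w (fun a5 w =>
  rdM o (Int.ofNat 17179865088) w (fun a6 w => rdM o (Int.ofNat 1024) w (fun ch w =>
  rd10 (rdM o (Int.ofNat 17179865088)) w (fun l w =>
  o.frc (o.mul u0 o.s2) (fun c0 => o.frc (o.mul u1 o.s2) (fun c1 =>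
  cnd o.inner
    (V7.rec (motive := fun _ => Bool) (fun b0 b1 b2 b3 b4 b5 b6 =>
      fma o o.zero b0 a0 (fun c => fma o c b1 a1 (fun c => fma o c b2 a2 (fun c => fma o c b3 a3 (fun c =>
      fma o c b4 a4 (fun c => fma o c b5 a5 (fun c => fma o c b6 a6 (fun c =>
      fma o c (o.sub (o.mul b0 b3) (o.mul b1 b2)) ch (fun c => dotL o c o.basel l (fun c =>
      o.frc (o.sub c0 c) (fun c0 => k ⟨c0, c1, a0, a1, a2, a3, a4, a5, a6, ch⟩ l w))))))))))) o.base)
    (k ⟨c0, c1, a0, a1, a2, a3, a4, a5, a6, ch⟩ l w))))))))))))))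
/-- matrix of cross(c1 V1 + .. + c4 V4 + t e, P s) -/
def dirM (s : Nat) (c1 c2 c3 c4 ex ey : α) : Mx α :=
  cnd (Nat.beq s 0)
    ⟨o.zero, o.zero, o.zero, o.zero, o.zero, o.zero, c1, c2, c3, c4, o.zero, o.zero, o.zero, o.zero, o.zero,
      ex, ey, o.zero, o.zero⟩
    ⟨o.zero, o.zero, o.zero, o.zero, o.zero, o.zero, o.zero, o.zero, o.zero, o.zero, c1, c2, c3, c4, o.zero,
      o.zero, o.zero, ex, ey⟩
/-- one side of a query: the point in slot s is replaced by a point with f + l + m ≥ 0 -/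
def side (s : Nat) (f : Fx α) (l : L10 α) (m : Mx α) (ka : St α → Bool) (st : St α) : Bool :=
  St.rec (motive := fun _ => Bool) (fun bx llo lhi facts gam root ls5 _ _ d5 =>
    axF o (zF o) o.s4 f (fun f4 => axL o (zL o) o.s4 l (fun l4 => axM o (zM o) o.s4 m (fun m4 =>
    cnd (Nat.beq s 0)
      (lfil gam (gLe 4) (fun gam => ka ⟨bx, llo, lhi, facts, gam, root, root, [], ⟨f4, l4, m4⟩, ⟨f, l, m⟩⟩))
      (lfil gam (gLe 5) (fun gam => ka ⟨bx, llo, lhi, facts, gam, root, ls5, root, ⟨f4, l4, m4⟩, d5⟩)))))) st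
def addFact (f : Fx α) (l : L10 α) (ka : St α → Bool) (st : St α) : Bool :=
  St.rec (motive := fun _ => Bool) (fun bx llo lhi facts gam root ls5 ls6 ini d5 =>
    ka ⟨bx, llo, lhi, ⟨f, l⟩ :: facts, gam, root, ls5, ls6, ini, d5⟩) st
/-- both sides of a query; the continuation gets the sum nf, nl of the two negated bounds -/
def sides (s : Nat) (c1 c2 c3 c4 ex ey : α) (w : Nat) (ka kb : St α → Bool) (st : St α)
    (k : Fx α → L10 α → Bool) : Bool :=
  rdU o w (fun f l w => rdU o w (fun g h _ =>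
    o.frc (o.neg c1) (fun d1 => o.frc (o.neg c2) (fun d2 => o.frc (o.neg c3) (fun d3 =>
    o.frc (o.neg c4) (fun d4 => o.frc (o.neg ex) (fun dx => o.frc (o.neg ey) (fun dy =>
    band (side o s f l (dirM o s c1 c2 c3 c4 ex ey) ka st)
      (band (side o s g h (dirM o s d1 d2 d3 d4 dx dy) kb st)
        (axF o f (ofN o 1) g (fun nf => axL o l (ofN o 1) h (fun nl => k nf nl))))))))))))
def queryP (s w : Nat) (ka kb kc : St α → Bool) (st : St α) : Bool :=
  rdN 16 w (fun j w => pairC o j (fun c1 c2 c3 c4 =>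
    o.frc c1 (fun c1 => o.frc c2 (fun c2 => o.frc c3 (fun c3 => o.frc c4 (fun c4 =>
    sides o s c1 c2 c3 c4 o.zero o.zero w ka kb st (fun nf nl =>
      o.frc (o.neg o.s3) (fun x => axF o (zF o) x nf (fun f => axL o (zL o) x nl (fun l =>
      o.frc (o.neg (o.mul o.phi o.s4)) (fun y => updJ o j l y (fun l => addFact f l kc st))))))))))))
def queryG (s w : Nat) (ka kb kc : St α → Bool) (st : St α) : Bool :=
  rdO o w (fun c1 w => o.rd w (fun c2 w => o.rd w (fun c3 w => rdO o w (fun c4 w =>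
  o.rd1 w (fun ex w => o.rd1 w (fun ey w => o.rd w (fun b w => rdO o w (fun r w =>
  o.frc (o.mul ex o.s1) (fun ex => o.frc (o.mul ey o.s1) (fun ey =>
  sides o s c1 c2 c3 c4 ex ey w ka kb st (fun nf nl =>
    qtm o st.bx c1 c2 c3 c4 ex ey (fun f qm qp => o.frc (o.neg r) (fun nr =>
    o.frc (o.mul o.phi o.s1) (fun ps =>
    band (band (o.lez (o.neg b)) (loOK o st.bx f qm b nr))
      (band
        (bor (upOK o st.bx f qp b r)
          (o.frc (o.neg (o.mul ps b)) (fun k0 => o.frc (o.neg (o.mul ps r)) (fun k1 =>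
            axF o (cF o k0 k1) (o.ofI (Int.negSucc 0)) nf (fun g =>
            axL o (zL o) (o.ofI (Int.negSucc 0)) nl (fun l => nonposA o st.bx st.llo st.lhi g l))))))
        (o.frc (o.neg (o.mul o.phi (o.mul o.s3 (o.mul b b)))) (fun k0 =>
         o.frc (o.mul o.phi (o.add qm (o.mul o.s3 (o.mul r r)))) (fun k1 =>
         o.frc (o.neg o.phi) (fun x => axF o (cF o k0 k1) x f (fun g =>
         o.frc (o.neg (o.mul o.s2 (dbl o b))) (fun y => axF o g y nf (fun g => axL o (zL o) y nl (fun l =>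
           addFact g l kc st)))))))))))))))))))))))

def chk (holes : List Nat) (t : Tr) : St α → Bool :=
  Tr.rec (motive := fun _ => St α → Bool)
    (fun w => chkLf o holes w)
    (fun w _ ka st => rdN 2 w (fun tag w => cnd (Nat.beq tag 0) (ellR o w ka st) (ellU o w ka st)))
    (fun w _ _ ka kb st => rdN 4 w (fun tag w =>
      cnd (Nat.beq tag 0) (cut o w ka kb st) (cnd (Nat.beq tag 1) (split o w ka kb st) (addLn o w ka kb st))))
    (fun w _ _ _ ka kb kc st => rdN 4 w (fun tag w =>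
      cnd (Nat.beq tag 0) (branch w ka kb kc st) (rdN 2 w (fun s w =>
        cnd (Nat.beq tag 1) (queryP o s w ka kb kc st) (queryG o s w ka kb kc st))))) t
/-- the certificate check: context h, tree t -/
def run (holes : List Nat) (h : Nat) (t : Tr) : Bool := decCtx o h (chk o holes t)
/-- the ranges of the ten lengths hold on the whole box -/
def rangeOK (st : St α) : Bool :=
  lall [0, 1, 2, 3, 4, 5, 6, 7, 8, 9] (fun j =>
    pairC o j (fun c1 c2 c3 c4 => qtm o st.bx c1 c2 c3 c4 o.zero o.zero (fun f qm qp =>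
      band (upOK o st.bx f qp (get10 o o.basel j) (get10 o st.lhi j))
        (loOK o st.bx f qm (get10 o o.basel j) (get10 o st.llo j)))))
def root0 : List (Line α) :=
  [⟨ofN o 1024, o.ofI (Int.negSucc 2047), ofN o 34359730176, o.zero⟩,
   ⟨ofN o 1024, ofN o 2048, ofN o 34359730176, o.zero⟩,
   ⟨o.ofI (Int.negSucc 1023), o.zero, ofN o 34359730176, o.zero⟩]
def isNil {β : Type} (l : List β) : Bool := List.rec (motive := fun _ => Bool) true (fun _ _ _ => false) l
/-- the context h holds for every configuration in the box lo hi -/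
def rootChk (lo hi : V7 α) (h : Nat) : Bool :=
  decCtx o h (fun c => band (band (leV o c.bx.lo lo) (leV o hi c.bx.hi))
    (band (rangeOK o c) (band (band (isNil c.facts) (isNil c.gam))
      (lall c.root (fun g => lany (root0 o) (eqLine o g))))))

end

/-! the integer instance -/
def isq (n : Nat) : Nat :=
  Nat.rec (motive := fun _ => Nat → Nat) (fun c => c)
    (fun _ ih c => Nat.rec (motive := fun _ => Nat) 0
      (fun c _ => ih (Nat.div (Nat.add (Nat.succ c) (Nat.div n (Nat.succ c))) 2)) c) 3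
    (cnd (Nat.ble n 16777215)
      (cnd (Nat.ble n 65535) (cnd (Nat.ble n 4095) 32 128) (cnd (Nat.ble n 1048575) 512 2048))
      (cnd (Nat.ble n 4294967295) (cnd (Nat.ble n 268435455) 8192 32768) (cnd (Nat.ble n 68719476735) 131072 524288)))
def iRdLine (w : Nat) (k : Line Int → Nat → Bool) : Bool :=
  rdN 8192 w (fun a w => rdN 8192 w (fun b w => rdI w (fun c w =>
    frcI (nsub a 4096) (fun a => frcI (nsub b 4096) (fun b => frcI (imul c (Int.ofNat 8192)) (fun c =>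
      k ⟨a, b, c, Int.ofNat 0⟩ w))))))
def iAux (a : Line Int) : Int :=
  Line.rec (motive := fun _ => Int) (fun nx ny c0 c1 => iadd (iadd c0 c1) (iadd (iabs nx) (iabs ny))) a
def iCor (a : Line Int) (ca : Int) (b : Line Int) (cb : Int) (w : Nat) (k : Vx Int → Nat → Bool) : Bool :=
  Line.rec (motive := fun _ => Bool) (fun ax ay _ _ => Line.rec (motive := fun _ => Bool) (fun bx by' _ _ =>
    Int.rec (motive := fun _ => Bool)
      (fun d => frcN d (fun d => cnd (Nat.beq d 0) false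
        (frcI (ifdiv (isub (imul ay cb) (imul by' ca)) d) (fun x =>
          frcI (ifdiv (isub (imul bx ca) (imul ax cb)) d) (fun y => k ⟨x, y, Int.ofNat 0, Int.ofNat 0⟩ w)))))
      (fun _ => false) (isub (imul ax by') (imul ay bx))) b) a
def iCtr (_b lo hi : Int) (k : Int → Int → Bool) : Bool :=
  frcI (ifdiv (iadd lo hi) 2) (fun b => frcI (isub hi b) (fun r => k b r))
def iHnt (q2 qp : Int) : Nat :=
  Nat.rec (motive := fun _ => Nat) 0 (fun n _ => isq (Nat.succ n))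
    (Nat.div (inat (iadd q2 (iadd qp qp))) 2199023255552)
def i0 : Int := Int.ofNat 0
def iops (locLo locHi : V7 Int) : Ops Int :=
  ⟨iadd, isub, imul, ineg, iabs, fun a => a, iltz, ilez, iisz, ibeq, frcI, rdI, fun w k => k (Int.ofNat 0) w, rdB,
    iRdLine, iAux, iCor, iCtr, iHnt, false, Int.ofNat 0, Int.ofNat 16777212, Int.ofNat 8388606,
    Int.ofNat 281474842492944, Int.ofNat 4722363105170729992128, Int.ofNat 79228086956427633272689787136,
    Int.ofNat 27146099,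
    ⟨i0, i0, i0, i0, i0, i0, i0⟩, ⟨i0, i0, i0, i0, i0, i0, i0, i0, i0, i0⟩, locLo, locHi⟩

/-! the instance of numbers a + b * golden ratio -/
structure ZP where
  a : Int
  b : Int

def zadd (x y : ZP) : ZP :=
  ZP.rec (motive := fun _ => ZP) (fun a b => ZP.rec (motive := fun _ => ZP) (fun c d => ⟨iadd a c, iadd b d⟩) y) x
def zsub (x y : ZP) : ZP :=
  ZP.rec (motive := fun _ => ZP) (fun a b => ZP.rec (motive := fun _ => ZP) (fun c d => ⟨isub a c, isub b d⟩) y) x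
def zmul (x y : ZP) : ZP :=
  ZP.rec (motive := fun _ => ZP) (fun a b => ZP.rec (motive := fun _ => ZP)
    (fun c d => ⟨iadd (imul a c) (imul b d), iadd (imul a d) (imul b (iadd c d))⟩) y) x
def zneg (x : ZP) : ZP := ZP.rec (motive := fun _ => ZP) (fun a b => ⟨ineg a, ineg b⟩) x
def zltzA (u v : Int) : Bool :=
  frcI u (fun u => frcI v (fun v =>
  cnd (iltz v) (bor (ilez u) (iltz (isub (imul u u) (imul (Int.ofNat 5) (imul v v)))))
    (band (iltz u) (iltz (isub (imul (Int.ofNat 5) (imul v v)) (imul u u))))))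
def zltz (x : ZP) : Bool := ZP.rec (motive := fun _ => Bool) (fun a b => zltzA (iadd (iadd a a) b) b) x
def zabs (x : ZP) : ZP := cnd (zltz x) (zneg x) x
def zlez (x : ZP) : Bool := cnd (zltz (zneg x)) false true
def zisz (x : ZP) : Bool := ZP.rec (motive := fun _ => Bool) (fun a b => band (iisz a) (iisz b)) x
def zbeq (x y : ZP) : Bool :=
  ZP.rec (motive := fun _ => Bool) (fun a b => ZP.rec (motive := fun _ => Bool)
    (fun c d => band (ibeq a c) (ibeq b d)) y) x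
def zfrc (x : ZP) (k : ZP → Bool) : Bool :=
  ZP.rec (motive := fun _ => Bool) (fun a b => frcI a (fun a => frcI b (fun b => k ⟨a, b⟩))) x
def zI (a : Int) : ZP := ⟨a, Int.ofNat 0⟩
def zRd (w : Nat) (k : ZP → Nat → Bool) : Bool := rdI w (fun a w => rdI w (fun b w => k ⟨a, b⟩ w))
def zRd1 (w : Nat) (k : ZP → Nat → Bool) : Bool := rdI w (fun a w => k ⟨a, Int.ofNat 0⟩ w)
def zRdL (w : Nat) (k : ZP → Nat → Bool) : Bool := rdB w (fun a w => rdB w (fun b w => k ⟨a, b⟩ w))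
def zRdLine (w : Nat) (k : Line ZP → Nat → Bool) : Bool :=
  zRd w (fun a w => zRd w (fun b w => zRdL w (fun c w => rdB w (fun d w => k ⟨a, b, c, ⟨d, Int.ofNat 0⟩⟩ w))))
def zLeT (x0 x1 : ZP) : Bool := zfrc x0 (fun x0 => band (zlez x0) (zlez (zadd x0 x1)))
def zOut (a : Line ZP) (x0 y0 x1 y1 : ZP) : Bool :=
  Line.rec (motive := fun _ => Bool) (fun nx ny c0 c1 =>
    zLeT (zadd (zadd (zmul nx x0) (zmul ny y0)) c0) (zadd (zadd (zmul nx x1) (zmul ny y1)) c1)) a
def zCor (a : Line ZP) (_ca : ZP) (b : Line ZP) (_cb : ZP) (w : Nat) (k : Vx ZP → Nat → Bool) : Bool :=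
  zRd w (fun x0 w => zRd w (fun y0 w => zRd1 w (fun x1 w => zRd1 w (fun y1 w =>
    band (band (zltz (zsub (zmul a.ny b.nx) (zmul a.nx b.ny))) (band (zOut a x0 y0 x1 y1) (zOut b x0 y0 x1 y1)))
      (k ⟨x0, y0, x1, y1⟩ w)))))
def zCtr (b lo hi : ZP) (k : ZP → ZP → Bool) : Bool :=
  zfrc b (fun b => zfrc (zabs lo) (fun p => zfrc (zabs hi) (fun q => cnd (zltz (zsub p q)) (k b q) (k b p))))
def zHnt (q2 _qp : ZP) : Nat :=
  ZP.rec (motive := fun _ => Nat) (fun a b =>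
    Nat.rec (motive := fun _ => Nat) 0
      (fun n _ => Nat.sub (Nat.mul (Nat.div (Nat.add (isq (Nat.succ n)) 32) 64) 64) 1)
      (Nat.div (inat (iadd (imul a (Int.ofNat 1099511627776)) (imul b (Int.ofNat 1779047184767))))
        2417851639229258349412352)) q2
def z0 : ZP := ⟨Int.ofNat 0, Int.ofNat 0⟩
def zL1 : ZP := ⟨Int.ofNat 16777212, Int.ofNat 0⟩
def zL2 : ZP := ⟨Int.negSucc 16777211, Int.ofNat 16777212⟩
def zops : Ops ZP :=
  ⟨zadd, zsub, zmul, zneg, zabs, zI, zltz, zlez, zisz, zbeq, zfrc, zRd, zRd1, zRdL,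
    zRdLine, fun _ => z0, zCor, zCtr, zHnt, true, z0, zL1, ⟨Int.ofNat 8388606, Int.ofNat 0⟩,
    ⟨Int.ofNat 281474842492944, Int.ofNat 0⟩, ⟨Int.ofNat 4722363105170729992128, Int.ofNat 0⟩,
    ⟨Int.ofNat 79228086956427633272689787136, Int.ofNat 0⟩, ⟨Int.ofNat 0, Int.ofNat 16777212⟩,
    ⟨⟨Int.ofNat 33554424, Int.negSucc 16777211⟩, ⟨Int.ofNat 0, Int.negSucc 8388605⟩,
      ⟨Int.ofNat 33554424, Int.negSucc 16777211⟩, ⟨Int.ofNat 0, Int.ofNat 8388606⟩,
      ⟨Int.ofNat 8388606, Int.ofNat 4194303⟩, z0, ⟨Int.ofNat 33554424, Int.negSucc 16777211⟩⟩,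
    ⟨zL2, zL1, zL1, zL2, zL2, zL1, zL1, zL2, zL1, zL2⟩,
    ⟨z0, z0, z0, z0, z0, z0, z0⟩, ⟨z0, z0, z0, z0, z0, z0, z0⟩⟩

/-- the initial box -/
def boxLo : V7 Int :=
  ⟨Int.negSucc 16777211, Int.negSucc 16777211, Int.negSucc 16777211, i0, i0, Int.negSucc 134217695, i0⟩
def boxHi : V7 Int :=
  ⟨Int.ofNat 16777212, i0, Int.ofNat 16777212, Int.ofNat 16777212, Int.ofNat 134217696, i0, Int.ofNat 134217696⟩
def etaLo (e : V7 Nat) : V7 ZP :=
  ⟨zI (nneg e.a0), zI (nneg e.a1), zI (nneg e.a2), zI (nneg e.a3), zI (nneg e.a4), zI (nneg e.a5), zI (nneg e.a6)⟩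
def etaHi (e : V7 Nat) : V7 ZP :=
  ⟨zI (Int.ofNat e.a0), zI (Int.ofNat e.a1), zI (Int.ofNat e.a2), zI (Int.ofNat e.a3), zI (Int.ofNat e.a4), z0,
    zI (Int.ofNat e.a6)⟩
/-- face of the local box: coordinate n is fixed at its lower (s = false) or upper (s = true) end -/
def faceChk (e : V7 Nat) (n : Nat) (s : Bool) (h : Nat) : Bool :=
  cnd s (set7 (etaLo e) n (get7 zops (etaHi e) n) (fun lo => rootChk zops lo (etaHi e) h))
    (set7 (etaHi e) n (get7 zops (etaLo e) n) (fun hi => rootChk zops (etaLo e) hi h))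
def vadd (u v : V7 ZP) : V7 ZP :=
  ⟨zadd u.a0 v.a0, zadd u.a1 v.a1, zadd u.a2 v.a2, zadd u.a3 v.a3, zadd u.a4 v.a4, zadd u.a5 v.a5, zadd u.a6 v.a6⟩
def vI (u : V7 Int) : V7 ZP := ⟨zI u.a0, zI u.a1, zI u.a2, zI u.a3, zI u.a4, zI u.a5, zI u.a6⟩
/-- the box locLo locHi lies in the local box, whose half sides are positive -/
def locChk (e : V7 Nat) (locLo locHi : V7 Int) : Bool :=
  band (band (leV zops (vadd zops.base (etaLo e)) (vI locLo)) (leV zops (vI locHi) (vadd zops.base (etaHi e))))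
    (lall [e.a0, e.a1, e.a2, e.a3, e.a4, e.a5, e.a6] (Nat.ble 1))

end

end Pool.Agent.Lib.MP_9d820d_co
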