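import Pool.Agent.Lib.MP_9d820d_co.FDefs

set_option autoImplicit false
set_option linter.unusedVariables false

namespace Pool.Agent.Lib.MP_9d820d_co.Fast

theorem fl_eq (b o : Nat) : fl b o = ((b >>> o) &&& 1073741823) := by rfl
theorem dg_eq (a o : Nat) : dg a o = ((a >>> o) &&& MT) := by rfl
theorem adf_eq (a b : Nat) : adf a b = ((a - b) + (b - a)) := by rfl
theorem upd_eq (a o x m : Nat) : upd a o x m = (a ^^^ ((((a >>> o) ^^^ x) &&& m) <<< o)) := by rfl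
theorem cb_eq (b o : Nat) : cb b o = (((fl b o) + (fl (b >>> 32) o)) >>> 1) := by rfl
theorem hw_eq (b o : Nat) : hw b o = ((fl (b >>> 32) o) - (cb b o)) := by rfl
theorem wd_eq (b o : Nat) : wd b o = ((fl (b >>> 32) o) - (fl b o)) := by rfl
theorem rlo_eq (b : Nat) : rlo b = (((((((T7 + ((fl b 0) <<< 1344)) + ((fl b 64) <<< 1120)) + ((fl b 128) <<< 896)) + ((fl b 192) <<< 672)) + ((fl b 256) <<< 448)) + ((fl b 320) <<< 224)) + (fl b 384)) := by rfl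
theorem rwd_eq (b : Nat) : rwd b = ((((((((wd b 0) <<< 1344) + ((wd b 64) <<< 1120)) + ((wd b 128) <<< 896)) + ((wd b 192) <<< 672)) + ((wd b 256) <<< 448)) + ((wd b 320) <<< 224)) + (wd b 384)) := by rfl
theorem cc2_eq (b : Nat) : cc2 b = (((((((((1 + (fl b 0)) + (fl b 64)) + (fl b 128)) + (fl b 192)) + (fl b 256)) + (fl b 320)) + (fl b 384)) <<< 1754) - 1) := by rfl
theorem bnd_eq (b v : Nat) : bnd b v = ((v >>> 1977) + ((((v * (rlo b)) + ((v &&& (((v >>> 186) &&& ON8) * B2M)) * (rwd b))) &&& M8) - (cc2 b))) := by rfl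
theorem ww_eq (b o p : Nat) : ww b o p = ((hw b o) * (hw b p)) := by rfl
theorem cw_eq (b o p : Nat) : cw b o p = (((cb b o) * (cb b p)) + (ww b o p)) := by rfl
theorem cv_eq (b o p u v : Nat) : cv b o p u v = ((((cb b p) * u) + ((cb b o) * v)) + ((cw b o p) * UN0)) := by rfl
theorem nv_eq (b : Nat) : nv b = (((((((cb b 320) * N4) + ((cb b 192) * N6)) + ((cb b 384) * N5)) + ((cb b 256) * N7)) + (((cw b 192 320) + (cw b 256 384)) * UP0)) <<< 124) := by rfl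
theorem rll_eq (r : Nat) : rll r = (((((((((((fl r 0) <<< 2464) + ((fl r 64) <<< 2240)) + ((fl r 128) <<< 1792)) + ((fl r 192) <<< 1344)) + ((fl r 256) <<< 1120)) + ((fl r 320) <<< 896)) + ((fl r 384) <<< 672)) + ((fl r 448) <<< 448)) + ((fl r 512) <<< 224)) + (fl r 576)) := by rfl
theorem rwl_eq (b r : Nat) : rwl b r = (((((((((((((wd r 0) <<< 2464) + ((wd r 64) <<< 2240)) + ((2 * (ww b 192 320)) <<< 2016)) + ((wd r 128) <<< 1792)) + ((2 * (ww b 256 384)) <<< 1568)) + ((wd r 192) <<< 1344)) + ((wd r 256) <<< 1120)) + ((wd r 320) <<< 896)) + ((wd r 384) <<< 672)) + ((wd r 448) <<< 448)) + ((wd r 512) <<< 224)) + (wd r 576)) := by rfl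
theorem kb_eq (b r : Nat) : kb b r = (((nv b) + ((((((((((((fl r 0) + (fl r 64)) + (fl r 128)) + (fl r 192)) + (fl r 256)) + (fl r 320)) + (fl r 384)) + (fl r 448)) + (fl r 512)) + (fl r 576)) <<< 124) * UN0)) + KB0) := by rfl
theorem fold2_eq (b r f l : Nat) : fold2 b r f l = (((((f &&& M8) + ((dg ((l * (rll r)) + ((l &&& (((l >>> 124) &&& ON12) * B1M)) * (rwl b r))) 2464) * UP0)) + ((dg l 448) * (cv b 192 320 U4 U6))) + ((dg l 896) * (cv b 256 384 U5 U7))) + (kb b r)) := by rfl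
theorem fold_eq (b r f : Nat) : fold b r f = (fold2 b r f (f >>> 1792)) := by rfl
theorem cr_eq (a b c : Nat) : cr a b c = ((((((xa a) * (ya b)) + ((xa b) * (ya c))) + ((xa c) * (ya a))) + SC) - ((((xa b) * (ya a)) + ((xa c) * (ya b))) + ((xa a) * (ya c)))) := by rfl
theorem stg_eq (i j h s : Nat) : stg i j h s = (Bool.rec (motive := fun _ => Nat) (281474842492944 * ((TN + (lp i j)) + (TN - (lp (Bool.rec (motive := fun _ => Nat) j i (Nat.beq s 2)) h)))) (Bool.rec (motive := fun _ => Nat) ((281474842492944 * (TN + (lp i j))) + (16777212 * (cr j i h))) ((281474842492944 * (TN + (lp i j))) + (16777212 * (cr i j h))) (Nat.beq s 0)) (Nat.ble s 1)) := by rfl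
theorem sar_eq (i j h : Nat) : sar i j h = (Bool.rec (motive := fun _ => Nat) 0 (Bool.rec (motive := fun _ => Nat) (16777212 * ((cr ((i + 4) % 5) i ((i + 1) % 5)) + (cr j (Bool.rec (motive := fun _ => Nat) ((j + 1) % 5) ((i + 1) % 5) (Nat.beq j ((i + 4) % 5))) h))) 0 (Nat.beq i j)) (Nat.beq ((i - 4) + (j - 4)) 0)) := by rfl
theorem sta_eq (i j h s : Nat) : sta i j h s = (Bool.rec (motive := fun _ => Nat) (Bool.rec (motive := fun _ => Nat) (16777212 * (cr ((i &&& 3) + 1) ((((i &&& 3) + 1) + 2) % 5) ((((i &&& 3) + 1) + 3) % 5))) (S3U + (16777212 * (cr ((i &&& 3) + 1) ((((i &&& 3) + 1) + 3) % 5) ((((i &&& 3) + 1) + 2) % 5)))) (Nat.beq s 1)) (sar i j h) (Nat.beq s 0)) := by rfl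
theorem stat_eq (c : Nat) : stat c = (Bool.rec (motive := fun _ => Nat) (sta (c &&& 7) ((c >>> 3) &&& 7) ((c >>> 6) &&& 7) (c >>> 10)) (stg (c &&& 7) ((c >>> 3) &&& 7) ((c >>> 6) &&& 7) (c >>> 10)) (Nat.beq ((c >>> 9) &&& 1) 0)) := by rfl
theorem lam_eq (w m s : Nat) : lam w m s = ((w &&& m) <<< s) := by rfl
theorem sl1_eq (g nb m s r : Nat) (k : Nat → Nat) (w : Nat) : sl1 g nb m s r k w = (Nat.rec (motive := fun _ => Nat) 0 (fun c _ => ((((lam w m s) * ((g >>> (c &&& 1023)) &&& 1)) * (stat c)) + (k (w >>> r)))) ((w >>> nb) &&& 4095)) := by rfl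
theorem sl2_eq (g nb m s r : Nat) (k : Nat → Nat) : sl2 g nb m s r k = (fun w => (sl1 g nb m s r (fun w => (sl1 g nb m s r k w)) w)) := by rfl
theorem sl4_eq (g nb m s r : Nat) (k : Nat → Nat) : sl4 g nb m s r k = (sl2 g nb m s r (sl2 g nb m s r k)) := by rfl
theorem sl8_eq (g nb m s r : Nat) (k : Nat → Nat) : sl8 g nb m s r k = (sl4 g nb m s r (sl4 g nb m s r k)) := by rfl
theorem sls_eq (g nb m s r w : Nat) : sls g nb m s r w = (sl1 g nb m s r (sl2 g nb m s r (sl4 g nb m s r (sl8 g nb m s r (fun w => 0)))) w) := by rfl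
theorem ent_eq (fa i : Nat) : ent fa i = ((fa >>> (i * 4704)) &&& MF) := by rfl
theorem fs_eq (fa nb m s r n w : Nat) : fs fa nb m s r n w = ((Nat.rec (motive := fun _ => Nat → Nat) (fun w => 0) (fun _ ih => (fun w => (((lam w m s) * (ent fa ((w >>> nb) &&& 127))) + (ih (w >>> r))))) n) w) := by rfl
theorem dp_eq (b o u : Nat) : dp b o u = (u + ((cb b o) * UN0)) := by rfl
theorem dn_eq (b o u : Nat) : dn b o u = (u + ((cb b o) * UP0)) := by rfl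
theorem gg_eq (b o p u v wx wy : Nat) : gg b o p u v wx wy = (((((cb b o) * u) + ((cb b p) * v)) + ((((hw b o) * wx) + ((hw b p) * wy)) * UP0)) <<< 1) := by rfl
theorem sq_eq (b wx wy : Nat) : sq b wx wy = ((((((fl (b >>> 32) 0) * wx) * wx) + (((2 * (fl (b >>> 32) 64)) * wx) * wy)) + (((fl (b >>> 32) 128) * wy) * wy)) * UP0) := by rfl
theorem lin4_eq (xp xn yp yn a b c d : Nat) : lin4 xp xn yp yn a b c d = ((((xp * a) + (xn * b)) + (yp * c)) + (yn * d)) := by rfl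
theorem osq_eq (o : Nat) : osq o = ((o * o) <<< 224) := by rfl
theorem pq_eq (ma mb h q : Nat) : pq ma mb h q = (((ma / h) * q) + (mb * h)) := by rfl
theorem pdc_eq (ma mb px pt x yt h : Nat) : pdc ma mb px pt x yt h = (pq ma mb ((h &&& 262143) + 1) ((osq (adf (px + yt) (x + pt))) + QS)) := by rfl
theorem pma_eq (mu : Nat) : pma mu = ((mu / 8589932544) + 262145) := by rfl
theorem pmb_eq (mu : Nat) : pmb mu = ((mu <<< 7) * UP0) := by rfl
theorem unv_eq (o : Nat) : unv o = (TN - (1 <<< o)) := by rfl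
theorem ec2_eq (ma mb cl px pt : Nat) (r : EL) : ec2 ma mb cl px pt r = (EL.mk (fun x y yt h => ((pdc ma mb px pt x yt h) + (r.1 x y yt (h >>> 18)))) (cl + r.2)) := by rfl
theorem ec_eq (mu o px py : Nat) (r : EL) : ec mu o px py r = (ec2 (pma mu) (pmb mu) (mu * (unv o)) px (py <<< 224) r) := by rfl
theorem ev2_eq (ma mb cl px py pt a b c d e : Nat) (r : EL) : ev2 ma mb cl px py pt a b c d e r = (EL.mk (fun x y yt h => ((pq ma mb ((h &&& 262143) + 1) (((osq (adf (px + yt) (x + pt))) + e) + (lin4 (px - x) (x - px) (py - y) (y - py) a b c d))) + (r.1 x y yt (h >>> 18)))) (cl + r.2)) := by rfl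
theorem ev_eq (b mu o ox oy ux nx uy ny : Nat) (r : EL) : ev b mu o ox oy ux nx uy ny r = (ev2 (pma mu) (pmb mu) (mu * (unv o)) (cb b ox) (cb b oy) ((cb b oy) <<< 224) (gg b 0 64 (dp b ox ux) (dn b oy ny) (hw b ox) (hw b oy)) (gg b 0 64 (dn b ox nx) (dp b oy uy) (hw b ox) (hw b oy)) (gg b 64 128 (dn b ox nx) (dp b oy uy) (hw b ox) (hw b oy)) (gg b 64 128 (dp b ox ux) (dn b oy ny) (hw b ox) (hw b oy)) ((sq b (hw b ox) (hw b oy)) + QS) r) := by rfl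
theorem mu_eq (d o : Nat) : mu d o = ((dg d o) - B1) := by rfl
theorem pe_eq (b d o c : Nat) (r : EL) : pe b d o c r = (Bool.rec (motive := fun _ => EL) (Bool.rec (motive := fun _ => EL) (Bool.rec (motive := fun _ => EL) (ev b (mu d (o + 896)) (o + 896) 256 320 U5 N5 U6 N6 r) (ec (mu d (o + 672)) (o + 672) 83886060 75497454 r) (Nat.ble c 3)) (ec (mu d (o + 448)) (o + 448) 83886060 58720242 r) (Nat.ble c 2)) (Bool.rec (motive := fun _ => EL) (ev b (mu d (o + 224)) (o + 224) 192 384 U4 N4 U7 N7 r) (ec (mu d o) o 67108848 67108848 r) (Nat.beq c 0)) (Nat.ble c 1)) := by rfl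
theorem mkel_eq (b d o n w : Nat) : mkel b d o n w = ((Nat.rec (motive := fun _ => Nat → EL) (fun w => (EL.mk (fun x y yt h => 0) 0)) (fun _ ih => (fun w => (pe b d o (w &&& 7) (ih (w >>> 3))))) n) w) := by rfl
theorem lent_eq (l i : Nat) : lent l i = ((l >>> (i * 1280)) &&& MLE) := by rfl
theorem pr_eq (a b : Nat) : pr a b = (((a &&& ML) * ((b >>> 640) &&& ML)) + PBI) := by rfl
theorem vt2_eq (f : F4) (p d h e : Nat) : vt2 f p d h e = (((p &&& PCK) ^^^ PTP) + (f (((p >>> 128) &&& 36028797018963967) / d) (((p >>> 512) &&& 36028797018963967) / d) h e)) := by rfl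
theorem vt_eq (f : F4) (p h e : Nat) : vt f p h e = (vt2 f p (((p >>> 320) &&& 67108863) + 1) h e) := by rfl
theorem pst_eq (f : F4) (l hw : Nat) (ih : F4) (a b w h e : Nat) : pst f l hw ih a b w h e = ((vt f (pr a b) h e) + (ih b (w >>> 6) (h >>> hw) (e >>> 18))) := by rfl
theorem poly2_eq (f : F4) (l n hw z w h e : Nat) : poly2 f l n hw z w h e = ((Nat.rec (motive := fun _ => F4) (fun a w h e => (vt f (pr a z) h e)) (fun _ ih => (fun a w h e => (pst f l hw ih a (lent l (w &&& 63)) w h e))) n) z w h e) := by rfl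
theorem poly_eq (f : F4) (l n hw w h e : Nat) : poly f l n hw w h e = (poly2 f l n hw (lent l (w &&& 63)) (w >>> 6) h e) := by rfl
theorem win_eq (d o m c : Nat) : win d o m c = (((d >>> o) &&& m) + c) := by rfl
theorem ck_eq (d a mk : Nat) : ck d a mk = (((d >>> 11098) + (a >>> 4602)) + ((d ^^^ BIN) &&& mk)) := by rfl
theorem d8_eq (b r d a : Nat) : d8 b r d a = (fold b r ((d &&& MM20) + a)) := by rfl
theorem aa_eq (mx my : Nat) (el : EL) (x y h : Nat) : aa mx my el x y h = (((y * mx) + (x * my)) + (el.1 x y (y <<< 224) h)) := by rfl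
theorem f1_eq (b d mx my : Nat) (el : EL) (x y h e : Nat) : f1 b d mx my el x y h e = (bnd b (d + (aa mx my el x y h))) := by rfl
theorem l1c_eq (b r l ox oy mk n hw wi wh : Nat) (el : EL) (d a : Nat) : l1c b r l ox oy mk n hw wi wh el d a = ((ck d a mk) + (poly (fun x y h e => (f1 b (d8 b r d a) (win d ox MKX CX) (win d oy MKY CY) el x y h e)) l n hw wi wh 0)) := by rfl
theorem l1b_eq (b r l ox oy mk n hw wi wh : Nat) (el : EL) (d a : Nat) : l1b b r l ox oy mk n hw wi wh el d a = (l1c b r l ox oy mk n hw wi wh el (d + el.2) a) := by rfl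
theorem l1a_eq (b r l ox oy op mk n ne hw we wi wh d a : Nat) : l1a b r l ox oy op mk n ne hw we wi wh d a = (l1b b r l ox oy mk n hw wi wh (mkel b d op ne we) d a) := by rfl
theorem l1p_eq (b r fa g l ini ox oy op mk nb m s nf n ne hw w1 w2 w3 w4 w5 : Nat) : l1p b r fa g l ini ox oy op mk nb m s nf n ne hw w1 w2 w3 w4 w5 = (l1a b r l ox oy op mk n ne hw w2 w3 w4 ((((lam w1 m s) * ini) + (sls g nb m s (nb + 12) (w5 >>> (nf * (nb + 7))))) + BIN) (fs fa nb m s (nb + 7) nf w5)) := by rfl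
theorem l0a_eq (b r d a : Nat) : l0a b r d a = ((ck d a MK0) + (bnd b (d8 b r d a))) := by rfl
theorem l0p_eq (b r fa g nb m s nf w : Nat) : l0p b r fa g nb m s nf w = (l0a b r ((sls g nb m s (nb + 12) (w >>> (nf * (nb + 7)))) + BIN) (fs fa nb m s (nb + 7) nf w)) := by rfl
theorem gn_eq (b v xe ye mx my : Nat) (el : EL) (x y h e : Nat) : gn b v xe ye mx my el x y h e = (bnd b (((v + (aa mx my el x y h)) + (y * xe)) + (x * ye))) := by rfl
theorem gp_eq (b v xe ye mx my : Nat) (el : EL) (ma mb px pt x y h e : Nat) : gp b v xe ye mx my el ma mb px pt x y h e = (bnd b ((((v + (aa mx my el x y h)) + (y * xe)) + (x * ye)) + (pdc ma mb px pt x (y <<< 224) e))) := by rfl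
theorem fn2_eq (b v xe ye mx my : Nat) (el : EL) (l n hw wi wh : Nat) : fn2 b v xe ye mx my el l n hw wi wh = (poly (fun x y h e => (gn b v xe ye mx my el x y h e)) l n hw wi wh 0) := by rfl
theorem fp2_eq (b v xe ye mx my : Nat) (el : EL) (ma mb px pt l n hw wi wh e : Nat) : fp2 b v xe ye mx my el ma mb px pt l n hw wi wh e = (poly (fun x y h e => (gp b v xe ye mx my el ma mb px pt x y h e)) l n hw wi wh e) := by rfl
theorem fn_eq (b d mx5 my5 : Nat) (e5 : EL) (ex ey mx6 my6 : Nat) (e6 : EL) (l n hw wi wh x y h e : Nat) : fn b d mx5 my5 e5 ex ey mx6 my6 e6 l n hw wi wh x y h e = (fn2 b (d + (aa mx5 my5 e5 x y h)) (x * ex) (y * ey) mx6 my6 e6 l n hw wi wh) := by rfl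
theorem fp_eq (b d mx5 my5 : Nat) (e5 : EL) (ex ey mx6 my6 : Nat) (e6 : EL) (ma mb l n hw wi wh h5 x y h e : Nat) : fp b d mx5 my5 e5 ex ey mx6 my6 e6 ma mb l n hw wi wh h5 x y h e = (fp2 b (d + (aa mx5 my5 e5 x y h)) (x * ex) (y * ey) mx6 my6 e6 ma mb x (y <<< 224) l n hw wi wh (h >>> h5)) := by rfl
theorem l2d_eq (b d mx5 my5 : Nat) (e5 : EL) (ex ey mx6 my6 : Nat) (e6 : EL) (ma mb l5 l6 n5 n6 f h5 h6 hw i5 i6 s5 s6 : Nat) : l2d b d mx5 my5 e5 ex ey mx6 my6 e6 ma mb l5 l6 n5 n6 f h5 h6 hw i5 i6 s5 s6 = (Bool.rec (motive := fun _ => Nat) (poly (fun x y h e => (fp b d mx5 my5 e5 ex ey mx6 my6 e6 ma mb l6 n6 h6 i6 s6 h5 x y h e)) l5 n5 hw i5 s5 0) (poly (fun x y h e => (fn b d mx5 my5 e5 ex ey mx6 my6 e6 l6 n6 h6 i6 s6 x y h e)) l5 n5 hw i5 s5 0) (Nat.beq f 0)) := by rfl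
theorem l2c_eq (b r : Nat) (e5 e6 : EL) (u l5 l6 n5 n6 f h5 h6 hw i5 i6 s5 s6 d a : Nat) : l2c b r e5 e6 u l5 l6 n5 n6 f h5 h6 hw i5 i6 s5 s6 d a = ((ck d a MK56) + (l2d b (d8 b r d a) (win d 4480 MKX CX) (win d 4928 MKY CY) e5 ((dg d 10752) + CE) ((dg d 10528) + CE) (win d 5824 MKX CX) (win d 6048 MKY CY) e6 (pma u) (pmb u) l5 l6 n5 n6 f h5 h6 hw i5 i6 s5 s6)) := by rfl
theorem l2b_eq (b r : Nat) (e5 e6 : EL) (u l5 l6 n5 n6 f h5 h6 hw i5 i6 s5 s6 d a : Nat) : l2b b r e5 e6 u l5 l6 n5 n6 f h5 h6 hw i5 i6 s5 s6 d a = (l2c b r e5 e6 u l5 l6 n5 n6 f h5 h6 hw i5 i6 s5 s6 (((d + e5.2) + e6.2) + (u * (unv 10080))) a) := by rfl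
theorem l2a_eq (b r l5 l6 n5 n6 e5 e6 f h5 h6 hw w5 w6 i5 i6 s5 s6 d a : Nat) : l2a b r l5 l6 n5 n6 e5 e6 f h5 h6 hw w5 w6 i5 i6 s5 s6 d a = (l2b b r (mkel b d 7840 e5 w5) (mkel b d 8960 e6 w6) (f * (mu d 10080)) l5 l6 n5 n6 f h5 h6 hw i5 i6 s5 s6 d a) := by rfl
theorem l2p_eq (b r fa g l5 l6 j5 j6 nb m s nf n5 n6 e5 e6 f h5 h6 hw w1 w2 w5 w6 i5 i6 s5 s6 wf : Nat) : l2p b r fa g l5 l6 j5 j6 nb m s nf n5 n6 e5 e6 f h5 h6 hw w1 w2 w5 w6 i5 i6 s5 s6 wf = (l2a b r l5 l6 n5 n6 e5 e6 f h5 h6 hw w5 w6 i5 i6 s5 s6 (((((lam w1 m s) * j5) + ((lam w2 m s) * j6)) + (sls g nb m s (nb + 12) (wf >>> (nf * (nb + 7))))) + BIN) (fs fa nb m s (nb + 7) nf wf)) := by rfl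
theorem qm3_eq (o e xp xn yp yn a b c d q : Nat) : qm3 o e xp xn yp yn a b c d q = (QM.mk (((o + e) + (lin4 xp xn yp yn a b c d)) + q) ((e - o) + (lin4 xp xn yp yn b a d c))) := by rfl
theorem sen_eq (x : Nat) : sen x = ((x * x) <<< 1792) := by rfl
theorem qm2_eq (b xp xn yp yn up un vp vn wx wy : Nat) : qm2 b xp xn yp yn up un vp vn wx wy = (qm3 (osq (adf (xp + (yn <<< 224)) (xn + (yp <<< 224)))) (sen (((xp + xn) + yp) + yn)) xp xn yp yn (gg b 0 64 up vn wx wy) (gg b 0 64 un vp wx wy) (gg b 64 128 un vp wx wy) (gg b 64 128 up vn wx wy) (sq b wx wy)) := by rfl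
theorem qm1_eq (b xp xn yp yn up un vp vn wx wy : Nat) : qm1 b xp xn yp yn up un vp vn wx wy = (qm2 b (xp - xn) (xn - xp) (yp - yn) (yn - yp) up un vp vn wx wy) := by rfl
theorem qm_eq (b p1 n1 p2 n2 p3 n3 p4 n4 : Nat) : qm b p1 n1 p2 n2 p3 n3 p4 n4 = (qm1 b ((((p1 * (cb b 192)) + (p4 * (cb b 256))) + ((n1 + n4) * 67108848)) + ((p2 + p3) * 16777212)) ((((n1 * (cb b 192)) + (n4 * (cb b 256))) + ((p1 + p4) * 67108848)) + ((n2 + n3) * 16777212)) ((((p1 * (cb b 384)) + (p4 * (cb b 320))) + ((n1 + n4) * 67108848)) + ((p3 + n2) * 8388606)) ((((n1 * (cb b 384)) + (n4 * (cb b 320))) + ((p1 + p4) * 67108848)) + ((n3 + p2) * 8388606)) ((((p1 * (dp b 192 U4)) + (n1 * (dn b 192 N4))) + (p4 * (dp b 256 U5))) + (n4 * (dn b 256 N5))) ((((n1 * (dp b 192 U4)) + (p1 * (dn b 192 N4))) + (n4 * (dp b 256 U5))) + (p4 * (dn b 256 N5))) ((((p1 * (dp b 384 U7)) + (n1 * (dn b 384 N7))) + (p4 * (dp b 320 U6)))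 + (n4 * (dn b 320 N6))) ((((n1 * (dp b 384 U7)) + (p1 * (dn b 384 N7))) + (n4 * (dp b 320 U6))) + (p4 * (dn b 320 N6))) (((p1 + n1) * (hw b 192)) + ((p4 + n4) * (hw b 256))) (((p1 + n1) * (hw b 384)) + ((p4 + n4) * (hw b 320)))) := by rfl
theorem bt_eq (c j : Nat) : bt c j = ((c >>> j) &&& 1) := by rfl
theorem qj_eq (b j : Nat) : qj b j = (qm b (bt 112 j) (bt 1 j) (bt 384 j) (bt 18 j) (bt 512 j) (bt 164 j) (bt 0 j) (bt 840 j)) := by rfl
theorem lift_eq (a : Nat) : lift a = ((a + ((a >>> 1792) * LFT)) + T20) := by rfl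
theorem push_eq (fa f : Nat) : push fa f = ((fa <<< 4704) + f) := by rfl
theorem c1_eq (w e n : Nat) : c1 w e n = ((w &&& ((1 <<< e) - 1)) >>> n) := by rfl
theorem okU_eq (b : Nat) (q : QM) (x : Nat) : okU b q x = (bnd b ((q.1 + (x * UN0)) + BI2)) := by rfl
theorem okL_eq (b : Nat) (q : QM) (x : Nat) : okL b q x = (bnd b ((q.2 + (x * UP0)) + BI2)) := by rfl
theorem fR_eq (q : QM) (j c u : Nat) : fR q j c u = ((((lift q.2) + ((33554424 * c) * (T20 + (jt j)))) + (((16777212 * u) * u) * VP0)) + (((16777212 * c) * c) * VN0)) := by rfl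
theorem nR3_eq (k : KT) (w b r fa g rt l5 l6 i5 i6 f : Nat) : nR3 k w b r fa g rt l5 l6 i5 i6 f = ((f >>> 4679) + (k w b r (push fa f) g rt l5 l6 i5 i6)) := by rfl
theorem nR2_eq (k : KT) (w b r fa g rt l5 l6 i5 i6 j x o lo hi : Nat) : nR2 k w b r fa g rt l5 l6 i5 i6 j x o lo hi = ((((j - 9) + (Bool.rec (motive := fun _ => Nat) (okU b (qj b j) ((16777212 * hi) * hi)) 0 (Nat.ble (fl (r >>> 32) o) hi))) + (Bool.rec (motive := fun _ => Nat) (okL b (qj b j) ((16777212 * lo) * lo)) 0 (Nat.ble lo (fl r o)))) + (nR3 k w b (upd r o x 18446744073709551615) fa g rt l5 l6 i5 i6 (fR (qj b j) j ((lo + hi) >>> 1) (hi - ((lo + hi) >>> 1))))) := by rfl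
theorem nR_eq (k : KT) (w b r fa g rt l5 l6 i5 i6 h : Nat) : nR k w b r fa g rt l5 l6 i5 i6 h = (Nat.rec (motive := fun _ => Nat) 1 (fun j _ => (nR2 k (w >>> 72) b r fa g rt l5 l6 i5 i6 j (h >>> 8) (j <<< 6) (fl h 8) (fl h 40))) ((h >>> 4) &&& 15)) := by rfl
theorem fU_eq (q : QM) (j c : Nat) : fU q j c = (((lift q.1) + ((33554424 * c) * (T20 - (jt j)))) + (((16777212 * c) * c) * VP0)) := by rfl
theorem nU_eq (k : KT) (w b r fa g rt l5 l6 i5 i6 h : Nat) : nU k w b r fa g rt l5 l6 i5 i6 h = (Nat.rec (motive := fun _ => Nat) 1 (fun j _ => ((j - 9) + (nR3 k (w >>> 38) b r fa g rt l5 l6 i5 i6 (fU (qj b j) j (fl h 8))))) ((h >>> 4) &&& 15)) := by rfl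
theorem fP_eq (x y : Nat) : fP x y = ((((adf (x + TK) (8192 + (y <<< 224))) * (adf (x + TK) (8192 + (y <<< 224)))) <<< 248) + QSP) := by rfl
theorem mk0_eq (x y z : Nat) : mk0 x y z = ((((x * EA) + (y * EB)) + (z * EC)) + E0) := by rfl
theorem mkp_eq (x y a : Nat) : mkp x y a = (a + (((4096 - x) + (4096 - y)) * E1)) := by rfl
theorem mkn_eq (x y a : Nat) : mkn x y a = ((EN - a) + (((x - 4096) + (y - 4096)) * E1)) := by rfl
theorem mkl_eq (w : Nat) : mkl w = (mkp (w &&& 16383) ((w >>> 14) &&& 16383) (mk0 (w &&& 16383) ((w >>> 14) &&& 16383) ((w >>> 28) &&& 268435455))) := by rfl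
theorem nC52_eq (k : KT) (w b r fa g rt l5 l6 i5 i6 x y a e : Nat) : nC52 k w b r fa g rt l5 l6 i5 i6 x y a e = ((k (c1 w e 77) b r fa g rt (l5 + (mkp x y a)) l6 i5 i6) + (k (w >>> e) b r fa g rt (l5 + (mkn x y a)) l6 i5 i6)) := by rfl
theorem nC5_eq (k : KT) (w b r fa g rt l5 l6 i5 i6 h : Nat) : nC5 k w b r fa g rt l5 l6 i5 i6 h = (nC52 k w b r fa g rt (l5 <<< 1280) l6 i5 i6 ((h >>> 4) &&& 8191) ((h >>> 18) &&& 8191) (mk0 ((h >>> 4) &&& 8191) ((h >>> 18) &&& 8191) ((h >>> 32) &&& 268435455)) (((h >>> 60) &&& 131071) <<< 2)) := by rfl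
theorem nC62_eq (k : KT) (w b r fa g rt l5 l6 i5 i6 x y a e : Nat) : nC62 k w b r fa g rt l5 l6 i5 i6 x y a e = ((k (c1 w e 77) b r fa g rt l5 (l6 + (mkp x y a)) i5 i6) + (k (w >>> e) b r fa g rt l5 (l6 + (mkn x y a)) i5 i6)) := by rfl
theorem nC6_eq (k : KT) (w b r fa g rt l5 l6 i5 i6 h : Nat) : nC6 k w b r fa g rt l5 l6 i5 i6 h = (nC62 k w b r fa g rt l5 (l6 <<< 1280) i5 i6 ((h >>> 4) &&& 8191) ((h >>> 18) &&& 8191) (mk0 ((h >>> 4) &&& 8191) ((h >>> 18) &&& 8191) ((h >>> 32) &&& 268435455)) (((h >>> 60) &&& 131071) <<< 2)) := by rfl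
theorem nA2_eq (k : KT) (w b r fa g rt l5 l6 i5 i6 x y a e : Nat) : nA2 k w b r fa g rt l5 l6 i5 i6 x y a e = ((k (c1 w e 77) b r fa (g &&& G4) rt ((rt <<< 1280) + (mkn x y a)) 0 0 0) + (k (w >>> e) b r fa g ((rt <<< 1280) + (mkp x y a)) l5 l6 i5 i6)) := by rfl
theorem nA_eq (k : KT) (w b r fa g rt l5 l6 i5 i6 h : Nat) : nA k w b r fa g rt l5 l6 i5 i6 h = (nA2 k w b r fa g rt l5 l6 i5 i6 ((h >>> 4) &&& 8191) ((h >>> 18) &&& 8191) (mk0 ((h >>> 4) &&& 8191) ((h >>> 18) &&& 8191) ((h >>> 32) &&& 268435455)) (((h >>> 60) &&& 131071) <<< 2)) := by rfl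
theorem nB2_eq (k : KT) (w b r fa g rt l5 l6 i5 i6 i j h e f : Nat) : nB2 k w b r fa g rt l5 l6 i5 i6 i j h e f = (((k (c1 w e 47) b r fa (g ||| (1 <<< ((i + (j <<< 3)) + (h <<< 6)))) rt l5 l6 i5 i6) + (k (c1 w f e) b r fa (g ||| (1 <<< ((i + (h <<< 3)) + (j <<< 6)))) rt l5 l6 i5 i6)) + (k (w >>> f) b r fa (g ||| (1 <<< ((j + (h <<< 3)) + (i <<< 6)))) rt l5 l6 i5 i6)) := by rfl
theorem nB_eq (k : KT) (w b r fa g rt l5 l6 i5 i6 h : Nat) : nB k w b r fa g rt l5 l6 i5 i6 h = (nB2 k w b r fa g rt l5 l6 i5 i6 ((h >>> 4) &&& 7) ((h >>> 7) &&& 7) ((h >>> 10) &&& 7) (((h >>> 13) &&& 131071) <<< 2) (((h >>> 30) &&& 131071) <<< 2)) := by rfl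
theorem nSb_eq (k : KT) (w b r fa g rt l5 l6 i5 i6 o v e : Nat) : nSb k w b r fa g rt l5 l6 i5 i6 o v e = ((k (c1 w e 55) (upd b (o + 32) v 4294967295) r fa g rt l5 l6 i5 i6) + (k (w >>> e) (upd b o v 4294967295) r fa g rt l5 l6 i5 i6)) := by rfl
theorem nSl_eq (k : KT) (w b r fa g rt l5 l6 i5 i6 o v e : Nat) : nSl k w b r fa g rt l5 l6 i5 i6 o v e = ((k (c1 w e 55) b (upd r (o + 32) v 4294967295) fa g rt l5 l6 i5 i6) + (k (w >>> e) b (upd r o v 4294967295) fa g rt l5 l6 i5 i6)) := by rfl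
theorem uc2_eq (u x : Nat) : uc2 u x = ((((u * 281474842492944) + (17179865088 * (x &&& UMA))) + ((x &&& UMC) <<< 10)) &&& UM84) := by rfl
theorem uc_eq (w : Nat) : uc w = (uc2 (w &&& 68719476735) (((((w >>> 36) &&& M140) * USP) &&& UM7) + (uen ((w >>> 176) &&& 15) (w >>> 180)))) := by rfl
theorem dr_eq (s p1 n1 p2 n2 p3 n3 p4 n4 : Nat) : dr s p1 n1 p2 n2 p3 n3 p4 n4 = ((((((((p1 * (cr 0 1 s)) + (n1 * (cr 0 s 1))) + (p2 * (cr 0 2 s))) + (n2 * (cr 0 s 2))) + (p3 * (cr 0 3 s))) + (n3 * (cr 0 s 3))) + (p4 * (cr 0 4 s))) + (n4 * (cr 0 s 4))) := by rfl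
theorem sd_eq (k : KT) (s w b r fa g rt l5 i5 x : Nat) : sd k s w b r fa g rt l5 i5 x = (Bool.rec (motive := fun _ => Nat) (k w b r fa (g &&& G5) rt l5 rt i5 x) (k w b r fa (g &&& G4) rt rt 0 x 0) (Nat.beq s 5)) := by rfl
theorem nQ_eq (k : KT) (w b r fa g rt l5 l6 i5 i6 s n e f u v p1 n1 p2 n2 p3 n3 p4 n4 x : Nat) : nQ k w b r fa g rt l5 l6 i5 i6 s n e f u v p1 n1 p2 n2 p3 n3 p4 n4 x = (((sd k s (c1 w e n) b r fa g rt l5 i5 ((u + UPN) + (dr s p1 n1 p2 n2 p3 n3 p4 n4))) + (sd k s (c1 w f e) b r fa g rt l5 i5 ((v + UPN) + (dr s n1 p1 n2 p2 n3 p3 n4 p4)))) + (nR3 k (w >>> f) b r fa g rt l5 l6 i5 i6 x)) := by rfl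
theorem fQP_eq (u v j : Nat) : fQP u v j = (((UNG - u) + (UNG - v)) + (455435857895988 * (T20 - (jt j)))) := by rfl
theorem nQP2_eq (k : KT) (w b r fa g rt l5 l6 i5 i6 s n e f u v j : Nat) : nQP2 k w b r fa g rt l5 l6 i5 i6 s n e f u v j = ((j - 9) + (nQ k w b r fa g rt l5 l6 i5 i6 s n e f u v (16777212 * (bt 112 j)) (16777212 * (bt 1 j)) (16777212 * (bt 384 j)) (16777212 * (bt 18 j)) (16777212 * (bt 512 j)) (16777212 * (bt 164 j)) (16777212 * (bt 0 j)) (16777212 * (bt 840 j)) (fQP u v j))) := by rfl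
theorem rnd_eq (x : Nat) : rnd x = ((((x >>> 68) &&& RM) + (((x >>> 4548) + 2) * T20)) - RB) := by rfl
theorem fQG_eq (q : QM) (x c u : Nat) : fQG q x c u = (((562949684985888 * c) * x) + (27146099 * (((lift q.2) + (((4722363105170729992128 * u) * u) * VP0)) + (((4722363105170729992128 * c) * c) * VN0)))) := by rfl
theorem nps_eq (b r x : Nat) : nps b r x = ((x >>> 4602) + (bnd b (fold b r (x + BI20)))) := by rfl
theorem nQG4_eq (b r x z : Nat) : nQG4 b r x z = (Bool.rec (motive := fun _ => Nat) (nps b r x) 0 (Nat.beq z 0)) := by rfl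
theorem nQG3_eq (b r : Nat) (q : QM) (x c u y : Nat) : nQG3 b r q x c u y = (((y >>> 4679) + (Bool.rec (motive := fun _ => Nat) (okL b q ((4722363105170729992128 * (c - u)) * (c - u))) 0 (Nat.ble c u))) + (nQG4 b r (x + ((455435857895988 * (c + u)) * VN0)) (okU b q ((4722363105170729992128 * (c + u)) * (c + u))))) := by rfl
theorem nQG2_eq (k : KT) (w b r fa g rt l5 l6 i5 i6 s n e f u v p1 n1 p2 n2 p3 n3 p4 n4 : Nat) (q : QM) (x c d : Nat) : nQG2 k w b r fa g rt l5 l6 i5 i6 s n e f u v p1 n1 p2 n2 p3 n3 p4 n4 q x c d = ((nQG3 b r q x c d (fQG q x c d)) + (nQ k w b r fa g rt l5 l6 i5 i6 s n e f u v p1 n1 p2 n2 p3 n3 p4 n4 (rnd ((fQG q x c d) + BI3)))) := by rfl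
theorem nQG1_eq (k : KT) (w b r fa g rt l5 l6 i5 i6 s n e f u v p1 n1 p2 n2 p3 n3 p4 n4 c d : Nat) : nQG1 k w b r fa g rt l5 l6 i5 i6 s n e f u v p1 n1 p2 n2 p3 n3 p4 n4 c d = (nQG2 k w b r fa g rt l5 l6 i5 i6 s n e f u v p1 n1 p2 n2 p3 n3 p4 n4 (qm b p1 n1 p2 n2 p3 n3 p4 n4) ((UNG - u) + (UNG - v)) c d) := by rfl
theorem sb1_eq (a b o : Nat) : sb1 a b o = (((fl a o) - (fl b o)) + ((fl (b >>> 32) o) - (fl (a >>> 32) o))) := by rfl
theorem sub7_eq (a b : Nat) : sub7 a b = (((((((sb1 a b 0) + (sb1 a b 64)) + (sb1 a b 128)) + (sb1 a b 192)) + (sb1 a b 256)) + (sb1 a b 320)) + (sb1 a b 384)) := by rfl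
theorem gl_eq (l n w : Nat) : gl l n w = ((Nat.rec (motive := fun _ => Nat → Nat) (fun w => 0) (fun _ ih => (fun w => (((ih (w >>> 6)) <<< 1280) + (lent l (w &&& 63))))) n) w) := by rfl
theorem gf_eq (fa n w : Nat) : gf fa n w = ((Nat.rec (motive := fun _ => Nat → Nat) (fun w => 0) (fun _ ih => (fun w => (((ih (w >>> 7)) <<< 4704) + (ent fa (w &&& 127))))) n) w) := by rfl
theorem nH2_eq (h b r fa g rt n w : Nat) : nH2 h b r fa g rt n w = (((((b ^^^ (h &&& M448)) + (r ^^^ ((h >>> 448) &&& M640))) + ((g &&& ((h >>> 1088) &&& M512)) ^^^ ((h >>> 1088) &&& M512))) + ((gl rt n w) ^^^ (hrt h))) + ((gf fa ((w >>> (6 * n)) &&& 127) (w >>> ((6 * n) + 7))) ^^^ (hfa h))) := by rfl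
theorem nH_eq (hs : Nat → Nat) (w b r fa g rt : Nat) : nH hs w b r fa g rt = (nH2 (hs ((w >>> 4) &&& 63)) b r fa g rt ((w >>> 10) &&& 63) (w >>> 16)) := by rfl
theorem nO_eq (loc : Nat) (k : KT) (w b r fa g rt l5 l6 i5 i6 h : Nat) : nO loc k w b r fa g rt l5 l6 i5 i6 h = (Bool.rec (motive := fun _ => Nat) (nR3 k (w >>> 33) b r fa g rt l5 l6 i5 i6 (fP ((h >>> 5) &&& 16383) ((h >>> 19) &&& 16383))) (sub7 loc b) (Nat.beq ((h >>> 4) &&& 1) 0)) := by rfl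
theorem st4_eq (loc : Nat) (hs : Nat → Nat) (k : KT) (w b r fa g rt l5 l6 i5 i6 h c : Nat) : st4 loc hs k w b r fa g rt l5 l6 i5 i6 h c = (Bool.rec (motive := fun _ => Nat) (Bool.rec (motive := fun _ => Nat) (nO loc k w b r fa g rt l5 l6 i5 i6 h) (nH hs w b r fa g rt) (Nat.ble c 14)) (Bool.rec (motive := fun _ => Nat) (nA k w b r fa g rt l5 l6 i5 i6 h) (nSl k w b r fa g rt l5 l6 i5 i6 (((h >>> 4) &&& 15) <<< 6) (fl h 8) (((h >>> 38) &&& 131071) <<< 2)) (Nat.ble c 12)) (Nat.ble c 13)) := by rfl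
theorem st3_eq (loc : Nat) (hs : Nat → Nat) (k : KT) (w b r fa g rt l5 l6 i5 i6 h c : Nat) : st3 loc hs k w b r fa g rt l5 l6 i5 i6 h c = (Bool.rec (motive := fun _ => Nat) (Bool.rec (motive := fun _ => Nat) (Bool.rec (motive := fun _ => Nat) (st4 loc hs k w b r fa g rt l5 l6 i5 i6 h c) (nSb k w b r fa g rt l5 l6 i5 i6 (((h >>> 4) &&& 15) <<< 6) (fl h 8) (((h >>> 38) &&& 131071) <<< 2)) (Nat.ble c 11)) (nQG k w b r fa g rt l5 l6 i5 i6 (w &&& M2048)) (Nat.ble c 10)) (Bool.rec (motive := fun _ => Nat) (nQP k w b r fa g rt l5 l6 i5 i6 (w &&& M2048)) (nC6 k w b r fa g rt l5 l6 i5 i6 h) (Nat.ble c 8)) (Nat.ble c 9)) := by rfl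
theorem st2_eq (loc : Nat) (hs : Nat → Nat) (k : KT) (w b r fa g rt l5 l6 i5 i6 h c : Nat) : st2 loc hs k w b r fa g rt l5 l6 i5 i6 h c = (Bool.rec (motive := fun _ => Nat) (Bool.rec (motive := fun _ => Nat) (st3 loc hs k w b r fa g rt l5 l6 i5 i6 h c) (Bool.rec (motive := fun _ => Nat) (lf2 b r fa g l5 l6 i5 i6 w) (lf1 b r fa g l6 i6 5824 6048 8960 MK6 w) (Nat.ble c 6)) (Nat.ble c 7)) (Bool.rec (motive := fun _ => Nat) (lf0 b r fa g w) (Bool.rec (motive := fun _ => Nat) (nU k w b r fa g rt l5 l6 i5 i6 h) (nR k w b r fa g rt l5 l6 i5 i6 h) (Nat.ble c 3)) (Nat.ble c 4)) (Nat.ble c 5)) := by rfl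
theorem st1_eq (loc : Nat) (hs : Nat → Nat) (k : KT) (w b r fa g rt l5 l6 i5 i6 h c : Nat) : st1 loc hs k w b r fa g rt l5 l6 i5 i6 h c = (Bool.rec (motive := fun _ => Nat) (st2 loc hs k w b r fa g rt l5 l6 i5 i6 h c) (Bool.rec (motive := fun _ => Nat) (nB k w b r fa g rt l5 l6 i5 i6 h) (nC5 k w b r fa g rt l5 l6 i5 i6 h) (Nat.ble c 1)) (Nat.ble c 2)) := by rfl
theorem step_eq (loc : Nat) (hs : Nat → Nat) (k : KT) (w b r fa g rt l5 l6 i5 i6 : Nat) : step loc hs k w b r fa g rt l5 l6 i5 i6 = (Bool.rec (motive := fun _ => Nat) (st1 loc hs k w b r fa g rt l5 l6 i5 i6 (w &&& M128) (w &&& 15)) (lf1 b r fa g l5 i5 4480 4928 7840 MK5 w) (Nat.beq (w &&& 15) 0)) := by rfl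


end Pool.Agent.Lib.MP_9d820d_co.Fast
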