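import Pool.Agent.Lib.MP_9d820d_co.FSem

set_option autoImplicit false
set_option exponentiation.threshold 20000

namespace Pool.Agent.Lib.MP_9d820d_co.Fast

open Finset

variable {P : Prm} {b r : ℕ}

theorem ww_le (b o p : ℕ) : 2 * ww b o p ≤ 2 ^ 61 := by
  have := Nat.mul_le_mul (hw_lt b o).le (hw_lt b p).le
  rw [ww_eq]
  omega

theorem chi_rng {x y : ℝ} {o p : ℕ} (hx : |x - cb b o| ≤ hw b o) (hy : |y - cb b p| ≤ hw b p) :
    (0 : ℝ) ≤ (x - cb b o) * (y - cb b p) + ww b o p ∧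
      (x - cb b o) * (y - cb b p) + ww b o p ≤ 2 * ww b o p := by
  have := abs_le.1 (abs_mul_le hx hy)
  rw [ww_eq]
  push_cast
  constructor <;> linarith [this.1, this.2]

theorem cv_ub {o p u v : ℕ} {x y : ℝ} (hu : Ub (mz P) 8 u x) (hv : Ub (mz P) 8 v y) :
    Ub (mz P) 8 (cv b o p u v) (cb b p * x + cb b o * y - (cb b o * cb b p + ww b o p)) := by
  rw [cv_eq]
  refine (((hu.mul _).add (hv.mul _)).add (ub_UN0.mul _)).mono (le_of_eq ?_)
  rw [cw_eq]
  push_cast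
  ring

theorem fold_sound {F : ℕ} {v : ℕ → ℤ} (hb : InB P b) (hr : InR P r) (hv : Bia 20 124 F v) :
    Ub2 P (fold b r F) (val (mz P) 20 v) := by
  have hL := hv.shr (j := 8) (l := 12) le_rfl
  rw [fold_eq, fold2_eq, show 1792 = 224 * 8 from rfl]
  generalize F >>> (224 * 8) = L at hL ⊢
  have c1 := chi_rng (hb.ctr (k := 3) (by norm_num)) (hb.ctr (k := 5) (by norm_num))
  have c2 := chi_rng (hb.ctr (k := 4) (by norm_num)) (hb.ctr (k := 6) (by norm_num))
  have f1 : ∀ o, fl r o ≤ 2 ^ 30 := fun o => (fl_lt r o).le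
  have f2 : ∀ o, wd r o ≤ 2 ^ 61 := fun o => (wd_lt r o).le.trans (by norm_num)
  obtain ⟨D, d1, d2⟩ := bound_gen (Mr := 2 ^ 30) (Mw := 2 ^ 61)
    (m := fun k => [mz P 8, mz P 9, (mz P 4 - cb b 192) * (mz P 6 - cb b 320) + ww b 192 320, mz P 11,
      (mz P 5 - cb b 256) * (mz P 7 - cb b 384) + ww b 256 384, mz P 13, mz P 14, mz P 15, mz P 16, mz P 17,
      mz P 18, mz P 19].getD k 0)
    (r := fun k => [fl r 0, fl r 64, 0, fl r 128, 0, fl r 192, fl r 256, fl r 320, fl r 384, fl r 448,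
      fl r 512, fl r 576].getD k 0)
    (w := fun k => [wd r 0, wd r 64, 2 * ww b 192 320, wd r 128, 2 * ww b 256 384, wd r 192, wd r 256,
      wd r 320, wd r 384, wd r 448, wd r 512, wd r 576].getD k 0) (by norm_num) (by norm_num) hL
    (fun k hk => by
      interval_cases k <;> first | exact f1 _ | exact Nat.zero_le _)
    (fun k hk => by
      interval_cases k <;> first | exact f2 _ | exact ww_le _ _ _)
    (fun k hk => by
      interval_cases k
      exacts [hr.wid (k := 0) (by norm_num), hr.wid (k := 1) (by norm_num), by simpa using c1,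
        hr.wid (k := 2) (by norm_num), by simpa using c2, hr.wid (k := 3) (by norm_num),
        hr.wid (k := 4) (by norm_num), hr.wid (k := 5) (by norm_num), hr.wid (k := 6) (by norm_num),
        hr.wid (k := 7) (by norm_num), hr.wid (k := 8) (by norm_num), hr.wid (k := 9) (by norm_num)])
    (by decide +kernel)
  have e1 : rs 12 (fun k => [fl r 0, fl r 64, 0, fl r 128, 0, fl r 192, fl r 256, fl r 320, fl r 384, fl r 448,
      fl r 512, fl r 576].getD k 0) = rll r := by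
    rw [rll_eq, shl_tt _ (k := 11) rfl, shl_tt _ (k := 10) rfl, shl_tt _ (k := 8) rfl, shl_tt _ (k := 6) rfl,
      shl_tt _ (k := 5) rfl, shl_tt _ (k := 4) rfl, shl_tt _ (k := 3) rfl,
      shl_tt _ (k := 2) rfl, shl_tt _ (k := 1) rfl]
    simp [rs, sum_range_succ]
  have e2 : rs 12 (fun k => [wd r 0, wd r 64, 2 * ww b 192 320, wd r 128, 2 * ww b 256 384, wd r 192, wd r 256,
      wd r 320, wd r 384, wd r 448, wd r 512, wd r 576].getD k 0) = rwl b r := by
    rw [rwl_eq, shl_tt _ (k := 11) rfl, shl_tt _ (k := 10) rfl, shl_tt _ (k := 9) rfl, shl_tt _ (k := 8) rfl,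
      shl_tt _ (k := 7) rfl, shl_tt _ (k := 6) rfl,
      shl_tt _ (k := 5) rfl, shl_tt _ (k := 4) rfl, shl_tt _ (k := 3) rfl,
      shl_tt _ (k := 2) rfl, shl_tt _ (k := 1) rfl]
    simp [rs, sum_range_succ]
  rw [e1, e2, ← show ON12 = ns 12 (fun _ => 1) by decide +kernel,
    ← show B1M = 2 ^ 124 - 1 by decide +kernel] at d1
  rw [dg_di _ (k := 11) rfl, dg_di _ (k := 2) rfl, dg_di _ (k := 4) rfl,
    show M8 = 2 ^ (224 * 8) - 1 by decide +kernel, Nat.and_two_pow_sub_one_eq_mod, ← tt_pow]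
  generalize L * rll r + (L &&& (L >>> 124 &&& ON12) * B1M) * rwl b r = Y at d1 ⊢
  have d3 : D ≤ di Y 11 := by
    rw [di, ← Nat.mod_mul_right_div_self, ← pow_succ]
    exact (Nat.le_div_iff_mul_le (pow_pos tt_pos _)).2 d1
  have d4 : (D : ℝ) ≤ di Y 11 := by exact_mod_cast d3
  have g2 : (di L 2 : ℝ) = v 10 + 2 ^ 124 := by exact_mod_cast (hL 2 (by norm_num)).1
  have g4 : (di L 4 : ℝ) = v 12 + 2 ^ 124 := by exact_mod_cast (hL 4 (by norm_num)).1
  have u0 : Ub (mz P) 8 (F % tt ^ 8 + (KB0 - BI2)) (val (mz P) 8 v) := by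
    refine ⟨v, ⟨2 ^ 124, ?_, fun k hk => by exact_mod_cast (hv k (by omega)).2.le⟩, le_rfl⟩
    have : ((KB0 - BI2 + 2 ^ 124 * on 8 : ℕ) : ℤ) = ((2 ^ 124 * tt ^ 8 : ℕ) : ℤ) := by
      rw [show KB0 - BI2 + 2 ^ 124 * on 8 = 2 ^ 124 * tt ^ 8 by decide +kernel]
    rw [Nat.cast_add, hv.mod (by norm_num)]
    generalize KB0 - BI2 = x at *
    push_cast at this ⊢
    linarith
  have u1 := ((((ub_N4 (P := P)).mul (cb b 320)).add (ub_N6.mul (cb b 192))).add (ub_N5.mul (cb b 384))).add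
    (ub_N7.mul (cb b 256))
  have u2 := (u1.add (ub_UP0.mul (cw b 192 320 + cw b 256 384))).shl 124
  rw [← nv_eq] at u2
  have u3 := ((((u0.add (ub_UP0.mul (di Y 11))).add ((cv_ub (b := b) (o := 192) (p := 320) ub_U4 ub_U6).mul
    (di L 2))).add ((cv_ub (b := b) (o := 256) (p := 384) ub_U5 ub_U7).mul (di L 4))).add u2).add
    (ub_UN0.mul ((fl r 0 + fl r 64 + fl r 128 + fl r 192 + fl r 256 + fl r 320 + fl r 384 + fl r 448 +
      fl r 512 + fl r 576) <<< 124))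
  refine ⟨_, ?_, u3.mono ?_⟩
  · have : BI2 ≤ KB0 := by decide +kernel
    rw [kb_eq]
    omega
  · rw [g2, g4, Nat.shiftLeft_eq, cw_eq, cw_eq]
    have m10 : mz P 10 = mz P 4 * mz P 6 := rfl
    have m12 : mz P 12 = mz P 5 * mz P 7 := rfl
    simp only [val, sum_range_succ, sum_range_zero, List.getD_cons_succ, List.getD_cons_zero, Nat.reduceAdd,
      m10, m12] at d2 ⊢
    push_cast at d2 ⊢
    linarith

theorem nps_sound {x : ℕ} {y : ℝ} (hb : InB P b) (hr : InR P r) (hx : Ub (mz P) 20 x y)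
    (h : nps b r x = 0) : y < 0 := by
  rw [nps_eq, Nat.add_eq_zero_iff] at h
  obtain ⟨v, hv, -, h1⟩ := hx.bia (b := 124) (c := 122) (by norm_num) (by norm_num)
    (shr_tt h.1 (by norm_num))
  rw [← show BI20 = 2 ^ 124 * on 20 by decide +kernel] at hv
  exact h1.trans_lt (bnd_sound hb (fold_sound hb hr hv) h.2)

/-- the checks of a leaf -/
theorem ck_sound {m : ℕ → ℝ} {D a mk I : ℕ} {y : ℝ} (hb : InB P b) (hr : InR P r) (hD : Ub m 49 D y)
    (ha : Ub (mz P) 20 a 0) (hm : mk = msk 49 I (tt - 1)) (h : ck (D + BIN) a mk = 0) :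
    ∃ v c, Bia 49 124 (D + BIN) v ∧ y ≤ val m 49 v ∧ (∀ k < 49, I.testBit k = true → v k = 0) ∧
      val (mz P) 20 v ≤ c ∧ Ub2 P (d8 b r (D + BIN) a) c := by
  rw [ck_eq, Nat.add_eq_zero_iff, Nat.add_eq_zero_iff] at h
  obtain ⟨⟨h1, h2⟩, h3⟩ := h
  have e : BIN = 2 ^ 124 * on 49 := by decide +kernel
  have h4 := shr_tt (c := 122) (n := 49) h1 (by norm_num)
  obtain ⟨v, hv, h5, h6⟩ := hD.bia (b := 124) (c := 122) (by norm_num) (by norm_num) (by omega)
  obtain ⟨u, hu, h7⟩ := Bia.addUb (c := 122) hv (by norm_num) (by norm_num) h5 ha (shr_tt h2 (by norm_num))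
  rw [hm, e] at h3
  refine ⟨v, val (mz P) 20 u, by rwa [e], h6, fun k hk hI => hv.zero (by norm_num) h3 hk hI, by linarith, ?_⟩
  rw [d8_eq, show MM20 = 2 ^ (224 * 20) - 1 by decide +kernel, Nat.and_two_pow_sub_one_eq_mod, ← tt_pow, e]
  exact fold_sound hb hr hu

end Pool.Agent.Lib.MP_9d820d_co.Fast
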