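import Pool.Agent.Lib.MP_9d820d_co.FSem

set_option autoImplicit false
set_option exponentiation.threshold 20000

namespace Pool.Agent.Lib.MP_9d820d_co.Fast

noncomputable section

theorem push_zero {W e : ℕ} (l : ℕ) (he : e < 2 ^ W) : ((l <<< W + e) >>> (0 * W)) &&& (2 ^ W - 1) = e := by
  rw [zero_mul, Nat.shiftRight_zero, Nat.and_two_pow_sub_one_eq_mod, Nat.shiftLeft_eq, Nat.mul_add_mod_of_lt he]

theorem push_succ {W e : ℕ} (l i : ℕ) (he : e < 2 ^ W) : (l <<< W + e) >>> ((i + 1) * W) = l >>> (i * W) := by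
  rw [show (i + 1) * W = W + i * W by ring, Nat.shiftRight_add]
  congr 1
  rw [Nat.shiftRight_eq_div_pow, Nat.shiftLeft_eq, add_comm, Nat.add_mul_div_right _ _ (by positivity),
    Nat.div_eq_of_lt he, zero_add]

theorem MLE_eq : MLE = 2 ^ 1280 - 1 := by decide +kernel
theorem MF_eq : MF = 2 ^ 4704 - 1 := by decide +kernel

theorem LsOK.push {l e : ℕ} {z : ℝ × ℝ} (h : LsOK l z) (g : LOK e z) (he : e < 2 ^ 1280) :
    LsOK (l <<< 1280 + e) z := fun i => by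
  rcases i with _ | i
  · rwa [lent_eq, MLE_eq, push_zero l he]
  · rw [lent_eq, push_succ l i he]
    exact h i

theorem LsOK.zero (z : ℝ × ℝ) : LsOK 0 z := fun i => .inl (by simp [lent_eq])

theorem FaOK.push {P : Prm} {l e : ℕ} (h : FaOK P l) (g : Ub (mz P) 20 e 0) (he : e < 2 ^ 4704) :
    FaOK P (push l e) := fun i => by
  rw [push_eq]
  rcases i with _ | i
  · rwa [ent_eq, MF_eq, push_zero l he]
  · rw [ent_eq, push_succ l i he]
    exact h i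

theorem FaOK.zero (P : Prm) : FaOK P 0 := fun i => by simpa [ent_eq] using Ub.zero

theorem lev_lt3 (nx ny ca : ℤ) (z : ℝ × ℝ) : lev (lt3 nx ny ca) z =
    nx * sx z + ny * sy z + ((ca - max (-nx) 0 - max (-ny) 0 : ℤ) : ℝ) := by
  simp only [lev, lt3, sx, sy]
  ring

theorem en_bd {nx ny ca : ℤ} (h1 : |nx| ≤ 4096) (h2 : |ny| ≤ 4096) (h3 : |ca| ≤ 2 ^ 42) :
    0 ≤ enU nx ny ca ∧ enU nx ny ca < 2 ^ 577 ∧ 0 ≤ enW nx ny ca ∧ enW nx ny ca < 2 ^ 577 := by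
  rw [abs_le] at h1 h2 h3
  unfold enU enW
  omega

theorem LD.lt {e : ℕ} {nx ny ca : ℤ} (h : LD e nx ny ca) : e < 2 ^ 1280 := by
  obtain ⟨h1, h2, h3, m, h4, h5⟩ := h
  have := en_bd h1 h2 h3
  omega

theorem LD.parts {e : ℕ} {nx ny ca : ℤ} (h : LD e nx ny ca) :
    ((e &&& ML : ℕ) : ℤ) = enU nx ny ca ∧ (((e >>> 640) &&& ML : ℕ) : ℤ) = enW nx ny ca := by
  obtain ⟨h1, h2, h3, m, h4, h5⟩ := h
  have := en_bd h1 h2 h3
  rw [show ML = 2 ^ 577 - 1 by decide +kernel, Nat.and_two_pow_sub_one_eq_mod, Nat.and_two_pow_sub_one_eq_mod,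
    Nat.shiftRight_eq_div_pow]
  omega

theorem cut_sp {x y c : ℕ} (hx : x < 2 ^ 13) (hy : y < 2 ^ 13) (hc : c < 2 ^ 28) : ∃ F : ℝ × ℝ → ℝ,
    (∀ z, 0 ≤ F z → LOK (mkp x y (mk0 x y c)) z) ∧ (∀ z, F z ≤ 0 → LOK (mkn x y (mk0 x y c)) z) ∧
    mkp x y (mk0 x y c) < 2 ^ 1280 ∧ mkn x y (mk0 x y c) < 2 ^ 1280 := by
  obtain ⟨nx, ex⟩ : ∃ nx : ℤ, (x : ℤ) = nx + 4096 := ⟨x - 4096, by ring⟩
  obtain ⟨ny, ey⟩ : ∃ ny : ℤ, (y : ℤ) = ny + 4096 := ⟨y - 4096, by ring⟩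
  obtain ⟨k, ek⟩ : ∃ k : ℤ, k = 8192 * (c - 2 ^ 27) - 67108848 * (nx + ny) := ⟨_, rfl⟩
  have e0 : (mk0 x y c : ℤ) = enU nx ny k + enW nx ny k * 2 ^ 640 + (x + y + c + 1) * 2 ^ 1232 := by
    rw [mk0_eq]
    push_cast
    rw [show (EA : ℤ) = enU 1 0 (-67108848) + enW 1 0 (-67108848) * 2 ^ 640 + 2 ^ 1232 - (2 ^ 576 + 2 ^ 1216) by
        decide +kernel,
      show (EB : ℤ) = enU 0 1 (-67108848) + enW 0 1 (-67108848) * 2 ^ 640 + 2 ^ 1232 - (2 ^ 576 + 2 ^ 1216) by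
        decide +kernel,
      show (EC : ℤ) = enU 0 0 8192 + enW 0 0 8192 * 2 ^ 640 + 2 ^ 1232 - (2 ^ 576 + 2 ^ 1216) by decide +kernel,
      show (E0 : ℤ) = enU (-4096) (-4096) (8192 * 67108848 - 2 ^ 40) +
        enW (-4096) (-4096) (8192 * 67108848 - 2 ^ 40) * 2 ^ 640 + 2 ^ 1232 by decide +kernel, ek, ex, ey]
    unfold enU enW
    ring
  have e1 : (E1 : ℤ) = enU 0 0 1 + enW 0 0 1 * 2 ^ 640 + 2 ^ 1232 - (2 ^ 576 + 2 ^ 1216) := by decide +kernel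
  have a : LD (mkp x y (mk0 x y c)) nx ny (k + ((4096 - x) + (4096 - y) : ℕ)) := by
    refine ⟨by rw [abs_le]; omega, by rw [abs_le]; omega, by rw [abs_le]; omega,
      x + y + c + 1 + ((4096 - x) + (4096 - y)), by omega, ?_⟩
    rw [mkp_eq]
    generalize (4096 - x) + (4096 - y) = d
    push_cast
    rw [e0, e1]
    unfold enU enW
    ring
  have b : LD (mkn x y (mk0 x y c)) (-nx) (-ny) (-k + ((x - 4096) + (y - 4096) : ℕ)) := by
    have e2 : (EN : ℤ) - mk0 x y c = enU (-nx) (-ny) (-k) + enW (-nx) (-ny) (-k) * 2 ^ 640 +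
        (2 ^ 30 - (x + y + c + 1)) * 2 ^ 1232 := by
      rw [show (EN : ℤ) = 2 * (2 ^ 576 + 2 ^ 1216) + 2 ^ 1262 by decide +kernel, e0]
      unfold enU enW
      ring
    have := en_bd (nx := -nx) (ny := -ny) (ca := -k) (by rw [abs_le]; omega) (by rw [abs_le]; omega)
      (by rw [abs_le]; omega)
    have le : mk0 x y c ≤ EN := by omega
    refine ⟨by rw [abs_le]; omega, by rw [abs_le]; omega, by rw [abs_le]; omega,
      2 ^ 30 - (x + y + c + 1) + ((x - 4096) + (y - 4096)), by omega, ?_⟩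
    rw [mkn_eq]
    generalize (x - 4096) + (y - 4096) = d
    rw [Nat.cast_add, Nat.cast_sub le, e2, Nat.cast_add, Nat.cast_sub (by omega)]
    push_cast
    rw [e1]
    unfold enU enW
    ring
  refine ⟨fun z => nx * sx z + ny * sy z + k, fun z h => .inr ⟨_, _, _, a, ?_⟩,
    fun z h => .inr ⟨_, _, _, b, ?_⟩, a.lt, b.lt⟩
  · rw [lev_lt3, show k + ((4096 - x) + (4096 - y) : ℕ) - max (-nx) 0 - max (-ny) 0 = k by omega]
    exact h
  · rw [lev_lt3, show -k + ((x - 4096) + (y - 4096) : ℕ) - max (- -nx) 0 - max (- -ny) 0 = -k by omega]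
    push_cast
    linarith

theorem RT0_ok {P : Prm} (hP : P.ok) {z : ℝ × ℝ} (hz : z ∈ P.X) : LsOK RT0 z := by
  obtain ⟨r1, r2, r3⟩ := hP.root z hz
  have a : LD (lent RT0 0) 2048 (-4096) 206158385152 :=
    ⟨by norm_num, by norm_num, by norm_num, 142616575, by norm_num, by decide +kernel⟩
  have b : LD (lent RT0 1) 2048 4096 (-343597301760) :=
    ⟨by norm_num, by norm_num, by norm_num, 142620671, by norm_num, by decide +kernel⟩
  have c : LD (lent RT0 2) (-4096) 0 412316766208 :=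
    ⟨by norm_num, by norm_num, by norm_num, 151003133, by norm_num, by decide +kernel⟩
  rw [show RT0 = ((0 <<< 1280 + lent RT0 2) <<< 1280 + lent RT0 1) <<< 1280 + lent RT0 0 by decide +kernel]
  refine (((LsOK.zero z).push (.inr ⟨_, _, _, c, ?_⟩) c.lt).push (.inr ⟨_, _, _, b, ?_⟩) b.lt).push
    (.inr ⟨_, _, _, a, ?_⟩) a.lt <;> rw [lev_lt3] <;> simp only [sx, sy, Sr] <;> norm_num <;> linarith

theorem fld_of {p M T : ℕ} (h : p &&& M = T) (o k : ℕ) (hM : (M >>> o) &&& (2 ^ k - 1) = 2 ^ k - 1) :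
    (p >>> o) % 2 ^ k = (T >>> o) % 2 ^ k := by
  rw [← h, ← Nat.and_two_pow_sub_one_eq_mod, ← Nat.and_two_pow_sub_one_eq_mod, Nat.shiftRight_and_distrib,
    Nat.and_assoc, hM]

theorem dig_of {p o : ℕ} {L D H : ℤ} (e : (p : ℤ) = L + (D + H * 2 ^ 64) * 2 ^ o) (h1 : 0 ≤ L) (h2 : L < 2 ^ o)
    (h3 : 0 ≤ D) (h4 : D < 2 ^ 64) : (((p >>> o) % 2 ^ 64 : ℕ) : ℤ) = D := by
  rw [Nat.shiftRight_eq_div_pow]
  push_cast
  rw [e, Int.add_mul_ediv_right _ _ (by positivity), Int.ediv_eq_zero_of_lt h1 h2, zero_add]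
  omega

theorem cor_int {ax ay bx by' ca cb d x y : ℤ} (hd : 0 < d) (e : d = ax * by' - ay * bx)
    (hx : x = (ay * cb - ca * by') / d) (hy : y = (ca * bx - ax * cb) / d) :
    ax * x + ay * y + (ca - max (-ax) 0 - max (-ay) 0) ≤ 0 ∧
      bx * x + by' * y + (cb - max (-bx) 0 - max (-by') 0) ≤ 0 := by
  obtain ⟨r1, a1, b1, c1⟩ : ∃ r, ay * cb - ca * by' = d * x + r ∧ 0 ≤ r ∧ r < d :=
    ⟨_, by rw [hx]; exact (Int.mul_ediv_add_emod _ _).symm, Int.emod_nonneg _ hd.ne',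
      Int.emod_lt_of_pos _ hd⟩
  obtain ⟨r2, a2, b2, c2⟩ : ∃ r, ca * bx - ax * cb = d * y + r ∧ 0 ≤ r ∧ r < d :=
    ⟨_, by rw [hy]; exact (Int.mul_ediv_add_emod _ _).symm, Int.emod_nonneg _ hd.ne',
      Int.emod_lt_of_pos _ hd⟩
  have key : ∀ u r : ℤ, 0 ≤ r → r < d → -(u * r) ≤ max (-u) 0 * d := fun u r h0 h1 => by
    have := le_max_left (-u) 0
    have := le_max_right (-u) 0
    nlinarith
  constructor
  · have k1 := key ax r1 b1 c1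
    have k2 := key ay r2 b2 c2
    have : d * (ax * x + ay * y + ca) = -(ax * r1) - ay * r2 := by
      linear_combination (-ax) * a1 - ay * a2 + ca * e
    exact le_of_mul_le_mul_left (by linarith) hd
  · have k1 := key bx r1 b1 c1
    have k2 := key by' r2 b2 c2
    have : d * (bx * x + by' * y + cb) = -(bx * r1) - by' * r2 := by
      linear_combination (-bx) * a1 - by' * a2 + cb * e
    exact le_of_mul_le_mul_left (by linarith) hd

theorem vt_ne {f : F4} {a b h e : ℕ} (hv : vt f (pr a b) h e = 0) : a ≠ 0 ∧ b ≠ 0 := by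
  rw [vt_eq, vt2_eq, Nat.add_eq_zero_iff, pr_eq] at hv
  have n : (PBI &&& PCK) ^^^ PTP ≠ 0 := by decide +kernel
  constructor <;> rintro rfl <;> exact n (by simpa using hv.1)

theorem vt_sp {f : F4} {a b h e : ℕ} {ax ay ca bx by' cb : ℤ} (ha : LD a ax ay ca) (hb : LD b bx by' cb)
    (hv : vt f (pr a b) h e = 0) : ∃ x y, x < 2 ^ 55 ∧ y < 2 ^ 55 ∧ f x y h e = 0 ∧
      Corner (lt3 ax ay ca) (lt3 bx by' cb) (vp x y) := by
  rw [vt_eq, vt2_eq, Nat.add_eq_zero_iff, Nat.xor_eq_zero_iff] at hv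
  obtain ⟨hv, hf⟩ := hv
  have e : (pr a b : ℤ) = (2 ^ 127 - ax * by' + (ax * cb - ay * by') * 2 ^ 64) +
      (2 ^ 63 + (ay * cb - ca * by')) * 2 ^ 128 + (2 ^ 127 + ca * cb - ax * bx * 2 ^ 64) * 2 ^ 192 +
      (2 ^ 63 - 1 + (ax * by' - ay * bx)) * 2 ^ 320 +
      (2 ^ 127 + (ax * bx + ay * by' - ca * bx) + (ay * bx + ca * by') * 2 ^ 64) * 2 ^ 384 +
      (2 ^ 63 + (ca * bx - ax * cb)) * 2 ^ 512 +
      (ax + ay * 2 ^ 64 + ca * 2 ^ 128 - ay * cb - ca * cb * 2 ^ 64 + enW bx by' cb) * 2 ^ 576 := by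
    rw [pr_eq, Nat.cast_add, Nat.cast_mul, ha.parts.1, hb.parts.2,
      show (PBI : ℤ) = 2 ^ 127 + 2 ^ 191 + 2 ^ 319 + (2 ^ 63 - 1) * 2 ^ 320 + 2 ^ 511 + 2 ^ 575 by decide +kernel]
    unfold enU enW
    ring
  have m : ∀ {x y u v : ℤ}, |x| ≤ u → |y| ≤ v → -(u * v) ≤ x * y ∧ x * y ≤ u * v := fun h1 h2 => by
    rw [← abs_le, abs_mul]
    exact mul_le_mul h1 h2 (abs_nonneg _) ((abs_nonneg _).trans h1)
  have m1 := m ha.1 hb.1
  have m2 := m ha.1 hb.2.1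
  have m3 := m ha.1 hb.2.2.1
  have m4 := m ha.2.1 hb.1
  have m5 := m ha.2.1 hb.2.1
  have m6 := m ha.2.1 hb.2.2.1
  have m7 := m ha.2.2.1 hb.1
  have m8 := m ha.2.2.1 hb.2.1
  have m9 := m ha.2.2.1 hb.2.2.1
  generalize pr a b = p at *
  generalize ax + ay * 2 ^ 64 + ca * 2 ^ 128 - ay * cb - ca * cb * 2 ^ 64 + enW bx by' cb = H at e
  have f1 := fld_of hv (128 + 55) 9 (by decide +kernel)
  have f2 := fld_of hv (320 + 26) 38 (by decide +kernel)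
  have f3 := fld_of hv (512 + 55) 9 (by decide +kernel)
  rw [show (PTP >>> (128 + 55)) % 2 ^ 9 = 2 ^ 8 by decide +kernel, Nat.shiftRight_add,
    Nat.shiftRight_eq_div_pow _ 55] at f1
  rw [show (PTP >>> (320 + 26)) % 2 ^ 38 = 2 ^ 37 by decide +kernel, Nat.shiftRight_add,
    Nat.shiftRight_eq_div_pow _ 26] at f2
  rw [show (PTP >>> (512 + 55)) % 2 ^ 9 = 2 ^ 8 by decide +kernel, Nat.shiftRight_add,
    Nat.shiftRight_eq_div_pow _ 55] at f3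
  obtain ⟨D0, e0⟩ : ∃ D, D = 2 ^ 127 - ax * by' + (ax * cb - ay * by') * 2 ^ 64 := ⟨_, rfl⟩
  obtain ⟨D2, e2⟩ : ∃ D, D = 2 ^ 63 + (ay * cb - ca * by') := ⟨_, rfl⟩
  obtain ⟨D3, e3⟩ : ∃ D, D = 2 ^ 127 + ca * cb - ax * bx * 2 ^ 64 := ⟨_, rfl⟩
  obtain ⟨D5, e5⟩ : ∃ D, D = 2 ^ 63 - 1 + (ax * by' - ay * bx) := ⟨_, rfl⟩
  obtain ⟨D6, e6⟩ : ∃ D, D = 2 ^ 127 + (ax * bx + ay * by' - ca * bx) + (ay * bx + ca * by') * 2 ^ 64 := ⟨_, rfl⟩
  obtain ⟨D8, e8⟩ : ∃ D, D = 2 ^ 63 + (ca * bx - ax * cb) := ⟨_, rfl⟩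
  rw [← e0, ← e2, ← e3, ← e5, ← e6, ← e8] at e
  have b0 : 0 ≤ D0 ∧ D0 < 2 ^ 128 := by omega
  have b2 : 0 ≤ D2 ∧ D2 < 2 ^ 64 := by omega
  have b3 : 0 ≤ D3 ∧ D3 < 2 ^ 128 := by omega
  have b5 : 0 ≤ D5 ∧ D5 < 2 ^ 64 := by omega
  have b6 : 0 ≤ D6 ∧ D6 < 2 ^ 128 := by omega
  have b8 : 0 ≤ D8 ∧ D8 < 2 ^ 64 := by omega
  have g1 := dig_of (p := p) (o := 128) (L := D0) (D := D2)
    (H := D3 + D5 * 2 ^ 128 + D6 * 2 ^ 192 + D8 * 2 ^ 320 + H * 2 ^ 384) (by rw [e]; ring) b0.1 b0.2 b2.1 b2.2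
  have g2 := dig_of (p := p) (o := 320) (L := D0 + D2 * 2 ^ 128 + D3 * 2 ^ 192) (D := D5)
    (H := D6 + D8 * 2 ^ 128 + H * 2 ^ 192) (by rw [e]; ring) (by omega) (by omega) b5.1 b5.2
  have g3 := dig_of (p := p) (o := 512) (L := D0 + D2 * 2 ^ 128 + D3 * 2 ^ 192 + D5 * 2 ^ 320 + D6 * 2 ^ 384)
    (D := D8) (H := H) (by rw [e]; ring) (by omega) (by omega) b8.1 b8.2
  clear e m1 m2 m3 m4 m5 m6 m7 m8 m9 b0 b3 b6 e0 e3 e6 hv
  have l1 := land_lt (p >>> 128) 55 (m := 36028797018963967) (by norm_num)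
  have l3 := land_lt (p >>> 512) 55 (m := 36028797018963967) (by norm_num)
  have k1 : (((p >>> 128) &&& 36028797018963967 : ℕ) : ℤ) = ay * cb - ca * by' := by
    rw [show 36028797018963967 = 2 ^ 55 - 1 by norm_num, Nat.and_two_pow_sub_one_eq_mod]; omega
  have k2 : ((((p >>> 320) &&& 67108863) + 1 : ℕ) : ℤ) = ax * by' - ay * bx := by
    rw [show 67108863 = 2 ^ 26 - 1 by norm_num, Nat.and_two_pow_sub_one_eq_mod]; omega
  have k3 : (((p >>> 512) &&& 36028797018963967 : ℕ) : ℤ) = ca * bx - ax * cb := by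
    rw [show 36028797018963967 = 2 ^ 55 - 1 by norm_num, Nat.and_two_pow_sub_one_eq_mod]; omega
  refine ⟨_, _, lt_of_le_of_lt (Nat.div_le_self _ _) l1, lt_of_le_of_lt (Nat.div_le_self _ _) l3, hf, ?_⟩
  have d0 : 0 < ax * by' - ay * bx := by omega
  generalize ((p >>> 320) &&& 67108863) + 1 = d at *
  generalize (p >>> 128) &&& 36028797018963967 = u at *
  generalize (p >>> 512) &&& 36028797018963967 = v at *
  obtain ⟨c1, c2⟩ := cor_int (x := (u / d : ℕ)) (y := (v / d : ℕ)) d0 rfl (by rw [← k1, ← k2]; rfl)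
    (by rw [← k3, ← k2]; rfl)
  generalize u / d = x at *
  generalize v / d = y at *
  generalize hA : ca - max (-ax) 0 - max (-ay) 0 = A at c1
  generalize hB : cb - max (-bx) 0 - max (-by') 0 = B at c2
  refine ⟨?_, ?_, ?_⟩
  · have : (0 : ℝ) < ax * by' - ay * bx := by exact_mod_cast d0
    have := mul_pos this (pow_pos Sr_pos 2)
    simp only [lt3]
    linarith
  · rw [lev_lt3, sx_vp, sy_vp, hA]
    exact_mod_cast c1
  · rw [lev_lt3, sx_vp, sy_vp, hB]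
    exact_mod_cast c2

theorem poly_sound {f : F4} {l n hw w h e : ℕ} {z : ℝ × ℝ} (hl : LsOK l z) {K : Set (ℝ × ℝ)} (hK : Convex ℝ K)
    (hf : ∀ x y h e, x < 2 ^ 55 → y < 2 ^ 55 → f x y h e = 0 → vp x y ∈ K)
    (hp : poly f l n hw w h e = 0) : z ∈ K := by
  rw [poly_eq, poly2_eq] at hp
  have h0 := hl (w &&& 63)
  generalize lent l (w &&& 63) = a0 at *
  generalize w >>> 6 = w at *
  have key : ∀ (n a w h e : ℕ), (Nat.rec (motive := fun _ => F4) (fun a w h e => vt f (pr a a0) h e)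
      (fun _ ih => fun a w h e => pst f l hw ih a (lent l (w &&& 63)) w h e) n) a w h e = 0 →
      a ≠ 0 ∧ ∀ x y c u v k, LD a0 x y c → LD a u v k → ∃ ls vs, PChain (lt3 x y c) (lt3 u v k) ls vs ∧
        (∀ g ∈ ls, 0 ≤ lev g z) ∧ ∀ v ∈ vs, v ∈ K := fun n => by
    induction n with
    | zero =>
      refine fun a w h e hv => ⟨(vt_ne hv).1, fun x y c u v k h1 h2 => ?_⟩
      obtain ⟨x', y', a1, a2, a3, a4⟩ := vt_sp h2 h1 hv
      exact ⟨[], [_], .last _ _ a4, by simp, by simpa using hf _ _ _ _ a1 a2 a3⟩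
    | succ n ih =>
      intro a w h e hv
      replace hv : pst f l hw _ a (lent l (w &&& 63)) w h e = 0 := hv
      rw [pst_eq, Nat.add_eq_zero_iff] at hv
      refine ⟨(vt_ne hv.1).1, fun x y c u v k h1 h2 => ?_⟩
      obtain ⟨u', v', k', h3, h4⟩ := (hl (w &&& 63)).resolve_left (vt_ne hv.1).2
      obtain ⟨x', y', a1, a2, a3, a4⟩ := vt_sp h2 h3 hv.1
      obtain ⟨ls, vs, b1, b2, b3⟩ := (ih _ _ _ _ hv.2).2 _ _ _ _ _ _ h1 h3
      exact ⟨_ :: ls, _ :: vs, .cons _ _ _ _ _ a4 b1, List.forall_mem_cons.2 ⟨h4, b2⟩,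
        List.forall_mem_cons.2 ⟨hf _ _ _ _ a1 a2 a3, b3⟩⟩
  obtain ⟨k1, k2⟩ := key _ _ _ _ _ hp
  obtain ⟨x, y, c, h1, h2⟩ := h0.resolve_left k1
  obtain ⟨ls, vs, b1, b2, b3⟩ := k2 _ _ _ _ _ _ h1 h1
  exact poly_mem b1 (List.forall_mem_cons.2 ⟨h2, b2⟩) K hK b3

end

end Pool.Agent.Lib.MP_9d820d_co.Fast
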