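import Pool.Agent.Lib.MP_9d820d_co.FStat
import Pool.Agent.Lib.MP_9d820d_co.FPoly

set_option autoImplicit false
set_option exponentiation.threshold 20000

namespace Pool.Agent.Lib.MP_9d820d_co.Fast

open Finset

noncomputable section

def aX (P : Prm) (v : ℕ → ℤ) (j : ℕ) : ℝ := v j + v (j + 4) * mz P 4 + v (j + 5) * mz P 5
def aY (P : Prm) (v : ℕ → ℤ) (j : ℕ) : ℝ := v j + v (j + 6) * mz P 6 + v (j + 7) * mz P 7

variable {P : Prm} {p q : ℝ × ℝ} {b r : ℕ}

theorem winX {d o j : ℕ} {v : ℕ → ℤ} (h : Bia 49 124 d v) (ho : o = 224 * j) (hj : j + 8 ≤ 49) :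
    Ub (mz P) 8 (win d o MKX CX) (aX P v j) := by
  rw [win_eq, ho, show MKX = msk 8 49 (tt - 1) by decide +kernel]
  refine (h.win hj (by decide +kernel)).mono (le_of_eq ?_)
  simp [val, sum_range_succ, aX, Nat.testBit, show mz P 0 = 1 from rfl]

theorem winY {d o j : ℕ} {v : ℕ → ℤ} (h : Bia 49 124 d v) (ho : o = 224 * j) (hj : j + 8 ≤ 49) :
    Ub (mz P) 8 (win d o MKY CY) (aY P v j) := by
  rw [win_eq, ho, show MKY = msk 8 193 (tt - 1) by decide +kernel]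
  refine (h.win hj (by decide +kernel)).mono (le_of_eq ?_)
  simp [val, sum_range_succ, aY, Nat.testBit, show mz P 0 = 1 from rfl]

theorem winE {d o j : ℕ} {v : ℕ → ℤ} (h : Bia 49 124 d v) (ho : o = 224 * j) (hj : j < 49) :
    Ub (mz P) 8 (dg d o + CE) (v j) := by
  refine ⟨fun k => if k = 0 then v j else 0, ⟨2 ^ 124, ?_, fun k _ => ?_⟩, ?_⟩
  · rw [dg_di d ho, Nat.cast_add, (h j hj).1, pk_single (by norm_num),
      show (CE : ℤ) = 2 ^ 124 * (tt : ℤ) ^ 8 - 2 ^ 124 by decide +kernel]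
    push_cast
    ring
  · dsimp only
    split_ifs
    · exact_mod_cast (h j hj).2.le
    · simp
  · rw [val_single (by norm_num)]
    simp [mz]

theorem val_dec {v : ℕ → ℤ} (h : ∀ k, 35 ≤ k → k ≤ 45 → v k = 0) : val (mo P p q) 49 v =
    val (mz P) 20 v + (sy p * aX P v 20 + sx p * aY P v 22) + (sy q * aX P v 26 + sx q * aY P v 27) +
      sy q * (sx p * v 48) + sx q * (sy p * v 47) := by
  rw [← val_mo (p := p) (q := q), show 49 = 20 + 29 from rfl, val, sum_range_add, ← val]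
  simp [sum_range_succ, mo, mh, aX, aY, h]
  ring

theorem cx_aff (c α β : ℝ) : ConvexOn ℝ Set.univ (fun z => c + (sy z * α + sx z * β)) := by
  refine ⟨convex_univ, fun x _ y _ s t _ _ e => le_of_eq ?_⟩
  obtain rfl : t = 1 - s := by linarith
  simp only [sx, sy, Prod.fst_add, Prod.snd_add, Prod.smul_fst, Prod.smul_snd, smul_eq_mul]
  ring

theorem aa_ub {mx my x y : ℕ} {α β γ : ℝ} {el : EL} {h : ℕ} (h1 : Ub (mz P) 8 mx α) (h2 : Ub (mz P) 8 my β)
    (h3 : Ub (mz P) 8 (el.run x y (y <<< 224) h) γ) :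
    Ub (mz P) 8 (aa mx my el x y h) (sy (vp x y) * α + sx (vp x y) * β + γ) := by
  rw [aa_eq, sx_vp, sy_vp]
  exact ((h1.mul y).add (h2.mul x)).add h3

theorem l1b_sound (hb : InB P b) (hr : InR P r) {m : ℕ → ℝ} {z : ℝ × ℝ} {l ox oy mk I jx jy n hw wi wh D a : ℕ}
    {el : EL} (hl : LsOK l z) (ex : ox = 224 * jx) (ey : oy = 224 * jy) (hx : jx + 8 ≤ 49) (hy : jy + 8 ≤ 49)
    (hm : mk = msk 49 I (tt - 1)) (hd : ∀ v : ℕ → ℤ, (∀ k < 49, I.testBit k = true → v k = 0) →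
      val m 49 v = val (mz P) 20 v + (sy z * aX P v jx + sx z * aY P v jy))
    (he : ELok P m z el) (hD : Ub m 49 D 0) (ha : Ub (mz P) 20 a 0)
    (h : l1b b r l ox oy mk n hw wi wh el (D + BIN) a = 0) : False := by
  obtain ⟨φ, c, u, he⟩ := he
  rw [l1b_eq, l1c_eq, Nat.add_eq_zero_iff, add_right_comm] at h
  obtain ⟨v, k, v1, v2, v3, v4, v5⟩ := ck_sound hb hr (hD.add u) ha hm h.1
  have := poly_sound hl (cx_lt ((cx_aff k (aX P v jx) (aY P v jy)).add c)) (fun x y g e h1 h2 h3 => by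
    rw [f1_eq] at h3
    have := bnd_sound hb (v5.add (aa_ub (winX v1 ex hx) (winY v1 ey hy) (he x y g h1 h2))) h3
    simp only [Set.mem_ofPred_eq, Pi.add_apply]
    linarith) h.2
  simp only [Set.mem_ofPred_eq, Pi.add_apply] at this
  rw [hd v v3] at v2
  linarith

variable {fa g rt l5 l6 i5 i6 : ℕ}

theorem lf1_sound5 (hP : P.ok) (I : FInv P p q b r fa g rt l5 l6 i5 i6) {w : ℕ}
    (h : lf1 b r fa g l5 i5 4480 4928 7840 MK5 w = 0) : False := by
  unfold lf1 at h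
  rw [l1p_eq, l1a_eq] at h
  refine l1b_sound I.bx I.rg (m := mo P p q) (I := 492576041861120) (jx := 20) (jy := 22) I.l5 rfl rfl
    (by norm_num) (by norm_num) (by decide +kernel) (fun v hv => ?_)
    (mkel_ok hP I.bx _ _ _ (k := 35) rfl (by norm_num) fun i hi => by interval_cases i <;> rfl)
    (((I.i5 q).nn _).add0 (sls_ub hP I.hp I.hq I.g _ _ _ _ _)) (fs_ub I.fa _ _ _ _ _ _) h
  rw [val_dec fun k h1 h2 => hv k (by omega) (by interval_cases k <;> rfl)]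
  simp [aX, aY, hv 26 (by norm_num) rfl, hv 27 (by norm_num) rfl, hv 30 (by norm_num) rfl,
    hv 31 (by norm_num) rfl, hv 33 (by norm_num) rfl, hv 34 (by norm_num) rfl, hv 47 (by norm_num) rfl,
    hv 48 (by norm_num) rfl]

theorem lf1_sound6 (hP : P.ok) (I : FInv P p q b r fa g rt l5 l6 i5 i6) {w : ℕ}
    (h : lf1 b r fa g l6 i6 5824 6048 8960 MK6 w = 0) : False := by
  unfold lf1 at h
  rw [l1p_eq, l1a_eq] at h
  refine l1b_sound I.bx I.rg (m := mo P p q) (I := 492547710386176) (jx := 26) (jy := 27) I.l6 rfl rfl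
    (by norm_num) (by norm_num) (by decide +kernel) (fun v hv => ?_)
    (mkel_ok hP I.bx _ _ _ (k := 40) rfl (by norm_num) fun i hi => by interval_cases i <;> rfl)
    ((I.i6.nn _).add0 (sls_ub hP I.hp I.hq I.g _ _ _ _ _)) (fs_ub I.fa _ _ _ _ _ _) h
  rw [val_dec fun k h1 h2 => hv k (by omega) (by interval_cases k <;> rfl)]
  simp [aX, aY, hv 20 (by norm_num) rfl, hv 22 (by norm_num) rfl, hv 24 (by norm_num) rfl,
    hv 25 (by norm_num) rfl, hv 28 (by norm_num) rfl, hv 29 (by norm_num) rfl, hv 47 (by norm_num) rfl,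
    hv 48 (by norm_num) rfl]

theorem lf0_sound (hP : P.ok) (I : FInv P p q b r fa g rt l5 l6 i5 i6) {w : ℕ}
    (h : lf0 b r fa g w = 0) : False := by
  unfold lf0 at h
  rw [l0p_eq, l0a_eq, Nat.add_eq_zero_iff] at h
  obtain ⟨v, k, -, v2, hv, v4, v5⟩ := ck_sound I.bx I.rg (I := 492576902742016)
    (sls_ub hP I.hp I.hq I.g _ _ _ _ _) (fs_ub I.fa _ _ _ _ _ _) (by decide +kernel) h.1
  have := bnd_sound I.bx v5 h.2
  rw [val_dec fun k h1 h2 => hv k (by omega) (by interval_cases k <;> rfl)] at v2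
  simp [aX, aY, hv 20 (by norm_num) rfl, hv 22 (by norm_num) rfl, hv 24 (by norm_num) rfl,
    hv 25 (by norm_num) rfl, hv 28 (by norm_num) rfl, hv 29 (by norm_num) rfl, hv 47 (by norm_num) rfl,
    hv 48 (by norm_num) rfl, hv 26 (by norm_num) rfl, hv 27 (by norm_num) rfl, hv 30 (by norm_num) rfl,
    hv 31 (by norm_num) rfl, hv 33 (by norm_num) rfl, hv 34 (by norm_num) rfl] at v2
  linarith

theorem inner_sound (hb : InB P b) {v xe ye mx my l n hw wi wh e : ℕ} {el : EL} {c α β γ δ : ℝ}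
    {φ χ : ℝ × ℝ → ℝ} {f : F4} (hl : LsOK l q) (hv : Ub2 P v c) (h1 : Ub (mz P) 8 xe γ) (h2 : Ub (mz P) 8 ye δ)
    (h3 : Ub (mz P) 8 mx α) (h4 : Ub (mz P) 8 my β) (c1 : ConvexOn ℝ Set.univ φ) (c2 : ConvexOn ℝ Set.univ χ)
    (he : ∀ x y h, x < 2 ^ 55 → y < 2 ^ 55 → Ub (mz P) 8 (el.run x y (y <<< 224) h) (φ (vp x y)))
    (hf : ∀ x y h e, x < 2 ^ 55 → y < 2 ^ 55 → f x y h e = 0 → ∃ t, Ub (mz P) 8 t (χ (vp x y)) ∧
      bnd b (v + aa mx my el x y h + y * xe + x * ye + t) = 0)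
    (h : poly f l n hw wi wh e = 0) : c + (sy q * (α + γ) + sx q * (β + δ)) + φ q + χ q < 0 :=
  poly_sound hl (cx_lt (((cx_aff c (α + γ) (β + δ)).add c1).add c2)) (fun x y g e a1 a2 a3 => by
    obtain ⟨t, t1, t2⟩ := hf x y g e a1 a2 a3
    have := bnd_sound hb ((((hv.add (aa_ub h3 h4 (he x y g a1 a2))).add (h1.mul y)).add (h2.mul x)).add t1) t2
    simp only [Set.mem_ofPred_eq, Pi.add_apply, sx_vp, sy_vp] at this ⊢
    linarith) h

theorem l2b_sound (hP : P.ok) (hb : InB P b) (hr : InR P r) {e5 e6 : EL}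
    {f μ n5 n6 h5 h6 hw j5 j6 s5 s6 D a : ℕ} (k5 : LsOK l5 p) (k6 : LsOK l6 q)
    (o5 : ELok P (mo P p q) p e5) (o6 : ELok P (mo P p q) q e6) (hD : Ub (mo P p q) 49 D 0)
    (ha : Ub (mz P) 20 a 0) (h : l2b b r e5 e6 (f * μ) l5 l6 n5 n6 f h5 h6 hw j5 j6 s5 s6 (D + BIN) a = 0) :
    False := by
  obtain ⟨φ, c5, u5, e5'⟩ := o5
  obtain ⟨ψ, c6, u6, e6'⟩ := o6
  rw [l2b_eq, l2c_eq, Nat.add_eq_zero_iff, add_right_comm _ BIN, add_right_comm _ BIN,
    add_right_comm _ BIN] at h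
  obtain ⟨v, k, v1, v2, hv, v4, v5⟩ := ck_sound hb hr (I := 70334384439296)
    (((hD.add u5).add u6).add (unv_ub (f * μ) (k := 45) rfl (by norm_num))) ha (by decide +kernel) h.1
  rw [val_dec fun k h1 h2 => hv k (by omega) (by interval_cases k <;> rfl),
    show mo P p q 45 = dl P q p from dl_swap _ _] at v2
  replace h := h.2
  rw [l2d_eq] at h
  have X5 := winX (P := P) v1 (o := 4480) (j := 20) rfl (by norm_num)
  have Y5 := winY (P := P) v1 (o := 4928) (j := 22) rfl (by norm_num)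
  have X6 := winX (P := P) v1 (o := 5824) (j := 26) rfl (by norm_num)
  have Y6 := winY (P := P) v1 (o := 6048) (j := 27) rfl (by norm_num)
  have E8 := winE (P := P) v1 (o := 10752) (j := 48) rfl (by norm_num)
  have E7 := winE (P := P) v1 (o := 10528) (j := 47) rfl (by norm_num)
  have cx := cx_lt (((cx_aff (k + (sy q * aX P v 26 + sx q * aY P v 27) + ψ q) (aX P v 20 + sx q * v 47)
    (aY P v 22 + sy q * v 48)).add c5).add (dl_cx hP q (f * μ)))
  rcases brz_eq h with ⟨-, h⟩ | ⟨hf, h⟩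
  · have := poly_sound k5 cx (fun x y g e hx hy hz => by
      rw [fp_eq, fp2_eq] at hz
      have := inner_sound hb k6 (v5.add (aa_ub X5 Y5 (e5' x y g hx hy))) (E8.mul x) (E7.mul y) X6 Y6 c6
        (dl_cx hP (vp x y) (f * μ)) e6' (fun x' y' g' e' a1 a2 a3 =>
          ⟨_, pdc_ub hP (f * μ) e' (sx_vp x y) (sy_vp x y) hx hy a1 a2, by rwa [gp_eq] at a3⟩) hz
      simp only [Set.mem_ofPred_eq, Pi.add_apply, sx_vp, sy_vp, dl_swap q] at this ⊢
      linarith) h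
    simp only [Set.mem_ofPred_eq, Pi.add_apply] at this
    linarith
  · have := poly_sound k5 cx (fun x y g e hx hy hz => by
      rw [fn_eq, fn2_eq] at hz
      have := inner_sound hb k6 (v5.add (aa_ub X5 Y5 (e5' x y g hx hy))) (E8.mul x) (E7.mul y) X6 Y6 c6
        (convexOn_const 0 convex_univ) e6' (fun x' y' g' e' a1 a2 a3 =>
          ⟨0, Ub.zero, by rwa [gn_eq, ← add_zero (_ + _)] at a3⟩) hz
      simp only [Set.mem_ofPred_eq, Pi.add_apply, sx_vp, sy_vp, hf, zero_mul, Nat.cast_zero] at this ⊢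
      linarith) h
    simp only [Set.mem_ofPred_eq, Pi.add_apply] at this
    linarith

theorem lf2_sound (hP : P.ok) (I : FInv P p q b r fa g rt l5 l6 i5 i6) {w : ℕ}
    (h : lf2 b r fa g l5 l6 i5 i6 w = 0) : False := by
  unfold lf2 at h
  rw [l2p_eq, l2a_eq] at h
  exact l2b_sound hP I.bx I.rg I.l5 I.l6
    (mkel_ok hP I.bx _ _ _ (k := 35) rfl (by norm_num) fun i hi => by interval_cases i <;> rfl)
    (mkel_ok hP I.bx _ _ _ (k := 40) rfl (by norm_num) fun i hi => by interval_cases i <;> rfl)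
    ((((I.i5 q).nn _).add0 (I.i6.nn _)).add0 (sls_ub hP I.hp I.hq I.g _ _ _ _ _)) (fs_ub I.fa _ _ _ _ _ _) h

end

end Pool.Agent.Lib.MP_9d820d_co.Fast
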