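import Pool.Agent.Lib.MP_9d820d_co.FNode

set_option autoImplicit false
set_option exponentiation.threshold 20000

namespace Pool.Agent.Lib.MP_9d820d_co.Fast

noncomputable section

variable {P : Prm}

theorem tree_sound (hP : P.ok) {loc : ℕ} (hl : ¬ InB P loc) {hs : ℕ → ℕ} (hh : ∀ i, FGood P (hs i)) :
    Sound P (tree loc hs) := by
  have s1 : ∀ k, Sound P k → Sound P (step loc hs k) := fun _ => step_sound hP hl hh
  have s2 : ∀ k, Sound P k → Sound P (t2 loc hs k) := fun _ h => s1 _ (s1 _ h)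
  have s4 : ∀ k, Sound P k → Sound P (t4 loc hs k) := fun _ h => s2 _ (s2 _ h)
  have s8 : ∀ k, Sound P k → Sound P (t8 loc hs k) := fun _ h => s4 _ (s4 _ h)
  have s16 : ∀ k, Sound P k → Sound P (t16 loc hs k) := fun _ h => s8 _ (s8 _ h)
  have s32 : ∀ k, Sound P k → Sound P (t32 loc hs k) := fun _ h => s16 _ (s16 _ h)
  have s64 : ∀ k, Sound P k → Sound P (t64 loc hs k) := fun _ h => s32 _ (s32 _ h)
  have s128 : ∀ k, Sound P k → Sound P (t128 loc hs k) := fun _ h => s64 _ (s64 _ h)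
  have s256 : ∀ k, Sound P k → Sound P (t256 loc hs k) := fun _ h => s128 _ (s128 _ h)
  exact s256 _ (s256 _ fun _ _ _ _ _ _ _ _ _ _ _ _ h => by cases h)

theorem good_zero (hP : P.ok) : FGood P 0 := fun p q I => by
  have := (I.bx 3 (by norm_num)).2
  have := hP.bx1.1
  simp [fl_eq, mz, sx, Prm.V, Prm.pt, Sr] at *
  linarith

theorem nth_good (hP : P.ok) {l : List ℕ} (h : ∀ x ∈ l, FGood P x) (i : ℕ) : FGood P (nth l i) := by
  induction l generalizing i with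
  | nil => exact good_zero hP
  | cons a l ih =>
    rcases i with _ | i
    · exact h a List.mem_cons_self
    · exact ih (fun x hx => h x (List.mem_cons_of_mem _ hx)) i

/-- a checked tree closes the context h -/
theorem frun_good (hP : P.ok) {loc : ℕ} (hl : ¬ InB P loc) {holes : List ℕ} {h t : ℕ}
    (hr : frun loc holes h t = true) (hh : ∀ x ∈ holes, FGood P x) : FGood P h := fun p q =>
  tree_sound hP hl (nth_good hP hh) t _ _ _ _ _ _ _ _ _ p q (Nat.eq_of_beq_eq_true hr)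

theorem f0 : ∀ x ∈ ([] : List ℕ), FGood P x := fun _ h => by cases h
theorem fc {a : ℕ} {l : List ℕ} (h : FGood P a) (t : ∀ x ∈ l, FGood P x) : ∀ x ∈ a :: l, FGood P x :=
  List.forall_mem_cons.2 ⟨h, t⟩

theorem len_le (hP : P.ok) {a b : ℝ × ℝ} (h1 : |a.1 - b.1| ≤ 2) (h2 : |a.2 - b.2| ≤ 2) :
    Sr * Lf P.al P.be P.ga (a - b) ≤ 503316360 := by
  have : Lf P.al P.be P.ga (a - b) ≤ 30 := by
    refine Real.sqrt_le_iff.2 ⟨by norm_num, ?_⟩
    have a1 := abs_mul_le (abs_le.2 ⟨by linarith [hP.bal.1], hP.bal.2⟩) (abs_mul_le h1 h1)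
    have a2 := abs_mul_le (abs_le.2 ⟨hP.bbe.1, by linarith [hP.bbe.2]⟩) (abs_mul_le h1 h2)
    have a3 := abs_mul_le (abs_le.2 ⟨by linarith [hP.bga.1], hP.bga.2⟩) (abs_mul_le h2 h2)
    rw [abs_le] at a1 a2 a3
    simp only [Qf, Prod.fst_sub, Prod.snd_sub]
    linarith [a1.2, a2.2, a3.2]
  rw [Sr]
  linarith

/-- a checked tree in the initial context refutes the configuration -/
theorem froot_false (hP : P.ok) {loc : ℕ} (hl : ¬ InB P loc) {holes : List ℕ} {t : ℕ}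
    (hr : froot loc holes t = true) (hh : ∀ x ∈ holes, FGood P x) : False := by
  obtain ⟨a0, b0⟩ := hP.bx1
  obtain ⟨a1, b1⟩ := hP.by1
  obtain ⟨a2, b2⟩ := hP.bx4
  obtain ⟨a3, b3⟩ := hP.by4
  obtain ⟨a4, b4⟩ := hP.bal
  obtain ⟨a5, b5⟩ := hP.bbe
  obtain ⟨a6, b6⟩ := hP.bga
  refine tree_sound hP hl (nth_good hP hh) t _ _ _ _ _ _ _ _ _ (0, 0) (0, 0) (Nat.eq_of_beq_eq_true hr)
    ⟨hP.m0, hP.m0, fun k hk => ?_, fun k hk => ?_, FaOK.zero P, fun i hi j hj l hl e => ?_,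
      fun _ => RT0_ok hP, LsOK.zero _, LsOK.zero _, fun _ => Ub.zero, Ub.zero⟩
  · obtain ⟨c1, c2⟩ := (by decide +kernel : ∀ k < 7,
      fl BX0 (64 * k) = [0, 0, 0, 50331636, 50331636, 67108848, 50331636].getD k 0 ∧ fl (BX0 >>> 32) (64 * k) =
        [134217696, 134217696, 134217696, 83886060, 83886060, 83886060, 67108848].getD k 0) k hk
    rw [c1, c2]
    interval_cases k <;> simp only [mz, sx, sy, Prm.V, Prm.pt, Sr, List.getD_cons_succ, List.getD_cons_zero,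
      Nat.reduceAdd] <;> push_cast <;> constructor <;> linarith
  · obtain ⟨c1, c2⟩ := (by decide +kernel : ∀ k < 10,
      fl LR0 (64 * k) = 0 ∧ fl (LR0 >>> 32) (64 * k) = 503316360) k hk
    rw [c1, c2]
    refine ⟨by simpa using lenJ_nn P k, ?_⟩
    push_cast
    interval_cases k <;> refine len_le hP ?_ ?_ <;> simp only [Prm.V, Prm.pt, abs_le] <;> constructor <;> linarith
  · rw [show GST = (2 ^ 512 - 1) <<< 512 by decide +kernel, Nat.testBit_shiftLeft,
      decide_eq_false (by omega)] at e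
    cases e

/-- the packed box loc lies in the box lo hi -/
def locOK (lo hi : V7 ℤ) (loc : ℕ) : Bool :=
  [(lo.a4, (fl loc 0 : ℤ)), (fl loc 32, hi.a4), (-hi.a5, fl loc 64), (fl loc 96, -lo.a5), (lo.a6, fl loc 128),
    (fl loc 160, hi.a6), (lo.a0 + 67108848, fl loc 192), (fl loc 224, hi.a0 + 67108848),
    (lo.a2 + 67108848, fl loc 256), (fl loc 288, hi.a2 + 67108848), (lo.a3 + 67108848, fl loc 320),
    (fl loc 352, hi.a3 + 67108848), (lo.a1 + 67108848, fl loc 384), (fl loc 416, hi.a1 + 67108848)].all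
    fun x : ℤ × ℤ => decide (x.1 ≤ x.2)

theorem notInB {lo hi : V7 ℤ} {loc : ℕ} (h : locOK lo hi loc = true)
    (hn : NotLoc (iops lo hi) (fun a : ℤ => (a : ℝ)) P) : ¬ InB P loc := fun hb => by
  simp only [locOK, List.all_cons, List.all_nil, Bool.and_true, Bool.and_eq_true, decide_eq_true_eq,
    ← Int.cast_le (R := ℝ)] at h
  push_cast at h
  have c0 := hb 0 (by norm_num)
  have c1 := hb 1 (by norm_num)
  have c2 := hb 2 (by norm_num)
  have c3 := hb 3 (by norm_num)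
  have c4 := hb 4 (by norm_num)
  have c5 := hb 5 (by norm_num)
  have c6 := hb 6 (by norm_num)
  simp only [fl_shr, mz, sx, sy, Prm.V, Prm.pt, Nat.reduceMul, Nat.reduceAdd] at c0 c1 c2 c3 c4 c5 c6
  obtain ⟨h0, h1, h2, h3, h4, h5, h6, h7, h8, h9, h10, h11, h12, h13⟩ := h
  refine hn rfl ?_
  simp only [InV, In1, iops, i0, Int.ofNat_eq_natCast, Nat.cast_zero, Int.cast_zero, zero_add, one_mul]
  refine ⟨⟨?_, ?_⟩, ⟨?_, ?_⟩, ⟨?_, ?_⟩, ⟨?_, ?_⟩, ⟨?_, ?_⟩, ⟨?_, ?_⟩, ?_, ?_⟩ <;>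
    linarith [c0.1, c0.2, c1.1, c1.2, c2.1, c2.2, c3.1, c3.2, c4.1, c4.2, c5.1, c5.2, c6.1, c6.2]

end

end Pool.Agent.Lib.MP_9d820d_co.Fast
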