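import Pool.Agent.Lib.MP_9d820d_co.FLeaf

set_option autoImplicit false
set_option exponentiation.threshold 20000

namespace Pool.Agent.Lib.MP_9d820d_co.Fast

open Finset

noncomputable section

theorem testBit_upd (a o x m i : ℕ) : (upd a o x (2 ^ m - 1)).testBit i =
    if o ≤ i ∧ i < o + m then x.testBit (i - o) else a.testBit i := by
  simp only [upd_eq, Nat.testBit_xor, Nat.testBit_shiftLeft, Nat.testBit_and, Nat.testBit_shiftRight,
    Nat.testBit_two_pow_sub_one]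
  split_ifs with h
  · rw [show o + (i - o) = i by omega]
    simp [h.1, show i - o < m by omega]
  · by_cases h1 : o ≤ i
    · simp [show ¬ i - o < m by omega]
    · simp [h1]

theorem testBit_fl (a o i : ℕ) : (fl a o).testBit i = (a.testBit (o + i) && decide (i < 30)) := by
  rw [fl_eq, show 1073741823 = 2 ^ 30 - 1 by norm_num, Nat.testBit_and, Nat.testBit_shiftRight,
    Nat.testBit_two_pow_sub_one]

theorem fl_shr (a j o : ℕ) : fl (a >>> j) o = fl a (j + o) := by rw [fl_eq, fl_eq, Nat.shiftRight_add]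

theorem fl_out {a o x m p : ℕ} (h : p + 30 ≤ o ∨ o + m ≤ p) : fl (upd a o x (2 ^ m - 1)) p = fl a p := by
  apply Nat.eq_of_testBit_eq
  intro i
  rw [testBit_fl, testBit_fl, testBit_upd]
  by_cases hi : i < 30
  · rw [if_neg (by omega)]
  · simp [hi]

theorem fl_in {a o x m p : ℕ} (j : ℕ) (h : p = o + j) (h2 : j + 30 ≤ m) :
    fl (upd a o x (2 ^ m - 1)) p = fl x j := by
  apply Nat.eq_of_testBit_eq
  intro i
  rw [testBit_fl, testBit_fl, testBit_upd]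
  by_cases hi : i < 30
  · rw [if_pos (by omega), show p + i - o = j + i by omega]
  · simp [hi]

theorem fl_fl (a o : ℕ) : fl (fl a o) 0 = fl a o := by
  apply Nat.eq_of_testBit_eq
  intro i
  simp [testBit_fl]

theorem InF.split {z : ℕ → ℝ} {n a : ℕ} (h : InF z n a) (j w : ℕ) :
    InF z n (upd a (j <<< 6 + 32) (fl w 8) 4294967295) ∨ InF z n (upd a (j <<< 6) (fl w 8) 4294967295) := by
  rw [show 4294967295 = 2 ^ 32 - 1 by norm_num, Nat.shiftLeft_eq]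
  rcases le_total (z j) (fl w 8) with c | c
  · refine .inl fun k hk => ?_
    have := h k hk
    rw [fl_shr] at this ⊢
    rw [fl_out (by omega)]
    by_cases e : k = j
    · rw [fl_in 0 (by omega) (by norm_num), fl_fl]
      exact ⟨this.1, e ▸ c⟩
    · rwa [fl_out (by omega)]
  · refine .inr fun k hk => ?_
    have := h k hk
    rw [fl_shr] at this ⊢
    rw [fl_out (p := 32 + 64 * k) (by omega)]
    by_cases e : k = j
    · rw [fl_in 0 (by omega) (by norm_num), fl_fl]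
      exact ⟨e ▸ c, this.2⟩
    · rwa [fl_out (by omega)]

theorem InF.set {z : ℕ → ℝ} {n a : ℕ} (h : InF z n a) {j w : ℕ} (h1 : (fl w 8 : ℝ) ≤ z j) (h2 : z j ≤ fl w 40) :
    InF z n (upd a (j <<< 6) (w >>> 8) 18446744073709551615) := by
  rw [show 18446744073709551615 = 2 ^ 64 - 1 by norm_num, Nat.shiftLeft_eq]
  intro k hk
  have := h k hk
  rw [fl_shr] at this ⊢
  by_cases e : k = j
  · rw [fl_in 0 (by omega) (by norm_num), fl_in 32 (by omega) (by norm_num), fl_shr, fl_shr, e]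
    exact ⟨h1, h2⟩
  · rwa [fl_out (by omega), fl_out (by omega)]

variable {P : Prm} {p q : ℝ × ℝ} {k : KT} {w b r fa g rt l5 l6 i5 i6 : ℕ}

theorem GOK.and4 (h : GOK P p q g) (p' q' : ℝ × ℝ) : GOK P p' q' (g &&& G4) := fun i hi j hj l hl e => by
  rw [Nat.testBit_and, Bool.and_eq_true] at e
  have a := (by decide +kernel : ∀ i < 8, ∀ j < 8, ∀ l < 8,
    G4.testBit (i + 8 * j + 64 * l) = true → max i (max j l) ≤ 4) i hi j hj l hl e.2
  have := h i hi j hj l hl e.1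
  rw [pt_V P _ _ (by omega : i ≤ 4), pt_V P _ _ (by omega : j ≤ 4), pt_V P _ _ (by omega : l ≤ 4)] at this ⊢
  exact this

theorem GOK.and5 (h : GOK P p q g) (q' : ℝ × ℝ) : GOK P p q' (g &&& G5) := fun i hi j hj l hl e => by
  rw [Nat.testBit_and, Bool.and_eq_true] at e
  have a := (by decide +kernel : ∀ i < 8, ∀ j < 8, ∀ l < 8,
    G5.testBit (i + 8 * j + 64 * l) = true → max i (max j l) ≤ 5) i hi j hj l hl e.2
  rw [pt_ne6 P p q' q (by omega : i ≠ 6), pt_ne6 P p q' q (by omega : j ≠ 6), pt_ne6 P p q' q (by omega : l ≠ 6)]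
  exact h i hi j hj l hl e.1

theorem GOK.or (h : GOK P p q g) {i j l : ℕ} (hi : i < 8) (hj : j < 8)
    (e : Lg P.al P.be P.ga (P.pt p q i) (P.pt p q j) (P.pt p q l)) :
    GOK P p q (g ||| 1 <<< (i + j <<< 3 + l <<< 6)) := fun i' a j' b l' c e' => by
  rw [Nat.testBit_or, Bool.or_eq_true, Nat.one_shiftLeft, Nat.testBit_two_pow, decide_eq_true_eq,
    Nat.shiftLeft_eq, Nat.shiftLeft_eq] at e'
  rcases e' with e' | e'
  · exact h _ a _ b _ c e'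
  · obtain ⟨rfl, rfl, rfl⟩ : i = i' ∧ j = j' ∧ l = l' := by omega
    exact e

theorem GOK.hole (h : GOK P p q g) {x : ℕ} (e : (g &&& (x &&& M512)) ^^^ (x &&& M512) = 0) :
    GOK P p q ((x &&& M512) + GST) := fun i a j b l c e' => by
  rw [show GST = 2 ^ 512 * (2 ^ 512 - 1) by decide +kernel, add_comm,
    Nat.testBit_two_pow_mul_add _ (land_lt x 512 (by decide +kernel)), if_pos (by omega),
    ← Nat.xor_eq_zero_iff.1 e, Nat.testBit_and, Bool.and_eq_true] at e'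
  exact h i a j b l c e'.1

theorem nR3_sound (hk : Sound P k) (I : FInv P p q b r fa g rt l5 l6 i5 i6) {f : ℕ}
    (hf : f < 2 ^ 199 * tt ^ 20 → Ub (mz P) 20 f 0) (h : nR3 k w b r fa g rt l5 l6 i5 i6 f = 0) : False := by
  rw [nR3_eq, Nat.add_eq_zero_iff] at h
  have c := shr_tt (c := 199) (n := 20) h.1 (by norm_num)
  exact hk _ _ _ _ _ _ _ _ _ _ p q h.2 { I with fa := I.fa.push (hf c) (c.trans (by decide +kernel)) }

def pJ (j : ℕ) : ℕ := [8, 9, 11, 13, 14, 15, 16, 17, 18, 19].getD j 0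

theorem jt_tab : ∀ j ≤ 9, jt j = tt ^ pJ j ∧ pJ j < 20 := by decide +kernel

theorem jt_up {j : ℕ} (hj : j ≤ 9) : Ub (mz P) 20 (T20 + jt j) (lenJ P j) := by
  rw [T20_eq, (jt_tab j hj).1, show lenJ P j = mz P (pJ j) by interval_cases j <;> rfl]
  exact Ub.up (jt_tab j hj).2

theorem jt_un {j : ℕ} (hj : j ≤ 9) : Ub (mz P) 20 (T20 - jt j) (-lenJ P j) := by
  rw [T20_eq, (jt_tab j hj).1, show lenJ P j = mz P (pJ j) by interval_cases j <;> rfl]
  exact Ub.un (jt_tab j hj).2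

theorem okU_sound (hb : InB P b) {m : QM} {s x : ℕ} {l : ℝ} (hm : QMok P m (s * l ^ 2))
    (h : okU b m (s * x * x) = 0) : l ≤ x := by
  rw [okU_eq] at h
  have := bnd_sound hb ⟨_, rfl, hm.1.add (ub_UN0.mul _)⟩ h
  push_cast at this
  by_contra hn
  have h1 : (x : ℝ) ^ 2 ≤ l ^ 2 := pow_le_pow_left₀ (Nat.cast_nonneg _) (not_le.1 hn).le 2
  linarith [mul_le_mul_of_nonneg_left h1 (Nat.cast_nonneg (α := ℝ) s)]

theorem okL_sound (hb : InB P b) {m : QM} {s x : ℕ} {l : ℝ} (hm : QMok P m (s * l ^ 2)) (l0 : 0 ≤ l)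
    (h : okL b m (s * x * x) = 0) : x ≤ l := by
  rw [okL_eq] at h
  have := bnd_sound hb ⟨_, rfl, hm.2.add (ub_UP0.mul _)⟩ h
  push_cast at this
  by_contra hn
  have h1 : l ^ 2 ≤ (x : ℝ) ^ 2 := pow_le_pow_left₀ l0 (not_le.1 hn).le 2
  linarith [mul_le_mul_of_nonneg_left h1 (Nat.cast_nonneg (α := ℝ) s)]

theorem Sr_cast : Sr = (16777212 : ℕ) := by simp [Sr]

theorem nR_sound (hP : P.ok) (hk : Sound P k) (I : FInv P p q b r fa g rt l5 l6 i5 i6) {h : ℕ}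
    (e : nR k w b r fa g rt l5 l6 i5 i6 h = 0) : False := by
  rw [nR_eq] at e
  generalize (h >>> 4) &&& 15 = j at e
  rcases j with _ | j
  · cases e
  replace e : nR2 k (w >>> 72) b r fa g rt l5 l6 i5 i6 j (h >>> 8) (j <<< 6) (fl h 8) (fl h 40) = 0 := e
  simp only [nR2_eq, Nat.add_eq_zero_iff] at e
  obtain ⟨⟨⟨e1, e2⟩, e3⟩, e4⟩ := e
  have hj : j ≤ 9 := by omega
  have hm := qj_ok hP I.bx hj
  rw [Sr_cast] at hm
  have old := I.rg j (by omega)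
  rw [show 64 * j = j <<< 6 by rw [Nat.shiftLeft_eq]; omega] at old
  have u1 : lenJ P j ≤ fl h 40 := by
    rcases brz_le e2 with ⟨-, c⟩ | ⟨c, -⟩
    · exact okU_sound I.bx hm c
    · exact old.2.trans (by exact_mod_cast c)
  have u2 : fl h 8 ≤ lenJ P j := by
    rcases brz_le e3 with ⟨-, c⟩ | ⟨c, -⟩
    · exact okL_sound I.bx hm (lenJ_nn P j) c
    · exact le_trans (by exact_mod_cast c) old.1
  refine nR3_sound hk { I with rg := I.rg.set u2 u1 } (fun c => ?_) e4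
  rw [fR_eq] at c ⊢
  refine ((((hm.2.lift (lenJ_nn P 0) (by omega)).add ((jt_up hj).mul _)).add (ub_VP0.mul _)).add
    (ub_VN0.mul _)).mono ?_
  have h3 : fl h 8 ≤ fl h 40 := by exact_mod_cast u2.trans u1
  rw [Nat.shiftRight_eq_div_pow]
  generalize fl h 8 = lo at *
  generalize fl h 40 = hi at *
  have a1 : (((lo + hi) / 2 ^ 1 + (hi - (lo + hi) / 2 ^ 1) : ℕ) : ℝ) = hi := by congr 1; omega
  have a2 : (((lo + hi) / 2 ^ 1 : ℕ) : ℝ) ≤ (lo + (hi - (lo + hi) / 2 ^ 1) : ℕ) := Nat.cast_le.2 (by omega)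
  generalize hi - (lo + hi) / 2 ^ 1 = u at *
  generalize (lo + hi) / 2 ^ 1 = c at *
  push_cast at a1 a2 ⊢
  linarith [sq_le_sq' (a := lenJ P j - c) (b := u) (by linarith) (by linarith)]

theorem nU_sound (hP : P.ok) (hk : Sound P k) (I : FInv P p q b r fa g rt l5 l6 i5 i6) {h : ℕ}
    (e : nU k w b r fa g rt l5 l6 i5 i6 h = 0) : False := by
  rw [nU_eq] at e
  generalize (h >>> 4) &&& 15 = j at e
  rcases j with _ | j
  · cases e
  replace e : j - 9 + nR3 k (w >>> 38) b r fa g rt l5 l6 i5 i6 (fU (qj b j) j (fl h 8)) = 0 := e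
  rw [Nat.add_eq_zero_iff] at e
  have hj : j ≤ 9 := by omega
  refine nR3_sound hk I (fun c => ?_) e.2
  rw [fU_eq] at c ⊢
  refine ((((qj_ok hP I.bx hj).1.lift (lenJ_nn P 0) (by omega)).add ((jt_un hj).mul _)).add
    (ub_VP0.mul _)).mono ?_
  rw [Sr]
  push_cast
  linarith [sq_nonneg (lenJ P j - fl h 8)]

theorem nO_sound (hP : P.ok) (hk : Sound P k) (I : FInv P p q b r fa g rt l5 l6 i5 i6) {loc h : ℕ}
    (hl : ¬ InB P loc) (e : nO loc k w b r fa g rt l5 l6 i5 i6 h = 0) : False := by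
  rw [nO_eq] at e
  rcases brz_eq e with ⟨-, e⟩ | ⟨-, e⟩
  · exact nR3_sound hk I (fun _ => fP_ub hP (land_lt _ 14 rfl) (land_lt _ 14 rfl)) e
  · refine hl fun j hj => ?_
    have : sb1 loc b (64 * j) = 0 := by
      rw [sub7_eq] at e
      interval_cases j <;> simp only [Nat.reduceMul] <;> omega
    rw [sb1_eq] at this
    exact ⟨le_trans (Nat.cast_le.2 (by omega)) (I.bx j hj).1, (I.bx j hj).2.trans (Nat.cast_le.2 (by omega))⟩

theorem nC5_sound (hk : Sound P k) (I : FInv P p q b r fa g rt l5 l6 i5 i6) {h : ℕ}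
    (e : nC5 k w b r fa g rt l5 l6 i5 i6 h = 0) : False := by
  rw [nC5_eq, nC52_eq, Nat.add_eq_zero_iff] at e
  obtain ⟨F, a1, a2, a3, a4⟩ := cut_sp (land_lt (h >>> 4) 13 (m := 8191) rfl)
    (land_lt (h >>> 18) 13 (m := 8191) rfl) (land_lt (h >>> 32) 28 (m := 268435455) (by norm_num))
  rcases le_total 0 (F p) with c | c
  · exact hk _ _ _ _ _ _ _ _ _ _ p q e.1 { I with l5 := I.l5.push (a1 p c) a3 }
  · exact hk _ _ _ _ _ _ _ _ _ _ p q e.2
      ⟨I.hp, I.hq, I.bx, I.rg, I.fa, I.g, I.rt, I.l5.push (a2 p c) a4, I.l6, I.i5, I.i6⟩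

theorem nC6_sound (hk : Sound P k) (I : FInv P p q b r fa g rt l5 l6 i5 i6) {h : ℕ}
    (e : nC6 k w b r fa g rt l5 l6 i5 i6 h = 0) : False := by
  rw [nC6_eq, nC62_eq, Nat.add_eq_zero_iff] at e
  obtain ⟨F, a1, a2, a3, a4⟩ := cut_sp (land_lt (h >>> 4) 13 (m := 8191) rfl)
    (land_lt (h >>> 18) 13 (m := 8191) rfl) (land_lt (h >>> 32) 28 (m := 268435455) (by norm_num))
  rcases le_total 0 (F q) with c | c
  · exact hk _ _ _ _ _ _ _ _ _ _ p q e.1 { I with l6 := I.l6.push (a1 q c) a3 }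
  · exact hk _ _ _ _ _ _ _ _ _ _ p q e.2
      ⟨I.hp, I.hq, I.bx, I.rg, I.fa, I.g, I.rt, I.l5, I.l6.push (a2 q c) a4, I.i5, I.i6⟩

theorem nA_sound (hk : Sound P k) (I : FInv P p q b r fa g rt l5 l6 i5 i6) {h : ℕ}
    (e : nA k w b r fa g rt l5 l6 i5 i6 h = 0) : False := by
  rw [nA_eq, nA2_eq, Nat.add_eq_zero_iff] at e
  obtain ⟨F, a1, a2, a3, a4⟩ := cut_sp (land_lt (h >>> 4) 13 (m := 8191) rfl)
    (land_lt (h >>> 18) 13 (m := 8191) rfl) (land_lt (h >>> 32) 28 (m := 268435455) (by norm_num))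
  refine hk _ _ _ _ _ _ _ _ _ _ p q e.2 { I with rt := fun z hz => (I.rt z hz).push (a1 z ?_) a3 }
  by_contra hn
  exact hk _ _ _ _ _ _ _ _ _ _ z q e.1 ⟨hz, I.hq, I.bx, I.rg, I.fa, I.g.and4 _ _, I.rt,
    (I.rt z hz).push (a2 z (not_le.1 hn).le) a4, LsOK.zero _, fun _ => Ub.zero, Ub.zero⟩

theorem nB_sound (hP : P.ok) (hk : Sound P k) (I : FInv P p q b r fa g rt l5 l6 i5 i6) {h : ℕ}
    (e : nB k w b r fa g rt l5 l6 i5 i6 h = 0) : False := by
  rw [nB_eq, nB2_eq, Nat.add_eq_zero_iff, Nat.add_eq_zero_iff] at e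
  have a := land_lt (h >>> 4) 3 (m := 7) rfl
  have b := land_lt (h >>> 7) 3 (m := 7) rfl
  have c := land_lt (h >>> 10) 3 (m := 7) rfl
  rcases hP.t3 _ (pt_mem hP I.hp I.hq ((h >>> 4) &&& 7)) _ (pt_mem hP I.hp I.hq ((h >>> 7) &&& 7)) _
    (pt_mem hP I.hp I.hq ((h >>> 10) &&& 7)) with t | t | t
  · exact hk _ _ _ _ _ _ _ _ _ _ p q e.1.1 { I with g := I.g.or a b t }
  · exact hk _ _ _ _ _ _ _ _ _ _ p q e.1.2 { I with g := I.g.or a c t }
  · exact hk _ _ _ _ _ _ _ _ _ _ p q e.2 { I with g := I.g.or b c t }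

theorem nSb_sound (hk : Sound P k) (I : FInv P p q b r fa g rt l5 l6 i5 i6) {j h n : ℕ}
    (e : nSb k w b r fa g rt l5 l6 i5 i6 (j <<< 6) (fl h 8) n = 0) : False := by
  rw [nSb_eq, Nat.add_eq_zero_iff] at e
  rcases InF.split I.bx j h with c | c
  · exact hk _ _ _ _ _ _ _ _ _ _ p q e.1 { I with bx := c }
  · exact hk _ _ _ _ _ _ _ _ _ _ p q e.2 { I with bx := c }

theorem nSl_sound (hk : Sound P k) (I : FInv P p q b r fa g rt l5 l6 i5 i6) {j h n : ℕ}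
    (e : nSl k w b r fa g rt l5 l6 i5 i6 (j <<< 6) (fl h 8) n = 0) : False := by
  rw [nSl_eq, Nat.add_eq_zero_iff] at e
  rcases InF.split I.rg j h with c | c
  · exact hk _ _ _ _ _ _ _ _ _ _ p q e.1 { I with rg := c }
  · exact hk _ _ _ _ _ _ _ _ _ _ p q e.2 { I with rg := c }

theorem gl_ok {z : ℝ × ℝ} (h : LsOK rt z) (n w : ℕ) : LsOK (gl rt n w) z := by
  rw [gl_eq]
  induction n generalizing w with
  | zero => exact LsOK.zero z
  | succ n ih => exact (ih _).push (h _) (land_lt _ _ MLE_eq)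

theorem gf_ok (h : FaOK P fa) (n w : ℕ) : FaOK P (gf fa n w) := by
  rw [gf_eq]
  induction n generalizing w with
  | zero => exact FaOK.zero P
  | succ n ih => exact (ih _).push (h _) (land_lt _ _ MF_eq)

theorem nH_sound (I : FInv P p q b r fa g rt l5 l6 i5 i6) {hs : ℕ → ℕ} (hh : ∀ i, FGood P (hs i))
    (e : nH hs w b r fa g rt = 0) : False := by
  simp only [nH_eq, nH2_eq, Nat.add_eq_zero_iff] at e
  obtain ⟨⟨⟨⟨e1, e2⟩, e3⟩, e4⟩, e5⟩ := e
  rw [Nat.xor_eq_zero_iff] at e1 e2 e4 e5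
  exact hh _ p q ⟨I.hp, I.hq, e1 ▸ I.bx, e2 ▸ I.rg, e5 ▸ gf_ok I.fa _ _, I.g.hole e3,
    fun z hz => e4 ▸ gl_ok (I.rt z hz) _ _, LsOK.zero _, LsOK.zero _, fun _ => Ub.zero, Ub.zero⟩

def UOK (P : Prm) (u : ℕ) : Prop :=
  ∃ y, (∀ p q, Ub (mo P p q) 49 (u + UPN) y) ∧ Ub (mz P) 20 (UNG - u) (-y)

theorem uc_ok (w : ℕ) : UOK P (uc w) := by
  rw [uc_eq]
  exact uc2_ub _ _

theorem sd_sound (hk : Sound P k) (I : FInv P p q b r fa g rt l5 l6 i5 i6) {s x : ℕ} (hs : s = 5 ∨ s = 6)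
    {z : ℝ × ℝ} (hz : z ∈ P.X) (hx : ∀ p q, P.pt p q s = z → Ub (mo P p q) 49 x 0)
    (e : sd k s w b r fa g rt l5 i5 x = 0) : False := by
  rw [sd_eq] at e
  rcases brz_eq e with ⟨c, e⟩ | ⟨rfl, e⟩
  · obtain rfl := hs.resolve_left c
    exact hk _ _ _ _ _ _ _ _ _ _ p z e { I with hq := hz, g := I.g.and5 z, l6 := I.rt z hz, i6 := hx p z rfl }
  · exact hk _ _ _ _ _ _ _ _ _ _ z q e ⟨hz, I.hq, I.bx, I.rg, I.fa, I.g.and4 _ _, I.rt, I.rt z hz,
      LsOK.zero _, fun y => hx z y rfl, Ub.zero⟩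

theorem side_ub (hP : P.ok) (hk : Sound P k) (I : FInv P p q b r fa g rt l5 l6 i5 i6)
    {s u v w1 w2 p1 n1 p2 n2 p3 n3 p4 n4 : ℕ} (hs : s = 5 ∨ s = 6) (hu : UOK P u) (hv : UOK P v)
    (e1 : sd k s w1 b r fa g rt l5 i5 (u + UPN + dr s p1 n1 p2 n2 p3 n3 p4 n4) = 0)
    (e2 : sd k s w2 b r fa g rt l5 i5 (v + UPN + dr s n1 p1 n2 p2 n3 p3 n4 p4) = 0) :
    Ub (mz P) 20 (UNG - u + (UNG - v))
      (455435857895988 * Lf P.al P.be P.ga (cmb P (p1 - n1) (p2 - n2) (p3 - n3) (p4 - n4))) := by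
  obtain ⟨y1, a1, b1⟩ := hu
  obtain ⟨y2, a2, b2⟩ := hv
  obtain ⟨x, mx, z, mz, e⟩ := hP.wid (cmb P (p1 - n1) (p2 - n2) (p3 - n3) (p4 - n4))
  have s1 : y1 + Sr ^ 2 * crs (cmb P (p1 - n1) (p2 - n2) (p3 - n3) (p4 - n4)) x < 0 := not_le.1 fun c =>
    sd_sound hk I hs mx (fun p q h => ((a1 p q).add (dr_ub (by omega) _ _ _ _ _ _ _ _)).mono (h ▸ c)) e1
  have s2 : y2 + Sr ^ 2 * crs (cmb P (n1 - p1) (n2 - p2) (n3 - p3) (n4 - p4)) z < 0 := not_le.1 fun c =>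
    sd_sound hk I hs mz (fun p q h => ((a2 p q).add (dr_ub (by omega) _ _ _ _ _ _ _ _)).mono (h ▸ c)) e2
  rw [show crs (cmb P (n1 - p1) (n2 - p2) (n3 - p3) (n4 - p4)) z =
    -crs (cmb P (p1 - n1) (p2 - n2) (p3 - n3) (p4 - n4)) z by
      simp only [cmb, crs, Prod.fst_add, Prod.snd_add, Prod.smul_fst, Prod.smul_snd, smul_eq_mul]; ring] at s2
  refine (b1.add b2).mono ?_
  have c : (27146099 / 16777212 : ℝ) ≤ gphi := by
    have : (37514986 / 16777212 : ℝ) ≤ Real.sqrt 5 := Real.le_sqrt_of_sq_le (by norm_num)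
    rw [gphi]
    linarith
  have := mul_le_mul_of_nonneg_right c (Lf_nonneg (al := P.al) (be := P.be) (ga := P.ga)
    (cmb P (p1 - n1) (p2 - n2) (p3 - n3) (p4 - n4)))
  rw [Sr] at s1 s2
  linarith

theorem s56 (a : ℕ) : 5 + (a &&& 1) = 5 ∨ 5 + (a &&& 1) = 6 := by
  have := land_lt a 1 (m := 1) rfl
  omega

theorem Lf_cmb (c : ℕ) (a1 b1 a2 b2 a3 b3 a4 b4 : ℕ) : Lf P.al P.be P.ga (cmb P ((c * a1 : ℕ) - (c * b1 : ℕ))
    ((c * a2 : ℕ) - (c * b2 : ℕ)) ((c * a3 : ℕ) - (c * b3 : ℕ)) ((c * a4 : ℕ) - (c * b4 : ℕ))) =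
    c * Lf P.al P.be P.ga (cmb P (a1 - b1) (a2 - b2) (a3 - b3) (a4 - b4)) := by
  rw [Lf, Lf, ← Real.sqrt_sq (Nat.cast_nonneg (α := ℝ) c), ← Real.sqrt_mul (sq_nonneg _)]
  congr 1
  simp only [cmb, Qf, Prod.fst_add, Prod.snd_add, Prod.smul_fst, Prod.smul_snd, smul_eq_mul]
  push_cast
  ring

theorem nQP2_sound (hP : P.ok) (hk : Sound P k) (I : FInv P p q b r fa g rt l5 l6 i5 i6) {s n e f u v j : ℕ}
    (hs : s = 5 ∨ s = 6) (hu : UOK P u) (hv : UOK P v)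
    (h : nQP2 k w b r fa g rt l5 l6 i5 i6 s n e f u v j = 0) : False := by
  simp only [nQP2_eq, nQ_eq, Nat.add_eq_zero_iff] at h
  obtain ⟨h0, ⟨h1, h2⟩, h3⟩ := h
  have hj : j ≤ 9 := by omega
  have := side_ub hP hk I hs hu hv h1 h2
  rw [Lf_cmb, ← Sr_cast, ← len_cmb hj] at this
  refine nR3_sound hk I (fun _ => ?_) h3
  rw [fQP_eq]
  exact (this.add ((jt_un hj).mul _)).mono (by push_cast; linarith)

theorem nQP_sound (hP : P.ok) (hk : Sound P k) (I : FInv P p q b r fa g rt l5 l6 i5 i6) {h : ℕ}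
    (e : nQP k w b r fa g rt l5 l6 i5 i6 h = 0) : False := by
  unfold nQP at e
  generalize Nat.land (Nat.shiftRight h (nat_lit 39)) (nat_lit 15) = j at e
  rcases j with _ | j
  · cases e
  exact nQP2_sound hP hk I (s56 _) (uc_ok _) (uc_ok _) e

theorem nQG4_sp {x z : ℕ} (h : nQG4 b r x z = 0) : nps b r x = 0 ∨ z = 0 := by
  rw [nQG4_eq] at h
  exact (brz_eq h).imp And.right And.left

theorem nQG1_sound (hP : P.ok) (hk : Sound P k) (I : FInv P p q b r fa g rt l5 l6 i5 i6)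
    {s n e f u v p1 n1 p2 n2 p3 n3 p4 n4 c d : ℕ} (hs : s = 5 ∨ s = 6) (hu : UOK P u) (hv : UOK P v)
    (h : nQG1 k w b r fa g rt l5 l6 i5 i6 s n e f u v p1 n1 p2 n2 p3 n3 p4 n4 c d = 0) : False := by
  simp only [nQG1_eq, nQG2_eq, nQG3_eq, nQ_eq, Nat.add_eq_zero_iff] at h
  obtain ⟨⟨⟨h4, h5⟩, h6⟩, ⟨h1, h2⟩, h3⟩ := h
  have hx := side_ub hP hk I hs hu hv h1 h2
  have hm := qm_ok hP I.bx p1 n1 p2 n2 p3 n3 p4 n4
  have l0 := Lf_nonneg (al := P.al) (be := P.be) (ga := P.ga) (cmb P (p1 - n1) (p2 - n2) (p3 - n3) (p4 - n4))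
  generalize Lf P.al P.be P.ga _ = l at hx hm l0
  rw [show Sr * (Sr * l) ^ 2 = (4722363105170729992128 : ℕ) * l ^ 2 by rw [Sr]; push_cast; ring] at hm
  have u1 : (c : ℝ) - d ≤ l := by
    rcases brz_le h5 with ⟨a, t⟩ | ⟨a, -⟩
    · rw [← Nat.cast_sub a.le]
      exact okL_sound I.bx hm l0 t
    · exact (sub_nonpos.2 (Nat.cast_le.2 a)).trans l0
  have u2 : l ≤ (c + d : ℕ) := by
    rcases nQG4_sp h6 with t | t
    · have := nps_sound I.bx I.rg (hx.add (ub_VN0.mul _)) t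
      push_cast at this ⊢
      linarith
    · exact okU_sound I.bx hm t
  have t := shr_tt (c := 199) (n := 20) h4 (by norm_num)
  refine nR3_sound hk I (fun _ => Ub.rnd ?_ (fun _ => I.bx.nn) t) h3
  rw [fQG_eq] at t ⊢
  refine ((hx.mul _).add ((((hm.2.lift (lenJ_nn P 0) (by omega)).add (ub_VP0.mul _)).add
    (ub_VN0.mul _)).mul _)).mono ?_
  push_cast at u2 ⊢
  linarith [sq_le_sq' (a := l - c) (b := d) (by linarith) (by linarith)]

theorem nQG_sound (hP : P.ok) (hk : Sound P k) (I : FInv P p q b r fa g rt l5 l6 i5 i6) {h : ℕ}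
    (e : nQG k w b r fa g rt l5 l6 i5 i6 h = 0) : False := by
  unfold nQG at e
  exact nQG1_sound hP hk I (s56 _) (uc_ok _) (uc_ok _) e

theorem step_sound (hP : P.ok) {loc : ℕ} (hl : ¬ InB P loc) {hs : ℕ → ℕ} (hh : ∀ i, FGood P (hs i))
    (hk : Sound P k) : Sound P (step loc hs k) := by
  intro w b r fa g rt l5 l6 i5 i6 p q e I
  rw [step_eq] at e
  rcases brz_eq e with ⟨-, e⟩ | ⟨-, e⟩
  swap
  · exact lf1_sound5 hP I e
  rw [st1_eq] at e
  rcases brz_le e with ⟨-, e⟩ | ⟨-, e⟩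
  swap
  · rcases brz_le e with ⟨-, e⟩ | ⟨-, e⟩
    exacts [nB_sound hP hk I e, nC5_sound hk I e]
  rw [st2_eq] at e
  rcases brz_le e with ⟨-, e⟩ | ⟨-, e⟩
  swap
  · rcases brz_le e with ⟨-, e⟩ | ⟨-, e⟩
    · exact lf0_sound hP I e
    rcases brz_le e with ⟨-, e⟩ | ⟨-, e⟩
    exacts [nU_sound hP hk I e, nR_sound hP hk I e]
  rcases brz_le e with ⟨-, e⟩ | ⟨-, e⟩
  swap
  · rcases brz_le e with ⟨-, e⟩ | ⟨-, e⟩
    exacts [lf2_sound hP I e, lf1_sound6 hP I e]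
  rw [st3_eq] at e
  rcases brz_le e with ⟨-, e⟩ | ⟨-, e⟩
  swap
  · rcases brz_le e with ⟨-, e⟩ | ⟨-, e⟩
    exacts [nQP_sound hP hk I e, nC6_sound hk I e]
  rcases brz_le e with ⟨-, e⟩ | ⟨-, e⟩
  swap
  · exact nQG_sound hP hk I e
  rcases brz_le e with ⟨-, e⟩ | ⟨-, e⟩
  swap
  · exact nSb_sound hk I e
  rw [st4_eq] at e
  rcases brz_le e with ⟨-, e⟩ | ⟨-, e⟩ <;> rcases brz_le e with ⟨-, e⟩ | ⟨-, e⟩
  exacts [nO_sound hP hk I hl e, nH_sound I hh e, nA_sound hk I e, nSl_sound hk I e]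

end

end Pool.Agent.Lib.MP_9d820d_co.Fast
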