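import Pool.Agent.Lib.MP_9d820d_co.FFold

set_option autoImplicit false
set_option exponentiation.threshold 20000

namespace Pool.Agent.Lib.MP_9d820d_co.Fast

open Finset

noncomputable section

variable {P : Prm} {b : ℕ}

theorem adf_sq (a c : ℕ) : ((adf a c * adf a c : ℕ) : ℤ) = ((a : ℤ) - c) ^ 2 := by
  rw [adf_eq]
  rcases le_total a c with h | h
  · rw [Nat.sub_eq_zero_of_le h, zero_add]; push_cast [h]; ring
  · rw [Nat.sub_eq_zero_of_le h, add_zero]; push_cast [h]; ring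

theorem tsub_r (a c : ℕ) : ((a - c : ℕ) : ℝ) - ((c - a : ℕ) : ℝ) = a - c := by
  rcases le_total a c with h | h
  · rw [Nat.sub_eq_zero_of_le h]; push_cast [h]; ring
  · rw [Nat.sub_eq_zero_of_le h]; push_cast [h]; ring

/-- the digits of the quadratic form -/
def vq (c x y : ℤ) (k : ℕ) : ℤ :=
  if k = 1 then c * x ^ 2 else if k = 2 then -(2 * c * x * y) else if k = 3 then c * y ^ 2 else 0

theorem vq_pk (n : ℕ) (c x y : ℤ) : pk (n + 4) (vq c x y) = c * (x - y * tt) ^ 2 * tt := by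
  induction n with
  | zero => simp [pk, sum_range_succ, vq]; ring
  | succ n ih =>
    rw [← ih, pk, Nat.add_right_comm, sum_range_succ, vq, if_neg (by omega), if_neg (by omega),
      if_neg (by omega), zero_mul, add_zero, pk]

theorem vq_val (n : ℕ) (c x y : ℤ) : val (mz P) (n + 4) (vq c x y) = c * Qz P x y := by
  induction n with
  | zero => simp [val, sum_range_succ, vq, mz, Qz]; ring
  | succ n ih =>
    rw [← ih, val, Nat.add_right_comm, sum_range_succ, vq, if_neg (by omega),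
      if_neg (by omega), if_neg (by omega), Int.cast_zero, zero_mul, add_zero, val]

theorem vq_le {c x y A B s : ℤ} (hc : |c| ≤ 1) (hx : |x| ≤ A) (hy : |y| ≤ B) (hs : (A + B) ^ 2 ≤ s) (k : ℕ) :
    |vq c x y k| ≤ s := by
  have x0 := abs_nonneg x
  have y0 := abs_nonneg y
  have c0 := abs_nonneg c
  have h1 := mul_le_mul hx hx x0 (x0.trans hx)
  have h2 := mul_le_mul hx hy y0 (x0.trans hx)
  have h3 := mul_le_mul hy hy y0 (y0.trans hy)
  have h4 := mul_nonneg x0 x0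
  have h5 := mul_nonneg x0 y0
  have h6 := mul_nonneg y0 y0
  unfold vq
  split_ifs
  · rw [abs_mul, pow_two, abs_mul]; nlinarith
  · rw [abs_neg, abs_mul, abs_mul, abs_mul, abs_two]; nlinarith
  · rw [abs_mul, pow_two, abs_mul]; nlinarith
  · rw [abs_zero]; nlinarith

theorem osq_cast {a c : ℕ} {x y : ℤ} (e : (a : ℤ) - c = x - y * tt) (n : ℕ) :
    (osq (adf a c) : ℤ) = pk (n + 4) (vq 1 x y) := by
  rw [osq_eq, shl_tt _ (k := 1) rfl, Nat.cast_mul, adf_sq, e, vq_pk]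
  push_cast
  ring

theorem osq_up {a c s : ℕ} {x y A B : ℤ} (n : ℕ) (e : (a : ℤ) - c = x - y * tt) (hx : |x| ≤ A) (hy : |y| ≤ B)
    (hs : (A + B) ^ 2 ≤ s) : Ub (mz P) (n + 4) (osq (adf a c) + s * tt ^ (n + 4)) (Qz P x y) :=
  ⟨vq 1 x y, ⟨s, by rw [Nat.cast_add, osq_cast e n]; push_cast; rfl, fun k _ => vq_le (by norm_num) hx hy hs k⟩,
    by rw [vq_val]; simp⟩

theorem osq_dn {a c s : ℕ} {x y A B : ℤ} (e : (a : ℤ) - c = x - y * tt) (hx : |x| ≤ A) (hy : |y| ≤ B)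
    (hs : (A + B) ^ 2 ≤ s) : Ub (mz P) 8 (s * tt ^ 8 - osq (adf a c)) (-Qz P x y) := by
  refine (Ub.diff (n := 4 + 4) (v := vq (-1) x y) (s := s) ?_ fun k _ => vq_le (by norm_num) hx hy hs k).mono ?_
  · rw [osq_cast e 4, vq_pk, vq_pk]
    push_cast
    ring
  · rw [vq_val]; simp

theorem gg_ub (hb : InB P b) {i j : ℕ} (hi : i < 7) (hj : j < 7) {u v wx wy : ℕ} {x y : ℝ}
    (hu : Ub (mz P) 8 u x) (hv : Ub (mz P) 8 v y) (hx : |x| ≤ wx) (hy : |y| ≤ wy) :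
    Ub (mz P) 8 (gg b (64 * i) (64 * j) u v wx wy) (2 * (mz P (i + 1) * x + mz P (j + 1) * y)) := by
  rw [gg_eq]
  refine ((((hu.mul _).add (hv.mul _)).add (ub_UP0.mul _)).shl 1).mono ?_
  have h1 := (le_abs_self _).trans (abs_mul_le (hb.ctr hi) hx)
  have h2 := (le_abs_self _).trans (abs_mul_le (hb.ctr hj) hy)
  push_cast
  linarith

theorem sq_ub (hb : InB P b) {wx wy : ℕ} {x y : ℝ} (hx : |x| ≤ wx) (hy : |y| ≤ wy) :
    Ub (mz P) 8 (sq b wx wy) (Qz P x y) := by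
  rw [sq_eq]
  refine (ub_UP0.mul _).mono ?_
  have a : ∀ k < 7, |mz P (k + 1)| ≤ fl (b >>> 32) (64 * k) := fun k hk => by
    rw [abs_of_nonneg (hb.nn (by omega))]; exact (hb k hk).2
  have h1 := (le_abs_self _).trans (abs_mul_le (abs_mul_le (a 0 (by norm_num)) hx) hx)
  have h2 := (neg_le_abs _).trans (abs_mul_le (abs_mul_le (a 1 (by norm_num)) hx) hy)
  have h3 := (le_abs_self _).trans (abs_mul_le (abs_mul_le (a 2 (by norm_num)) hy) hy)
  simp only [mz, Nat.reduceAdd, Nat.reduceMul] at h1 h2 h3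
  push_cast
  unfold Qz
  linarith

theorem lin4_ub (xp xn yp yn : ℕ) {a c d e : ℕ} {α β γ δ : ℝ} (ha : Ub (mz P) 8 a α) (hc : Ub (mz P) 8 c β)
    (hd : Ub (mz P) 8 d γ) (he : Ub (mz P) 8 e δ) :
    Ub (mz P) 8 (lin4 xp xn yp yn a c d e) (xp * α + xn * β + yp * γ + yn * δ) := by
  rw [lin4_eq]
  exact (((ha.mul _).add (hc.mul _)).add (hd.mul _)).add (he.mul _)

theorem cross_ub (hb : InB P b) (xp xn yp yn : ℕ) {up un vp vn wx wy : ℕ} {x y : ℝ}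
    (h1 : Ub (mz P) 8 up x) (h2 : Ub (mz P) 8 un (-x)) (h3 : Ub (mz P) 8 vp y) (h4 : Ub (mz P) 8 vn (-y))
    (hx : |x| ≤ wx) (hy : |y| ≤ wy) :
    Ub (mz P) 8 (lin4 xp xn yp yn (gg b 0 64 up vn wx wy) (gg b 0 64 un vp wx wy) (gg b 64 128 un vp wx wy)
      (gg b 64 128 up vn wx wy))
      (Qz P (xp - xn + x) (yp - yn + y) - Qz P (xp - xn) (yp - yn) - Qz P x y) ∧
    Ub (mz P) 8 (lin4 xp xn yp yn (gg b 0 64 un vp wx wy) (gg b 0 64 up vn wx wy) (gg b 64 128 up vn wx wy)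
      (gg b 64 128 un vp wx wy))
      (-(Qz P (xp - xn + x) (yp - yn + y) - Qz P (xp - xn) (yp - yn) - Qz P x y)) := by
  have hx' : |-x| ≤ wx := by rwa [abs_neg]
  have hy' : |-y| ≤ wy := by rwa [abs_neg]
  have g1 := gg_ub hb (i := 0) (j := 1) (by norm_num) (by norm_num) h1 h4 hx hy'
  have g2 := gg_ub hb (i := 0) (j := 1) (by norm_num) (by norm_num) h2 h3 hx' hy
  have g3 := gg_ub hb (i := 1) (j := 2) (by norm_num) (by norm_num) h2 h3 hx' hy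
  have g4 := gg_ub hb (i := 1) (j := 2) (by norm_num) (by norm_num) h1 h4 hx hy'
  refine ⟨(lin4_ub xp xn yp yn g1 g2 g3 g4).mono (le_of_eq ?_),
    (lin4_ub xp xn yp yn g2 g1 g4 g3).mono (le_of_eq ?_)⟩ <;>
  simp only [Qz, mz, Nat.reduceAdd] <;> ring

theorem dp_ub (o : ℕ) {u : ℕ} {x : ℝ} (h : Ub (mz P) 8 u x) : Ub (mz P) 8 (dp b o u) (x - cb b o) := by
  rw [dp_eq]
  exact (h.add (ub_UN0.mul _)).mono (le_of_eq (by ring))

theorem dn_ub (o : ℕ) {u : ℕ} {x : ℝ} (h : Ub (mz P) 8 u (-x)) : Ub (mz P) 8 (dn b o u) (-(x - cb b o)) := by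
  rw [dn_eq]
  exact (h.add (ub_UP0.mul _)).mono (le_of_eq (by ring))

theorem pq_ub (μ h : ℕ) {q : ℕ} {l : ℝ} (hq : Ub (mz P) 8 q (Sr * l ^ 2)) :
    Ub (mz P) 8 (pq (pma μ) (pmb μ) ((h &&& 262143) + 1) q) (μ * l) := by
  have h0 := land_lt h 18 (m := 262143) (by norm_num)
  generalize h &&& 262143 = g at h0
  rw [pq_eq, pmb_eq, mul_right_comm]
  refine ((hq.mul _).add (ub_UP0.mul _)).mono ?_
  have a1 : μ ≤ pma μ / (g + 1) * (g + 1) * 8589932544 := by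
    have := Nat.lt_div_mul_add (a := pma μ) (b := g + 1) (by omega)
    rw [pma_eq] at this ⊢
    generalize (μ / 8589932544 + 262145) / (g + 1) * (g + 1) = A at *
    omega
  generalize pma μ / (g + 1) = A at *
  have b1 : (μ : ℝ) ≤ A * (g + 1) * 8589932544 := by exact_mod_cast a1
  rw [Nat.shiftLeft_eq]
  push_cast
  have hp : (0 : ℝ) < g + 1 := by positivity
  generalize (g : ℝ) + 1 = k at *
  refine le_of_mul_le_mul_right ?_ hp
  have c1 := mul_le_mul_of_nonneg_right b1 (sq_nonneg l)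
  have c3 := mul_nonneg (Nat.cast_nonneg (α := ℝ) μ) (sq_nonneg (l - 256 * k))
  unfold Sr
  nlinarith

theorem dl_sq (hP : P.ok) (a z : ℝ × ℝ) : Qz P (sx a - sx z) (sy a - sy z) = Sr * dl P a z ^ 2 := by
  have := Qz_eq hP (a - z) Sr
  rw [dl, mul_pow, ← mul_assoc, ← this]
  simp only [sx, sy, Prod.fst_sub, Prod.snd_sub]
  congr 1 <;> ring

theorem osq_QS {px py x y : ℕ} (h1 : px < 2 ^ 55) (h2 : py < 2 ^ 55) (h3 : x < 2 ^ 55) (h4 : y < 2 ^ 55) :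
    Ub (mz P) 8 (osq (adf (px + y <<< 224) (x + py <<< 224)) + QS) (Qz P (px - x) (py - y)) := by
  have := osq_up (P := P) (a := px + y <<< 224) (c := x + py <<< 224) (s := 2 ^ 112) (x := px - x)
    (y := py - y) (A := 2 ^ 55) (B := 2 ^ 55) 4
    (by rw [shl_tt _ (k := 1) rfl, shl_tt _ (k := 1) rfl]; push_cast; ring)
    (by rw [abs_le]; omega) (by rw [abs_le]; omega) (by norm_num)
  rw [show QS = 2 ^ 112 * tt ^ (4 + 4) by decide +kernel]
  simpa using this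

theorem pdc_ub (hP : P.ok) (μ h : ℕ) {px py x y : ℕ} {a : ℝ × ℝ} (ex : sx a = px) (ey : sy a = py)
    (h1 : px < 2 ^ 55) (h2 : py < 2 ^ 55) (h3 : x < 2 ^ 55) (h4 : y < 2 ^ 55) :
    Ub (mz P) 8 (pdc (pma μ) (pmb μ) px (py <<< 224) x (y <<< 224) h) (μ * dl P a (vp x y)) := by
  rw [pdc_eq]
  refine pq_ub μ h ?_
  rw [← dl_sq hP, sx_vp, sy_vp, ex, ey]
  exact osq_QS h1 h2 h3 h4

theorem dl_cx (hP : P.ok) (a : ℝ × ℝ) (c : ℕ) : ConvexOn ℝ Set.univ (fun z => c * dl P a z) := by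
  refine ⟨convex_univ, fun x _ y _ s t hs ht e => ?_⟩
  have := Lf_comb hP.psd (a - x) (a - y) hs ht
  rw [show s • (a - x) + t • (a - y) = a - (s • x + t • y) by
    rw [smul_sub, smul_sub, sub_add_sub_comm, ← add_smul, e, one_smul]] at this
  have := mul_le_mul_of_nonneg_left this (mul_nonneg (Nat.cast_nonneg (α := ℝ) c) Sr_pos.le)
  simp only [dl, smul_eq_mul]
  linarith

theorem dl_swap (a z : ℝ × ℝ) : dl P a z = dl P z a := by rw [dl, dl, Lf_swap]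

def ELok (P : Prm) (m : ℕ → ℝ) (z : ℝ × ℝ) (el : EL) : Prop :=
  ∃ φ : ℝ × ℝ → ℝ, ConvexOn ℝ Set.univ φ ∧ Ub m 49 el.cl (-φ z) ∧
    ∀ x y h, x < 2 ^ 55 → y < 2 ^ 55 → Ub (mz P) 8 (el.run x y (y <<< 224) h) (φ (vp x y))

variable {m : ℕ → ℝ} {z : ℝ × ℝ}

theorem unv_ub (μ : ℕ) {o k : ℕ} (ho : o = 224 * k) (hk : k < 49) : Ub m 49 (μ * unv o) (μ * -m k) := by
  rw [unv_eq, TN_eq, shl_tt _ ho, one_mul]
  exact (Ub.un hk).mul μ

theorem ec_ok (hP : P.ok) (μ : ℕ) {o k px py : ℕ} {a : ℝ × ℝ} {r : EL} (ho : o = 224 * k) (hk : k < 49)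
    (hm : m k = dl P a z) (ex : sx a = px) (ey : sy a = py) (h1 : px < 2 ^ 55) (h2 : py < 2 ^ 55)
    (hr : ELok P m z r) : ELok P m z (ec μ o px py r) := by
  obtain ⟨φ, c, u, hr⟩ := hr
  rw [ec_eq, ec2_eq]
  refine ⟨fun z => μ * dl P a z + φ z, (dl_cx hP a μ).add c, ((unv_ub μ ho hk).add u).mono (le_of_eq ?_),
    fun x y h hx hy => (pdc_ub hP μ h ex ey h1 h2 hx hy).add (hr x y _ hx hy)⟩
  rw [hm]
  ring

theorem ev_ok (hP : P.ok) (hb : InB P b) (μ : ℕ) {o k i j ux nx uy ny : ℕ} {a : ℝ × ℝ} {r : EL}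
    (ho : o = 224 * k) (hk : k < 49) (hm : m k = dl P a z) (hi : i < 7) (hj : j < 7)
    (ex : mz P (i + 1) = sx a) (ey : mz P (j + 1) = sy a) (u1 : Ub (mz P) 8 ux (mz P (i + 1)))
    (u2 : Ub (mz P) 8 nx (-mz P (i + 1))) (u3 : Ub (mz P) 8 uy (mz P (j + 1)))
    (u4 : Ub (mz P) 8 ny (-mz P (j + 1))) (hr : ELok P m z r) :
    ELok P m z (ev b μ o (64 * i) (64 * j) ux nx uy ny r) := by
  obtain ⟨φ, c, u, hr⟩ := hr
  rw [ev_eq, ev2_eq]
  refine ⟨fun z => μ * dl P a z + φ z, (dl_cx hP a μ).add c, ((unv_ub μ ho hk).add u).mono (le_of_eq ?_),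
    fun x y h hx hy => (pq_ub μ h ?_).add (hr x y _ hx hy)⟩
  · rw [hm]
    ring
  have q1 := osq_QS (P := P) ((cb_lt b (64 * i)).trans (by norm_num)) ((cb_lt b (64 * j)).trans (by norm_num)) hx hy
  have q2 := sq_ub hb (hb.ctr hi) (hb.ctr hj)
  have q3 := (cross_ub hb (cb b (64 * i) - x) (x - cb b (64 * i)) (cb b (64 * j) - y) (y - cb b (64 * j))
    (dp_ub (64 * i) u1) (dn_ub (64 * i) u2) (dp_ub (64 * j) u3) (dn_ub (64 * j) u4) (hb.ctr hi) (hb.ctr hj)).1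
  rw [tsub_r, tsub_r] at q3
  rw [add_comm (sq _ _ _), ← add_assoc, ← dl_sq hP, sx_vp, sy_vp, ← ex, ← ey]
  refine ((q1.add q2).add q3).mono (le_of_eq ?_)
  simp only [Qz]
  ring

theorem pe_ok (hP : P.ok) (hb : InB P b) (d c : ℕ) {o k : ℕ} {r : EL} (ho : o = 224 * k) (hk : k + 4 < 49)
    (hm : ∀ i ≤ 4, m (k + i) = dl P (P.V i) z) (hr : ELok P m z r) : ELok P m z (pe b d o c r) := by
  rw [pe_eq]
  have s : ∀ a b : ℝ, a = b → Sr * a + 67108848 = Sr * b + 67108848 := fun _ _ h => by rw [h]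
  cases Nat.ble c 1
  · cases Nat.ble c 2
    · cases Nat.ble c 3
      · exact ev_ok hP hb _ (i := 4) (j := 5) (k := k + 4) (by omega) hk (hm 4 le_rfl) (by norm_num) (by norm_num)
          rfl rfl ub_U5 ub_N5 ub_U6 ub_N6 hr
      · exact ec_ok hP _ (k := k + 3) (by omega) (by omega) (hm 3 (by norm_num))
          (by simp [sx, Prm.V, Prm.pt, Sr]; norm_num) (by simp [sy, Prm.V, Prm.pt, Sr]; norm_num)
          (by norm_num) (by norm_num) hr
    · exact ec_ok hP _ (k := k + 2) (by omega) (by omega) (hm 2 (by norm_num))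
        (by simp [sx, Prm.V, Prm.pt, Sr]; norm_num) (by simp [sy, Prm.V, Prm.pt, Sr]; norm_num)
        (by norm_num) (by norm_num) hr
  · cases Nat.beq c 0
    · exact ev_ok hP hb _ (i := 3) (j := 6) (k := k + 1) (by omega) (by omega) (hm 1 (by norm_num)) (by norm_num)
        (by norm_num) rfl rfl ub_U4 ub_N4 ub_U7 ub_N7 hr
    · exact ec_ok hP _ (k := k) ho (by omega) (hm 0 (by norm_num))
        (by simp [sx, Prm.V, Prm.pt]) (by simp [sy, Prm.V, Prm.pt]) (by norm_num) (by norm_num) hr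

theorem mkel_ok (hP : P.ok) (hb : InB P b) (d n w : ℕ) {o k : ℕ} (ho : o = 224 * k) (hk : k + 4 < 49)
    (hm : ∀ i ≤ 4, m (k + i) = dl P (P.V i) z) : ELok P m z (mkel b d o n w) := by
  rw [mkel_eq]
  induction n generalizing w with
  | zero => exact ⟨fun _ => 0, convexOn_const 0 convex_univ, by simpa using Ub.zero, fun _ _ _ _ _ => Ub.zero⟩
  | succ n ih => exact pe_ok hP hb d _ ho hk hm (ih _)

/-- a combination of the four points -/
def cmb (P : Prm) (c1 c2 c3 c4 : ℝ) : ℝ × ℝ := c1 • P.V 1 + c2 • P.V 2 + c3 • P.V 3 + c4 • P.V 4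

def QMok (P : Prm) (q : QM) (x : ℝ) : Prop := Ub (mz P) 8 q.up x ∧ Ub (mz P) 8 q.dn (-x)

theorem qm2_ok (hP : P.ok) (hb : InB P b) (xp xn yp yn : ℕ) {up un vp vn wx wy : ℕ} {x y : ℝ}
    (h1 : Ub (mz P) 8 up x) (h2 : Ub (mz P) 8 un (-x)) (h3 : Ub (mz P) 8 vp y) (h4 : Ub (mz P) 8 vn (-y))
    (hx : |x| ≤ wx) (hy : |y| ≤ wy) :
    QMok P (qm2 b xp xn yp yn up un vp vn wx wy) (Qz P (xp - xn + x) (yp - yn + y)) := by
  obtain ⟨c1, c2⟩ := cross_ub hb xp xn yp yn h1 h2 h3 h4 hx hy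
  have e : ((xp + yn <<< 224 : ℕ) : ℤ) - (xn + yp <<< 224 : ℕ) = (xp - xn : ℤ) - (yp - yn : ℤ) * tt := by
    rw [shl_tt _ (k := 1) rfl, shl_tt _ (k := 1) rfl]; push_cast; ring
  have a1 : |(xp - xn : ℤ)| ≤ xp + xn := by rw [abs_le]; omega
  have a2 : |(yp - yn : ℤ)| ≤ yp + yn := by rw [abs_le]; omega
  have a3 : ((xp + xn : ℤ) + (yp + yn)) ^ 2 ≤ ((xp + xn + yp + yn) * (xp + xn + yp + yn) : ℕ) :=
    le_of_eq (by push_cast; ring)
  have o1 := osq_up (P := P) 4 e a1 a2 a3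
  have o2 := osq_dn (P := P) e a1 a2 a3
  have n0 : 0 ≤ Qz P x y := by
    have := mul_nonneg Sr_pos.le (hP.psd (x, y))
    simp only [Qf, Qz] at this ⊢
    linarith
  rw [qm2_eq, qm3_eq, sen_eq, shl_tt _ (k := 8) rfl]
  push_cast at o1 o2
  exact ⟨((o1.add c1).add (sq_ub hb hx hy)).mono (le_of_eq (by ring)), (o2.add c2).mono (by linarith)⟩

theorem qm_ok (hP : P.ok) (hb : InB P b) (p1 n1 p2 n2 p3 n3 p4 n4 : ℕ) :
    QMok P (qm b p1 n1 p2 n2 p3 n3 p4 n4)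
      (Sr * (Sr * Lf P.al P.be P.ga (cmb P (p1 - n1) (p2 - n2) (p3 - n3) (p4 - n4))) ^ 2) := by
  have bd : ∀ {x y u v : ℝ}, |x| ≤ u → |y| ≤ v →
      |(p1 - n1) * x + (p4 - n4) * y| ≤ (p1 + n1) * u + (p4 + n4) * v := fun h1 h2 => by
    have c : ∀ p n : ℕ, |(p : ℝ) - n| ≤ p + n := fun p n => by
      have := Nat.cast_nonneg (α := ℝ) p
      have := Nat.cast_nonneg (α := ℝ) n
      rw [abs_le]
      constructor <;> linarith
    exact (abs_add_le _ _).trans (add_le_add (abs_mul_le (c _ _) h1) (abs_mul_le (c _ _) h2))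
  rw [qm_eq, qm1_eq, mul_pow, ← mul_assoc, ← Qz_eq hP]
  convert qm2_ok hP hb _ _ _ _
    (x := (p1 - n1) * (mz P 4 - cb b 192) + (p4 - n4) * (mz P 5 - cb b 256))
    (y := (p1 - n1) * (mz P 7 - cb b 384) + (p4 - n4) * (mz P 6 - cb b 320))
    ((((((dp_ub 192 ub_U4).mul p1).add ((dn_ub 192 ub_N4).mul n1)).add ((dp_ub 256 ub_U5).mul p4)).add
      ((dn_ub 256 ub_N5).mul n4)).mono (le_of_eq (by ring)))
    ((((((dp_ub 192 ub_U4).mul n1).add ((dn_ub 192 ub_N4).mul p1)).add ((dp_ub 256 ub_U5).mul n4)).add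
      ((dn_ub 256 ub_N5).mul p4)).mono (le_of_eq (by ring)))
    ((((((dp_ub 384 ub_U7).mul p1).add ((dn_ub 384 ub_N7).mul n1)).add ((dp_ub 320 ub_U6).mul p4)).add
      ((dn_ub 320 ub_N6).mul n4)).mono (le_of_eq (by ring)))
    ((((((dp_ub 384 ub_U7).mul n1).add ((dn_ub 384 ub_N7).mul p1)).add ((dp_ub 320 ub_U6).mul n4)).add
      ((dn_ub 320 ub_N6).mul p4)).mono (le_of_eq (by ring)))
    (by exact_mod_cast bd (hb.ctr (k := 3) (by norm_num)) (hb.ctr (k := 4) (by norm_num)))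
    (by exact_mod_cast bd (hb.ctr (k := 6) (by norm_num)) (hb.ctr (k := 5) (by norm_num))) using 2 <;>
  rw [tsub_r] <;> simp only [cmb, mz, sx, sy, Prm.V, Prm.pt, Sr, Prod.fst_add, Prod.snd_add, Prod.smul_fst,
    Prod.smul_snd, smul_eq_mul] <;> push_cast <;> ring

theorem len_cmb {j : ℕ} (hj : j ≤ 9) : lenJ P j = Sr * Lf P.al P.be P.ga
    (cmb P (bt 112 j - bt 1 j) (bt 384 j - bt 18 j) (bt 512 j - bt 164 j) (bt 0 j - bt 840 j)) := by
  interval_cases j <;> simp only [lenJ, Prm.len, bt_eq] <;> congr 2 <;>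
    simp [cmb, Prm.V, Prm.pt, sub_eq_add_neg]

theorem qj_ok (hP : P.ok) (hb : InB P b) {j : ℕ} (hj : j ≤ 9) : QMok P (qj b j) (Sr * lenJ P j ^ 2) := by
  rw [qj_eq, len_cmb hj]
  exact qm_ok hP hb _ _ _ _ _ _ _ _

theorem fP_ub (hP : P.ok) {x y : ℕ} (hx : x < 2 ^ 14) (hy : y < 2 ^ 14) : Ub (mz P) 20 (fP x y) 0 := by
  have := (osq_up (P := P) (a := x + TK) (c := 8192 + y <<< 224) (s := 2 ^ 32) (x := x - 8192)
    (y := y - 8192) (A := 2 ^ 14) (B := 2 ^ 14) 16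
    (by rw [shl_tt _ (k := 1) rfl, show TK = 8192 * tt by decide +kernel]; push_cast; ring)
    (by rw [abs_le]; omega) (by rw [abs_le]; omega) (by norm_num)).shl 24
  rw [fP_eq, show QSP = (2 ^ 32 * tt ^ (16 + 4)) <<< 24 by decide +kernel, show 248 = 224 + 24 from rfl,
    Nat.shiftLeft_add, ← osq_eq, Nat.shiftLeft_eq _ 24, Nat.shiftLeft_eq _ 24, ← add_mul, ← Nat.shiftLeft_eq]
  refine this.mono (mul_nonneg (by positivity) ?_)
  have := mul_nonneg Sr_pos.le (hP.psd (((x - 8192 : ℤ) : ℝ), ((y - 8192 : ℤ) : ℝ)))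
  simp only [Qf, Qz] at this ⊢
  linarith

end

end Pool.Agent.Lib.MP_9d820d_co.Fast
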