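import Mathlib
import Pool.Agent.Lib.MP_9d820d_co.FEq

set_option autoImplicit false

namespace Pool.Agent.Lib.MP_9d820d_co.Fast

open Finset

noncomputable section

/-- the base of the packed vectors -/
def tt : ℕ := 2 ^ 224
def di (X k : ℕ) : ℕ := X / tt ^ k % tt
def ns (n : ℕ) (a : ℕ → ℕ) : ℕ := ∑ k ∈ range n, a k * tt ^ k
def rs (n : ℕ) (r : ℕ → ℕ) : ℕ := ∑ j ∈ range n, r j * tt ^ (n - 1 - j)
def pk (n : ℕ) (v : ℕ → ℤ) : ℤ := ∑ k ∈ range n, v k * (tt : ℤ) ^ k
def Rep (n A : ℕ) (v : ℕ → ℤ) : Prop :=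
  ∃ s : ℕ, (A : ℤ) = pk n v + s * (tt : ℤ) ^ n ∧ ∀ k < n, |v k| ≤ s
def val (m : ℕ → ℝ) (n : ℕ) (v : ℕ → ℤ) : ℝ := ∑ k ∈ range n, v k * m k
/-- A is a packed vector with value at least r -/
def Ub (m : ℕ → ℝ) (n A : ℕ) (r : ℝ) : Prop := ∃ v, Rep n A v ∧ r ≤ val m n v
/-- the digits of X are those of v shifted by 2 ^ c -/
def Bia (n c X : ℕ) (v : ℕ → ℤ) : Prop := ∀ k < n, (di X k : ℤ) = v k + 2 ^ c ∧ |v k| < 2 ^ c

theorem tt_pos : 0 < tt := by unfold tt; positivity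
theorem tt_pow (k : ℕ) : tt ^ k = 2 ^ (224 * k) := by rw [tt, ← pow_mul]
theorem di_lt (X k : ℕ) : di X k < tt := Nat.mod_lt _ tt_pos

theorem testBit_di (X k i : ℕ) : (di X k).testBit i = (decide (i < 224) && X.testBit (i + 224 * k)) := by
  rw [di, tt_pow, tt, Nat.testBit_mod_two_pow, Nat.testBit_div_two_pow]

theorem di_land (X Y k : ℕ) : di (X &&& Y) k = di X k &&& di Y k := by
  apply Nat.eq_of_testBit_eq
  intro i
  simp only [testBit_di, Nat.testBit_and]
  cases decide (i < 224) <;> simp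

theorem di_xor (X Y k : ℕ) : di (X ^^^ Y) k = di X k ^^^ di Y k := by
  apply Nat.eq_of_testBit_eq
  intro i
  simp only [testBit_di, Nat.testBit_xor]
  cases decide (i < 224) <;> simp

theorem di_shr (X j k : ℕ) : di (X >>> (224 * j)) k = di X (j + k) := by
  apply Nat.eq_of_testBit_eq
  intro i
  simp only [testBit_di, Nat.testBit_shiftRight]
  congr 2
  ring

theorem ns_succ (n : ℕ) (a : ℕ → ℕ) : ns (n + 1) a = ns n a + a n * tt ^ n := sum_range_succ _ _

theorem ns_congr {n : ℕ} {a b : ℕ → ℕ} (h : ∀ k < n, a k = b k) : ns n a = ns n b :=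
  sum_congr rfl fun k hk => by rw [h k (mem_range.1 hk)]

theorem ns_lt {n : ℕ} {a : ℕ → ℕ} (h : ∀ k < n, a k < tt) : ns n a < tt ^ n := by
  induction n with
  | zero => simp [ns]
  | succ n ih =>
    have h1 := ih fun k hk => h k (by omega)
    have h2 : (a n + 1) * tt ^ n ≤ tt * tt ^ n := Nat.mul_le_mul_right _ (h n (by omega))
    rw [ns_succ, pow_succ]
    linarith

theorem mod_ns (X n : ℕ) : X % tt ^ n = ns n (di X) := by
  induction n with
  | zero => simp [ns, Nat.mod_one]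
  | succ n ih => rw [ns_succ, Nat.mod_pow_succ, ih, di, mul_comm]

theorem eq_ns (X n : ℕ) : X = ns n (di X) + X / tt ^ n * tt ^ n := by
  rw [← mod_ns, Nat.mod_add_div']

theorem eq_ns_of_lt {X n : ℕ} (h : X < tt ^ n) : X = ns n (di X) := by
  rw [← mod_ns, Nat.mod_eq_of_lt h]

theorem div_ns {n : ℕ} {a : ℕ → ℕ} (h : ∀ k < n, a k < tt) (s : ℕ) :
    (ns n a + s * tt ^ n) / tt ^ n = s := by
  rw [Nat.add_mul_div_right _ _ (pow_pos tt_pos n), Nat.div_eq_of_lt (ns_lt h), zero_add]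

theorem di_ns {n : ℕ} {a : ℕ → ℕ} (h : ∀ k < n, a k < tt) (s : ℕ) {k : ℕ} (hk : k < n) :
    di (ns n a + s * tt ^ n) k = a k := by
  induction n generalizing s with
  | zero => omega
  | succ n ih =>
    have e : ns (n + 1) a + s * tt ^ (n + 1) = ns n a + (a n + s * tt) * tt ^ n := by
      rw [ns_succ]; ring
    rw [e]
    rcases Nat.lt_succ_iff_lt_or_eq.1 hk with hk | rfl
    · exact ih (fun k hk => h k (by omega)) _ hk
    · rw [di, div_ns (fun k hk => h k (by omega)), Nat.add_mul_mod_self_right,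
        Nat.mod_eq_of_lt (h k hk)]

theorem di_ns0 {n : ℕ} {a : ℕ → ℕ} (h : ∀ k < n, a k < tt) {k : ℕ} (hk : k < n) :
    di (ns n a) k = a k := by
  simpa using di_ns h 0 hk

theorem land_ns (X : ℕ) {n : ℕ} {a : ℕ → ℕ} (h : ∀ k < n, a k < tt) :
    X &&& ns n a = ns n (fun k => di X k &&& a k) := by
  rw [eq_ns_of_lt (lt_of_le_of_lt Nat.and_le_right (ns_lt h) : X &&& ns n a < tt ^ n)]
  exact ns_congr fun k hk => by rw [di_land, di_ns0 h hk]

theorem ns_mul (n : ℕ) (a : ℕ → ℕ) (c : ℕ) : ns n a * c = ns n (fun k => a k * c) := by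
  unfold ns
  rw [sum_mul]
  exact sum_congr rfl fun k _ => by ring

theorem ns_cast (n : ℕ) (a : ℕ → ℕ) : (ns n a : ℤ) = pk n (fun k => a k) := by
  simp [ns, pk]

theorem two_pow_lt_tt {c : ℕ} (h : c < 224) : 2 ^ c < tt := Nat.pow_lt_pow_right (by norm_num) h

theorem posp (X n : ℕ) {c : ℕ} (hc : c < 224) :
    X &&& (((X >>> c) &&& ns n (fun _ => 1)) * (2 ^ c - 1)) =
      ns n (fun k => if (di X k).testBit c then di X k % 2 ^ c else 0) := by
  have h1 : 1 < tt := two_pow_lt_tt (c := 0) (by norm_num)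
  have h2 := two_pow_lt_tt hc
  have e : ∀ k, di (X >>> c) k &&& 1 = if (di X k).testBit c then 1 else 0 := fun k => by
    have : (di (X >>> c) k).testBit 0 = (di X k).testBit c := by
      simp only [testBit_di, Nat.testBit_shiftRight, hc, decide_true, Bool.true_and, zero_add]
      simp
    rw [← this, Nat.and_one_is_mod, Nat.testBit_zero]
    rcases Nat.mod_two_eq_zero_or_one (di (X >>> c) k) with h | h <;> simp [h]
  rw [land_ns _ (fun _ _ => h1), ns_mul, land_ns]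
  · refine ns_congr fun k _ => ?_
    rw [e]
    split_ifs
    · rw [one_mul, Nat.and_two_pow_sub_one_eq_mod]
    · simp
  · intro k _
    rw [e]
    split_ifs <;> omega

theorem conv {n : ℕ} {a r : ℕ → ℕ} {Ma Mr : ℕ} (s : ℕ) (ha : ∀ k < n, a k ≤ Ma) (hr : ∀ k < n, r k ≤ Mr) :
    ∃ S H, (ns n a + s * tt ^ n) * rs n r = S + H * tt ^ n ∧
      (∑ k ∈ range n, a k * r k) * tt ^ (n - 1) ≤ S ∧ S ≤ n * n * (Ma * Mr) * tt ^ (n - 1) := by
  refine ⟨∑ k ∈ range n, ∑ j ∈ range n, if k ≤ j then a k * r j * tt ^ (k + (n - 1 - j)) else 0,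
    (∑ k ∈ range n, ∑ j ∈ range n, if k ≤ j then 0 else a k * r j * tt ^ (k - j - 1)) + s * rs n r, ?_, ?_, ?_⟩
  · rw [add_mul, add_mul, ← add_assoc]
    congr 1
    · rw [ns, rs, sum_mul_sum, sum_mul, ← sum_add_distrib]
      refine sum_congr rfl fun k _ => ?_
      rw [sum_mul, ← sum_add_distrib]
      refine sum_congr rfl fun j hj => ?_
      rw [mem_range] at hj
      split_ifs with h
      · rw [pow_add]; ring
      · have : k + (n - 1 - j) = k - j - 1 + n := by omega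
        rw [zero_add, mul_assoc _ _ (tt ^ n), ← pow_add, ← this, pow_add]
        ring
    · ring
  · rw [sum_mul]
    refine sum_le_sum fun k hk => ?_
    refine le_trans (le_of_eq ?_) (single_le_sum (f := fun j => if k ≤ j then
      a k * r j * tt ^ (k + (n - 1 - j)) else 0) (fun _ _ => Nat.zero_le _) hk)
    rw [mem_range] at hk
    rw [if_pos le_rfl, show k + (n - 1 - k) = n - 1 by omega]
  · have : ∀ k ∈ range n, (∑ j ∈ range n, if k ≤ j then a k * r j * tt ^ (k + (n - 1 - j)) else 0) ≤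
        n * (Ma * Mr * tt ^ (n - 1)) := fun k hk => by
      refine (sum_le_card_nsmul _ _ (Ma * Mr * tt ^ (n - 1)) fun j hj => ?_).trans (by simp)
      rw [mem_range] at hk hj
      split_ifs with h
      · exact Nat.mul_le_mul (Nat.mul_le_mul (ha k hk) (hr j hj)) (Nat.pow_le_pow_right tt_pos (by omega))
      · exact Nat.zero_le _
    refine (sum_le_card_nsmul _ _ _ this).trans (le_of_eq ?_)
    simp only [card_range, smul_eq_mul]
    ring

theorem Bia.pos {n c X : ℕ} {v : ℕ → ℤ} (h : Bia n c X v) {k : ℕ} (hk : k < n) :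
    (((if (di X k).testBit c then di X k % 2 ^ c else 0 : ℕ) : ℤ)) = max (v k) 0 := by
  obtain ⟨h1, h2⟩ := h k hk
  have h3 := abs_lt.1 h2
  have e : ((2 ^ c : ℕ) : ℤ) = 2 ^ c := by push_cast; rfl
  rcases lt_or_ge (v k) 0 with h4 | h4
  · rw [Nat.testBit_lt_two_pow (by omega), max_eq_right h4.le]
    simp
  · obtain ⟨u, hu⟩ : ∃ u, di X k = 2 ^ c + u := ⟨di X k - 2 ^ c, by omega⟩
    have hu2 : u < 2 ^ c := by omega
    rw [hu, Nat.testBit_two_pow_add_eq, Nat.testBit_lt_two_pow hu2, max_eq_left h4, Nat.add_mod_left,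
      Nat.mod_eq_of_lt hu2]
    simp only [Bool.not_false, if_true]
    omega

theorem bound_gen {n c X Mr Mw : ℕ} {v : ℕ → ℤ} {r w : ℕ → ℕ} {m : ℕ → ℝ} (hn : 0 < n) (hc : c < 224)
    (hX : Bia n c X v) (hr : ∀ k < n, r k ≤ Mr) (hw : ∀ k < n, w k ≤ Mw)
    (hm : ∀ k < n, (r k : ℝ) ≤ m k ∧ m k ≤ r k + w k)
    (hs : n * n * (2 ^ (c + 1) * Mr) + n * n * (2 ^ c * Mw) < tt) :
    ∃ D : ℕ, D * tt ^ (n - 1) ≤
        (X * rs n r + (X &&& (((X >>> c) &&& ns n (fun _ => 1)) * (2 ^ c - 1))) * rs n w) % tt ^ n ∧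
      val m n v ≤ D - 2 ^ c * ∑ k ∈ range n, (r k : ℝ) := by
  have e : ((2 ^ c : ℕ) : ℤ) = 2 ^ c := by push_cast; rfl
  obtain ⟨S1, H1, e1, a1, b1⟩ := conv (a := di X) (Ma := 2 ^ (c + 1)) (X / tt ^ n) (fun k hk => by
    have := hX k hk
    have h3 := abs_lt.1 this.2
    rw [pow_succ]
    omega) hr
  rw [posp X n hc]
  set p : ℕ → ℕ := fun k => if (di X k).testBit c then di X k % 2 ^ c else 0 with hp
  obtain ⟨S2, H2, e2, a2, b2⟩ := conv (a := p) (Ma := 2 ^ c) 0 (fun k hk => by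
    simp only [hp]
    split_ifs
    · exact (Nat.mod_lt _ (by positivity)).le
    · exact Nat.zero_le _) hw
  rw [← eq_ns] at e1
  rw [zero_mul, add_zero] at e2
  refine ⟨∑ k ∈ range n, di X k * r k + ∑ k ∈ range n, p k * w k, ?_, ?_⟩
  · have lt : S1 + S2 < tt ^ n := by
      have : tt ^ n = tt * tt ^ (n - 1) := by rw [← pow_succ']; congr 1; omega
      have h2 := Nat.mul_lt_mul_of_pos_right (k := tt ^ (n - 1)) hs (pow_pos tt_pos _)
      rw [this]
      linarith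
    rw [e1, e2, show S1 + H1 * tt ^ n + (S2 + H2 * tt ^ n) = S1 + S2 + (H1 + H2) * tt ^ n by ring,
      Nat.add_mul_mod_self_right, Nat.mod_eq_of_lt lt]
    linarith
  · push_cast
    rw [val, mul_sum, ← sum_add_distrib, ← sum_sub_distrib]
    refine sum_le_sum fun k hk => ?_
    rw [mem_range] at hk
    have h1 : (di X k : ℝ) = v k + 2 ^ c := by exact_mod_cast (hX k hk).1
    have h2 : (p k : ℝ) = max (v k : ℝ) 0 := by exact_mod_cast hX.pos hk
    obtain ⟨h3, h4⟩ := hm k hk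
    rw [h1, h2]
    rcases le_total (v k : ℝ) 0 with h | h
    · rw [max_eq_right h]; nlinarith
    · rw [max_eq_left h]; nlinarith

end

end Pool.Agent.Lib.MP_9d820d_co.Fast
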