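import Pool.Agent.Lib.MP_9d820d_co.FRep

set_option autoImplicit false
set_option exponentiation.threshold 20000

namespace Pool.Agent.Lib.MP_9d820d_co.Fast

open Finset

noncomputable section

def on (n : ℕ) : ℕ := ns n (fun _ => 1)
/-- the packed vector with digit c at the places of the mask I -/
def msk (n I c : ℕ) : ℕ := ns n (fun k => if I.testBit k then c else 0)

theorem brz_le {a b x y : ℕ} (h : Bool.rec (motive := fun _ => ℕ) a b (Nat.ble x y) = 0) :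
    (y < x ∧ a = 0) ∨ (x ≤ y ∧ b = 0) := by
  cases e : Nat.ble x y
  · rw [e] at h
    refine .inl ⟨?_, h⟩
    by_contra hn
    rw [Nat.ble_eq_true_of_le (not_lt.1 hn)] at e
    cases e
  · rw [e] at h
    exact .inr ⟨Nat.le_of_ble_eq_true e, h⟩

theorem brz_eq {a b x y : ℕ} (h : Bool.rec (motive := fun _ => ℕ) a b (Nat.beq x y) = 0) :
    (x ≠ y ∧ a = 0) ∨ (x = y ∧ b = 0) := by
  cases e : Nat.beq x y
  · rw [e] at h
    exact .inl ⟨Nat.ne_of_beq_eq_false e, h⟩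
  · rw [e] at h
    exact .inr ⟨Nat.eq_of_beq_eq_true e, h⟩

theorem shr_zero {a c : ℕ} (h : a >>> c = 0) : a < 2 ^ c := by
  rw [Nat.shiftRight_eq_div_pow] at h
  exact (Nat.div_eq_zero_iff_lt (by positivity)).1 h

theorem shr_tt {a c n e : ℕ} (h : a >>> e = 0) (he : e = c + 224 * n) : a < 2 ^ c * tt ^ n := by
  rw [tt_pow, ← pow_add, ← he]
  exact shr_zero h

theorem shl_tt (a : ℕ) {e k : ℕ} (he : e = 224 * k) : a <<< e = a * tt ^ k := by
  rw [Nat.shiftLeft_eq, tt_pow, he]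

theorem di_mod (X k : ℕ) : di X k % 2 ^ 224 = di X k := Nat.mod_eq_of_lt (di_lt X k)

theorem MT_eq : MT = 2 ^ 224 - 1 := by decide +kernel

theorem dg_di (a : ℕ) {o k : ℕ} (h : o = 224 * k) : dg a o = di a k := by
  rw [dg_eq, MT_eq, Nat.and_two_pow_sub_one_eq_mod, Nat.shiftRight_eq_div_pow, h, di, tt_pow, tt]

theorem pk_add (n : ℕ) (u v : ℕ → ℤ) : pk n (fun k => u k + v k) = pk n u + pk n v := by
  simp [pk, add_mul, sum_add_distrib]

theorem pk_mul (n : ℕ) (c : ℤ) (v : ℕ → ℤ) : pk n (fun k => c * v k) = c * pk n v := by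
  simp [pk, mul_sum, mul_assoc]

theorem pk_congr {n : ℕ} {u v : ℕ → ℤ} (h : ∀ k < n, u k = v k) : pk n u = pk n v :=
  sum_congr rfl fun k hk => by rw [h k (mem_range.1 hk)]

theorem pk_single {n k : ℕ} (hk : k < n) (c : ℤ) :
    pk n (fun j => if j = k then c else 0) = c * (tt : ℤ) ^ k := by
  simp [pk, hk]

theorem on_cast (n : ℕ) : (on n : ℤ) = pk n (fun _ => 1) := by rw [on, ns_cast]; rfl

theorem two_on (n : ℕ) : on n * (tt - 1) < tt ^ n := by
  rw [on, ns_mul]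
  exact ns_lt fun _ _ => by have := tt_pos; omega

theorem pk_abs {n : ℕ} {v : ℕ → ℤ} {s : ℤ} (h : ∀ k < n, |v k| ≤ s) : |pk n v| ≤ s * on n := by
  rw [on_cast, ← pk_mul]
  refine (abs_sum_le_sum_abs _ _).trans (sum_le_sum fun k hk => ?_)
  rw [abs_mul, mul_one, abs_of_nonneg (a := (tt : ℤ) ^ k) (by positivity)]
  exact mul_le_mul_of_nonneg_right (h k (mem_range.1 hk)) (by positivity)

theorem tt_big : 2 ^ 223 ≤ tt - 1 := by decide +kernel

theorem Rep.sen {n A c : ℕ} {v : ℕ → ℤ} {s : ℕ} (e : (A : ℤ) = pk n v + s * (tt : ℤ) ^ n)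
    (h : ∀ k < n, |v k| ≤ s) (hA : A < 2 ^ c * tt ^ n) : s < 2 ^ (c + 1) := by
  have h1 := (abs_le.1 (pk_abs h)).1
  have h2 : on n * 2 ≤ tt ^ n := le_trans (Nat.mul_le_mul_left _ (le_trans (by norm_num) tt_big)) (two_on n).le
  by_contra hn
  have h3 : 2 ^ c * 2 ≤ s := by rw [← pow_succ]; omega
  have h4 : (A : ℤ) < 2 ^ c * (tt : ℤ) ^ n := by exact_mod_cast hA
  have h5 : (on n : ℤ) * 2 ≤ (tt : ℤ) ^ n := by exact_mod_cast h2
  have h6 : (2 : ℤ) ^ c * 2 ≤ s := by exact_mod_cast h3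
  have h7 : (0 : ℤ) ≤ s := by positivity
  have h8 : (0 : ℤ) < (tt : ℤ) ^ n := by have := tt_pos; positivity
  nlinarith [mul_le_mul_of_nonneg_left h5 h7, mul_le_mul_of_nonneg_right h6 h8.le]

theorem digits_of {n X s : ℕ} {a : ℕ → ℤ} (e : (X : ℤ) = pk n a + s * (tt : ℤ) ^ n)
    (h : ∀ k < n, 0 ≤ a k ∧ a k < tt) : X / tt ^ n = s ∧ ∀ k < n, (di X k : ℤ) = a k := by
  have hl : ∀ k < n, (a k).toNat < tt := fun k hk => by have := h k hk; omega
  have e2 : X = ns n (fun k => (a k).toNat) + s * tt ^ n := by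
    have : pk n a = pk n (fun k => ((a k).toNat : ℤ)) :=
      pk_congr fun k hk => (Int.toNat_of_nonneg (h k hk).1).symm
    zify
    rw [e, this, ns_cast]
  refine ⟨by rw [e2, div_ns hl], fun k hk => ?_⟩
  rw [e2, di_ns hl _ hk, Int.toNat_of_nonneg (h k hk).1]

theorem Bia.mk' {n c X s : ℕ} {v : ℕ → ℤ} (hc : c < 223)
    (e : (X : ℤ) = pk n v + 2 ^ c * on n + s * (tt : ℤ) ^ n) (h : ∀ k < n, |v k| < 2 ^ c) : Bia n c X v := by
  have h2 : ((2 ^ (c + 1) : ℕ) : ℤ) < tt := by exact_mod_cast two_pow_lt_tt (by omega)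
  push_cast at h2
  rw [pow_succ] at h2
  have := (digits_of (X := X) (s := s) (a := fun k => v k + 2 ^ c * 1)
    (by rw [pk_add, pk_mul, ← on_cast, e]) (fun k hk => by
      have := abs_lt.1 (h k hk)
      constructor <;> linarith)).2
  exact fun k hk => ⟨by rw [this k hk, mul_one], h k hk⟩

theorem Bia.mod {n c X : ℕ} {v : ℕ → ℤ} (h : Bia n c X v) {l : ℕ} (hl : l ≤ n) :
    ((X % tt ^ l : ℕ) : ℤ) = pk l v + 2 ^ c * on l := by
  rw [mod_ns, ns_cast, on_cast, ← pk_mul, ← pk_add]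
  exact pk_congr fun k hk => by rw [(h k (by omega)).1, mul_one]

theorem Bia.shr {n c X : ℕ} {v : ℕ → ℤ} (h : Bia n c X v) {j l : ℕ} (hl : j + l ≤ n) :
    Bia l c (X >>> (224 * j)) (fun k => v (j + k)) := fun k hk => by
  rw [di_shr]
  exact h _ (by omega)

theorem Bia.zero {n c X I : ℕ} {v : ℕ → ℤ} (h : Bia n c X v) (hc : c < 224)
    (z : (X ^^^ 2 ^ c * on n) &&& msk n I (tt - 1) = 0) {k : ℕ} (hk : k < n) (hI : I.testBit k = true) :
    v k = 0 := by
  have t0 := tt_pos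
  have h1 := congrArg (fun Y => di Y k) z
  have h2 : di (msk n I (tt - 1)) k = 2 ^ 224 - 1 := by
    rw [msk, di_ns0 (fun k _ => by split_ifs <;> omega) hk, if_pos hI, tt]
  have h3 : di (2 ^ c * on n) k = 2 ^ c := by
    rw [mul_comm, on, ns_mul, di_ns0 (fun _ _ => by rw [one_mul]; exact two_pow_lt_tt hc) hk, one_mul]
  simp only [di_land, h2, Nat.and_two_pow_sub_one_eq_mod] at h1
  rw [di_mod, di_xor, h3] at h1
  have h4 : di X k = 2 ^ c := Nat.xor_eq_zero_iff.1 (h1.trans (by simp [di]))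
  have h5 := (h k hk).1
  rw [h4] at h5
  push_cast at h5
  linarith

variable {m : ℕ → ℝ} {n A B : ℕ} {r q : ℝ}

theorem val_add (u v : ℕ → ℤ) : val m n (fun k => u k + v k) = val m n u + val m n v := by
  simp [val, add_mul, sum_add_distrib]

theorem val_mul (c : ℤ) (v : ℕ → ℤ) : val m n (fun k => c * v k) = c * val m n v := by
  simp [val, mul_sum, mul_assoc]

theorem val_single {k : ℕ} (hk : k < n) (c : ℤ) : val m n (fun j => if j = k then c else 0) = c * m k := by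
  rw [val, sum_eq_single k] <;> simp +contextual [hk]

theorem Ub.mono (h : Ub m n A r) (hq : q ≤ r) : Ub m n A q := by
  obtain ⟨v, h1, h2⟩ := h
  exact ⟨v, h1, hq.trans h2⟩

theorem Ub.zero : Ub m n 0 0 := ⟨fun _ => 0, ⟨0, by simp [pk], by simp⟩, by simp [val]⟩

theorem Ub.add (h : Ub m n A r) (g : Ub m n B q) : Ub m n (A + B) (r + q) := by
  obtain ⟨u, ⟨s, e1, b1⟩, h⟩ := h
  obtain ⟨v, ⟨s', e2, b2⟩, g⟩ := g
  refine ⟨fun k => u k + v k, ⟨s + s', ?_, fun k hk => ?_⟩, by rw [val_add]; linarith⟩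
  · push_cast
    rw [pk_add, e1, e2]
    ring
  · push_cast
    exact (abs_add_le _ _).trans (add_le_add (b1 k hk) (b2 k hk))

theorem Ub.mul (c : ℕ) (h : Ub m n A r) : Ub m n (c * A) (c * r) := by
  obtain ⟨u, ⟨s, e1, b1⟩, h⟩ := h
  refine ⟨fun k => c * u k, ⟨c * s, ?_, fun k hk => ?_⟩, ?_⟩
  · push_cast
    rw [pk_mul, e1]
    ring
  · push_cast
    rw [abs_mul, Nat.abs_cast]
    exact mul_le_mul_of_nonneg_left (b1 k hk) (by positivity)
  · rw [val_mul]
    exact mul_le_mul_of_nonneg_left h (by positivity)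

theorem Ub.shl (c : ℕ) (h : Ub m n A r) : Ub m n (A <<< c) (2 ^ c * r) := by
  have := h.mul (2 ^ c)
  rw [Nat.shiftLeft_eq, mul_comm]
  exact_mod_cast this

theorem Ub.nn (c : ℕ) (h : Ub m n A 0) : Ub m n (c * A) 0 := by simpa using h.mul c
theorem Ub.add0 (h : Ub m n A 0) (g : Ub m n B 0) : Ub m n (A + B) 0 := by simpa using h.add g

theorem Ub.diff {P Q s : ℕ} {v : ℕ → ℤ} (e : (P : ℤ) - Q = pk n v + s * (tt : ℤ) ^ n)
    (h : ∀ k < n, |v k| ≤ s) : Ub m n (P - Q) (val m n v) := by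
  have h1 := (abs_le.1 (pk_abs h)).1
  have h2 : on n * 1 ≤ tt ^ n :=
    le_trans (Nat.mul_le_mul_left _ (le_trans Nat.one_le_two_pow tt_big)) (two_on n).le
  have h5 : (on n : ℤ) * 1 ≤ (tt : ℤ) ^ n := by exact_mod_cast h2
  have h7 : (0 : ℤ) ≤ s := by positivity
  have h8 : Q ≤ P := by nlinarith [mul_le_mul_of_nonneg_left h5 h7]
  exact ⟨v, ⟨s, by rw [Nat.cast_sub h8, e], h⟩, le_rfl⟩

theorem Ub.up {k : ℕ} (hk : k < n) : Ub m n (tt ^ n + tt ^ k) (m k) :=
  ⟨fun j => if j = k then 1 else 0, ⟨1, by rw [pk_single hk]; push_cast; ring, fun j _ => by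
    dsimp only; split_ifs <;> simp⟩, by rw [val_single hk]; simp⟩

theorem Ub.un {k : ℕ} (hk : k < n) : Ub m n (tt ^ n - tt ^ k) (-m k) := by
  have := Ub.diff (m := m) (n := n) (P := tt ^ n) (Q := tt ^ k) (s := 1) (v := fun j => if j = k then -1 else 0)
    (by rw [pk_single hk]; push_cast; ring) (fun j _ => by split_ifs <;> simp)
  rw [val_single hk] at this
  simpa using this

theorem Ub.bia {b c : ℕ} (h : Ub m n A r) (hc : c < b) (hb : b < 223) (hA : A < 2 ^ c * tt ^ n) :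
    ∃ v, Bia n b (A + 2 ^ b * on n) v ∧ (∀ k < n, |v k| < 2 ^ (c + 1)) ∧ r ≤ val m n v := by
  obtain ⟨v, ⟨s, e, h1⟩, h⟩ := h
  have h2 : (s : ℤ) < 2 ^ (c + 1) := by exact_mod_cast Rep.sen e h1 hA
  have h3 : ∀ k < n, |v k| < 2 ^ (c + 1) := fun k hk => (h1 k hk).trans_lt h2
  refine ⟨v, Bia.mk' (s := s) hb (by push_cast; rw [e]; ring) fun k hk => (h3 k hk).trans_le ?_, h3, h⟩
  exact pow_le_pow_right₀ (by norm_num) hc

/-- the low digits of a biased vector plus a small vector -/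
theorem Bia.addUb {N X c : ℕ} {v : ℕ → ℤ} (h : Bia N (c + 2) X v) (hn : n ≤ N) (hc : c + 2 < 223)
    (hv : ∀ k < N, |v k| < 2 ^ (c + 1)) (g : Ub m n A r) (hA : A < 2 ^ c * tt ^ n) :
    ∃ u, Bia n (c + 2) (X % tt ^ n + A) u ∧ val m n v + r ≤ val m n u := by
  obtain ⟨u, ⟨s, e, h1⟩, g⟩ := g
  have h2 : (s : ℤ) < 2 ^ (c + 1) := by exact_mod_cast Rep.sen e h1 hA
  refine ⟨fun k => v k + u k, Bia.mk' (s := s) hc ?_ fun k hk => ?_, by rw [val_add]; linarith⟩
  · rw [Nat.cast_add, h.mod hn, e, pk_add]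
    ring
  · have := abs_add_le (v k) (u k)
    have := hv k (by omega)
    have := h1 k hk
    rw [pow_succ]
    linarith

theorem Bia.win {N X c j I C : ℕ} {v : ℕ → ℤ} (h : Bia N c X v) (hj : j + n ≤ N)
    (hC : C + msk n I (2 ^ c) = 2 ^ c * tt ^ n) :
    Ub m n (((X >>> (224 * j)) &&& msk n I (tt - 1)) + C)
      (val m n fun k => if I.testBit k then v (j + k) else 0) := by
  have t0 := tt_pos
  refine ⟨_, ⟨2 ^ c, ?_, fun k hk => ?_⟩, le_rfl⟩
  · have e : (C : ℤ) = 2 ^ c * (tt : ℤ) ^ n - msk n I (2 ^ c) := by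
      have : ((C + msk n I (2 ^ c) : ℕ) : ℤ) = ((2 ^ c * tt ^ n : ℕ) : ℤ) := by rw [hC]
      push_cast at this
      linarith
    rw [msk, land_ns _ (fun k _ => by split_ifs <;> omega), Nat.cast_add, e, msk, ns_cast, ns_cast]
    have : pk n (fun k => ((di (X >>> (224 * j)) k &&& if I.testBit k then tt - 1 else 0 : ℕ) : ℤ)) =
        pk n (fun k => (if I.testBit k then v (j + k) else 0) +
          ((if I.testBit k then 2 ^ c else 0 : ℕ) : ℤ)) := pk_congr fun k hk => by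
      split_ifs
      · rw [tt, Nat.and_two_pow_sub_one_eq_mod, di_mod, (h.shr hj k hk).1]
        push_cast
        rfl
      · simp
    rw [this, pk_add]
    push_cast
    ring
  · split_ifs
    · exact_mod_cast (h _ (by omega)).2.le
    · simp

theorem T20_eq : T20 = tt ^ 20 := by decide +kernel
theorem LFT_eq : LFT + tt ^ 8 = tt ^ 20 := by decide +kernel

theorem Ub.lift (h : Ub m 8 A r) (m8 : 0 ≤ m 8) (hA : lift A < 2 ^ 199 * tt ^ 20) : Ub m 20 (lift A) r := by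
  obtain ⟨v, ⟨s, e, h1⟩, h⟩ := h
  have e1 : A >>> 1792 = A / tt ^ 8 := by rw [Nat.shiftRight_eq_div_pow, tt_pow]
  rw [lift_eq, e1] at hA ⊢
  have t8 := pow_pos tt_pos 8
  have b1 : A / tt ^ 8 < 2 ^ 200 := by
    by_contra hn
    have h2 : 2 ^ 200 * LFT ≤ A / tt ^ 8 * LFT := Nat.mul_le_mul_right _ (not_lt.1 hn)
    have h3 : 2 ^ 199 * tt ^ 20 ≤ 2 ^ 200 * LFT := by decide +kernel
    omega
  have b2 : s < 2 ^ 201 := Rep.sen e h1 ((Nat.div_lt_iff_lt_mul t8).1 b1)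
  have b3 : (s : ℤ) * on 8 < (tt : ℤ) ^ 8 := by
    have : s * on 8 < tt ^ 8 := lt_of_le_of_lt (Nat.mul_le_mul_right _ b2.le) (by decide +kernel)
    exact_mod_cast this
  have b4 := abs_le.1 (pk_abs h1)
  have b5 : A / tt ^ 8 < s + 1 := (Nat.div_lt_iff_lt_mul t8).2 (by zify; rw [e]; linarith)
  have b6 : s - 1 ≤ A / tt ^ 8 := (Nat.le_div_iff_mul_le t8).2 (by
    rcases Nat.eq_zero_or_pos s with rfl | h0
    · simp
    · zify [show 1 ≤ s from h0]; rw [e]; linarith)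
  generalize A / tt ^ 8 = a at *
  have e2 : (LFT : ℤ) = (tt : ℤ) ^ 20 - (tt : ℤ) ^ 8 := by
    have : ((LFT + tt ^ 8 : ℕ) : ℤ) = ((tt ^ 20 : ℕ) : ℤ) := by rw [LFT_eq]
    push_cast at this
    linarith
  refine ⟨fun k => if k < 8 then v k else if k = 8 then s - a else 0, ⟨a + 1, ?_, fun k hk => ?_⟩, ?_⟩
  · rw [T20_eq]
    push_cast
    rw [e, e2]
    simp [pk, sum_range_succ]
    ring
  · dsimp only
    split_ifs with h2 h3
    · have := h1 k h2
      omega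
    · rw [abs_le]; omega
    · positivity
  · refine h.trans ?_
    have : (0 : ℝ) ≤ (s - a) * m 8 := mul_nonneg (by rw [sub_nonneg]; exact_mod_cast (by omega : a ≤ s)) m8
    simp [val, sum_range_succ] at this ⊢
    linarith

theorem BI3_eq : BI3 = (2 ^ 200 + (2 ^ 68 - 1)) * on 20 := by decide +kernel
theorem RM_eq : RM = ns 20 (fun _ => 2 ^ 156 - 1) := by decide +kernel
theorem RB_eq : RB = 2 ^ 132 * on 20 := by decide +kernel

theorem Ub.rnd (h : Ub m 20 A 0) (hm : ∀ k < 20, 0 ≤ m k) (hA : A < 2 ^ 199 * tt ^ 20) :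
    Ub m 20 (rnd (A + BI3)) 0 := by
  obtain ⟨v, ⟨s, e, h1⟩, h⟩ := h
  have h2 : (s : ℤ) < 2 ^ 200 := by exact_mod_cast Rep.sen e h1 hA
  have t1 : (tt : ℤ) = 2 ^ 224 := by rw [tt]; norm_num
  obtain ⟨d1, d2⟩ := digits_of (X := A + BI3) (s := s) (n := 20)
    (a := fun k => v k + (2 ^ 200 + (2 ^ 68 - 1)) * 1) (by
      rw [pk_add, pk_mul, ← on_cast, BI3_eq]; push_cast; rw [e]; ring) (fun k hk => by
      have := abs_le.1 (h1 k hk)
      rw [t1]
      constructor <;> omega)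
  generalize A + BI3 = x at *
  have e1 : x >>> 4548 = s / 2 ^ 68 := by
    rw [← d1, Nat.div_div_eq_div_mul, tt_pow, ← pow_add, Nat.shiftRight_eq_div_pow]
  have e2 : ∀ k, di (x >>> 68) k &&& 2 ^ 156 - 1 = di x k / 2 ^ 68 := fun k => by
    apply Nat.eq_of_testBit_eq
    intro i
    simp only [Nat.testBit_and, testBit_di, Nat.testBit_two_pow_sub_one, Nat.testBit_div_two_pow,
      Nat.testBit_shiftRight]
    rw [show 68 + (i + 224 * k) = i + 68 + 224 * k by ring]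
    by_cases hi : i < 156
    · simp [hi, show i < 224 by omega, show i + 68 < 224 by omega]
    · simp [hi, show ¬ i + 68 < 224 by omega]
  rw [rnd_eq, e1, RM_eq, land_ns _ (fun _ _ => lt_of_le_of_lt (Nat.sub_le _ _) (two_pow_lt_tt (by norm_num)))]
  simp only [e2]
  refine (Ub.diff (v := fun k => ((di x k / 2 ^ 68 : ℕ) : ℤ) + -2 ^ 132 * 1) (s := s / 2 ^ 68 + 2) ?_
    fun k hk => ?_).mono ?_
  · rw [pk_add, pk_mul, ← on_cast, RB_eq, T20_eq, Nat.cast_add, ns_cast]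
    push_cast
    ring
  · have := abs_le.1 (h1 k hk)
    have := d2 k hk
    rw [abs_le]
    omega
  · have : val m 20 v ≤ 2 ^ 68 * val m 20 (fun k => ((di x k / 2 ^ 68 : ℕ) : ℤ) + -2 ^ 132 * 1) := by
      rw [val, val, mul_sum]
      refine sum_le_sum fun k hk => ?_
      rw [mem_range] at hk
      rw [← mul_assoc]
      refine mul_le_mul_of_nonneg_right ?_ (hm k hk)
      have := d2 k hk
      have : v k ≤ 2 ^ 68 * (((di x k / 2 ^ 68 : ℕ) : ℤ) + -2 ^ 132 * 1) := by omega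
      exact_mod_cast this
    exact (mul_nonneg_iff_of_pos_left (by positivity)).1 (h.trans this)

end

end Pool.Agent.Lib.MP_9d820d_co.Fast
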