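import Pool.Agent.Lib.MP_9d820d_co.Sound
import Pool.Agent.Lib.MP_9d820d_co.FUb

set_option autoImplicit false
set_option exponentiation.threshold 20000

namespace Pool.Agent.Lib.MP_9d820d_co.Fast

open Finset

noncomputable section

/-- scaled and shifted coordinates -/
def sx (z : ℝ × ℝ) : ℝ := Sr * z.1 + 67108848
def sy (z : ℝ × ℝ) : ℝ := Sr * z.2 + 67108848
/-- the point with scaled and shifted coordinates x y -/
def vp (x y : ℕ) : ℝ × ℝ := (((x : ℝ) - 67108848) / Sr, ((y : ℝ) - 67108848) / Sr)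
def dl (P : Prm) (a z : ℝ × ℝ) : ℝ := Sr * Lf P.al P.be P.ga (a - z)

/-- the monomials of the low digits -/
def mz (P : Prm) : ℕ → ℝ
  | 0 => 1
  | 1 => Sr * P.al
  | 2 => -(Sr * P.be)
  | 3 => Sr * P.ga
  | 4 => sx (P.V 1)
  | 5 => sx (P.V 4)
  | 6 => sy (P.V 4)
  | 7 => sy (P.V 1)
  | 8 => lenJ P 0
  | 9 => lenJ P 1
  | 10 => sx (P.V 1) * sy (P.V 4)
  | 11 => lenJ P 2
  | 12 => sx (P.V 4) * sy (P.V 1)
  | 13 => lenJ P 3
  | 14 => lenJ P 4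
  | 15 => lenJ P 5
  | 16 => lenJ P 6
  | 17 => lenJ P 7
  | 18 => lenJ P 8
  | 19 => lenJ P 9
  | _ => 0

/-- the monomials of the high digits -/
def mh (P : Prm) (p q : ℝ × ℝ) : ℕ → ℝ
  | 0 => sy p
  | 2 => sx p
  | 4 => sy p * mz P 4
  | 5 => sy p * mz P 5
  | 6 => sy q
  | 7 => sx q
  | 8 => sx p * mz P 6
  | 9 => sx p * mz P 7
  | 10 => sy q * mz P 4
  | 11 => sy q * mz P 5
  | 13 => sx q * mz P 6
  | 14 => sx q * mz P 7
  | 15 => dl P (P.V 0) p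
  | 16 => dl P (P.V 1) p
  | 17 => dl P (P.V 2) p
  | 18 => dl P (P.V 3) p
  | 19 => dl P (P.V 4) p
  | 20 => dl P (P.V 0) q
  | 21 => dl P (P.V 1) q
  | 22 => dl P (P.V 2) q
  | 23 => dl P (P.V 3) q
  | 24 => dl P (P.V 4) q
  | 25 => dl P p q
  | 27 => sx q * sy p
  | 28 => sx p * sy q
  | _ => 0

def mo (P : Prm) (p q : ℝ × ℝ) (k : ℕ) : ℝ := if k < 20 then mz P k else mh P p q (k - 20)

def InF (z : ℕ → ℝ) (n a : ℕ) : Prop :=
  ∀ k < n, (fl a (64 * k) : ℝ) ≤ z k ∧ z k ≤ fl (a >>> 32) (64 * k)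
/-- the configuration lies in the packed box b -/
def InB (P : Prm) (b : ℕ) : Prop := InF (fun k => mz P (k + 1)) 7 b
def InR (P : Prm) (r : ℕ) : Prop := InF (lenJ P) 10 r

def enU (nx ny ca : ℤ) : ℤ := nx + ny * 2 ^ 64 + ca * 2 ^ 128 + 2 ^ 576
def enW (nx ny ca : ℤ) : ℤ :=
  -ny + ca * 2 ^ 64 - nx * 2 ^ 256 + ny * 2 ^ 320 + nx * 2 ^ 384 - ca * 2 ^ 512 + 2 ^ 576
def LD (e : ℕ) (nx ny ca : ℤ) : Prop := |nx| ≤ 4096 ∧ |ny| ≤ 4096 ∧ |ca| ≤ 2 ^ 42 ∧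
  ∃ m : ℕ, m < 2 ^ 31 ∧ (e : ℤ) = enU nx ny ca + enW nx ny ca * 2 ^ 640 + m * 2 ^ 1232
def lt3 (nx ny ca : ℤ) : ℝ × ℝ × ℝ :=
  (nx * Sr, ny * Sr, (nx + ny) * 67108848 + ((ca - max (-nx) 0 - max (-ny) 0 : ℤ) : ℝ))
def LOK (e : ℕ) (z : ℝ × ℝ) : Prop := e = 0 ∨ ∃ nx ny ca, LD e nx ny ca ∧ 0 ≤ lev (lt3 nx ny ca) z
def LsOK (l : ℕ) (z : ℝ × ℝ) : Prop := ∀ i, LOK (lent l i) z
def FaOK (P : Prm) (fa : ℕ) : Prop := ∀ i, Ub (mz P) 20 (ent fa i) 0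
def GOK (P : Prm) (p q : ℝ × ℝ) (g : ℕ) : Prop := ∀ i < 8, ∀ j < 8, ∀ h < 8,
  g.testBit (i + 8 * j + 64 * h) = true → Lg P.al P.be P.ga (P.pt p q i) (P.pt p q j) (P.pt p q h)

structure FInv (P : Prm) (p q : ℝ × ℝ) (b r fa g rt l5 l6 i5 i6 : ℕ) : Prop where
  hp : p ∈ P.X
  hq : q ∈ P.X
  bx : InB P b
  rg : InR P r
  fa : FaOK P fa
  g : GOK P p q g
  rt : ∀ z ∈ P.X, LsOK rt z
  l5 : LsOK l5 p
  l6 : LsOK l6 q
  i5 : ∀ z, Ub (mo P p z) 49 i5 0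
  i6 : Ub (mo P p q) 49 i6 0

def Sound (P : Prm) (k : KT) : Prop := ∀ w b r fa g rt l5 l6 i5 i6 p q,
  k w b r fa g rt l5 l6 i5 i6 = 0 → ¬ FInv P p q b r fa g rt l5 l6 i5 i6

/-- no configuration satisfies the context coded by h -/
def FGood (P : Prm) (h : ℕ) : Prop := ∀ p q,
  ¬ FInv P p q (h &&& M448) ((h >>> 448) &&& M640) (hfa h) (((h >>> 1088) &&& M512) + GST) (hrt h) 0 0 0 0

theorem sx_vp (x y : ℕ) : sx (vp x y) = x := by
  have := Sr_pos.ne'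
  simp only [sx, vp]; field_simp; ring
theorem sy_vp (x y : ℕ) : sy (vp x y) = y := by
  have := Sr_pos.ne'
  simp only [sy, vp]; field_simp; ring

theorem land_lt (a k : ℕ) {m : ℕ} (h : m = 2 ^ k - 1) : a &&& m < 2 ^ k := by
  rw [h, Nat.and_two_pow_sub_one_eq_mod]
  exact Nat.mod_lt _ (by positivity)

theorem fl_lt (b o : ℕ) : fl b o < 2 ^ 30 := land_lt _ 30 (by norm_num)
theorem wd_lt (b o : ℕ) : wd b o < 2 ^ 30 := lt_of_le_of_lt (Nat.sub_le _ _) (fl_lt _ _)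
theorem hw_lt (b o : ℕ) : hw b o < 2 ^ 30 := lt_of_le_of_lt (Nat.sub_le _ _) (fl_lt _ _)
theorem cb_lt (b o : ℕ) : cb b o < 2 ^ 30 := by
  have := fl_lt b o
  have := fl_lt (b >>> 32) o
  rw [cb_eq, Nat.shiftRight_eq_div_pow]
  omega

variable {z : ℕ → ℝ} {n a : ℕ} {P : Prm}

theorem InF.wid (h : InF z n a) {k : ℕ} (hk : k < n) :
    (fl a (64 * k) : ℝ) ≤ z k ∧ z k ≤ fl a (64 * k) + wd a (64 * k) := by
  refine ⟨(h k hk).1, (h k hk).2.trans ?_⟩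
  have : fl (a >>> 32) (64 * k) ≤ fl a (64 * k) + wd a (64 * k) := by rw [wd_eq]; omega
  exact_mod_cast this

theorem InF.ctr (h : InF z n a) {k : ℕ} (hk : k < n) : |z k - cb a (64 * k)| ≤ hw a (64 * k) := by
  obtain ⟨h1, h2⟩ := h k hk
  have h3 : fl a (64 * k) ≤ fl (a >>> 32) (64 * k) := by exact_mod_cast h1.trans h2
  have e : cb a (64 * k) = (fl a (64 * k) + fl (a >>> 32) (64 * k)) / 2 := by
    rw [cb_eq, Nat.shiftRight_eq_div_pow]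
  have a1 : cb a (64 * k) + hw a (64 * k) = fl (a >>> 32) (64 * k) := by rw [hw_eq]; omega
  have a2 : cb a (64 * k) ≤ fl a (64 * k) + hw a (64 * k) := by omega
  have b1 : (cb a (64 * k) : ℝ) + hw a (64 * k) = fl (a >>> 32) (64 * k) := by exact_mod_cast a1
  have b2 : (cb a (64 * k) : ℝ) ≤ fl a (64 * k) + hw a (64 * k) := by exact_mod_cast a2
  rw [abs_le]
  constructor <;> linarith

theorem lenJ_nn (P : Prm) (j : ℕ) : 0 ≤ lenJ P j := by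
  unfold lenJ
  split <;> first | exact mul_nonneg Sr_pos.le (Lf_nonneg _) | exact le_rfl

theorem InB.nn {b : ℕ} (h : InB P b) {k : ℕ} (hk : k < 20) : 0 ≤ mz P k := by
  have e : ∀ k < 7, 0 ≤ mz P (k + 1) := fun k hk => (Nat.cast_nonneg _).trans (h k hk).1
  interval_cases k
  exacts [zero_le_one, e 0 (by norm_num), e 1 (by norm_num), e 2 (by norm_num), e 3 (by norm_num),
    e 4 (by norm_num), e 5 (by norm_num), e 6 (by norm_num), lenJ_nn P 0, lenJ_nn P 1,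
    mul_nonneg (e 3 (by norm_num)) (e 5 (by norm_num)), lenJ_nn P 2,
    mul_nonneg (e 4 (by norm_num)) (e 6 (by norm_num)), lenJ_nn P 3, lenJ_nn P 4, lenJ_nn P 5,
    lenJ_nn P 6, lenJ_nn P 7, lenJ_nn P 8, lenJ_nn P 9]

theorem T8_eq : T8 = tt ^ 8 := by decide +kernel
theorem TN_eq : TN = tt ^ 49 := by decide +kernel

theorem ub_UP0 : Ub (mz P) 8 UP0 1 := by
  rw [show UP0 = tt ^ 8 + tt ^ 0 by decide +kernel]; exact Ub.up (by norm_num)
theorem ub_UN0 : Ub (mz P) 8 UN0 (-1) := by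
  rw [show UN0 = tt ^ 8 - tt ^ 0 by decide +kernel]; exact Ub.un (by norm_num)
theorem ub_VP0 : Ub (mz P) 20 VP0 1 := by
  rw [show VP0 = tt ^ 20 + tt ^ 0 by decide +kernel]; exact Ub.up (by norm_num)
theorem ub_VN0 : Ub (mz P) 20 VN0 (-1) := by
  rw [show VN0 = tt ^ 20 - tt ^ 0 by decide +kernel]; exact Ub.un (by norm_num)
theorem ub_U4 : Ub (mz P) 8 U4 (mz P 4) := by
  rw [show U4 = tt ^ 8 + tt ^ 4 by decide +kernel]; exact Ub.up (by norm_num)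
theorem ub_U5 : Ub (mz P) 8 U5 (mz P 5) := by
  rw [show U5 = tt ^ 8 + tt ^ 5 by decide +kernel]; exact Ub.up (by norm_num)
theorem ub_U6 : Ub (mz P) 8 U6 (mz P 6) := by
  rw [show U6 = tt ^ 8 + tt ^ 6 by decide +kernel]; exact Ub.up (by norm_num)
theorem ub_U7 : Ub (mz P) 8 U7 (mz P 7) := by
  rw [show U7 = tt ^ 8 + tt ^ 7 by decide +kernel]; exact Ub.up (by norm_num)
theorem ub_N4 : Ub (mz P) 8 N4 (-mz P 4) := by
  rw [show N4 = tt ^ 8 - tt ^ 4 by decide +kernel]; exact Ub.un (by norm_num)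
theorem ub_N5 : Ub (mz P) 8 N5 (-mz P 5) := by
  rw [show N5 = tt ^ 8 - tt ^ 5 by decide +kernel]; exact Ub.un (by norm_num)
theorem ub_N6 : Ub (mz P) 8 N6 (-mz P 6) := by
  rw [show N6 = tt ^ 8 - tt ^ 6 by decide +kernel]; exact Ub.un (by norm_num)
theorem ub_N7 : Ub (mz P) 8 N7 (-mz P 7) := by
  rw [show N7 = tt ^ 8 - tt ^ 7 by decide +kernel]; exact Ub.un (by norm_num)

/-- a vector with the bias of the final bound -/
def Ub2 (P : Prm) (A : ℕ) (r : ℝ) : Prop := ∃ A0, A = A0 + BI2 ∧ Ub (mz P) 8 A0 r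

theorem Ub2.add {A B : ℕ} {r q : ℝ} (h : Ub2 P A r) (g : Ub (mz P) 8 B q) : Ub2 P (A + B) (r + q) := by
  obtain ⟨A0, rfl, h⟩ := h
  exact ⟨A0 + B, by ring, h.add g⟩

theorem bnd_sound {b A : ℕ} {r : ℝ} (hb : InB P b) (hA : Ub2 P A r) (h : bnd b A = 0) : r < 0 := by
  obtain ⟨A, rfl, hA⟩ := hA
  rw [bnd_eq, Nat.add_eq_zero_iff] at h
  obtain ⟨h1, h2⟩ := h
  have h3 := shr_tt (c := 185) (n := 8) h1 (by norm_num)
  obtain ⟨v, hv, -, hr⟩ := hA.bia (b := 186) (c := 185) (by norm_num) (by norm_num) (by omega)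
  rw [← show BI2 = 2 ^ 186 * on 8 by decide +kernel] at hv
  obtain ⟨D, d1, d2⟩ := bound_gen (m := mz P) (Mr := 2 ^ 30) (Mw := 2 ^ 30)
    (r := fun k => if k = 0 then 1 else fl b (64 * (k - 1)))
    (w := fun k => if k = 0 then 0 else wd b (64 * (k - 1))) (by norm_num) (by norm_num) hv
    (fun k _ => by
      split_ifs
      · norm_num
      · exact (fl_lt _ _).le)
    (fun k _ => by
      split_ifs
      · norm_num
      · exact (wd_lt _ _).le)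
    (fun k hk => by
      rcases k with _ | k
      · simp [mz]
      · simpa using hb.wid (by omega : k < 7))
    (by decide +kernel)
  have e1 : rs 8 (fun k => if k = 0 then 1 else fl b (64 * (k - 1))) = rlo b := by
    rw [rlo_eq, shl_tt _ (k := 6) rfl, shl_tt _ (k := 5) rfl, shl_tt _ (k := 4) rfl, shl_tt _ (k := 3) rfl,
      shl_tt _ (k := 2) rfl, shl_tt _ (k := 1) rfl, show T7 = tt ^ 7 by decide +kernel]
    simp [rs, sum_range_succ]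
  have e2 : rs 8 (fun k => if k = 0 then 0 else wd b (64 * (k - 1))) = rwd b := by
    rw [rwd_eq, shl_tt _ (k := 6) rfl, shl_tt _ (k := 5) rfl, shl_tt _ (k := 4) rfl, shl_tt _ (k := 3) rfl,
      shl_tt _ (k := 2) rfl, shl_tt _ (k := 1) rfl]
    simp [rs, sum_range_succ]
  rw [e1, e2, ← show ON8 = ns 8 (fun _ => 1) by decide +kernel,
    ← show B2M = 2 ^ 186 - 1 by decide +kernel] at d1
  rw [show M8 = 2 ^ (224 * 8) - 1 by decide +kernel, Nat.and_two_pow_sub_one_eq_mod, ← tt_pow,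
    Nat.sub_eq_zero_iff_le, cc2_eq, Nat.shiftLeft_eq,
    show 2 ^ 1754 = 2 ^ 186 * tt ^ (8 - 1) by decide +kernel, ← mul_assoc] at h2
  generalize hs : 1 + fl b 0 + fl b 64 + fl b 128 + fl b 192 + fl b 256 + fl b 320 + fl b 384 = s at h2
  have s0 : 0 < s * 2 ^ 186 * tt ^ (8 - 1) :=
    Nat.mul_pos (Nat.mul_pos (by omega) (by norm_num)) (pow_pos tt_pos _)
  have d3 : D < s * 2 ^ 186 := lt_of_mul_lt_mul_right (a := tt ^ (8 - 1)) (by omega) (Nat.zero_le _)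
  have d4 : (D : ℝ) < s * 2 ^ 186 := by exact_mod_cast d3
  rw [← hs] at d4
  simp [sum_range_succ] at d2
  push_cast at d4
  linarith

end

end Pool.Agent.Lib.MP_9d820d_co.Fast
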