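import Pool.Agent.Lib.MP_9d820d_co.FQuad

set_option autoImplicit false
set_option exponentiation.threshold 20000

namespace Pool.Agent.Lib.MP_9d820d_co.Fast

open Finset

noncomputable section

variable {P : Prm} {p q : ℝ × ℝ}

def cX (a : ℕ) : ℕ := [67108848, 1, 83886060, 83886060, 1, 1, 1, 67108848].getD a 0
def pX (a : ℕ) : ℕ := [0, 4, 0, 0, 5, 22, 27, 0].getD a 0
def cY (a : ℕ) : ℕ := [67108848, 1, 58720242, 75497454, 1, 1, 1, 67108848].getD a 0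
def pY (a : ℕ) : ℕ := [0, 7, 0, 0, 6, 20, 26, 0].getD a 0
def pL (c : ℕ) : ℕ := [46, 8, 9, 11, 13, 35, 40, 46, 8, 46, 14, 15, 16, 36, 41, 8, 9, 14, 46, 17, 18, 37, 42, 9,
  11, 15, 17, 46, 19, 38, 43, 11, 13, 16, 18, 19, 46, 39, 44, 13, 35, 36, 37, 38, 39, 46, 45, 35, 40, 41, 42, 43,
  44, 45, 46, 40, 46, 8, 9, 11, 13, 35, 40, 46].getD c 0

theorem xy_tab : ∀ a < 8, ∀ b < 8, xa a * ya b = cX a * cY b * tt ^ (pX a + pY b) ∧ cX a * cY b ≤ 2 ^ 53 + 2 ^ 51 ∧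
    (a ≠ b → pX a + pY b < 49) := by decide +kernel

theorem lp_tab : ∀ a < 8, ∀ b < 8, lp a b = tt ^ pL (a + 8 * b) ∧ pL (a + 8 * b) < 49 := by decide +kernel

theorem xy_val {a b : ℕ} (ha : a < 8) (hb : b < 8) (h : a ≠ b) :
    ((cX a * cY b : ℕ) : ℝ) * mo P p q (pX a + pY b) = sx (P.pt p q a) * sy (P.pt p q b) := by
  interval_cases a <;> interval_cases b <;> first
    | exact absurd rfl h
    | (simp [cX, cY, pX, pY, mo, mz, mh, sx, sy, Prm.pt, Prm.V, Sr] <;> first | ring1 | norm_num)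

theorem dl_self (a : ℝ × ℝ) : 0 = dl P a a := by simp [dl, Lf, Qf]

theorem lp_val {a b : ℕ} (ha : a < 8) (hb : b < 8) :
    mo P p q (pL (a + 8 * b)) = dl P (P.pt p q a) (P.pt p q b) := by
  interval_cases a <;> interval_cases b <;> first | rfl | exact dl_swap _ _ | exact dl_self _

theorem crs_vec {a b : ℕ} (ha : a < 8) (hb : b < 8) : ∃ v : ℕ → ℤ,
    ((xa a * ya b : ℕ) : ℤ) - (xa b * ya a : ℕ) = pk 49 v ∧ (∀ k, |v k| ≤ 2 ^ 53 + 2 ^ 51) ∧
    val (mo P p q) 49 v = sx (P.pt p q a) * sy (P.pt p q b) - sx (P.pt p q b) * sy (P.pt p q a) := by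
  by_cases h : a = b
  · subst h
    exact ⟨fun _ => 0, by simp [pk], by simp, by simp [val]⟩
  obtain ⟨e1, b1, k1⟩ := xy_tab a ha b hb
  obtain ⟨e2, b2, k2⟩ := xy_tab b hb a ha
  refine ⟨fun k => (if k = pX a + pY b then ((cX a * cY b : ℕ) : ℤ) else 0) +
    (if k = pX b + pY a then -((cX b * cY a : ℕ) : ℤ) else 0), ?_, fun k => ?_, ?_⟩
  · rw [pk_add, pk_single (k1 h), pk_single (k2 (Ne.symm h)), e1, e2]
    push_cast
    ring
  · dsimp only
    rw [abs_le]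
    split_ifs <;> omega
  · rw [val_add, val_single (k1 h), val_single (k2 (Ne.symm h)), ← xy_val ha hb h, ← xy_val hb ha (Ne.symm h)]
    push_cast
    ring

theorem cr_ub {a b c : ℕ} (ha : a < 8) (hb : b < 8) (hc : c < 8) :
    Ub (mo P p q) 49 (cr a b c) (Sr ^ 2 * cr3 (P.pt p q a) (P.pt p q b) (P.pt p q c)) := by
  obtain ⟨u, u1, u2, u3⟩ := crs_vec (P := P) (p := p) (q := q) ha hb
  obtain ⟨v, v1, v2, v3⟩ := crs_vec (P := P) (p := p) (q := q) hb hc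
  obtain ⟨w, w1, w2, w3⟩ := crs_vec (P := P) (p := p) (q := q) hc ha
  rw [cr_eq]
  refine (Ub.diff (v := fun k => (u k + v k) + w k) (s := 2 ^ 55) ?_ fun k _ => ?_).mono (le_of_eq ?_)
  · rw [pk_add, pk_add, ← u1, ← v1, ← w1, show SC = 2 ^ 55 * tt ^ 49 by decide +kernel]
    push_cast
    ring
  · have := abs_le.1 (u2 k)
    have := abs_le.1 (v2 k)
    have := abs_le.1 (w2 k)
    rw [abs_le]
    omega
  · rw [val_add, val_add, u3, v3, w3]
    simp only [sx, sy, cr3, crs]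
    ring

theorem lp_up {a b : ℕ} (ha : a < 8) (hb : b < 8) :
    Ub (mo P p q) 49 (TN + lp a b) (dl P (P.pt p q a) (P.pt p q b)) := by
  rw [TN_eq, (lp_tab a ha b hb).1, ← lp_val ha hb]
  exact Ub.up (lp_tab a ha b hb).2

theorem lp_un {a b : ℕ} (ha : a < 8) (hb : b < 8) :
    Ub (mo P p q) 49 (TN - lp a b) (-dl P (P.pt p q a) (P.pt p q b)) := by
  rw [TN_eq, (lp_tab a ha b hb).1, ← lp_val ha hb]
  exact Ub.un (lp_tab a ha b hb).2

theorem cr3_swap (a b c : ℝ × ℝ) : cr3 b a c = -cr3 a b c := by simp only [cr3, crs]; ring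
theorem cr3_swap' (a b c : ℝ × ℝ) : cr3 a c b = -cr3 a b c := by simp only [cr3, crs]; ring

theorem stg_ub {i j h : ℕ} (s : ℕ) (hi : i < 8) (hj : j < 8) (hh : h < 8)
    (g : Lg P.al P.be P.ga (P.pt p q i) (P.pt p q j) (P.pt p q h)) : Ub (mo P p q) 49 (stg i j h s) 0 := by
  obtain ⟨g1, g2, g3⟩ := g
  have g1 := abs_le.1 g1
  rw [stg_eq]
  cases Nat.ble s 1
  · refine Ub.nn _ ?_
    cases Nat.beq s 2
    · refine ((lp_up hi hj).add (lp_un hj hh)).mono ?_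
      simp only [dl, Sr]
      linarith
    · refine ((lp_up hi hj).add (lp_un hi hh)).mono ?_
      simp only [dl, Sr]
      linarith
  · cases Nat.beq s 0
    · refine (((lp_up hi hj).mul _).add ((cr_ub hj hi hh).mul _)).mono ?_
      rw [cr3_swap]
      simp only [dl, Sr]
      push_cast
      linarith [g1.2]
    · refine (((lp_up hi hj).mul _).add ((cr_ub hi hj hh).mul _)).mono ?_
      simp only [dl, Sr]
      push_cast
      linarith [g1.1]

theorem sar_ub (hP : P.ok) (hp : p ∈ P.X) (hq : q ∈ P.X) (i j : ℕ) {h : ℕ} (hh : h < 8) :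
    Ub (mo P p q) 49 (sar i j h) 0 := by
  rw [sar_eq]
  cases e1 : Nat.beq ((i - 4) + (j - 4)) 0
  · exact Ub.zero
  cases e2 : Nat.beq i j
  on_goal 2 => exact Ub.zero
  have h1 := beq_sp e1
  have c := area_ineq (p := p) (q := q) hP (pt_mem hP hp hq h) (i := i) (j := j) (by omega) (by omega) (beq_ns e2)
  have m : ∀ a : ℕ, a % 5 < 8 := fun a => by omega
  refine Ub.nn _ ?_
  have s2 := pow_pos Sr_pos 2
  cases e3 : Nat.beq j ((i + 4) % 5)
  · refine ((cr_ub (m _) (by omega) (m _)).add (cr_ub (by omega) (m _) hh)).mono ?_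
    have e4 : Nat.beq j (Nat.mod (Nat.add i 4) 5) = false := e3
    rw [e4, cnd_false] at c
    rw [cr3_swap' _ (P.pt p q h)]
    exact (mul_nonneg s2.le (sub_nonneg.2 c)).trans (le_of_eq (by rw [mul_sub, mul_neg]; rfl))
  · refine ((cr_ub (m _) (by omega) (m _)).add (cr_ub (by omega) (m _) hh)).mono ?_
    have e4 : Nat.beq j (Nat.mod (Nat.add i 4) 5) = true := e3
    rw [e4, cnd_true] at c
    rw [cr3_swap' _ (P.pt p q h)]
    exact (mul_nonneg s2.le (sub_nonneg.2 c)).trans (le_of_eq (by rw [mul_sub, mul_neg]; rfl))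

theorem sta_ub (hP : P.ok) (hp : p ∈ P.X) (hq : q ∈ P.X) (i j s : ℕ) {h : ℕ} (hh : h < 8) :
    Ub (mo P p q) 49 (sta i j h s) 0 := by
  rw [sta_eq]
  cases Nat.beq s 0
  on_goal 2 => exact sar_ub hP hp hq i j hh
  have h1 := land_lt i 2 (m := 3) (by norm_num)
  generalize i &&& 3 = a at *
  obtain ⟨c1, c2⟩ := max_ineq (p := p) (q := q) hP (i := a) h1
  have m : ∀ a : ℕ, a % 5 < 8 := fun a => by omega
  have s2 := pow_pos Sr_pos 2
  cases Nat.beq s 1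
  · exact Ub.nn _ ((cr_ub (by omega) (m _) (m _)).mono (mul_nonneg s2.le c1))
  · have u : Ub (mo P p q) 49 S3U (((4722363105170729992128 : ℕ) : ℝ) * mo P p q 0) := by
      rw [show S3U = 4722363105170729992128 * (tt ^ 49 + tt ^ 0) by decide +kernel]
      exact (Ub.up (by norm_num)).mul _
    refine (u.add ((cr_ub (by omega) (m _) (m _)).mul _)).mono ?_
    rw [cr3_swap']
    change cr3 (P.pt p q (a + 1)) (P.pt p q ((a + 1 + 2) % 5)) (P.pt p q ((a + 1 + 3) % 5)) ≤ 1 at c2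
    simp only [mo, mz, Sr]
    norm_num
    linarith

theorem stat_ub (hP : P.ok) (hp : p ∈ P.X) (hq : q ∈ P.X) {g : ℕ} (hg : GOK P p q g) (c : ℕ) :
    Ub (mo P p q) 49 (((g >>> (c &&& 1023)) &&& 1) * stat c) 0 := by
  have l : ∀ a : ℕ, a &&& 7 < 8 := fun a => land_lt a 3 (by norm_num)
  rw [stat_eq]
  cases e : Nat.beq ((c >>> 9) &&& 1) 0
  · exact Ub.nn _ (sta_ub hP hp hq _ _ _ (l _))
  cases e2 : g.testBit (c &&& 1023)
  · have : (g >>> (c &&& 1023)) &&& 1 = 0 := by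
      rw [Nat.testBit, Nat.and_comm] at e2
      simpa using e2
    rw [this, zero_mul]
    exact Ub.zero
  refine Ub.nn _ (stg_ub _ (l _) (l _) (l _) (hg _ (l _) _ (l _) _ (l _) ?_))
  have e := beq_sp e
  have m : ∀ a : ℕ, a &&& 7 = a % 8 := fun a => Nat.and_two_pow_sub_one_eq_mod a 3
  rw [Nat.and_one_is_mod, Nat.shiftRight_eq_div_pow] at e
  rw [← e2, m, m, m, show c &&& 1023 = c % 1024 from Nat.and_two_pow_sub_one_eq_mod c 10,
    Nat.shiftRight_eq_div_pow, Nat.shiftRight_eq_div_pow]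
  congr 1
  omega

section
variable (hP : P.ok) (hp : p ∈ P.X) (hq : q ∈ P.X) {g : ℕ} (hg : GOK P p q g) (nb m s r : ℕ)
include hP hp hq hg

theorem sl1_ub {k : ℕ → ℕ} (hk : ∀ w, Ub (mo P p q) 49 (k w) 0) (w : ℕ) :
    Ub (mo P p q) 49 (sl1 g nb m s r k w) 0 := by
  rw [sl1_eq]
  cases (w >>> nb) &&& 4095 with
  | zero => exact Ub.zero
  | succ c =>
    refine Ub.add0 ?_ (hk _)
    rw [mul_assoc]
    exact Ub.nn _ (stat_ub hP hp hq hg c)

theorem sl2_ub {k : ℕ → ℕ} (hk : ∀ w, Ub (mo P p q) 49 (k w) 0) (w : ℕ) :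
    Ub (mo P p q) 49 (sl2 g nb m s r k w) 0 :=
  sl1_ub hP hp hq hg nb m s r (sl1_ub hP hp hq hg nb m s r hk) w

theorem sl4_ub {k : ℕ → ℕ} (hk : ∀ w, Ub (mo P p q) 49 (k w) 0) (w : ℕ) :
    Ub (mo P p q) 49 (sl4 g nb m s r k w) 0 :=
  sl2_ub hP hp hq hg nb m s r (sl2_ub hP hp hq hg nb m s r hk) w

theorem sls_ub (w : ℕ) : Ub (mo P p q) 49 (sls g nb m s r w) 0 :=
  sl1_ub hP hp hq hg nb m s r (sl2_ub hP hp hq hg nb m s r (sl4_ub hP hp hq hg nb m s r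
    (sl4_ub hP hp hq hg nb m s r (sl4_ub hP hp hq hg nb m s r fun _ => Ub.zero)))) w

end

theorem fs_ub {fa : ℕ} (h : FaOK P fa) (nb m s r n w : ℕ) : Ub (mz P) 20 (fs fa nb m s r n w) 0 := by
  rw [fs_eq]
  induction n generalizing w with
  | zero => exact Ub.zero
  | succ n ih => exact Ub.add0 (Ub.nn _ (h _)) (ih _)

theorem dr_ub {s : ℕ} (hs : s < 8) (p1 n1 p2 n2 p3 n3 p4 n4 : ℕ) :
    Ub (mo P p q) 49 (dr s p1 n1 p2 n2 p3 n3 p4 n4)
      (Sr ^ 2 * crs (cmb P (p1 - n1) (p2 - n2) (p3 - n3) (p4 - n4)) (P.pt p q s)) := by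
  have a : ∀ (c : ℕ) {i : ℕ}, i < 8 → Ub (mo P p q) 49 (c * cr 0 i s) _ := fun c _ hi =>
    (cr_ub (by norm_num) hi hs).mul c
  have b : ∀ (c : ℕ) {i : ℕ}, i < 8 → Ub (mo P p q) 49 (c * cr 0 s i) _ := fun c _ hi =>
    (cr_ub (by norm_num) hs hi).mul c
  rw [dr_eq]
  refine ((((((((a p1 (by norm_num)).add (b n1 (by norm_num))).add (a p2 (by norm_num))).add
    (b n2 (by norm_num))).add (a p3 (by norm_num))).add (b n3 (by norm_num))).add (a p4 (by norm_num))).add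
    (b n4 (by norm_num))).mono (le_of_eq ?_)
  generalize P.pt p q s = z
  simp only [cmb, cr3, crs, Prm.V, Prm.pt, Prod.fst_add, Prod.snd_add, Prod.smul_fst,
    Prod.smul_snd, smul_eq_mul]
  ring

theorem val_mo (v : ℕ → ℤ) : val (mo P p q) 20 v = val (mz P) 20 v :=
  sum_congr rfl fun k hk => by rw [mo, if_pos (mem_range.1 hk)]

theorem uc2_ub (u x : ℕ) : ∃ y, (∀ p q, Ub (mo P p q) 49 (uc2 u x + UPN) y) ∧
    Ub (mz P) 20 (UNG - uc2 u x) (-y) := by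
  rw [uc2_eq, show UM84 = ns 20 (fun _ => 2 ^ 84 - 1) by decide +kernel,
    land_ns _ (fun _ _ => lt_of_le_of_lt (Nat.sub_le _ _) (two_pow_lt_tt (by norm_num)))]
  generalize u * 281474842492944 + 17179865088 * (x &&& UMA) + (x &&& UMC) <<< 10 = X
  obtain ⟨U, e1, e2, e3⟩ : ∃ U : ℕ → ℕ, UNG = 2 ^ 84 * tt ^ 20 + ns 20 U ∧ UPN + ns 20 U = 2 ^ 84 * tt ^ 49 ∧
    ∀ k < 20, U k ≤ 2 ^ 84 := ⟨di UNG, by decide +kernel⟩
  have l : ∀ k, di X k &&& 2 ^ 84 - 1 < 2 ^ 84 := fun k => land_lt _ 84 rfl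
  have f1 : (UNG : ℤ) = 2 ^ 84 * (tt : ℤ) ^ 20 + pk 20 (fun k => U k) := by
    rw [e1, Nat.cast_add, ns_cast]; push_cast; rfl
  have f2 : (UPN : ℤ) + pk 20 (fun k => U k) = 2 ^ 84 * (tt : ℤ) ^ 49 := by
    rw [← ns_cast]; exact_mod_cast e2
  obtain ⟨a, ea, l⟩ : ∃ a : ℕ → ℕ, (fun k => di X k &&& 2 ^ 84 - 1) = a ∧ ∀ k, a k < 2 ^ 84 := ⟨_, rfl, l⟩
  rw [ea]
  refine ⟨val (mz P) 20 (fun k => a k + -1 * U k), fun p q =>
    ⟨fun k => if k < 20 then a k + -1 * U k else 0, ⟨2 ^ 84, ?_, fun k _ => ?_⟩, le_of_eq ?_⟩,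
    (Ub.diff (v := fun k => -1 * (a k + -1 * U k)) (s := 2 ^ 84) ?_ fun k hk => ?_).mono (le_of_eq ?_)⟩
  · rw [show 49 = 20 + 29 from rfl, pk, sum_range_add, sum_eq_zero (s := range 29) (fun k _ => by simp),
      add_zero, ← pk, pk_congr (v := fun k => a k + -1 * U k) (fun k hk => if_pos hk), pk_add, pk_mul,
      Nat.cast_add, ns_cast]
    push_cast
    linarith
  · dsimp only
    split_ifs with hk
    · have := l k
      have := e3 k hk
      rw [abs_le]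
      omega
    · simp
  · rw [show 49 = 20 + 29 from rfl, ← val_mo (p := p) (q := q), val, val, sum_range_add,
      sum_eq_zero (s := range 29) (fun k _ => by simp), add_zero]
    exact sum_congr rfl fun k hk => by rw [if_pos (mem_range.1 hk)]
  · rw [pk_mul, pk_add, pk_mul, f1, ns_cast]
    push_cast
    ring
  · have := l k
    have := e3 k hk
    rw [abs_le]
    omega
  · rw [val_mul]
    simp

end

end Pool.Agent.Lib.MP_9d820d_co.Fast
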