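import Pool.Agent.Lib.MP_9d820d_co.Box

set_option autoImplicit false

namespace Pool.Agent.Lib.MP_9d820d_co

noncomputable section

section
variable {α : Type} (ι : α → ℝ) (P : Prm) (t : ℝ) (p q : ℝ × ℝ)

/-- the accumulated inequality -/
def TI (f : Fx α) (l : L10 α) (m : Mx α) (pd : List G3) : Prop :=
  0 ≤ valF ι P t f + valL ι P l + valM ι P t p q m + valP P p q pd

def TS (k : Kt α) : Prop := ∃ f l m pd w, k f l m pd w = true ∧ TI ι P t p q f l m pd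

end

variable {α : Type} {o : Ops α} {ι : α → ℝ} {P : Prm} {t : ℝ} {p q : ℝ × ℝ}

theorem pt_V (P : Prm) (p q : ℝ × ℝ) {i : Nat} (h : i ≤ 4) : P.pt p q i = P.V i := by
  interval_cases i <;> rfl

theorem pt_mem (hP : P.ok) (hp : p ∈ P.X) (hq : q ∈ P.X) (i : Nat) : P.pt p q i ∈ P.X := by
  rcases cases8 i with rfl | rfl | rfl | rfl | rfl | rfl | rfl | ⟨a, rfl⟩
  exacts [hP.m0, hP.m1, hP.m2, hP.m3, hP.m4, hp, hq, hP.m0]

theorem area_ineq (hP : P.ok) {r : ℝ × ℝ} (hr : r ∈ P.X) {i j : Nat} (hi : i ≤ 4) (hj : j ≤ 4)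
    (hij : i ≠ j) : cr3 (P.pt p q j) r
      (P.pt p q (cnd (Nat.beq j (Nat.mod (Nat.add i 4) 5)) (nxt i) (nxt j))) ≤
      cr3 (P.pt p q (Nat.mod (Nat.add i 4) 5)) (P.pt p q i) (P.pt p q (nxt i)) := by
  have A : ∀ a b c d : Nat, sh5 (P.pt p q a) r (P.pt p q b) (P.pt p q c) (P.pt p q d) ≤
      sh5 (0, 0) (P.x1, P.y1) (1, -1 / 2) (1, 1 / 2) (P.x4, P.y4) ∨ 4 < a ∨ 4 < b ∨ 4 < c ∨ 4 < d := by
    intro a b c d
    by_contra hn
    push Not at hn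
    obtain ⟨h, ha, hb, hc, hd⟩ := hn
    rw [pt_V P p q ha, pt_V P p q hb, pt_V P p q hc, pt_V P p q hd] at h
    exact absurd (hP.area _ (pt_mem hP hP.m0 hP.m0 a) _ hr _ (pt_mem hP hP.m0 hP.m0 b) _
      (pt_mem hP hP.m0 hP.m0 c) _ (pt_mem hP hP.m0 hP.m0 d)) (not_le.2 h)
  have B : ∀ a b c d e f g : Nat, a ≤ 4 → b ≤ 4 → c ≤ 4 → d ≤ 4 →
      sh5 (P.pt p q a) r (P.pt p q b) (P.pt p q c) (P.pt p q d) -
        sh5 (0, 0) (P.x1, P.y1) (1, -1 / 2) (1, 1 / 2) (P.x4, P.y4) =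
        cr3 (P.pt p q a) r (P.pt p q b) - cr3 (P.pt p q e) (P.pt p q f) (P.pt p q g) →
      cr3 (P.pt p q a) r (P.pt p q b) ≤ cr3 (P.pt p q e) (P.pt p q f) (P.pt p q g) := by
    intro a b c d e f g ha hb hc hd h
    rcases A a b c d with h1 | h1 | h1 | h1 | h1
    · linarith
    all_goals omega
  interval_cases i <;> interval_cases j
  all_goals first | exact absurd rfl hij | skip
  · refine B 1 2 3 4 4 0 1 ?_ ?_ ?_ ?_ ?_ <;> first | omega | (simp only [sh5, cr3, crs, Prm.pt]; ring)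
  · refine B 2 3 4 1 4 0 1 ?_ ?_ ?_ ?_ ?_ <;> first | omega | (simp only [sh5, cr3, crs, Prm.pt]; ring)
  · refine B 3 4 1 2 4 0 1 ?_ ?_ ?_ ?_ ?_ <;> first | omega | (simp only [sh5, cr3, crs, Prm.pt]; ring)
  · refine B 4 1 2 3 4 0 1 ?_ ?_ ?_ ?_ ?_ <;> first | omega | (simp only [sh5, cr3, crs, Prm.pt]; ring)
  · refine B 0 2 3 4 0 1 2 ?_ ?_ ?_ ?_ ?_ <;> first | omega | (simp only [sh5, cr3, crs, Prm.pt]; ring)
  · refine B 2 3 4 0 0 1 2 ?_ ?_ ?_ ?_ ?_ <;> first | omega | (simp only [sh5, cr3, crs, Prm.pt]; ring)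
  · refine B 3 4 0 2 0 1 2 ?_ ?_ ?_ ?_ ?_ <;> first | omega | (simp only [sh5, cr3, crs, Prm.pt]; ring)
  · refine B 4 0 2 3 0 1 2 ?_ ?_ ?_ ?_ ?_ <;> first | omega | (simp only [sh5, cr3, crs, Prm.pt]; ring)
  · refine B 0 1 3 4 1 2 3 ?_ ?_ ?_ ?_ ?_ <;> first | omega | (simp only [sh5, cr3, crs, Prm.pt]; ring)
  · refine B 1 3 4 0 1 2 3 ?_ ?_ ?_ ?_ ?_ <;> first | omega | (simp only [sh5, cr3, crs, Prm.pt]; ring)
  · refine B 3 4 0 1 1 2 3 ?_ ?_ ?_ ?_ ?_ <;> first | omega | (simp only [sh5, cr3, crs, Prm.pt]; ring)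
  · refine B 4 0 1 3 1 2 3 ?_ ?_ ?_ ?_ ?_ <;> first | omega | (simp only [sh5, cr3, crs, Prm.pt]; ring)
  · refine B 0 1 2 4 2 3 4 ?_ ?_ ?_ ?_ ?_ <;> first | omega | (simp only [sh5, cr3, crs, Prm.pt]; ring)
  · refine B 1 2 4 0 2 3 4 ?_ ?_ ?_ ?_ ?_ <;> first | omega | (simp only [sh5, cr3, crs, Prm.pt]; ring)
  · refine B 2 4 0 1 2 3 4 ?_ ?_ ?_ ?_ ?_ <;> first | omega | (simp only [sh5, cr3, crs, Prm.pt]; ring)
  · refine B 4 0 1 2 2 3 4 ?_ ?_ ?_ ?_ ?_ <;> first | omega | (simp only [sh5, cr3, crs, Prm.pt]; ring)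
  · refine B 0 1 2 3 3 4 0 ?_ ?_ ?_ ?_ ?_ <;> first | omega | (simp only [sh5, cr3, crs, Prm.pt]; ring)
  · refine B 1 2 3 0 3 4 0 ?_ ?_ ?_ ?_ ?_ <;> first | omega | (simp only [sh5, cr3, crs, Prm.pt]; ring)
  · refine B 2 3 0 1 3 4 0 ?_ ?_ ?_ ?_ ?_ <;> first | omega | (simp only [sh5, cr3, crs, Prm.pt]; ring)
  · refine B 3 0 1 2 3 4 0 ?_ ?_ ?_ ?_ ?_ <;> first | omega | (simp only [sh5, cr3, crs, Prm.pt]; ring)

theorem max_ineq (hP : P.ok) {i : Nat} (hi : i < 4) :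
    0 ≤ cr3 (P.pt p q (Nat.succ i)) (P.pt p q (Nat.mod (Nat.add (Nat.succ i) 2) 5))
      (P.pt p q (Nat.mod (Nat.add (Nat.succ i) 3) 5)) ∧
    cr3 (P.pt p q (Nat.succ i)) (P.pt p q (Nat.mod (Nat.add (Nat.succ i) 2) 5))
      (P.pt p q (Nat.mod (Nat.add (Nat.succ i) 3) 5)) ≤ 1 := by
  interval_cases i
  exacts [hP.t1, hP.t2, hP.t3', hP.t4]

variable (L : Lawful o ι)
include L

theorem ofS3 (n : Nat) : ι (ofN o (Nat.mul n nS3)) = n * Sr ^ 3 := by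
  rw [ofN_val L, Nat.mul_eq]; push_cast; simp only [nS3, Sr]; norm_num
theorem ofS4 (n : Nat) : ι (ofN o (Nat.mul n nS4)) = n * Sr ^ 4 := by
  rw [ofN_val L, Nat.mul_eq]; push_cast; simp only [nS4, Sr]; norm_num
theorem ofS5 (n : Nat) : ι (ofN o (Nat.mul n nS5)) = n * Sr ^ 5 := by
  rw [ofN_val L, Nat.mul_eq]; push_cast; simp only [nS5, Sr]; norm_num
theorem ofS6 (n : Nat) : ι (ofN o (Nat.mul n nS6)) = n * Sr ^ 6 := by
  rw [ofN_val L, Nat.mul_eq]; push_cast; simp only [nS6, Sr]; norm_num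

theorem addLen_sp (P : Prm) (p q : ℝ × ℝ) {i j lam : Nat} {l : L10 α} {pd : List G3}
    {k : L10 α → List G3 → Bool} (h : addLen o i j lam l pd k = true) : ∃ r s, k r s = true ∧
      valL ι P r + valP P p q s = valL ι P l + valP P p q pd +
        lam * Sr ^ 6 * Lf P.al P.be P.ga (P.pt p q i - P.pt p q j) := by
  rcases cnd_sp h with ⟨-, h⟩ | ⟨-, h⟩
  · rw [L.frc] at h
    obtain ⟨r, h, hi, hj, e⟩ := updL_sp L P h
    refine ⟨_, _, h, ?_⟩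
    rw [e, ofS5 L, pt_V P p q hi, pt_V P p q hj, Prm.len]
    ring
  · rcases cnd_sp h with ⟨-, h⟩ | ⟨-, h⟩
    · refine ⟨_, _, h, ?_⟩
      simp only [valP, List.map_cons, List.sum_cons]
      ring
    · refine ⟨_, _, h, ?_⟩
      simp only [valP, List.map_cons, List.sum_cons]
      rw [Lf_swap]
      ring

variable {st : St α} {lam w : Nat} {f : Fx α} {l : L10 α} {m : Mx α} {pd : List G3} {k : Kt α}

theorem tTri_sp (I : Inv o ι P st t p q) (T : TI ι P t p q f l m pd)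
    (h : tTri o st lam f l m pd w k = true) : TS ι P t p q k := by
  obtain ⟨n, w, h, -⟩ := rdN_sp h
  obtain ⟨s, w, h, -⟩ := rdN_sp h
  obtain ⟨⟨i, j, g⟩, hg, h⟩ := nthK_true h
  simp only [L.frc] at h
  obtain ⟨l', pd', h, e⟩ := addLen_sp L P p q h
  have c := abs_le.1 (I.gam _ hg).1
  have s6 : (0 : ℝ) ≤ lam * Sr ^ 6 := mul_nonneg (Nat.cast_nonneg _) (pow_pos Sr_pos 6).le
  have c1 := mul_le_mul_of_nonneg_left c.1 s6
  have c2 := mul_le_mul_of_nonneg_left c.2 s6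
  dsimp only at c1 c2
  unfold TI at T
  rcases cnd_sp h with ⟨-, h⟩ | ⟨-, h⟩
  · obtain ⟨m', h, e2⟩ := addT_sp L P t p q (L.neg _) h
    refine ⟨_, _, _, _, _, h, ?_⟩
    rw [ofS4 L] at e2
    unfold TI
    linarith
  · obtain ⟨m', h, e2⟩ := addT_sp L P t p q (by rw [L.neg, neg_neg]) h
    refine ⟨_, _, _, _, _, h, ?_⟩
    rw [L.neg, ofS4 L] at e2
    unfold TI
    linarith

theorem tLong_sp (I : Inv o ι P st t p q) (T : TI ι P t p q f l m pd)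
    (h : tLong o st lam f l m pd w k = true) : TS ι P t p q k := by
  obtain ⟨n, w, h, -⟩ := rdN_sp h
  obtain ⟨s, w, h, -⟩ := rdN_sp h
  obtain ⟨⟨i, j, g⟩, hg, h⟩ := nthK_true h
  simp only [L.frc] at h
  obtain ⟨l', pd', h, e⟩ := addLen_sp L P p q h
  obtain ⟨r, h, h1, h2, e2⟩ := updL_sp L P h
  have s6 : (0 : ℝ) ≤ lam * Sr ^ 6 := mul_nonneg (Nat.cast_nonneg _) (pow_pos Sr_pos 6).le
  have c1 := mul_le_mul_of_nonneg_left (I.gam _ hg).2.1 s6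
  have c2 := mul_le_mul_of_nonneg_left (I.gam _ hg).2.2 s6
  dsimp only at c1 c2
  rw [L.neg, ofS5 L, Prm.len, ← pt_V P p q h1, ← pt_V P p q h2] at e2
  refine ⟨_, _, _, _, _, h, ?_⟩
  unfold TI at T ⊢
  cases hs : Nat.beq s 0
  · rw [hs, cnd_false] at e2
    linarith
  · rw [hs, cnd_true] at e2
    linarith

theorem tArea_sp (hP : P.ok) (I : Inv o ι P st t p q) (T : TI ι P t p q f l m pd)
    (h : tArea o st lam f l m pd w k = true) : TS ι P t p q k := by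
  obtain ⟨i, w, h, -⟩ := rdN_sp h
  obtain ⟨j, w, h, -⟩ := rdN_sp h
  obtain ⟨g, w, h, -⟩ := rdN_sp h
  rcases cnd_sp h with ⟨h1, h⟩ | ⟨-, h⟩
  on_goal 2 => cases h
  simp only [frcN_eq, L.frc] at h
  obtain ⟨h1, h3⟩ := band_sp h1
  obtain ⟨h1, h2⟩ := band_sp h1
  have hij : i ≠ j := by
    rcases cnd_sp h3 with ⟨-, h3⟩ | ⟨h3, -⟩
    · cases h3
    · exact beq_ns h3
  have c := area_ineq (p := p) (q := q) hP (pt_mem hP I.hp I.hq g) (ble_sp h1) (ble_sp h2) hij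
  obtain ⟨m1, h, e1⟩ := addT_sp L P t p q (L.neg _) h
  obtain ⟨m2, h, e2⟩ := addT_sp L P t p q (by rw [L.neg, neg_neg]) h
  have s6 : (0 : ℝ) ≤ lam * Sr ^ 6 := mul_nonneg (Nat.cast_nonneg _) (pow_pos Sr_pos 6).le
  have c1 := mul_le_mul_of_nonneg_left c s6
  rw [ofS4 L] at e1
  rw [L.neg, ofS4 L] at e2
  refine ⟨_, _, _, _, _, h, ?_⟩
  unfold TI at T ⊢
  linarith

theorem tMax_sp (hP : P.ok) (T : TI ι P t p q f l m pd)
    (h : tMax o st lam f l m pd w k = true) : TS ι P t p q k := by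
  obtain ⟨i, w, h, hi⟩ := rdN_sp h
  simp only [frcN_eq, L.frc] at h
  have c := (max_ineq (p := p) (q := q) hP (i := i) (by omega)).2
  obtain ⟨f1, h, e1, e3⟩ := setC_sp (ι := ι) P t h
  obtain ⟨m2, h, e2⟩ := addT_sp L P t p q (by rw [L.neg, neg_neg]) h
  have s6 : (0 : ℝ) ≤ lam * Sr ^ 6 := mul_nonneg (Nat.cast_nonneg _) (pow_pos Sr_pos 6).le
  have c1 := mul_le_mul_of_nonneg_left c s6
  rw [L.add, ofS6 L] at e1
  rw [L.neg, ofS4 L] at e2
  refine ⟨_, _, _, _, _, h, ?_⟩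
  unfold TI at T ⊢
  rw [valF_eq] at T ⊢
  rw [e3]
  linarith

theorem tPos_sp (hP : P.ok) (T : TI ι P t p q f l m pd)
    (h : tPos o st lam f l m pd w k = true) : TS ι P t p q k := by
  obtain ⟨i, w, h, hi⟩ := rdN_sp h
  simp only [frcN_eq, L.frc] at h
  have c := (max_ineq (p := p) (q := q) hP (i := i) (by omega)).1
  obtain ⟨m2, h, e2⟩ := addT_sp L P t p q (L.neg _) h
  have s6 : (0 : ℝ) ≤ lam * Sr ^ 6 := mul_nonneg (Nat.cast_nonneg _) (pow_pos Sr_pos 6).le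
  have c1 := mul_nonneg s6 c
  rw [ofS4 L] at e2
  refine ⟨_, _, _, _, _, h, ?_⟩
  unfold TI at T ⊢
  linarith

theorem tPsd_sp (hP : P.ok) (T : TI ι P t p q f l m pd)
    (h : tPsd o st lam f l m pd w k = true) : TS ι P t p q k := by
  unfold tPsd at h
  obtain ⟨ux, w, h⟩ := rd_sp rdI_ex h
  obtain ⟨uy, w, h⟩ := rd_sp rdI_ex h
  rw [L.frc] at h
  obtain ⟨f1, h, -, e⟩ := axF_sp L P t h
  have s5 : (0 : ℝ) ≤ lam * Sr ^ 5 := mul_nonneg (Nat.cast_nonneg _) (pow_pos Sr_pos 5).le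
  have c := mul_nonneg s5 (hP.psd (ux, uy))
  refine ⟨_, _, _, _, _, h, ?_⟩
  unfold TI at T ⊢
  rw [e, ofS4 L]
  conv => enter [2, 1, 1, 1, 2]; simp only [valF, L.zero, L.ofI, imul_eq, iadd_eq]
  simp only [Qf] at c
  push_cast
  linarith

theorem tAff_sp (I : Inv o ι P st t p q) (T : TI ι P t p q f l m pd)
    (h : tAff o st lam f l m pd w k = true) : TS ι P t p q k := by
  obtain ⟨n, w, h, -⟩ := rdN_sp h
  obtain ⟨g, hg, h⟩ := nthK_true h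
  rw [L.frc] at h
  obtain ⟨f1, h, -, e⟩ := axF_sp L P t h
  obtain ⟨l1, h, e2⟩ := axL_sp L P h
  have c := mul_nonneg (Nat.cast_nonneg (α := ℝ) lam) (I.facts g hg)
  rw [ofN_val L] at e e2
  refine ⟨_, _, _, _, _, h, ?_⟩
  unfold TI at T ⊢
  linarith

theorem tDir_sp (I : Inv o ι P st t p q) (T : TI ι P t p q f l m pd)
    (h : tDir o st lam f l m pd w k = true) : TS ι P t p q k := by
  rw [tDir, L.frc] at h
  obtain ⟨f1, h, -, e⟩ := axF_sp L P t h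
  obtain ⟨l1, h, e2⟩ := axL_sp L P h
  obtain ⟨m1, h, e3⟩ := axM_sp L P t h
  have c := mul_nonneg (mul_nonneg (Nat.cast_nonneg (α := ℝ) lam) (pow_pos Sr_pos 3).le) (I.d5 q)
  have e3 := e3 p q
  rw [ofS3 L] at e e2 e3
  refine ⟨_, _, _, _, _, h, ?_⟩
  unfold TI at T ⊢
  unfold valA at c
  linarith

theorem trms_sp (hP : P.ok) (I : Inv o ι P st t p q) {pb ps : Nat} (nt : Nat) :
    ∀ {f l m pd w}, TI ι P t p q f l m pd → trms o st pb ps nt k f l m pd w = true →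
      TS ι P t p q k := by
  induction nt with
  | zero => intro f l m pd w T h; exact ⟨_, _, _, _, _, h, T⟩
  | succ n ih =>
    intro f l m pd w T h
    have h : rdN 8 w (fun kind w => rdN pb w (fun u w => frcN (Nat.mul u ps) (fun lam =>
      sel7 kind (tTri o) (tLong o) (tArea o) (tMax o) (tPos o) (tPsd o) (tAff o) (tDir o)
        st lam f l m pd w (trms o st pb ps n k)))) = true := h
    obtain ⟨kind, w, h, -⟩ := rdN_sp h
    obtain ⟨u, w, h, -⟩ := rdN_sp h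
    obtain ⟨lam, h, -⟩ := frcN_sp h
    have : TS ι P t p q (trms o st pb ps n k) := by
      rcases cases8 kind with rfl | rfl | rfl | rfl | rfl | rfl | rfl | ⟨a, rfl⟩
      · exact tTri_sp L I T h
      · exact tLong_sp L I T h
      · exact tArea_sp (st := st) L hP I T h
      · exact tMax_sp (st := st) L hP T h
      · exact tPos_sp (st := st) L hP T h
      · exact tPsd_sp (st := st) L hP T h
      · exact tAff_sp L I T h
      · exact tDir_sp L I T h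
    obtain ⟨_, _, _, _, _, h, T⟩ := this
    exact ih T h

end

end Pool.Agent.Lib.MP_9d820d_co
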