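import Pool.Agent.Lib.MP_9d820d_co.Quad
import Pool.Agent.Lib.MP_9d820d_co.Terms

set_option autoImplicit false

namespace Pool.Agent.Lib.MP_9d820d_co

noncomputable section

section
variable {α : Type} (o : Ops α) (ι : α → ℝ) (P : Prm)

def sl (t : ℝ) (a : Line α) : ℝ × ℝ × ℝ := (ι a.nx * Sr, ι a.ny * Sr, ι a.c0 + t * ι a.c1)

def polyR (ls : List (Line α)) (a : Line α) (k : List (Vx α) → Nat → Bool) (n : Nat) :
    Line α → α → List (Vx α) → Nat → Bool :=
  Nat.rec (motive := fun _ => Line α → α → List (Vx α) → Nat → Bool)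
    (fun p xp vs w => o.cor p xp a (o.aux a) w (fun v w => k (v :: vs) w))
    (fun _ ih p xp vs w => rdN 32 w (fun i w => nthK ls i (fun b => o.frc (o.aux b) (fun xb =>
      o.cor p xp b xb w (fun v w => ih b xb (v :: vs) w))))) n

def valM1 (t : ℝ) (p q : ℝ × ℝ) (m : Mx α) : ℝ :=
  Sr ^ 2 * (ι m.m15 * crs (P.V 1) p + ι m.m25 * crs (P.V 2) p + ι m.m35 * crs (P.V 3) p +
    ι m.m45 * crs (P.V 4) p + ι m.m16 * crs (P.V 1) q + ι m.m26 * crs (P.V 2) q +
    ι m.m36 * crs (P.V 3) q + ι m.m46 * crs (P.V 4) q + ι m.m56 * crs p q) +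
  t * Sr * (crs (ι m.e5x, ι m.e5y) p + crs (ι m.e6x, ι m.e6y) q)

end

variable {α : Type} {o : Ops α} {ι : α → ℝ} {P : Prm} {t : ℝ} {p q : ℝ × ℝ}

theorem cx_lt {F : ℝ × ℝ → ℝ} (h : ConvexOn ℝ Set.univ F) : Convex ℝ {x | F x < 0} := by
  simpa using h.convex_lt 0

theorem valM1_cx1 (c : ℝ) (q : ℝ × ℝ) (m : Mx α) :
    ConvexOn ℝ Set.univ (fun p => c + valM1 ι P t p q m) := by
  refine ⟨convex_univ, fun x _ y _ a b _ _ hab => le_of_eq ?_⟩
  obtain rfl : b = 1 - a := by linarith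
  simp only [valM1, crs, Prod.fst_add, Prod.snd_add, Prod.smul_fst, Prod.smul_snd, smul_eq_mul]
  ring

theorem valM1_cx2 (c : ℝ) (p : ℝ × ℝ) (m : Mx α) :
    ConvexOn ℝ Set.univ (fun q => c + valM1 ι P t p q m) := by
  refine ⟨convex_univ, fun x _ y _ a b _ _ hab => le_of_eq ?_⟩
  obtain rfl : b = 1 - a := by linarith
  simp only [valM1, crs, Prod.fst_add, Prod.snd_add, Prod.smul_fst, Prod.smul_snd, smul_eq_mul]
  ring

theorem valP_comb (hP : P.ok) {a b : ℝ} (ha : 0 ≤ a) (hb : 0 ≤ b) (hab : a + b = 1)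
    (x y x' y' : ℝ × ℝ) (pd : List G3) :
    valP P (a • x + b • y) (a • x' + b • y') pd ≤ a * valP P x x' pd + b * valP P y y' pd := by
  have e : ∀ i, P.pt (a • x + b • y) (a • x' + b • y') i = a • P.pt x x' i + b • P.pt y y' i := by
    intro i
    rcases cases8 i with rfl | rfl | rfl | rfl | rfl | rfl | rfl | ⟨a, rfl⟩ <;>
      simp only [Prm.pt, ← add_smul, hab, one_smul]
  induction pd with
  | nil => simp [valP]
  | cons g pd ih =>
    simp only [valP, List.map_cons, List.sum_cons] at ih ⊢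
    have := Lf_comb hP.psd (P.pt x x' g.i - P.pt x x' g.j) (P.pt y y' g.i - P.pt y y' g.j) ha hb
    have e2 : a • (P.pt x x' g.i - P.pt x x' g.j) + b • (P.pt y y' g.i - P.pt y y' g.j) =
        P.pt (a • x + b • y) (a • x' + b • y') g.i - P.pt (a • x + b • y) (a • x' + b • y') g.j := by
      rw [e, e, smul_sub, smul_sub]; abel
    rw [e2] at this
    have := mul_le_mul_of_nonneg_left this
      (mul_nonneg (Nat.cast_nonneg (α := ℝ) g.k) (pow_pos Sr_pos 6).le)
    linarith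

theorem valP_cx1 (hP : P.ok) (c : ℝ) (q : ℝ × ℝ) (pd : List G3) :
    ConvexOn ℝ Set.univ (fun p => c + valP P p q pd) := by
  refine ⟨convex_univ, fun x _ y _ a b ha hb hab => ?_⟩
  have := valP_comb hP ha hb hab x y q q pd
  rw [← add_smul, hab, one_smul] at this
  obtain rfl : b = 1 - a := by linarith
  simp only [smul_eq_mul]
  linarith

theorem valP_cx2 (hP : P.ok) (c : ℝ) (p : ℝ × ℝ) (pd : List G3) :
    ConvexOn ℝ Set.univ (fun q => c + valP P p q pd) := by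
  refine ⟨convex_univ, fun x _ y _ a b ha hb hab => ?_⟩
  have := valP_comb hP ha hb hab p p x y pd
  rw [← add_smul, hab, one_smul] at this
  obtain rfl : b = 1 - a := by linarith
  simp only [smul_eq_mul]
  linarith

theorem pt_ne5 (P : Prm) (p p' q : ℝ × ℝ) {i : Nat} (h : i ≠ 5) : P.pt p q i = P.pt p' q i := by
  rcases cases8 i with rfl | rfl | rfl | rfl | rfl | rfl | rfl | ⟨a, rfl⟩ <;>
    first | exact absurd rfl h | rfl

theorem pt_ne6 (P : Prm) (p q q' : ℝ × ℝ) {i : Nat} (h : i ≠ 6) : P.pt p q i = P.pt p q' i := by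
  rcases cases8 i with rfl | rfl | rfl | rfl | rfl | rfl | rfl | ⟨a, rfl⟩ <;>
    first | exact absurd rfl h | rfl

theorem pdOK_sp {u5 u6 : Bool} {g : G3} (h : pdOK u5 u6 g = true) : (g.j = 5 ∨ g.j = 6) ∧
    (u5 = false → g.i ≠ 5 ∧ g.j ≠ 5) ∧ (u6 = false → g.i ≠ 6 ∧ g.j ≠ 6) := by
  rcases g with ⟨i, j, k⟩
  dsimp only
  rcases cnd_sp h with ⟨h1, h⟩ | ⟨-, h⟩
  · have h1 := beq_sp h1
    have h2 := ble_sp (band_sp h).2
    have h3 := (band_sp h).1
    exact ⟨Or.inl h1, fun x => by simp [x] at h3, fun _ => by omega⟩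
  · have h1 := beq_sp (band_sp (band_sp h).1).1
    have h3 := (band_sp (band_sp h).1).2
    refine ⟨Or.inr h1, fun x => ?_, fun x => by simp [x] at h3⟩
    rcases bor_sp (band_sp h).2 with h | h
    · have := ble_sp h
      omega
    · have := (band_sp h).2
      rw [x] at this
      cases this

variable (L : Lawful o ι)
include L

theorem cor_sp (ht : TT o t) {a b : Line α} {w : Nat} {k : Vx α → Nat → Bool}
    (h : o.cor a (o.aux a) b (o.aux b) w k = true) : ∃ v w', k v w' = true ∧ Flat o ι v ∧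
      Corner (sl ι t a) (sl ι t b) (vtx ι t v) := by
  obtain ⟨v, w', h, h1, h2, h3⟩ := L.cor a b w k h
  have S0 := Sr_pos.ne'
  have e : ∀ c : Line α, lev (sl ι t c) (vtx ι t v) = lvV ι c v t := fun c => by
    simp only [lev, sl, vtx, lvV]; field_simp; ring
  refine ⟨v, w', h, h3, ?_, by rw [e]; exact (h2 t ht).1, by rw [e]; exact (h2 t ht).2⟩
  have := mul_pos h1 (pow_pos Sr_pos 2)
  simp only [sl]
  linarith

theorem polyR_sp (ht : TT o t) {ls : List (Line α)} {a : Line α} {k : List (Vx α) → Nat → Bool}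
    (n : Nat) : ∀ {b : Line α} {vs : List (Vx α)} {w : Nat},
      polyR o ls a k n b (o.aux b) vs w = true → ∃ (bs : List (Line α)) (us ws : List (Vx α)) (w' : Nat),
        k ws w' = true ∧ (∀ v, v ∈ ws ↔ v ∈ us ∨ v ∈ vs) ∧ (∀ c ∈ bs, c ∈ ls) ∧
        (∀ v ∈ us, Flat o ι v) ∧ PChain (sl ι t a) (sl ι t b) (bs.map (sl ι t)) (us.map (vtx ι t)) := by
  induction n with
  | zero =>
    intro b vs w h
    obtain ⟨v, w, h, h1, h2⟩ := cor_sp L ht (k := fun v w => k (v :: vs) w) h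
    exact ⟨[], [v], _, _, h, by simp, by simp, by simpa using h1, PChain.last _ _ h2⟩
  | succ n ih =>
    intro b vs w h
    have h : rdN 32 w (fun i w => nthK ls i (fun c => o.frc (o.aux c) (fun xb =>
      o.cor b (o.aux b) c xb w (fun v w => polyR o ls a k n c xb (v :: vs) w)))) = true := h
    obtain ⟨i, w, h, -⟩ := rdN_sp h
    obtain ⟨c, hc, h⟩ := nthK_true h
    rw [L.frc] at h
    obtain ⟨v, w, h, h1, h2⟩ := cor_sp L ht h
    obtain ⟨bs, us, ws, w, h, g1, g2, g3, g4⟩ := ih h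
    refine ⟨c :: bs, v :: us, ws, w, h, fun u => ?_, fun d hd => ?_, fun u hu => ?_,
      PChain.cons _ _ _ _ _ h2 g4⟩
    · rw [g1, List.mem_cons, List.mem_cons]; tauto
    · rcases List.mem_cons.1 hd with rfl | hd
      exacts [hc, g2 d hd]
    · rcases List.mem_cons.1 hu with rfl | hu
      exacts [h1, g3 u hu]

theorem poly_sp (ht : TT o t) {ls : List (Line α)} {w : Nat} {k : List (Vx α) → Nat → Bool}
    (h : poly o ls w k = true) : ∃ vs w', k vs w' = true ∧ (∀ v ∈ vs, Flat o ι v) ∧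
      ∀ p, (∀ a ∈ ls, 0 ≤ lvP ι t a p) → ∀ F : ℝ × ℝ → ℝ, ConvexOn ℝ Set.univ F →
        (∀ v ∈ vs, F (vtx ι t v) < 0) → F p < 0 := by
  obtain ⟨n, w, h, -⟩ := rdN_sp h
  obtain ⟨i, w, h, -⟩ := rdN_sp h
  obtain ⟨a, ha, h⟩ := nthK_true h
  rw [L.frc] at h
  obtain ⟨bs, us, ws, w, h, g1, g2, g3, g4⟩ := polyR_sp L ht (ls := ls) (a := a) (k := k) n h
  simp only [List.not_mem_nil, or_false] at g1
  refine ⟨ws, w, h, fun v hv => g3 v ((g1 v).1 hv), fun p hp F hF hv => ?_⟩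
  have e : ∀ c : Line α, lev (sl ι t c) p = lvP ι t c p := fun c => by
    simp only [lev, sl, lvP]; ring
  refine poly_mem g4 (fun l hl => ?_) {x | F x < 0} (cx_lt hF) (fun v hv' => ?_)
  · rcases List.mem_cons.1 hl with rfl | hl
    · rw [e]; exact hp a ha
    · obtain ⟨c, hc, rfl⟩ := List.mem_map.1 hl
      rw [e]; exact hp c (g2 c hc)
  · obtain ⟨u, hu, rfl⟩ := List.mem_map.1 hv'
    exact hv u ((g1 u).2 hu)

theorem isz6_sp {a b c d e f : α} (h : isz6 o a b c d e f = true) :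
    ι a = 0 ∧ ι b = 0 ∧ ι c = 0 ∧ ι d = 0 ∧ ι e = 0 ∧ ι f = 0 := by
  simp only [isz6, band_eq] at h
  exact ⟨L.isz _ h.1, L.isz _ h.2.1, L.isz _ h.2.2.1, L.isz _ h.2.2.2.1, L.isz _ h.2.2.2.2.1,
    L.isz _ h.2.2.2.2.2⟩

theorem zVx_flat : Flat o ι (zVx o) := fun _ => ⟨L.zero, L.zero⟩

theorem loops_sp {st : St α} (I : Inv o ι P st t p q) {u5 u6 : Bool} {m : Mx α} {w : Nat} {f : Fx α}
    {kk : Vx α → Vx α → Fx α → Bool} (h : loops o st u5 u6 m w f kk = true)
    (H : ℝ × ℝ → ℝ × ℝ → ℝ) (c1 : ∀ q, ConvexOn ℝ Set.univ (fun p => H p q))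
    (c2 : ∀ p, ConvexOn ℝ Set.univ (fun q => H p q))
    (i5 : u5 = false → ∀ p p' q, H p q = H p' q) (i6 : u6 = false → ∀ p q q', H p q = H p q')
    (hk : ∀ v5 v6 r, Flat o ι v5 → Flat o ι v6 → kk v5 v6 r = true → val3 ι P r = val3 ι P f →
      val4 ι P t r + H (vtx ι t v5) (vtx ι t v6) < 0) :
    val4 ι P t f + valM1 ι P t p q m + H p q < 0 := by
  have S0 := Sr_pos.ne'
  have ht := I.tt
  have k1 := fun q => (valM1_cx1 (ι := ι) (P := P) (t := t) (val4 ι P t f) q m).add (c1 q)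
  have k2 := fun p => (valM1_cx2 (ι := ι) (P := P) (t := t) (val4 ι P t f) p m).add (c2 p)
  rcases m with ⟨m12, m13, m14, m23, m24, m34, m15, m25, m35, m45, m16, m26, m36, m46, m56,
    e5x, e5y, e6x, e6y⟩
  simp only [loops, L.frc, fma_eq L] at h
  rcases cnd_sp h with ⟨-, h⟩ | ⟨h5, h⟩
  · obtain ⟨vs5, w, h, f5, p5⟩ := poly_sp L ht h
    rcases cnd_sp h with ⟨-, h⟩ | ⟨h6, h⟩
    · obtain ⟨vs6, w, h, f6, p6⟩ := poly_sp L ht h
      refine p5 p I.ls5 _ (k1 q) fun v5 hv5 => ?_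
      obtain ⟨r, h, e1, e2⟩ := ptUpd_sp L ht I.bx (f5 v5 hv5) (lall_true h v5 hv5)
      refine p6 q I.ls6 _ (k2 (vtx ι t v5)) fun v6 hv6 => ?_
      obtain ⟨s, h, e3, e4⟩ := ptUpd_sp L ht I.bx (f6 v6 hv6) (lall_true h v6 hv6)
      have := hk v5 v6 s (f5 v5 hv5) (f6 v6 hv6) h (e3.trans e1)
      have a1 : ι v5.x0 = Sr * (vtx ι t v5).1 - t * ι v5.x1 := by simp only [vtx]; field_simp; ring
      have a2 : ι v5.y0 = Sr * (vtx ι t v5).2 - t * ι v5.y1 := by simp only [vtx]; field_simp; ring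
      simp only [fmaV_val L, L.mul, L.add, L.sub, L.s1, L.hf, crs, a1, a2] at e2 e4
      simp only [Pi.add_apply, valM1, crs, Prm.V, Prm.pt]
      linarith
    · obtain ⟨h1, h⟩ := band_sp h
      obtain ⟨z1, z2, z3, z4, z5, z6⟩ := isz6_sp L (band_sp h1).2
      have z0 := L.isz _ (band_sp h1).1
      refine p5 p I.ls5 _ (k1 q) fun v5 hv5 => ?_
      obtain ⟨r, h, e1, e2⟩ := ptUpd_sp L ht I.bx (f5 v5 hv5) (lall_true h v5 hv5)
      have := hk v5 _ r (f5 v5 hv5) (zVx_flat L) h e1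
      rw [i6 h6 _ _ q] at this
      simp only [L.mul, L.add, L.sub, L.s1, L.hf, crs] at e2
      simp only [Pi.add_apply, valM1, crs, Prm.V, Prm.pt, z0, z1, z2, z3, z4, z5, z6]
      linarith
  · obtain ⟨h1, h⟩ := band_sp h
    obtain ⟨y1, y2, y3, y4, y5, y6⟩ := isz6_sp L (band_sp h1).2
    have z0 := L.isz _ (band_sp h1).1
    rcases cnd_sp h with ⟨-, h⟩ | ⟨h6, h⟩
    · obtain ⟨vs6, w, h, f6, p6⟩ := poly_sp L ht h
      refine p6 q I.ls6 _ (k2 p) fun v6 hv6 => ?_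
      obtain ⟨r, h, e1, e2⟩ := ptUpd_sp L ht I.bx (f6 v6 hv6) (lall_true h v6 hv6)
      have := hk _ v6 r (zVx_flat L) (f6 v6 hv6) h e1
      rw [i5 h5 _ p] at this
      simp only [L.mul, L.add, L.sub, L.s1, L.hf, crs] at e2
      simp only [Pi.add_apply, valM1, crs, Prm.V, Prm.pt, z0, y1, y2, y3, y4, y5, y6]
      linarith
    · obtain ⟨z1, z2, z3, z4, z5, z6⟩ := isz6_sp L (band_sp h).1
      have := hk _ _ f (zVx_flat L) (zVx_flat L) (band_sp h).2 rfl
      rw [i5 h5 _ p, i6 h6 _ _ q] at this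
      simp only [valM1, crs, z0, y1, y2, y3, y4, y5, y6, z1, z2, z3, z4, z5, z6]
      linarith

theorem finM_sp (P : Prm) (t : ℝ) (p q : ℝ × ℝ) {f : Fx α} {m : Mx α} {k : Fx α → Bool}
    (h : finM o f m k = true) : ∃ r, k r = true ∧
      valF ι P t f + valM ι P t p q m = valF ι P t r + valM1 ι P t p q m := by
  cases f; cases m
  simp only [finM, L.frc, fma_eq L] at h
  refine ⟨_, h, ?_⟩
  simp only [valF, valM, valM1, fmaV_val L, L.mul, L.add, L.sub, L.s1, L.hf, L.s2, crs, Prm.V, Prm.pt]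
  ring

theorem fin_sp (hP : P.ok) {st : St α} (I : Inv o ι P st t p q) {u5 u6 : Bool} :
    ¬ TS ι P t p q (fin o st u5 u6) := by
  rintro ⟨f, l, m, pd, w, h, T⟩
  have ht := I.tt
  obtain ⟨f1, h, e1⟩ := finM_sp L P t p q h
  obtain ⟨f2, h, e2⟩ := linF_sp L ht I.bx h
  obtain ⟨c0, c1, h, e3⟩ := lpart_sp L I.rng h
  obtain ⟨f3, h, e4, -⟩ := setC_sp (ι := ι) P t h
  unfold TI at T
  cases pd with
  | nil =>
    obtain ⟨f4, h, e5⟩ := fold456_sp L I.bx (k := fun f => loops o st u5 u6 m w f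
      (fun _ _ f => top4 o st.bx f (ltT o))) h
    have := loops_sp L I h (fun _ _ => 0) (fun _ => convexOn_const _ convex_univ)
      (fun _ => convexOn_const _ convex_univ) (fun _ _ _ _ => rfl) (fun _ _ _ _ => rfl)
      (fun v5 v6 r _ _ h _ => by
        obtain ⟨x, y, h, e⟩ := top4_sp L I.bx h
        linarith [ltT_sp L ht h])
    simp only [valP, List.map_nil, List.sum_nil] at T
    linarith
  | cons g pd =>
    obtain ⟨h1, h⟩ := band_sp (a := lall (g :: pd) (pdOK u5 u6)) h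
    generalize g :: pd = pd at *
    have ok := fun g hg => pdOK_sp (lall_true h1 g hg)
    have := loops_sp L I h (fun p q => val3 ι P f3 + valP P p q pd) (fun q => valP_cx1 hP _ q pd)
      (fun p => valP_cx2 hP _ p pd)
      (fun h5 p p' q => by
        simp only [valP]
        rw [List.map_congr_left fun g hg => by
          rw [pt_ne5 P p p' q ((ok g hg).2.1 h5).1, pt_ne5 P p p' q ((ok g hg).2.1 h5).2]])
      (fun h6 p q q' => by
        simp only [valP]
        rw [List.map_congr_left fun g hg => by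
          rw [pt_ne6 P p q q' ((ok g hg).2.2 h6).1, pt_ne6 P p q q' ((ok g hg).2.2 h6).2]])
      (fun v5 v6 r h5 h6 h e => by
        obtain ⟨s, h, e1⟩ := qall_sp L hP ht I.bx h5 h6 (fun g hg => (ok g hg).1) h
        obtain ⟨s1, h, e2⟩ := fold456_sp L I.bx h
        obtain ⟨x, y, h, e3⟩ := top4_sp L I.bx h
        have := ltT_sp L ht h
        rw [valN, e] at e1
        linarith)
    rw [valN] at e4
    linarith

theorem leaf_sp (hP : P.ok) {st : St α} {w : Nat} (h : leaf o st w = true) : Bad o ι P st := by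
  intro t p q I
  simp only [leaf, rdN_eq, frcN_eq, frcB_eq] at h
  generalize Nat.beq (w % 2) 0 = ui at h
  cases ui
  · have := I.ini
    rcases st with ⟨bx, llo, lhi, facts, gam, root, ls5, ls6, ⟨f, l, m⟩, d5⟩
    exact fin_sp L hP I (trms_sp L hP I _ (by simpa [TI, valP, valA] using this) h)
  · exact fin_sp L hP I (trms_sp L hP I _
      (by simp [TI, valP, zA, zF_valF L, zL_val L, zM_val L]) h)

end

end Pool.Agent.Lib.MP_9d820d_co
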