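import Pool.Agent.Lib.MP_9d820d_co.IDefs

set_option autoImplicit false
set_option linter.unusedVariables false

namespace Pool.Agent.Lib.MP_9d820d_co.IFast

open Fast

theorem idg_eq (a o : Nat) : idg a o = ((a >>> o) &&& IMT) := by rfl
theorem wa_eq (b o : Nat) : wa b o = ((8388608 - (fl b o)) + (((fl (b >>> 32) o) - 8388608) - (8388608 - (fl b o)))) := by rfl
theorem mn_eq (b o : Nat) : mn b o = ((fl b o) - ((fl b o) - 8388608)) := by rfl
theorem mw_eq (b o : Nat) : mw b o = (((fl (b >>> 32) o) + (8388608 - (fl (b >>> 32) o))) - (mn b o)) := by rfl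
theorem iww_eq (b : Nat) : iww b = (((wa b 0) * (wa b 192)) + ((wa b 128) * (wa b 64))) := by rfl
theorem r2_eq (c x y : Nat) : r2 c x y = (((c <<< 1280) + (x <<< 640)) + y) := by rfl
theorem r3_eq (c x y : Nat) : r3 c x y = ((((c <<< 1920) + (x <<< 1280)) + (y <<< 640)) + y) := by rfl
theorem pk7_eq (c x0 y0 x1 y1 x2 y2 x3 y3 x4 y4 x5 y5 x6 y6 : Nat) : pk7 c x0 y0 x1 y1 x2 y2 x3 y3 x4 y4 x5 y5 x6 y6 = ((r3 (r3 (r3 (r2 (r2 (r2 (r2 c x0 y0) x1 y1) x2 y2) x3 y3) x4 y4) x5 y5) x6 y6) <<< 7040) := by rfl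
theorem pk10_eq (x0 x1 x2 x3 x4 x5 x6 x7 x8 x9 : Nat) : pk10 x0 x1 x2 x3 x4 x5 x6 x7 x8 x9 = ((r2 (r2 (r2 (r2 (r2 0 x0 x1) x2 x3) x4 x5) x6 x7) x8 x9) <<< 640) := by rfl
theorem rlb_eq (b : Nat) : rlb b = ((pk7 HL (fl b 0) (mn b 0) (fl b 64) (mn b 64) (fl b 128) (mn b 128) (fl b 192) (mn b 192) (fl b 256) (mn b 256) (fl b 320) (mn b 320) (fl b 384) (mn b 384)) + (2305843009213693952 - (iww b))) := by rfl
theorem rwb_eq (b : Nat) : rwb b = ((pk7 1 (wd b 0) (mw b 0) (wd b 64) (mw b 64) (wd b 128) (mw b 128) (wd b 192) (mw b 192) (wd b 256) (mw b 256) (wd b 320) (mw b 320) (wd b 384) (mw b 384)) + (2 * (iww b))) := by rfl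
theorem slb_eq (b : Nat) : slb b = (((((((((((((2305843009440186370 + (fl b 0)) + (mn b 0)) + (fl b 64)) + (mn b 64)) + (fl b 128)) + (mn b 128)) + (fl b 192)) + (mn b 192)) + (fl b 256)) + (fl b 320)) + (fl b 384)) + (2 * (((mn b 256) + (mn b 320)) + (mn b 384)))) + (2305843009213693952 - (iww b))) := by rfl
theorem irl_eq (b r : Nat) : irl b r = ((rlb b) + (pk10 (fl r 0) (fl r 64) (fl r 128) (fl r 192) (fl r 256) (fl r 320) (fl r 384) (fl r 448) (fl r 512) (fl r 576))) := by rfl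
theorem irw_eq (b r : Nat) : irw b r = ((rwb b) + (pk10 (wd r 0) (wd r 64) (wd r 128) (wd r 192) (wd r 256) (wd r 320) (wd r 384) (wd r 448) (wd r 512) (wd r 576))) := by rfl
theorem isl_eq (b r : Nat) : isl b r = (((((((((((((slb b) + (fl r 0)) + (fl r 64)) + (fl r 128)) + (fl r 192)) + (fl r 256)) + (fl r 320)) + (fl r 384)) + (fl r 448)) + (fl r 512)) + (fl r 576)) <<< 418) - ER1) := by rfl
theorem fn4_eq (b r z : Nat) : fn4 b r z = ((((((z * (irl b r)) + ((z &&& (((z >>> 418) &&& ONB) * CPM)) * (irw b r))) + ((ZC - z) * RD)) >>> 19200) &&& MKB) - (isl b r)) := by rfl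
theorem fn3_eq (b r z y : Nat) : fn3 b r z y = ((((z &&& MKB) + ((y &&& MKB) - BB4)) - CPV) + (fn4 b r z)) := by rfl
theorem fn2i_eq (b r x y : Nat) : fn2i b r x y = (fn3 b r (((x <<< 256) + (y * PHS)) + ZB) y) := by rfl
theorem fn1_eq (b r u0 u1 s u3 : Nat) : fn1 b r u0 u1 s u3 = (fn2i b r (u0 + s) ((u1 + s) + u3)) := by rfl
theorem fn0_eq (b r y : Nat) : fn0 b r y = (fn1 b r (y &&& MB) ((y >>> 160) &&& MB) (((y >>> 320) &&& MB) + ((y >>> 480) &&& MB)) ((y >>> 480) &&& MB)) := by rfl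
theorem ifin_eq (b r v : Nat) : ifin b r v = ((v >>> 19997) + (fn0 b r (v + BIV))) := by rfl
theorem q0_eq (x y z : Nat) : q0 x y z = ((((x * x) * QC1) + ((y * y) * QC2)) + ((z * z) <<< 7040)) := by rfl
theorem vX_eq (w : Nat) : vX w = (((w &&& 268435455) + (((w >>> 28) &&& 268435455) <<< 160)) + (((w >>> 112) &&& 8388607) <<< 640)) := by rfl
theorem vY_eq (w : Nat) : vY w = ((((w >>> 56) &&& 268435455) + (((w >>> 84) &&& 268435455) <<< 160)) + (((w >>> 135) &&& 8388607) <<< 640)) := by rfl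
theorem vS_eq (w : Nat) : vS w = ((vX w) + (vY w)) := by rfl
theorem apx_eq (a b : Nat) : apx a b = (((a <<< 64) + (b * PH6)) >>> 64) := by rfl
theorem vax_eq (w p : Nat) : vax w p = (((adf (apx (w &&& 268435455) ((w >>> 28) &&& 268435455)) p) + (adf ((w >>> 112) &&& 8388607) 4194304)) + 3) := by rfl
theorem vay_eq (w p : Nat) : vay w p = (((adf (apx ((w >>> 56) &&& 268435455) ((w >>> 84) &&& 268435455)) p) + (adf ((w >>> 135) &&& 8388607) 4194304)) + 3) := by rfl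
theorem vO_eq (w : Nat) : vO w = (OL * (vS w)) := by rfl
theorem vB_eq (w : Nat) : vB w = ((BXI * (vY w)) + (BYI * (vX w))) := by rfl
theorem g1_eq (b x y : Nat) : g1 b x y = (2 * (((wa b 320) * x) + ((wa b 256) * y))) := by rfl
theorem g2_eq (b x y : Nat) : g2 b x y = (2 * (((wa b 256) * x) + ((wa b 384) * y))) := by rfl
theorem g3_eq (b x y : Nat) : g3 b x y = (((((15175131 + (wa b 320)) * x) * x) + (((2 * (wa b 256)) * x) * y)) + (((6408325 + (wa b 384)) * y) * y)) := by rfl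
theorem ipq_eq (ma mb h q : Nat) : ipq ma mb h q = ((((ma + h) / (h + 1)) * q) + ((((mb * (h + 1)) + 131071) >>> 17) * VU0)) := by rfl
theorem ipm_eq (mu : Nat) : ipm mu = (((mu <<< 15) + 281474842492943) / 281474842492944) := by rfl
theorem qc_eq (x y s w : Nat) : qc x y s w = (q0 (adf x (vX w)) (adf y (vY w)) (adf s (vS w))) := by rfl
theorem qv_eq (x y cx cy k w : Nat) : qv x y cx cy k w = ((((qc x y (x + y) w) + (cy * (vY w))) + k) - (cx * (vX w))) := by rfl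
theorem iun_eq (o : Nat) : iun o = (TL - (1 <<< o)) := by rfl
theorem ic2_eq (ma mb cl x y s : Nat) (r : IL) : ic2 ma mb cl x y s r = (IL.mk (fun w h => ((ipq ma mb (h &&& 262143) ((qc x y s w) + IQS)) + (r.1 w (h >>> 18)))) (cl + r.2)) := by rfl
theorem ic_eq (mu o x y : Nat) (r : IL) : ic mu o x y r = (ic2 (ipm mu) (mu * 16777212) (mu * (iun o)) x y (x + y) r) := by rfl
theorem iv2_eq (ma mb cl x y cx cy k px py a c d : Nat) (r : IL) : iv2 ma mb cl x y cx cy k px py a c d r = (IL.mk (fun w h => ((ipq ma mb (h &&& 262143) ((qv x y cx cy k w) + (((((vax w px) * a) + ((vay w py) * c)) + d) * VU8))) + (r.1 w (h >>> 18)))) (cl + r.2)) := by rfl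
theorem iv_eq (b mu o x y cx cy k px py wx wy : Nat) (r : IL) : iv b mu o x y cx cy k px py wx wy r = (iv2 (ipm mu) (mu * 16777212) (mu * (iun o)) x y cx cy k px py (g1 b wx wy) (g2 b wx wy) (g3 b wx wy) r) := by rfl
theorem imu_eq (d o : Nat) : imu d o = ((idg d o) - IB1) := by rfl
theorem ipe_eq (b d o c : Nat) (r : IL) : ipe b d o c r = (Bool.rec (motive := fun _ => IL) (Bool.rec (motive := fun _ => IL) (Bool.rec (motive := fun _ => IL) (iv b (imu d (o + 640)) (o + 640) AX1 AY4 CX4 CY4 KQ4 357794898 364959623 (wa b 64) (wa b 192) r) (ic (imu d (o + 480)) (o + 480) AX2 AY3 r) (Nat.ble c 3)) (ic (imu d (o + 320)) (o + 320) AX2 AY2 r) (Nat.ble c 2)) (Bool.rec (motive := fun _ => IL) (iv b (imu d (o + 160)) (o + 160) AX1 AY1 CX1 CY1 KQ1 357794898 337813524 (wa b 0) (wa b 128) r) (ic (imu d o) o X0 X0 r) (Nat.beq c 0)) (Nat.ble c 1)) := by rfl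
theorem iel_eq (b d o n w : Nat) : iel b d o n w = ((Nat.rec (motive := fun _ => Nat → IL) (fun w => (IL.mk (fun w h => 0) 0)) (fun _ ih => (fun w => (ipe b d o (w &&& 7) (ih (w >>> 3))))) n) w) := by rfl
theorem xp_eq (a : Nat) : xp a = (Bool.rec (motive := fun _ => Nat) (Bool.rec (motive := fun _ => Nat) (Bool.rec (motive := fun _ => Nat) 0 XP6 (Nat.ble a 6)) (Bool.rec (motive := fun _ => Nat) XP5 XP4 (Nat.ble a 4)) (Nat.ble a 5)) (Bool.rec (motive := fun _ => Nat) 16777212 (Bool.rec (motive := fun _ => Nat) XP1 0 (Nat.beq a 0)) (Nat.ble a 1)) (Nat.ble a 3)) := by rfl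
theorem yp_eq (a : Nat) : yp a = (Bool.rec (motive := fun _ => Nat) (Bool.rec (motive := fun _ => Nat) (Bool.rec (motive := fun _ => Nat) 0 YP6 (Nat.ble a 6)) YP5 (Nat.ble a 5)) (Bool.rec (motive := fun _ => Nat) (Bool.rec (motive := fun _ => Nat) YP4 8388606 (Nat.ble a 3)) (Bool.rec (motive := fun _ => Nat) 0 YP1 (Nat.beq a 1)) (Nat.ble a 2)) (Nat.ble a 4)) := by rfl
theorem yn_eq (a : Nat) : yn a = (Bool.rec (motive := fun _ => Nat) 0 8388606 (Nat.beq a 2)) := by rfl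
theorem sp_eq (c : Nat) : sp c = (Bool.rec (motive := fun _ => Nat) (Bool.rec (motive := fun _ => Nat) 0 TM56 (Nat.beq c 53)) T120 (Nat.beq c 33)) := by rfl
theorem xx_eq (a b : Nat) : xx a b = ((((((xp a) * (yp b)) + ((xp b) * (yn a))) + (sp (a + (b <<< 3)))) + XSG) - ((((xp b) * (yp a)) + ((xp a) * (yn b))) + (sp (b + (a <<< 3))))) := by rfl
theorem icr_eq (a b c : Nat) : icr a b c = (((xx a b) + (xx b c)) + (xx c a)) := by rfl
theorem lp2_eq (x : Nat) : lp2 x = ((1 <<< (x &&& 65535)) + (Bool.rec (motive := fun _ => Nat) BL2 (Bool.rec (motive := fun _ => Nat) 16777212 0 (Nat.beq ((x >>> 16) &&& 3) 0)) (Nat.ble ((x >>> 16) &&& 3) 1))) := by rfl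
theorem ilp_eq (i j : Nat) : ilp i j = (lp2 (ILT >>> ((i + (j <<< 3)) <<< 5))) := by rfl
theorem itg_eq (i j h s : Nat) : itg i j h s = (Bool.rec (motive := fun _ => Nat) (281474842492944 * ((LSG + (ilp i j)) + (LSG - (ilp (Bool.rec (motive := fun _ => Nat) j i (Nat.beq s 2)) h)))) (Bool.rec (motive := fun _ => Nat) ((281474842492944 * (LSG + (ilp i j))) + (16777212 * (icr j i h))) ((281474842492944 * (LSG + (ilp i j))) + (16777212 * (icr i j h))) (Nat.beq s 0)) (Nat.ble s 1)) := by rfl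
theorem iar_eq (i j h : Nat) : iar i j h = (Bool.rec (motive := fun _ => Nat) 0 (Bool.rec (motive := fun _ => Nat) (16777212 * ((icr ((i + 4) % 5) i ((i + 1) % 5)) + (icr j (Bool.rec (motive := fun _ => Nat) ((j + 1) % 5) ((i + 1) % 5) (Nat.beq j ((i + 4) % 5))) h))) 0 (Nat.beq i j)) (Nat.beq ((i - 4) + (j - 4)) 0)) := by rfl
theorem ita_eq (i j h s : Nat) : ita i j h s = (Bool.rec (motive := fun _ => Nat) (Bool.rec (motive := fun _ => Nat) (16777212 * (icr ((i &&& 3) + 1) ((((i &&& 3) + 1) + 2) % 5) ((((i &&& 3) + 1) + 3) % 5))) (IS3 + (16777212 * (icr ((i &&& 3) + 1) ((((i &&& 3) + 1) + 3) % 5) ((((i &&& 3) + 1) + 2) % 5)))) (Nat.beq s 1)) (iar i j h) (Nat.beq s 0)) := by rfl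
theorem ist_eq (c : Nat) : ist c = (Bool.rec (motive := fun _ => Nat) (ita (c &&& 7) ((c >>> 3) &&& 7) ((c >>> 6) &&& 7) (c >>> 10)) (itg (c &&& 7) ((c >>> 3) &&& 7) ((c >>> 6) &&& 7) (c >>> 10)) (Nat.beq ((c >>> 9) &&& 1) 0)) := by rfl
theorem is1_eq (g nb m s r : Nat) (k : Nat → Nat) (w : Nat) : is1 g nb m s r k w = (Nat.rec (motive := fun _ => Nat) 0 (fun c _ => ((((lam w m s) * ((g >>> (c &&& 1023)) &&& 1)) * (ist c)) + (k (w >>> r)))) ((w >>> nb) &&& 4095)) := by rfl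
theorem is2_eq (g nb m s r : Nat) (k : Nat → Nat) : is2 g nb m s r k = (fun w => (is1 g nb m s r (fun w => (is1 g nb m s r k w)) w)) := by rfl
theorem is4_eq (g nb m s r : Nat) (k : Nat → Nat) : is4 g nb m s r k = (is2 g nb m s r (is2 g nb m s r k)) := by rfl
theorem is8_eq (g nb m s r : Nat) (k : Nat → Nat) : is8 g nb m s r k = (is4 g nb m s r (is4 g nb m s r k)) := by rfl
theorem iss_eq (g nb m s r w : Nat) : iss g nb m s r w = (is1 g nb m s r (is2 g nb m s r (is4 g nb m s r (is8 g nb m s r (is8 g nb m s r (fun w => 0))))) w) := by rfl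
theorem ien_eq (fa i : Nat) : ien fa i = ((fa >>> (i * 20000)) &&& IMF) := by rfl
theorem ifs_eq (fa nb m s r n w : Nat) : ifs fa nb m s r n w = ((Nat.rec (motive := fun _ => Nat → Nat) (fun w => 0) (fun _ ih => (fun w => (((lam w m s) * (ien fa ((w >>> nb) &&& 127))) + (ih (w >>> r))))) n) w) := by rfl
theorem iln_eq (l i : Nat) : iln l i = ((l >>> (i * 200)) &&& IML) := by rfl
theorem lnx_eq (e : Nat) : lnx e = (((e ^^^ OFS) &&& 32767) + ((((e ^^^ OFS) >>> 16) &&& 32767) <<< 160)) := by rfl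
theorem lny_eq (e : Nat) : lny e = ((((e ^^^ OFS) >>> 32) &&& 32767) + ((((e ^^^ OFS) >>> 48) &&& 32767) <<< 160)) := by rfl
theorem lcp_eq (e : Nat) : lcp e = ((((((e ^^^ OFS) >>> 64) &&& 2199023255551) + ((((e ^^^ OFS) >>> 112) &&& 2199023255551) <<< 160)) + ((((e ^^^ OFS) >>> 160) &&& 137438953471) <<< 640)) + LCN) := by rfl
theorem lcn_eq (e : Nat) : lcn e = (((lnx e) + (lny e)) * X0) := by rfl
theorem sg_eq (a b be c : Nat) : sg a b be c = ((((a <<< 64) + (b * PH6)) + (b - be)) - c) := by rfl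
theorem lk2_eq (a b x : Nat) : lk2 a b x = ((sg a b 140737488355328 SG2) + (sg (a + (idg x 640)) (b + (idg x 800)) 211106232532992 SG3)) := by rfl
theorem lk_eq (x : Nat) : lk x = (lk2 ((x &&& IMT) + (idg x 320)) ((idg x 160) + (idg x 320)) x) := by rfl
theorem lv_eq (e w : Nat) : lv e w = (lk (((((lnx e) * (vX w)) + ((lny e) * (vY w))) + (lcp e)) - ((lcn e) + (vO w)))) := by rfl
theorem dk2_eq (x : Nat) : dk2 x = (sg ((x &&& IMT) + (idg x 320)) ((idg x 160) + (idg x 320)) 140737488355328 SG1) := by rfl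
theorem dk_eq (a b : Nat) : dk a b = (dk2 (((((lny a) * (lnx b)) + (OL * ((lnx a) + (lny b)))) + BE6) - (((lnx a) * (lny b)) + (OL * ((lny a) + (lnx b)))))) := by rfl
theorem vck_eq (a b w : Nat) : vck a b w = (((lv a w) + (lv b w)) + (dk a b)) := by rfl
theorem ivt_eq (f : F3) (a b x h e : Nat) : ivt f a b x h e = (Nat.rec (motive := fun _ => Nat) 1 (fun v _ => ((vck a b (v + 1)) + (f (v + 1) h e))) x) := by rfl
theorem ips_eq (f : F3) (l hw : Nat) (ih : F4) (a w h e : Nat) : ips f l hw ih a w h e = (Nat.rec (motive := fun _ => Nat) 1 (fun b _ => ((ivt f a (b + 1) ((w >>> 6) &&& M158) h e) + (ih (b + 1) (w >>> 164) (h >>> hw) (e >>> 18)))) (iln l (w &&& 63))) := by rfl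
theorem ipo2_eq (f : F3) (l n hw z w h e : Nat) : ipo2 f l n hw z w h e = ((Nat.rec (motive := fun _ => F4) (fun a w h e => (ivt f a z ((w >>> 6) &&& M158) h e)) (fun _ ih => (fun a w h e => (ips f l hw ih a w h e))) n) z w h e) := by rfl
theorem ipo_eq (f : F3) (l n hw w h e : Nat) : ipo f l n hw w h e = (Nat.rec (motive := fun _ => Nat) 1 (fun z _ => (ipo2 f l n hw (z + 1) (w >>> 6) h e)) (iln l (w &&& 63))) := by rfl
theorem wp_eq (x y c w : Nat) : wp x y c w = ((((x * (vY w)) + (y * (vX w))) + CW) - (c + (vB w))) := by rfl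
theorem ick_eq (d mk : Nat) : ick d mk = ((d >>> 26202) + ((d ^^^ IBN) &&& mk)) := by rfl
theorem ilo_eq (d a : Nat) : ilo d a = (((d &&& MLO) + CLO) + a) := by rfl
theorem ia_eq (x y c : Nat) (el : IL) (w h : Nat) : ia x y c el w h = ((wp x y c w) + (el.1 w h)) := by rfl
theorem if1_eq (b r d x y c : Nat) (el : IL) (w h e : Nat) : if1 b r d x y c el w h e = (ifin b r (d + (ia x y c el w h))) := by rfl
theorem j1d_eq (b r l n hw wi wh : Nat) (el : IL) (d x y : Nat) : j1d b r l n hw wi wh el d x y = (ipo (fun w h e => (if1 b r d x y ((x + y) * X0) el w h e)) l n hw wi wh 0) := by rfl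
theorem j1c_eq (b r l ox oy mk n hw wi wh : Nat) (el : IL) (d a : Nat) : j1c b r l ox oy mk n hw wi wh el d a = ((ick d mk) + (j1d b r l n hw wi wh el (ilo d a) ((d >>> ox) &&& IKX) ((d >>> oy) &&& IKY))) := by rfl
theorem j1b_eq (b r l ox oy mk n hw wi wh : Nat) (el : IL) (d a : Nat) : j1b b r l ox oy mk n hw wi wh el d a = (j1c b r l ox oy mk n hw wi wh el (d + el.2) a) := by rfl
theorem j1a_eq (b r l ox oy op mk n ne hw we wi wh d a : Nat) : j1a b r l ox oy op mk n ne hw we wi wh d a = (j1b b r l ox oy mk n hw wi wh (iel b d op ne we) d a) := by rfl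
theorem j1p_eq (b r fa g l ini ox oy op mk nb m s nf n ne hw w1 w2 w3 w4 w5 : Nat) : j1p b r fa g l ini ox oy op mk nb m s nf n ne hw w1 w2 w3 w4 w5 = (j1a b r l ox oy op mk n ne hw w2 w3 w4 ((((lam w1 m s) * ini) + (iss g nb m s (nb + 12) (w5 >>> (nf * (nb + 7))))) + IBN) (ifs fa nb m s (nb + 7) nf w5)) := by rfl
theorem j0a_eq (b r d a : Nat) : j0a b r d a = ((ick d IK0) + (ifin b r (ilo d a))) := by rfl
theorem j0p_eq (b r fa g nb m s nf w : Nat) : j0p b r fa g nb m s nf w = (j0a b r ((iss g nb m s (nb + 12) (w >>> (nf * (nb + 7)))) + IBN) (ifs fa nb m s (nb + 7) nf w)) := by rfl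
theorem xc2_eq (p n a c : Nat) : xc2 p n a c = ((p * ((a + XS) - c)) + (n * ((c + XS) - a))) := by rfl
theorem xc_eq (p n v w : Nat) : xc p n v w = (xc2 p n (((vX v) * (vY w)) + (((vY v) + (vX w)) * X0)) (((vY v) * (vX w)) + (((vX v) + (vY w)) * X0))) := by rfl
theorem ign_eq (b r d p n x y c : Nat) (el : IL) (v w h e : Nat) : ign b r d p n x y c el v w h e = (ifin b r ((d + (ia x y c el w h)) + (xc p n v w))) := by rfl
theorem igp_eq (b r d p n x y c : Nat) (el : IL) (ma mb v w h e : Nat) : igp b r d p n x y c el ma mb v w h e = (ifin b r (((d + (ia x y c el w h)) + (xc p n v w)) + (ipq ma mb (e &&& 262143) ((qc (vX v) (vY v) (vS v) w) + IQS)))) := by rfl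
theorem ifn_eq (b r d p m x y c : Nat) (el : IL) (l n hw wi wh v : Nat) : ifn b r d p m x y c el l n hw wi wh v = (ipo (fun w h e => (ign b r d p m x y c el v w h e)) l n hw wi wh 0) := by rfl
theorem ifp_eq (b r d p m x y c : Nat) (el : IL) (ma mb l n hw wi wh v e : Nat) : ifp b r d p m x y c el ma mb l n hw wi wh v e = (ipo (fun w h e => (igp b r d p m x y c el ma mb v w h e)) l n hw wi wh e) := by rfl
theorem j2d_eq (b r d x5 y5 c5 : Nat) (e5 : IL) (p m x6 y6 c6 : Nat) (e6 : IL) (ma mb l5 l6 n5 n6 f h5 h6 hw i5 i6 s5 s6 : Nat) : j2d b r d x5 y5 c5 e5 p m x6 y6 c6 e6 ma mb l5 l6 n5 n6 f h5 h6 hw i5 i6 s5 s6 = (Bool.rec (motive := fun _ => Nat) (ipo (fun v h e => (ifp b r (d + (ia x5 y5 c5 e5 v h)) p m x6 y6 c6 e6 ma mb l6 n6 h6 i6 s6 v (h >>> h5))) l5 n5 hw i5 s5 0) (ipo (fun v h e => (ifn b r (d + (ia x5 y5 c5 e5 v h)) p m x6 y6 c6 e6 l6 n6 h6 i6 s6 v)) l5 n5 hw i5 s5 0) (Nat.beq f 0)) := by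 rfl
theorem j2e_eq (b r d x5 y5 : Nat) (e5 : IL) (z x6 y6 : Nat) (e6 : IL) (u l5 l6 n5 n6 f h5 h6 hw i5 i6 s5 s6 : Nat) : j2e b r d x5 y5 e5 z x6 y6 e6 u l5 l6 n5 n6 f h5 h6 hw i5 i6 s5 s6 = (j2d b r d x5 y5 ((x5 + y5) * X0) e5 (z - IB1) (IB1 - z) x6 y6 ((x6 + y6) * X0) e6 (ipm u) (u * 16777212) l5 l6 n5 n6 f h5 h6 hw i5 i6 s5 s6) := by rfl
theorem j2c_eq (b r : Nat) (e5 e6 : IL) (u l5 l6 n5 n6 f h5 h6 hw i5 i6 s5 s6 d a : Nat) : j2c b r e5 e6 u l5 l6 n5 n6 f h5 h6 hw i5 i6 s5 s6 d a = ((ick d IK56) + (j2e b r (ilo d a) ((d >>> 20960) &&& IKX) ((d >>> 19840) &&& IKY) e5 (idg d 21760) ((d >>> 21280) &&& IKX) ((d >>> 20160) &&& IKY) e6 u l5 l6 n5 n6 f h5 h6 hw i5 i6 s5 s6)) := by rfl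
theorem j2b_eq (b r : Nat) (e5 e6 : IL) (u l5 l6 n5 n6 f h5 h6 hw i5 i6 s5 s6 d a : Nat) : j2b b r e5 e6 u l5 l6 n5 n6 f h5 h6 hw i5 i6 s5 s6 d a = (j2c b r e5 e6 u l5 l6 n5 n6 f h5 h6 hw i5 i6 s5 s6 (((d + e5.2) + e6.2) + (u * (iun 20640))) a) := by rfl
theorem j2a_eq (b r l5 l6 n5 n6 e5 e6 f h5 h6 hw w5 w6 i5 i6 s5 s6 d a : Nat) : j2a b r l5 l6 n5 n6 e5 e6 f h5 h6 hw w5 w6 i5 i6 s5 s6 d a = (j2b b r (iel b d 22080 e5 w5) (iel b d 23360 e6 w6) (f * (imu d 20640)) l5 l6 n5 n6 f h5 h6 hw i5 i6 s5 s6 d a) := by rfl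
theorem j2p_eq (b r fa g l5 l6 j5 j6 nb m s nf n5 n6 e5 e6 f h5 h6 hw w1 w2 w5 w6 i5 i6 s5 s6 wf : Nat) : j2p b r fa g l5 l6 j5 j6 nb m s nf n5 n6 e5 e6 f h5 h6 hw w1 w2 w5 w6 i5 i6 s5 s6 wf = (j2a b r l5 l6 n5 n6 e5 e6 f h5 h6 hw w5 w6 i5 i6 s5 s6 (((((lam w1 m s) * j5) + ((lam w2 m s) * j6)) + (iss g nb m s (nb + 12) (wf >>> (nf * (nb + 7))))) + IBN) (ifs fa nb m s (nb + 7) nf wf)) := by rfl
theorem iq4_eq (p n s m e : Nat) : iq4 p n s m e = (QM.mk (((p + s) - n) + ((m + e) * VU8)) (((n + s) - p) + (m * VU8))) := by rfl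
theorem aph_eq (a b : Nat) : aph a b = (((adf ((a <<< 64) + (b * PH6)) OPH) >>> 64) + 2) := by rfl
theorem iq3_eq (b x y dx dy ax ay wx wy n : Nat) : iq3 b x y dx dy ax ay wx wy n = (iq4 (((q0 (adf x O2) (adf y O2) (adf (x + y) O22)) + (CXI * ((x * dx) + O2X))) + (CYI * ((y * ODY) + (O2 * dy)))) ((CXI * ((x * ODX) + (O2 * dx))) + (CYI * ((y * dy) + O2Y))) (((n * n) <<< 26) * TV) ((ax * (g1 b wx wy)) + (ay * (g2 b wx wy))) (g3 b wx wy)) := by rfl
theorem iq2_eq (b xa xb xe ya yb ye c1 c4 ex ey a1 a4 : Nat) : iq2 b xa xb xe ya yb ye c1 c4 ex ey a1 a4 = (iq3 b (xa + (xb <<< 160)) (ya + (yb <<< 160)) (((xe <<< 640) + (c1 <<< 1920)) + (c4 <<< 3200)) (((ye <<< 640) + (c1 <<< 4480)) + (c4 <<< 5760)) (aph xa xb) (aph ya yb) ((ex + (a1 * (wa b 0))) + (a4 * (wa b 64))) ((ey + (a1 * (wa b 128))) + (a4 * (wa b 192))) (((((((adf xa 72057594037927936) + (adf xb 72057594037927936)) + (adf ya 72057594037927936))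 + (adf yb 72057594037927936)) + ex) + ey) + (2 * (a1 + a4)))) := by rfl
theorem iqm_eq (b xa xb xe ya yb ye c1 c4 : Nat) : iqm b xa xb xe ya yb ye c1 c4 = (iq2 b xa xb xe ya yb ye c1 c4 (adf xe 72057594037927936) (adf ye 72057594037927936) (adf c1 72057594037927936) (adf c4 72057594037927936)) := by rfl
theorem jv_eq (j k c : Nat) : jv j k c = ((72057594037927936 + (c * ((IJT >>> (((j <<< 3) + k) <<< 2)) &&& 15))) - (4 * c)) := by rfl
theorem iqj_eq (b j : Nat) : iqj b j = (iqm b (jv j 0 16777212) (jv j 1 16777212) 72057594037927936 (jv j 2 8388606) (jv j 3 8388606) 72057594037927936 (jv j 4 1) (jv j 5 1)) := by rfl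
theorem bj_eq (j : Nat) : bj j = (Bool.rec (motive := fun _ => Nat) BL2 16777212 (Nat.beq ((665 >>> j) &&& 1) 0)) := by rfl
theorem ijt_eq (j : Nat) : ijt j = (1 <<< ((j * 640) + 12800)) := by rfl
theorem fq_eq (j : Nat) : fq j = ((16777212 * (bj j)) * ((2 * (ijt j)) + (bj j))) := by rfl
theorem ipu_eq (fa f : Nat) : ipu fa f = ((fa <<< 20000) + f) := by rfl
theorem iU_eq (b r : Nat) (q : QM) (c y : Nat) : iU b r q c y = (ifin b r (q.1 + (c * (SQ - (y * y))))) := by rfl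
theorem iL_eq (b r : Nat) (q : QM) (c y : Nat) : iL b r q c y = (ifin b r (q.2 + (c * (SQ + (y * y))))) := by rfl
theorem yb_eq (j x : Nat) : yb j x = (adf ((bj j) + (x <<< 640)) DT4) := by rfl
theorem jR3_eq (k : KT) (w b r fa g rt l5 l6 i5 i6 f : Nat) : jR3 k w b r fa g rt l5 l6 i5 i6 f = ((f >>> 19990) + (k w b r (ipu fa f) g rt l5 l6 i5 i6)) := by rfl
theorem gR_eq (q : QM) (j u : Nat) : gR q j u = ((q.2 + ((fq j) + FS)) + (((16777212 * u) * u) * VU8)) := by rfl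
theorem jR2_eq (k : KT) (w b r fa g rt l5 l6 i5 i6 j x o lo hi : Nat) : jR2 k w b r fa g rt l5 l6 i5 i6 j x o lo hi = ((((j - 9) + (Bool.rec (motive := fun _ => Nat) (iU b r (iqj b j) 16777212 (yb j hi)) 0 (Nat.ble (fl (r >>> 32) o) hi))) + (Bool.rec (motive := fun _ => Nat) (iL b r (iqj b j) 16777212 (yb j lo)) 0 (Nat.ble lo (fl r o)))) + (jR3 k w b (upd r o x 18446744073709551615) fa g rt l5 l6 i5 i6 (gR (iqj b j) j (wa x 0)))) := by rfl
theorem jR_eq (k : KT) (w b r fa g rt l5 l6 i5 i6 h : Nat) : jR k w b r fa g rt l5 l6 i5 i6 h = (Nat.rec (motive := fun _ => Nat) 1 (fun j _ => (jR2 k (w >>> 72) b r fa g rt l5 l6 i5 i6 j (h >>> 8) (j <<< 6) (fl h 8) (fl h 40))) ((h >>> 4) &&& 15)) := by rfl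
theorem gU_eq (q : QM) (j : Nat) : gU q j = (q.1 + (FS - (fq j))) := by rfl
theorem jU_eq (k : KT) (w b r fa g rt l5 l6 i5 i6 h : Nat) : jU k w b r fa g rt l5 l6 i5 i6 h = (Nat.rec (motive := fun _ => Nat) 1 (fun j _ => ((j - 9) + (jR3 k (w >>> 8) b r fa g rt l5 l6 i5 i6 (gU (iqj b j) j)))) ((h >>> 4) &&& 15)) := by rfl
theorem mk7_eq (a b c d e f g : Nat) : mk7 a b c d e f g = (((((((a + (b <<< 16)) + (c <<< 32)) + (d <<< 48)) + (e <<< 64)) + (f <<< 112)) + (g <<< 160)) ^^^ OFS) := by rfl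
theorem lnp_eq (h : Nat) : lnp h = (mk7 (h &&& 16383) ((h >>> 16) &&& 16383) ((h >>> 32) &&& 16383) ((h >>> 48) &&& 16383) ((h >>> 64) &&& 1099511627775) ((h >>> 112) &&& 1099511627775) ((h >>> 160) &&& 68719476735)) := by rfl
theorem lnn_eq (h : Nat) : lnn h = (mk7 (16384 - (h &&& 16383)) (16384 - ((h >>> 16) &&& 16383)) (16384 - ((h >>> 32) &&& 16383)) (16384 - ((h >>> 48) &&& 16383)) (1099511627776 - ((h >>> 64) &&& 1099511627775)) (1099511627776 - ((h >>> 112) &&& 1099511627775)) (68719476736 - ((h >>> 160) &&& 68719476735))) := by rfl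
theorem jC5_eq (k : KT) (w b r fa g rt l5 l6 i5 i6 h e : Nat) : jC5 k w b r fa g rt l5 l6 i5 i6 h e = ((k (c1 w e 221) b r fa g rt ((l5 <<< 200) + (lnp h)) l6 i5 i6) + (k (w >>> e) b r fa g rt ((l5 <<< 200) + (lnn h)) l6 i5 i6)) := by rfl
theorem jC6_eq (k : KT) (w b r fa g rt l5 l6 i5 i6 h e : Nat) : jC6 k w b r fa g rt l5 l6 i5 i6 h e = ((k (c1 w e 221) b r fa g rt l5 ((l6 <<< 200) + (lnp h)) i5 i6) + (k (w >>> e) b r fa g rt l5 ((l6 <<< 200) + (lnn h)) i5 i6)) := by rfl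
theorem jA_eq (k : KT) (w b r fa g rt l5 l6 i5 i6 h e : Nat) : jA k w b r fa g rt l5 l6 i5 i6 h e = ((k (c1 w e 221) b r fa (g &&& G4) rt ((rt <<< 200) + (lnn h)) 0 0 0) + (k (w >>> e) b r fa g ((rt <<< 200) + (lnp h)) l5 l6 i5 i6)) := by rfl
theorem jB2_eq (k : KT) (w b r fa g rt l5 l6 i5 i6 i j h e f : Nat) : jB2 k w b r fa g rt l5 l6 i5 i6 i j h e f = (((k (c1 w e 55) b r fa (g ||| (1 <<< ((i + (j <<< 3)) + (h <<< 6)))) rt l5 l6 i5 i6) + (k (c1 w f e) b r fa (g ||| (1 <<< ((i + (h <<< 3)) + (j <<< 6)))) rt l5 l6 i5 i6)) + (k (w >>> f) b r fa (g ||| (1 <<< ((j + (h <<< 3)) + (i <<< 6)))) rt l5 l6 i5 i6)) := by rfl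
theorem jB_eq (k : KT) (w b r fa g rt l5 l6 i5 i6 h : Nat) : jB k w b r fa g rt l5 l6 i5 i6 h = (jB2 k w b r fa g rt l5 l6 i5 i6 ((h >>> 4) &&& 7) ((h >>> 7) &&& 7) ((h >>> 10) &&& 7) ((h >>> 13) &&& 2097151) ((h >>> 34) &&& 2097151)) := by rfl
theorem jSb_eq (k : KT) (w b r fa g rt l5 l6 i5 i6 o v e : Nat) : jSb k w b r fa g rt l5 l6 i5 i6 o v e = ((k (c1 w e 59) (upd b (o + 32) v 4294967295) r fa g rt l5 l6 i5 i6) + (k (w >>> e) (upd b o v 4294967295) r fa g rt l5 l6 i5 i6)) := by rfl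
theorem jSl_eq (k : KT) (w b r fa g rt l5 l6 i5 i6 o v e : Nat) : jSl k w b r fa g rt l5 l6 i5 i6 o v e = ((k (c1 w e 59) b (upd r (o + 32) v 4294967295) fa g rt l5 l6 i5 i6) + (k (w >>> e) b (upd r o v 4294967295) fa g rt l5 l6 i5 i6)) := by rfl
theorem ih2_eq (w x y : Nat) : ih2 w x y = (Bool.rec (motive := fun _ => Nat) (y - x) (y + x) (Nat.beq ((w >>> 7) &&& 1) 0)) := by rfl
theorem ihe_eq (z w : Nat) : ihe z w = ((Nat.rec (motive := fun _ => Nat → Nat) (fun w => z) (fun _ ih => (fun w => (Bool.rec (motive := fun _ => Nat) (ih2 w ((c1 w (15 + ((w >>> 8) &&& 127)) 15) <<< ((w &&& 127) * 160)) (ih (w >>> (15 + ((w >>> 8) &&& 127))))) z (Nat.beq w 0)))) 80) w) := by rfl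
theorem iuc_eq (w : Nat) : iuc w = ((ihe UB (c1 w (w &&& 8191) 13)) &&& UM) := by rfl
theorem dr2_eq (p q x y a c : Nat) : dr2 p q x y a c = ((((x <<< p) + (c <<< q)) + DS) - ((a <<< p) + (y <<< q))) := by rfl
theorem isd_eq (k : KT) (s w b r fa g rt l5 i5 u x y a c : Nat) : isd k s w b r fa g rt l5 i5 u x y a c = (Bool.rec (motive := fun _ => Nat) (k w b r fa (g &&& G5) rt l5 rt i5 ((u + IUP) + (dr2 21280 20160 x y a c))) (k w b r fa (g &&& G4) rt rt 0 ((u + IUP) + (dr2 20960 19840 x y a c)) 0) (Nat.beq s 0)) := by rfl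
theorem jQ2_eq (k : KT) (w b r fa g rt l5 l6 i5 i6 s n e f u v x y z : Nat) : jQ2 k w b r fa g rt l5 l6 i5 i6 s n e f u v x y z = (((isd k s (c1 w e n) b r fa g rt l5 i5 u x y OEX OEY) + (isd k s (c1 w f e) b r fa g rt l5 i5 v OEX OEY x y)) + (jR3 k (w >>> f) b r fa g rt l5 l6 i5 i6 z)) := by rfl
theorem jQ_eq (k : KT) (w b r fa g rt l5 l6 i5 i6 s n e f u v xa xb xe ya yb ye c1 c4 z : Nat) : jQ k w b r fa g rt l5 l6 i5 i6 s n e f u v xa xb xe ya yb ye c1 c4 z = (jQ2 k w b r fa g rt l5 l6 i5 i6 s n e f u v ((((xa + (xb <<< 160)) + (xe <<< 640)) + (c1 <<< 1920)) + (c4 <<< 3200)) ((((ya + (yb <<< 160)) + (ye <<< 640)) + (c1 <<< 4480)) + (c4 <<< 5760)) z) := by rfl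
theorem gP_eq (u v j : Nat) : gP u v j = (((IUN - u) + (IUN - v)) + (FS - (S2T * ((ijt j) + (bj j))))) := by rfl
theorem jP2_eq (k : KT) (w b r fa g rt l5 l6 i5 i6 s n e f u v j : Nat) : jP2 k w b r fa g rt l5 l6 i5 i6 s n e f u v j = ((j - 9) + (jQ k w b r fa g rt l5 l6 i5 i6 s n e f u v (jv j 0 281474842492944) (jv j 1 281474842492944) 72057594037927936 (jv j 2 (16777212 * 8388606)) (jv j 3 (16777212 * 8388606)) 72057594037927936 (jv j 4 16777212) (jv j 5 16777212) (gP u v j))) := by rfl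
theorem rd2_eq (a x y : Nat) : rd2 a x y = ((((a + ((x - B140) * N2P)) + ((B140 - x) * N2N)) + ((y - B140) * N3P)) + ((B140 - y) * N3N)) := by rfl
theorem ird_eq (a : Nat) : ird a = (rd2 a (idg (a + RB0) 320) (idg (a + RB0) 480)) := by rfl
theorem irn_eq (c x : Nat) : irn c x = (((((x >>> 48) &&& IRM) + (((x >>> 19888) + 2) * TV)) - IRB) + (c * VU4)) := by rfl
theorem gG_eq (q : QM) (x c u : Nat) : gG q x c u = (((((33554424 * c) * ((x + UQ) - (x <<< 160))) + q.2) + (((4722363105170729992128 * u) * u) * VU8)) + (((4722363105170729992128 * c) * c) * VN0I)) := by rfl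
theorem jG4_eq (b r x z : Nat) : jG4 b r x z = (Bool.rec (motive := fun _ => Nat) (ifin b r x) 0 (Nat.beq z 0)) := by rfl
theorem jG3_eq (b r : Nat) (q : QM) (u v c d y : Nat) : jG3 b r q u v c d y = (((y >>> 19996) + (iL b r q 4722363105170729992128 (adf c (d <<< 640)))) + (jG4 b r ((((IUN - u) + (IUN - v)) + ((281474842492944 * c) * NP1)) + ((281474842492944 * d) * NP5)) (iU b r q 4722363105170729992128 (c + (d <<< 640))))) := by rfl
theorem jG2_eq (k : KT) (w b r fa g rt l5 l6 i5 i6 s n e f u v xa xb xe ya yb ye c1 c4 : Nat) (q : QM) (c d y : Nat) : jG2 k w b r fa g rt l5 l6 i5 i6 s n e f u v xa xb xe ya yb ye c1 c4 q c d y = ((jG3 b r q u v c d y) + (jQ k w b r fa g rt l5 l6 i5 i6 s n e f u v xa xb xe ya yb ye c1 c4 (irn (10 * ((iww b) + 34359738368)) (y + RBI)))) := by rfl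
theorem jG1_eq (k : KT) (w b r fa g rt l5 l6 i5 i6 s n e f u v xa xb xe ya yb ye c1 c4 : Nat) (q : QM) (c d : Nat) : jG1 k w b r fa g rt l5 l6 i5 i6 s n e f u v xa xb xe ya yb ye c1 c4 q c d = (jG2 k w b r fa g rt l5 l6 i5 i6 s n e f u v xa xb xe ya yb ye c1 c4 q c d (ird (gG q (u + v) c d))) := by rfl
theorem jG0_eq (k : KT) (w b r fa g rt l5 l6 i5 i6 s n e f u v xa xb xe ya yb ye c1 c4 c d : Nat) : jG0 k w b r fa g rt l5 l6 i5 i6 s n e f u v xa xb xe ya yb ye c1 c4 c d = (jG1 k w b r fa g rt l5 l6 i5 i6 s n e f u v xa xb xe ya yb ye c1 c4 (iqm b xa xb xe ya yb ye c1 c4) c d) := by rfl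
theorem ihf_eq (n w : Nat) : ihf n w = ((Nat.rec (motive := fun _ => Nat → Nat) (fun w => 0) (fun _ ih => (fun w => (((ih (w >>> (w &&& 8191))) <<< 20000) + (ihe 0 (c1 w (w &&& 8191) 13))))) n) w) := by rfl
theorem irt_eq (h : Nat) : irt h = (c1 h (1606 + (200 * ((h >>> 1600) &&& 63))) 1606) := by rfl
theorem ih3_eq (w : Nat) : ih3 w = (ihf (w &&& 127) (w >>> 7)) := by rfl
theorem ifa_eq (h : Nat) : ifa h = (ih3 (h >>> (1606 + (200 * ((h >>> 1600) &&& 63))))) := by rfl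
theorem igl_eq (l n w : Nat) : igl l n w = ((Nat.rec (motive := fun _ => Nat → Nat) (fun w => 0) (fun _ ih => (fun w => (((ih (w >>> 6)) <<< 200) + (iln l (w &&& 63))))) n) w) := by rfl
theorem igf_eq (fa n w : Nat) : igf fa n w = ((Nat.rec (motive := fun _ => Nat → Nat) (fun w => 0) (fun _ ih => (fun w => (((ih (w >>> 7)) <<< 20000) + (ien fa (w &&& 127))))) n) w) := by rfl
theorem jH2_eq (h b r fa g rt n w : Nat) : jH2 h b r fa g rt n w = (((((b ^^^ (h &&& M448)) + (r ^^^ ((h >>> 448) &&& M640))) + ((g &&& ((h >>> 1088) &&& M512)) ^^^ ((h >>> 1088) &&& M512))) + ((igl rt n w) ^^^ (irt h))) + ((igf fa ((w >>> (6 * n)) &&& 127) (w >>> ((6 * n) + 7))) ^^^ (ifa h))) := by rfl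
theorem jH_eq (hs : Nat → Nat) (w b r fa g rt : Nat) : jH hs w b r fa g rt = (jH2 (hs ((w >>> 4) &&& 63)) b r fa g rt ((w >>> 10) &&& 63) (w >>> 16)) := by rfl
theorem js4_eq (hs : Nat → Nat) (k : KT) (w b r fa g rt l5 l6 i5 i6 h c : Nat) : js4 hs k w b r fa g rt l5 l6 i5 i6 h c = (Bool.rec (motive := fun _ => Nat) (Bool.rec (motive := fun _ => Nat) 1 (jH hs w b r fa g rt) (Nat.ble c 14)) (Bool.rec (motive := fun _ => Nat) (jA k w b r fa g rt l5 l6 i5 i6 (h >>> 4) ((h >>> 200) &&& 2097151)) (jSl k w b r fa g rt l5 l6 i5 i6 (((h >>> 4) &&& 15) <<< 6) (fl h 8) ((h >>> 38) &&& 2097151)) (Nat.ble c 12)) (Nat.ble c 13)) := by rfl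
theorem js3_eq (hs : Nat → Nat) (k : KT) (w b r fa g rt l5 l6 i5 i6 h c : Nat) : js3 hs k w b r fa g rt l5 l6 i5 i6 h c = (Bool.rec (motive := fun _ => Nat) (Bool.rec (motive := fun _ => Nat) (Bool.rec (motive := fun _ => Nat) (js4 hs k w b r fa g rt l5 l6 i5 i6 h c) (jSb k w b r fa g rt l5 l6 i5 i6 (((h >>> 4) &&& 15) <<< 6) (fl h 8) ((h >>> 38) &&& 2097151)) (Nat.ble c 11)) (jG k w b r fa g rt l5 l6 i5 i6 (w &&& M640)) (Nat.ble c 10)) (Bool.rec (motive := fun _ => Nat) (jP k w b r fa g rt l5 l6 i5 i6) (jC6 k w b r fa g rt l5 l6 i5 i6 (h >>> 4) ((h >>> 200) &&& 2097151)) (Nat.ble c 8)) (Nat.ble c 9)) := by rfl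
theorem js2_eq (hs : Nat → Nat) (k : KT) (w b r fa g rt l5 l6 i5 i6 h c : Nat) : js2 hs k w b r fa g rt l5 l6 i5 i6 h c = (Bool.rec (motive := fun _ => Nat) (Bool.rec (motive := fun _ => Nat) (js3 hs k w b r fa g rt l5 l6 i5 i6 h c) (Bool.rec (motive := fun _ => Nat) (jf2 b r fa g l5 l6 i5 i6 w) (jf1 b r fa g l6 i6 21280 20160 23360 IK6 w) (Nat.ble c 6)) (Nat.ble c 7)) (Bool.rec (motive := fun _ => Nat) (jf0 b r fa g w) (Bool.rec (motive := fun _ => Nat) (jU k w b r fa g rt l5 l6 i5 i6 h) (jR k w b r fa g rt l5 l6 i5 i6 h) (Nat.ble c 3)) (Nat.ble c 4)) (Nat.ble c 5)) := by rfl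
theorem js1_eq (hs : Nat → Nat) (k : KT) (w b r fa g rt l5 l6 i5 i6 h c : Nat) : js1 hs k w b r fa g rt l5 l6 i5 i6 h c = (Bool.rec (motive := fun _ => Nat) (js2 hs k w b r fa g rt l5 l6 i5 i6 h c) (Bool.rec (motive := fun _ => Nat) (jB k w b r fa g rt l5 l6 i5 i6 h) (jC5 k w b r fa g rt l5 l6 i5 i6 (h >>> 4) ((h >>> 200) &&& 2097151)) (Nat.ble c 1)) (Nat.ble c 2)) := by rfl
theorem istep_eq (hs : Nat → Nat) (k : KT) (w b r fa g rt l5 l6 i5 i6 : Nat) : istep hs k w b r fa g rt l5 l6 i5 i6 = (Bool.rec (motive := fun _ => Nat) (js1 hs k w b r fa g rt l5 l6 i5 i6 (w &&& M256) (w &&& 15)) (jf1 b r fa g l5 i5 20960 19840 22080 IK5 w) (Nat.beq (w &&& 15) 0)) := by rfl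
theorem rk_eq (b r j : Nat) : rk b r j = ((iU b R0 (iqj b j) 16777212 (yb j (fl (r >>> 32) (j <<< 6)))) + (iL b R0 (iqj b j) 16777212 (yb j (fl r (j <<< 6))))) := by rfl
theorem rok_eq (b r : Nat) : rok b r = ((((((((((rk b r 0) + (rk b r 1)) + (rk b r 2)) + (rk b r 3)) + (rk b r 4)) + (rk b r 5)) + (rk b r 6)) + (rk b r 7)) + (rk b r 8)) + (rk b r 9)) := by rfl

end Pool.Agent.Lib.MP_9d820d_co.IFast
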