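import Pool.Agent.Lib.MP_9d820d_co.IQuad

set_option autoImplicit false
set_option exponentiation.threshold 30000

namespace Pool.Agent.Lib.MP_9d820d_co.IFast

open Finset
open Fast (land_lt push_zero push_succ F4)

noncomputable section

def f2 (a c : ℕ) (o : ℝ) : ℝ := (a - o) + (c - o) * gphi
def nx (e : ℕ) : ℝ := f2 ((e ^^^ OFS) &&& 32767) (((e ^^^ OFS) >>> 16) &&& 32767) 8192
def ny (e : ℕ) : ℝ := f2 (((e ^^^ OFS) >>> 32) &&& 32767) (((e ^^^ OFS) >>> 48) &&& 32767) 8192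
def lc (E : Env) (e : ℕ) : ℝ := f2 (((e ^^^ OFS) >>> 64) &&& 2199023255551) (((e ^^^ OFS) >>> 112) &&& 2199023255551)
  549755813888 + (((((e ^^^ OFS) >>> 160) &&& 137438953471 : ℕ) : ℝ) - 34359738368) * E.t
/-- the line coded by e -/
def lt (E : Env) (e : ℕ) : ℝ × ℝ × ℝ := (nx e * Sr, ny e * Sr, lc E e)
def LsOK (E : Env) (l : ℕ) (z : ℝ × ℝ) : Prop := ∀ i, 0 ≤ lev (lt E (iln l i)) z

variable {P : Prm} {E : Env}

theorem IML_eq : IML = 2 ^ 200 - 1 := by decide +kernel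

theorem LsOK.push {l e : ℕ} {z : ℝ × ℝ} (h : LsOK E l z) (g : 0 ≤ lev (lt E e) z) (he : e < 2 ^ 200) :
    LsOK E (l <<< 200 + e) z := fun i => by
  rcases i with _ | i
  · rwa [iln_eq, IML_eq, push_zero l he]
  · rw [iln_eq, push_succ l i he]
    exact h i

theorem lt_mk7 {a b c d e f g : ℕ} (ha : a ≤ 2 ^ 14) (hb : b ≤ 2 ^ 14) (hc : c ≤ 2 ^ 14) (hd : d ≤ 2 ^ 14)
    (he : e ≤ 2 ^ 40) (hf : f ≤ 2 ^ 40) (hg : g ≤ 2 ^ 36) : lt E (mk7 a b c d e f g) =
      (f2 a b 8192 * Sr, f2 c d 8192 * Sr, f2 e f 549755813888 + (g - 34359738368) * E.t) ∧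
      mk7 a b c d e f g < 2 ^ 200 := by
  rw [mk7_eq]
  simp only [Nat.shiftLeft_eq]
  refine ⟨?_, Nat.xor_lt_two_pow (by omega) (by decide +kernel)⟩
  simp only [lt, nx, ny, lc, Nat.xor_xor_cancel_right, Nat.shiftRight_eq_div_pow]
  generalize hx : a + b * 2 ^ 16 + c * 2 ^ 32 + d * 2 ^ 48 + e * 2 ^ 64 + f * 2 ^ 112 + g * 2 ^ 160 = x
  have m1 : ∀ y : ℕ, y &&& 32767 = y % 2 ^ 15 := fun y => Nat.and_two_pow_sub_one_eq_mod y 15
  have m2 : ∀ y : ℕ, y &&& 2199023255551 = y % 2 ^ 41 := fun y => Nat.and_two_pow_sub_one_eq_mod y 41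
  have m3 : ∀ y : ℕ, y &&& 137438953471 = y % 2 ^ 37 := fun y => Nat.and_two_pow_sub_one_eq_mod y 37
  rw [m1, m1, m1, m1, m2, m2, m3, show x % 2 ^ 15 = a by omega, show x / 2 ^ 16 % 2 ^ 15 = b by omega,
    show x / 2 ^ 32 % 2 ^ 15 = c by omega, show x / 2 ^ 48 % 2 ^ 15 = d by omega,
    show x / 2 ^ 64 % 2 ^ 41 = e by omega, show x / 2 ^ 112 % 2 ^ 41 = f by omega,
    show x / 2 ^ 160 % 2 ^ 37 = g by omega]

theorem LsOK.zero (z : ℝ × ℝ) : LsOK E 0 z := fun i => by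
  rw [show iln 0 i = mk7 8192 8192 8192 8192 549755813888 549755813888 34359738368 by
    rw [iln_eq, Nat.zero_shiftRight, Nat.zero_and]; decide +kernel, (lt_mk7 (by norm_num) (by norm_num) (by norm_num)
    (by norm_num) (by norm_num) (by norm_num) (by norm_num)).1]
  simp [lev, f2]

theorem cut_sp (h : ℕ) : ∃ F : ℝ × ℝ → ℝ, (∀ z, 0 ≤ F z → 0 ≤ lev (lt E (lnp h)) z) ∧
    (∀ z, F z ≤ 0 → 0 ≤ lev (lt E (lnn h)) z) ∧ lnp h < 2 ^ 200 ∧ lnn h < 2 ^ 200 := by
  have a := (land_lt h 14 (m := 16383) rfl).le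
  have b := (land_lt (h >>> 16) 14 (m := 16383) rfl).le
  have c := (land_lt (h >>> 32) 14 (m := 16383) rfl).le
  have d := (land_lt (h >>> 48) 14 (m := 16383) rfl).le
  have e := (land_lt (h >>> 64) 40 (m := 1099511627775) (by norm_num)).le
  have f := (land_lt (h >>> 112) 40 (m := 1099511627775) (by norm_num)).le
  have g := (land_lt (h >>> 160) 36 (m := 68719476735) (by norm_num)).le
  rw [lnp_eq, lnn_eq]
  generalize h &&& 16383 = a' at *
  generalize (h >>> 16) &&& 16383 = b' at *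
  generalize (h >>> 32) &&& 16383 = c' at *
  generalize (h >>> 48) &&& 16383 = d' at *
  generalize (h >>> 64) &&& 1099511627775 = e' at *
  generalize (h >>> 112) &&& 1099511627775 = f' at *
  generalize (h >>> 160) &&& 68719476735 = g' at *
  obtain ⟨u1, u2⟩ := lt_mk7 (E := E) a b c d e f g
  obtain ⟨v1, v2⟩ := lt_mk7 (E := E) (a := 16384 - a') (b := 16384 - b') (c := 16384 - c') (d := 16384 - d')
    (e := 1099511627776 - e') (f := 1099511627776 - f') (g := 68719476736 - g') (by omega) (by omega) (by omega)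
    (by omega) (by omega) (by omega) (by omega)
  refine ⟨_, fun _ h => h, fun z h => ?_, u2, v2⟩
  rw [u1] at h
  rw [v1]
  simp only [lev, f2] at h ⊢
  rw [Nat.cast_sub (by omega), Nat.cast_sub (by omega), Nat.cast_sub (by omega), Nat.cast_sub (by omega),
    Nat.cast_sub (by omega), Nat.cast_sub (by omega), Nat.cast_sub (by omega)]
  push_cast
  linarith

theorem IRT_ok (hP : P.ok) {z : ℝ × ℝ} (hz : z ∈ P.X) : LsOK E IRT z := by
  obtain ⟨r1, r2, r3⟩ := hP.root z hz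
  obtain ⟨a1, a2⟩ := lt_mk7 (E := E) (a := 9216) (b := 8192) (c := 6144) (d := 8192) (e := 584115544064)
    (f := 549755813888) (g := 34359738368) (by norm_num) (by norm_num) (by norm_num)
    (by norm_num) (by norm_num) (by norm_num) (by norm_num)
  obtain ⟨b1, b2⟩ := lt_mk7 (E := E) (a := 9216) (b := 8192) (c := 10240) (d := 8192) (e := 584115544064)
    (f := 549755813888) (g := 34359738368) (by norm_num) (by norm_num) (by norm_num)
    (by norm_num) (by norm_num) (by norm_num) (by norm_num)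
  obtain ⟨c1, c2⟩ := lt_mk7 (E := E) (a := 7168) (b := 8192) (c := 8192) (d := 8192) (e := 584115544064)
    (f := 549755813888) (g := 34359738368) (by norm_num) (by norm_num) (by norm_num)
    (by norm_num) (by norm_num) (by norm_num) (by norm_num)
  rw [show IRT = ((0 <<< 200 + mk7 7168 8192 8192 8192 584115544064 549755813888 34359738368) <<< 200 +
    mk7 9216 8192 10240 8192 584115544064 549755813888 34359738368) <<< 200 +
    mk7 9216 8192 6144 8192 584115544064 549755813888 34359738368 by decide +kernel]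
  refine (((LsOK.zero z).push ?_ c2).push ?_ b2).push ?_ a2 <;> simp only [a1, b1, c1, lev, f2, Sr] <;>
    push_cast <;> linarith

theorem idg_di (a : ℕ) {o k : ℕ} (h : o = 160 * k) : idg a o = di 160 a k := by
  rw [idg_eq, show IMT = 2 ^ 160 - 1 by decide +kernel, Nat.and_two_pow_sub_one_eq_mod, Nat.shiftRight_eq_div_pow,
    di, tt_pow, h, tt]

theorem imt_di (a : ℕ) : a &&& IMT = di 160 a 0 := idg_di a (o := 0) rfl

theorem sg_le {a b be c : ℕ} {x y : ℤ} (δ : ℕ) (ha : (a : ℤ) = x + be) (hb : (b : ℤ) = y + be)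
    (hc : c + δ = be * (2 ^ 64 + PH6)) (h : sg a b be c = 0) : 2 ^ 64 * ((x : ℝ) + y * gphi) + δ ≤ 0 := by
  obtain ⟨p1, p2⟩ := phi_6
  rw [sg_eq, Nat.sub_eq_zero_iff_le, Nat.shiftLeft_eq] at h
  rw [show PH6 = 29847458893032750101 by decide +kernel] at *
  have s : x * 2 ^ 64 + y * 29847458893032750101 + δ ≤ 0 ∧ x * 2 ^ 64 + y * 29847458893032750101 + y + δ ≤ 0 := by
    omega
  have s1 : (x : ℝ) * 2 ^ 64 + y * 29847458893032750101 + δ ≤ 0 := by exact_mod_cast s.1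
  have s2 : (x : ℝ) * 2 ^ 64 + y * 29847458893032750101 + y + δ ≤ 0 := by exact_mod_cast s.2
  push_cast at p1 p2
  rcases le_total (y : ℝ) 0 with s | s
  · linarith [mul_le_mul_of_nonpos_left p1 s]
  · linarith [mul_le_mul_of_nonneg_left p2 s]

theorem SP.bia {I A B : ℕ} {X M : ℤ} {x : ℝ} (h : SP (mz E) I X x M) (hI : I < 2 ^ 6) (hM : M < 2 ^ 46)
    (e : (A : ℤ) - B = X + BE6) : ∃ v : ℕ → ℤ, (∀ k < 6, (di 160 (A - B) k : ℤ) = v k + 2 ^ 46) ∧
      x = val (mz E) 6 v ∧ ∀ k, I.testBit k = false → v k = 0 := by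
  obtain ⟨v, a1, a2, a3, a4⟩ := h.rep hI
  rw [show (BE6 : ℤ) = 2 ^ 46 * on 160 6 by decide +kernel, a1] at e
  have := (abs_le.1 (pk_abs (K := 160) (n := 6) (s := 2 ^ 46) fun k _ => (a3 k).trans hM.le)).1
  exact ⟨v, fun k hk => (Bia.mk' (K := 160) (s := 0) (by norm_num) (by rw [Nat.cast_sub (by omega), e]; simp)
    (fun k _ => (a3 k).trans_lt hM) k hk).1, a2, a4⟩

theorem f2_sp (a c : ℕ) : SP (mz E) 3 ((((a &&& 32767) + (c &&& 32767) <<< 160 : ℕ) : ℤ) - OL)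
    (f2 (a &&& 32767) (c &&& 32767) 8192) 49152 := by
  have h1 := land_lt a 15 (m := 32767) rfl
  have h2 := land_lt c 15 (m := 32767) rfl
  generalize a &&& 32767 = a at *
  generalize c &&& 32767 = c at *
  refine ((SP.one (a - 8192) 0 rfl).add (SP.one (c - 8192) 1 rfl)).cg ?_ ?_ ?_
  · rw [shl_tt (K := 160) _ (k := 1) rfl, show (OL : ℤ) = 8192 * (1 + tt 160) by decide +kernel]
    push_cast
    ring
  · rw [mz0, mz1, f2]
    push_cast
    ring
  · have : |(a : ℤ) - 8192| ≤ 24576 := by rw [abs_le]; omega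
    have : |(c : ℤ) - 8192| ≤ 24576 := by rw [abs_le]; omega
    omega

theorem lnx_sp (e : ℕ) : SP (mz E) 3 ((lnx e : ℤ) - OL) (nx e) 49152 := by rw [lnx_eq]; exact f2_sp _ _
theorem lny_sp (e : ℕ) : SP (mz E) 3 ((lny e : ℤ) - OL) (ny e) 49152 := by rw [lny_eq]; exact f2_sp _ _

theorem lcp_sp (e : ℕ) : SP (mz E) 55 ((lcp e : ℤ) - (BE6 + 2 * OL * X0)) (lc E e) (2 ^ 43) := by
  rw [lcp_eq, lc]
  have h1 := land_lt ((e ^^^ OFS) >>> 64) 41 (m := 2199023255551) (by norm_num)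
  have h2 := land_lt ((e ^^^ OFS) >>> 112) 41 (m := 2199023255551) (by norm_num)
  have h3 := land_lt ((e ^^^ OFS) >>> 160) 37 (m := 137438953471) (by norm_num)
  generalize ((e ^^^ OFS) >>> 64) &&& 2199023255551 = a at *
  generalize ((e ^^^ OFS) >>> 112) &&& 2199023255551 = c at *
  generalize ((e ^^^ OFS) >>> 160) &&& 137438953471 = d at *
  refine (sp3 (I := 55) (mz E) (a - 549755813888) (c - 549755813888) (d - 34359738368) (i := 0) (j := 1) (k := 4)
    rfl rfl rfl).cg ?_ ?_ ?_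
  · rw [shl_tt (K := 160) _ (k := 1) rfl, shl_tt (K := 160) _ (k := 4) rfl]
    push_cast
    rw [show (LCN : ℤ) = BE6 + 2 * OL * X0 - (549755813888 * (1 + tt 160) + 34359738368 * (tt 160 : ℤ) ^ 4) by
      decide +kernel]
    ring
  · rw [mz0, mz1, mz4, f2]
    push_cast
    ring
  · have : |(a : ℤ) - 549755813888| ≤ 2 ^ 41 := by rw [abs_le]; omega
    have : |(c : ℤ) - 549755813888| ≤ 2 ^ 41 := by rw [abs_le]; omega
    have : |(d : ℤ) - 34359738368| ≤ 2 ^ 41 := by rw [abs_le]; omega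
    omega

theorem val6 (v : ℕ → ℤ) (h : v 3 = 0) : val (mz E) 6 v =
    (v 0 + v 2 : ℤ) + (v 1 + v 2 : ℤ) * gphi + E.t * (v 4 + v 5 * gphi) := by
  simp only [val, sum_range_succ, sum_range_zero, mz0, mz1, mz2, mz4, mz5, h, phi_sq]
  push_cast
  ring

theorem lv_le (F : Fit P E) {e w : ℕ} (h : lv e w = 0) : lev (lt E e) (vp E w) ≤ 0 := by
  have m : mulOK 3 19 55 := by decide +kernel
  rw [lv_eq] at h
  obtain ⟨v, a1, a2, a3⟩ := ((((lnx_sp e).mulz (vX_ok w) m).add ((lny_sp e).mulz (vY_ok w) m)).add (lcp_sp (E := E) e)).bia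
    (A := lnx e * vX w + lny e * vY w + lcp e) (B := lcn e + vO w) (by norm_num) (by norm_num)
    (by rw [lcn_eq, vO_eq, vS_eq]; push_cast; ring)
  generalize lnx e * vX w + lny e * vY w + lcp e - (lcn e + vO w) = x at *
  rw [lk_eq, lk2_eq, Nat.add_eq_zero_iff, imt_di, idg_di x (k := 1) rfl, idg_di x (k := 2) rfl,
    idg_di x (k := 4) rfl, idg_di x (k := 5) rfl] at h
  have d0 := a1 0 (by norm_num)
  have d1 := a1 1 (by norm_num)
  have d2 := a1 2 (by norm_num)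
  have d4 := a1 4 (by norm_num)
  have d5 := a1 5 (by norm_num)
  have s1 := sg_le (x := v 0 + v 2) (y := v 1 + v 2) 0 (by omega) (by omega) (by decide +kernel) h.1
  have s2 := sg_le (x := v 0 + v 2 + v 4) (y := v 1 + v 2 + v 5) 0 (by omega) (by omega) (by decide +kernel) h.2
  rw [val6 v (a3 3 rfl)] at a2
  rw [lev, lt, mul_assoc, mul_assoc, vp1, vp2, a2]
  push_cast at s1 s2 ⊢
  have s3 : (v 0 : ℝ) + v 2 + (v 1 + v 2) * gphi ≤ 0 := by linarith
  have s4 : (v 0 : ℝ) + v 2 + v 4 + (v 1 + v 2 + v 5) * gphi ≤ 0 := by linarith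
  linarith [mul_nonneg (sub_nonneg.2 F.t1) (neg_nonneg.2 s3), mul_nonneg F.t0.le (neg_nonneg.2 s4)]

theorem dk_lt {a b : ℕ} (h : dk a b = 0) : 0 < nx a * ny b - ny a * nx b := by
  have m : mulOK 3 3 7 := by decide +kernel
  rw [dk_eq] at h
  obtain ⟨v, a1, a2, a3⟩ := (((lny_sp (E := ⟨0, 0, 0⟩) a).mulz (lnx_sp b) m).sub ((lnx_sp a).mulz (lny_sp b) m)).bia
    (A := lny a * lnx b + OL * (lnx a + lny b) + BE6) (B := lnx a * lny b + OL * (lny a + lnx b))
    (by norm_num) (by norm_num) (by push_cast; ring)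
  generalize lny a * lnx b + OL * (lnx a + lny b) + BE6 - (lnx a * lny b + OL * (lny a + lnx b)) = x at *
  rw [dk2_eq, imt_di, idg_di x (k := 1) rfl, idg_di x (k := 2) rfl] at h
  have d0 := a1 0 (by norm_num)
  have d1 := a1 1 (by norm_num)
  have d2 := a1 2 (by norm_num)
  have s1 := sg_le (x := v 0 + v 2) (y := v 1 + v 2) 1 (by omega) (by omega) (by decide +kernel) h
  rw [val6 v (a3 3 rfl), zero_mul] at a2
  push_cast at s1 a2
  linarith

theorem ivt_sp (F : Fit P E) {f : F3} {a b x h e : ℕ} (hv : ivt f a b x h e = 0) :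
    ∃ w, f w h e = 0 ∧ Corner (lt E a) (lt E b) (vp E w) := by
  rw [ivt_eq] at hv
  rcases x with _ | x
  · cases hv
  replace hv : vck a b (x + 1) + f (x + 1) h e = 0 := hv
  simp only [vck_eq, Nat.add_eq_zero_iff] at hv
  refine ⟨_, hv.2, ?_, lv_le F hv.1.1.1, lv_le F hv.1.1.2⟩
  have := mul_pos (dk_lt hv.1.2) (pow_pos Sr_pos 2)
  simp only [lt]
  linarith

theorem ipo_sound (F : Fit P E) {f : F3} {l n hw w h e : ℕ} {z : ℝ × ℝ} (hl : LsOK E l z) {K : Set (ℝ × ℝ)}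
    (hK : Convex ℝ K) (hf : ∀ w h e, f w h e = 0 → vp E w ∈ K) (hp : ipo f l n hw w h e = 0) : z ∈ K := by
  rw [ipo_eq] at hp
  have h0 := hl (w &&& 63)
  generalize iln l (w &&& 63) = a0 at *
  rcases a0 with _ | a0
  · cases hp
  replace hp : ipo2 f l n hw (a0 + 1) (w >>> 6) h e = 0 := hp
  rw [ipo2_eq] at hp
  generalize w >>> 6 = w at *
  generalize a0 + 1 = a0 at *
  have key : ∀ (n a w h e : ℕ), (Nat.rec (motive := fun _ => F4) (fun a w h e => ivt f a a0 ((w >>> 6) &&& M158) h e)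
      (fun _ ih => fun a w h e => ips f l hw ih a w h e) n) a w h e = 0 →
      ∃ ls vs, PChain (lt E a0) (lt E a) ls vs ∧ (∀ g ∈ ls, 0 ≤ lev g z) ∧ ∀ v ∈ vs, v ∈ K := fun n => by
    induction n with
    | zero =>
      intro a w h e hv
      obtain ⟨x, a1, a2⟩ := ivt_sp F hv
      exact ⟨[], [_], .last _ _ a2, by simp, by simpa using hf _ _ _ a1⟩
    | succ n ih =>
      intro a w h e hv
      replace hv : ips f l hw _ a w h e = 0 := hv
      rw [ips_eq] at hv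
      have h1 := hl (w &&& 63)
      generalize iln l (w &&& 63) = c at *
      rcases c with _ | c
      · cases hv
      obtain ⟨h2, h3⟩ := Nat.add_eq_zero_iff.1 hv
      obtain ⟨x, a1, a2⟩ := ivt_sp F h2
      obtain ⟨ls, vs, b1, b2, b3⟩ := ih _ _ _ _ h3
      exact ⟨_ :: ls, _ :: vs, .cons _ _ _ _ _ a2 b1, List.forall_mem_cons.2 ⟨h1, b2⟩,
        List.forall_mem_cons.2 ⟨hf _ _ _ a1, b3⟩⟩
  obtain ⟨ls, vs, b1, b2, b3⟩ := key _ _ _ _ _ hp
  exact poly_mem b1 (List.forall_mem_cons.2 ⟨h0, b2⟩) K hK b3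

end

end Pool.Agent.Lib.MP_9d820d_co.IFast
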