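import Pool.Agent.Lib.MP_9d820d_co.IStat
import Pool.Agent.Lib.MP_9d820d_co.IPoly

set_option autoImplicit false
set_option exponentiation.threshold 30000

namespace Pool.Agent.Lib.MP_9d820d_co.IFast

open Finset
open Fast (dl dl_cx dl_swap GOK KT brz_eq tsub_r)

noncomputable section

structure IInv (P : Prm) (E : Env) (p q : ℝ × ℝ) (b r fa g rt l5 l6 i5 i6 : ℕ) : Prop where
  hp : p ∈ P.X
  hq : q ∈ P.X
  bx : InB E b
  rg : InR E r
  fa : FaOK E fa
  g : GOK P p q g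
  rt : ∀ z ∈ P.X, LsOK E rt z
  l5 : LsOK E l5 p
  l6 : LsOK E l6 q
  i5 : ∀ z, Ub (mo P E p z) 163 i5 0
  i6 : Ub (mo P E p q) 163 i6 0

def aX (E : Env) (v : ℕ → ℤ) (j : ℕ) : ℝ :=
  v j * mz E 0 + v (j + 1) * mz E 1 + v (j + 4) * mz E 4 + v (j + 12) * mz E 12 + v (j + 20) * mz E 20
def aY (E : Env) (v : ℕ → ℤ) (j : ℕ) : ℝ :=
  v j * mz E 0 + v (j + 1) * mz E 1 + v (j + 4) * mz E 4 + v (j + 28) * mz E 28 + v (j + 36) * mz E 36

variable {P : Prm} {E : Env} {p q : ℝ × ℝ} {b r : ℕ}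

theorem win_sp {d j : ℕ} {v : ℕ → ℤ} (I n : ℕ) (h : Bia 160 163 124 d v) (hv : ∀ k < 163, |v k| < 2 ^ 123)
    (hj : j + n ≤ 163) : SP (mz E) I ((((d >>> (160 * j)) &&& msk 160 n I (2 ^ 160 - 1) : ℕ) : ℤ) -
      msk 160 n I (2 ^ 124)) (val (mz E) n fun k => if I.testBit k then v (j + k) else 0)
      (∑ k ∈ range n, if I.testBit k then 2 ^ 123 else 0 : ℕ) :=
  SP.mask _ _ n (fun k => v (j + k)) _ le_rfl fun k hk _ =>
    ⟨by rw [di_mod, (h.shr hj k hk).1]; rfl, by exact_mod_cast (hv _ (by omega)).le⟩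

theorem winX {d o j : ℕ} {v : ℕ → ℤ} (h : Bia 160 163 124 d v) (hv : ∀ k < 163, |v k| < 2 ^ 123)
    (ho : o = 160 * j) (hj : j + 21 ≤ 163) :
    SP (mz E) 1052691 ((((d >>> o) &&& IKX : ℕ) : ℤ) - BXI) (aX E v j) (5 * 2 ^ 123) := by
  rw [ho, show IKX = msk 160 21 1052691 (2 ^ 160 - 1) by decide +kernel,
    show BXI = msk 160 21 1052691 (2 ^ 124) by decide +kernel]
  refine (win_sp _ _ h hv hj).cg rfl ?_ (by decide +kernel)
  simp [val, sum_range_succ, aX, Nat.testBit]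

theorem winY {d o j : ℕ} {v : ℕ → ℤ} (h : Bia 160 163 124 d v) (hv : ∀ k < 163, |v k| < 2 ^ 123)
    (ho : o = 160 * j) (hj : j + 37 ≤ 163) :
    SP (mz E) 68987912211 ((((d >>> o) &&& IKY : ℕ) : ℤ) - BYI) (aY E v j) (5 * 2 ^ 123) := by
  rw [ho, show IKY = msk 160 37 68987912211 (2 ^ 160 - 1) by decide +kernel,
    show BYI = msk 160 37 68987912211 (2 ^ 124) by decide +kernel]
  refine (win_sp _ _ h hv hj).cg rfl ?_ (by decide +kernel)
  simp [val, sum_range_succ, aY, Nat.testBit]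

theorem val_dec {v : ℕ → ℤ} (h : ∀ k, k = 129 ∨ (138 ≤ k ∧ k ≤ 142) ∨ (146 ≤ k ∧ k ≤ 150) → v k = 0) :
    val (mo P E p q) 163 v = val (mz E) 124 v + (Sr * p.2 * aX E v 131 + Sr * p.1 * aY E v 124) +
      (Sr * q.2 * aX E v 133 + Sr * q.1 * aY E v 126) + v 136 * (Sr * p.1 * (Sr * q.2) - Sr * p.2 * (Sr * q.1)) := by
  have e : val (mz E) 124 v = val (mo P E p q) 124 v :=
    sum_congr rfl fun k hk => by rw [mo, if_pos (mem_range.1 hk)]
  rw [e, show 163 = 124 + 39 from rfl, val, sum_range_add, ← val]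
  simp [sum_range_succ, mo, mh, aX, aY, h]
  ring

theorem cx_aff (c α β : ℝ) : ConvexOn ℝ Set.univ (fun z : ℝ × ℝ => c + (Sr * z.2 * α + Sr * z.1 * β)) := by
  refine ⟨convex_univ, fun x _ y _ s t _ _ e => le_of_eq ?_⟩
  obtain rfl : t = 1 - s := by linarith
  simp only [Prod.fst_add, Prod.snd_add, Prod.smul_fst, Prod.smul_snd, smul_eq_mul]
  ring

theorem ia_ub {x y w h : ℕ} {α β γ : ℝ} {el : IL} (h1 : SP (mz E) 1052691 ((x : ℤ) - BXI) α (5 * 2 ^ 123))
    (h2 : SP (mz E) 68987912211 ((y : ℤ) - BYI) β (5 * 2 ^ 123)) (h3 : Ub (mz E) 124 (el.1 w h) γ) :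
    Ub (mz E) 124 (ia x y ((x + y) * X0) el w h) (vy E w * α + vx E w * β + γ) := by
  rw [ia_eq, wp_eq]
  refine ((((h1.mulz (vY_ok w) (L := AL) (by decide +kernel)).add (h2.mulz (vX_ok w) (by decide +kernel))).ub
    (2 ^ 155) AL_lt (by norm_num) ?_).add h3).mono (le_of_eq (by ring))
  rw [vB_eq]
  push_cast
  rw [show (CW : ℤ) = (BXI + BYI) * X0 + 2 ^ 155 * (tt 160 : ℤ) ^ 124 by decide +kernel]
  ring

theorem ick_sound {m : ℕ → ℝ} {D a mk I : ℕ} {y : ℝ} (hD : Ub m 163 D y) (ha : Ub (mz E) 124 a 0)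
    (hm : mk = msk 160 163 I (tt 160 - 1)) (h : ick (D + IBN) mk = 0) :
    ∃ v, Bia 160 163 124 (D + IBN) v ∧ (∀ k < 163, |v k| < 2 ^ 123) ∧ y ≤ val m 163 v ∧
      (∀ k < 163, I.testBit k = true → v k = 0) ∧ Ub (mz E) 124 (ilo (D + IBN) a) (val (mz E) 124 v) := by
  rw [ick_eq, Nat.add_eq_zero_iff] at h
  obtain ⟨h1, h3⟩ := h
  have e : IBN = 2 ^ 124 * on 160 163 := by decide +kernel
  have h4 := shr_tt (K := 160) (c := 122) (n := 163) h1 (by norm_num)
  obtain ⟨v, hv, h5, h6⟩ := hD.bia (b := 124) (c := 122) (by norm_num) (by norm_num) (by omega)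
  rw [hm, e] at h3
  rw [e]
  refine ⟨v, hv, h5, h6, fun k hk hI => hv.zero (by norm_num) h3 hk hI, ?_⟩
  rw [ilo_eq, show MLO = 2 ^ (160 * 124) - 1 by decide +kernel, Nat.and_two_pow_sub_one_eq_mod, ← tt_pow,
    ← add_zero (val _ _ _)]
  refine Ub.add ⟨v, ⟨2 ^ 124, ?_, fun k hk => by exact_mod_cast (hv k (by omega)).2.le⟩, le_rfl⟩ ha
  rw [Nat.cast_add, hv.mod (by norm_num),
    show (CLO : ℤ) = (2 ^ 124 : ℕ) * (tt 160 : ℤ) ^ 124 - 2 ^ 124 * on 160 124 by decide +kernel]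
  ring

theorem j1b_sound (F : Fit P E) (hb : InB E b) (hr : InR E r) {m : ℕ → ℝ} {z : ℝ × ℝ}
    {l ox oy mk I jx jy n hw wi wh D a : ℕ} {el : IL} (hl : LsOK E l z) (ex : ox = 160 * jx) (ey : oy = 160 * jy)
    (hx : jx + 21 ≤ 163) (hy : jy + 37 ≤ 163) (hm : mk = msk 160 163 I (tt 160 - 1))
    (hd : ∀ v : ℕ → ℤ, (∀ k < 163, I.testBit k = true → v k = 0) →
      val m 163 v = val (mz E) 124 v + (Sr * z.2 * aX E v jx + Sr * z.1 * aY E v jy))
    (he : ILok E m z el) (hD : Ub m 163 D 0) (ha : Ub (mz E) 124 a 0)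
    (h : j1b b r l ox oy mk n hw wi wh el (D + IBN) a = 0) : False := by
  obtain ⟨φ, c, u, he⟩ := he
  rw [j1b_eq, j1c_eq, Nat.add_eq_zero_iff, add_right_comm, j1d_eq] at h
  obtain ⟨v, v1, v0, v2, v3, v5⟩ := ick_sound (hD.add u) ha hm h.1
  have := ipo_sound F hl (cx_lt ((cx_aff (val (mz E) 124 v) (aX E v jx) (aY E v jy)).add c)) (fun w g e h3 => by
    rw [if1_eq] at h3
    have := ifin_sound F.t0 F.t1 hb hr (v5.add (ia_ub (winX v1 v0 ex hx) (winY v1 v0 ey hy) (he w g))) h3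
    simp only [Set.mem_ofPred_eq, Pi.add_apply, vp1, vp2]
    linarith) h.2
  simp only [Set.mem_ofPred_eq, Pi.add_apply] at this
  rw [hd v v3] at v2
  linarith

theorem xc_ub {z : ℕ} {μ : ℤ} (e : (z : ℤ) = μ + 2 ^ 124) (v w : ℕ) :
    Ub (mz E) 124 (xc (z - IB1) (IB1 - z) v w) (μ * (vx E v * vy E w - vy E v * vx E w)) := by
  have m : mulOK 19 19 AL := by decide +kernel
  have h := (SP.mulz (vX_ok (E := E) v) (vY_ok w) m).sub (SP.mulz (vY_ok v) (vX_ok w) m)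
  have s : (XS : ℤ) = 2 ^ 58 * (tt 160 : ℤ) ^ 124 := by decide +kernel
  rw [xc_eq, xc2_eq]
  refine (((h.ub (2 ^ 58) AL_lt (by norm_num) ?_).mul _).add
    ((h.neg.ub (2 ^ 58) AL_lt (by norm_num) ?_).mul _)).mono (le_of_eq ?_)
  · push_cast
    rw [s]
    ring
  · push_cast
    rw [s]
    ring
  · have : (z : ℝ) - IB1 = μ := by
      rw [show IB1 = 2 ^ 124 by decide +kernel, sub_eq_iff_eq_add]
      exact_mod_cast e
    rw [← this, ← tsub_r]
    ring

theorem inner_sound (F : Fit P E) (hb : InB E b) (hr : InR E r) {l6 d z x y v n hw wi wh e : ℕ} {el : IL} {μ : ℤ}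
    {c α β : ℝ} {φ χ : ℝ × ℝ → ℝ} {f : F3} (hl : LsOK E l6 q) (hd : Ub (mz E) 124 d c) (ez : (z : ℤ) = μ + 2 ^ 124)
    (h1 : SP (mz E) 1052691 ((x : ℤ) - BXI) α (5 * 2 ^ 123))
    (h2 : SP (mz E) 68987912211 ((y : ℤ) - BYI) β (5 * 2 ^ 123))
    (c1 : ConvexOn ℝ Set.univ φ) (c2 : ConvexOn ℝ Set.univ χ) (he : ∀ w h, Ub (mz E) 124 (el.1 w h) (φ (vp E w)))
    (hf : ∀ w h e, f w h e = 0 → ∃ t, Ub (mz E) 124 t (χ (vp E w)) ∧
      ifin b r (d + ia x y ((x + y) * X0) el w h + xc (z - IB1) (IB1 - z) v w + t) = 0)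
    (h : ipo f l6 n hw wi wh e = 0) :
    c + (Sr * q.2 * (α + μ * vx E v) + Sr * q.1 * (β - μ * vy E v)) + φ q + χ q < 0 :=
  ipo_sound F hl (cx_lt (((cx_aff c (α + μ * vx E v) (β - μ * vy E v)).add c1).add c2)) (fun w g e a3 => by
    obtain ⟨t, t1, t2⟩ := hf w g e a3
    have := ifin_sound F.t0 F.t1 hb hr (((hd.add (ia_ub h1 h2 (he w g))).add (xc_ub ez v w)).add t1) t2
    simp only [Set.mem_ofPred_eq, Pi.add_apply, vp1, vp2] at this ⊢
    linarith) h

theorem j2b_sound (hP : P.ok) (F : Fit P E) (hb : InB E b) (hr : InR E r) {e5 e6 : IL}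
    {l5 l6 f μ n5 n6 h5 h6 hw j5 j6 s5 s6 D a : ℕ} (k5 : LsOK E l5 p) (k6 : LsOK E l6 q)
    (o5 : ILok E (mo P E p q) p e5) (o6 : ILok E (mo P E p q) q e6) (hD : Ub (mo P E p q) 163 D 0)
    (ha : Ub (mz E) 124 a 0) (h : j2b b r e5 e6 (f * μ) l5 l6 n5 n6 f h5 h6 hw j5 j6 s5 s6 (D + IBN) a = 0) :
    False := by
  obtain ⟨φ, c5, u5, e5'⟩ := o5
  obtain ⟨ψ, c6, u6, e6'⟩ := o6
  rw [j2b_eq, j2c_eq, Nat.add_eq_zero_iff, add_right_comm _ IBN, add_right_comm _ IBN,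
    add_right_comm _ IBN] at h
  obtain ⟨v, v1, v0, v2, hv, v5⟩ := ick_sound (I := 4341631381579954638422342420200833788705438171136)
    (((hD.add u5).add u6).add (iun_ub (f * μ) (k := 129) rfl (by norm_num))) ha (by decide +kernel) h.1
  rw [val_dec fun k h1 => hv k (by omega) (by rcases h1 with rfl | h1 | h1; rfl; all_goals
      (obtain ⟨h1, h2⟩ := h1; interval_cases k <;> rfl)), show mo P E p q 129 = dl P q p from dl_swap _ _] at v2
  replace h := h.2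
  rw [j2e_eq, j2d_eq, idg_di _ (k := 136) rfl] at h
  have X5 := winX (E := E) v1 v0 (o := 20960) (j := 131) rfl (by norm_num)
  have Y5 := winY (E := E) v1 v0 (o := 19840) (j := 124) rfl (by norm_num)
  have X6 := winX (E := E) v1 v0 (o := 21280) (j := 133) rfl (by norm_num)
  have Y6 := winY (E := E) v1 v0 (o := 20160) (j := 126) rfl (by norm_num)
  have E8 := (v1 136 (by norm_num)).1
  have cx := cx_lt (((cx_aff (val (mz E) 124 v + (Sr * q.2 * aX E v 133 + Sr * q.1 * aY E v 126) + ψ q)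
    (aX E v 131 - v 136 * (Sr * q.1)) (aY E v 124 + v 136 * (Sr * q.2))).add c5).add (dl_cx hP q (f * μ)))
  rcases brz_eq h with ⟨-, h⟩ | ⟨hf, h⟩
  · have := ipo_sound F k5 cx (fun x g e hz => by
      rw [ifp_eq] at hz
      have := inner_sound F hb hr k6 (v5.add (ia_ub X5 Y5 (e5' x g))) E8 X6 Y6 c6
        (dl_cx hP (vp E x) (f * μ)) e6' (fun w g' e' a3 => ⟨_, ipq_ub (f * μ) _ (by
          rw [dl_q hP, vp1, vp2, vp1, vp2]
          exact qc_ub F (vX_ok x) (vY_ok x) w), by rwa [igp_eq, vS_eq] at a3⟩) hz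
      simp only [Set.mem_ofPred_eq, Pi.add_apply, vp1, vp2, dl_swap q] at this ⊢
      linarith) h
    simp only [Set.mem_ofPred_eq, Pi.add_apply] at this
    linarith
  · have := ipo_sound F k5 cx (fun x g e hz => by
      rw [ifn_eq] at hz
      have := inner_sound F hb hr k6 (v5.add (ia_ub X5 Y5 (e5' x g))) E8 X6 Y6 c6
        (convexOn_const 0 convex_univ) e6' (fun w g' e' a3 =>
          ⟨0, Ub.zero, by rwa [ign_eq, ← add_zero (_ + _)] at a3⟩) hz
      simp only [Set.mem_ofPred_eq, Pi.add_apply, vp1, vp2, hf, zero_mul, Nat.cast_zero] at this ⊢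
      linarith) h
    simp only [Set.mem_ofPred_eq, Pi.add_apply] at this
    linarith

variable {fa g rt l5 l6 i5 i6 : ℕ} (hP : P.ok) (F : Fit P E) (L : FitL P E)
  (I : IInv P E p q b r fa g rt l5 l6 i5 i6) {w : ℕ}
include hP F L I

theorem jf1_sound5 (h : jf1 b r fa g l5 i5 20960 19840 22080 IK5 w = 0) : False := by
  unfold jf1 at h
  rw [j1p_eq, j1a_eq] at h
  refine j1b_sound F I.bx I.rg (m := mo P E p q) (I := 10221936772639212672194053819575989253673999925248)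
    (jx := 131) (jy := 124) I.l5 rfl rfl (by norm_num) (by norm_num) (by decide +kernel) (fun v hv => ?_)
    (iel_ok hP F I.bx _ _ _ (k := 138) rfl (by norm_num) fun i hi => by interval_cases i <;> rfl)
    (((I.i5 q).nn _).add0 (iss_ub hP F I.hp I.hq L I.g _ _ _ _ _)) (ifs_ub I.fa _ _ _ _ _ _) h
  rw [val_dec fun k h1 => hv k (by omega) (by rcases h1 with rfl | h1 | h1; rfl; all_goals
      (obtain ⟨h1, h2⟩ := h1; interval_cases k <;> rfl))]
  simp [aX, aY, hv 126 (by norm_num) rfl, hv 127 (by norm_num) rfl, hv 130 (by norm_num) rfl,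
    hv 154 (by norm_num) rfl, hv 162 (by norm_num) rfl, hv 133 (by norm_num) rfl, hv 134 (by norm_num) rfl,
    hv 137 (by norm_num) rfl, hv 145 (by norm_num) rfl, hv 153 (by norm_num) rfl, hv 136 (by norm_num) rfl]

theorem jf1_sound6 (h : jf1 b r fa g l6 i6 21280 20160 23360 IK6 w = 0) : False := by
  unfold jf1 at h
  rw [j1p_eq, j1a_eq] at h
  refine j1b_sound F I.bx I.rg (m := mo P E p q) (I := 5811707794678983595685455255012547281847075209216)
    (jx := 133) (jy := 126) I.l6 rfl rfl (by norm_num) (by norm_num) (by decide +kernel) (fun v hv => ?_)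
    (iel_ok hP F I.bx _ _ _ (k := 146) rfl (by norm_num) fun i hi => by interval_cases i <;> rfl)
    ((I.i6.nn _).add0 (iss_ub hP F I.hp I.hq L I.g _ _ _ _ _)) (ifs_ub I.fa _ _ _ _ _ _) h
  rw [val_dec fun k h1 => hv k (by omega) (by rcases h1 with rfl | h1 | h1; rfl; all_goals
      (obtain ⟨h1, h2⟩ := h1; interval_cases k <;> rfl))]
  simp [aX, aY, hv 124 (by norm_num) rfl, hv 125 (by norm_num) rfl, hv 128 (by norm_num) rfl,
    hv 152 (by norm_num) rfl, hv 160 (by norm_num) rfl, hv 131 (by norm_num) rfl, hv 132 (by norm_num) rfl,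
    hv 135 (by norm_num) rfl, hv 143 (by norm_num) rfl, hv 151 (by norm_num) rfl, hv 136 (by norm_num) rfl]

theorem jf0_sound (h : jf0 b r fa g w = 0) : False := by
  unfold jf0 at h
  rw [j0p_eq, j0a_eq, Nat.add_eq_zero_iff] at h
  obtain ⟨v, -, -, v2, hv, v5⟩ := ick_sound (I := 11692013098625955697696920007763803244282974830592)
    (iss_ub hP F I.hp I.hq L I.g _ _ _ _ _) (ifs_ub I.fa _ _ _ _ _ _) (by decide +kernel) h.1
  have := ifin_sound F.t0 F.t1 I.bx I.rg v5 h.2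
  rw [show 163 = 124 + 39 from rfl, val, sum_range_add, sum_eq_zero (s := range 39) fun k hk => by
    rw [hv (124 + k) (by rw [mem_range] at hk; omega) ((by decide +kernel : ∀ k < 39,
      (11692013098625955697696920007763803244282974830592 : ℕ).testBit (124 + k) = true) k (mem_range.1 hk))]
    simp, add_zero, sum_congr rfl fun k hk => by rw [mo, if_pos (mem_range.1 hk)]] at v2
  exact absurd (v2.trans_lt this) (lt_irrefl _)

theorem jf2_sound (h : jf2 b r fa g l5 l6 i5 i6 w = 0) : False := by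
  unfold jf2 at h
  rw [j2p_eq, j2a_eq] at h
  exact j2b_sound hP F I.bx I.rg I.l5 I.l6
    (iel_ok hP F I.bx _ _ _ (k := 138) rfl (by norm_num) fun i hi => by interval_cases i <;> rfl)
    (iel_ok hP F I.bx _ _ _ (k := 146) rfl (by norm_num) fun i hi => by interval_cases i <;> rfl)
    ((((I.i5 q).nn _).add0 (I.i6.nn _)).add0 (iss_ub hP F I.hp I.hq L I.g _ _ _ _ _)) (ifs_ub I.fa _ _ _ _ _ _) h

end

end Pool.Agent.Lib.MP_9d820d_co.IFast
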