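import Pool.Agent.Lib.MP_9d820d_co.INode
import Pool.Agent.Lib.MP_9d820d_co.FMain

set_option autoImplicit false
set_option exponentiation.threshold 30000

namespace Pool.Agent.Lib.MP_9d820d_co.IFast

open Fast (fl fl_eq nth GST)

noncomputable section

variable {P : Prm} {E : Env}

theorem itree_sound (hP : P.ok) (F : Fit P E) (L : FitL P E) {hs : ℕ → ℕ} (hh : ∀ i, IGood P (hs i)) :
    Sound P E (itree hs) := by
  have s1 : ∀ k, Sound P E k → Sound P E (istep hs k) := fun _ h => istep_sound hP F L h hh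
  have s2 : ∀ k, Sound P E k → Sound P E (u2 hs k) := fun _ h => s1 _ (s1 _ h)
  have s4 : ∀ k, Sound P E k → Sound P E (u4 hs k) := fun _ h => s2 _ (s2 _ h)
  have s8 : ∀ k, Sound P E k → Sound P E (u8 hs k) := fun _ h => s4 _ (s4 _ h)
  have s16 : ∀ k, Sound P E k → Sound P E (u16 hs k) := fun _ h => s8 _ (s8 _ h)
  have s32 : ∀ k, Sound P E k → Sound P E (u32 hs k) := fun _ h => s16 _ (s16 _ h)
  have s64 : ∀ k, Sound P E k → Sound P E (u64 hs k) := fun _ h => s32 _ (s32 _ h)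
  have s128 : ∀ k, Sound P E k → Sound P E (u128 hs k) := fun _ h => s64 _ (s64 _ h)
  have s256 : ∀ k, Sound P E k → Sound P E (u256 hs k) := fun _ h => s128 _ (s128 _ h)
  exact s256 _ (s256 _ fun _ _ _ _ _ _ _ _ _ _ _ _ h => by cases h)

theorem good_zero (hP : P.ok) : IGood P 0 := fun E F L p q I => by
  have a := I.rg 1 (by norm_num)
  have b := I.rg 2 (by norm_num)
  have c := (I.bx 4 (by norm_num)).2
  have e := L 1 (by norm_num)
  have f := L 2 (by norm_num)
  simp only [fl_eq, Nat.zero_and, Nat.zero_shiftRight, Nat.cast_zero] at a b c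
  rw [show E.l 1 = E.l 2 by linarith [a.1, a.2, b.1, b.2], show bR 1 = bR 2 from rfl, ← f] at e
  have g := congrArg (· ^ 2) (mul_left_cancel₀ Sr_pos.ne' e)
  simp only [Lf_sq hP.psd, Qf, Prm.V, Prm.pt, Prod.fst_sub, Prod.snd_sub] at g
  have h := F.be
  rw [show P.be = 0 by linarith] at h
  nlinarith [F.t0]

theorem nth_good (hP : P.ok) {l : List ℕ} (h : ∀ x ∈ l, IGood P x) (i : ℕ) : IGood P (nth l i) := by
  induction l generalizing i with
  | nil => exact good_zero hP
  | cons a l ih =>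
    rcases i with _ | i
    · exact h a List.mem_cons_self
    · exact ih (fun x hx => h x (List.mem_cons_of_mem _ hx)) i

/-- a checked tree closes the context h -/
theorem irun_good (hP : P.ok) {holes : List ℕ} {h t : ℕ} (hr : irun holes h t = true)
    (hh : ∀ x ∈ holes, IGood P x) : IGood P h := fun _ F L p q =>
  itree_sound hP F L (nth_good hP hh) t _ _ _ _ _ _ _ _ _ p q (Nat.eq_of_beq_eq_true hr)

theorem ic0 : ∀ x ∈ ([] : List ℕ), IGood P x := fun _ h => by cases h
theorem ic1 {a : ℕ} {l : List ℕ} (h : IGood P a) (t : ∀ x ∈ l, IGood P x) : ∀ x ∈ a :: l, IGood P x :=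
  List.forall_mem_cons.2 ⟨h, t⟩

/-- the displacement of the configuration is not in the box b -/
def IBad (P : Prm) (b : ℕ) : Prop := ∀ E, Fit P E → ¬ InB E b

theorem iroot_bad (hP : P.ok) {holes : List ℕ} {b r t : ℕ} (hr : iroot holes b r t = true)
    (hh : ∀ x ∈ holes, IGood P x) : IBad P b := fun E F hb => by
  obtain ⟨h1, h2⟩ := Nat.add_eq_zero_iff.1 (Nat.eq_of_beq_eq_true hr)
  have t0 := F.t0
  refine itree_sound (E := ⟨E.t, E.d, fun j => (lenJ P j - bR j) / E.t⟩) hP { F with }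
    (fun j _ => by rw [mul_div_cancel₀ _ t0.ne']; ring) (nth_good hP hh) t _ _ _ _ _ _ _ _ _ (0, 0) (0, 0) h2
    ⟨hP.m0, hP.m0, hb, fun j hj => ?_, FaOK.zero _, fun i hi j hj l hl e => ?_,
      fun _ => IRT_ok hP, LsOK.zero _, LsOK.zero _, fun _ => Ub.zero, Ub.zero⟩
  · have k : rk b r j = 0 := by
      rw [rok_eq] at h1
      interval_cases j <;> omega
    rw [rk_eq, Nat.add_eq_zero_iff, Nat.shiftLeft_eq, mul_comm] at k
    have r0 : InR ⟨E.t, E.d, fun _ => 0⟩ R0 := fun k hk => by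
      obtain ⟨c1, c2⟩ := (by decide +kernel : ∀ k < 10,
        fl R0 (64 * k) = 8388608 ∧ fl (R0 >>> 32) (64 * k) = 8388608) k hk
      simp [c1, c2]
    have a1 := up_sound (E := ⟨E.t, E.d, fun _ => 0⟩) hP { F with } hb r0 (by omega) k.1
    have a2 := lo_sound (E := ⟨E.t, E.d, fun _ => 0⟩) hP { F with } hb r0 (by omega) k.2
    exact ⟨sub_le_iff_le_add.1 ((le_div_iff₀' t0).2 (le_sub_iff_add_le'.2 a2)),
      le_sub_iff_add_le.1 ((div_le_iff₀' t0).2 (sub_le_iff_le_add'.2 a1))⟩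
  · rw [show GST = (2 ^ 512 - 1) <<< 512 by decide +kernel, Nat.testBit_shiftLeft,
      decide_eq_false (by omega)] at e
    cases e

def sg7 (m : ℕ) : ℕ := [0, 2, 1, 3, 5, 4, 6].getD m 0

/-- the packed box b contains the face n s of the local box -/
def ifc (e : V7 ℕ) (n : ℕ) (s : Bool) (b : ℕ) : Prop := ∀ k < 7,
  (fl b (64 * k) : ℤ) ≤ (if sg7 k = n ∧ s = true then (eN e (sg7 k) : ℤ) else -eN e (sg7 k)) + 8388608 ∧
  (if sg7 k = n ∧ s = false then -(eN e (sg7 k) : ℤ) else if sg7 k = 5 then 0 else eN e (sg7 k)) + 8388608 ≤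
    (fl (b >>> 32) (64 * k) : ℤ)
instance (e : V7 ℕ) (n : ℕ) (s : Bool) (b : ℕ) : Decidable (ifc e n s b) := by unfold ifc; infer_instance

/-- the local theorem from the 13 faces (n, s) ≠ (5, true) -/
theorem notLoc_fast (hP : P.ok) (e : V7 ℕ) (lo hi : V7 ℤ) (hl : locChk e lo hi = true)
    (hf : ∀ n : ℕ, n < 7 → ∀ s : Bool, ¬ (n = 5 ∧ s = true) → ∃ b, ifc e n s b ∧ IBad P b) :
    NotLoc (iops lo hi) (fun a : ℤ => (a : ℝ)) P := by
  intro _ hin
  have hin := (iops_InV P lo hi lo hi).1 hin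
  simp only [locChk, band_eq] at hl
  obtain ⟨⟨h1, h2⟩, h3⟩ := hl
  have ep : ∀ n < 7, (0 : ℝ) < eN e n := fun n hn => by
    have : 1 ≤ eN e n := ble_sp (lall_true h3 _ (by
      interval_cases n <;> simp [eN, sel7_0, sel7_1, sel7_2, sel7_3, sel7_4, sel7_5, sel7_6]))
    exact_mod_cast this
  have z5 : (get7 zops (etaHi e) 5).val = 0 := lawful_z.zero
  have b5 : (get7 zops zops.base 5).val = 0 := lawful_z.zero
  have d5 : zc P 5 ≤ 0 := mul_nonpos_of_nonneg_of_nonpos Sr_pos.le hP.bbe.2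
  set d : ℕ → ℝ := fun n => zc P n - (get7 zops zops.base n).val with hd
  have dle : ∀ n < 7, |d n| ≤ eN e n := fun n hn => by
    have a1 := leV_sp lawful_z h1 n hn
    have a2 := leV_sp lawful_z h2 n hn
    rw [vadd_val _ _ hn] at a1 a2
    rw [etaLo_val e hn] at a1
    have a3 : (get7 zops (etaHi e) n).val ≤ eN e n := by
      by_cases h5 : n = 5
      · rw [h5, z5]; positivity
      · rw [etaHi_val e hn h5]
    rw [abs_le, hd]
    constructor <;> linarith [(hin n hn).1, (hin n hn).2]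
  obtain ⟨n, hn, hmax⟩ := Finset.exists_max_image (Finset.range 7) (fun n => |d n| / eN e n) ⟨0, by simp⟩
  rw [Finset.mem_range] at hn
  set t := |d n| / eN e n with htd
  have dt : ∀ m < 7, |d m| ≤ t * eN e m := fun m hm =>
    (div_le_iff₀ (ep m hm)).1 (hmax m (Finset.mem_range.2 hm))
  have dn : |d n| = t * eN e n := by rw [htd, div_mul_cancel₀ _ (ep n hn).ne']
  have t1 : t ≤ 1 := (div_le_one (ep n hn)).2 (dle n hn)
  have dd : d 5 ≤ 0 := by simp only [hd, b5]; linarith
  have z : ∀ m, zc P m = (get7 zops zops.base m).val + d m := fun m => by simp only [hd]; ring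
  have z0 := z 0
  have z1 := z 1
  have z2 := z 2
  have z3 := z 3
  have z4 := z 4
  have z5 := z 5
  have z6 := z 6
  rw [b5] at z5
  clear_value t d
  simp only [zc, get7, zops, sel7_0, sel7_1, sel7_2, sel7_3, sel7_4, sel7_6, ZP.val,
    Int.cast_negSucc, Int.ofNat_eq_natCast] at z0 z1 z2 z3 z4 z5 z6
  push_cast at z0 z1 z2 z3 z4 z6
  have t0 : 0 < t := by
    by_contra hc
    have y : ∀ m < 7, d m = 0 := fun m hm =>
      abs_nonpos_iff.1 ((dt m hm).trans (mul_nonpos_of_nonpos_of_nonneg (not_lt.1 hc) (ep m hm).le))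
    rw [y _ (by norm_num), Sr] at z0 z1 z2 z3 z4 z5 z6
    exact hP.neP ⟨by linarith, by linarith, by linarith, by linarith, by linarith, by linarith, by linarith⟩
  have m : ∀ x, t * (x / t) = x := fun x => mul_div_cancel₀ _ t0.ne'
  obtain ⟨s, s1, s2⟩ : ∃ s : Bool, ¬ (n = 5 ∧ s = true) ∧ d n = t * (if s = true then eN e n else -eN e n : ℝ) := by
    rcases le_or_gt (d n) 0 with c | c
    · exact ⟨false, by simp, by rw [abs_of_nonpos c] at dn; simp; linarith⟩
    · exact ⟨true, fun h => by rw [h.1] at c; linarith, by rw [abs_of_pos c] at dn; simpa using dn⟩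
  obtain ⟨b, b1, b2⟩ := hf n hn s s1
  refine b2 ⟨t, fun k => d (sg7 k) / t, fun _ => 0⟩ ⟨t0, t1, by rw [m]; linarith!, by rw [m]; linarith!,
    by rw [m]; linarith!, by rw [m]; linarith!, by rw [m]; linarith!, by rw [m]; linarith!, by rw [m]; linarith!⟩
    fun k hk => ?_
  obtain ⟨c1, c2⟩ := b1 k hk
  have k7 : sg7 k < 7 := by interval_cases k <;> decide
  dsimp only
  generalize sg7 k = j at *
  have a := abs_le.1 (dt j k7)
  rw [← Int.cast_le (R := ℝ)] at c1 c2
  push_cast at c1 c2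
  refine ⟨c1.trans (add_le_add ((le_div_iff₀' t0).2 ?_) le_rfl),
    le_trans (add_le_add ((div_le_iff₀' t0).2 ?_) le_rfl) c2⟩
  · split_ifs with h
    · rw [h.1, s2, if_pos h.2]
    · linarith [a.1]
  · split_ifs with h h5
    · rw [h.1, s2, if_neg (by simp [h.2])]
    · rw [h5, mul_zero]
      exact dd
    · exact a.2

end

end Pool.Agent.Lib.MP_9d820d_co.IFast
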