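import Pool.Agent.Lib.MP_9d820d_co.ILeaf

set_option autoImplicit false
set_option exponentiation.threshold 30000

namespace Pool.Agent.Lib.MP_9d820d_co.IFast

open Finset
open Fast (GOK KT QM brz_eq brz_le fl fl_shr fl_lt upd land_lt push_zero push_succ M448 M640 M512 GST InF adf adf_sq
  shr_zero)

noncomputable section

attribute [local irreducible] fl wa mn mw iww

def Sound (P : Prm) (E : Env) (k : KT) : Prop := ∀ w b r fa g rt l5 l6 i5 i6 p q,
  k w b r fa g rt l5 l6 i5 i6 = 0 → ¬ IInv P E p q b r fa g rt l5 l6 i5 i6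

/-- no configuration satisfies the context coded by h -/
def IGood (P : Prm) (h : ℕ) : Prop := ∀ E, Fit P E → FitL P E → ∀ p q,
  ¬ IInv P E p q (h &&& M448) ((h >>> 448) &&& M640) (ifa h) (((h >>> 1088) &&& M512) + GST) (irt h) 0 0 0 0

variable {P : Prm} {E : Env} {p q : ℝ × ℝ} {k : KT} {w b r fa g rt l5 l6 i5 i6 : ℕ}

theorem IMF_eq : IMF = 2 ^ 20000 - 1 := by decide +kernel

theorem FaOK.push {l e : ℕ} (h : FaOK E l) (g : Ub (mz E) 124 e 0) (he : e < 2 ^ 20000) :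
    FaOK E (l <<< 20000 + e) := fun i => by
  rcases i with _ | i
  · rwa [ien_eq, IMF_eq, push_zero l he]
  · rw [ien_eq, push_succ l i he]
    exact h i

theorem FaOK.zero (E : Env) : FaOK E 0 := fun i => by simpa [ien_eq] using Ub.zero

theorem jR3_sound (hk : Sound P E k) (I : IInv P E p q b r fa g rt l5 l6 i5 i6) {f : ℕ}
    (hf : Ub (mz E) 124 f 0) (h : jR3 k w b r fa g rt l5 l6 i5 i6 f = 0) : False := by
  rw [jR3_eq, Nat.add_eq_zero_iff, ipu_eq] at h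
  exact hk _ _ _ _ _ _ _ _ _ _ p q h.2
    { I with fa := I.fa.push hf ((shr_zero h.1).trans (Nat.pow_lt_pow_right (by norm_num) (by norm_num))) }

theorem ijt_sp {j : ℕ} (hj : j ≤ 9) :
    SP (mz E) 88615199718913796472279495407042563 (ijt j) (E.t * E.l j) 1 :=
  (SP.one 1 (80 + 4 * j) ((by decide +kernel : ∀ j ≤ 9,
    (88615199718913796472279495407042563 : ℕ).testBit (80 + 4 * j) = true) j hj)).cg
    (by rw [ijt_eq, shl_tt (K := 160) _ (k := 80 + 4 * j) (by ring)]; push_cast; rfl) (by rw [mz_l hj]; simp) le_rfl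

theorem bj_sp' (j : ℕ) : SP (mz E) 88615199718913796472279495407042563 (bj j) (bR j) 33554424 :=
  (bj_sp j).sub' fun e he => by
    have := lt_of_bit (n := 2) (by norm_num) he
    interval_cases e <;> rfl

theorem FS_eq : (FS : ℤ) = (2 ^ 75 : ℕ) * (tt 160 : ℤ) ^ 124 := by decide +kernel

theorem fq_ub {j : ℕ} (hj : j ≤ 9) : Ub (mz E) 124 (fq j + FS) (16777212 * bR j * (2 * (E.t * E.l j) + bR j)) ∧
    Ub (mz E) 124 (FS - fq j) (-(16777212 * bR j * (2 * (E.t * E.l j) + bR j))) := by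
  have h := (((bj_sp (E := E) j).smul 16777212).mulz (((ijt_sp hj).smul 2).add (bj_sp' j)) (L := AL)
    (by decide +kernel)).cg (Y := fq j) (N := (2 ^ 75 : ℕ)) (by rw [fq_eq]; push_cast; rfl) rfl (by norm_num)
  push_cast at h
  exact ⟨h.ub0 (2 ^ 75) AL_lt (by norm_num) (by rw [Nat.cast_add, FS_eq]),
    h.neg.ub (2 ^ 75) AL_lt (by norm_num) (by rw [FS_eq]; ring)⟩

theorem ub4 (a c d e : ℤ) {x s : ℕ}
    (h : (x : ℤ) = a * (tt 160 : ℤ) ^ 0 + c * (tt 160 : ℤ) ^ 1 + d * (tt 160 : ℤ) ^ 2 + e * (tt 160 : ℤ) ^ 3 +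
      s * (tt 160 : ℤ) ^ 124 ∧ |a| ≤ s ∧ |c| ≤ s ∧ |d| ≤ s ∧ |e| ≤ s)
    (z : 0 ≤ a + c * gphi + d * (gphi + 1) + e * (2 * gphi + 1)) : Ub (mz E) 124 x 0 := by
  have e3 : gphi ^ 3 = 2 * gphi + 1 := by rw [pow_succ, phi_sq]; linarith [phi_sq]
  refine ⟨fun k => (((if k = 0 then a else 0) + if k = 1 then c else 0) + if k = 2 then d else 0) +
    if k = 3 then e else 0, ⟨s, ?_, fun k _ => ?_⟩, ?_⟩
  · rw [pk_add, pk_add, pk_add, pk_single (by norm_num), pk_single (by norm_num), pk_single (by norm_num),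
      pk_single (by norm_num), h.1]
  · obtain ⟨-, h1, h2, h3, h4⟩ := h
    dsimp only
    split_ifs <;> first | omega | simp [*]
  · rwa [val_add, val_add, val_add, val_single (by norm_num), val_single (by norm_num), val_single (by norm_num),
      val_single (by norm_num), mz0, mz1, mz2, mz3, e3, phi_sq, mul_one]

theorem ird_ub {a : ℕ} (h : Ub (mz E) 124 a 0) : Ub (mz E) 124 (ird a) 0 := by
  rw [ird_eq, rd2_eq]
  exact (((h.add0 ((ub4 1 1 (-1) 0 (s := 1) (by decide +kernel) (by norm_num; linarith)).nn _)).add0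
    ((ub4 (-1) (-1) 1 0 (s := 1) (by decide +kernel) (by norm_num)).nn _)).add0
    ((ub4 1 2 0 (-1) (s := 2) (by decide +kernel) (by norm_num; linarith)).nn _)).add0
    ((ub4 (-1) (-2) 0 1 (s := 2) (by decide +kernel) (by norm_num)).nn _)

theorem blk_lo (F : Fit P E) (hb : InB E b) (hr : InR E r) {k : ℕ} (hk : k < 31) :
    -(E.t * (if k < 30 then 8388608 else iww b : ℝ)) ≤ E.t ^ ti k * gv E (gi k) := by
  have h := (q_rng F.t0 F.t1 hb hr k hk).1
  have t0 := F.t0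
  rcases k with _ | k
  · simp only [ti, gi, gv, List.getD_cons_zero, pow_zero, if_true, Nat.reduceLT]
    linarith
  obtain ⟨u, hu⟩ := Nat.exists_eq_add_of_le' ((by decide : ∀ k < 30, 1 ≤ ti (k + 1)) k (by omega))
  rw [qb, hu, Nat.add_sub_cancel] at h
  rw [hu, pow_succ', mul_assoc, ← mul_neg]
  refine mul_le_mul_of_nonneg_left (le_trans ?_ h) t0.le
  split_ifs with c
  · have : rD (k + 1) ≤ 8388608 := by rw [rD, if_pos c]; split_ifs <;> norm_num
    have : (rD (k + 1) : ℝ) ≤ 8388608 := by exact_mod_cast this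
    linarith [Nat.cast_nonneg (α := ℝ) (rL b r (k + 1))]
  · obtain rfl : k = 29 := by omega
    have c2 : iww b ≤ 2305843009213693952 := iww_le b
    simp only [rL, rD, List.getD_cons_succ, List.getD_cons_zero, Nat.reduceAdd, Nat.reduceLT, if_false]
    rw [Nat.cast_sub c2]
    push_cast
    linarith

theorem irn_ub (F : Fit P E) (hb : InB E b) (hr : InR E r) {y : ℕ} (hy : Ub (mz E) 124 y 0) (h : y >>> 19996 = 0) :
    Ub (mz E) 124 (irn (10 * (iww b + 34359738368)) (y + RBI)) 0 := by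
  obtain ⟨v, ⟨s, e, hs⟩, h0⟩ := hy
  have s1 := Rep.sen e hs (shr_tt (K := 160) (c := 156) h (by norm_num))
  have t1 : (tt 160 : ℤ) = 2 ^ 160 := by decide +kernel
  obtain ⟨a1, a2⟩ := digits_of (K := 160) (n := 124) (X := y + RBI) (s := s)
    (a := fun k => v k + (2 ^ 158 + 2 ^ 48 - 1) * 1) (by
      rw [pk_add, pk_mul, ← on_cast, Nat.cast_add, e,
        show (RBI : ℤ) = (2 ^ 158 + 2 ^ 48 - 1) * on 160 124 by decide +kernel]
      ring) fun k hk => by have := abs_le.1 (hs k hk); rw [t1]; omega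
  generalize y + RBI = X at *
  have e1 : (X >>> 48) &&& IRM = ns 160 124 fun k => di 160 X k / 2 ^ 48 := by
    rw [show IRM = ns 160 124 (fun _ => 2 ^ 112 - 1) by decide +kernel,
      land_ns _ (fun _ _ => lt_of_le_of_lt (Nat.sub_le _ _) (two_pow_lt_tt (by norm_num)))]
    refine ns_congr fun k _ => Nat.eq_of_testBit_eq fun i => ?_
    simp only [Nat.testBit_and, testBit_di, Nat.testBit_two_pow_sub_one, Nat.testBit_shiftRight,
      Nat.testBit_div_two_pow]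
    rw [show 48 + (i + 160 * k) = i + 48 + 160 * k by ring]
    by_cases hi : i < 112
    · simp [hi, show i < 160 by omega, show i + 48 < 160 by omega]
    · simp [hi, show ¬ i + 48 < 160 by omega]
  have e2 : X >>> 19888 = s / 2 ^ 48 := by
    rw [show 19888 = 160 * 124 + 48 from rfl, Nat.shiftRight_add, Nat.shiftRight_eq_div_pow,
      Nat.shiftRight_eq_div_pow, ← tt_pow, a1]
  have u4 : Ub (mz E) 124 VU4 E.t := by
    rw [show VU4 = tt 160 ^ 124 + tt 160 ^ 4 by decide +kernel, ← mz4]; exact Ub.up (by norm_num)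
  obtain ⟨u, hu, b1⟩ : ∃ u : ℕ → ℤ, (u = fun k => ((di 160 X k / 2 ^ 48 : ℕ) : ℤ) + -2 ^ 110 * 1) ∧
      ∀ k < 124, |u k| ≤ (s / 2 ^ 48 + 2 : ℕ) ∧ 0 ≤ 2 ^ 48 * u k + -1 * v k ∧ 2 ^ 48 * u k + -1 * v k ≤ 2 ^ 48 :=
    ⟨_, rfl, fun k hk => by have := abs_le.1 (hs k hk); have := a2 k hk; rw [abs_le]; omega⟩
  rw [irn_eq, e1, e2]
  refine ((Ub.diff (v := u) (s := s / 2 ^ 48 + 2) ?_ fun k hk => (b1 k hk).1).add (u4.mul _)).mono ?_
  · rw [hu, pk_add, pk_mul, ← on_cast, Nat.cast_add, ns_cast, Nat.cast_mul, TV_eq,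
      show (IRB : ℤ) = 2 ^ 110 * on 160 124 by decide +kernel]
    ring
  have g := val_add (m := mz E) (n := 124) (fun k => 2 ^ 48 * u k) (fun k => -1 * v k)
  rw [val_mul, val_mul] at g
  obtain ⟨δ, hδ, b2⟩ : ∃ δ : ℕ → ℤ, (fun k => 2 ^ 48 * u k + -1 * v k) = δ ∧ ∀ k < 124, (0 : ℝ) ≤ δ k ∧ (δ k : ℝ) ≤ 2 ^ 48 :=
    ⟨_, rfl, fun k hk => ⟨by exact_mod_cast (b1 k hk).2.1, by exact_mod_cast (b1 k hk).2.2⟩⟩
  rw [hδ, show 124 = 4 * 31 from rfl, val_blk] at g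
  have g2 : ∑ k ∈ range 31, -(10 * 2 ^ 48 * (E.t * (if k < 30 then 8388608 else iww b : ℝ))) ≤ _ :=
    (sum_le_sum fun k hk => ?_).trans g.le
  · rw [sum_range_succ, sum_congr rfl fun k hk => by rw [if_pos (mem_range.1 hk)], sum_const, card_range,
      if_neg (lt_irrefl _), nsmul_eq_mul] at g2
    rw [show 4 * 31 = 124 from rfl] at g2
    push_cast at g2 ⊢
    linarith [F.t0]
  rw [mem_range] at hk
  have m0 := mz_blk (E := E) k 0 (by norm_num)
  rw [add_zero] at m0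
  rw [m0, mz_blk k 1 (by norm_num), mz_blk k 2 (by norm_num), mz_blk k 3 (by norm_num)]
  have c := blk_lo F hb hr hk
  have c0 : 0 ≤ E.t * (if k < 30 then 8388608 else iww b : ℝ) := mul_nonneg F.t0.le (by
    split_ifs
    exacts [by norm_num, Nat.cast_nonneg _])
  generalize E.t * (if k < 30 then 8388608 else iww b : ℝ) = G at *
  generalize E.t ^ ti k * gv E (gi k) = x at *
  obtain ⟨p1, p2⟩ := phi_lo
  have e3 : gphi ^ 3 = 2 * gphi + 1 := by rw [pow_succ, phi_sq]; linarith [phi_sq]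
  have key : ∀ d f c : ℝ, 0 ≤ d ∧ d ≤ 2 ^ 48 → 0 ≤ f → f ≤ c → -(c * 2 ^ 48 * G) ≤ d * (f * x) := fun d f c h f0 f1 => by
    have := mul_le_mul f1 h.2 h.1 (f0.trans f1)
    linarith [mul_le_mul_of_nonneg_left ‹-G ≤ x› (mul_nonneg f0 h.1), mul_le_mul_of_nonneg_right this c0]
  linarith [key _ (gphi ^ 0) 1 (b2 (4 * k) (by omega)) (by norm_num) (by norm_num),
    key _ (gphi ^ 1) 1.7 (b2 (4 * k + 1) (by omega)) (by linarith) (by linarith),
    key _ (gphi ^ 2) 2.7 (b2 (4 * k + 2) (by omega)) (by positivity) (by linarith [phi_sq]),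
    key _ (gphi ^ 3) 4.3 (b2 (4 * k + 3) (by omega)) (by linarith) (by linarith)]

theorem jG4_sp {x z : ℕ} (h : jG4 b r x z = 0) : ifin b r x = 0 ∨ z = 0 := by
  rw [jG4_eq] at h
  exact (brz_eq h).imp And.right And.left

theorem igl_ok {z : ℝ × ℝ} (h : LsOK E rt z) (n w : ℕ) : LsOK E (igl rt n w) z := by
  rw [igl_eq]
  induction n generalizing w with
  | zero => exact LsOK.zero z
  | succ n ih => exact (ih _).push (h _) (land_lt _ _ IML_eq)

theorem igf_ok (h : FaOK E fa) (n w : ℕ) : FaOK E (igf fa n w) := by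
  rw [igf_eq]
  induction n generalizing w with
  | zero => exact FaOK.zero E
  | succ n ih => exact (ih _).push (h _) (land_lt _ _ IMF_eq)

theorem isd_sound (hk : Sound P E k) (I : IInv P E p q b r fa g rt l5 l6 i5 i6) {s u x y a c : ℕ} {z e : ℝ × ℝ}
    {v : ℝ} (hz : z ∈ P.X) (hu : ∀ p q, Ub (mo P E p q) 163 (u + IUP) v) (hd : Dir E x y a c e)
    (h : isd k s w b r fa g rt l5 i5 u x y a c = 0) : v + Sr * crs e z < 0 := not_le.1 fun h0 => by
  rw [isd_eq] at h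
  rcases brz_eq h with ⟨-, h⟩ | ⟨-, h⟩
  · exact hk _ _ _ _ _ _ _ _ _ _ p z h { I with
      hq := hz, g := I.g.and5 z, l6 := I.rt z hz, i6 := ((hu p z).add (dr2_ub win6 rfl rfl hd)).mono h0 }
  · exact hk _ _ _ _ _ _ _ _ _ _ z q h ⟨hz, I.hq, I.bx, I.rg, I.fa, I.g.and4 _ _, I.rt, I.rt z hz,
      LsOK.zero _, fun y => ((hu z y).add (dr2_ub win5 rfl rfl hd)).mono h0, Ub.zero⟩

variable (hP : P.ok) (F : Fit P E) (L : FitL P E) (hk : Sound P E k) (I : IInv P E p q b r fa g rt l5 l6 i5 i6)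

section
include hk I

theorem jC5_sound {h n : ℕ} (e : jC5 k w b r fa g rt l5 l6 i5 i6 h n = 0) : False := by
  rw [jC5_eq, Nat.add_eq_zero_iff] at e
  obtain ⟨F, a1, a2, a3, a4⟩ := cut_sp (E := E) h
  rcases le_total 0 (F p) with c | c
  · exact hk _ _ _ _ _ _ _ _ _ _ p q e.1 { I with l5 := I.l5.push (a1 p c) a3 }
  · exact hk _ _ _ _ _ _ _ _ _ _ p q e.2 { I with l5 := I.l5.push (a2 p c) a4 }

theorem jC6_sound {h n : ℕ} (e : jC6 k w b r fa g rt l5 l6 i5 i6 h n = 0) : False := by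
  rw [jC6_eq, Nat.add_eq_zero_iff] at e
  obtain ⟨F, a1, a2, a3, a4⟩ := cut_sp (E := E) h
  rcases le_total 0 (F q) with c | c
  · exact hk _ _ _ _ _ _ _ _ _ _ p q e.1 { I with l6 := I.l6.push (a1 q c) a3 }
  · exact hk _ _ _ _ _ _ _ _ _ _ p q e.2 { I with l6 := I.l6.push (a2 q c) a4 }

theorem jA_sound {h n : ℕ} (e : jA k w b r fa g rt l5 l6 i5 i6 h n = 0) : False := by
  rw [jA_eq, Nat.add_eq_zero_iff] at e
  obtain ⟨F, a1, a2, a3, a4⟩ := cut_sp (E := E) h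
  refine hk _ _ _ _ _ _ _ _ _ _ p q e.2 { I with rt := fun z hz => (I.rt z hz).push (a1 z ?_) a3 }
  by_contra hn
  exact hk _ _ _ _ _ _ _ _ _ _ z q e.1 ⟨hz, I.hq, I.bx, I.rg, I.fa, I.g.and4 _ _, I.rt,
    (I.rt z hz).push (a2 z (not_le.1 hn).le) a4, LsOK.zero _, fun _ => Ub.zero, Ub.zero⟩

theorem jSb_sound {j h n : ℕ} (e : jSb k w b r fa g rt l5 l6 i5 i6 (j <<< 6) (fl h 8) n = 0) : False := by
  rw [jSb_eq, Nat.add_eq_zero_iff] at e
  rcases InF.split I.bx j h with c | c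
  · exact hk _ _ _ _ _ _ _ _ _ _ p q e.1 { I with bx := c }
  · exact hk _ _ _ _ _ _ _ _ _ _ p q e.2 { I with bx := c }

theorem jSl_sound {j h n : ℕ} (e : jSl k w b r fa g rt l5 l6 i5 i6 (j <<< 6) (fl h 8) n = 0) : False := by
  rw [jSl_eq, Nat.add_eq_zero_iff] at e
  rcases InF.split I.rg j h with c | c
  · exact hk _ _ _ _ _ _ _ _ _ _ p q e.1 { I with rg := c }
  · exact hk _ _ _ _ _ _ _ _ _ _ p q e.2 { I with rg := c }

include hP

theorem jB_sound {h : ℕ} (e : jB k w b r fa g rt l5 l6 i5 i6 h = 0) : False := by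
  rw [jB_eq, jB2_eq, Nat.add_eq_zero_iff, Nat.add_eq_zero_iff] at e
  have a := land_lt (h >>> 4) 3 (m := 7) rfl
  have b := land_lt (h >>> 7) 3 (m := 7) rfl
  have c := land_lt (h >>> 10) 3 (m := 7) rfl
  rcases hP.t3 _ (pt_mem hP I.hp I.hq ((h >>> 4) &&& 7)) _ (pt_mem hP I.hp I.hq ((h >>> 7) &&& 7)) _
    (pt_mem hP I.hp I.hq ((h >>> 10) &&& 7)) with t | t | t
  · exact hk _ _ _ _ _ _ _ _ _ _ p q e.1.1 { I with g := I.g.or a b t }
  · exact hk _ _ _ _ _ _ _ _ _ _ p q e.1.2 { I with g := I.g.or a c t }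
  · exact hk _ _ _ _ _ _ _ _ _ _ p q e.2 { I with g := I.g.or b c t }

theorem jQ2_sound {s n e f u v x y z : ℕ} {d : ℝ × ℝ} {y1 y2 : ℝ}
    (hu : ∀ p q, Ub (mo P E p q) 163 (u + IUP) y1) (hv : ∀ p q, Ub (mo P E p q) 163 (v + IUP) y2)
    (hd : Dir E x y OEX OEY d) (hz : Sr * (gphi * Lf P.al P.be P.ga d) ≤ -y1 + -y2 → Ub (mz E) 124 z 0)
    (h : jQ2 k w b r fa g rt l5 l6 i5 i6 s n e f u v x y z = 0) : False := by
  simp only [jQ2_eq, Nat.add_eq_zero_iff] at h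
  obtain ⟨a, ma, c, mc, e⟩ := hP.wid d
  have s1 := isd_sound hk I ma hu hd h.1.1
  have s2 := isd_sound hk I mc hv hd.neg h.1.2
  rw [show crs (-d) c = -crs d c by simp only [crs, Prod.fst_neg, Prod.snd_neg]; ring] at s2
  exact jR3_sound hk I (hz (by linarith [mul_le_mul_of_nonneg_left e Sr_pos.le])) h.2

end

include F L I in
theorem jH_sound {hs : ℕ → ℕ} (hh : ∀ i, IGood P (hs i)) (e : jH hs w b r fa g rt = 0) : False := by
  simp only [jH_eq, jH2_eq, Nat.add_eq_zero_iff] at e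
  obtain ⟨⟨⟨⟨e1, e2⟩, e3⟩, e4⟩, e5⟩ := e
  rw [Nat.xor_eq_zero_iff] at e1 e2 e4 e5
  exact hh _ E F L p q ⟨I.hp, I.hq, e1 ▸ I.bx, e2 ▸ I.rg, e5 ▸ igf_ok I.fa _ _, I.g.hole e3,
    fun z hz => e4 ▸ igl_ok (I.rt z hz) _ _, LsOK.zero _, LsOK.zero _, fun _ => Ub.zero, Ub.zero⟩

include hP F L hk I

theorem jR_sound {h : ℕ} (e : jR k w b r fa g rt l5 l6 i5 i6 h = 0) : False := by
  rw [jR_eq] at e
  generalize (h >>> 4) &&& 15 = j at e
  rcases j with _ | j
  · cases e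
  replace e : jR2 k (w >>> 72) b r fa g rt l5 l6 i5 i6 j (h >>> 8) (j <<< 6) (fl h 8) (fl h 40) = 0 := e
  simp only [jR2_eq, Nat.add_eq_zero_iff] at e
  obtain ⟨⟨⟨e1, e2⟩, e3⟩, e4⟩ := e
  have hj : j ≤ 9 := by omega
  have old := I.rg j (by omega)
  rw [show 64 * j = j <<< 6 by rw [Nat.shiftLeft_eq]; omega] at old
  have u1 : E.l j + 8388608 ≤ fl h 40 := by
    rcases brz_le e2 with ⟨-, c⟩ | ⟨c, -⟩
    · have := up_sound hP F I.bx I.rg hj c
      rw [L j hj] at this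
      linarith [le_of_mul_le_mul_left (le_of_add_le_add_left this) F.t0]
    · exact old.2.trans (by exact_mod_cast c)
  have u2 : fl h 8 ≤ E.l j + 8388608 := by
    rcases brz_le e3 with ⟨-, c⟩ | ⟨c, -⟩
    · have := lo_sound hP F I.bx I.rg hj c
      rw [L j hj] at this
      linarith [le_of_mul_le_mul_left (le_of_add_le_add_left this) F.t0]
    · exact le_trans (by exact_mod_cast c) old.1
  refine jR3_sound hk { I with rg := InF.set I.rg u2 u1 } ?_ e4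
  rw [gR_eq]
  refine (((iqj_ok hP F I.bx hj).2.add (fq_ub hj).1).add (ub_VU8.mul _)).mono ?_
  have a := abs_wa (z := E.l j) (a := h >>> 8) (o := 0) (by rw [fl_shr, fl_shr, fl_shr]; exact ⟨u2, u1⟩)
  have c := mul_le_mul_of_nonneg_left (sq_le_sq' (abs_le.1 a).1 (abs_le.1 a).2) (sq_nonneg E.t)
  rw [L j hj]
  push_cast
  linarith

theorem jU_sound {h : ℕ} (e : jU k w b r fa g rt l5 l6 i5 i6 h = 0) : False := by
  rw [jU_eq] at e
  generalize (h >>> 4) &&& 15 = j at e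
  rcases j with _ | j
  · cases e
  replace e : j - 9 + jR3 k (w >>> 8) b r fa g rt l5 l6 i5 i6 (gU (iqj b j) j) = 0 := e
  rw [Nat.add_eq_zero_iff] at e
  have hj : j ≤ 9 := by omega
  refine jR3_sound hk I ?_ e.2
  rw [gU_eq]
  refine ((iqj_ok hP F I.bx hj).1.add (fq_ub hj).2).mono ?_
  rw [L j hj]
  push_cast
  linarith [sq_nonneg (E.t * E.l j)]

theorem jP2_sound {s n e f u v j : ℕ} (hu : UOK E u) (hv : UOK E v)
    (h : jP2 k w b r fa g rt l5 l6 i5 i6 s n e f u v j = 0) : False := by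
  rw [jP2_eq, jQ_eq, Nat.add_eq_zero_iff] at h
  have hj : j ≤ 9 := by omega
  obtain ⟨y1, -, a1, b1⟩ := hu.ub (P := P)
  obtain ⟨y2, -, a2, b2⟩ := hv.ub (P := P)
  have j1 := fun k hk c hc => (jv_z (k := k) (c := c) hj hk hc).2
  refine jQ2_sound hP hk I a1 a2 (dir_ok (j1 _ (by norm_num) _ (by norm_num)) (j1 _ (by norm_num) _ (by norm_num))
    (by norm_num) (j1 _ (by norm_num) _ (by norm_num)) (j1 _ (by norm_num) _ (by norm_num)) (by norm_num)
    (j1 _ (by norm_num) _ (by norm_num)) (j1 _ (by norm_num) _ (by norm_num))) (fun c => ?_) h.2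
  obtain ⟨e1, e2⟩ := cx_jv F hj (c := 16777212) (c1 := 281474842492944) (c2 := 16777212 * 8388606) (by norm_num)
    (by norm_num) rfl
  have e3 : Lf P.al P.be P.ga ((16777212 : ℕ) * Sr * (ej P j).1, (16777212 : ℕ) * Sr * (ej P j).2) =
      Sr * lenJ P j := by
    rw [len_ej hj, ← mul_assoc, Lf, Lf, ← Real.sqrt_sq (mul_pos Sr_pos Sr_pos).le, ← Real.sqrt_mul (sq_nonneg _)]
    congr 1
    simp only [Qf, Sr]
    push_cast
    ring
  rw [e1, e2, e3, L j hj] at c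
  have q := ((SP.one (m := mz E) (I := 2) 281474842492944 1 rfl).mulz ((ijt_sp hj).add (bj_sp' j)) (L := AL)
    (by decide +kernel)).neg.ub (P := FS) (Q := S2T * (ijt j + bj j)) (2 ^ 75) AL_lt (by norm_num) (by
      rw [FS_eq, Nat.cast_mul, show (S2T : ℤ) = 281474842492944 * (tt 160 : ℤ) ^ 1 by decide +kernel]
      push_cast
      ring)
  rw [gP_eq]
  refine ((b1.add b2).add q).mono ?_
  rw [mz1]
  rw [Sr] at c
  push_cast
  linarith

theorem jP_sound (e : jP k w b r fa g rt l5 l6 i5 i6 = 0) : False := by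
  unfold jP at e
  generalize Nat.land (Nat.shiftRight w (nat_lit 47)) (nat_lit 15) = j at e
  rcases j with _ | j
  · cases e
  exact jP2_sound hP F L hk I (iuc_ok _) (iuc_ok _) e

omit L in
theorem jG0_sound {s n e f u v xa xb xe ya yb ye c1 c4 c d : ℕ} (hu : UOK E u) (hv : UOK E v) (h1 : xa < 2 ^ 57)
    (h2 : xb < 2 ^ 57) (h3 : xe < 2 ^ 57) (h4 : ya < 2 ^ 57) (h5 : yb < 2 ^ 57) (h6 : ye < 2 ^ 57)
    (h7 : c1 < 2 ^ 57) (h8 : c4 < 2 ^ 57) (hc : c < 2 ^ 30) (hd : d < 2 ^ 30)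
    (h : jG0 k w b r fa g rt l5 l6 i5 i6 s n e f u v xa xb xe ya yb ye c1 c4 c d = 0) : False := by
  simp only [jG0_eq, jG1_eq, jG2_eq, jG3_eq, jQ_eq, Nat.add_eq_zero_iff] at h
  obtain ⟨⟨⟨g1, g2⟩, g3⟩, g4⟩ := h
  obtain ⟨y1, s1, a1, b1⟩ := hu.ub (P := P)
  obtain ⟨y2, s2, a2, b2⟩ := hv.ub (P := P)
  refine jQ2_sound hP hk I a1 a2 (dir_ok h1 h2 h3 h4 h5 h6 h7 h8) (fun hx => ?_) g4
  have hm := iqm_ok hP F I.bx xa xe ya ye c1 c4 (h2.le.trans (by norm_num)) (h5.le.trans (by norm_num))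
  have e := Qz_eq hP (cx5 E xa xb xe c1 c4 0 1, cx5 E ya yb ye c1 c4 2 3) 1
  have l0 := Lf_nonneg (al := P.al) (be := P.be) (ga := P.ga) (cx5 E xa xb xe c1 c4 0 1, cx5 E ya yb ye c1 c4 2 3)
  rw [one_mul, one_mul] at e
  rw [e] at hm
  obtain ⟨l, hl⟩ : ∃ l, Lf P.al P.be P.ga (cx5 E xa xb xe c1 c4 0 1, cx5 E ya yb ye c1 c4 2 3) = 16777212 * l :=
    ⟨_, (mul_div_cancel₀ _ (by norm_num)).symm⟩
  rw [hl, Sr] at hx hm
  rw [hl] at l0
  rw [show 16777212 * 1 ^ 2 * (16777212 * l) ^ 2 = (4722363105170729992128 : ℕ) * l ^ 2 by push_cast; ring] at hm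
  have t0 := F.t0
  have p0 := phi_lo.1
  have bd : |(c : ℤ)| + |(d : ℤ)| ≤ 2 ^ 31 := by rw [Nat.abs_cast, Nat.abs_cast]; omega
  have u1 := iL_sound F I.bx I.rg hm (((SP.one c 0 rfl).sub (SP.one d 4 rfl)).up bd)
    (by rw [adf_sq, shl_tt (K := 160) _ (k := 4) rfl]; push_cast; ring) (by linarith) g2
  rw [mz0, mz4] at u1
  have u2 : l ≤ c + d * E.t := by
    rcases jG4_sp g3 with t | t
    · have n1 : Ub (mz E) 124 NP1 (-gphi) := by
        rw [show NP1 = tt 160 ^ 124 - tt 160 ^ 1 by decide +kernel, ← mz1 (E := E)]; exact Ub.un (by norm_num)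
      have n5 : Ub (mz E) 124 NP5 (-(gphi * E.t)) := by
        rw [show NP5 = tt 160 ^ 124 - tt 160 ^ 5 by decide +kernel, ← mz5]; exact Ub.un (by norm_num)
      have := ifin_sound F.t0 F.t1 I.bx I.rg (((b1.add b2).add (n1.mul _)).add (n5.mul _)) t
      push_cast at this
      exact le_of_mul_le_mul_left (a := gphi) (by linarith) (by linarith)
    · have := iU_sound F I.bx I.rg hm (((SP.one c 0 rfl).add (SP.one d 4 rfl)).up bd)
        (by rw [shl_tt (K := 160) _ (k := 4) rfl]; push_cast; ring) (by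
          rw [mz0, mz4, mul_one]
          exact add_nonneg (Int.cast_nonneg (Int.natCast_nonneg _)) (mul_nonneg (Int.cast_nonneg (Int.natCast_nonneg _)) t0.le)) t
      rw [mz0, mz4, mul_one] at this
      exact_mod_cast this
  refine irn_ub F I.bx I.rg (ird_ub ?_) g1
  have q := ((s1.add s2).mulz (SP.list (I := 3) [(1, 0), (-1, 1)] (X := 1 - tt 160) (M := 2) (by decide +kernel))
    (L := AL) (by decide +kernel)).ub (P := u + v + UQ) (Q := (u + v) <<< 160) (2 ^ 85) AL_lt (by norm_num) (by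
      rw [shl_tt (K := 160) _ (k := 1) rfl]
      push_cast
      rw [show (UQ : ℤ) = 2 * UB * (tt 160 - 1) + 2 ^ 85 * (tt 160 : ℤ) ^ 124 by decide +kernel]
      ring)
  have n0 : Ub (mz E) 124 VN0I (-1) := by
    rw [show VN0I = tt 160 ^ 124 - tt 160 ^ 0 by decide +kernel, ← mz0 (E := E)]; exact Ub.un (by norm_num)
  rw [gG_eq]
  refine ((((q.mul _).add hm.2).add (ub_VU8.mul _)).add (n0.mul _)).mono ?_
  simp only [lr_cons, lr_nil, mz0, mz1]
  have z1 := mul_le_mul_of_nonneg_left hx (show 0 ≤ gphi - 1 by linarith)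
  have z2 : 281474842492944 * l ≤ (gphi - 1) * (-y1 + -y2) := by
    refine le_trans (le_of_eq ?_) z1
    linear_combination (-281474842492944 * l) * phi_sq
  push_cast at u1 ⊢
  linarith [mul_le_mul_of_nonneg_left z2 (Nat.cast_nonneg (α := ℝ) c),
    sq_le_sq' (a := l - c) (b := d * E.t) (by linarith) (by linarith)]

omit L in
theorem jG_sound {h : ℕ} (e : jG k w b r fa g rt l5 l6 i5 i6 h = 0) : False := by
  unfold jG at e
  have m : ∀ a : ℕ, Nat.land a (nat_lit 144115188075855871) < 2 ^ 57 := fun a => land_lt a 57 (by norm_num)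
  exact jG0_sound hP F hk I (iuc_ok _) (iuc_ok _) (m _) (m _) (m _) (m _) (m _) (m _) (m _) (m _) (fl_lt _ _)
    (fl_lt _ _) e

omit I in
theorem istep_sound {hs : ℕ → ℕ} (hh : ∀ i, IGood P (hs i)) : Sound P E (istep hs k) := by
  intro w b r fa g rt l5 l6 i5 i6 p q e I
  rw [istep_eq] at e
  rcases brz_eq e with ⟨-, e⟩ | ⟨-, e⟩
  swap
  · exact jf1_sound5 hP F L I e
  rw [js1_eq] at e
  rcases brz_le e with ⟨-, e⟩ | ⟨-, e⟩
  swap
  · rcases brz_le e with ⟨-, e⟩ | ⟨-, e⟩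
    exacts [jB_sound hP hk I e, jC5_sound hk I e]
  rw [js2_eq] at e
  rcases brz_le e with ⟨-, e⟩ | ⟨-, e⟩
  swap
  · rcases brz_le e with ⟨-, e⟩ | ⟨-, e⟩
    · exact jf0_sound hP F L I e
    rcases brz_le e with ⟨-, e⟩ | ⟨-, e⟩
    exacts [jU_sound hP F L hk I e, jR_sound hP F L hk I e]
  rcases brz_le e with ⟨-, e⟩ | ⟨-, e⟩
  swap
  · rcases brz_le e with ⟨-, e⟩ | ⟨-, e⟩
    exacts [jf2_sound hP F L I e, jf1_sound6 hP F L I e]
  rw [js3_eq] at e
  rcases brz_le e with ⟨-, e⟩ | ⟨-, e⟩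
  swap
  · rcases brz_le e with ⟨-, e⟩ | ⟨-, e⟩
    exacts [jP_sound hP F L hk I e, jC6_sound hk I e]
  rcases brz_le e with ⟨-, e⟩ | ⟨-, e⟩
  swap
  · exact jG_sound hP F hk I e
  rcases brz_le e with ⟨-, e⟩ | ⟨-, e⟩
  swap
  · exact jSb_sound hk I e
  rw [js4_eq] at e
  rcases brz_le e with ⟨-, e⟩ | ⟨-, e⟩ <;> rcases brz_le e with ⟨-, e⟩ | ⟨-, e⟩
  exacts [one_ne_zero e, jH_sound F L I hh e, jA_sound hk I e, jSl_sound hk I e]

end

end Pool.Agent.Lib.MP_9d820d_co.IFast
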