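import Pool.Agent.Lib.MP_9d820d_co.IQuad

set_option autoImplicit false
set_option exponentiation.threshold 30000

namespace Pool.Agent.Lib.MP_9d820d_co.IFast

open Finset
open Fast (shr_zero InF fl wd land_lt adf adf_eq adf_sq dl dl_cx dl_swap QM)

noncomputable section

attribute [local irreducible] fl wd wa mn mw iww

variable {P : Prm} {E : Env} {b r : ℕ}

def QMok (E : Env) (q : QM) (x : ℝ) : Prop := Ub (mz E) 124 q.1 x ∧ Ub (mz E) 124 q.2 (-x)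

theorem iq3_ok (hP : P.ok) (F : Fit P E) (hb : InB E b) {x y dx dy ax ay wx wy n I J : ℕ} {α β u v : ℝ}
    {M N M' N' : ℤ} (hx : SP (mz E) 3 ((x : ℤ) - O2) α M) (hy : SP (mz E) 3 ((y : ℤ) - O2) β N)
    (h1 : SP (mz E) I ((dx : ℤ) - ODX) (E.t * u) M') (h2 : SP (mz E) J ((dy : ℤ) - ODY) (E.t * v) N')
    (m1 : mulOK 7 I AL) (m2 : mulOK 7 J AL) (hn : M + N + M' + N' ≤ n)
    (ha : |α| ≤ ax) (hc : |β| ≤ ay) (hu : |u| ≤ wx) (hv : |v| ≤ wy) :
    QMok E (iq3 b x y dx dy ax ay wx wy n) (Qz P (α + E.t * u) (β + E.t * v)) := by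
  have s3 : ∀ e, (3 : ℕ).testBit e = true → (19 : ℕ).testBit e = true := fun e he => by
    have := lt_of_bit (n := 2) (by norm_num) he
    interval_cases e <;> rfl
  have m3 : mulOK 3 3 7 := by decide +kernel
  have c1 := SP.list (m := mz E) (I := 3) [(16777212, 0), (8388606, 1)] (X := CXI) (M := 2 ^ 25) (by decide +kernel)
  have c2 := SP.list (m := mz E) (I := 3) [(-67108848, 0), (33554424, 1)] (X := CYI) (M := 2 ^ 27)
    (by decide +kernel)
  have q := ((q0_sp F (a := x) (c := O2) (a' := y) (c' := O2) (s := x + y) (s' := O22) (hx.sub' s3) (hy.sub' s3)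
    rfl rfl (by rw [show (O22 : ℤ) = 2 * O2 by decide +kernel]; push_cast; ring)).add
      ((c1.mulz hx m3).mulz h1 m1)).sub ((c2.mulz hy m3).mulz h2 m2)
  have bd : (M + N) ^ 2 * 50331639 + 2 ^ 25 * M * M' + 2 ^ 27 * N * N' ≤ (n * n * 2 ^ 26 : ℕ) := by
    have := pow_le_pow_left₀ (by linarith [hx.nn, hy.nn, h1.nn, h2.nn]) hn 2
    push_cast
    linarith [sq_nonneg (M + N), sq_nonneg (M' + N'), mul_nonneg hx.nn h1.nn, mul_nonneg hx.nn h2.nn,
      mul_nonneg hy.nn h1.nn, mul_nonneg hy.nn h2.nn]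
  obtain ⟨r1, r2⟩ := quad_rem hP F hb ha hc hu hv
  have e1 : (O2X : ℤ) = O2 * ODX := by decide +kernel
  have e2 : (O2Y : ℤ) = O2 * ODY := by decide +kernel
  rw [iq3_eq, iq4_eq, Nat.shiftLeft_eq]
  simp only [lr_cons, lr_nil, mz0, mz1] at q
  refine ⟨((q.ub _ AL_lt bd ?_).add (ub_VU8.mul _)).mono ?_, ((q.neg.ub _ AL_lt bd ?_).add (ub_VU8.mul _)).mono ?_⟩
  · push_cast
    rw [e1, e2, TV_eq]
    ring
  · push_cast at r1 ⊢
    linarith
  · push_cast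
    rw [e1, e2, TV_eq]
    ring
  · push_cast at r2 ⊢
    linarith

/-- the first order part of a coordinate -/
def cu (E : Env) (e c1 c4 i j : ℕ) : ℝ := (e - 72057594037927936) + (c1 - 72057594037927936) * E.d i +
  (c4 - 72057594037927936) * E.d j
/-- a coordinate of a direction -/
def cx5 (E : Env) (a c e c1 c4 i j : ℕ) : ℝ :=
  (a - 72057594037927936) + (c - 72057594037927936) * gphi + E.t * cu E e c1 c4 i j

theorem o2_sp (a c : ℕ) : SP (mz E) 3 (((a + c <<< 160 : ℕ) : ℤ) - O2)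
    ((a - 72057594037927936) + (c - 72057594037927936) * gphi)
    (adf a 72057594037927936 + adf c 72057594037927936) := by
  refine ((SP.one (a - 72057594037927936) 0 rfl).add (SP.one (c - 72057594037927936) 1 rfl)).cg ?_ ?_ ?_
  · rw [shl_tt (K := 160) _ (k := 1) rfl, show (O2 : ℤ) = 72057594037927936 * (1 + tt 160) by decide +kernel]
    push_cast
    ring
  · rw [mz0, mz1]
    push_cast
    ring
  · rw [adf_z, adf_z]
    rfl

theorem od_sp (e c1 c4 : ℕ) {I p q i j o u v : ℕ} (ep : u = 160 * p) (eq : v = 160 * q)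
    (hI : I.testBit 4 = true ∧ I.testBit p = true ∧ I.testBit q = true)
    (ho : (o : ℤ) = 72057594037927936 * ((tt 160 : ℤ) ^ 4 + (tt 160 : ℤ) ^ p + (tt 160 : ℤ) ^ q))
    (hp : mz E p = E.t * E.d i) (hq : mz E q = E.t * E.d j) :
    SP (mz E) I (((e <<< 640 + c1 <<< u + c4 <<< v : ℕ) : ℤ) - o) (E.t * cu E e c1 c4 i j)
      (adf e 72057594037927936 + adf c1 72057594037927936 + adf c4 72057594037927936) := by
  refine (sp3 (mz E) (e - 72057594037927936) (c1 - 72057594037927936) (c4 - 72057594037927936) hI.1 hI.2.1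
    hI.2.2).cg ?_ ?_ ?_
  · rw [shl_tt (K := 160) _ (k := 4) rfl, shl_tt (K := 160) _ ep, shl_tt (K := 160) _ eq, ho]
    push_cast
    ring
  · rw [mz4, hp, hq, cu]
    push_cast
    ring
  · rw [adf_z, adf_z, adf_z]
    rfl

theorem odx_sp (e c1 c4 : ℕ) : SP (mz E) 1052688 (((e <<< 640 + c1 <<< 1920 + c4 <<< 3200 : ℕ) : ℤ) - ODX)
    (E.t * cu E e c1 c4 0 1)
    (adf e 72057594037927936 + adf c1 72057594037927936 + adf c4 72057594037927936) :=
  od_sp e c1 c4 (p := 12) (q := 20) rfl rfl (by decide) (by decide +kernel) mz12 mz20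

theorem ody_sp (e c1 c4 : ℕ) : SP (mz E) 68987912208 (((e <<< 640 + c1 <<< 4480 + c4 <<< 5760 : ℕ) : ℤ) - ODY)
    (E.t * cu E e c1 c4 2 3)
    (adf e 72057594037927936 + adf c1 72057594037927936 + adf c4 72057594037927936) :=
  od_sp e c1 c4 (p := 28) (q := 36) rfl rfl (by decide) (by decide +kernel) mz28 mz36

theorem aph_le (a : ℕ) {c : ℕ} (hc : c ≤ 2 ^ 60) :
    |(a - 72057594037927936) + (c - 72057594037927936) * gphi| ≤ aph a c := by
  obtain ⟨p1, p2⟩ := phi_6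
  have h1 := (shr_r (adf (a <<< 64 + c * PH6) OPH) 64).1
  rw [aph_eq]
  generalize adf (a <<< 64 + c * PH6) OPH >>> 64 = z at *
  rw [adf_r, show OPH = 72057594037927936 * (2 ^ 64 + PH6) by decide +kernel, Nat.shiftLeft_eq] at h1
  have c0 := Nat.cast_nonneg (α := ℝ) c
  have c1 : (c : ℝ) ≤ 2 ^ 60 := by exact_mod_cast hc
  have q := abs_le.1 (abs_mul_le (show |(c : ℝ) - 72057594037927936| ≤ 2 ^ 60 by rw [abs_le]; constructor <;> linarith)
    (show |2 ^ 64 * gphi - PH6| ≤ 1 by rw [abs_le]; constructor <;> linarith))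
  have h2 := abs_le.1 h1
  push_cast at h2 ⊢
  rw [abs_le]
  constructor <;> linarith [h2.1, h2.2, q.1, q.2]

theorem cu_le {e c1 c4 i j u v : ℕ} (hi : |E.d i| ≤ u) (hj : |E.d j| ≤ v) : |cu E e c1 c4 i j| ≤
    (adf e 72057594037927936 + adf c1 72057594037927936 * u + adf c4 72057594037927936 * v : ℕ) := by
  push_cast
  rw [adf_r, adf_r, adf_r]
  exact (abs_add_le _ _).trans (add_le_add ((abs_add_le _ _).trans (add_le_add le_rfl (abs_mul_le le_rfl hi)))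
    (abs_mul_le le_rfl hj))

theorem iqm_ok (hP : P.ok) (F : Fit P E) (hb : InB E b) (xa xe ya ye c1 c4 : ℕ) {xb yb : ℕ} (hx : xb ≤ 2 ^ 60)
    (hy : yb ≤ 2 ^ 60) : QMok E (iqm b xa xb xe ya yb ye c1 c4)
      (Qz P (cx5 E xa xb xe c1 c4 0 1) (cx5 E ya yb ye c1 c4 2 3)) := by
  rw [iqm_eq, iq2_eq]
  exact iq3_ok hP F hb (o2_sp xa xb) (o2_sp ya yb) (odx_sp xe c1 c4) (ody_sp ye c1 c4) (by decide +kernel)
    (by decide +kernel) (le_of_eq (by push_cast; ring)) (aph_le xa hx) (aph_le ya hy)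
    (cu_le (hb.abs (k := 0) (by norm_num)) (hb.abs (k := 1) (by norm_num)))
    (cu_le (hb.abs (k := 2) (by norm_num)) (hb.abs (k := 3) (by norm_num)))

def jT (j k : ℕ) : ℤ := ([[-2, 1, 0, 1, -1, 0], [-1, 0, 1, 0, 0, 0], [-1, 0, -1, 0, 0, 0], [-2, 1, 0, -1, 0, -1],
  [1, -1, 1, -1, 1, 0], [1, -1, -1, -1, 1, 0], [0, 0, 0, -2, 1, -1], [0, 0, -2, 0, 0, 0], [-1, 1, -1, -1, 0, -1],
  [-1, 1, 1, -1, 0, -1]].getD j []).getD k 0

theorem jv_z {j k c : ℕ} (hj : j ≤ 9) (hk : k < 6) (hc : c ≤ 2 ^ 50) :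
    (jv j k c : ℤ) = 72057594037927936 + c * jT j k ∧ jv j k c < 2 ^ 57 := by
  obtain ⟨e1, e2⟩ := (by decide +kernel : ∀ j ≤ 9, ∀ k < 6,
    (((IJT >>> (((j <<< 3) + k) <<< 2)) &&& 15 : ℕ) : ℤ) = jT j k + 4 ∧ jT j k ≤ 2) j hj k hk
  rw [jv_eq]
  generalize (IJT >>> (((j <<< 3) + k) <<< 2)) &&& 15 = u at *
  have : c * u ≤ 2 ^ 50 * 6 := Nat.mul_le_mul hc (by omega)
  refine ⟨?_, by omega⟩
  rw [Nat.cast_sub (by omega)]
  push_cast
  rw [e1]
  ring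

theorem jv_r {j k c : ℕ} (hj : j ≤ 9) (hk : k < 6) (hc : c ≤ 2 ^ 50) :
    (jv j k c : ℝ) = 72057594037927936 + c * jT j k := by exact_mod_cast (jv_z hj hk hc).1

/-- the difference of the points of the pair j -/
def ej (P : Prm) (j : ℕ) : ℝ × ℝ :=
  P.V ([0, 0, 0, 0, 1, 1, 1, 2, 2, 3].getD j 0) - P.V ([1, 2, 3, 4, 2, 3, 4, 3, 4, 4].getD j 0)

theorem len_ej {j : ℕ} (hj : j ≤ 9) : lenJ P j = Sr * Lf P.al P.be P.ga (ej P j) := by
  interval_cases j <;> rfl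

theorem ej_xy (F : Fit P E) {j : ℕ} (hj : j ≤ 9) :
    Sr * (ej P j).1 = 16777212 * jT j 0 + 16777212 * jT j 1 * gphi + E.t * (jT j 4 * E.d 0 + jT j 5 * E.d 1) ∧
    Sr * (ej P j).2 = 8388606 * jT j 2 + 8388606 * jT j 3 * gphi + E.t * (jT j 4 * E.d 2 + jT j 5 * E.d 3) := by
  have x1 := F.x1
  have x4 := F.x4
  have y1 := F.y1
  have y4 := F.y4
  rw [Sr] at *
  interval_cases j <;> simp only [ej, jT, List.getD_cons_succ, List.getD_cons_zero, Prm.V, Prm.pt, Prod.fst_sub,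
    Prod.snd_sub] <;> push_cast <;> constructor <;> linarith

theorem cx_jv (F : Fit P E) {j c c1 c2 : ℕ} (hj : j ≤ 9) (hc : c ≤ 2 ^ 25) (e1 : c1 = c * 16777212)
    (e2 : c2 = c * 8388606) :
    cx5 E (jv j 0 c1) (jv j 1 c1) 72057594037927936 (jv j 4 c) (jv j 5 c) 0 1 = c * Sr * (ej P j).1 ∧
    cx5 E (jv j 2 c2) (jv j 3 c2) 72057594037927936 (jv j 4 c) (jv j 5 c) 2 3 = c * Sr * (ej P j).2 := by
  have a : c ≤ 2 ^ 50 := by omega
  have a1 : c1 ≤ 2 ^ 50 := by omega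
  have a2 : c2 ≤ 2 ^ 50 := by omega
  rw [mul_assoc, mul_assoc, (ej_xy F hj).1, (ej_xy F hj).2, cx5, cx5, cu, cu, jv_r hj (by norm_num) a1,
    jv_r hj (by norm_num) a1, jv_r hj (by norm_num) a2, jv_r hj (by norm_num) a2, jv_r hj (by norm_num) a,
    jv_r hj (by norm_num) a, e1, e2]
  push_cast
  constructor <;> ring

theorem iqj_ok (hP : P.ok) (F : Fit P E) (hb : InB E b) {j : ℕ} (hj : j ≤ 9) :
    QMok E (iqj b j) ((16777212 : ℕ) * lenJ P j ^ 2) := by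
  obtain ⟨e1, e2⟩ := cx_jv F hj (c := 1) (c1 := 16777212) (c2 := 8388606) (by norm_num) rfl rfl
  have := iqm_ok hP F hb (jv j 0 16777212) 72057594037927936 (jv j 2 8388606) 72057594037927936 (jv j 4 1) (jv j 5 1)
    ((jv_z (k := 1) (c := 16777212) hj (by norm_num) (by norm_num)).2.le.trans (by norm_num))
    ((jv_z (k := 3) (c := 8388606) hj (by norm_num) (by norm_num)).2.le.trans (by norm_num))
  rw [e1, e2, Qz_eq hP, ← iqj_eq] at this
  rw [len_ej hj]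
  convert this using 1
  rw [Sr]
  push_cast
  ring

theorem sq_ub {y : ℕ} {Y : ℤ} {a : ℝ} (hy : SP (mz E) 19 Y a (2 ^ 31)) (e : ((y * y : ℕ) : ℤ) = Y ^ 2) :
    Ub (mz E) 124 (SQ - y * y) (-a ^ 2) ∧ Ub (mz E) 124 (SQ + y * y) (a ^ 2) := by
  have h := hy.mulz hy (L := AL) (by decide +kernel)
  have s : (SQ : ℤ) = (2 ^ 62 : ℕ) * (tt 160 : ℤ) ^ 124 := by decide +kernel
  rw [pow_two]
  exact ⟨h.neg.ub (2 ^ 62) AL_lt (by norm_num) (by rw [e, s]; ring),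
    h.ub0 (2 ^ 62) AL_lt (by norm_num) (by rw [Nat.cast_add, e, s]; ring)⟩

section
variable (F : Fit P E) (hb : InB E b) (hr : InR E r) {q : QM} {c y : ℕ} {l a : ℝ} {Y : ℤ}
  (hm : QMok E q (c * l ^ 2)) (hy : SP (mz E) 19 Y a (2 ^ 31)) (e : ((y * y : ℕ) : ℤ) = Y ^ 2)
include F hb hr hm hy e

theorem iU_sound (a0 : 0 ≤ a) (h : iU b r q c y = 0) : l ≤ a := by
  rw [iU_eq] at h
  have := ifin_sound F.t0 F.t1 hb hr (hm.1.add ((sq_ub hy e).1.mul c)) h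
  by_contra hn
  linarith [mul_le_mul_of_nonneg_left (pow_le_pow_left₀ a0 (not_le.1 hn).le 2) (Nat.cast_nonneg (α := ℝ) c)]

theorem iL_sound (l0 : 0 ≤ l) (h : iL b r q c y = 0) : a ≤ l := by
  rw [iL_eq] at h
  have := ifin_sound F.t0 F.t1 hb hr (hm.2.add ((sq_ub hy e).2.mul c)) h
  by_contra hn
  linarith [mul_le_mul_of_nonneg_left (pow_le_pow_left₀ l0 (not_le.1 hn).le 2) (Nat.cast_nonneg (α := ℝ) c)]

end

/-- the scaled lengths of the extremal configuration -/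
def bR (j : ℕ) : ℝ := if (665 >>> j) &&& 1 = 0 then 16777212 else 16777212 * gphi - 16777212

theorem bj_sp (j : ℕ) : SP (mz E) 3 (bj j) (bR j) 33554424 := by
  rw [bj_eq, bR]
  cases h : Nat.beq ((665 >>> j) &&& 1) 0
  · rw [if_neg (Nat.ne_of_beq_eq_false h)]
    exact (SP.list [(16777212, 1), (-16777212, 0)] (by decide +kernel)).cg rfl
      (by simp [lr_cons, lr_nil, mz0, mz1]; ring) le_rfl
  · rw [if_pos (Nat.eq_of_beq_eq_true h)]
    exact (SP.list [(16777212, 0)] (by decide +kernel)).cg rfl (by simp [lr_cons, lr_nil, mz0]) le_rfl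

theorem bR_ge (j : ℕ) : 8388608 ≤ bR j := by
  have := phi_lo.1
  rw [bR]
  split_ifs <;> linarith

theorem yb_sp (j : ℕ) {x : ℕ} (hx : x < 2 ^ 30) : ∃ Y, SP (mz E) 19 Y (bR j + E.t * (x - 8388608)) (2 ^ 31) ∧
    ((yb j x * yb j x : ℕ) : ℤ) = Y ^ 2 := by
  refine ⟨_, (((bj_sp j).sub' fun e he => ?_).add (SP.one ((x : ℤ) - 8388608) 4 rfl)).cg rfl ?_ ?_, ?_⟩
  · have := lt_of_bit (n := 2) (by norm_num) he
    interval_cases e <;> rfl
  · rw [mz4]
    push_cast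
    ring
  · have : |(x : ℤ) - 8388608| ≤ 2 ^ 30 := by rw [abs_le]; omega
    omega
  · rw [yb_eq, adf_sq, shl_tt (K := 160) _ (k := 4) rfl,
      show (DT4 : ℤ) = 8388608 * (tt 160 : ℤ) ^ 4 by decide +kernel]
    push_cast
    ring

theorem up_sound (hP : P.ok) (F : Fit P E) (hb : InB E b) (hr : InR E r) {j a o : ℕ} (hj : j ≤ 9)
    (h : iU b r (iqj b j) 16777212 (yb j (fl a o)) = 0) : lenJ P j ≤ bR j + E.t * (fl a o - 8388608) := by
  obtain ⟨Y, h1, h2⟩ := yb_sp (E := E) j (Fast.fl_lt a o)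
  refine iU_sound F hb hr (iqj_ok hP F hb hj) h1 h2 ?_ h
  linarith [bR_ge j, F.t1, mul_nonneg F.t0.le (Nat.cast_nonneg (α := ℝ) (fl a o))]

theorem lo_sound (hP : P.ok) (F : Fit P E) (hb : InB E b) (hr : InR E r) {j a o : ℕ} (hj : j ≤ 9)
    (h : iL b r (iqj b j) 16777212 (yb j (fl a o)) = 0) : bR j + E.t * (fl a o - 8388608) ≤ lenJ P j := by
  obtain ⟨Y, h1, h2⟩ := yb_sp (E := E) j (Fast.fl_lt a o)
  exact iL_sound F hb hr (iqj_ok hP F hb hj) h1 h2 (Fast.lenJ_nn P j) h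

end

end Pool.Agent.Lib.MP_9d820d_co.IFast
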