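import Pool.Agent.Lib.MP_9d820d_co.ISem

set_option autoImplicit false
set_option exponentiation.threshold 30000

namespace Pool.Agent.Lib.MP_9d820d_co.IFast

open Finset
open Fast (shr_zero InF fl wd land_lt adf adf_eq adf_sq dl dl_cx dl_swap QM)

noncomputable section

attribute [local irreducible] fl wd wa mn mw iww

/-- the configuration is the displacement by t d of the extremal one -/
structure Fit (P : Prm) (E : Env) : Prop where
  t0 : 0 < E.t
  t1 : E.t ≤ 1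
  x1 : Sr * P.x1 = 33554424 - 16777212 * gphi + E.t * E.d 0
  x4 : Sr * P.x4 = 33554424 - 16777212 * gphi + E.t * E.d 1
  y1 : Sr * P.y1 = -(8388606 * gphi) + E.t * E.d 2
  y4 : Sr * P.y4 = 8388606 * gphi + E.t * E.d 3
  be : Sr * P.be = E.t * E.d 4
  al : Sr * P.al = 8388606 + 4194303 * gphi + E.t * E.d 5
  ga : Sr * P.ga = 33554424 - 16777212 * gphi + E.t * E.d 6

def lz (l : List (ℤ × ℕ)) : ℤ := (l.map fun x => x.1 * (tt 160 : ℤ) ^ x.2).sum
def lr (m : ℕ → ℝ) (l : List (ℤ × ℕ)) : ℝ := (l.map fun x => (x.1 : ℝ) * m x.2).sum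
def ln (l : List (ℤ × ℕ)) : ℤ := (l.map fun x => |x.1|).sum
def lOK (I : ℕ) (l : List (ℤ × ℕ)) (X M : ℤ) : Prop := (∀ x ∈ l, I.testBit x.2 = true) ∧ X = lz l ∧ ln l ≤ M
instance (I : ℕ) (l : List (ℤ × ℕ)) (X M : ℤ) : Decidable (lOK I l X M) := by unfold lOK; infer_instance

theorem SP.list {m : ℕ → ℝ} {I : ℕ} (l : List (ℤ × ℕ)) {X M : ℤ} (h : lOK I l X M) : SP m I X (lr m l) M := by
  obtain ⟨h, rfl, h2⟩ := h
  refine SP.up ?_ h2
  clear h2
  induction l with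
  | nil => exact SP.zero
  | cons a l ih => exact (SP.one _ _ (h a List.mem_cons_self)).add (ih fun x hx => h x (List.mem_cons_of_mem _ hx))

theorem lr_nil (m : ℕ → ℝ) : lr m [] = 0 := rfl
theorem lr_cons (m : ℕ → ℝ) (c : ℤ) (e : ℕ) (l : List (ℤ × ℕ)) : lr m ((c, e) :: l) = c * m e + lr m l := rfl

variable {P : Prm} {E : Env} {b : ℕ}

theorem mz0 : mz E 0 = 1 := by simp [mz, ti, gi, gv]
theorem mz1 : mz E 1 = gphi := by simp [mz, ti, gi, gv]
theorem mz2 : mz E 2 = gphi ^ 2 := by simp [mz, ti, gi, gv]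
theorem mz3 : mz E 3 = gphi ^ 3 := by simp [mz, ti, gi, gv]
theorem mz4 : mz E 4 = E.t := by simp [mz, ti, gi, gv]
theorem mz5 : mz E 5 = gphi * E.t := by simp [mz, ti, gi, gv]
theorem mz8 : mz E 8 = E.t ^ 2 := by simp [mz, ti, gi, gv]
theorem mz12 : mz E 12 = E.t * E.d 0 := by simp [mz, ti, gi, gv]
theorem mz13 : mz E 13 = gphi * (E.t * E.d 0) := by simp [mz, ti, gi, gv]
theorem mz20 : mz E 20 = E.t * E.d 1 := by simp [mz, ti, gi, gv]
theorem mz21 : mz E 21 = gphi * (E.t * E.d 1) := by simp [mz, ti, gi, gv]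
theorem mz28 : mz E 28 = E.t * E.d 2 := by simp [mz, ti, gi, gv]
theorem mz29 : mz E 29 = gphi * (E.t * E.d 2) := by simp [mz, ti, gi, gv]
theorem mz36 : mz E 36 = E.t * E.d 3 := by simp [mz, ti, gi, gv]
theorem mz37 : mz E 37 = gphi * (E.t * E.d 3) := by simp [mz, ti, gi, gv]
theorem mz44 : mz E 44 = E.t * E.d 4 := by simp [mz, ti, gi, gv]
theorem mz56 : mz E 56 = E.t * E.d 5 := by simp [mz, ti, gi, gv]
theorem mz68 : mz E 68 = E.t * E.d 6 := by simp [mz, ti, gi, gv]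
theorem mz120 : mz E 120 = E.t * (E.t * (E.d 0 * E.d 3 - E.d 2 * E.d 1)) := by simp [mz, ti, gi, gv]

def AL : ℕ := 2 ^ 124 - 1
theorem AL_lt : AL < 2 ^ 124 := by decide +kernel

theorem SP.all {I : ℕ} {X M : ℤ} {x : ℝ} (h : SP (mz E) I X x M) (hI : I < 2 ^ 124) : SP (mz E) AL X x M :=
  h.sub' fun e he => by rw [AL, Nat.testBit_two_pow_sub_one]; exact decide_eq_true (lt_of_bit hI he)

theorem sp3 {I : ℕ} (m : ℕ → ℝ) (a c d : ℤ) {i j k : ℕ} (hi : I.testBit i = true) (hj : I.testBit j = true)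
    (hk : I.testBit k = true) : SP m I (a * (tt 160 : ℤ) ^ i + c * (tt 160 : ℤ) ^ j + d * (tt 160 : ℤ) ^ k)
      (a * m i + c * m j + d * m k) (|a| + |c| + |d|) :=
  ((SP.one a i hi).add (SP.one c j hj)).add (SP.one d k hk)

theorem ub_VU0 : Ub (mz E) 124 VU0 1 := by
  rw [show VU0 = tt 160 ^ 124 + tt 160 ^ 0 by decide +kernel, ← mz0 (E := E)]; exact Ub.up (by norm_num)
theorem ub_VU8 : Ub (mz E) 124 VU8 (E.t ^ 2) := by
  rw [show VU8 = tt 160 ^ 124 + tt 160 ^ 8 by decide +kernel, ← mz8]; exact Ub.up (by norm_num)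
theorem TV_eq : (TV : ℤ) = (tt 160 : ℤ) ^ 124 := by decide +kernel

theorem q0_sp (F : Fit P E) {a c a' c' s s' : ℕ} {X Y M N : ℤ} {x y : ℝ} (hx : SP (mz E) 19 X x M)
    (hy : SP (mz E) 19 Y y N) (e1 : (a : ℤ) - c = X) (e2 : (a' : ℤ) - c' = Y) (e3 : (s : ℤ) - s' = X + Y) :
    SP (mz E) AL (q0 (adf a c) (adf a' c') (adf s s')) (Qz P x y) ((M + N) ^ 2 * 50331639) := by
  have c1 := SP.list (m := mz E) (I := 2 ^ 56 + 2 ^ 44 + 3) [(1, 56), (-1, 44), (8388606, 0), (4194303, 1)]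
    (X := QC1) (M := 50331638) (by decide +kernel)
  have c2 := SP.list (m := mz E) (I := 2 ^ 68 + 2 ^ 44 + 3) [(1, 68), (-1, 44), (33554424, 0), (-16777212, 1)]
    (X := QC2) (M := 50331638) (by decide +kernel)
  have c3 := SP.one (m := mz E) (I := 2 ^ 44) 1 44 (by decide +kernel)
  have m1 : mulOK 19 19 311 := by decide +kernel
  have hz := hx.add hy
  have := (((hx.mulz hx m1).mulz c1 (L := AL) (by decide +kernel)).add
    ((hy.mulz hy m1).mulz c2 (L := AL) (by decide +kernel))).add ((hz.mulz hz m1).mulz c3 (by decide +kernel))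
  refine this.cg ?_ ?_ ?_
  · rw [q0_eq, shl_tt (K := 160) _ (k := 44) rfl, Nat.cast_add, Nat.cast_add, Nat.cast_mul, Nat.cast_mul (adf a' c' * _),
      Nat.cast_mul (adf s s' * _), adf_sq, adf_sq, adf_sq, e1, e2, e3]
    push_cast
    ring
  · simp only [lr_cons, lr_nil, mz0, mz1, mz44, mz56, mz68, Qz, F.al, F.be, F.ga]
    push_cast
    ring
  · have := mul_nonneg hx.nn hy.nn
    rw [abs_one]
    nlinarith

/-- a shifted coordinate -/
def VX (E : Env) (x : ℕ) (a : ℝ) : Prop := SP (mz E) 19 ((x : ℤ) - X0) a (2 ^ 28 + 2 ^ 22)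
def v3 (E : Env) (a c d : ℕ) : ℝ := (a - 134217728) + (c - 134217728) * gphi + (d - 4194304) * E.t
def vx (E : Env) (w : ℕ) : ℝ := v3 E (w &&& 268435455) ((w >>> 28) &&& 268435455) ((w >>> 112) &&& 8388607)
def vy (E : Env) (w : ℕ) : ℝ :=
  v3 E ((w >>> 56) &&& 268435455) ((w >>> 84) &&& 268435455) ((w >>> 135) &&& 8388607)
/-- the vertex coded by w -/
def vp (E : Env) (w : ℕ) : ℝ × ℝ := (vx E w / Sr, vy E w / Sr)

theorem vp1 (w : ℕ) : Sr * (vp E w).1 = vx E w := mul_div_cancel₀ _ Sr_pos.ne'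
theorem vp2 (w : ℕ) : Sr * (vp E w).2 = vy E w := mul_div_cancel₀ _ Sr_pos.ne'

theorem v3_ok (a c d : ℕ) : VX E ((a &&& 268435455) + (c &&& 268435455) <<< 160 + (d &&& 8388607) <<< 640)
    (v3 E (a &&& 268435455) (c &&& 268435455) (d &&& 8388607)) := by
  have h1 := land_lt a 28 (m := 268435455) (by norm_num)
  have h2 := land_lt c 28 (m := 268435455) (by norm_num)
  have h3 := land_lt d 23 (m := 8388607) (by norm_num)
  generalize a &&& 268435455 = a at *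
  generalize c &&& 268435455 = c at *
  generalize d &&& 8388607 = d at *
  refine (sp3 (I := 19) (mz E) (a - 134217728) (c - 134217728) (d - 4194304) (i := 0) (j := 1) (k := 4)
    rfl rfl rfl).cg ?_ ?_ ?_
  · rw [shl_tt (K := 160) _ (k := 1) rfl, shl_tt (K := 160) _ (k := 4) rfl,
      show (X0 : ℤ) = 134217728 * (1 + tt 160) + 4194304 * (tt 160 : ℤ) ^ 4 by decide +kernel]
    push_cast
    ring
  · rw [mz0, mz1, mz4, v3]
    push_cast
    ring
  · have : |(a : ℤ) - 134217728| ≤ 134217728 := by rw [abs_le]; omega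
    have : |(c : ℤ) - 134217728| ≤ 134217728 := by rw [abs_le]; omega
    have : |(d : ℤ) - 4194304| ≤ 4194304 := by rw [abs_le]; omega
    omega

theorem vX_ok (w : ℕ) : VX E (vX w) (vx E w) := by rw [vX_eq]; exact v3_ok _ _ _
theorem vY_ok (w : ℕ) : VX E (vY w) (vy E w) := by rw [vY_eq]; exact v3_ok _ _ _

theorem VX.c {x : ℕ} (a c : ℤ) (h : lOK 19 [(a, 0), (c, 1)] ((x : ℤ) - X0) (2 ^ 28 + 2 ^ 22)) :
    VX E x (a + c * gphi) := (SP.list _ h).cg rfl (by simp [lr_cons, lr_nil, mz0, mz1]) le_rfl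

theorem qc_sp (F : Fit P E) {x y : ℕ} {a c : ℝ} (hx : VX E x a) (hy : VX E y c) (w : ℕ) :
    SP (mz E) AL (qc x y (x + y) w) (Qz P (a - vx E w) (c - vy E w)) (2 ^ 87) := by
  rw [qc_eq]
  exact (q0_sp F (SP.sub hx (vX_ok w)) (SP.sub hy (vY_ok w)) (by ring) (by ring)
    (by rw [vS_eq]; push_cast; ring)).up (by norm_num)

theorem IQS_eq : (IQS : ℤ) = (2 ^ 88 : ℕ) * (tt 160 : ℤ) ^ 124 := by decide +kernel

theorem qc_ub (F : Fit P E) {x y : ℕ} {a c : ℝ} (hx : VX E x a) (hy : VX E y c) (w : ℕ) :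
    Ub (mz E) 124 (qc x y (x + y) w + IQS) (Qz P (a - vx E w) (c - vy E w)) :=
  (qc_sp F hx hy w).ub0 (2 ^ 88) AL_lt (by norm_num) (by rw [Nat.cast_add, IQS_eq])

theorem quad_rem (hP : P.ok) (F : Fit P E) (hb : InB E b) {a c u v : ℝ} {ax ay wx wy : ℕ} (ha : |a| ≤ ax)
    (hc : |c| ≤ ay) (hu : |u| ≤ wx) (hv : |v| ≤ wy) :
    Qz P (a + E.t * u) (c + E.t * v) ≤ Qz P a c + (16777212 + 8388606 * gphi) * (a * (E.t * u)) -
      (33554424 * gphi - 67108848) * (c * (E.t * v)) +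
        ((ax * g1 b wx wy + ay * g2 b wx wy + g3 b wx wy : ℕ) : ℝ) * E.t ^ 2 ∧
    Qz P a c + (16777212 + 8388606 * gphi) * (a * (E.t * u)) - (33554424 * gphi - 67108848) * (c * (E.t * v)) -
      ((ax * g1 b wx wy + ay * g2 b wx wy : ℕ) : ℝ) * E.t ^ 2 ≤ Qz P (a + E.t * u) (c + E.t * v) := by
  have d4 : |E.d 4| ≤ wa b 256 := hb.abs (k := 4) (by norm_num)
  have d5 : |E.d 5| ≤ wa b 320 := hb.abs (k := 5) (by norm_num)
  have d6 : |E.d 6| ≤ wa b 384 := hb.abs (k := 6) (by norm_num)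
  have ht : |E.t| ≤ 1 := by rw [abs_of_pos F.t0]; exact F.t1
  obtain ⟨p1, p2⟩ := phi_6
  rw [show PH6 = 29847458893032750101 by decide +kernel] at p1 p2
  push_cast at p1 p2
  have t4 := abs_le.1 (abs_mul_le ht d4)
  have t5 := abs_le.1 (abs_mul_le ht d5)
  have t6 := abs_le.1 (abs_mul_le ht d6)
  have s4 : |Sr * P.be| ≤ wa b 256 := by rw [F.be, abs_le]; constructor <;> linarith [t4.1, t4.2]
  have s5 : |Sr * P.al| ≤ 15175131 + wa b 320 := by rw [F.al, abs_le]; constructor <;> linarith [t5.1, t5.2]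
  have s6 : |Sr * P.ga| ≤ 6408325 + wa b 384 := by rw [F.ga, abs_le]; constructor <;> linarith [t6.1, t6.2]
  have r1 := abs_le.1 (abs_mul_le ha (abs_mul_le d5 hu))
  have r2 := abs_le.1 (abs_mul_le ha (abs_mul_le d4 hv))
  have r3 := abs_le.1 (abs_mul_le hc (abs_mul_le d4 hu))
  have r4 := abs_le.1 (abs_mul_le hc (abs_mul_le d6 hv))
  have r5 := abs_le.1 (abs_mul_le (abs_mul_le s5 hu) hu)
  have r6 := abs_le.1 (abs_mul_le (abs_mul_le s4 hu) hv)
  have r7 := abs_le.1 (abs_mul_le (abs_mul_le s6 hv) hv)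
  have n0 : 0 ≤ Qz P u v := by
    have := mul_nonneg Sr_pos.le (hP.psd (u, v))
    simp only [Qf, Qz] at this ⊢
    linarith
  have e : Qz P (a + E.t * u) (c + E.t * v) = Qz P a c + (16777212 + 8388606 * gphi) * (a * (E.t * u)) -
      (33554424 * gphi - 67108848) * (c * (E.t * v)) + (2 * (a * (E.d 5 * u) + a * (E.d 4 * v) + c * (E.d 4 * u) +
        c * (E.d 6 * v)) + Qz P u v) * E.t ^ 2 := by
    simp only [Qz, F.al, F.be, F.ga]
    ring
  have n1 : Qz P u v ≤ g3 b wx wy := by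
    rw [g3_eq, Qz]
    push_cast
    linarith [r5.2, r6.2, r7.2]
  rw [e, sub_eq_add_neg _ (_ * E.t ^ 2), ← neg_mul]
  constructor <;> refine add_le_add le_rfl (mul_le_mul_of_nonneg_right ?_ (sq_nonneg _)) <;> rw [g1_eq, g2_eq] <;>
    push_cast <;> linarith [r1.1, r1.2, r2.1, r2.2, r3.1, r3.2, r4.1, r4.2]

theorem adf_z (a c : ℕ) : (adf a c : ℤ) = |(a : ℤ) - c| := by
  rw [adf_eq]
  rcases le_total a c with h | h
  · rw [abs_of_nonpos (by omega)]; omega
  · rw [abs_of_nonneg (by omega)]; omega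

theorem adf_r (a c : ℕ) : (adf a c : ℝ) = |(a : ℝ) - c| := by exact_mod_cast adf_z a c

theorem shr_r (x k : ℕ) : (x : ℝ) ≤ 2 ^ k * ((x >>> k : ℕ) + 1) ∧ 2 ^ k * ((x >>> k : ℕ) : ℝ) ≤ x := by
  rw [Nat.shiftRight_eq_div_pow]
  exact ⟨by exact_mod_cast (Nat.lt_mul_div_succ x (Nat.two_pow_pos k)).le, by exact_mod_cast Nat.mul_div_le x _⟩

theorem v3_le (F : Fit P E) {a c d p : ℕ} {z : ℝ} (hc : c < 2 ^ 28) (hp : |p - (134217728 + 134217728 * gphi + z)| ≤ 1) :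
    |z - v3 E a c d| ≤ (adf (apx a c) p + adf d 4194304 + 3 : ℕ) := by
  obtain ⟨p1, p2⟩ := phi_6
  obtain ⟨h1, h2⟩ := shr_r (a <<< 64 + c * PH6) 64
  rw [← apx_eq, Nat.shiftLeft_eq] at h1 h2
  have c0 := Nat.cast_nonneg (α := ℝ) c
  have c1 : (c : ℝ) ≤ 2 ^ 28 := by exact_mod_cast hc.le
  have q1 := mul_le_mul_of_nonneg_left p1 c0
  have q2 := mul_le_mul_of_nonneg_left p2 c0
  have ht : |E.t| ≤ 1 := by rw [abs_of_pos F.t0]; exact F.t1
  have q3 := abs_le.1 (abs_mul_le (le_refl |(d : ℝ) - 4194304|) ht)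
  have q4 := le_abs_self ((apx a c : ℝ) - p)
  have q5 := neg_abs_le ((apx a c : ℝ) - p)
  rw [abs_le] at hp
  push_cast at h1 h2 ⊢
  rw [adf_r, adf_r, v3, abs_le]
  push_cast
  constructor <;> linarith [hp.1, hp.2, q3.1, q3.2]

theorem ipq_ub (μ h : ℕ) {q : ℕ} {l : ℝ} (hq : Ub (mz E) 124 q (Sr * l ^ 2)) :
    Ub (mz E) 124 (ipq (ipm μ) (μ * 16777212) h q) (μ * l) := by
  rw [ipq_eq]
  refine ((hq.mul _).add (ub_VU0.mul _)).mono ?_
  have a1 : μ * 32768 ≤ (ipm μ + h) / (h + 1) * (h + 1) * 281474842492944 := by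
    have := Nat.lt_div_mul_add (a := ipm μ + h) (b := h + 1) (by omega)
    have e : μ * 32768 ≤ ipm μ * 281474842492944 := by rw [ipm_eq, Nat.shiftLeft_eq]; omega
    generalize (ipm μ + h) / (h + 1) * (h + 1) = A at *
    exact e.trans (Nat.mul_le_mul_right _ (by omega))
  have a2 := (fun x => by rw [Nat.shiftRight_eq_div_pow]; omega :
    ∀ x : ℕ, x ≤ (x + 131071) >>> 17 * 131072) (μ * 16777212 * (h + 1))
  generalize (ipm μ + h) / (h + 1) = A at *
  generalize (μ * 16777212 * (h + 1) + 131071) >>> 17 = B at *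
  have b1 : (μ : ℝ) * 32768 ≤ A * (h + 1) * 281474842492944 := by exact_mod_cast a1
  have b2 : (μ : ℝ) * 16777212 * (h + 1) ≤ B * 131072 := by exact_mod_cast a2
  have hp : (0 : ℝ) < h + 1 := by positivity
  generalize (h : ℝ) + 1 = k at *
  refine le_of_mul_le_mul_right ?_ hp
  have c1 := mul_le_mul_of_nonneg_right b1 (sq_nonneg l)
  have c2 := mul_le_mul_of_nonneg_right b2 hp.le
  have c3 := mul_nonneg (Nat.cast_nonneg (α := ℝ) μ) (sq_nonneg (65536 * l - 16777212 * k))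
  unfold Sr
  linarith

theorem dl_q (hP : P.ok) (a z : ℝ × ℝ) :
    Sr * dl P a z ^ 2 = Qz P (Sr * a.1 - Sr * z.1) (Sr * a.2 - Sr * z.2) := by
  rw [← Fast.dl_sq hP]
  simp only [Fast.sx, Fast.sy, add_sub_add_right_eq_sub]

def ILok (E : Env) (m : ℕ → ℝ) (z : ℝ × ℝ) (el : IL) : Prop :=
  ∃ φ : ℝ × ℝ → ℝ, ConvexOn ℝ Set.univ φ ∧ Ub m 163 el.2 (-φ z) ∧
    ∀ w h, Ub (mz E) 124 (el.1 w h) (φ (vp E w))

variable {m : ℕ → ℝ} {z : ℝ × ℝ}

theorem iun_ub (μ : ℕ) {o k : ℕ} (ho : o = 160 * k) (hk : k < 163) : Ub m 163 (μ * iun o) (μ * -m k) := by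
  rw [iun_eq, show TL = tt 160 ^ 163 by decide +kernel, shl_tt (K := 160) _ ho, one_mul]
  exact (Ub.un hk).mul μ

theorem ic_ok (hP : P.ok) (F : Fit P E) (μ : ℕ) {o k x y : ℕ} {a : ℝ × ℝ} {r : IL} (ho : o = 160 * k) (hk : k < 163)
    (hm : m k = dl P a z) (hx : VX E x (Sr * a.1)) (hy : VX E y (Sr * a.2))
    (hr : ILok E m z r) : ILok E m z (ic μ o x y r) := by
  obtain ⟨φ, c, u, hr⟩ := hr
  rw [ic_eq, ic2_eq]
  refine ⟨fun z => μ * dl P a z + φ z, (dl_cx hP a μ).add c, ((iun_ub μ ho hk).add u).mono (le_of_eq ?_),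
    fun w h => (ipq_ub μ _ ?_).add (hr w _)⟩
  · rw [hm]
    ring
  · rw [dl_q hP, vp1, vp2]
    exact qc_ub F hx hy w

theorem iv_ok (hP : P.ok) (F : Fit P E) (hb : InB E b) (μ : ℕ) {o k x y cx cy kq px py wx wy I J : ℕ} {a : ℝ × ℝ}
    {r : IL} {α β u v : ℝ} (ho : o = 160 * k) (hk : k < 163) (hm : m k = dl P a z) (hx : VX E x α) (hy : VX E y β)
    (ex : Sr * a.1 = α + E.t * u) (ey : Sr * a.2 = β + E.t * v) (hu : |u| ≤ wx) (hv : |v| ≤ wy)
    (h1 : SP (mz E) I cx ((16777212 + 8388606 * gphi) * (E.t * u)) (2 ^ 27))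
    (h2 : SP (mz E) J cy ((33554424 * gphi - 67108848) * (E.t * v)) (2 ^ 27))
    (m1 : mulOK I 19 AL) (m2 : mulOK J 19 AL) (eq : (kq : ℤ) = IQS + cx * x - cy * y)
    (hpx : |px - (134217728 + 134217728 * gphi + α)| ≤ 1) (hpy : |py - (134217728 + 134217728 * gphi + β)| ≤ 1)
    (hr : ILok E m z r) : ILok E m z (iv b μ o x y cx cy kq px py wx wy r) := by
  obtain ⟨φ, c, u', hr⟩ := hr
  rw [iv_eq, iv2_eq]
  refine ⟨fun z => μ * dl P a z + φ z, (dl_cx hP a μ).add c, ((iun_ub μ ho hk).add u').mono (le_of_eq ?_),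
    fun w h => (ipq_ub μ _ ?_).add (hr w _)⟩
  · rw [hm]
    ring
  have q1 := (((qc_sp F hx hy w).add (h1.mulz (SP.sub hx (vX_ok w)) m1)).sub (h2.mulz (SP.sub hy (vY_ok w)) m2)).ub
    (P := qc x y (x + y) w + cy * vY w + kq) (Q := cx * vX w) (2 ^ 88) AL_lt (by norm_num)
    (by push_cast; rw [eq, IQS_eq]; push_cast; ring)
  have q2 := (quad_rem hP F hb (ax := vax w px) (ay := vay w py) (a := α - vx E w) (c := β - vy E w)
    (by rw [vax_eq]; exact v3_le F (land_lt _ 28 (by norm_num)) hpx)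
    (by rw [vay_eq]; exact v3_le F (land_lt _ 28 (by norm_num)) hpy) hu hv).1
  rw [qv_eq, dl_q hP, vp1, vp2, ex, ey, add_sub_right_comm, add_sub_right_comm β]
  exact (q1.add (ub_VU8.mul _)).mono (by linarith)

theorem ipe_ok (hP : P.ok) (F : Fit P E) (hb : InB E b) (d c : ℕ) {o k : ℕ} {r : IL} (ho : o = 160 * k)
    (hk : k + 4 < 163) (hm : ∀ i ≤ 4, m (k + i) = dl P (P.V i) z) (hr : ILok E m z r) :
    ILok E m z (ipe b d o c r) := by
  obtain ⟨p1, p2⟩ := phi_6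
  rw [show PH6 = 29847458893032750101 by decide +kernel] at p1 p2
  push_cast at p1 p2
  have c0 := VX.c (E := E) (x := X0) 0 0 (by decide +kernel)
  have c1 := VX.c (E := E) (x := AX1) 33554424 (-16777212) (by decide +kernel)
  have c2 := VX.c (E := E) (x := AX2) 16777212 0 (by decide +kernel)
  rw [ipe_eq]
  cases Nat.ble c 1
  · cases Nat.ble c 2
    · cases Nat.ble c 3
      · refine iv_ok hP F hb _ (k := k + 4) (I := 3 * 2 ^ 20) (J := 3 * 2 ^ 36) (by omega) hk (hm 4 le_rfl) c1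
          (VX.c (x := AY4) 0 8388606 (by decide +kernel)) (u := E.d 1) (v := E.d 3) (F.x4.trans (by push_cast; ring))
          (F.y4.trans (by push_cast; ring)) (hb.abs (k := 1) (by norm_num)) (hb.abs (k := 3) (by norm_num))
          ((SP.list [(16777212, 20), (8388606, 21)] (by decide +kernel)).cg rfl ?_ le_rfl)
          ((SP.list [(-67108848, 36), (33554424, 37)] (by decide +kernel)).cg rfl ?_ le_rfl)
          (by decide +kernel) (by decide +kernel) (by decide +kernel) ?_ ?_ hr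
        · simp only [lr_cons, lr_nil, mz20, mz21]; push_cast; ring
        · simp only [lr_cons, lr_nil, mz36, mz37]; push_cast; ring
        all_goals rw [abs_le]; push_cast; constructor <;> linarith
      · exact ic_ok hP F _ (k := k + 3) (by omega) (by omega) (hm 3 (by norm_num))
          (c2.cg rfl (by simp [Prm.V, Prm.pt, Sr]) le_rfl)
          ((VX.c (x := AY3) 8388606 0 (by decide +kernel)).cg rfl (by simp [Prm.V, Prm.pt, Sr]; norm_num) le_rfl) hr
    · exact ic_ok hP F _ (k := k + 2) (by omega) (by omega) (hm 2 (by norm_num))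
        (c2.cg rfl (by simp [Prm.V, Prm.pt, Sr]) le_rfl)
        ((VX.c (x := AY2) (-8388606) 0 (by decide +kernel)).cg rfl (by simp [Prm.V, Prm.pt, Sr]; norm_num) le_rfl) hr
  · cases Nat.beq c 0
    · refine iv_ok hP F hb _ (k := k + 1) (I := 3 * 2 ^ 12) (J := 3 * 2 ^ 28) (by omega) (by omega)
        (hm 1 (by norm_num)) c1
        (VX.c (x := AY1) 0 (-8388606) (by decide +kernel)) (u := E.d 0) (v := E.d 2) (F.x1.trans (by push_cast; ring))
        (F.y1.trans (by push_cast; ring)) (hb.abs (k := 0) (by norm_num)) (hb.abs (k := 2) (by norm_num))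
        ((SP.list [(16777212, 12), (8388606, 13)] (by decide +kernel)).cg rfl ?_ le_rfl)
        ((SP.list [(-67108848, 28), (33554424, 29)] (by decide +kernel)).cg rfl ?_ le_rfl)
        (by decide +kernel) (by decide +kernel) (by decide +kernel) ?_ ?_ hr
      · simp only [lr_cons, lr_nil, mz12, mz13]; push_cast; ring
      · simp only [lr_cons, lr_nil, mz28, mz29]; push_cast; ring
      all_goals rw [abs_le]; push_cast; constructor <;> linarith
    · exact ic_ok hP F _ (k := k) ho (by omega) (hm 0 (by norm_num))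
        (c0.cg rfl (by simp [Prm.V, Prm.pt]) le_rfl) (c0.cg rfl (by simp [Prm.V, Prm.pt]) le_rfl) hr

theorem iel_ok (hP : P.ok) (F : Fit P E) (hb : InB E b) (d n w : ℕ) {o k : ℕ} (ho : o = 160 * k)
    (hk : k + 4 < 163) (hm : ∀ i ≤ 4, m (k + i) = dl P (P.V i) z) : ILok E m z (iel b d o n w) := by
  rw [iel_eq]
  induction n generalizing w with
  | zero => exact ⟨fun _ => 0, convexOn_const 0 convex_univ, by simpa using Ub.zero, fun _ _ => Ub.zero⟩
  | succ n ih => exact ipe_ok hP F hb d _ ho hk hm (ih _)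

end

end Pool.Agent.Lib.MP_9d820d_co.IFast
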