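import Pool.Agent.Lib.MP_9d820d_co.FNode
import Pool.Agent.Lib.MP_9d820d_co.IEq

set_option autoImplicit false
set_option exponentiation.threshold 30000

namespace Pool.Agent.Lib.MP_9d820d_co.IFast

open Finset
open Fast (shr_zero)

noncomputable section

/-- the base of the packed vectors -/
def tt (K : ℕ) : ℕ := 2 ^ K
def di (K : ℕ) (X k : ℕ) : ℕ := X / tt K ^ k % tt K
def ns (K : ℕ) (n : ℕ) (a : ℕ → ℕ) : ℕ := ∑ k ∈ range n, a k * tt K ^ k
def rs (K : ℕ) (n : ℕ) (r : ℕ → ℕ) : ℕ := ∑ j ∈ range n, r j * tt K ^ (n - 1 - j)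
def pk (K : ℕ) (n : ℕ) (v : ℕ → ℤ) : ℤ := ∑ k ∈ range n, v k * (tt K : ℤ) ^ k
def Rep (n A : ℕ) (v : ℕ → ℤ) : Prop :=
  ∃ s : ℕ, (A : ℤ) = pk 160 n v + s * (tt 160 : ℤ) ^ n ∧ ∀ k < n, |v k| ≤ s
def val (m : ℕ → ℝ) (n : ℕ) (v : ℕ → ℤ) : ℝ := ∑ k ∈ range n, v k * m k
/-- A is a packed vector with value at least r -/
def Ub (m : ℕ → ℝ) (n A : ℕ) (r : ℝ) : Prop := ∃ v, Rep n A v ∧ r ≤ val m n v
/-- the digits of X are those of v shifted by 2 ^ c -/
def Bia (K n c X : ℕ) (v : ℕ → ℤ) : Prop := ∀ k < n, (di K X k : ℤ) = v k + 2 ^ c ∧ |v k| < 2 ^ c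

variable {K : ℕ}

theorem tt_pos : 0 < tt K := by unfold tt; positivity
theorem tt_pow (k : ℕ) : tt K ^ k = 2 ^ (K * k) := by rw [tt, ← pow_mul]
theorem di_lt (X k : ℕ) : di K X k < tt K := Nat.mod_lt _ tt_pos

theorem testBit_di (X k i : ℕ) : (di K X k).testBit i = (decide (i < K) && X.testBit (i + K * k)) := by
  rw [di, tt_pow, tt, Nat.testBit_mod_two_pow, Nat.testBit_div_two_pow]

theorem di_land (X Y k : ℕ) : di K (X &&& Y) k = di K X k &&& di K Y k := by
  apply Nat.eq_of_testBit_eq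
  intro i
  simp only [testBit_di, Nat.testBit_and]
  cases decide (i < K) <;> simp

theorem di_xor (X Y k : ℕ) : di K (X ^^^ Y) k = di K X k ^^^ di K Y k := by
  apply Nat.eq_of_testBit_eq
  intro i
  simp only [testBit_di, Nat.testBit_xor]
  cases decide (i < K) <;> simp

theorem di_shr (X j k : ℕ) : di K (X >>> (K * j)) k = di K X (j + k) := by
  apply Nat.eq_of_testBit_eq
  intro i
  simp only [testBit_di, Nat.testBit_shiftRight]
  congr 2
  ring

theorem ns_succ (n : ℕ) (a : ℕ → ℕ) : ns K (n + 1) a = ns K n a + a n * tt K ^ n := sum_range_succ _ _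

theorem ns_congr {n : ℕ} {a b : ℕ → ℕ} (h : ∀ k < n, a k = b k) : ns K n a = ns K n b :=
  sum_congr rfl fun k hk => by rw [h k (mem_range.1 hk)]

theorem ns_lt {n : ℕ} {a : ℕ → ℕ} (h : ∀ k < n, a k < tt K) : ns K n a < tt K ^ n := by
  induction n with
  | zero => simp [ns]
  | succ n ih =>
    have h1 := ih fun k hk => h k (by omega)
    have h2 : (a n + 1) * tt K ^ n ≤ tt K * tt K ^ n := Nat.mul_le_mul_right _ (h n (by omega))
    rw [ns_succ, pow_succ]
    linarith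

theorem mod_ns (X n : ℕ) : X % tt K ^ n = ns K n (di K X) := by
  induction n with
  | zero => simp [ns, Nat.mod_one]
  | succ n ih => rw [ns_succ, Nat.mod_pow_succ, ih, di, mul_comm]

theorem eq_ns (X n : ℕ) : X = ns K n (di K X) + X / tt K ^ n * tt K ^ n := by
  rw [← mod_ns, Nat.mod_add_div']

theorem eq_ns_of_lt {X n : ℕ} (h : X < tt K ^ n) : X = ns K n (di K X) := by
  rw [← mod_ns, Nat.mod_eq_of_lt h]

theorem div_ns {n : ℕ} {a : ℕ → ℕ} (h : ∀ k < n, a k < tt K) (s : ℕ) :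
    (ns K n a + s * tt K ^ n) / tt K ^ n = s := by
  rw [Nat.add_mul_div_right _ _ (pow_pos tt_pos n), Nat.div_eq_of_lt (ns_lt h), zero_add]

theorem di_ns {n : ℕ} {a : ℕ → ℕ} (h : ∀ k < n, a k < tt K) (s : ℕ) {k : ℕ} (hk : k < n) :
    di K (ns K n a + s * tt K ^ n) k = a k := by
  induction n generalizing s with
  | zero => omega
  | succ n ih =>
    have e : ns K (n + 1) a + s * tt K ^ (n + 1) = ns K n a + (a n + s * tt K) * tt K ^ n := by
      rw [ns_succ]; ring
    rw [e]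
    rcases Nat.lt_succ_iff_lt_or_eq.1 hk with hk | rfl
    · exact ih (fun k hk => h k (by omega)) _ hk
    · rw [di, div_ns (fun k hk => h k (by omega)), Nat.add_mul_mod_self_right,
        Nat.mod_eq_of_lt (h k hk)]

theorem di_ns0 {n : ℕ} {a : ℕ → ℕ} (h : ∀ k < n, a k < tt K) {k : ℕ} (hk : k < n) :
    di K (ns K n a) k = a k := by
  simpa using di_ns h 0 hk

theorem land_ns (X : ℕ) {n : ℕ} {a : ℕ → ℕ} (h : ∀ k < n, a k < tt K) :
    X &&& ns K n a = ns K n (fun k => di K X k &&& a k) := by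
  rw [eq_ns_of_lt (lt_of_le_of_lt Nat.and_le_right (ns_lt h) : X &&& ns K n a < tt K ^ n)]
  exact ns_congr fun k hk => by rw [di_land, di_ns0 h hk]

theorem ns_mul (n : ℕ) (a : ℕ → ℕ) (c : ℕ) : ns K n a * c = ns K n (fun k => a k * c) := by
  unfold ns
  rw [sum_mul]
  exact sum_congr rfl fun k _ => by ring

theorem ns_cast (n : ℕ) (a : ℕ → ℕ) : (ns K n a : ℤ) = pk K n (fun k => a k) := by
  simp [ns, pk]

theorem two_pow_lt_tt {c : ℕ} (h : c < K) : 2 ^ c < tt K := Nat.pow_lt_pow_right (by norm_num) h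

theorem posp (X n : ℕ) {c : ℕ} (hc : c < K) :
    X &&& (((X >>> c) &&& ns K n (fun _ => 1)) * (2 ^ c - 1)) =
      ns K n (fun k => if (di K X k).testBit c then di K X k % 2 ^ c else 0) := by
  have h1 : 1 < tt K := two_pow_lt_tt (c := 0) (by omega)
  have h2 := two_pow_lt_tt hc
  have e : ∀ k, di K (X >>> c) k &&& 1 = if (di K X k).testBit c then 1 else 0 := fun k => by
    have : (di K (X >>> c) k).testBit 0 = (di K X k).testBit c := by
      simp only [testBit_di, Nat.testBit_shiftRight, hc, decide_true, Bool.true_and, zero_add]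
      simp [show 0 < K by omega]
    rw [← this, Nat.and_one_is_mod, Nat.testBit_zero]
    rcases Nat.mod_two_eq_zero_or_one (di K (X >>> c) k) with h | h <;> simp [h]
  rw [land_ns _ (fun _ _ => h1), ns_mul, land_ns]
  · refine ns_congr fun k _ => ?_
    rw [e]
    split_ifs
    · rw [one_mul, Nat.and_two_pow_sub_one_eq_mod]
    · simp
  · intro k _
    rw [e]
    split_ifs <;> omega

theorem conv {n : ℕ} {a r : ℕ → ℕ} {Ma Mr : ℕ} (s : ℕ) (ha : ∀ k < n, a k ≤ Ma) (hr : ∀ k < n, r k ≤ Mr) :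
    ∃ S H, (ns K n a + s * tt K ^ n) * rs K n r = S + H * tt K ^ n ∧
      (∑ k ∈ range n, a k * r k) * tt K ^ (n - 1) ≤ S ∧ S ≤ n * n * (Ma * Mr) * tt K ^ (n - 1) := by
  refine ⟨∑ k ∈ range n, ∑ j ∈ range n, if k ≤ j then a k * r j * tt K ^ (k + (n - 1 - j)) else 0,
    (∑ k ∈ range n, ∑ j ∈ range n, if k ≤ j then 0 else a k * r j * tt K ^ (k - j - 1)) + s * rs K n r, ?_, ?_, ?_⟩
  · rw [add_mul, add_mul, ← add_assoc]
    congr 1
    · rw [ns, rs, sum_mul_sum, sum_mul, ← sum_add_distrib]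
      refine sum_congr rfl fun k _ => ?_
      rw [sum_mul, ← sum_add_distrib]
      refine sum_congr rfl fun j hj => ?_
      rw [mem_range] at hj
      split_ifs with h
      · rw [pow_add]; ring
      · have : k + (n - 1 - j) = k - j - 1 + n := by omega
        rw [zero_add, mul_assoc _ _ (tt K ^ n), ← pow_add, ← this, pow_add]
        ring
    · ring
  · rw [sum_mul]
    refine sum_le_sum fun k hk => ?_
    refine le_trans (le_of_eq ?_) (single_le_sum (f := fun j => if k ≤ j then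
      a k * r j * tt K ^ (k + (n - 1 - j)) else 0) (fun _ _ => Nat.zero_le _) hk)
    rw [mem_range] at hk
    rw [if_pos le_rfl, show k + (n - 1 - k) = n - 1 by omega]
  · have : ∀ k ∈ range n, (∑ j ∈ range n, if k ≤ j then a k * r j * tt K ^ (k + (n - 1 - j)) else 0) ≤
        n * (Ma * Mr * tt K ^ (n - 1)) := fun k hk => by
      refine (sum_le_card_nsmul _ _ (Ma * Mr * tt K ^ (n - 1)) fun j hj => ?_).trans (by simp)
      rw [mem_range] at hk hj
      split_ifs with h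
      · exact Nat.mul_le_mul (Nat.mul_le_mul (ha k hk) (hr j hj)) (Nat.pow_le_pow_right tt_pos (by omega))
      · exact Nat.zero_le _
    refine (sum_le_card_nsmul _ _ _ this).trans (le_of_eq ?_)
    simp only [card_range, smul_eq_mul]
    ring

theorem Bia.pos {n c X : ℕ} {v : ℕ → ℤ} (h : Bia K n c X v) {k : ℕ} (hk : k < n) :
    (((if (di K X k).testBit c then di K X k % 2 ^ c else 0 : ℕ) : ℤ)) = max (v k) 0 := by
  obtain ⟨h1, h2⟩ := h k hk
  have h3 := abs_lt.1 h2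
  have e : ((2 ^ c : ℕ) : ℤ) = 2 ^ c := by push_cast; rfl
  rcases lt_or_ge (v k) 0 with h4 | h4
  · rw [Nat.testBit_lt_two_pow (by omega), max_eq_right h4.le]
    simp
  · obtain ⟨u, hu⟩ : ∃ u, di K X k = 2 ^ c + u := ⟨di K X k - 2 ^ c, by omega⟩
    have hu2 : u < 2 ^ c := by omega
    rw [hu, Nat.testBit_two_pow_add_eq, Nat.testBit_lt_two_pow hu2, max_eq_left h4, Nat.add_mod_left,
      Nat.mod_eq_of_lt hu2]
    simp only [Bool.not_false, if_true]
    omega

def on (K : ℕ) (n : ℕ) : ℕ := ns K n (fun _ => 1)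
/-- the packed vector with digit c at the places of the mask I -/
def msk (K : ℕ) (n I c : ℕ) : ℕ := ns K n (fun k => if I.testBit k then c else 0)

theorem shr_tt {a c n e : ℕ} (h : a >>> e = 0) (he : e = c + K * n) : a < 2 ^ c * tt K ^ n := by
  rw [tt_pow, ← pow_add, ← he]
  exact shr_zero h

theorem shl_tt (a : ℕ) {e k : ℕ} (he : e = K * k) : a <<< e = a * tt K ^ k := by
  rw [Nat.shiftLeft_eq, tt_pow, he]

theorem di_mod (X k : ℕ) : di K X k % 2 ^ K = di K X k := Nat.mod_eq_of_lt (di_lt X k)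

theorem pk_add (n : ℕ) (u v : ℕ → ℤ) : pk K n (fun k => u k + v k) = pk K n u + pk K n v := by
  simp [pk, add_mul, sum_add_distrib]

theorem pk_mul (n : ℕ) (c : ℤ) (v : ℕ → ℤ) : pk K n (fun k => c * v k) = c * pk K n v := by
  simp [pk, mul_sum, mul_assoc]

theorem pk_congr {n : ℕ} {u v : ℕ → ℤ} (h : ∀ k < n, u k = v k) : pk K n u = pk K n v :=
  sum_congr rfl fun k hk => by rw [h k (mem_range.1 hk)]

theorem pk_single {n k : ℕ} (hk : k < n) (c : ℤ) :
    pk K n (fun j => if j = k then c else 0) = c * (tt K : ℤ) ^ k := by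
  simp [pk, hk]

theorem on_cast (n : ℕ) : (on K n : ℤ) = pk K n (fun _ => 1) := by rw [on, ns_cast]; rfl

theorem two_on (n : ℕ) : on K n * (tt K - 1) < tt K ^ n := by
  rw [on, ns_mul]
  exact ns_lt fun _ _ => by have := tt_pos (K := K); omega

theorem pk_abs {n : ℕ} {v : ℕ → ℤ} {s : ℤ} (h : ∀ k < n, |v k| ≤ s) : |pk K n v| ≤ s * on K n := by
  rw [on_cast, ← pk_mul]
  refine (abs_sum_le_sum_abs _ _).trans (sum_le_sum fun k hk => ?_)
  rw [abs_mul, mul_one, abs_of_nonneg (a := (tt K : ℤ) ^ k) (by positivity)]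
  exact mul_le_mul_of_nonneg_right (h k (mem_range.1 hk)) (by positivity)

theorem digits_of {n X s : ℕ} {a : ℕ → ℤ} (e : (X : ℤ) = pk K n a + s * (tt K : ℤ) ^ n)
    (h : ∀ k < n, 0 ≤ a k ∧ a k < tt K) : X / tt K ^ n = s ∧ ∀ k < n, (di K X k : ℤ) = a k := by
  have hl : ∀ k < n, (a k).toNat < tt K := fun k hk => by have := h k hk; omega
  have e2 : X = ns K n (fun k => (a k).toNat) + s * tt K ^ n := by
    have : pk K n a = pk K n (fun k => ((a k).toNat : ℤ)) :=
      pk_congr fun k hk => (Int.toNat_of_nonneg (h k hk).1).symm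
    zify
    rw [e, this, ns_cast]
  refine ⟨by rw [e2, div_ns hl], fun k hk => ?_⟩
  rw [e2, di_ns hl _ hk, Int.toNat_of_nonneg (h k hk).1]

theorem Bia.mk' {n c X s : ℕ} {v : ℕ → ℤ} (hc : c + 1 < K)
    (e : (X : ℤ) = pk K n v + 2 ^ c * on K n + s * (tt K : ℤ) ^ n) (h : ∀ k < n, |v k| < 2 ^ c) : Bia K n c X v := by
  have h2 : ((2 ^ (c + 1) : ℕ) : ℤ) < tt K := by exact_mod_cast two_pow_lt_tt (by omega)
  push_cast at h2
  rw [pow_succ] at h2
  have := (digits_of (X := X) (s := s) (a := fun k => v k + 2 ^ c * 1)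
    (by rw [pk_add, pk_mul, ← on_cast, e]) (fun k hk => by
      have := abs_lt.1 (h k hk)
      constructor <;> linarith)).2
  exact fun k hk => ⟨by rw [this k hk, mul_one], h k hk⟩

theorem Bia.mod {n c X : ℕ} {v : ℕ → ℤ} (h : Bia K n c X v) {l : ℕ} (hl : l ≤ n) :
    ((X % tt K ^ l : ℕ) : ℤ) = pk K l v + 2 ^ c * on K l := by
  rw [mod_ns, ns_cast, on_cast, ← pk_mul, ← pk_add]
  exact pk_congr fun k hk => by rw [(h k (by omega)).1, mul_one]

theorem Bia.shr {n c X : ℕ} {v : ℕ → ℤ} (h : Bia K n c X v) {j l : ℕ} (hl : j + l ≤ n) :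
    Bia K l c (X >>> (K * j)) (fun k => v (j + k)) := fun k hk => by
  rw [di_shr]
  exact h _ (by omega)

theorem Bia.zero {n c X I : ℕ} {v : ℕ → ℤ} (h : Bia K n c X v) (hc : c < K)
    (z : (X ^^^ 2 ^ c * on K n) &&& msk K n I (tt K - 1) = 0) {k : ℕ} (hk : k < n) (hI : I.testBit k = true) :
    v k = 0 := by
  have t0 := tt_pos (K := K)
  have h1 := congrArg (fun Y => di K Y k) z
  have h2 : di K (msk K n I (tt K - 1)) k = 2 ^ K - 1 := by
    rw [msk, di_ns0 (fun k _ => by split_ifs <;> omega) hk, if_pos hI, tt]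
  have h3 : di K (2 ^ c * on K n) k = 2 ^ c := by
    rw [mul_comm, on, ns_mul, di_ns0 (fun _ _ => by rw [one_mul]; exact two_pow_lt_tt hc) hk, one_mul]
  simp only [di_land, h2, Nat.and_two_pow_sub_one_eq_mod] at h1
  rw [di_mod, di_xor, h3] at h1
  have h4 : di K X k = 2 ^ c := Nat.xor_eq_zero_iff.1 (h1.trans (by simp [di]))
  have h5 := (h k hk).1
  rw [h4] at h5
  push_cast at h5
  linarith

theorem tt_big : 2 ^ 159 ≤ tt 160 - 1 := by decide +kernel

theorem Rep.sen {n A c : ℕ} {v : ℕ → ℤ} {s : ℕ} (e : (A : ℤ) = pk 160 n v + s * (tt 160 : ℤ) ^ n)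
    (h : ∀ k < n, |v k| ≤ s) (hA : A < 2 ^ c * tt 160 ^ n) : s < 2 ^ (c + 1) := by
  have h1 := (abs_le.1 (pk_abs (K := 160) h)).1
  have h2 : on 160 n * 2 ≤ tt 160 ^ n := le_trans (Nat.mul_le_mul_left _ (le_trans (by norm_num) tt_big)) (two_on n).le
  by_contra hn
  have h3 : 2 ^ c * 2 ≤ s := by rw [← pow_succ]; omega
  have h4 : (A : ℤ) < 2 ^ c * (tt 160 : ℤ) ^ n := by exact_mod_cast hA
  have h5 : (on 160 n : ℤ) * 2 ≤ (tt 160 : ℤ) ^ n := by exact_mod_cast h2
  have h6 : (2 : ℤ) ^ c * 2 ≤ s := by exact_mod_cast h3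
  have h7 : (0 : ℤ) ≤ s := by positivity
  have h8 : (0 : ℤ) < (tt 160 : ℤ) ^ n := by have := tt_pos (K := 160); positivity
  nlinarith [mul_le_mul_of_nonneg_left h5 h7, mul_le_mul_of_nonneg_right h6 h8.le]

variable {m : ℕ → ℝ} {n A B : ℕ} {r q : ℝ}

theorem val_add (u v : ℕ → ℤ) : val m n (fun k => u k + v k) = val m n u + val m n v := Fast.val_add u v
theorem val_mul (c : ℤ) (v : ℕ → ℤ) : val m n (fun k => c * v k) = c * val m n v := Fast.val_mul c v
theorem val_single {k : ℕ} (hk : k < n) (c : ℤ) : val m n (fun j => if j = k then c else 0) = c * m k :=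
  Fast.val_single hk c

theorem Ub.mono (h : Ub m n A r) (hq : q ≤ r) : Ub m n A q := by
  obtain ⟨v, h1, h2⟩ := h
  exact ⟨v, h1, hq.trans h2⟩

theorem Ub.zero : Ub m n 0 0 := ⟨fun _ => 0, ⟨0, by simp [pk], by simp⟩, by simp [val]⟩

theorem Ub.add (h : Ub m n A r) (g : Ub m n B q) : Ub m n (A + B) (r + q) := by
  obtain ⟨u, ⟨s, e1, b1⟩, h⟩ := h
  obtain ⟨v, ⟨s', e2, b2⟩, g⟩ := g
  refine ⟨fun k => u k + v k, ⟨s + s', ?_, fun k hk => ?_⟩, by rw [val_add]; linarith⟩
  · push_cast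
    rw [pk_add, e1, e2]
    ring
  · push_cast
    exact (abs_add_le _ _).trans (add_le_add (b1 k hk) (b2 k hk))

theorem Ub.mul (c : ℕ) (h : Ub m n A r) : Ub m n (c * A) (c * r) := by
  obtain ⟨u, ⟨s, e1, b1⟩, h⟩ := h
  refine ⟨fun k => c * u k, ⟨c * s, ?_, fun k hk => ?_⟩, ?_⟩
  · push_cast
    rw [pk_mul, e1]
    ring
  · push_cast
    rw [abs_mul, Nat.abs_cast]
    exact mul_le_mul_of_nonneg_left (b1 k hk) (by positivity)
  · rw [val_mul]
    exact mul_le_mul_of_nonneg_left h (by positivity)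

theorem Ub.shl (c : ℕ) (h : Ub m n A r) : Ub m n (A <<< c) (2 ^ c * r) := by
  have := h.mul (2 ^ c)
  rw [Nat.shiftLeft_eq, mul_comm]
  exact_mod_cast this

theorem Ub.nn (c : ℕ) (h : Ub m n A 0) : Ub m n (c * A) 0 := by simpa using h.mul c
theorem Ub.add0 (h : Ub m n A 0) (g : Ub m n B 0) : Ub m n (A + B) 0 := by simpa using h.add g

theorem Ub.diff {P Q s : ℕ} {v : ℕ → ℤ} (e : (P : ℤ) - Q = pk 160 n v + s * (tt 160 : ℤ) ^ n)
    (h : ∀ k < n, |v k| ≤ s) : Ub m n (P - Q) (val m n v) := by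
  have h1 := (abs_le.1 (pk_abs (K := 160) h)).1
  have h2 : on 160 n * 1 ≤ tt 160 ^ n :=
    le_trans (Nat.mul_le_mul_left _ (le_trans Nat.one_le_two_pow tt_big)) (two_on n).le
  have h5 : (on 160 n : ℤ) * 1 ≤ (tt 160 : ℤ) ^ n := by exact_mod_cast h2
  have h7 : (0 : ℤ) ≤ s := by positivity
  have h8 : Q ≤ P := by nlinarith [mul_le_mul_of_nonneg_left h5 h7]
  exact ⟨v, ⟨s, by rw [Nat.cast_sub h8, e], h⟩, le_rfl⟩

theorem Ub.up {k : ℕ} (hk : k < n) : Ub m n (tt 160 ^ n + tt 160 ^ k) (m k) :=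
  ⟨fun j => if j = k then 1 else 0, ⟨1, by rw [pk_single hk]; push_cast; ring, fun j _ => by
    dsimp only; split_ifs <;> simp⟩, by rw [val_single hk]; simp⟩

theorem Ub.un {k : ℕ} (hk : k < n) : Ub m n (tt 160 ^ n - tt 160 ^ k) (-m k) := by
  have := Ub.diff (m := m) (n := n) (P := tt 160 ^ n) (Q := tt 160 ^ k) (s := 1) (v := fun j => if j = k then -1 else 0)
    (by rw [pk_single hk]; push_cast; ring) (fun j _ => by split_ifs <;> simp)
  rw [val_single hk] at this
  simpa using this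

theorem Ub.bia {b c : ℕ} (h : Ub m n A r) (hc : c < b) (hb : b < 159) (hA : A < 2 ^ c * tt 160 ^ n) :
    ∃ v, Bia 160 n b (A + 2 ^ b * on 160 n) v ∧ (∀ k < n, |v k| < 2 ^ (c + 1)) ∧ r ≤ val m n v := by
  obtain ⟨v, ⟨s, e, h1⟩, h⟩ := h
  have h2 : (s : ℤ) < 2 ^ (c + 1) := by exact_mod_cast Rep.sen e h1 hA
  have h3 : ∀ k < n, |v k| < 2 ^ (c + 1) := fun k hk => (h1 k hk).trans_lt h2
  refine ⟨v, Bia.mk' (s := s) (by omega) (by push_cast; rw [e]; ring) fun k hk => (h3 k hk).trans_le ?_, h3, h⟩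
  exact pow_le_pow_right₀ (by norm_num) hc

theorem Bia.win {N X c j I C : ℕ} {v : ℕ → ℤ} (h : Bia 160 N c X v) (hj : j + n ≤ N)
    (hC : C + msk 160 n I (2 ^ c) = 2 ^ c * tt 160 ^ n) :
    Ub m n (((X >>> (160 * j)) &&& msk 160 n I (tt 160 - 1)) + C)
      (val m n fun k => if I.testBit k then v (j + k) else 0) := by
  have t0 := tt_pos (K := 160)
  refine ⟨_, ⟨2 ^ c, ?_, fun k hk => ?_⟩, le_rfl⟩
  · have e : (C : ℤ) = 2 ^ c * (tt 160 : ℤ) ^ n - msk 160 n I (2 ^ c) := by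
      have : ((C + msk 160 n I (2 ^ c) : ℕ) : ℤ) = ((2 ^ c * tt 160 ^ n : ℕ) : ℤ) := by rw [hC]
      push_cast at this
      linarith
    rw [msk, land_ns _ (fun k _ => by split_ifs <;> omega), Nat.cast_add, e, msk, ns_cast, ns_cast]
    have : pk 160 n (fun k => ((di 160 (X >>> (160 * j)) k &&& if I.testBit k then tt 160 - 1 else 0 : ℕ) : ℤ)) =
        pk 160 n (fun k => (if I.testBit k then v (j + k) else 0) +
          ((if I.testBit k then 2 ^ c else 0 : ℕ) : ℤ)) := pk_congr fun k hk => by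
      split_ifs
      · rw [tt, Nat.and_two_pow_sub_one_eq_mod, di_mod, (h.shr hj k hk).1]
        push_cast
        rfl
      · simp
    rw [this, pk_add]
    push_cast
    ring
  · split_ifs
    · exact_mod_cast (h _ (by omega)).2.le
    · simp

/-- X is a signed polynomial in the base with exponents in the mask I, value x and norm at most M -/
inductive SP (m : ℕ → ℝ) (I : ℕ) : ℤ → ℝ → ℤ → Prop
  | zero : SP m I 0 0 0
  | one (c : ℤ) (e : ℕ) : I.testBit e = true → SP m I (c * (tt 160 : ℤ) ^ e) (c * m e) |c|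
  | add {X Y M N : ℤ} {x y : ℝ} : SP m I X x M → SP m I Y y N → SP m I (X + Y) (x + y) (M + N)
  | up {X M N : ℤ} {x : ℝ} : SP m I X x M → M ≤ N → SP m I X x N

variable {I J L : ℕ} {X Y M N : ℤ} {x y : ℝ}

theorem SP.cg (h : SP m I X x M) (e1 : X = Y) (e2 : x = y) (e3 : M ≤ N) : SP m I Y y N := by
  subst e1 e2
  exact h.up e3

theorem SP.nn (h : SP m I X x M) : 0 ≤ M := by
  induction h with
  | zero => exact le_rfl
  | one c e _ => exact abs_nonneg _
  | add _ _ a b => exact add_nonneg a b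
  | up _ e a => exact a.trans e

theorem SP.smul (c : ℤ) (h : SP m I X x M) : SP m I (c * X) (c * x) (|c| * M) := by
  induction h with
  | zero => exact SP.zero.cg (by simp) (by simp) (by simp)
  | one d e he => exact (SP.one (c * d) e he).cg (by ring) (by push_cast; ring) (abs_mul _ _).le
  | add _ _ a b => exact (a.add b).cg (by ring) (by ring) (le_of_eq (by ring))
  | up _ e a => exact a.up (mul_le_mul_of_nonneg_left e (abs_nonneg _))

theorem SP.neg (h : SP m I X x M) : SP m I (-X) (-x) M := (h.smul (-1)).cg (by ring) (by simp) (by simp)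

theorem SP.sub (h : SP m I X x M) (g : SP m I Y y N) : SP m I (X - Y) (x - y) (M + N) :=
  (h.add g.neg).cg (by ring) (by ring) le_rfl

theorem SP.map {m' : ℕ → ℝ} {o : ℕ} {c : ℝ} (h : SP m I X x M)
    (f : ∀ e, I.testBit e = true → J.testBit (e + o) = true ∧ m' (e + o) = m e * c) :
    SP m' J (X * (tt 160 : ℤ) ^ o) (x * c) M := by
  induction h with
  | zero => exact SP.zero.cg (by simp) (by simp) le_rfl
  | one d e he => exact (SP.one d (e + o) (f e he).1).cg (by ring) (by rw [(f e he).2]; ring) le_rfl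
  | add _ _ a b => exact (a.add b).cg (by ring) (by ring) le_rfl
  | up _ e a => exact a.up e

theorem SP.sub' (h : SP m I X x M) (f : ∀ e, I.testBit e = true → J.testBit e = true) : SP m J X x M :=
  (h.map (o := 0) (c := 1) fun e he => ⟨f e he, by simp⟩).cg (by simp) (by simp) le_rfl

theorem SP.mul (h : SP m I X x M) (g : SP m J Y y N)
    (f : ∀ a, I.testBit a = true → ∀ b, J.testBit b = true →
      L.testBit (b + a) = true ∧ m (b + a) = m b * m a) : SP m L (X * Y) (x * y) (M * N) := by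
  induction h with
  | zero => exact SP.zero.cg (by simp) (by simp) (by simp)
  | one d e he => exact ((g.map (f e he)).smul d).cg (by ring) (by ring) le_rfl
  | add _ _ a b => exact (a.add b).cg (by ring) (by ring) (le_of_eq (by ring))
  | up _ e a => exact a.up (mul_le_mul_of_nonneg_right e g.nn)

theorem SP.rep (h : SP m I X x M) (hI : I < 2 ^ n) : ∃ v : ℕ → ℤ, X = pk 160 n v ∧ x = val m n v ∧
    (∀ k, |v k| ≤ M) ∧ ∀ k, I.testBit k = false → v k = 0 := by
  induction h with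
  | zero => exact ⟨fun _ => 0, by simp [pk], by simp [val], by simp, by simp⟩
  | one d e he =>
    have : e < n := by
      by_contra hn
      rw [Nat.testBit_lt_two_pow (hI.trans_le (Nat.pow_le_pow_right (by norm_num) (not_lt.1 hn)))] at he
      cases he
    refine ⟨fun j => if j = e then d else 0, (pk_single this d).symm, (val_single this d).symm, fun k => ?_,
      fun k hk => if_neg ?_⟩
    · dsimp only
      split_ifs <;> simp
    · rintro rfl
      rw [he] at hk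
      cases hk
  | add _ _ a b =>
    obtain ⟨u, a1, a2, a3, a4⟩ := a
    obtain ⟨v, b1, b2, b3, b4⟩ := b
    exact ⟨fun k => u k + v k, by rw [pk_add, a1, b1], by rw [val_add, a2, b2],
      fun k => (abs_add_le _ _).trans (add_le_add (a3 k) (b3 k)), fun k hk => by simp [a4 k hk, b4 k hk]⟩
  | up _ e a =>
    obtain ⟨u, a1, a2, a3, a4⟩ := a
    exact ⟨u, a1, a2, fun k => (a3 k).trans e, a4⟩

theorem SP.ub {P Q : ℕ} (s : ℕ) (h : SP m I X x M) (hI : I < 2 ^ n) (hM : M ≤ s)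
    (e : (P : ℤ) - Q = X + s * (tt 160 : ℤ) ^ n) : Ub m n (P - Q) x := by
  obtain ⟨v, a1, a2, a3, -⟩ := h.rep hI
  rw [a2]
  exact Ub.diff (a1 ▸ e) fun k _ => (a3 k).trans hM

theorem SP.ub0 {P : ℕ} (s : ℕ) (h : SP m I X x M) (hI : I < 2 ^ n) (hM : M ≤ s)
    (e : (P : ℤ) = X + s * (tt 160 : ℤ) ^ n) : Ub m n P x :=
  h.ub (Q := 0) s hI hM (by simpa using e)

theorem SP.ofFun (v : ℕ → ℤ) (c : ℕ) (n : ℕ) (h : ∀ k < n, I.testBit k = true → |v k| ≤ c) :
    SP m I (pk 160 n fun k => if I.testBit k then v k else 0) (val m n fun k => if I.testBit k then v k else 0)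
      (∑ k ∈ range n, if I.testBit k then c else 0 : ℕ) := by
  induction n with
  | zero => exact SP.zero.cg (by simp [pk]) (by simp [val]) (by simp)
  | succ n ih =>
    have ih := ih fun k hk => h k (by omega)
    rw [pk, val, sum_range_succ, sum_range_succ, sum_range_succ]
    by_cases e : I.testBit n = true
    · rw [if_pos e, if_pos e]
      exact (ih.add (SP.one _ n e)).cg rfl rfl (by push_cast; linarith [h n (by omega) e])
    · rw [if_neg e, if_neg e]
      exact ih.cg (by simp [pk]) (by simp [val]) (by simp)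

/-- the masked digits of X, shifted by c -/
theorem SP.mask (X : ℕ) {e : ℕ} (c n : ℕ) (v : ℕ → ℤ) (b : ℕ) (he : e ≤ 160)
    (h : ∀ k < n, I.testBit k = true → ((di 160 X k % 2 ^ e : ℕ) : ℤ) = v k + c ∧ |v k| ≤ b) :
    SP m I (((X &&& msk 160 n I (2 ^ e - 1) : ℕ) : ℤ) - msk 160 n I c)
      (val m n fun k => if I.testBit k then v k else 0) (∑ k ∈ range n, if I.testBit k then b else 0 : ℕ) := by
  refine (SP.ofFun v b n fun k hk hI => (h k hk hI).2).cg ?_ rfl le_rfl
  have t1 : 2 ^ e ≤ tt 160 := Nat.pow_le_pow_right (by norm_num) he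
  have t0 : 0 < 2 ^ e := by positivity
  rw [msk, land_ns _ (fun k _ => by split_ifs <;> omega), msk, ns_cast, ns_cast, eq_sub_iff_add_eq, ← pk_add]
  refine pk_congr fun k hk => ?_
  split_ifs with hI
  · rw [Nat.and_two_pow_sub_one_eq_mod, (h k hk hI).1]
  · simp

theorem bound3 {K n c X Mr : ℕ} {v : ℕ → ℤ} {r w d : ℕ → ℕ} {m : ℕ → ℝ} (hc : c + 1 < K)
    (hX : Bia K (n + 1) c X v) (hl : X < tt K ^ (n + 1)) (hr : ∀ k < n + 1, r k ≤ Mr ∧ w k ≤ Mr ∧ d k ≤ Mr)
    (hm : ∀ k < n + 1, (r k : ℝ) - d k ≤ m k ∧ m k ≤ r k - d k + w k)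
    (hs : 3 * ((n + 1) * (n + 1) * (2 ^ (c + 1) * Mr)) < tt K) :
    val m (n + 1) v ≤ di K (X * rs K (n + 1) r +
        (X &&& (((X >>> c) &&& ns K (n + 1) (fun _ => 1)) * (2 ^ c - 1))) * rs K (n + 1) w +
        (2 ^ (c + 1) * on K (n + 1) - X) * rs K (n + 1) d) n -
      2 ^ c * ∑ k ∈ range (n + 1), ((r k + d k : ℕ) : ℝ) := by
  have e : ((2 ^ c : ℕ) : ℤ) = 2 ^ c := by push_cast; rfl
  have b : ∀ k < n + 1, di K X k ≤ 2 ^ (c + 1) := fun k hk => by
    have := hX k hk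
    have h3 := abs_lt.1 this.2
    rw [pow_succ]
    omega
  have ez : 2 ^ (c + 1) * on K (n + 1) - X = ns K (n + 1) fun k => 2 ^ (c + 1) - di K X k := by
    symm
    apply Nat.eq_sub_of_add_eq
    refine (congrArg _ (eq_ns_of_lt hl)).trans ?_
    rw [mul_comm, on, ns_mul, ns, ns, ns, ← sum_add_distrib]
    refine sum_congr rfl fun k hk => ?_
    rw [← add_mul, Nat.sub_add_cancel (b k (mem_range.1 hk)), one_mul]
  obtain ⟨S1, H1, e1, a1, b1⟩ := conv (K := K) (a := di K X) (Ma := 2 ^ (c + 1)) 0 b fun k hk => (hr k hk).1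
  rw [posp X (n + 1) (by omega), ez]
  set p : ℕ → ℕ := fun k => if (di K X k).testBit c then di K X k % 2 ^ c else 0 with hp
  obtain ⟨S2, H2, e2, a2, b2⟩ := conv (K := K) (a := p) (Ma := 2 ^ (c + 1)) 0 (fun k hk => by
    simp only [hp]
    split_ifs
    · exact (Nat.mod_le _ _).trans (b k hk)
    · exact Nat.zero_le _) fun k hk => (hr k hk).2.1
  obtain ⟨S3, H3, e3, a3, b3⟩ := conv (K := K) (a := fun k => 2 ^ (c + 1) - di K X k) (Ma := 2 ^ (c + 1)) 0
    (fun k hk => Nat.sub_le _ _) fun k hk => (hr k hk).2.2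
  rw [zero_mul, add_zero] at e1 e2 e3
  rw [← eq_ns_of_lt hl] at e1
  rw [Nat.add_sub_cancel] at a1 a2 a3 b1 b2 b3
  have t0 := pow_pos (tt_pos (K := K)) n
  have lt : S1 + S2 + S3 < tt K ^ n * tt K := by
    have h2 := Nat.mul_lt_mul_of_pos_right (k := tt K ^ n) hs t0
    linarith
  have d1 : ∑ k ∈ range (n + 1), di K X k * r k + ∑ k ∈ range (n + 1), p k * w k +
      ∑ k ∈ range (n + 1), (2 ^ (c + 1) - di K X k) * d k ≤ di K (X * rs K (n + 1) r +
      ns K (n + 1) p * rs K (n + 1) w + (ns K (n + 1) fun k => 2 ^ (c + 1) - di K X k) * rs K (n + 1) d) n := by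
    rw [e1, e2, e3, di, ← Nat.mod_mul_right_div_self, show S1 + H1 * tt K ^ (n + 1) + (S2 + H2 * tt K ^ (n + 1)) +
      (S3 + H3 * tt K ^ (n + 1)) = S1 + S2 + S3 + (H1 + H2 + H3) * (tt K ^ n * tt K) by ring,
      Nat.add_mul_mod_self_right, Nat.mod_eq_of_lt lt]
    exact (Nat.le_div_iff_mul_le t0).2 (by linarith)
  refine le_trans ?_ (sub_le_sub_right (Nat.cast_le.2 d1) _)
  rw [Nat.cast_add, Nat.cast_add, Nat.cast_sum, Nat.cast_sum, Nat.cast_sum, val, mul_sum, ← sum_add_distrib,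
    ← sum_add_distrib, ← sum_sub_distrib]
  refine sum_le_sum fun k hk => ?_
  rw [mem_range] at hk
  have h1 : (di K X k : ℝ) = v k + 2 ^ c := by exact_mod_cast (hX k hk).1
  have h2 : (p k : ℝ) = max (v k : ℝ) 0 := by exact_mod_cast hX.pos hk
  obtain ⟨h3, h4⟩ := hm k hk
  push_cast [b k hk]
  rw [h1, h2, pow_succ]
  rcases le_total (v k : ℝ) 0 with h | h
  · rw [max_eq_right h]; nlinarith
  · rw [max_eq_left h]; nlinarith

end

end Pool.Agent.Lib.MP_9d820d_co.IFast
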