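import Pool.Agent.Lib.MP_9d820d_co.IRep

set_option autoImplicit false
set_option exponentiation.threshold 30000

namespace Pool.Agent.Lib.MP_9d820d_co.IFast

open Finset
open Fast (shr_zero InF fl wd fl_lt wd_lt wd_eq land_lt)

noncomputable section

attribute [local irreducible] fl wd wa mn mw iww

/-- the parameter t, the seven displacements and the ten length displacements -/
structure Env where
  t : ℝ
  d : ℕ → ℝ
  l : ℕ → ℝ

def ti (k : ℕ) : ℕ :=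
  [0, 1, 2, 1, 2, 1, 2, 1, 2, 1, 2, 1, 2, 3, 1, 2, 3, 1, 2, 3, 1, 1, 1, 1, 1, 1, 1, 1, 1, 1, 1].getD k 0
def gi (k : ℕ) : ℕ :=
  [0, 0, 0, 1, 1, 2, 2, 3, 3, 4, 4, 5, 5, 5, 6, 6, 6, 7, 7, 7, 8, 9, 10, 11, 12, 13, 14, 15, 16, 17, 18].getD k 0
def gv (E : Env) (i : ℕ) : ℝ :=
  if i = 0 then 1 else if i < 8 then E.d (i - 1) else if i < 18 then E.l (i - 8)
  else E.t * (E.d 0 * E.d 3 - E.d 2 * E.d 1)
/-- the monomials of the low digits -/
def mz (E : Env) (k : ℕ) : ℝ := gphi ^ (k % 4) * (E.t ^ ti (k / 4) * gv E (gi (k / 4)))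

def InB (E : Env) (b : ℕ) : Prop := InF (fun k => E.d k + 8388608) 7 b
def InR (E : Env) (r : ℕ) : Prop := InF (fun k => E.l k + 8388608) 10 r

def crit (a b : ℕ) : Prop := a % 4 + b % 4 < 4 ∧ ti ((b + a) / 4) = ti (b / 4) + ti (a / 4) ∧
  (gi (a / 4) = 0 ∧ gi ((b + a) / 4) = gi (b / 4) ∨ gi (b / 4) = 0 ∧ gi ((b + a) / 4) = gi (a / 4))
instance (a b : ℕ) : Decidable (crit a b) := by unfold crit; infer_instance
def mulOK (I J L : ℕ) : Prop := I < 2 ^ 124 ∧ J < 2 ^ 124 ∧ ∀ a < 124, I.testBit a = true → ∀ b < 124,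
  J.testBit b = true → L.testBit (b + a) = true ∧ crit a b
instance (I J L : ℕ) : Decidable (mulOK I J L) := by unfold mulOK; infer_instance

variable {E : Env}

theorem lt_of_bit {I n a : ℕ} (hI : I < 2 ^ n) (h : I.testBit a = true) : a < n := by
  by_contra hn
  rw [Nat.testBit_lt_two_pow (hI.trans_le (Nat.pow_le_pow_right (by norm_num) (not_lt.1 hn)))] at h
  cases h

theorem mz_mul {a b : ℕ} (h : crit a b) : mz E (b + a) = mz E b * mz E a := by
  obtain ⟨h1, h2, h3⟩ := h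
  rw [mz, mz, mz, h2, show (b + a) % 4 = b % 4 + a % 4 by omega, pow_add, pow_add]
  rcases h3 with ⟨h3, h4⟩ | ⟨h3, h4⟩ <;> rw [h3, h4, show gv E 0 = 1 from rfl] <;> ring

theorem SP.mulz {I J L : ℕ} {X Y M N : ℤ} {x y : ℝ} (h : SP (mz E) I X x M) (g : SP (mz E) J Y y N)
    (f : mulOK I J L) : SP (mz E) L (X * Y) (x * y) (M * N) :=
  h.mul g fun a ha b hb =>
    have := f.2.2 a (lt_of_bit f.1 ha) ha b (lt_of_bit f.2.1 hb) hb
    ⟨this.1, mz_mul this.2⟩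

theorem phi_sq : gphi ^ 2 = gphi + 1 := by
  have := Real.sq_sqrt (show (0 : ℝ) ≤ 5 by norm_num)
  rw [gphi]
  linarith

theorem phi_rng {s c : ℕ} (h1 : 2 ^ s ≤ 2 * c) (h2 : (2 * c - 2 ^ s) ^ 2 ≤ 5 * (2 ^ s) ^ 2)
    (h3 : 5 * (2 ^ s) ^ 2 ≤ (2 * c + 2 - 2 ^ s) ^ 2) : (c : ℝ) ≤ 2 ^ s * gphi ∧ 2 ^ s * gphi ≤ c + 1 := by
  have p : (0 : ℝ) < 2 ^ s := by positivity
  have e : 2 ^ s * Real.sqrt 5 = Real.sqrt (5 * (2 ^ s) ^ 2) := by
    rw [Real.sqrt_mul (by norm_num), Real.sqrt_sq p.le, mul_comm]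
  have a : ((2 * c - 2 ^ s : ℕ) : ℝ) ≤ 2 ^ s * Real.sqrt 5 := by
    rw [e]
    exact Real.le_sqrt_of_sq_le (by exact_mod_cast h2)
  have b : 2 ^ s * Real.sqrt 5 ≤ ((2 * c + 2 - 2 ^ s : ℕ) : ℝ) := by
    rw [e]
    exact Real.sqrt_le_iff.2 ⟨by positivity, by exact_mod_cast h3⟩
  rw [Nat.cast_sub h1] at a
  rw [Nat.cast_sub (by omega)] at b
  push_cast at a b
  rw [gphi]
  constructor <;> linarith

theorem phi_S : (PHS : ℝ) ≤ 2 ^ 256 * gphi ∧ 2 ^ 256 * gphi ≤ PHS + 1 :=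
  phi_rng (by decide +kernel) (by decide +kernel) (by decide +kernel)
theorem phi_6 : (PH6 : ℝ) ≤ 2 ^ 64 * gphi ∧ 2 ^ 64 * gphi ≤ PH6 + 1 :=
  phi_rng (by decide +kernel) (by decide +kernel) (by decide +kernel)
theorem phi_lo : (1.618 : ℝ) ≤ gphi ∧ gphi ≤ 1.6181 := by
  have := phi_6
  rw [show PH6 = 29847458893032750101 by decide +kernel] at this
  constructor <;> norm_num at this ⊢ <;> linarith [this.1, this.2]

theorem wa_lt (b o : ℕ) : wa b o < 2 ^ 30 := by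
  have := fl_lt (b >>> 32) o
  rw [wa_eq]
  omega
theorem mn_le (b o : ℕ) : mn b o ≤ 2 ^ 62 := by
  have := fl_lt b o
  rw [mn_eq]
  omega
theorem mw_le (b o : ℕ) : mw b o ≤ 2 ^ 62 := by
  have := fl_lt (b >>> 32) o
  rw [mw_eq]
  omega
theorem iww_le (b : ℕ) : iww b ≤ 2 ^ 61 := by
  have := Nat.mul_le_mul (wa_lt b 0).le (wa_lt b 192).le
  have := Nat.mul_le_mul (wa_lt b 128).le (wa_lt b 64).le
  rw [iww_eq]
  omega

theorem abs_wa {z : ℝ} {a o : ℕ} (h : (fl a o : ℝ) ≤ z + 8388608 ∧ (z + 8388608 : ℝ) ≤ (fl (a >>> 32) o : ℝ)) :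
    |z| ≤ wa a o := by
  have h1 : 8388608 ≤ wa a o + fl a o := by rw [wa_eq]; omega
  have h2 : fl (a >>> 32) o ≤ wa a o + 8388608 := by rw [wa_eq]; omega
  have h3 : (8388608 : ℝ) ≤ wa a o + fl a o := by exact_mod_cast h1
  have h4 : (fl (a >>> 32) o : ℝ) ≤ wa a o + 8388608 := by exact_mod_cast h2
  rw [abs_le]
  constructor <;> linarith [h.1, h.2]

theorem InB.abs {b k : ℕ} (h : InB E b) (hk : k < 7) : |E.d k| ≤ wa b (64 * k) := abs_wa (h k hk)

theorem rng1 {z : ℕ → ℝ} {n a k : ℕ} (h : InF (fun k => z k + 8388608) n a) (hk : k < n) :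
    (fl a (64 * k) : ℝ) - (8388608 : ℕ) ≤ z k ∧ z k ≤ fl a (64 * k) - (8388608 : ℕ) + wd a (64 * k) := by
  have := h.wid hk
  push_cast
  constructor <;> linarith [this.1, this.2]

theorem rng2 {b k : ℕ} {s : ℝ} (h : InB E b) (hk : k < 7) (s0 : 0 ≤ s) (s1 : s ≤ 1) :
    (mn b (64 * k) : ℝ) - (8388608 : ℕ) ≤ s * E.d k ∧
      s * E.d k ≤ mn b (64 * k) - (8388608 : ℕ) + mw b (64 * k) := by
  obtain ⟨h1, h2⟩ := h k hk
  have a1 : mn b (64 * k) ≤ fl b (64 * k) ∧ mn b (64 * k) ≤ 8388608 := by rw [mn_eq]; omega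
  have a2 : fl (b >>> 32) (64 * k) ≤ mn b (64 * k) + mw b (64 * k) ∧ 8388608 ≤ mn b (64 * k) + mw b (64 * k) := by
    rw [mw_eq]; omega
  have b1 : (mn b (64 * k) : ℝ) ≤ fl b (64 * k) := by exact_mod_cast a1.1
  have b2 : (mn b (64 * k) : ℝ) ≤ 8388608 := by exact_mod_cast a1.2
  have b3 : (fl (b >>> 32) (64 * k) : ℝ) ≤ mn b (64 * k) + mw b (64 * k) := by exact_mod_cast a2.1
  have b4 : (8388608 : ℝ) ≤ mn b (64 * k) + mw b (64 * k) := by exact_mod_cast a2.2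
  push_cast
  dsimp only at h1 h2
  generalize (mn b (64 * k) : ℝ) = x at *
  generalize (mw b (64 * k) : ℝ) = y at *
  generalize (fl b (64 * k) : ℝ) = z at *
  generalize (fl (b >>> 32) (64 * k) : ℝ) = u at *
  constructor <;> nlinarith

theorem chi_le {b : ℕ} (h : InB E b) (t0 : 0 < E.t) (t1 : E.t ≤ 1) :
    |E.t * (E.d 0 * E.d 3 - E.d 2 * E.d 1)| ≤ iww b := by
  have a := abs_mul_le (h.abs (k := 0) (by norm_num)) (h.abs (k := 3) (by norm_num))
  have c := abs_mul_le (h.abs (k := 2) (by norm_num)) (h.abs (k := 1) (by norm_num))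
  have d := abs_sub (E.d 0 * E.d 3) (E.d 2 * E.d 1)
  rw [abs_mul, abs_of_pos t0, iww_eq]
  push_cast
  nlinarith [abs_nonneg (E.d 0 * E.d 3 - E.d 2 * E.d 1)]

/-- the block monomials divided by t -/
def qb (E : Env) (k : ℕ) : ℝ := E.t ^ (ti k - 1) * gv E (gi k)
def rL (b r k : ℕ) : ℕ := [1, 1, 0, fl b 0, mn b 0, fl b 64, mn b 64, fl b 128, mn b 128, fl b 192, mn b 192,
  fl b 256, mn b 256, mn b 256, fl b 320, mn b 320, mn b 320, fl b 384, mn b 384, mn b 384, fl r 0, fl r 64,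
  fl r 128, fl r 192, fl r 256, fl r 320, fl r 384, fl r 448, fl r 512, fl r 576,
  2305843009213693952 - iww b].getD k 0
def rW (b r k : ℕ) : ℕ := [0, 0, 1, wd b 0, mw b 0, wd b 64, mw b 64, wd b 128, mw b 128, wd b 192, mw b 192,
  wd b 256, mw b 256, mw b 256, wd b 320, mw b 320, mw b 320, wd b 384, mw b 384, mw b 384, wd r 0, wd r 64,
  wd r 128, wd r 192, wd r 256, wd r 320, wd r 384, wd r 448, wd r 512, wd r 576, 2 * iww b].getD k 0
def rD (k : ℕ) : ℕ := if k < 3 then 0 else if k < 30 then 8388608 else 2305843009213693952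

theorem r_le (b r : ℕ) : ∀ k < 30 + 1, rL b r k ≤ 2 ^ 62 ∧ rW b r k ≤ 2 ^ 62 ∧ rD k ≤ 2 ^ 62 := fun k hk => by
  have f1 : ∀ a o, fl a o ≤ 2 ^ 62 := fun a o => (fl_lt a o).le.trans (by norm_num)
  have f2 : ∀ a o, wd a o ≤ 2 ^ 62 := fun a o => (wd_lt a o).le.trans (by norm_num)
  have f3 : 2 * iww b ≤ 2 ^ 62 := by have := iww_le b; omega
  refine ⟨?_, ?_, by unfold rD; split_ifs <;> norm_num⟩
  · interval_cases k <;> simp only [rL, List.getD_cons_succ, List.getD_cons_zero] <;>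
      first | exact f1 _ _ | exact mn_le _ _ | omega
  · interval_cases k <;> simp only [rW, List.getD_cons_succ, List.getD_cons_zero] <;>
      first | exact f2 _ _ | exact mw_le _ _ | omega

theorem q_rng {b r : ℕ} (t0 : 0 < E.t) (t1 : E.t ≤ 1) (hb : InB E b) (hr : InR E r) : ∀ k < 30 + 1,
    (rL b r k : ℝ) - rD k ≤ qb E k ∧ qb E k ≤ rL b r k - rD k + rW b r k := fun k hk => by
  have a1 : ∀ j < 7, (fl b (64 * j) : ℝ) - (8388608 : ℕ) ≤ E.t ^ 0 * E.d j ∧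
      E.t ^ 0 * E.d j ≤ fl b (64 * j) - (8388608 : ℕ) + wd b (64 * j) := fun j hj => by
    rw [pow_zero, one_mul]; exact rng1 hb hj
  have a2 : ∀ j < 10, (fl r (64 * j) : ℝ) - (8388608 : ℕ) ≤ E.t ^ 0 * E.l j ∧
      E.t ^ 0 * E.l j ≤ fl r (64 * j) - (8388608 : ℕ) + wd r (64 * j) := fun j hj => by
    rw [pow_zero, one_mul]; exact rng1 hr hj
  have a3 := fun i j hj => rng2 (k := j) hb hj (pow_nonneg t0.le i) (pow_le_one₀ t0.le t1)
  have c := abs_le.1 (chi_le hb t0 t1)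
  have c2 : iww b ≤ 2305843009213693952 := iww_le b
  interval_cases k <;> simp only [rL, rD, rW, qb, ti, gi, gv, List.getD_cons_succ, List.getD_cons_zero,
    Nat.reduceLT, Nat.reduceSub, OfNat.ofNat_ne_zero, one_ne_zero, if_true, if_false]
  exacts [by simp, by simp, by simp [t0.le, t1],
    a1 0 (by norm_num), a3 1 0 (by norm_num), a1 1 (by norm_num), a3 1 1 (by norm_num),
    a1 2 (by norm_num), a3 1 2 (by norm_num), a1 3 (by norm_num), a3 1 3 (by norm_num),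
    a1 4 (by norm_num), a3 1 4 (by norm_num), a3 2 4 (by norm_num),
    a1 5 (by norm_num), a3 1 5 (by norm_num), a3 2 5 (by norm_num),
    a1 6 (by norm_num), a3 1 6 (by norm_num), a3 2 6 (by norm_num),
    a2 0 (by norm_num), a2 1 (by norm_num), a2 2 (by norm_num), a2 3 (by norm_num), a2 4 (by norm_num),
    a2 5 (by norm_num), a2 6 (by norm_num), a2 7 (by norm_num), a2 8 (by norm_num), a2 9 (by norm_num), by
      rw [Nat.cast_sub c2]
      push_cast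
      constructor <;> linarith [c.1, c.2]]

theorem r2_tt (c x y : ℕ) : r2 c x y = c * tt 640 ^ 2 + x * tt 640 ^ 1 + y := by
  rw [r2_eq, shl_tt (K := 640) _ (k := 2) rfl, shl_tt (K := 640) _ (k := 1) rfl]
theorem r3_tt (c x y : ℕ) : r3 c x y = c * tt 640 ^ 3 + x * tt 640 ^ 2 + y * tt 640 ^ 1 + y := by
  rw [r3_eq, shl_tt (K := 640) _ (k := 3) rfl, shl_tt (K := 640) _ (k := 2) rfl, shl_tt (K := 640) _ (k := 1) rfl]

theorem irl_rs (b r : ℕ) : irl b r = rs 640 (30 + 1) (rL b r) := by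
  rw [irl_eq, rlb_eq, pk7_eq, pk10_eq, shl_tt (K := 640) _ (k := 11) rfl, shl_tt (K := 640) _ (k := 1) rfl,
    show HL = tt 640 ^ 2 + tt 640 by decide +kernel]
  simp only [r2_tt, r3_tt, rs, sum_range_succ, sum_range_zero, rL, List.getD_cons_succ, List.getD_cons_zero,
    Nat.reduceAdd, Nat.reduceSub]
  ring

theorem irw_rs (b r : ℕ) : irw b r = rs 640 (30 + 1) (rW b r) := by
  rw [irw_eq, rwb_eq, pk7_eq, pk10_eq, shl_tt (K := 640) _ (k := 11) rfl, shl_tt (K := 640) _ (k := 1) rfl]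
  simp only [r2_tt, r3_tt, rs, sum_range_succ, sum_range_zero, rW, List.getD_cons_succ, List.getD_cons_zero,
    Nat.reduceAdd, Nat.reduceSub]
  ring

theorem isl_sum (b r : ℕ) : isl b r + (2 ^ 228 + 1) = 2 ^ 418 * ∑ k ∈ range (30 + 1), (rL b r k + rD k) := by
  have e : ∀ x y : ℕ, 1 ≤ x → x = y → x <<< 418 - ER1 + (2 ^ 228 + 1) = 2 ^ 418 * y := fun x y h e => by
    rw [show ER1 = 2 ^ 228 + 1 by decide +kernel, Nat.shiftLeft_eq, Nat.sub_add_cancel (by omega), mul_comm, e]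
  rw [isl_eq, slb_eq]
  refine e _ _ (by omega) ?_
  simp only [sum_range_succ, sum_range_zero, rL, rD, List.getD_cons_succ, List.getD_cons_zero, Nat.reduceLT,
    if_true, if_false]
  omega

theorem blk (y j : ℕ) : (y >>> (160 * j)) &&& MB = ns 640 31 fun k => di 160 y (4 * k + j) := by
  rw [show MB = ns 640 31 (fun _ => 2 ^ 160 - 1) by decide +kernel,
    land_ns _ (fun _ _ => lt_of_le_of_lt (Nat.sub_le _ _) (two_pow_lt_tt (by norm_num)))]
  refine ns_congr fun k _ => Nat.eq_of_testBit_eq fun i => ?_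
  simp only [Nat.testBit_and, testBit_di, Nat.testBit_two_pow_sub_one, Nat.testBit_shiftRight]
  rw [show 160 * j + (i + 640 * k) = i + 160 * (4 * k + j) by ring]
  by_cases hi : i < 160
  · simp [hi, show i < 640 by omega]
  · simp [hi]

theorem ns_add {K n : ℕ} (a c : ℕ → ℕ) : ns K n a + ns K n c = ns K n fun k => a k + c k := by
  simp only [ns, add_mul, sum_add_distrib]

theorem val_blk (m : ℕ → ℝ) (v : ℕ → ℤ) (n : ℕ) : val m (4 * n) v = ∑ k ∈ range n,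
    (v (4 * k) * m (4 * k) + v (4 * k + 1) * m (4 * k + 1) + v (4 * k + 2) * m (4 * k + 2) +
      v (4 * k + 3) * m (4 * k + 3)) := by
  induction n with
  | zero => simp [val]
  | succ n ih =>
    rw [sum_range_succ, ← ih, val, val, show 4 * (n + 1) = 4 * n + 1 + 1 + 1 + 1 by ring, sum_range_succ,
      sum_range_succ, sum_range_succ, sum_range_succ]
    ring

theorem mz_blk (k j : ℕ) (hj : j < 4) : mz E (4 * k + j) = gphi ^ j * (E.t ^ ti k * gv E (gi k)) := by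
  rw [mz, show (4 * k + j) % 4 = j by omega, show (4 * k + j) / 4 = k by omega]

theorem land_MKB (a : ℕ) : a &&& MKB = a % tt 640 := by
  rw [show MKB = 2 ^ 640 - 1 by decide +kernel, Nat.and_two_pow_sub_one_eq_mod, tt]

theorem ifin_sound {b r A : ℕ} {x : ℝ} (t0 : 0 < E.t) (t1 : E.t ≤ 1) (hb : InB E b) (hr : InR E r)
    (hA : Ub (mz E) 124 A x) (h : ifin b r A = 0) : x < 0 := by
  rw [ifin_eq, Nat.add_eq_zero_iff] at h
  obtain ⟨w, hw, -, hx⟩ := hA.bia (b := 158) (c := 157) (by norm_num) (by norm_num) (shr_tt h.1 (by norm_num))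
  rw [← show BIV = 2 ^ 158 * on 160 124 by decide +kernel] at hw
  replace h := h.2
  generalize A + BIV = y at h hw
  have e0 := blk y 0
  rw [mul_zero, Nat.shiftRight_zero] at e0
  rw [fn0_eq, fn1_eq, fn2i_eq, e0, blk y 1, blk y 2, blk y 3, ns_add, ns_add, ns_add, ns_add,
    Nat.shiftLeft_eq, ns_mul, ns_mul, show ZB = ns 640 31 (fun _ => ZB % tt 640) by decide +kernel, ns_add,
    ns_add] at h
  obtain ⟨z0, ez, eZ⟩ : ∃ z0 : ℕ, ZB % tt 640 = z0 ∧ z0 + 2 ^ 158 * (3 * 2 ^ 256 + 4 * PHS) = 2 ^ 418 :=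
    ⟨_, rfl, by decide +kernel⟩
  have pl : PHS < 2 ^ 257 := by decide +kernel
  obtain ⟨p1, p2⟩ := phi_S
  rw [ez] at h
  generalize PHS = Φ at *
  have pl' : (Φ : ℤ) ≤ 2 ^ 257 := by omega
  set a : ℕ → ℤ := fun k => w (4 * k) + w (4 * k + 2) + w (4 * k + 3) with ha
  set c : ℕ → ℤ := fun k => w (4 * k + 1) + w (4 * k + 2) + 2 * w (4 * k + 3) with hc
  set Y : ℕ → ℕ := fun k => di 160 y (4 * k + 1) + (di 160 y (4 * k + 2) + di 160 y (4 * k + 3)) +
    di 160 y (4 * k + 3) with hY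
  set Z : ℕ → ℕ := fun k => (di 160 y (4 * k + 0) + (di 160 y (4 * k + 2) + di 160 y (4 * k + 3))) * 2 ^ 256 +
    Y k * Φ + z0 with hZ
  have k1 : ∀ k < 31, (Y k : ℤ) = c k + 2 ^ 160 ∧ |c k| < 2 ^ 160 ∧
      (Z k : ℤ) = a k * 2 ^ 256 + c k * Φ + 2 ^ 418 ∧ |a k * 2 ^ 256 + c k * Φ| < 2 ^ 418 := fun k hk => by
    obtain ⟨a0, b0⟩ := hw (4 * k) (by omega)
    obtain ⟨a1, b1⟩ := hw (4 * k + 1) (by omega)
    obtain ⟨a2, b2⟩ := hw (4 * k + 2) (by omega)
    obtain ⟨a3, b3⟩ := hw (4 * k + 3) (by omega)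
    rw [abs_lt] at b0 b1 b2 b3
    have y1 : (Y k : ℤ) = c k + 2 ^ 160 := by simp only [hY, hc]; push_cast; linarith
    have y2 : |c k| < 2 ^ 160 := by simp only [hc]; rw [abs_lt]; constructor <;> linarith
    have y3 : |c k * Φ| ≤ 2 ^ 160 * 2 ^ 257 := by
      rw [abs_mul, Nat.abs_cast]
      exact mul_le_mul y2.le pl' (Nat.cast_nonneg _) (by norm_num)
    refine ⟨y1, y2, ?_, ?_⟩
    · have : ((z0 + 2 ^ 158 * (3 * 2 ^ 256 + 4 * Φ) : ℕ) : ℤ) = ((2 ^ 418 : ℕ) : ℤ) := by rw [eZ]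
      simp only [hZ, ha]
      push_cast at this ⊢
      rw [y1, add_zero, a0, a2, a3]
      linarith
    · rw [abs_le] at y3
      simp only [ha]
      rw [abs_lt]
      constructor <;> linarith [y3.1, y3.2]
  have t4 : (tt 640 : ℤ) = 2 ^ 640 := by rw [tt]; norm_num
  have zl : ∀ k < 31, Z k < tt 640 := fun k hk => by
    have := abs_lt.1 (k1 k hk).2.2.2
    zify
    rw [t4, (k1 k hk).2.2.1]
    linarith [this.2]
  have yl : ∀ k < 31, Y k < tt 640 := fun k hk => by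
    have := abs_lt.1 (k1 k hk).2.1
    zify
    rw [t4, (k1 k hk).1]
    linarith [this.2]
  rw [fn3_eq, Nat.add_eq_zero_iff, fn4_eq, land_MKB, land_MKB, land_MKB] at h
  obtain ⟨h1, h2⟩ := h
  have d0 : ∀ X, X % tt 640 = di 640 X 0 := fun X => by simp [di]
  rw [d0, d0, di_ns0 zl (by norm_num), di_ns0 yl (by norm_num), show BB4 = 2 ^ 160 by decide +kernel,
    show CPV = 2 ^ 418 by decide +kernel] at h1
  have B := bound3 (K := 640) (n := 30) (c := 418) (X := ns 640 31 Z) (v := fun k => a k * 2 ^ 256 + c k * Φ)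
    (by norm_num) (fun k hk => ⟨by rw [di_ns0 zl hk]; exact (k1 k hk).2.2.1, (k1 k hk).2.2.2⟩) (ns_lt zl)
    (r_le b r) (q_rng t0 t1 hb hr) (by decide +kernel)
  rw [irl_rs, irw_rs, show RD = rs 640 (30 + 1) rD by decide +kernel,
    show ONB = ns 640 (30 + 1) (fun _ => 1) by decide +kernel, show CPM = 2 ^ 418 - 1 by decide +kernel,
    show ZC = 2 ^ (418 + 1) * on 640 (30 + 1) by decide +kernel, Nat.shiftRight_eq_div_pow,
    show 2 ^ 19200 = tt 640 ^ 30 by decide +kernel, ← di, Nat.sub_eq_zero_iff_le] at h2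
  have h3 := isl_sum b r
  generalize di 640 _ 30 = D at B h2
  have h4 : (D : ℝ) + (2 ^ 228 + 1) ≤ 2 ^ 418 * ∑ k ∈ range (30 + 1), ((rL b r k + rD k : ℕ) : ℝ) := by
    have : D + (2 ^ 228 + 1) ≤ 2 ^ 418 * ∑ k ∈ range (30 + 1), (rL b r k + rD k) := by omega
    exact_mod_cast this
  have g0 : (a 0 : ℝ) + c 0 * gphi ≤ 0 := by
    obtain ⟨y1, -, y3, -⟩ := k1 0 (by norm_num)
    have s1 : a 0 * 2 ^ 256 + c 0 * Φ ≤ 0 ∧ a 0 * 2 ^ 256 + c 0 * Φ + c 0 ≤ 0 := by omega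
    have s2 : (a 0 : ℝ) * 2 ^ 256 + c 0 * Φ ≤ 0 := by exact_mod_cast s1.1
    have s3 : (a 0 : ℝ) * 2 ^ 256 + c 0 * Φ + c 0 ≤ 0 := by exact_mod_cast s1.2
    rcases le_total (c 0 : ℝ) 0 with s | s
    · linarith [mul_le_mul_of_nonpos_left p1 s]
    · linarith [mul_le_mul_of_nonneg_left p2 s]
  have g1 : 2 ^ 256 * ∑ k ∈ range 31, ((a k : ℝ) + c k * gphi) * qb E k ≤
      val (qb E) 31 (fun k => a k * 2 ^ 256 + c k * Φ) + ∑ _k ∈ range 31, (2 ^ 160 * 2 ^ 63 : ℝ) := by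
    rw [val, mul_sum, ← sum_add_distrib]
    refine sum_le_sum fun k hk => ?_
    rw [mem_range] at hk
    have s1 : |(c k : ℝ)| ≤ 2 ^ 160 := by
      have := (k1 k hk).2.1.le
      generalize c k = u at this
      exact_mod_cast this
    have s2 : |qb E k| ≤ 2 ^ 63 := by
      obtain ⟨q1, q2⟩ := q_rng t0 t1 hb hr k hk
      obtain ⟨r1, r2, r3⟩ := r_le b r k hk
      have r1 : (rL b r k : ℝ) ≤ 2 ^ 62 := by exact_mod_cast r1
      have r2 : (rW b r k : ℝ) ≤ 2 ^ 62 := by exact_mod_cast r2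
      have r3 : (rD k : ℝ) ≤ 2 ^ 62 := by exact_mod_cast r3
      have := Nat.cast_nonneg (α := ℝ) (rL b r k)
      have := Nat.cast_nonneg (α := ℝ) (rD k)
      rw [abs_le]
      constructor <;> linarith
    have s3 := (le_abs_self _).trans (abs_mul_le (abs_mul_le s1 s2)
      (show |2 ^ 256 * gphi - Φ| ≤ 1 by rw [abs_le]; constructor <;> linarith))
    push_cast
    linarith
  have g2 : val (mz E) 124 w = (1 - E.t) * (a 0 + c 0 * gphi) +
      E.t * ∑ k ∈ range 31, ((a k : ℝ) + c k * gphi) * qb E k := by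
    have e3 : gphi ^ 3 = 2 * gphi + 1 := by rw [pow_succ, phi_sq]; linarith [phi_sq]
    have : ∀ k ∈ range 31, w (4 * k) * mz E (4 * k) + w (4 * k + 1) * mz E (4 * k + 1) +
        w (4 * k + 2) * mz E (4 * k + 2) + w (4 * k + 3) * mz E (4 * k + 3) =
        ((a k : ℝ) + c k * gphi) * (E.t ^ ti k * gv E (gi k)) := fun k _ => by
      have := mz_blk (E := E) k 0 (by norm_num)
      rw [add_zero] at this
      rw [this, mz_blk k 1 (by norm_num), mz_blk k 2 (by norm_num), mz_blk k 3 (by norm_num), e3, phi_sq]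
      simp only [ha, hc]
      push_cast
      ring
    have t2 : ∀ k ∈ range 30, ((a (k + 1) : ℝ) + c (k + 1) * gphi) * (E.t ^ ti (k + 1) * gv E (gi (k + 1))) =
        E.t * (((a (k + 1) : ℝ) + c (k + 1) * gphi) * qb E (k + 1)) := fun k hk => by
      have := (by decide : ∀ k < 30, 1 ≤ ti (k + 1)) k (mem_range.1 hk)
      obtain ⟨u, hu⟩ := Nat.exists_eq_add_of_le' this
      rw [qb, hu, pow_succ, Nat.add_sub_cancel]
      ring
    rw [show 124 = 4 * 31 from rfl, val_blk, sum_congr rfl this, sum_range_succ' _ 30, sum_range_succ' _ 30,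
      sum_congr rfl t2, ← mul_sum]
    simp only [qb, show ti 0 = 0 from rfl, show gi 0 = 0 from rfl, show gv E 0 = 1 from rfl]
    ring
  have g3 : ∑ k ∈ range 31, ((a k : ℝ) + c k * gphi) * qb E k < 0 := by
    rw [sum_const, card_range, nsmul_eq_mul, Nat.cast_ofNat] at g1
    rw [show 30 + 1 = 31 from rfl] at B h4
    linarith
  linarith [mul_nonneg (sub_nonneg.2 t1) (neg_nonneg.2 g0), mul_pos t0 (neg_pos.2 g3)]

end

end Pool.Agent.Lib.MP_9d820d_co.IFast
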