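import Pool.Agent.Lib.MP_9d820d_co.IQm

set_option autoImplicit false
set_option exponentiation.threshold 30000

namespace Pool.Agent.Lib.MP_9d820d_co.IFast

open Finset
open Fast (shr_zero InF fl wd land_lt adf adf_eq adf_sq dl dl_cx dl_swap dl_self QM GOK lam cr3_swap cr3_swap')

noncomputable section

/-- the monomials of the high digits -/
def mh (P : Prm) (E : Env) (p q : ℝ × ℝ) : ℕ → ℝ
  | 0 => mz E 0 * (Sr * p.1)
  | 1 => mz E 1 * (Sr * p.1)
  | 4 => mz E 4 * (Sr * p.1)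
  | 28 => mz E 28 * (Sr * p.1)
  | 36 => mz E 36 * (Sr * p.1)
  | 2 => mz E 0 * (Sr * q.1)
  | 3 => mz E 1 * (Sr * q.1)
  | 6 => mz E 4 * (Sr * q.1)
  | 30 => mz E 28 * (Sr * q.1)
  | 38 => mz E 36 * (Sr * q.1)
  | 7 => mz E 0 * (Sr * p.2)
  | 8 => mz E 1 * (Sr * p.2)
  | 11 => mz E 4 * (Sr * p.2)
  | 19 => mz E 12 * (Sr * p.2)
  | 27 => mz E 20 * (Sr * p.2)
  | 9 => mz E 0 * (Sr * q.2)
  | 10 => mz E 1 * (Sr * q.2)
  | 13 => mz E 4 * (Sr * q.2)
  | 21 => mz E 12 * (Sr * q.2)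
  | 29 => mz E 20 * (Sr * q.2)
  | 5 => dl P p q
  | 12 => Sr * p.1 * (Sr * q.2) - Sr * p.2 * (Sr * q.1)
  | 14 => dl P (P.V 0) p
  | 15 => dl P (P.V 1) p
  | 16 => dl P (P.V 2) p
  | 17 => dl P (P.V 3) p
  | 18 => dl P (P.V 4) p
  | 22 => dl P (P.V 0) q
  | 23 => dl P (P.V 1) q
  | 24 => dl P (P.V 2) q
  | 25 => dl P (P.V 3) q
  | 26 => dl P (P.V 4) q
  | _ => 0

def mo (P : Prm) (E : Env) (p q : ℝ × ℝ) (k : ℕ) : ℝ := if k < 124 then mz E k else mh P E p q (k - 124)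
def AH : ℕ := 2 ^ 163 - 1
theorem AH_lt : AH < 2 ^ 163 := by decide +kernel
def FitL (P : Prm) (E : Env) : Prop := ∀ j ≤ 9, lenJ P j = bR j + E.t * E.l j
def FaOK (E : Env) (fa : ℕ) : Prop := ∀ i, Ub (mz E) 124 (ien fa i) 0

def xT (c : ℕ) : List (ℤ × ℕ) :=
  [[], [], [], [], [], [], [], [], [], [], [(281474842492944, 0), (-281474842492944, 1), (8388606, 12), (16777212,
  28)], [(-281474842492944, 0), (-8388606, 12), (16777212, 28)], [(-562949684985888, 1), (281474842492944, 2),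
  (-8388606, 13), (-8388606, 21), (33554424, 28), (-16777212, 29), (-33554424, 36), (16777212, 37), (-1, 120)],
  [(-8388606, 125), (-33554424, 131), (16777212, 132), (-1, 143), (1, 152)], [(-8388606, 127), (-33554424, 133),
  (16777212, 134), (-1, 145), (1, 154)], [], [], [(-281474842492944, 0), (281474842492944, 1), (-8388606, 12),
  (-16777212, 28)], [], [(-281474842492944, 0)], [(-281474842492944, 0), (-8388606, 20), (-16777212, 36)],
  [(-8388606, 124), (-16777212, 131)], [(-8388606, 126), (-16777212, 133)], [], [], [(281474842492944, 0), (8388606,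
  12), (-16777212, 28)], [(281474842492944, 0)], [], [(281474842492944, 0), (-281474842492944, 1), (8388606, 20),
  (-16777212, 36)], [(8388606, 124), (-16777212, 131)], [(8388606, 126), (-16777212, 133)], [], [],
  [(562949684985888, 1), (-281474842492944, 2), (8388606, 13), (8388606, 21), (-33554424, 28), (16777212, 29),
  (33554424, 36), (-16777212, 37), (1, 120)], [(281474842492944, 0), (8388606, 20), (16777212, 36)],
  [(-281474842492944, 0), (281474842492944, 1), (-8388606, 20), (16777212, 36)], [], [(8388606, 125), (-33554424,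
  131), (16777212, 132), (-1, 151), (1, 160)], [(8388606, 127), (-33554424, 133), (16777212, 134), (-1, 153), (1,
  162)], [], [], [(8388606, 125), (33554424, 131), (-16777212, 132), (1, 143), (-1, 152)], [(8388606, 124),
  (16777212, 131)], [(-8388606, 124), (16777212, 131)], [(-8388606, 125), (33554424, 131), (-16777212, 132), (1,
  151), (-1, 160)], [], [(-1, 136)], [], [], [(8388606, 127), (33554424, 133), (-16777212, 134), (1, 145), (-1,
  154)], [(8388606, 126), (16777212, 133)], [(-8388606, 126), (16777212, 133)], [(-8388606, 127), (33554424, 133),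
  (-16777212, 134), (1, 153), (-1, 162)], [(1, 136)], [], [], [], [], [], [], [], [], [], []].getD c []
def pL (c : ℕ) : ℕ :=
  [144, 80, 84, 88, 92, 138, 146, 144, 80, 144, 96, 100, 104, 139, 147, 80, 84, 96, 144, 108, 112, 140, 148, 84, 88,
  100, 108, 144, 116, 141, 149, 88, 92, 104, 112, 116, 144, 142, 150, 92, 138, 139, 140, 141, 142, 144, 129, 138,
  146, 147, 148, 149, 150, 129, 144, 146, 144, 80, 84, 88, 92, 138, 146, 144].getD c 0
def lT (c : ℕ) : List (ℤ × ℕ) :=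
  if pL c < 124 then if (665 >>> ((pL c - 80) / 4)) &&& 1 = 0 then [(1, pL c), (16777212, 0)]
    else [(1, pL c), (16777212, 1), (-16777212, 0)] else [(1, pL c)]

variable {P : Prm} {E : Env} {p q : ℝ × ℝ}

theorem xx_tab : ∀ a < 8, ∀ b < 8, lOK AH (xT (a + 8 * b)) (xx a b - XSG) (2 ^ 52) := by decide +kernel
theorem lp_tab : ∀ a < 8, ∀ b < 8, lOK AH (lT (a + 8 * b)) (ilp a b) (2 ^ 26) := by decide +kernel

theorem xx_val (F : Fit P E) {a b : ℕ} (ha : a < 8) (hb : b < 8) : lr (mo P E p q) (xT (a + 8 * b)) =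
    Sr * (P.pt p q a).1 * (Sr * (P.pt p q b).2) - Sr * (P.pt p q a).2 * (Sr * (P.pt p q b).1) := by
  interval_cases a <;> interval_cases b <;>
    simp only [xT, List.getD_cons_succ, List.getD_cons_zero, Nat.reduceMul, Nat.reduceAdd, lr_cons, lr_nil, mo,
      Nat.reduceLT, if_true, if_false, Nat.reduceSub, mh, mz0, mz1, mz2, mz12, mz13, mz20, mz21, mz28, mz29, mz36,
      mz37, mz120, Prm.pt, F.x1, F.x4, F.y1, F.y4] <;> (try simp only [Sr]) <;> (try push_cast) <;> ring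

theorem mz_l {j : ℕ} (hj : j ≤ 9) : mz E (80 + 4 * j) = E.t * E.l j := by
  interval_cases j <;> simp [mz, ti, gi, gv]

theorem lp_lo (L : FitL P E) {c j : ℕ} (hj : j ≤ 9) (e : pL c = 80 + 4 * j) : lr (mo P E p q) (lT c) = lenJ P j := by
  have m : ∀ k < 124, mo P E p q k = mz E k := fun k hk => if_pos hk
  rw [lT, e, if_pos (by omega), show (80 + 4 * j - 80) / 4 = j by omega, L j hj, bR]
  split_ifs <;> simp only [lr_cons, lr_nil, m _ (show 80 + 4 * j < 124 by omega), m 0 (by norm_num), m 1 (by norm_num),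
    mz_l hj, mz0, mz1] <;> push_cast <;> ring

theorem lp_hi {c : ℕ} (e : 124 ≤ pL c) : lr (mo P E p q) (lT c) = mh P E p q (pL c - 124) := by
  rw [lT, if_neg (by omega), lr_cons, lr_nil, mo, if_neg (by omega)]
  simp

theorem lp_val (L : FitL P E) {a b : ℕ} (ha : a < 8) (hb : b < 8) :
    lr (mo P E p q) (lT (a + 8 * b)) = dl P (P.pt p q a) (P.pt p q b) := by
  by_cases h : pL (a + 8 * b) < 124
  · have := (by decide : ∀ a < 8, ∀ b < 8, pL (a + 8 * b) < 124 →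
      (pL (a + 8 * b) - 80) / 4 ≤ 9 ∧ pL (a + 8 * b) = 80 + 4 * ((pL (a + 8 * b) - 80) / 4)) a ha b hb h
    rw [lp_lo L this.1 this.2]
    clear this
    interval_cases a <;> interval_cases b <;> first | rfl | exact dl_swap _ _ | exact absurd h (by decide)
  · rw [lp_hi (not_lt.1 h)]
    interval_cases a <;> interval_cases b <;>
      first | exact absurd (by decide) h | rfl | exact dl_swap _ _ | exact dl_self _

theorem xx_ub (F : Fit P E) {a b : ℕ} (ha : a < 8) (hb : b < 8) : Ub (mo P E p q) 163 (xx a b)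
    (Sr * (P.pt p q a).1 * (Sr * (P.pt p q b).2) - Sr * (P.pt p q a).2 * (Sr * (P.pt p q b).1)) := by
  rw [← xx_val F ha hb]
  exact (SP.list _ (xx_tab a ha b hb)).ub0 (2 ^ 52) AH_lt (by norm_num)
    (by rw [show (XSG : ℤ) = (2 ^ 52 : ℕ) * (tt 160 : ℤ) ^ 163 by decide +kernel]; ring)

theorem cr_ub (F : Fit P E) {a b c : ℕ} (ha : a < 8) (hb : b < 8) (hc : c < 8) :
    Ub (mo P E p q) 163 (icr a b c) (Sr ^ 2 * cr3 (P.pt p q a) (P.pt p q b) (P.pt p q c)) := by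
  rw [icr_eq]
  refine (((xx_ub F ha hb).add (xx_ub F hb hc)).add (xx_ub F hc ha)).mono (le_of_eq ?_)
  simp only [cr3, crs]
  ring

theorem LSG_eq : (LSG : ℤ) = (2 ^ 26 : ℕ) * (tt 160 : ℤ) ^ 163 := by decide +kernel

theorem lp_up (L : FitL P E) {a b : ℕ} (ha : a < 8) (hb : b < 8) :
    Ub (mo P E p q) 163 (LSG + ilp a b) (dl P (P.pt p q a) (P.pt p q b)) := by
  rw [← lp_val L ha hb]
  exact (SP.list _ (lp_tab a ha b hb)).ub0 (2 ^ 26) AH_lt (by norm_num) (by rw [Nat.cast_add, LSG_eq]; ring)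

theorem lp_un (L : FitL P E) {a b : ℕ} (ha : a < 8) (hb : b < 8) :
    Ub (mo P E p q) 163 (LSG - ilp a b) (-dl P (P.pt p q a) (P.pt p q b)) := by
  rw [← lp_val L ha hb]
  exact (SP.list _ (lp_tab a ha b hb)).neg.ub (2 ^ 26) AH_lt (by norm_num) (by rw [LSG_eq]; ring)

theorem itg_ub (F : Fit P E) (L : FitL P E) {i j h : ℕ} (s : ℕ) (hi : i < 8) (hj : j < 8) (hh : h < 8)
    (g : Lg P.al P.be P.ga (P.pt p q i) (P.pt p q j) (P.pt p q h)) : Ub (mo P E p q) 163 (itg i j h s) 0 := by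
  obtain ⟨g1, g2, g3⟩ := g
  have g1 := abs_le.1 g1
  rw [itg_eq]
  cases Nat.ble s 1
  · refine Ub.nn _ ?_
    cases Nat.beq s 2
    · refine ((lp_up L hi hj).add (lp_un L hj hh)).mono ?_
      simp only [dl, Sr]
      linarith
    · refine ((lp_up L hi hj).add (lp_un L hi hh)).mono ?_
      simp only [dl, Sr]
      linarith
  · cases Nat.beq s 0
    · refine (((lp_up L hi hj).mul _).add ((cr_ub F hj hi hh).mul _)).mono ?_
      rw [cr3_swap]
      simp only [dl, Sr]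
      push_cast
      linarith [g1.2]
    · refine (((lp_up L hi hj).mul _).add ((cr_ub F hi hj hh).mul _)).mono ?_
      simp only [dl, Sr]
      push_cast
      linarith [g1.1]

section
variable (hP : P.ok) (F : Fit P E) (hp : p ∈ P.X) (hq : q ∈ P.X)
include hP F hp hq

theorem iar_ub (i j : ℕ) {h : ℕ} (hh : h < 8) : Ub (mo P E p q) 163 (iar i j h) 0 := by
  rw [iar_eq]
  cases e1 : Nat.beq ((i - 4) + (j - 4)) 0
  · exact Ub.zero
  cases e2 : Nat.beq i j
  on_goal 2 => exact Ub.zero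
  have h1 := beq_sp e1
  have c := area_ineq (p := p) (q := q) hP (pt_mem hP hp hq h) (i := i) (j := j) (by omega) (by omega) (beq_ns e2)
  have m : ∀ a : ℕ, a % 5 < 8 := fun a => by omega
  refine Ub.nn _ ?_
  have s2 := pow_pos Sr_pos 2
  cases e3 : Nat.beq j ((i + 4) % 5)
  · refine ((cr_ub F (m _) (by omega) (m _)).add (cr_ub F (by omega) (m _) hh)).mono ?_
    have e4 : Nat.beq j (Nat.mod (Nat.add i 4) 5) = false := e3
    rw [e4, cnd_false] at c
    rw [cr3_swap' _ (P.pt p q h)]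
    exact (mul_nonneg s2.le (sub_nonneg.2 c)).trans (le_of_eq (by rw [mul_sub, mul_neg]; rfl))
  · refine ((cr_ub F (m _) (by omega) (m _)).add (cr_ub F (by omega) (m _) hh)).mono ?_
    have e4 : Nat.beq j (Nat.mod (Nat.add i 4) 5) = true := e3
    rw [e4, cnd_true] at c
    rw [cr3_swap' _ (P.pt p q h)]
    exact (mul_nonneg s2.le (sub_nonneg.2 c)).trans (le_of_eq (by rw [mul_sub, mul_neg]; rfl))

theorem ita_ub (i j s : ℕ) {h : ℕ} (hh : h < 8) : Ub (mo P E p q) 163 (ita i j h s) 0 := by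
  rw [ita_eq]
  cases Nat.beq s 0
  on_goal 2 => exact iar_ub hP F hp hq i j hh
  have h1 := land_lt i 2 (m := 3) (by norm_num)
  generalize i &&& 3 = a at *
  obtain ⟨c1, c2⟩ := max_ineq (p := p) (q := q) hP (i := a) h1
  have m : ∀ a : ℕ, a % 5 < 8 := fun a => by omega
  have s2 := pow_pos Sr_pos 2
  cases Nat.beq s 1
  · exact Ub.nn _ ((cr_ub F (by omega) (m _) (m _)).mono (mul_nonneg s2.le c1))
  · have u : Ub (mo P E p q) 163 IS3 (((4722363105170729992128 : ℕ) : ℝ) * mo P E p q 0) := by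
      rw [show IS3 = 4722363105170729992128 * (tt 160 ^ 163 + tt 160 ^ 0) by decide +kernel]
      exact (Ub.up (by norm_num)).mul _
    refine (u.add ((cr_ub F (by omega) (m _) (m _)).mul _)).mono ?_
    rw [cr3_swap']
    change cr3 (P.pt p q (a + 1)) (P.pt p q ((a + 1 + 2) % 5)) (P.pt p q ((a + 1 + 3) % 5)) ≤ 1 at c2
    rw [show mo P E p q 0 = 1 from mz0, Sr]
    norm_num
    linarith

variable (L : FitL P E) {g : ℕ} (hg : GOK P p q g)
include L hg

theorem ist_ub (c : ℕ) : Ub (mo P E p q) 163 (((g >>> (c &&& 1023)) &&& 1) * ist c) 0 := by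
  have l : ∀ a : ℕ, a &&& 7 < 8 := fun a => land_lt a 3 (by norm_num)
  rw [ist_eq]
  cases e : Nat.beq ((c >>> 9) &&& 1) 0
  · exact Ub.nn _ (ita_ub hP F hp hq _ _ _ (l _))
  cases e2 : g.testBit (c &&& 1023)
  · have : (g >>> (c &&& 1023)) &&& 1 = 0 := by
      rw [Nat.testBit, Nat.and_comm] at e2
      simpa using e2
    rw [this, zero_mul]
    exact Ub.zero
  refine Ub.nn _ (itg_ub F L _ (l _) (l _) (l _) (hg _ (l _) _ (l _) _ (l _) ?_))
  have e := beq_sp e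
  have m : ∀ a : ℕ, a &&& 7 = a % 8 := fun a => Nat.and_two_pow_sub_one_eq_mod a 3
  rw [Nat.and_one_is_mod, Nat.shiftRight_eq_div_pow] at e
  rw [← e2, m, m, m, show c &&& 1023 = c % 1024 from Nat.and_two_pow_sub_one_eq_mod c 10,
    Nat.shiftRight_eq_div_pow, Nat.shiftRight_eq_div_pow]
  congr 1
  omega

variable (nb m s r : ℕ)

theorem is1_ub {k : ℕ → ℕ} (hk : ∀ w, Ub (mo P E p q) 163 (k w) 0) (w : ℕ) :
    Ub (mo P E p q) 163 (is1 g nb m s r k w) 0 := by
  rw [is1_eq]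
  cases (w >>> nb) &&& 4095 with
  | zero => exact Ub.zero
  | succ c =>
    refine Ub.add0 ?_ (hk _)
    rw [mul_assoc]
    exact Ub.nn _ (ist_ub hP F hp hq L hg c)

theorem iss_ub (w : ℕ) : Ub (mo P E p q) 163 (iss g nb m s r w) 0 := by
  have s1 := @is1_ub _ _ _ _ hP F hp hq L _ hg nb m s r
  have s2 : ∀ k, (∀ w, Ub (mo P E p q) 163 (k w) 0) → ∀ w, Ub (mo P E p q) 163 (is2 g nb m s r k w) 0 :=
    fun _ h => s1 (s1 h)
  have s4 : ∀ k, (∀ w, Ub (mo P E p q) 163 (k w) 0) → ∀ w, Ub (mo P E p q) 163 (is4 g nb m s r k w) 0 :=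
    fun _ h => s2 _ (s2 _ h)
  have s8 : ∀ k, (∀ w, Ub (mo P E p q) 163 (k w) 0) → ∀ w, Ub (mo P E p q) 163 (is8 g nb m s r k w) 0 :=
    fun _ h => s4 _ (s4 _ h)
  exact s1 (s2 _ (s4 _ (s8 _ (s8 _ fun _ => Ub.zero)))) w

end

theorem ifs_ub {fa : ℕ} (h : FaOK E fa) (nb m s r n w : ℕ) : Ub (mz E) 124 (ifs fa nb m s r n w) 0 := by
  rw [ifs_eq]
  induction n generalizing w with
  | zero => exact Ub.zero
  | succ n ih => exact Ub.add0 (Ub.nn _ (h _)) (ih _)

theorem bitX {e : ℕ} (h : (1052691 : ℕ).testBit e = true) : e = 0 ∨ e = 1 ∨ e = 4 ∨ e = 12 ∨ e = 20 :=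
  (by decide : ∀ e < 21, (1052691 : ℕ).testBit e = true → e = 0 ∨ e = 1 ∨ e = 4 ∨ e = 12 ∨ e = 20) e
    (lt_of_bit (by norm_num) h) h
theorem bitY {e : ℕ} (h : (68987912211 : ℕ).testBit e = true) : e = 0 ∨ e = 1 ∨ e = 4 ∨ e = 28 ∨ e = 36 :=
  (by decide : ∀ e < 37, (68987912211 : ℕ).testBit e = true → e = 0 ∨ e = 1 ∨ e = 4 ∨ e = 28 ∨ e = 36) e
    (lt_of_bit (by norm_num) h) h

/-- the windows jx jy of the valuation m belong to the point z -/
def Win (E : Env) (m : ℕ → ℝ) (z : ℝ × ℝ) (jx jy : ℕ) : Prop :=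
  (∀ e, (1052691 : ℕ).testBit e = true → AH.testBit (e + jx) = true ∧ m (e + jx) = mz E e * (Sr * z.2)) ∧
  ∀ e, (68987912211 : ℕ).testBit e = true → AH.testBit (e + jy) = true ∧ m (e + jy) = mz E e * (Sr * z.1)

theorem win5 : Win E (mo P E p q) p 131 124 :=
  ⟨fun e h => by rcases bitX h with rfl | rfl | rfl | rfl | rfl <;> exact ⟨by decide +kernel, rfl⟩,
    fun e h => by rcases bitY h with rfl | rfl | rfl | rfl | rfl <;> exact ⟨by decide +kernel, rfl⟩⟩
theorem win6 : Win E (mo P E p q) q 133 126 :=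
  ⟨fun e h => by rcases bitX h with rfl | rfl | rfl | rfl | rfl <;> exact ⟨by decide +kernel, rfl⟩,
    fun e h => by rcases bitY h with rfl | rfl | rfl | rfl | rfl <;> exact ⟨by decide +kernel, rfl⟩⟩

/-- x - a and y - c are the coordinates of the direction e -/
def Dir (E : Env) (x y a c : ℕ) (e : ℝ × ℝ) : Prop :=
  SP (mz E) 1052691 ((x : ℤ) - a) e.1 (5 * 2 ^ 56) ∧ SP (mz E) 68987912211 ((y : ℤ) - c) e.2 (5 * 2 ^ 56)

theorem Dir.neg {x y a c : ℕ} {e : ℝ × ℝ} (h : Dir E x y a c e) : Dir E a c x y (-e) :=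
  ⟨h.1.neg.cg (by ring) rfl le_rfl, h.2.neg.cg (by ring) rfl le_rfl⟩

theorem dr2_ub {m : ℕ → ℝ} {z e : ℝ × ℝ} {jx jy ox oy x y a c : ℕ} (W : Win E m z jx jy) (ex : ox = 160 * jx)
    (ey : oy = 160 * jy) (h : Dir E x y a c e) : Ub m 163 (dr2 ox oy x y a c) (Sr * crs e z) := by
  rw [dr2_eq]
  refine (((h.1.map W.1).sub (h.2.map W.2)).ub (2 ^ 60) AH_lt (by norm_num) ?_).mono (le_of_eq ?_)
  · rw [shl_tt (K := 160) _ ex, shl_tt (K := 160) _ ex, shl_tt (K := 160) _ ey, shl_tt (K := 160) _ ey]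
    push_cast
    rw [show (DS : ℤ) = 2 ^ 60 * (tt 160 : ℤ) ^ 163 by decide +kernel]
    ring
  · rw [crs]
    ring

theorem dir_ok {xa xb xe ya yb ye c1 c4 : ℕ} (h1 : xa < 2 ^ 57) (h2 : xb < 2 ^ 57) (h3 : xe < 2 ^ 57)
    (h4 : ya < 2 ^ 57) (h5 : yb < 2 ^ 57) (h6 : ye < 2 ^ 57) (h7 : c1 < 2 ^ 57) (h8 : c4 < 2 ^ 57) :
    Dir E (xa + xb <<< 160 + xe <<< 640 + c1 <<< 1920 + c4 <<< 3200)
      (ya + yb <<< 160 + ye <<< 640 + c1 <<< 4480 + c4 <<< 5760) OEX OEY
      (cx5 E xa xb xe c1 c4 0 1, cx5 E ya yb ye c1 c4 2 3) := by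
  have a : ∀ x : ℕ, x < 2 ^ 57 → (adf x 72057594037927936 : ℤ) ≤ 2 ^ 56 := fun x h => by rw [adf_eq]; omega
  have s : ∀ {I J : ℕ}, I &&& J = I → ∀ e, I.testBit e = true → J.testBit e = true := fun h e he => by
    rw [← h, Nat.testBit_and, Bool.and_eq_true] at he
    exact he.2
  refine ⟨(((o2_sp xa xb).sub' (s rfl)).add ((odx_sp xe c1 c4).sub' (s rfl))).cg ?_ rfl ?_,
    (((o2_sp ya yb).sub' (s rfl)).add ((ody_sp ye c1 c4).sub' (s rfl))).cg ?_ rfl ?_⟩
  · rw [show (OEX : ℤ) = O2 + ODX by decide +kernel]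
    push_cast
    ring
  · linarith [a _ h1, a _ h2, a _ h3, a _ h7, a _ h8]
  · rw [show (OEY : ℤ) = O2 + ODY by decide +kernel]
    push_cast
    ring
  · linarith [a _ h4, a _ h5, a _ h6, a _ h7, a _ h8]

def UOK (E : Env) (u : ℕ) : Prop :=
  ∃ y, SP (mz E) 4253529586511730793292182592897102643 ((u : ℤ) - UB) y (2 ^ 83)

theorem iuc_ok (w : ℕ) : UOK E (iuc w) := by
  rw [iuc_eq, show UM = msk 160 124 4253529586511730793292182592897102643 (2 ^ 78 - 1) by decide +kernel]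
  generalize ihe _ _ = X
  refine ⟨_, (SP.mask X (e := 78) (2 ^ 77) 124 (fun k => (di 160 X k % 2 ^ 78 : ℕ) - 2 ^ 77) (2 ^ 77) (by norm_num)
    fun k _ _ => ⟨by push_cast; ring, ?_⟩).cg (by rw [show UB = msk 160 124 4253529586511730793292182592897102643
      (2 ^ 77) by decide +kernel]) rfl (by decide +kernel)⟩
  have := Nat.mod_lt (di 160 X k) (show 0 < 2 ^ 78 by norm_num)
  rw [abs_le]
  omega

theorem UOK.ub {u : ℕ} (h : UOK E u) : ∃ y, SP (mz E) 4253529586511730793292182592897102643 ((u : ℤ) - UB) y (2 ^ 83) ∧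
    (∀ p q, Ub (mo P E p q) 163 (u + IUP) y) ∧ Ub (mz E) 124 (IUN - u) (-y) := by
  obtain ⟨y, h⟩ := h
  refine ⟨y, h, fun p q => ?_, h.neg.ub (2 ^ 83) (by norm_num) (by norm_num)
    (by rw [show (IUN : ℤ) = (2 ^ 83 : ℕ) * (tt 160 : ℤ) ^ 124 + UB by decide +kernel]; ring)⟩
  have := (h.map (m' := mo P E p q) (J := 4253529586511730793292182592897102643) (o := 0) (c := 1) fun e he =>
    ⟨he, by rw [add_zero, mul_one, mo, if_pos (lt_of_bit (by norm_num) he)]⟩).ub0 (P := u + IUP) (n := 163) (2 ^ 83)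
    (by norm_num) (by norm_num)
    (by rw [Nat.cast_add, show (IUP : ℤ) = (2 ^ 83 : ℕ) * (tt 160 : ℤ) ^ 163 - UB by decide +kernel]; ring)
  rwa [mul_one] at this

end

end Pool.Agent.Lib.MP_9d820d_co.IFast
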