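import Pool.Agent.Lib.MP_9d820d_co.Core

set_option autoImplicit false

namespace Pool.Agent.Lib.MP_9d820d_co

noncomputable section

/-- value of an affine function -/
def lev (l : ℝ × ℝ × ℝ) (p : ℝ × ℝ) : ℝ := l.1 * p.1 + l.2.1 * p.2 + l.2.2

/-- v lies beyond the corner of the half planes a and b -/
def Corner (a b : ℝ × ℝ × ℝ) (v : ℝ × ℝ) : Prop :=
  0 < a.1 * b.2.1 - a.2.1 * b.1 ∧ lev a v ≤ 0 ∧ lev b v ≤ 0

/-- a chain of corners from the line a back to the line f -/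
inductive PChain (f : ℝ × ℝ × ℝ) : ℝ × ℝ × ℝ → List (ℝ × ℝ × ℝ) → List (ℝ × ℝ) → Prop
  | last (a : ℝ × ℝ × ℝ) (v : ℝ × ℝ) : Corner a f v → PChain f a [] [v]
  | cons (a b : ℝ × ℝ × ℝ) (ls : List (ℝ × ℝ × ℝ)) (v : ℝ × ℝ) (vs : List (ℝ × ℝ)) :
      Corner a b v → PChain f b ls vs → PChain f a (b :: ls) (v :: vs)

namespace Pol

def sg (e : ℝ × ℝ) (a : ℝ × ℝ × ℝ) : ℝ := a.1 * e.2 - a.2.1 * e.1
def ct (e : ℝ × ℝ) (a : ℝ × ℝ × ℝ) : ℝ := -(a.1 * e.1 + a.2.1 * e.2) / sg e a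
def R (e : ℝ × ℝ) (a b : ℝ × ℝ × ℝ) : Prop :=
  (0 ≤ sg e a → 0 < sg e b) ∧ (0 < sg e a → ct e b < ct e a) ∧ (sg e b < 0 → ct e b < ct e a)

theorem R.trans {e : ℝ × ℝ} {a b c : ℝ × ℝ × ℝ} (h : R e a b) (g : R e b c) : R e a c := by
  refine ⟨fun x => g.1 (h.1 x).le, fun x => (g.2.1 (h.1 x.le)).trans (h.2.1 x), fun x => ?_⟩
  have : sg e b < 0 := by
    by_contra hn
    exact absurd (g.1 (not_lt.1 hn)) (not_lt.2 x.le)
  exact (g.2.2 x).trans (h.2.2 this)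

theorem R.irrefl {e : ℝ × ℝ} {a : ℝ × ℝ × ℝ} (h : R e a a) : False := by
  rcases lt_or_ge (sg e a) 0 with x | x
  · exact lt_irrefl _ (h.2.2 x)
  · exact lt_irrefl _ (h.2.1 (h.1 x))

theorem ct_lt {e : ℝ × ℝ} {a b : ℝ × ℝ × ℝ} (h : 0 < a.1 * b.2.1 - a.2.1 * b.1)
    (hs : 0 < sg e a * sg e b) : ct e b < ct e a := by
  have ha : sg e a ≠ 0 := by rintro h0; simp [h0] at hs
  have hb : sg e b ≠ 0 := by rintro h0; simp [h0] at hs
  have he : 0 < e.1 ^ 2 + e.2 ^ 2 := by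
    by_contra hn
    have h1 : e.1 = 0 := by nlinarith [sq_nonneg e.1, sq_nonneg e.2]
    have h2 : e.2 = 0 := by nlinarith [sq_nonneg e.1, sq_nonneg e.2]
    exact ha (by simp [sg, h1, h2])
  have h2 : 0 < (a.1 * b.2.1 - a.2.1 * b.1) * (e.1 ^ 2 + e.2 ^ 2) / (sg e a * sg e b) := by positivity
  have h3 : ct e a - ct e b = (a.1 * b.2.1 - a.2.1 * b.1) * (e.1 ^ 2 + e.2 ^ 2) / (sg e a * sg e b) := by
    unfold ct
    field_simp
    unfold sg
    ring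
  linarith

theorem corner_R {e p v : ℝ × ℝ} {a b : ℝ × ℝ × ℝ} (h : Corner a b v) (ha : 0 ≤ lev a p)
    (hb : 0 ≤ lev b p) (hv : 0 < e.1 * (v.1 - p.1) + e.2 * (v.2 - p.2)) : R e a b := by
  obtain ⟨hD, h1, h2⟩ := h
  have k : 0 ≤ sg e a → 0 < sg e b := fun x => by
    by_contra hn
    push Not at hn
    unfold lev at ha hb h1 h2
    unfold sg at x hn
    have u1 : a.1 * (v.1 - p.1) + a.2.1 * (v.2 - p.2) ≤ 0 := by linarith
    have u2 : b.1 * (v.1 - p.1) + b.2.1 * (v.2 - p.2) ≤ 0 := by linarith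
    have id : (a.1 * b.2.1 - a.2.1 * b.1) * (e.1 * (v.1 - p.1) + e.2 * (v.2 - p.2)) =
        -(b.1 * e.2 - b.2.1 * e.1) * (a.1 * (v.1 - p.1) + a.2.1 * (v.2 - p.2)) +
        (a.1 * e.2 - a.2.1 * e.1) * (b.1 * (v.1 - p.1) + b.2.1 * (v.2 - p.2)) := by ring
    have := mul_pos hD hv
    nlinarith [mul_nonneg (neg_nonneg.2 hn) (neg_nonneg.2 u1), mul_nonneg x (neg_nonneg.2 u2)]
  refine ⟨k, fun x => ct_lt hD (mul_pos x (k x.le)), fun x => ct_lt hD ?_⟩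
  have : sg e a < 0 := by
    by_contra hn
    exact absurd (k (not_lt.1 hn)) (not_lt.2 x.le)
  exact mul_pos_of_neg_of_neg this x

theorem chain_R {e p : ℝ × ℝ} {f a : ℝ × ℝ × ℝ} {ls : List (ℝ × ℝ × ℝ)} {vs : List (ℝ × ℝ)}
    (h : PChain f a ls vs) (hf : 0 ≤ lev f p) (ha : 0 ≤ lev a p) (hl : ∀ l ∈ ls, 0 ≤ lev l p)
    (hv : ∀ v ∈ vs, 0 < e.1 * (v.1 - p.1) + e.2 * (v.2 - p.2)) : R e a f := by
  induction h with
  | last a v hc => exact corner_R hc ha hf (hv v (by simp))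
  | cons a b ls v vs hc _ ih =>
    have hb := hl b (by simp)
    exact (corner_R hc ha hb (hv v (by simp))).trans
      (ih hb (fun l h => hl l (by simp [h])) (fun u h => hv u (by simp [h])))

end Pol

theorem poly_mem {f : ℝ × ℝ × ℝ} {ls : List (ℝ × ℝ × ℝ)} {vs : List (ℝ × ℝ)} {p : ℝ × ℝ}
    (h : PChain f f ls vs) (hp : ∀ l ∈ f :: ls, 0 ≤ lev l p) (K : Set (ℝ × ℝ)) (hK : Convex ℝ K)
    (hv : ∀ v ∈ vs, v ∈ K) : p ∈ K := by
  by_contra hn
  have hfin : ({v | v ∈ vs} : Set (ℝ × ℝ)).Finite := List.finite_toSet vs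
  have hsub : convexHull ℝ {v | v ∈ vs} ⊆ K := convexHull_min hv hK
  obtain ⟨φ, u, h1, h2⟩ := geometric_hahn_banach_point_closed (convex_convexHull ℝ _)
    (hfin.isCompact_convexHull ℝ).isClosed (fun hx => hn (hsub hx))
  have e : ∀ x : ℝ × ℝ, φ x = φ (1, 0) * x.1 + φ (0, 1) * x.2 := fun x => by
    have : x = x.1 • ((1, 0) : ℝ × ℝ) + x.2 • ((0, 1) : ℝ × ℝ) := by simp
    conv_lhs => rw [this]
    rw [map_add, map_smul, map_smul]
    simp only [smul_eq_mul]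
    ring
  refine Pol.R.irrefl (e := (φ (1, 0), φ (0, 1))) (Pol.chain_R h (hp f (by simp)) (hp f (by simp))
    (fun l hl => hp l (by simp [hl])) (fun v hv => ?_))
  have := h2 v (subset_convexHull ℝ _ hv)
  rw [e] at this h1
  dsimp only
  linarith

section
variable {al be ga : ℝ}

theorem Lf_nonneg (v : ℝ × ℝ) : 0 ≤ Lf al be ga v := Real.sqrt_nonneg _

theorem Lf_sq (h : ∀ v, 0 ≤ Qf al be ga v) (v : ℝ × ℝ) : Lf al be ga v ^ 2 = Qf al be ga v :=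
  Real.sq_sqrt (h v)

theorem Lf_swap (p q : ℝ × ℝ) : Lf al be ga (p - q) = Lf al be ga (q - p) := by
  unfold Lf Qf
  congr 1
  simp only [Prod.fst_sub, Prod.snd_sub]
  ring

theorem Lf_comb (h : ∀ v, 0 ≤ Qf al be ga v) (u v : ℝ × ℝ) {a b : ℝ} (ha : 0 ≤ a) (hb : 0 ≤ b) :
    Lf al be ga (a • u + b • v) ≤ a * Lf al be ga u + b * Lf al be ga v := by
  have hu := Lf_nonneg (al := al) (be := be) (ga := ga) u
  have hv := Lf_nonneg (al := al) (be := be) (ga := ga) v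
  have su := Lf_sq h u
  have sv := Lf_sq h v
  set B := al * u.1 * v.1 + be * (u.1 * v.2 + u.2 * v.1) + ga * u.2 * v.2 with hB
  have hd : discrim (Qf al be ga u) (2 * B) (Qf al be ga v) ≤ 0 := by
    apply discrim_le_zero
    intro x
    have := h (x • u + v)
    simp only [Qf, Prod.fst_add, Prod.snd_add, Prod.smul_fst, Prod.smul_snd, smul_eq_mul] at this ⊢
    rw [hB]
    linarith
  have hB2 : B ≤ Lf al be ga u * Lf al be ga v := by
    refine (abs_le_of_sq_le_sq' ?_ (by positivity)).2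
    unfold discrim at hd
    rw [mul_pow, su, sv]
    linarith
  apply Real.sqrt_le_iff.2
  refine ⟨by positivity, ?_⟩
  have e : Qf al be ga (a • u + b • v) = a ^ 2 * Qf al be ga u + 2 * (a * b) * B + b ^ 2 * Qf al be ga v := by
    simp only [Qf, Prod.fst_add, Prod.snd_add, Prod.smul_fst, Prod.smul_snd, smul_eq_mul, hB]
    ring
  rw [e, ← su, ← sv]
  nlinarith [mul_le_mul_of_nonneg_left hB2 (mul_nonneg ha hb)]

end

end

end Pool.Agent.Lib.MP_9d820d_co
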