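import Pool.Agent.Lib.MP_9d820d_co.Ops
import Pool.Agent.Lib.MP_9d820d_co.Poly

set_option autoImplicit false

namespace Pool.Agent.Lib.MP_9d820d_co

noncomputable section

def zc (P : Prm) : Nat → ℝ
  | 0 => Sr * P.x1
  | 1 => Sr * P.y1
  | 2 => Sr * P.x4
  | 3 => Sr * P.y4
  | 4 => Sr * P.al
  | 5 => Sr * P.be
  | 6 => Sr * P.ga
  | _ => 0

def lenJ (P : Prm) : Nat → ℝ
  | 0 => P.len 0 1
  | 1 => P.len 0 2
  | 2 => P.len 0 3
  | 3 => P.len 0 4
  | 4 => P.len 1 2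
  | 5 => P.len 1 3
  | 6 => P.len 1 4
  | 7 => P.len 2 3
  | 8 => P.len 2 4
  | 9 => P.len 3 4
  | _ => 0

theorem len_comm (P : Prm) (a b : Nat) : P.len a b = P.len b a := by
  unfold Prm.len; rw [Lf_swap]

theorem crs_anti (p q : ℝ × ℝ) : crs p q = -crs q p := by unfold crs; ring

section
variable {α : Type} (ι : α → ℝ) (P : Prm)

def val4 (t : ℝ) (f : Fx α) : ℝ :=
  ι f.c0 + t * ι f.c1 + (ι f.a0 * (Sr * P.x1) + ι f.a1 * (Sr * P.y1) + ι f.a2 * (Sr * P.x4) +
    ι f.a3 * (Sr * P.y4))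
def val3 (f : Fx α) : ℝ := ι f.a4 * (Sr * P.al) + ι f.a5 * (Sr * P.be) + ι f.a6 * (Sr * P.ga)
def valN (t : ℝ) (f : Fx α) : ℝ := val4 ι P t f + val3 ι P f

theorem valF_eq (t : ℝ) (f : Fx α) :
    valF ι P t f = valN ι P t f + ι f.ch * (Sr ^ 2 * crs (P.V 1) (P.V 4)) := by
  simp only [valF, valN, val4, val3]; ring

/-- the vector with coefficients c and first order part e -/
def dvec (t : ℝ) (c1 c2 c3 c4 ex ey : α) : ℝ × ℝ :=
  ((ι c1 * (Sr * P.x1) + ι c4 * (Sr * P.x4) + Sr * (ι c2 + ι c3) + t * ι ex) / Sr ^ 2,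
   (ι c1 * (Sr * P.y1) + ι c4 * (Sr * P.y4) + Sr / 2 * (ι c3 - ι c2) + t * ι ey) / Sr ^ 2)

end

section
variable {α : Type} (o : Ops α)
def fmaV (acc x y : α) : α := cnd (o.isz y) acc (o.add acc (o.mul x y))
def mxV (acc a lo hi : α) : α := cnd (o.isz a) acc (o.add acc (mx o a lo hi))
end

variable {α : Type} {o : Ops α} {ι : α → ℝ} {P : Prm} {t : ℝ}

theorem InV_iff {lo hi : V7 α} : InV o ι P t lo hi ↔
    ∀ n < 7, In1 ι t (get7 o o.base n) (get7 o lo n) (get7 o hi n) (zc P n) := by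
  constructor
  · rintro ⟨h0, h1, h2, h3, h4, h5, h6⟩ n hn
    interval_cases n
    exacts [h0, h1, h2, h3, h4, h5, h6]
  · intro h
    exact ⟨h 0 (by norm_num), h 1 (by norm_num), h 2 (by norm_num), h 3 (by norm_num),
      h 4 (by norm_num), h 5 (by norm_num), h 6 (by norm_num)⟩

theorem InL_iff {lo hi : L10 α} : InL o ι P t lo hi ↔
    ∀ n < 10, In1 ι t (get10 o o.basel n) (get10 o lo n) (get10 o hi n) (lenJ P n) := by
  constructor
  · rintro ⟨h0, h1, h2, h3, h4, h5, h6, h7, h8, h9⟩ n hn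
    interval_cases n
    exacts [h0, h1, h2, h3, h4, h5, h6, h7, h8, h9]
  · intro h
    exact ⟨h 0 (by norm_num), h 1 (by norm_num), h 2 (by norm_num), h 3 (by norm_num),
      h 4 (by norm_num), h 5 (by norm_num), h 6 (by norm_num), h 7 (by norm_num),
      h 8 (by norm_num), h 9 (by norm_num)⟩

theorem set7_sp (o : Ops α) {v : V7 α} {n : Nat} {x : α} {k : V7 α → Bool} (h : set7 v n x k = true) :
    ∃ u, k u = true ∧ n < 7 ∧ get7 o u n = x ∧ ∀ j < 7, j ≠ n → get7 o u j = get7 o v j := by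
  rcases v with ⟨a0, a1, a2, a3, a4, a5, a6⟩
  rcases cases8 n with rfl | rfl | rfl | rfl | rfl | rfl | rfl | ⟨m, rfl⟩
  on_goal 8 => exact Bool.noConfusion h
  all_goals
    simp only [set7, sel7, Nat.rec_zero] at h
    refine ⟨_, h, by norm_num, rfl, fun j hj hn => ?_⟩
    interval_cases j <;> first | rfl | exact absurd rfl hn

theorem set10_sp (o : Ops α) {v : L10 α} {n : Nat} {x : α} {k : L10 α → Bool}
    (h : set10 v n x k = true) :
    ∃ u, k u = true ∧ n < 10 ∧ get10 o u n = x ∧ ∀ j < 10, j ≠ n → get10 o u j = get10 o v j := by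
  rcases v with ⟨a0, a1, a2, a3, a4, a5, a6, a7, a8, a9⟩
  simp only [set10] at h
  rcases cases11 n with rfl | rfl | rfl | rfl | rfl | rfl | rfl | rfl | rfl | rfl | ⟨m, rfl⟩
  on_goal 11 => rw [sel10_d] at h; exact Bool.noConfusion h
  all_goals
    change k _ = true at h
    refine ⟨_, h, by norm_num, rfl, fun j hj hn => ?_⟩
    interval_cases j <;> first | rfl | exact absurd rfl hn

theorem eqG_sp {g h : G3} (e : eqG g h = true) : g = h := by
  rcases g with ⟨a, b, c⟩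
  rcases h with ⟨d, f, g⟩
  simp only [eqG, band_eq] at e
  rw [beq_sp e.1, beq_sp e.2.1, beq_sp e.2.2]

theorem gLe_sp {n : Nat} {g : G3} (e : gLe n g = true) : g.i ≤ n ∧ g.j ≤ n ∧ g.k ≤ n := by
  rcases g with ⟨a, b, c⟩
  simp only [gLe, band_eq] at e
  exact ⟨ble_sp e.1, ble_sp e.2.1, ble_sp e.2.2⟩

variable (L : Lawful o ι)
include L

theorem fma_eq (acc x y : α) (k : α → Bool) : fma o acc x y k = k (fmaV o acc x y) := by
  unfold fma fmaV
  cases o.isz y
  · exact L.frc _ _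
  · rfl
theorem fmaV_val (acc x y : α) : ι (fmaV o acc x y) = ι acc + ι x * ι y := by
  unfold fmaV
  cases h : o.isz y
  · rw [cnd_false, L.add, L.mul]
  · rw [cnd_true, L.isz _ h]; ring
theorem mx0_eq (acc a lo hi : α) (k : α → Bool) : mx0 o acc a lo hi k = k (mxV o acc a lo hi) := by
  unfold mx0 mxV
  cases o.isz a
  · exact L.frc _ _
  · rfl
theorem mxV_val (acc a lo hi : α) : ι (mxV o acc a lo hi) = ι acc + ι (mx o a lo hi) := by
  unfold mxV
  cases h : o.isz a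
  · rw [cnd_false, L.add]
  · rw [cnd_true]
    unfold mx
    cases o.ltz a <;> simp [L.mul, L.isz _ h]
theorem mx_ge (a : α) {b lo hi : α} {x : ℝ} (h : In1 ι t b lo hi x) :
    ι a * x ≤ ι a * ι b + t * ι (mx o a lo hi) := by
  unfold mx
  cases e : o.ltz a
  · have : 0 ≤ ι a := by
      by_contra hn
      rw [(L.ltz a).2 (not_le.1 hn)] at e
      cases e
    rw [cnd_false, L.mul]
    nlinarith [h.2]
  · have := (L.ltz a).1 e
    rw [cnd_true, L.mul]
    nlinarith [h.1]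
theorem dbl_val (a : α) : ι (dbl o a) = 2 * ι a := by unfold dbl; rw [L.add]; ring
theorem ofN_val (n : Nat) : ι (ofN o n) = n := by unfold ofN; rw [L.ofI]; rfl
theorem m1_val : ι (o.ofI (Int.negSucc 0)) = -1 := by rw [L.ofI]; simp
theorem le2_sp {x y : α} (h : le2 o x y = true) : ι x ≤ ι y := by
  have := L.lez _ h
  rw [L.sub] at this
  linarith
theorem leT_sp (ht : TT o t) {x y : α} (h : leT o x y = true) : ι x + t * ι y ≤ 0 := by
  rcases cnd_sp h with ⟨-, h⟩ | ⟨hi, h⟩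
  · have h1 := L.lez _ (band_sp h).1
    have h2 := L.lez _ (band_sp h).2
    rw [L.add] at h2
    nlinarith [ht.1, ht.2.1]
  · have h2 := L.lez _ h
    rw [L.add] at h2
    rw [ht.2.2 hi]
    linarith
theorem ltT_sp (ht : TT o t) {x y : α} (h : ltT o x y = true) : ι x + t * ι y < 0 := by
  rcases cnd_sp h with ⟨-, h⟩ | ⟨hi, h⟩
  · have h1 := L.lez _ (band_sp h).1
    have h2 := (L.ltz _).1 (band_sp h).2
    rw [L.add] at h2
    nlinarith [ht.1, ht.2.1]
  · have h2 := (L.ltz _).1 h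
    rw [L.add] at h2
    rw [ht.2.2 hi]
    linarith

theorem zF_val : valN ι P t (zF o) = 0 ∧ ι (zF o).ch = 0 := by
  simp [valN, val4, val3, zF, L.zero]
theorem zF_valF : valF ι P t (zF o) = 0 := by simp [valF, zF, L.zero]
theorem zL_val : valL ι P (zL o) = 0 := by simp [valL, zL, L.zero]
theorem zM_val (p q : ℝ × ℝ) : valM ι P t p q (zM o) = 0 := by simp [valM, zM, L.zero, crs]
theorem zA_val (p q : ℝ × ℝ) : valA ι P t p q (zA o) = 0 := by
  simp only [valA, zA, zF_valF L, zL_val L, zM_val L]; ring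
theorem cF_val (c0 c1 : α) : valN ι P t (cF o c0 c1) = ι c0 + t * ι c1 := by
  simp [valN, val4, val3, cF, L.zero]
theorem cF_valF (c0 c1 : α) : valF ι P t (cF o c0 c1) = ι c0 + t * ι c1 := by
  simp [valF, cF, L.zero]

theorem axF_sp (P : Prm) (t : ℝ) {u v : Fx α} {x : α} {k : Fx α → Bool} (h : axF o u x v k = true) :
    ∃ r, k r = true ∧ valN ι P t r = valN ι P t u + ι x * valN ι P t v ∧
      valF ι P t r = valF ι P t u + ι x * valF ι P t v := by
  cases u; cases v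
  simp only [axF, fma_eq L] at h
  refine ⟨_, h, ?_, ?_⟩
  · simp only [valN, val4, val3, fmaV_val L]; ring
  · simp only [valF, fmaV_val L]; ring
theorem axL_sp (P : Prm) {u v : L10 α} {x : α} {k : L10 α → Bool} (h : axL o u x v k = true) :
    ∃ r, k r = true ∧ valL ι P r = valL ι P u + ι x * valL ι P v := by
  cases u; cases v
  simp only [axL, fma_eq L] at h
  refine ⟨_, h, ?_⟩
  simp only [valL, fmaV_val L]; ring
theorem axM_sp (P : Prm) (t : ℝ) {u v : Mx α} {x : α} {k : Mx α → Bool} (h : axM o u x v k = true) :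
    ∃ r, k r = true ∧ ∀ p q, valM ι P t p q r = valM ι P t p q u + ι x * valM ι P t p q v := by
  cases u; cases v
  simp only [axM, fma_eq L] at h
  refine ⟨_, h, fun p q => ?_⟩
  simp only [valM, fmaV_val L, crs]; ring

theorem eqF_sp {u v : Fx α} (h : eqF o u v = true) : u = v := by
  cases u; cases v
  simp only [eqF, band_eq] at h
  obtain ⟨h0, h1, h2, h3, h4, h5, h6, h7, h8, h9⟩ := h
  rw [L.beq _ _ h0, L.beq _ _ h1, L.beq _ _ h2, L.beq _ _ h3, L.beq _ _ h4, L.beq _ _ h5,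
    L.beq _ _ h6, L.beq _ _ h7, L.beq _ _ h8, L.beq _ _ h9]
theorem eqL_sp {u v : L10 α} (h : eqL o u v = true) : u = v := by
  cases u; cases v
  simp only [eqL, band_eq] at h
  obtain ⟨h0, h1, h2, h3, h4, h5, h6, h7, h8, h9⟩ := h
  rw [L.beq _ _ h0, L.beq _ _ h1, L.beq _ _ h2, L.beq _ _ h3, L.beq _ _ h4, L.beq _ _ h5,
    L.beq _ _ h6, L.beq _ _ h7, L.beq _ _ h8, L.beq _ _ h9]
theorem eqLine_sp {u v : Line α} (h : eqLine o u v = true) : u = v := by
  cases u; cases v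
  simp only [eqLine, band_eq] at h
  obtain ⟨h0, h1, h2, h3⟩ := h
  rw [L.beq _ _ h0, L.beq _ _ h1, L.beq _ _ h2, L.beq _ _ h3]
theorem leV_sp {u v : V7 α} (h : leV o u v = true) : ∀ n < 7, ι (get7 o u n) ≤ ι (get7 o v n) := by
  cases u; cases v
  simp only [leV, band_eq] at h
  obtain ⟨h0, h1, h2, h3, h4, h5, h6⟩ := h
  intro n hn
  interval_cases n
  exacts [le2_sp L h0, le2_sp L h1, le2_sp L h2, le2_sp L h3, le2_sp L h4, le2_sp L h5, le2_sp L h6]
theorem leL_sp {u v : L10 α} (h : leL o u v = true) : ∀ n < 10, ι (get10 o u n) ≤ ι (get10 o v n) := by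
  cases u; cases v
  simp only [leL, band_eq] at h
  obtain ⟨h0, h1, h2, h3, h4, h5, h6, h7, h8, h9⟩ := h
  intro n hn
  interval_cases n
  exacts [le2_sp L h0, le2_sp L h1, le2_sp L h2, le2_sp L h3, le2_sp L h4, le2_sp L h5, le2_sp L h6,
    le2_sp L h7, le2_sp L h8, le2_sp L h9]
theorem InV_mono (t0 : 0 < t) {lo hi lo' hi' : V7 α} (h : InV o ι P t lo hi)
    (h1 : leV o lo' lo = true) (h2 : leV o hi hi' = true) : InV o ι P t lo' hi' := by
  rw [InV_iff] at h ⊢
  intro n hn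
  have a1 := mul_le_mul_of_nonneg_left (leV_sp L h1 n hn) t0.le
  have a2 := mul_le_mul_of_nonneg_left (leV_sp L h2 n hn) t0.le
  exact ⟨by linarith [(h n hn).1], by linarith [(h n hn).2]⟩
theorem InL_mono (t0 : 0 < t) {lo hi lo' hi' : L10 α} (h : InL o ι P t lo hi)
    (h1 : leL o lo' lo = true) (h2 : leL o hi hi' = true) : InL o ι P t lo' hi' := by
  rw [InL_iff] at h ⊢
  intro n hn
  have a1 := mul_le_mul_of_nonneg_left (leL_sp L h1 n hn) t0.le
  have a2 := mul_le_mul_of_nonneg_left (leL_sp L h2 n hn) t0.le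
  exact ⟨by linarith [(h n hn).1], by linarith [(h n hn).2]⟩

theorem updX_sp (P : Prm) (t : ℝ) (p q : ℝ × ℝ) {a b : Nat} {m : Mx α} {x : α} {k : Mx α → Bool}
    (h : updX o a b m x k = true) : ∃ r, k r = true ∧
      valM ι P t p q r = valM ι P t p q m + ι x * (Sr ^ 2 * crs (P.pt p q a) (P.pt p q b)) := by
  cases m
  rcases cases8 a with rfl | rfl | rfl | rfl | rfl | rfl | rfl | ⟨a, rfl⟩ <;>
  rcases cases8 b with rfl | rfl | rfl | rfl | rfl | rfl | rfl | ⟨b, rfl⟩ <;>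
  first
  | exact Bool.noConfusion h
  | (refine ⟨_, (L.frc _ _).symm.trans h, ?_⟩
     simp only [valM, L.add, Prm.pt, Prm.V]; ring)
  | exact ⟨_, h, by simp [Prm.pt, crs]⟩

theorem addX_sp (P : Prm) (t : ℝ) (p q : ℝ × ℝ) {a b : Nat} {m : Mx α} {xp xn : α} {k : Mx α → Bool}
    (e : ι xn = -ι xp) (h : addX o a b xp xn m k = true) : ∃ r, k r = true ∧
      valM ι P t p q r = valM ι P t p q m + ι xp * (Sr ^ 2 * crs (P.pt p q a) (P.pt p q b)) := by
  rcases cnd_sp h with ⟨-, h⟩ | ⟨-, h⟩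
  · rcases cnd_sp h with ⟨h1, h⟩ | ⟨-, h⟩
    · exact ⟨_, h, by rw [beq_sp h1]; unfold crs; ring⟩
    · exact updX_sp L P t p q h
  · obtain ⟨r, h, hr⟩ := updX_sp L P t p q h
    exact ⟨r, h, by rw [hr, e, crs_anti]; ring⟩

theorem addT_sp (P : Prm) (t : ℝ) (p q : ℝ × ℝ) {a b c : Nat} {m : Mx α} {xp xn : α}
    {k : Mx α → Bool} (e : ι xn = -ι xp) (h : addT o a b c xp xn m k = true) : ∃ r, k r = true ∧
      valM ι P t p q r = valM ι P t p q m +
        ι xp * (Sr ^ 2 * cr3 (P.pt p q a) (P.pt p q b) (P.pt p q c)) := by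
  obtain ⟨r1, h, h1⟩ := addX_sp L P t p q e h
  obtain ⟨r2, h, h2⟩ := addX_sp L P t p q e h
  obtain ⟨r3, h, h3⟩ := addX_sp L P t p q e h
  exact ⟨r3, h, by rw [h3, h2, h1]; unfold cr3; ring⟩

theorem updL_sp (P : Prm) {a b : Nat} {l : L10 α} {x : α} {k : L10 α → Bool}
    (h : updL o a b l x k = true) : ∃ r, k r = true ∧ a ≤ 4 ∧ b ≤ 4 ∧
      valL ι P r = valL ι P l + ι x * P.len a b := by
  cases l
  rcases cases8 a with rfl | rfl | rfl | rfl | rfl | rfl | rfl | ⟨a, rfl⟩ <;>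
  rcases cases8 b with rfl | rfl | rfl | rfl | rfl | rfl | rfl | ⟨b, rfl⟩ <;>
  first
  | exact Bool.noConfusion h
  | (refine ⟨_, (L.frc _ _).symm.trans h, by norm_num, by norm_num, ?_⟩
     simp only [valL, L.add, len_comm P 1 0, len_comm P 2 0, len_comm P 3 0, len_comm P 4 0,
       len_comm P 2 1, len_comm P 3 1, len_comm P 4 1, len_comm P 3 2, len_comm P 4 2, len_comm P 4 3]
     ring)

theorem updJ_sp (P : Prm) {j : Nat} {l : L10 α} {x : α} {k : L10 α → Bool}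
    (h : updJ o j l x k = true) : ∃ r, k r = true ∧ valL ι P r = valL ι P l + ι x * lenJ P j := by
  cases l
  rcases cases11 j with rfl | rfl | rfl | rfl | rfl | rfl | rfl | rfl | rfl | rfl | ⟨m, rfl⟩
  on_goal 11 => rw [updJ, sel10_d] at h; exact Bool.noConfusion h
  all_goals
    refine ⟨_, (L.frc _ _).symm.trans h, ?_⟩
    simp only [valL, L.add, lenJ]
    ring

theorem pairC_sp (P : Prm) (t : ℝ) {j : Nat} {k : α → α → α → α → Bool} (h : pairC o j k = true) :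
    ∃ c1 c2 c3 c4, k c1 c2 c3 c4 = true ∧ j < 10 ∧
      lenJ P j = Sr * Lf P.al P.be P.ga (dvec ι P t c1 c2 c3 c4 o.zero o.zero) := by
  have := Sr_pos.ne'
  rcases cases11 j with rfl | rfl | rfl | rfl | rfl | rfl | rfl | rfl | rfl | rfl | ⟨m, rfl⟩
  on_goal 11 => rw [pairC, sel10_d] at h; exact Bool.noConfusion h
  all_goals
    change k _ _ _ _ = true at h
    refine ⟨_, _, _, _, h, by norm_num, ?_⟩
    simp only [lenJ, Prm.len, Prm.V, Prm.pt, dvec, L.neg, L.s1, L.zero]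
    congr 2
    ext <;> simp only [Prod.fst_sub, Prod.snd_sub] <;> field_simp <;> ring

end

end Pool.Agent.Lib.MP_9d820d_co
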