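import Pool.Agent.Lib.MP_9d820d_co.Fin

set_option autoImplicit false

namespace Pool.Agent.Lib.MP_9d820d_co

noncomputable section

variable {α : Type} {o : Ops α} {ι : α → ℝ} {P : Prm} {t : ℝ} {p q : ℝ × ℝ}

theorem InL_set {lo hi lo' hi' : L10 α} {j : Nat} (h : InL o ι P t lo hi)
    (h1 : ∀ n < 10, n ≠ j → get10 o lo' n = get10 o lo n)
    (h2 : ∀ n < 10, n ≠ j → get10 o hi' n = get10 o hi n)
    (h3 : In1 ι t (get10 o o.basel j) (get10 o lo' j) (get10 o hi' j) (lenJ P j)) :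
    InL o ι P t lo' hi' := by
  rw [InL_iff] at h ⊢
  intro n hn
  by_cases e : n = j
  · rw [e]; exact h3
  · rw [h1 n hn e, h2 n hn e]; exact h n hn

theorem InV_set {lo hi lo' hi' : V7 α} {j : Nat} (h : InV o ι P t lo hi)
    (h1 : ∀ n < 7, n ≠ j → get7 o lo' n = get7 o lo n)
    (h2 : ∀ n < 7, n ≠ j → get7 o hi' n = get7 o hi n)
    (h3 : In1 ι t (get7 o o.base j) (get7 o lo' j) (get7 o hi' j) (zc P j)) :
    InV o ι P t lo' hi' := by
  rw [InV_iff] at h ⊢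
  intro n hn
  by_cases e : n = j
  · rw [e]; exact h3
  · rw [h1 n hn e, h2 n hn e]; exact h n hn

theorem branch_sp (hP : P.ok) {w : Nat} {ka kb kc : St α → Bool} {st : St α}
    (ha : ∀ s, ka s = true → Bad o ι P s) (hb : ∀ s, kb s = true → Bad o ι P s)
    (hc : ∀ s, kc s = true → Bad o ι P s) (h : branch w ka kb kc st = true) : Bad o ι P st := by
  intro t p q I
  rcases st with ⟨bx, llo, lhi, facts, gam, root, ls5, ls6, ini, d5⟩
  simp only [branch, rdN_eq, band_eq] at h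
  obtain ⟨-, h1, h2, h3⟩ := h
  rcases hP.t3 _ (pt_mem hP I.hp I.hq (w % 8)) _ (pt_mem hP I.hp I.hq (w / 8 % 8)) _
    (pt_mem hP I.hp I.hq (w / 8 / 8 % 8)) with e | e | e
  · exact ha _ h1 t p q { I with gam := List.forall_mem_cons.2 ⟨e, I.gam⟩ }
  · exact hb _ h2 t p q { I with gam := List.forall_mem_cons.2 ⟨e, I.gam⟩ }
  · exact hc _ h3 t p q { I with gam := List.forall_mem_cons.2 ⟨e, I.gam⟩ }

theorem addFact_sp {f : Fx α} {l : L10 α} {ka : St α → Bool} {st : St α}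
    (ha : ∀ s, ka s = true → Bad o ι P s) (h : addFact f l ka st = true) (I : Inv o ι P st t p q)
    (e : 0 ≤ valF ι P t f + valL ι P l) : False := by
  rcases st with ⟨bx, llo, lhi, facts, gam, root, ls5, ls6, ini, d5⟩
  exact ha _ h t p q { I with facts := List.forall_mem_cons.2 ⟨e, I.facts⟩ }

variable (L : Lawful o ι)
include L

theorem rdO_ex (w : Nat) : ∃ a w', ∀ k, rdO o w k = k a w' := by
  obtain ⟨a, w', e⟩ := rdI_ex w
  exact ⟨_, _, fun k => by rw [rdO, e, L.frc]⟩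

theorem rdM_ex (c : Int) (w : Nat) : ∃ a w', ∀ k, rdM o c w k = k a w' := by
  obtain ⟨a, w', e⟩ := rdI_ex w
  exact ⟨_, _, fun k => by rw [rdM, e, L.frc]⟩

theorem rd7_ex (w : Nat) : ∃ a w', ∀ k, rd7 o w k = k a w' := by
  obtain ⟨a0, w0, e0⟩ := rdO_ex L w
  obtain ⟨a1, w1, e1⟩ := rdO_ex L w0
  obtain ⟨a2, w2, e2⟩ := rdO_ex L w1
  obtain ⟨a3, w3, e3⟩ := rdO_ex L w2
  obtain ⟨a4, w4, e4⟩ := rdO_ex L w3
  obtain ⟨a5, w5, e5⟩ := rdO_ex L w4
  obtain ⟨a6, w6, e6⟩ := rdO_ex L w5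
  exact ⟨_, _, fun k => by rw [rd7, e0, e1, e2, e3, e4, e5, e6]⟩

omit L in
theorem rd10_ex {r : Nat → (α → Nat → Bool) → Bool} (hr : ∀ w, ∃ a w', ∀ k, r w k = k a w')
    (w : Nat) : ∃ a w', ∀ k, rd10 r w k = k a w' := by
  obtain ⟨a0, w0, e0⟩ := hr w
  obtain ⟨a1, w1, e1⟩ := hr w0
  obtain ⟨a2, w2, e2⟩ := hr w1
  obtain ⟨a3, w3, e3⟩ := hr w2
  obtain ⟨a4, w4, e4⟩ := hr w3
  obtain ⟨a5, w5, e5⟩ := hr w4
  obtain ⟨a6, w6, e6⟩ := hr w5
  obtain ⟨a7, w7, e7⟩ := hr w6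
  obtain ⟨a8, w8, e8⟩ := hr w7
  obtain ⟨a9, w9, e9⟩ := hr w8
  exact ⟨_, _, fun k => by rw [rd10, e0, e1, e2, e3, e4, e5, e6, e7, e8, e9]⟩

omit L in
theorem rdList_ex {β : Type} {r : Nat → (β → Nat → Bool) → Bool}
    (hr : ∀ w, ∃ a w', ∀ k, r w k = k a w') (w : Nat) : ∃ a w', ∀ k, rdList r w k = k a w' := by
  have : ∀ (n : Nat) (l : List β) (w : Nat), ∃ a w', ∀ k : List β → Nat → Bool,
      Nat.rec (motive := fun _ => List β → Nat → Bool) k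
        (fun _ ih l w => r w (fun a w => ih (a :: l) w)) n l w = k a w' := by
    intro n
    induction n with
    | zero => exact fun l w => ⟨l, w, fun _ => rfl⟩
    | succ n ih =>
      intro l w
      obtain ⟨a, w1, e⟩ := hr w
      obtain ⟨b, w2, e2⟩ := ih (a :: l) w1
      exact ⟨b, w2, fun k => (e _).trans (e2 k)⟩
  obtain ⟨a, w', e⟩ := this (w % 64) [] (w / 64)
  exact ⟨a, w', fun k => by rw [rdList, rdN_eq]; exact e k⟩

theorem rdFact_ex (w : Nat) : ∃ a w', ∀ k, rdFact o w k = k a w' := by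
  obtain ⟨⟨⟩, w0, e0⟩ := rd10_ex L.rdL w
  obtain ⟨b, w1, e1⟩ := rd10_ex L.rdL w0
  exact ⟨_, _, fun k => by rw [rdFact, e0, e1]⟩

omit L in
theorem rdG_ex (w : Nat) : ∃ a w', ∀ k, rdG w k = k a w' :=
  ⟨_, _, fun k => by rw [rdG, rdN_eq, rdN_eq, rdN_eq]⟩

theorem decCtx_ex (w : Nat) : ∃ c, (∀ k, decCtx o w k = k c) ∧ c.ls5 = [] ∧ c.ls6 = [] ∧
    c.ini = zA o ∧ c.d5 = zA o ∧
    ∀ P t, TT o t → InV o ι P t c.bx.lo c.bx.hi → BxOK o ι P t c.bx := by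
  obtain ⟨lo, w0, e0⟩ := rd7_ex L w
  obtain ⟨hi, w1, e1⟩ := rd7_ex L w0
  obtain ⟨llo, w2, e2⟩ := rd10_ex (rdO_ex L) w1
  obtain ⟨lhi, w3, e3⟩ := rd10_ex (rdO_ex L) w2
  obtain ⟨facts, w4, e4⟩ := rdList_ex (rdFact_ex L) w3
  obtain ⟨gam, w5, e5⟩ := rdList_ex rdG_ex w4
  obtain ⟨root, w6, e6⟩ := rdList_ex L.rdLine w5
  obtain ⟨bx, e, rfl, rfl, hb⟩ := mkBx_ex L lo hi
  exact ⟨_, fun k => by rw [decCtx, e0, e1, e2, e3, e4, e5, e6, e], rfl, rfl, rfl, rfl, hb⟩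

theorem chkLf_sp (hP : P.ok) (hloc : NotLoc o ι P) {holes : List Nat} (hh : ∀ h ∈ holes, Good o ι P h)
    {w : Nat} {st : St α} (h : chkLf o holes w st = true) : Bad o ι P st := by
  rw [chkLf, rdN_eq] at h
  rcases cnd_sp h with ⟨-, h⟩ | ⟨-, h⟩
  · exact leaf_sp L hP h
  intro t p q I
  rcases cnd_sp h with ⟨-, h⟩ | ⟨-, h⟩
  · rcases cnd_sp h with ⟨-, h⟩ | ⟨hi, h⟩
    · cases h
    · have := InV_mono L I.tt.1 I.bx.box (band_sp h).1 (band_sp h).2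
      rw [I.tt.2.2 hi] at this
      exact hloc hi this
  · obtain ⟨n, hn, h⟩ := nthK_true h
    obtain ⟨c, e, e5, e6, e1, e2, hb⟩ := decCtx_ex L n
    rw [e] at h
    simp only [subSt, band_eq] at h
    obtain ⟨⟨⟨h1, h2⟩, h3, h4⟩, h5, h6, h7⟩ := h
    refine hh n hn c e t p q ⟨I.tt, I.hp, I.hq, hb P t I.tt (InV_mono L I.tt.1 I.bx.box h1 h2),
      InL_mono L I.tt.1 I.rng h3 h4, fun g hg => ?_, fun g hg => ?_, fun g hg => ?_, by simp [e5],
      by simp [e6], by rw [e1, zA_val L], fun r => by rw [e2, zA_val L]⟩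
    · obtain ⟨a, ha, h⟩ := lany_true (lall_true h5 g hg)
      rw [eqF_sp L (band_sp h).1, eqL_sp L (band_sp h).2]
      exact I.facts a ha
    · obtain ⟨a, ha, h⟩ := lany_true (lall_true h6 g hg)
      rw [eqG_sp h]
      exact I.gam a ha
    · obtain ⟨a, ha, h⟩ := lany_true (lall_true h7 g hg)
      rw [eqLine_sp L h]
      exact I.root a ha

theorem ellR_sp (hP : P.ok) {w : Nat} {ka : St α → Bool} {st : St α}
    (ha : ∀ s, ka s = true → Bad o ι P s) (h : ellR o w ka st = true) : Bad o ι P st := by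
  intro t p q I
  have ht := I.tt
  rcases st with ⟨bx, llo, lhi, facts, gam, root, ls5, ls6, ini, d5⟩
  unfold ellR at h
  dsimp only at h
  obtain ⟨j, w, h, -⟩ := rdN_sp h
  obtain ⟨lo, w, h⟩ := rd_sp (rdO_ex L) h
  obtain ⟨hi, w, h⟩ := rd_sp (rdO_ex L) h
  obtain ⟨c1, c2, c3, c4, h, hj, el⟩ := pairC_sp L P t h
  obtain ⟨f, qm, qp, h, ef, q1, q2⟩ := qtm_sp L hP ht I.bx h
  rw [← el] at q1 q2
  have l0 : 0 ≤ lenJ P j := by rw [el]; exact mul_nonneg Sr_pos.le (Lf_nonneg _)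
  rw [L.frc] at h
  obtain ⟨h1, h⟩ := band_sp h
  have old := InL_iff.1 I.rng j hj
  have u1 : lenJ P j ≤ ι (get10 o o.basel j) + t * ι hi := by
    rcases bor_sp (band_sp h1).1 with g | g
    · linarith [old.2, mul_le_mul_of_nonneg_left (le2_sp L g) ht.1.le]
    · exact upOK_sp L ht I.bx g q2
  have u2 : ι (get10 o o.basel j) + t * ι lo ≤ lenJ P j := by
    rcases bor_sp (band_sp h1).2 with g | g
    · linarith [old.1, mul_le_mul_of_nonneg_left (le2_sp L g) ht.1.le]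
    · exact loOK_sp L ht I.bx g l0 q1
  obtain ⟨b, r, e, hb⟩ := L.ctr (get10 o o.basel j) lo hi
  have hb := hb (fun i => L.basel0 i j) t _ ht u2 u1
  simp only [e, L.frc] at h
  obtain ⟨g, h, -, eg⟩ := axF_sp L P t h
  obtain ⟨l, h, e2⟩ := updJ_sp L P h
  obtain ⟨llo', h, -, a1, a2⟩ := set10_sp o h
  obtain ⟨lhi', h, -, a3, a4⟩ := set10_sp o h
  refine ha _ h t p q { I with
    rng := InL_set I.rng a2 a4 (by rw [a1, a3]; exact ⟨u2, u1⟩)
    facts := List.forall_mem_cons.2 ⟨?_, I.facts⟩ }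
  dsimp only
  rw [eg, e2, cF_valF L, zL_val L, ef]
  simp only [L.neg, L.mul, L.add, L.s1, L.s4, dbl_val L]
  have b1 : (lenJ P j - ι b) ^ 2 ≤ t * (ι r * ι r) := by
    have := sq_le_sq' (abs_le.1 hb).1 (abs_le.1 hb).2
    nlinarith [mul_nonneg (mul_nonneg ht.1.le (sub_nonneg.2 ht.2.1)) (sq_nonneg (ι r))]
  linarith [mul_le_mul_of_nonneg_left b1 (pow_pos Sr_pos 4).le,
    mul_le_mul_of_nonneg_left q1 Sr_pos.le]

theorem ellU_sp (hP : P.ok) {w : Nat} {ka : St α → Bool} {st : St α}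
    (ha : ∀ s, ka s = true → Bad o ι P s) (h : ellU o w ka st = true) : Bad o ι P st := by
  intro t p q I
  have ht := I.tt
  rcases st with ⟨bx, llo, lhi, facts, gam, root, ls5, ls6, ini, d5⟩
  unfold ellU at h
  dsimp only at h
  obtain ⟨j, w, h, -⟩ := rdN_sp h
  obtain ⟨c, w, h⟩ := rd_sp L.rd h
  obtain ⟨c1, c2, c3, c4, h, hj, el⟩ := pairC_sp L P t h
  obtain ⟨f, qm, qp, h, ef, q1, q2⟩ := qtm_sp L hP ht I.bx h
  rw [← el] at q1 q2
  simp only [L.frc] at h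
  obtain ⟨g, h, -, eg⟩ := axF_sp L P t h
  obtain ⟨l, h, e2⟩ := updJ_sp L P h
  refine ha _ h t p q { I with facts := List.forall_mem_cons.2 ⟨?_, I.facts⟩ }
  dsimp only
  rw [eg, e2, cF_valF L, zL_val L, ef]
  simp only [L.neg, L.mul, L.s1, L.s4, dbl_val L]
  linarith [mul_nonneg (pow_pos Sr_pos 4).le (sq_nonneg (lenJ P j - ι c)),
    mul_le_mul_of_nonneg_left q2 Sr_pos.le]

theorem split_sp {w : Nat} {ka kb : St α → Bool} {st : St α}
    (ha : ∀ s, ka s = true → Bad o ι P s) (hb : ∀ s, kb s = true → Bad o ι P s)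
    (h : split o w ka kb st = true) : Bad o ι P st := by
  intro t p q I
  rcases st with ⟨bx, llo, lhi, facts, gam, root, ls5, ls6, ini, d5⟩
  unfold split at h
  dsimp only at h
  obtain ⟨n, w, h, -⟩ := rdN_sp h
  obtain ⟨v, w, h⟩ := rd_sp (rdO_ex L) h
  rcases cnd_sp h with ⟨-, h⟩ | ⟨-, h⟩
  · obtain ⟨h1, h2⟩ := band_sp h
    obtain ⟨hi, h1, hn, a1, a2⟩ := set7_sp o h1
    obtain ⟨lo, h2, -, a3, a4⟩ := set7_sp o h2
    obtain ⟨b1, h1, e1⟩ := updBx_sp (P := P) (t := t) L h1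
    obtain ⟨b2, h2, e2⟩ := updBx_sp (P := P) (t := t) L h2
    have old := InV_iff.1 I.bx.box n hn
    rcases le_total (zc P n) (ι (get7 o o.base n) + t * ι v) with c | c
    · exact ha _ h1 t p q { I with
        bx := e1 I.tt I.bx (InV_set I.bx.box (fun _ _ _ => rfl) a2 ⟨old.1, by rw [a1]; exact c⟩) }
    · exact hb _ h2 t p q { I with
        bx := e2 I.tt I.bx (InV_set I.bx.box a4 (fun _ _ _ => rfl) ⟨by rw [a3]; exact c, old.2⟩) }
  · obtain ⟨j, h, -⟩ := frcN_sp h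
    obtain ⟨h1, h2⟩ := band_sp h
    obtain ⟨hi, h1, hn, a1, a2⟩ := set10_sp o h1
    obtain ⟨lo, h2, -, a3, a4⟩ := set10_sp o h2
    have old := InL_iff.1 I.rng j hn
    rcases le_total (lenJ P j) (ι (get10 o o.basel j) + t * ι v) with c | c
    · exact ha _ h1 t p q { I with
        rng := InL_set I.rng (fun _ _ _ => rfl) a2 ⟨old.1, by rw [a1]; exact c⟩ }
    · exact hb _ h2 t p q { I with
        rng := InL_set I.rng a4 (fun _ _ _ => rfl) ⟨by rw [a3]; exact c, old.2⟩ }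

theorem negLn_sp {a : Line α} {k : Line α → Bool} (h : negLn o a k = true) :
    ∃ b, k b = true ∧ ∀ t r, lvP ι t b r = -lvP ι t a r := by
  cases a
  simp only [negLn, L.frc] at h
  exact ⟨_, h, fun t r => by simp only [lvP, L.neg]; ring⟩

theorem cut_sp {w : Nat} {ka kb : St α → Bool} {st : St α}
    (ha : ∀ s, ka s = true → Bad o ι P s) (hb : ∀ s, kb s = true → Bad o ι P s)
    (h : cut o w ka kb st = true) : Bad o ι P st := by
  intro t p q I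
  rcases st with ⟨bx, llo, lhi, facts, gam, root, ls5, ls6, ini, d5⟩
  unfold cut at h
  dsimp only at h
  obtain ⟨s, w, h, -⟩ := rdN_sp h
  obtain ⟨a, w, h⟩ := rd_sp L.rdLine h
  obtain ⟨b, h, e⟩ := negLn_sp L h
  rcases cnd_sp h with ⟨-, h⟩ | ⟨-, h⟩
  · rcases le_total 0 (lvP ι t a p) with c | c
    · exact ha _ (band_sp h).1 t p q { I with ls5 := List.forall_mem_cons.2 ⟨c, I.ls5⟩ }
    · exact hb _ (band_sp h).2 t p q { I with
        ls5 := List.forall_mem_cons.2 ⟨by rw [e]; linarith, I.ls5⟩ }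
  · rcases le_total 0 (lvP ι t a q) with c | c
    · exact ha _ (band_sp h).1 t p q { I with ls6 := List.forall_mem_cons.2 ⟨c, I.ls6⟩ }
    · exact hb _ (band_sp h).2 t p q { I with
        ls6 := List.forall_mem_cons.2 ⟨by rw [e]; linarith, I.ls6⟩ }

omit L in
theorem gam_keep {gam gam' : List G3} {n : Nat} {p' q' : ℝ × ℝ}
    (h : ∀ g ∈ gam, Lg P.al P.be P.ga (P.pt p q g.i) (P.pt p q g.j) (P.pt p q g.k))
    (hs : ∀ g ∈ gam', g ∈ gam ∧ gLe n g = true) (e : ∀ i ≤ n, P.pt p' q' i = P.pt p q i) :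
    ∀ g ∈ gam', Lg P.al P.be P.ga (P.pt p' q' g.i) (P.pt p' q' g.j) (P.pt p' q' g.k) := by
  intro g hg
  obtain ⟨h1, h2, h3⟩ := gLe_sp (hs g hg).2
  rw [e _ h1, e _ h2, e _ h3]
  exact h g (hs g hg).1

theorem addLn_sp {w : Nat} {ka kb : St α → Bool} {st : St α}
    (ha : ∀ s, ka s = true → Bad o ι P s) (hb : ∀ s, kb s = true → Bad o ι P s)
    (h : addLn o w ka kb st = true) : Bad o ι P st := by
  intro t p q I
  rcases st with ⟨bx, llo, lhi, facts, gam, root, ls5, ls6, ini, d5⟩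
  unfold addLn at h
  dsimp only at h
  obtain ⟨a, w, h⟩ := rd_sp L.rdLine h
  obtain ⟨b, h, e⟩ := negLn_sp L h
  obtain ⟨h1, h2⟩ := band_sp h
  obtain ⟨gam', h1, g1⟩ := lfil_sp h1
  obtain ⟨root', h2, g2⟩ := lmask_sp h2
  refine hb _ h2 t p q { I with
    root := List.forall_mem_cons.2 ⟨fun r hr => ?_, fun c hc => I.root c (g2 c hc)⟩ }
  by_contra hn
  exact ha _ h1 t r q { I with
    hp := hr
    gam := gam_keep I.gam g1 fun i hi => pt_ne5 P _ _ _ (by omega)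
    ls5 := List.forall_mem_cons.2 ⟨by rw [e]; linarith, fun c hc => I.root c hc r hr⟩
    ls6 := by simp
    ini := (zA_val L _ _).ge
    d5 := fun _ => (zA_val L _ _).ge }

theorem dotL_ex (c : α) (b l : L10 α) : ∃ r, ∀ k, dotL o c b l k = k r := by
  cases b; cases l
  exact ⟨_, fun k => by simp only [dotL, fma_eq L]; rfl⟩

theorem rdU_sp {w : Nat} {k : Fx α → L10 α → Nat → Bool} (h : rdU o w k = true) :
    ∃ f l w', k f l w' = true := by
  unfold rdU at h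
  obtain ⟨u0, w, h⟩ := rd_sp L.rd h
  obtain ⟨u1, w, h⟩ := rd_sp L.rd1 h
  obtain ⟨a0, w, h⟩ := rd_sp (rdM_ex L _) h
  obtain ⟨a1, w, h⟩ := rd_sp (rdM_ex L _) h
  obtain ⟨a2, w, h⟩ := rd_sp (rdM_ex L _) h
  obtain ⟨a3, w, h⟩ := rd_sp (rdM_ex L _) h
  obtain ⟨a4, w, h⟩ := rd_sp (rdM_ex L _) h
  obtain ⟨a5, w, h⟩ := rd_sp (rdM_ex L _) h
  obtain ⟨a6, w, h⟩ := rd_sp (rdM_ex L _) h
  obtain ⟨ch, w, h⟩ := rd_sp (rdM_ex L _) h
  obtain ⟨l, w, h⟩ := rd_sp (rd10_ex (rdM_ex L _)) h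
  simp only [L.frc, fma_eq L] at h
  rcases cnd_sp h with ⟨-, h⟩ | ⟨-, h⟩
  · generalize o.base = b at h
    cases b
    generalize fmaV o _ _ _ = c at h
    obtain ⟨r, e⟩ := dotL_ex L c o.basel l
    rw [e] at h
    exact ⟨_, _, _, h⟩
  · exact ⟨_, _, _, h⟩

theorem dirM_val (s : Nat) (c1 c2 c3 c4 ex ey : α) (p q : ℝ × ℝ) :
    valM ι P t p q (dirM o s c1 c2 c3 c4 ex ey) =
      Sr ^ 3 * crs (dvec ι P t c1 c2 c3 c4 ex ey) (cnd (Nat.beq s 0) p q) := by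
  have S0 := Sr_pos.ne'
  unfold dirM
  cases Nat.beq s 0 <;>
    simp only [cnd_true, cnd_false, valM, L.zero, crs, dvec, Prm.V, Prm.pt] <;> field_simp <;> ring

theorem side_sp {s : Nat} {f : Fx α} {l : L10 α} {m : Mx α} {ka : St α → Bool} {st : St α}
    (ha : ∀ s, ka s = true → Bad o ι P s) (h : side o s f l m ka st = true) (I : Inv o ι P st t p q)
    {φ : ℝ × ℝ → ℝ} (hm : ∀ p q, valM ι P t p q m = φ (cnd (Nat.beq s 0) p q)) :
    ∀ r ∈ P.X, valF ι P t f + valL ι P l + φ r < 0 := by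
  intro r hr
  by_contra hn
  push Not at hn
  rcases st with ⟨bx, llo, lhi, facts, gam, root, ls5, ls6, ini, d5⟩
  unfold side at h
  dsimp only at h
  obtain ⟨f4, h, -, e1⟩ := axF_sp L P t h
  obtain ⟨l4, h, e2⟩ := axL_sp L P h
  obtain ⟨m4, h, e3⟩ := axM_sp L P t h
  have hi : ∀ p q, cnd (Nat.beq s 0) p q = r → 0 ≤ valA ι P t p q ⟨f4, l4, m4⟩ := fun p q e => by
    simp only [valA, e1, e2, e3, zF_valF L, zL_val L, zM_val L, hm, e, L.s4]
    linarith [mul_nonneg (pow_pos Sr_pos 4).le hn]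
  rcases cnd_sp h with ⟨hs, h⟩ | ⟨hs, h⟩
  · obtain ⟨gam', h, g1⟩ := lfil_sp h
    exact ha _ h t r q { I with
      hp := hr
      gam := gam_keep I.gam g1 fun i hi => pt_ne5 P _ _ _ (by omega)
      ls5 := fun c hc => I.root c hc r hr
      ls6 := by simp
      ini := hi r q (by rw [hs, cnd_true])
      d5 := fun u => by simpa only [valA, hm, hs, cnd_true] using hn }
  · obtain ⟨gam', h, g1⟩ := lfil_sp h
    exact ha _ h t p r { I with
      hq := hr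
      gam := gam_keep I.gam g1 fun i hi => pt_ne6 P _ _ _ (by omega)
      ls6 := fun c hc => I.root c hc r hr
      ini := hi p r (by rw [hs, cnd_false]) }

theorem sides_sp (hP : P.ok) {s w : Nat} {c1 c2 c3 c4 ex ey : α} {ka kb : St α → Bool} {st : St α}
    (ha : ∀ s, ka s = true → Bad o ι P s) (hb : ∀ s, kb s = true → Bad o ι P s)
    {k : Fx α → L10 α → Bool} (h : sides o s c1 c2 c3 c4 ex ey w ka kb st k = true)
    (I : Inv o ι P st t p q) : ∃ nf nl, k nf nl = true ∧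
      ι o.phi * Sr * (Sr * Lf P.al P.be P.ga (dvec ι P t c1 c2 c3 c4 ex ey)) ≤
        -(valF ι P t nf + valL ι P nl) := by
  obtain ⟨f, l, w, h⟩ := rdU_sp L h
  obtain ⟨g, l2, w, h⟩ := rdU_sp L h
  simp only [L.frc, band_eq] at h
  obtain ⟨h1, h2, h⟩ := h
  obtain ⟨nf, h, -, e1⟩ := axF_sp L P t h
  obtain ⟨nl, h, e2⟩ := axL_sp L P h
  obtain ⟨a, ma, b, mb, e⟩ := hP.wid (dvec ι P t c1 c2 c3 c4 ex ey)
  have s1 := side_sp L ha h1 I (φ := fun r => Sr ^ 3 * crs (dvec ι P t c1 c2 c3 c4 ex ey) r)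
    (dirM_val L s c1 c2 c3 c4 ex ey) a ma
  have s2 := side_sp L hb h2 I (φ := fun r => -(Sr ^ 3 * crs (dvec ι P t c1 c2 c3 c4 ex ey) r))
    (fun p q => by rw [dirM_val L]; simp only [dvec, crs, L.neg]; ring) b mb
  refine ⟨nf, nl, h, ?_⟩
  rw [e1, e2, ofN_val L]
  have c := mul_le_mul_of_nonneg_right L.phi1
    (mul_nonneg (pow_pos Sr_pos 2).le (Lf_nonneg (al := P.al) (be := P.be) (ga := P.ga)
      (dvec ι P t c1 c2 c3 c4 ex ey)))
  push_cast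
  linarith [mul_le_mul_of_nonneg_left e (pow_pos Sr_pos 3).le]

theorem queryP_sp (hP : P.ok) {s w : Nat} {ka kb kc : St α → Bool} {st : St α}
    (ha : ∀ s, ka s = true → Bad o ι P s) (hb : ∀ s, kb s = true → Bad o ι P s)
    (hc : ∀ s, kc s = true → Bad o ι P s) (h : queryP o s w ka kb kc st = true) : Bad o ι P st := by
  intro t p q I
  obtain ⟨j, w, h, -⟩ := rdN_sp h
  obtain ⟨c1, c2, c3, c4, h, hj, el⟩ := pairC_sp L P t h
  simp only [L.frc] at h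
  obtain ⟨nf, nl, h, e⟩ := sides_sp L hP ha hb h I
  obtain ⟨f, h, -, e1⟩ := axF_sp L P t h
  obtain ⟨l, h, e2⟩ := axL_sp L P h
  obtain ⟨l2, h, e3⟩ := updJ_sp L P h
  refine addFact_sp hc h I ?_
  rw [← el] at e
  rw [e1, e3, e2, zF_valF L, zL_val L]
  simp only [L.neg, L.mul, L.s3, L.s4]
  linarith [mul_le_mul_of_nonneg_left e (pow_pos Sr_pos 3).le]

theorem queryG_sp (hP : P.ok) {s w : Nat} {ka kb kc : St α → Bool} {st : St α}
    (ha : ∀ s, ka s = true → Bad o ι P s) (hb : ∀ s, kb s = true → Bad o ι P s)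
    (hc : ∀ s, kc s = true → Bad o ι P s) (h : queryG o s w ka kb kc st = true) : Bad o ι P st := by
  intro t p q I
  have ht := I.tt
  unfold queryG at h
  obtain ⟨c1, w, h⟩ := rd_sp (rdO_ex L) h
  obtain ⟨c2, w, h⟩ := rd_sp L.rd h
  obtain ⟨c3, w, h⟩ := rd_sp L.rd h
  obtain ⟨c4, w, h⟩ := rd_sp (rdO_ex L) h
  obtain ⟨ex, w, h⟩ := rd_sp L.rd1 h
  obtain ⟨ey, w, h⟩ := rd_sp L.rd1 h
  obtain ⟨b, w, h⟩ := rd_sp L.rd h
  obtain ⟨r, w, h⟩ := rd_sp (rdO_ex L) h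
  simp only [L.frc] at h
  obtain ⟨nf, nl, h, e⟩ := sides_sp L hP ha hb h I
  obtain ⟨f, qm, qp, h, ef, q1, q2⟩ := qtm_sp L hP ht I.bx h
  have l0 := mul_nonneg Sr_pos.le (Lf_nonneg (al := P.al) (be := P.be) (ga := P.ga)
    (dvec ι P t c1 c2 c3 c4 (o.mul ex o.s1) (o.mul ey o.s1)))
  generalize Sr * Lf P.al P.be P.ga _ = ell at e q1 q2 l0
  simp only [band_eq] at h
  obtain ⟨⟨h1, h2⟩, h3, h⟩ := h
  have b0 := L.lez _ h1
  have u1 := loOK_sp L ht I.bx h2 l0 q1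
  rw [L.neg] at b0 u1
  have ps := mul_pos L.phi0 Sr_pos
  have u2 : ell ≤ ι b + t * ι r := by
    rcases bor_sp h3 with h3 | h3
    · exact upOK_sp L ht I.bx h3 q2
    · obtain ⟨g, h3, -, e1⟩ := axF_sp L P t h3
      obtain ⟨l, h3, e2⟩ := axL_sp L P h3
      have := nonposA_sp L ht I.bx I.rng h3
      rw [e1, e2, cF_valF L, zL_val L] at this
      simp only [L.neg, L.mul, L.s1, m1_val L] at this
      exact le_of_mul_le_mul_left (by linarith) ps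
  obtain ⟨g, h, -, e1⟩ := axF_sp L P t h
  obtain ⟨g2, h, -, e2⟩ := axF_sp L P t h
  obtain ⟨l, h, e3⟩ := axL_sp L P h
  refine addFact_sp hc h I ?_
  rw [e2, e1, e3, cF_valF L, zL_val L, ef]
  simp only [L.neg, L.mul, L.add, L.s2, L.s3, dbl_val L]
  have b1 : (ell - ι b) ^ 2 ≤ t * (ι r * ι r) := by
    have := sq_le_sq' (a := ell - ι b) (b := t * ι r) (by linarith) (by linarith)
    nlinarith [mul_nonneg (mul_nonneg ht.1.le (sub_nonneg.2 ht.2.1)) (sq_nonneg (ι r))]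
  linarith [mul_le_mul_of_nonneg_left b1 (mul_pos L.phi0 (pow_pos Sr_pos 3)).le,
    mul_le_mul_of_nonneg_left q1 L.phi0.le,
    mul_le_mul_of_nonneg_left e (mul_nonneg (pow_pos Sr_pos 2).le (by linarith : 0 ≤ 2 * ι b))]

end

end Pool.Agent.Lib.MP_9d820d_co
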