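import Pool.Agent.Lib.MP_9d820d_co.Sem

set_option autoImplicit false

namespace Pool.Agent.Lib.MP_9d820d_co

@[simp] theorem cnd_true {β : Type} (a b : β) : cnd true a b = a := rfl
@[simp] theorem cnd_false {β : Type} (a b : β) : cnd false a b = b := rfl
theorem cnd_sp {c a b : Bool} (h : cnd c a b = true) :
    (c = true ∧ a = true) ∨ (c = false ∧ b = true) := by
  cases c
  · exact Or.inr ⟨rfl, h⟩
  · exact Or.inl ⟨rfl, h⟩
theorem band_eq (a b : Bool) : band a b = true ↔ a = true ∧ b = true := by cases a <;> simp [band]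
theorem bor_eq (a b : Bool) : bor a b = true ↔ a = true ∨ b = true := by cases a <;> simp [bor]
theorem band_sp {a b : Bool} (h : band a b = true) : a = true ∧ b = true := (band_eq a b).1 h
theorem bor_sp {a b : Bool} (h : bor a b = true) : a = true ∨ b = true := (bor_eq a b).1 h
theorem frcN_eq (n : Nat) (k : Nat → Bool) : frcN n k = k n := by cases n <;> rfl
theorem frcB_eq (b : Bool) (k : Bool → Bool) : frcB b k = k b := by cases b <;> rfl
theorem frcI_eq (n : Int) (k : Int → Bool) : frcI n k = k n := by cases n <;> simp [frcI, frcN_eq]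
theorem frcN_sp {n : Nat} {k : Nat → Bool} (h : frcN n k = true) : ∃ m, k m = true ∧ m = n :=
  ⟨n, by rwa [frcN_eq] at h, rfl⟩
theorem ble_sp {a b : Nat} (h : Nat.ble a b = true) : a ≤ b := Nat.le_of_ble_eq_true h
theorem ble_ns {a b : Nat} (h : Nat.ble a b = false) : b < a := by
  by_contra hc
  rw [Nat.ble_eq_true_of_le (not_lt.1 hc)] at h
  cases h
theorem beq_sp {a b : Nat} (h : Nat.beq a b = true) : a = b := Nat.eq_of_beq_eq_true h
theorem beq_ns {a b : Nat} (h : Nat.beq a b = false) : a ≠ b := Nat.ne_of_beq_eq_false h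

theorem nsub_eq (m n : Nat) : nsub m n = (m : Int) - n := by
  unfold nsub
  cases h : Nat.ble n m
  · have : ¬ n ≤ m := fun h' => by rw [Nat.ble_eq_true_of_le h'] at h; cases h
    show Int.negSucc (n - (m + 1)) = _
    omega
  · have : n ≤ m := Nat.le_of_ble_eq_true h
    show ((m - n : Nat) : Int) = _
    omega
theorem nneg_eq (n : Nat) : nneg n = -(n : Int) := by cases n <;> rfl
theorem iadd_eq (a b : Int) : iadd a b = a + b := by
  cases a <;> cases b <;> simp only [iadd, nsub_eq, Nat.add_eq, Nat.succ_eq_add_one, Int.ofNat_eq_natCast] <;> omega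
theorem isub_eq (a b : Int) : isub a b = a - b := by
  cases a <;> cases b <;> simp only [isub, nsub_eq, Nat.add_eq, Nat.succ_eq_add_one, Int.ofNat_eq_natCast] <;> omega
theorem imul_eq (a b : Int) : imul a b = a * b := by
  cases a <;> cases b <;>
    simp only [imul, nneg_eq, Nat.mul_eq, Nat.succ_eq_add_one, Int.ofNat_eq_natCast, Int.negSucc_eq] <;>
    push_cast <;> ring
theorem ineg_eq (a : Int) : ineg a = -a := by
  cases a <;> simp only [ineg, nneg_eq, Nat.succ_eq_add_one, Int.ofNat_eq_natCast] <;> omega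
theorem iabs_eq (a : Int) : iabs a = |a| := by
  cases a with
  | ofNat m => simp [iabs]
  | negSucc m =>
    show ((m + 1 : Nat) : Int) = _
    rw [abs_of_neg (Int.negSucc_lt_zero m)]; omega
theorem iltz_eq (a : Int) : iltz a = true ↔ a < 0 := by
  cases a with
  | ofNat m => simp [iltz]
  | negSucc m => simp [iltz]
theorem ilez_eq (a : Int) : ilez a = true ↔ a ≤ 0 := by
  cases a with
  | ofNat m => cases m <;> simp [ilez]
  | negSucc m => simp only [ilez, true_iff]; omega
theorem iisz_eq (a : Int) (h : iisz a = true) : a = 0 := by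
  cases a with
  | ofNat m => cases m <;> simp_all [iisz]
  | negSucc m => simp [iisz] at h
theorem ibeq_eq (a b : Int) (h : ibeq a b = true) : a = b := by
  cases a <;> cases b <;> simp_all [ibeq]
theorem ifdiv_eq (a : Int) {d : Nat} (hd : d ≠ 0) : ifdiv a d = a / (d : Int) := by
  obtain ⟨e, rfl⟩ := Nat.exists_eq_succ_of_ne_zero hd
  cases a <;> rfl

theorem cases8 (n : Nat) :
    n = 0 ∨ n = 1 ∨ n = 2 ∨ n = 3 ∨ n = 4 ∨ n = 5 ∨ n = 6 ∨ ∃ m, n = m + 7 := by
  rcases n with _ | _ | _ | _ | _ | _ | _ | n <;> simp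
theorem cases11 (n : Nat) : n = 0 ∨ n = 1 ∨ n = 2 ∨ n = 3 ∨ n = 4 ∨ n = 5 ∨ n = 6 ∨ n = 7 ∨ n = 8 ∨
    n = 9 ∨ ∃ m, n = m + 10 := by
  rcases n with _ | _ | _ | _ | _ | _ | _ | _ | _ | _ | n <;> simp

section
variable {β : Type} (x0 x1 x2 x3 x4 x5 x6 x7 x8 x9 xd : β)
theorem sel7_d (m : Nat) : sel7 (m + 7) x0 x1 x2 x3 x4 x5 x6 xd = xd := rfl
theorem sel10_d (m : Nat) : sel10 (m + 10) x0 x1 x2 x3 x4 x5 x6 x7 x8 x9 xd = xd := by
  have e : Nat.sub (m + 10) 5 = m + 5 := rfl
  have e2 : Nat.ble (m + 10) 4 = false := rfl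
  unfold sel10
  rw [e, e2, cnd_false]
  rcases m with _ | _ | m <;> rfl
end

theorem nthK_true {β : Type} {k : β → Bool} {l : List β} :
    ∀ {i : Nat}, nthK l i k = true → ∃ a ∈ l, k a = true := by
  induction l with
  | nil => intro i h; simp [nthK] at h
  | cons a l ih =>
    intro i h
    cases i with
    | zero => exact ⟨a, by simp, h⟩
    | succ j =>
      obtain ⟨b, hb, hk⟩ := ih (i := j) h
      exact ⟨b, by simp [hb], hk⟩
theorem lall_true {β : Type} {f : β → Bool} {l : List β} (h : lall l f = true) :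
    ∀ a ∈ l, f a = true := by
  induction l with
  | nil => simp
  | cons a l ih =>
    have h' := (band_eq _ _).1 h
    intro b hb
    rcases List.mem_cons.1 hb with rfl | hb
    · exact h'.1
    · exact ih h'.2 b hb
theorem lany_true {β : Type} {f : β → Bool} {l : List β} (h : lany l f = true) :
    ∃ a ∈ l, f a = true := by
  induction l with
  | nil => simp [lany] at h
  | cons a l ih =>
    rcases (bor_eq _ _).1 h with h' | h'
    · exact ⟨a, by simp, h'⟩
    · obtain ⟨b, hb, hk⟩ := ih h'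
      exact ⟨b, by simp [hb], hk⟩
theorem lfil_sp {β : Type} {f : β → Bool} {l : List β} : ∀ {k : List β → Bool}, lfil l f k = true →
    ∃ r, k r = true ∧ ∀ a ∈ r, a ∈ l ∧ f a = true := by
  induction l with
  | nil => intro k h; exact ⟨[], h, by simp⟩
  | cons a l ih =>
    intro k h
    obtain ⟨r, h, hr⟩ := ih (k := fun r => cnd (f a) (k (a :: r)) (k r)) h
    rcases cnd_sp h with ⟨h1, h⟩ | ⟨-, h⟩
    · refine ⟨_, h, fun b hb => ?_⟩
      rcases List.mem_cons.1 hb with rfl | hb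
      · exact ⟨by simp, h1⟩
      · exact ⟨by simp [(hr b hb).1], (hr b hb).2⟩
    · exact ⟨_, h, fun b hb => ⟨by simp [(hr b hb).1], (hr b hb).2⟩⟩
theorem lmask_sp {β : Type} {l : List β} : ∀ {m : Nat} {k : List β → Bool}, lmask l m k = true →
    ∃ r, k r = true ∧ ∀ a ∈ r, a ∈ l := by
  induction l with
  | nil => intro m k h; exact ⟨[], h, by simp⟩
  | cons a l ih =>
    intro m k h
    obtain ⟨m2, h, -⟩ := frcN_sp (n := Nat.div m 2) (k := fun m2 => lmask l m2 (fun r =>
      cnd (Nat.beq (Nat.mod m 2) 0) (k r) (k (a :: r)))) h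
    obtain ⟨r, h, hr⟩ := ih h
    rcases cnd_sp h with ⟨-, h⟩ | ⟨-, h⟩
    · exact ⟨_, h, fun b hb => by simp [hr b hb]⟩
    · refine ⟨_, h, fun b hb => ?_⟩
      rcases List.mem_cons.1 hb with rfl | hb
      · simp
      · simp [hr b hb]
theorem isNil_sp {β : Type} {l : List β} (h : isNil l = true) : l = [] := by
  cases l with
  | nil => rfl
  | cons a l => cases h

theorem rdN_eq (p w : Nat) (k : Nat → Nat → Bool) : rdN p w k = k (w % p) (w / p) := by
  unfold rdN; rw [frcN_eq, frcN_eq]; rfl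
theorem rdN_sp {p w : Nat} {k : Nat → Nat → Bool} (h : rdN p w k = true) :
    ∃ u w', k u w' = true ∧ u = w % p := ⟨_, _, by rwa [rdN_eq] at h, rfl⟩
theorem rdV_ex (p w : Nat) : ∃ a w', ∀ k, rdV p w k = k a w' :=
  ⟨_, _, fun k => by unfold rdV; rw [rdN_eq, frcN_eq, rdN_eq, frcI_eq]⟩
theorem rdI_ex (w : Nat) : ∃ a w', ∀ k, rdI w k = k a w' := rdV_ex 32 w
theorem rdB_ex (w : Nat) : ∃ a w', ∀ k, rdB w k = k a w' := rdV_ex 256 w
theorem rd_sp {β : Type} {r : Nat → (β → Nat → Bool) → Bool} (hr : ∀ w, ∃ a w', ∀ k, r w k = k a w')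
    {w : Nat} {k : β → Nat → Bool} (h : r w k = true) : ∃ a w', k a w' = true := by
  obtain ⟨a, w', e⟩ := hr w
  exact ⟨a, w', by rwa [e] at h⟩

theorem Sr_pos : 0 < Sr := by unfold Sr; norm_num

theorem icor_real {ax ay bx by' ca cb c d x y : ℤ} (hd : 0 < d) (e : d = ax * by' - ay * bx)
    (hx : x = (ay * cb - by' * ca) / d) (hy : y = (bx * ca - ax * cb) / d) :
    (ca = c + (|ax| + |ay|) → ax * x + ay * y + c ≤ 0) ∧
      (cb = c + (|bx| + |by'|) → bx * x + by' * y + c ≤ 0) := by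
  obtain ⟨r1, a1, b1, c1⟩ : ∃ r, ay * cb - by' * ca = d * x + r ∧ 0 ≤ r ∧ r < d :=
    ⟨_, by rw [hx]; exact (Int.mul_ediv_add_emod _ _).symm, Int.emod_nonneg _ hd.ne',
      Int.emod_lt_of_pos _ hd⟩
  obtain ⟨r2, a2, b2, c2⟩ : ∃ r, bx * ca - ax * cb = d * y + r ∧ 0 ≤ r ∧ r < d :=
    ⟨_, by rw [hy]; exact (Int.mul_ediv_add_emod _ _).symm, Int.emod_nonneg _ hd.ne',
      Int.emod_lt_of_pos _ hd⟩
  have key : ∀ u r : ℤ, 0 ≤ r → r < d → -(u * r) ≤ |u| * d := fun u r h0 h1 => by
    have := neg_abs_le u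
    have := abs_nonneg u
    nlinarith
  constructor
  · intro hc
    have k1 := key ax r1 b1 c1
    have k2 := key ay r2 b2 c2
    have : d * (ax * x + ay * y + c) ≤ 0 := by
      have : d * (ax * x + ay * y + ca) = -(ax * r1) - ay * r2 := by
        linear_combination (-ax) * a1 - ay * a2 + ca * e
      rw [hc] at this
      nlinarith
    by_contra hn
    push Not at hn
    nlinarith
  · intro hc
    have k1 := key bx r1 b1 c1
    have k2 := key by' r2 b2 c2
    have : d * (bx * x + by' * y + c) ≤ 0 := by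
      have : d * (bx * x + by' * y + cb) = -(bx * r1) - by' * r2 := by
        linear_combination (-bx) * a1 - by' * a2 + cb * e
      rw [hc] at this
      nlinarith
    by_contra hn
    push Not at hn
    nlinarith

theorem gphi_sq : gphi * gphi = gphi + 1 := by
  have h : Real.sqrt 5 * Real.sqrt 5 = 5 := Real.mul_self_sqrt (by norm_num)
  unfold gphi; nlinarith
theorem gphi_pos : 0 < gphi := by unfold gphi; positivity

theorem lawful_i (lo hi : V7 Int) : Lawful (iops lo hi) (fun a : Int => (a : ℝ)) where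
  add a b := by show ((iadd a b : Int) : ℝ) = _; rw [iadd_eq]; push_cast; rfl
  sub a b := by show ((isub a b : Int) : ℝ) = _; rw [isub_eq]; push_cast; rfl
  mul a b := by show ((imul a b : Int) : ℝ) = _; rw [imul_eq]; push_cast; rfl
  neg a := by show ((ineg a : Int) : ℝ) = _; rw [ineg_eq]; push_cast; rfl
  abs a := by show ((iabs a : Int) : ℝ) = _; rw [iabs_eq]; push_cast; rfl
  ofI n := rfl
  ltz a := by
    show iltz a = true ↔ (a : ℝ) < 0
    rw [iltz_eq]; exact_mod_cast Iff.rfl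
  lez a h := by
    have := (ilez_eq a).1 h
    show (a : ℝ) ≤ 0
    exact_mod_cast this
  isz a h := by
    show (a : ℝ) = 0
    rw [iisz_eq a h]; simp
  beq a b h := ibeq_eq a b h
  frc a k := frcI_eq a k
  rd w := rdI_ex w
  rd1 w := ⟨_, _, fun _ => rfl⟩
  rdL w := rdB_ex w
  rdLine w := by
    obtain ⟨c, w', e⟩ := rdI_ex (w / 8192 / 8192)
    refine ⟨⟨nsub (w % 8192) 4096, nsub (w / 8192 % 8192) 4096, imul c (Int.ofNat 8192), Int.ofNat 0⟩,
      w', fun k => ?_⟩
    show iRdLine w k = _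
    unfold iRdLine
    rw [rdN_eq, rdN_eq, e, frcI_eq, frcI_eq, frcI_eq]
  cor a b w k h := by
    rcases a with ⟨ax, ay, a0, a1⟩
    rcases b with ⟨bx, by', b0, b1⟩
    change iCor ⟨ax, ay, a0, a1⟩ (iAux ⟨ax, ay, a0, a1⟩) ⟨bx, by', b0, b1⟩ (iAux ⟨bx, by', b0, b1⟩) w k = true
      at h
    simp only [iCor, iAux] at h
    cases hd : isub (imul ax by') (imul ay bx) with
    | negSucc m => rw [hd] at h; cases h
    | ofNat d =>
      rw [hd] at h
      simp only [frcN_eq, frcI_eq] at h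
      rcases cnd_sp h with ⟨-, h⟩ | ⟨h0, h⟩
      · cases h
      have h0 := beq_ns h0
      simp only [isub_eq, imul_eq, iadd_eq, iabs_eq, ifdiv_eq _ h0] at h hd
      have hd0 : (0 : ℤ) < d := by omega
      have k1 := (icor_real (c := a0 + a1) (ca := a0 + a1 + (|ax| + |ay|))
        (cb := b0 + b1 + (|bx| + |by'|)) hd0 hd.symm rfl rfl).1 rfl
      have k2 := (icor_real (c := b0 + b1) (ca := a0 + a1 + (|ax| + |ay|))
        (cb := b0 + b1 + (|bx| + |by'|)) hd0 hd.symm rfl rfl).2 rfl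
      refine ⟨_, _, h, ?_, fun t ht => ?_, fun _ => ⟨by simp, by simp⟩⟩
      · have : (0 : ℤ) < ax * by' - ay * bx := by rw [hd]; exact hd0
        show (0 : ℝ) < (ax : ℝ) * (by' : ℝ) - (ay : ℝ) * (bx : ℝ)
        exact_mod_cast this
      · have t1 : t = 1 := ht.2.2 rfl
        subst t1
        generalize (ay * (b0 + b1 + (|bx| + |by'|)) - by' * (a0 + a1 + (|ax| + |ay|))) / (d : ℤ) = x
          at k1 k2 ⊢
        generalize (bx * (a0 + a1 + (|ax| + |ay|)) - ax * (b0 + b1 + (|bx| + |by'|))) / (d : ℤ) = y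
          at k1 k2 ⊢
        have k1' : (ax : ℝ) * x + ay * y + (a0 + a1) ≤ 0 := by exact_mod_cast k1
        have k2' : (bx : ℝ) * x + by' * y + (b0 + b1) ≤ 0 := by exact_mod_cast k2
        simp only [lvV, Int.ofNat_eq_natCast, Nat.cast_zero, Int.cast_zero]
        constructor <;> linarith
  ctr b lo hi := by
    refine ⟨ifdiv (iadd lo hi) 2, isub hi (ifdiv (iadd lo hi) 2), fun k => ?_, fun hb t x ht h1 h2 => ?_⟩
    · show iCtr b lo hi k = _
      unfold iCtr
      rw [frcI_eq, frcI_eq]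
    · have t1 : t = 1 := ht.2.2 rfl
      have hb : (b : ℝ) = 0 := hb rfl
      subst t1
      have e : 2 * ifdiv (iadd lo hi) 2 ≤ lo + hi := by
        rw [ifdiv_eq _ (by norm_num), iadd_eq]; push_cast; omega
      have e' : 2 * (ifdiv (iadd lo hi) 2 : ℝ) ≤ lo + hi := by exact_mod_cast e
      simp only [isub_eq] at h1 h2 ⊢
      push_cast
      rw [abs_le]
      constructor <;> linarith
  zero := by simp [iops]
  s1 := by simp [iops, Sr]
  hf := by simp only [iops, Sr, Int.ofNat_eq_natCast]; norm_num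
  s2 := by simp only [iops, Sr, Int.ofNat_eq_natCast]; norm_num
  s3 := by simp only [iops, Sr, Int.ofNat_eq_natCast]; norm_num
  s4 := by simp only [iops, Sr, Int.ofNat_eq_natCast]; norm_num
  phi0 := by simp only [iops, Int.ofNat_eq_natCast]; norm_num
  phi1 := by
    have : (37514986 / 16777212 : ℝ) ≤ Real.sqrt 5 := Real.le_sqrt_of_sq_le (by norm_num)
    simp only [iops, Sr, gphi, Int.ofNat_eq_natCast]
    push_cast
    linarith
  base0 _ n := by
    rcases cases8 n with rfl | rfl | rfl | rfl | rfl | rfl | rfl | ⟨m, rfl⟩ <;>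
      exact Int.cast_zero
  basel0 _ n := by
    rcases cases11 n with rfl | rfl | rfl | rfl | rfl | rfl | rfl | rfl | rfl | rfl | ⟨m, rfl⟩
    on_goal 11 => simp only [get10, iops, sel10_d]
    all_goals exact Int.cast_zero

theorem zadd_val (x y : ZP) : (zadd x y).val = x.val + y.val := by
  cases x; cases y; simp only [zadd, ZP.val, iadd_eq]; push_cast; ring
theorem zsub_val (x y : ZP) : (zsub x y).val = x.val - y.val := by
  cases x; cases y; simp only [zsub, ZP.val, isub_eq]; push_cast; ring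
theorem zmul_val (x y : ZP) : (zmul x y).val = x.val * y.val := by
  rcases x with ⟨a, b⟩; rcases y with ⟨c, d⟩
  simp only [zmul, ZP.val, iadd_eq, imul_eq]; push_cast
  linear_combination (-(b : ℝ) * d) * gphi_sq
theorem zneg_val (x : ZP) : (zneg x).val = -x.val := by
  cases x; simp only [zneg, ZP.val, ineg_eq]; push_cast; ring
theorem zltzA_iff (u v : Int) : zltzA u v = true ↔ (u : ℝ) + v * Real.sqrt 5 < 0 := by
  have h5 : Real.sqrt 5 * Real.sqrt 5 = 5 := Real.mul_self_sqrt (by norm_num)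
  have hp : 0 < Real.sqrt 5 := Real.sqrt_pos.2 (by norm_num)
  have e5 : (Int.ofNat 5 : Int) = 5 := rfl
  unfold zltzA
  rw [frcI_eq, frcI_eq]
  cases hv : iltz v
  · have hv' : (0 : ℝ) ≤ v := by
      have : ¬ v < 0 := fun h => by rw [(iltz_eq v).2 h] at hv; cases hv
      exact_mod_cast not_lt.1 this
    rw [cnd_false, band_eq, iltz_eq, iltz_eq, isub_eq, imul_eq, imul_eq, imul_eq, e5]
    have hw : 0 ≤ (v : ℝ) * Real.sqrt 5 := by positivity
    constructor
    · rintro ⟨h1, h2⟩
      have h1' : (u : ℝ) < 0 := by exact_mod_cast h1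
      have h2' : (5 : ℝ) * (v * v) - u * u < 0 := by exact_mod_cast h2
      by_contra hc
      push Not at hc
      nlinarith
    · intro h
      have h1' : (u : ℝ) < 0 := by linarith
      have h2' : (5 : ℝ) * (v * v) - u * u < 0 := by nlinarith
      exact ⟨by exact_mod_cast h1', by exact_mod_cast h2'⟩
  · have hv' : (v : ℝ) < 0 := by exact_mod_cast (iltz_eq v).1 hv
    rw [cnd_true, bor_eq, ilez_eq, iltz_eq, isub_eq, imul_eq, imul_eq, imul_eq, e5]
    have hw : (v : ℝ) * Real.sqrt 5 < 0 := by nlinarith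
    constructor
    · rintro (h1 | h2)
      · have h1' : (u : ℝ) ≤ 0 := by exact_mod_cast h1
        linarith
      · have h2' : (u : ℝ) * u - 5 * (v * v) < 0 := by exact_mod_cast h2
        by_contra hc
        push Not at hc
        nlinarith
    · intro h
      by_cases hu : u ≤ 0
      · exact Or.inl hu
      · right
        have hu' : (0 : ℝ) < u := by exact_mod_cast not_le.1 hu
        have h2' : (u : ℝ) * u - 5 * (v * v) < 0 := by nlinarith
        exact_mod_cast h2'
theorem zltz_iff (x : ZP) : zltz x = true ↔ x.val < 0 := by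
  rcases x with ⟨a, b⟩
  show zltzA (iadd (iadd a a) b) b = true ↔ _
  rw [zltzA_iff, iadd_eq, iadd_eq]
  simp only [ZP.val, gphi]; push_cast
  constructor <;> intro h <;> linarith
theorem zabs_val (x : ZP) : (zabs x).val = |x.val| := by
  unfold zabs
  cases h : zltz x
  · have : ¬ x.val < 0 := fun h' => by rw [(zltz_iff x).2 h'] at h; cases h
    rw [cnd_false, abs_of_nonneg (not_lt.1 this)]
  · rw [cnd_true, zneg_val, abs_of_neg ((zltz_iff x).1 h)]
theorem zlez_val (x : ZP) (h : zlez x = true) : x.val ≤ 0 := by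
  unfold zlez at h
  cases h' : zltz (zneg x)
  · have : ¬ (zneg x).val < 0 := fun h'' => by rw [(zltz_iff _).2 h''] at h'; cases h'
    rw [zneg_val] at this; linarith
  · rw [h'] at h; cases h
theorem zbeq_eq (x y : ZP) (h : zbeq x y = true) : x = y := by
  rcases x with ⟨a, b⟩; rcases y with ⟨c, d⟩
  have h' := (band_eq _ _).1 h
  rw [ibeq_eq _ _ h'.1, ibeq_eq _ _ h'.2]
theorem zfrc_eq (x : ZP) (k : ZP → Bool) : zfrc x k = k x := by
  cases x; simp [zfrc, frcI_eq]
theorem zI_val (a : Int) : (zI a).val = a := by simp [zI, ZP.val]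
theorem zRd_ex (w : Nat) : ∃ a w', ∀ k, zRd w k = k a w' := by
  obtain ⟨a, w1, e1⟩ := rdI_ex w
  obtain ⟨b, w2, e2⟩ := rdI_ex w1
  exact ⟨_, _, fun k => by unfold zRd; rw [e1, e2]⟩
theorem zRd1_ex (w : Nat) : ∃ a w', ∀ k, zRd1 w k = k a w' := by
  obtain ⟨a, w1, e1⟩ := rdI_ex w
  exact ⟨_, _, fun k => by unfold zRd1; rw [e1]⟩
theorem zRdL_ex (w : Nat) : ∃ a w', ∀ k, zRdL w k = k a w' := by
  obtain ⟨a, w1, e1⟩ := rdB_ex w
  obtain ⟨b, w2, e2⟩ := rdB_ex w1
  exact ⟨_, _, fun k => by unfold zRdL; rw [e1, e2]⟩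
theorem zOut_sp {a : Line ZP} {x0 y0 x1 y1 : ZP} (h : zOut a x0 y0 x1 y1 = true) {t : ℝ}
    (h0 : 0 < t) (h1 : t ≤ 1) : lvV ZP.val a ⟨x0, y0, x1, y1⟩ t ≤ 0 := by
  rcases a with ⟨nx, ny, c0, c1⟩
  simp only [zOut, zLeT, zfrc_eq] at h
  have a1 := zlez_val _ (band_sp h).1
  have a2 := zlez_val _ (band_sp h).2
  simp only [zadd_val, zmul_val] at a1 a2
  simp only [lvV]
  nlinarith

theorem lawful_z : Lawful zops ZP.val where
  add := zadd_val
  sub := zsub_val
  mul := zmul_val
  neg := zneg_val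
  abs := zabs_val
  ofI := zI_val
  ltz := zltz_iff
  lez := zlez_val
  isz a h := by
    rcases a with ⟨a, b⟩
    have h' := band_sp (a := iisz a) (b := iisz b) h
    simp [ZP.val, iisz_eq _ h'.1, iisz_eq _ h'.2]
  beq := zbeq_eq
  frc := zfrc_eq
  rd := zRd_ex
  rd1 := zRd1_ex
  rdL := zRdL_ex
  rdLine w := by
    obtain ⟨a, w1, e1⟩ := zRd_ex w
    obtain ⟨b, w2, e2⟩ := zRd_ex w1
    obtain ⟨c, w3, e3⟩ := zRdL_ex w2
    obtain ⟨d, w4, e4⟩ := rdB_ex w3
    refine ⟨⟨a, b, c, ⟨d, Int.ofNat 0⟩⟩, w4, fun k => ?_⟩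
    show zRdLine w k = _
    unfold zRdLine
    rw [e1, e2, e3, e4]
  cor a b w k h := by
    change zCor a z0 b z0 w k = true at h
    unfold zCor at h
    obtain ⟨x0, w, h⟩ := rd_sp zRd_ex h
    obtain ⟨y0, w, h⟩ := rd_sp zRd_ex h
    obtain ⟨x1, w, h⟩ := rd_sp zRd1_ex h
    obtain ⟨y1, w, h⟩ := rd_sp zRd1_ex h
    obtain ⟨h1, h⟩ := band_sp h
    obtain ⟨h1, h2⟩ := band_sp h1
    obtain ⟨h2, h3⟩ := band_sp h2
    rw [zltz_iff, zsub_val, zmul_val, zmul_val] at h1
    refine ⟨_, _, h, by linarith, fun t ht => ⟨zOut_sp h2 ht.1 ht.2.1, zOut_sp h3 ht.1 ht.2.1⟩,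
      fun hi => by cases hi⟩
  ctr b lo hi := by
    refine ⟨b, cnd (zltz (zsub (zabs lo) (zabs hi))) (zabs hi) (zabs lo), fun k => ?_,
      fun _ t x ht h1 h2 => ?_⟩
    · show zCtr b lo hi k = _
      unfold zCtr
      rw [zfrc_eq, zfrc_eq, zfrc_eq]
      cases zltz (zsub (zabs lo) (zabs hi)) <;> rfl
    · have t0 := ht.1
      have a1 := neg_abs_le lo.val
      have a2 := le_abs_self hi.val
      rw [abs_le]
      cases hc : zltz (zsub (zabs lo) (zabs hi))
      · have : ¬ (zsub (zabs lo) (zabs hi)).val < 0 := fun h' => by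
          rw [(zltz_iff _).2 h'] at hc; cases hc
        rw [zsub_val, zabs_val, zabs_val] at this
        rw [cnd_false, zabs_val]
        constructor <;> nlinarith
      · have := (zltz_iff _).1 hc
        rw [zsub_val, zabs_val, zabs_val] at this
        rw [cnd_true, zabs_val]
        constructor <;> nlinarith
  zero := by simp [zops, z0, ZP.val]
  s1 := by simp [zops, zL1, ZP.val, Sr]
  hf := by simp only [zops, ZP.val, Sr, Int.ofNat_eq_natCast]; norm_num
  s2 := by simp only [zops, ZP.val, Sr, Int.ofNat_eq_natCast]; norm_num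
  s3 := by simp only [zops, ZP.val, Sr, Int.ofNat_eq_natCast]; norm_num
  s4 := by simp only [zops, ZP.val, Sr, Int.ofNat_eq_natCast]; norm_num
  phi0 := by
    have := gphi_pos
    simp only [zops, ZP.val, Int.ofNat_eq_natCast]; push_cast; linarith
  phi1 := by simp only [zops, ZP.val, Sr, Int.ofNat_eq_natCast]; push_cast; linarith
  base0 h := by cases h
  basel0 h := by cases h

end Pool.Agent.Lib.MP_9d820d_co
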