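import Pool.Agent.Lib.MP_9d820d_co.Box

set_option autoImplicit false

namespace Pool.Agent.Lib.MP_9d820d_co

noncomputable section

/-- the scaled quadratic form -/
def Qz (P : Prm) (x y : ℝ) : ℝ := Sr * P.al * x ^ 2 + 2 * (Sr * P.be) * x * y + Sr * P.ga * y ^ 2

theorem rem_real {z4 z5 z6 b4 b5 b6 w4 w5 w6 vx vy dx dy wx wy t : ℝ} (t0 : 0 < t) (t1 : t ≤ 1)
    (h4 : |z4 - b4| ≤ t * w4) (h5 : |z5 - b5| ≤ t * w5) (h6 : |z6 - b6| ≤ t * w6)
    (hx : |dx| ≤ t * wx) (hy : |dy| ≤ t * wy) :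
    |((z4 - b4) * vx + (z5 - b5) * vy) * dx + ((z5 - b5) * vx + (z6 - b6) * vy) * dy| ≤
      t * (wx * (w4 * |vx| + w5 * |vy|) + wy * (w5 * |vx| + w6 * |vy|)) ∧
    z4 * dx ^ 2 + 2 * z5 * dx * dy + z6 * dy ^ 2 ≤
      t * (wx * ((|b4| + w4) * wx + 2 * ((|b5| + w5) * wy)) + (|b6| + w6) * (wy * wy)) := by
  have p4 := w_nonneg t0 h4
  have p5 := w_nonneg t0 h5
  have p6 := w_nonneg t0 h6
  have px := w_nonneg t0 hx
  have py := w_nonneg t0 hy
  have tw : ∀ {w : ℝ}, 0 ≤ w → t * w ≤ w := fun hw => by nlinarith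
  have g4 := h4.trans (tw p4)
  have g5 := h5.trans (tw p5)
  have g6 := h6.trans (tw p6)
  have ab : ∀ {z b w : ℝ}, |z - b| ≤ w → |z| ≤ |b| + w := fun {z b w} h => by
    have := abs_add_le (z - b) b
    rw [sub_add_cancel] at this
    linarith
  constructor
  · have e1 : |(z4 - b4) * vx + (z5 - b5) * vy| ≤ w4 * |vx| + w5 * |vy| :=
      (abs_add_le _ _).trans (add_le_add (abs_mul_le g4 le_rfl) (abs_mul_le g5 le_rfl))
    have e2 : |(z5 - b5) * vx + (z6 - b6) * vy| ≤ w5 * |vx| + w6 * |vy| :=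
      (abs_add_le _ _).trans (add_le_add (abs_mul_le g5 le_rfl) (abs_mul_le g6 le_rfl))
    have := (abs_add_le _ _).trans (add_le_add (abs_mul_le e1 hx) (abs_mul_le e2 hy))
    linarith
  · have m1 := (le_abs_self _).trans (abs_mul_le (abs_mul_le (ab g4) (hx.trans (tw px))) hx)
    have m2 := (le_abs_self _).trans (abs_mul_le (abs_mul_le (ab g5) (hy.trans (tw py))) hx)
    have m3 := (le_abs_self _).trans (abs_mul_le (abs_mul_le (ab g6) (hy.trans (tw py))) hy)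
    linarith

theorem ceil_real (m h0 : ℕ) (ell : ℝ) : (m : ℝ) * ell ≤
    ((Nat.div (Nat.add (Nat.mul m 32768) h0) (Nat.succ h0) : ℕ) : ℝ) * ell ^ 2 +
      ((Nat.div (Nat.add (Nat.mul m (Nat.succ h0)) 131071) 131072 : ℕ) : ℝ) := by
  have a1 : m * 32768 ≤ (m * 32768 + h0) / (h0 + 1) * (h0 + 1) := by
    have := Nat.lt_div_mul_add (a := m * 32768 + h0) (b := h0 + 1) (by omega)
    omega
  have a2 : m * (h0 + 1) ≤ (m * (h0 + 1) + 131071) / 131072 * 131072 := by omega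
  show (m : ℝ) * ell ≤ (((m * 32768 + h0) / (h0 + 1) : ℕ) : ℝ) * ell ^ 2 +
    (((m * (h0 + 1) + 131071) / 131072 : ℕ) : ℝ)
  generalize (m * 32768 + h0) / (h0 + 1) = A at *
  generalize (m * (h0 + 1) + 131071) / 131072 = B at *
  have b1 : (m : ℝ) * 32768 ≤ A * (h0 + 1) := by exact_mod_cast a1
  have b2 : (m : ℝ) * (h0 + 1) ≤ B * 131072 := by exact_mod_cast a2
  have hp : (0 : ℝ) < h0 + 1 := by positivity
  generalize (h0 : ℝ) + 1 = h at *
  refine le_of_mul_le_mul_right ?_ hp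
  have c1 := mul_le_mul_of_nonneg_right b1 (sq_nonneg ell)
  have c2 := mul_le_mul_of_nonneg_right b2 hp.le
  have c3 := mul_nonneg (Nat.cast_nonneg (α := ℝ) m) (sq_nonneg (65536 * ell - h))
  nlinarith

section
variable {α : Type} (o : Ops α) (ι : α → ℝ) (P : Prm)

def vtx (t : ℝ) (v : Vx α) : ℝ × ℝ := ((ι v.x0 + t * ι v.x1) / Sr, (ι v.y0 + t * ι v.y1) / Sr)
def Flat (v : Vx α) : Prop := o.inner = false → ι v.x1 = 0 ∧ ι v.y1 = 0
def ddx (bx : Bx α) (i : Nat) : ℝ :=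
  if i = 1 then Sr * P.x1 - ι bx.B.a0 else if i = 4 then Sr * P.x4 - ι bx.B.a2 else 0
def ddy (bx : Bx α) (i : Nat) : ℝ :=
  if i = 1 then Sr * P.y1 - ι bx.B.a1 else if i = 4 then Sr * P.y4 - ι bx.B.a3 else 0

end

variable {α : Type} {o : Ops α} {ι : α → ℝ} {P : Prm} {t : ℝ}

theorem Qz_eq (hP : P.ok) (v : ℝ × ℝ) (s : ℝ) :
    Qz P (s * v.1) (s * v.2) = Sr * s ^ 2 * Lf P.al P.be P.ga v ^ 2 := by
  rw [Lf_sq hP.psd]; unfold Qz Qf; ring

variable (L : Lawful o ι)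
include L

theorem remB_sp (hP : P.ok) (ht : TT o t) {bx : Bx α} (hb : BxOK o ι P t bx) {vx vy wx wy : α}
    {k : α → α → Bool} (h : remB o bx vx vy wx wy k = true) : ∃ qm qp, k qm qp = true ∧
      ∀ dx dy, |dx| ≤ t * ι wx → |dy| ≤ t * ι wy →
        Qz P (ι vx) (ι vy) + 2 * (ι bx.B.a4 * ι vx + ι bx.B.a5 * ι vy) * dx +
          2 * (ι bx.B.a5 * ι vx + ι bx.B.a6 * ι vy) * dy - t * ι qm ≤ Qz P (ι vx + dx) (ι vy + dy) ∧
        Qz P (ι vx + dx) (ι vy + dy) ≤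
          Qz P (ι vx) (ι vy) + 2 * (ι bx.B.a4 * ι vx + ι bx.B.a5 * ι vy) * dx +
            2 * (ι bx.B.a5 * ι vx + ι bx.B.a6 * ι vy) * dy + t * ι qp := by
  have k4 := hb.c4
  have k5 := hb.c5
  have k6 := hb.c6
  have a4 := hb.A4
  have a5 := hb.A5
  have a6 := hb.A6
  rcases bx with ⟨lo, hi, B, ⟨w0, w1, w2, w3, w4, w5, w6⟩, A4, A5, A6, r7, chB⟩
  simp only [remB, L.frc] at h
  refine ⟨_, _, h, fun dx dy hx hy => ?_⟩
  obtain ⟨r1, r2⟩ := rem_real (vx := ι vx) (vy := ι vy) ht.1 ht.2.1 k4 k5 k6 hx hy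
  have r3 := mul_nonneg Sr_pos.le (hP.psd (dx, dy))
  rw [abs_le] at r1
  dsimp only at a4 a5 a6 r1 r2
  simp only [Qf] at r3
  simp only [Qz, dbl_val L, L.add, L.mul, L.abs, a4, a5, a6]
  constructor <;> linarith [r1.1, r1.2]

theorem qtm_sp (hP : P.ok) (ht : TT o t) {bx : Bx α} (hb : BxOK o ι P t bx) {c1 c2 c3 c4 ex ey : α}
    {k : Fx α → α → α → Bool} (h : qtm o bx c1 c2 c3 c4 ex ey k = true) :
    ∃ f qm qp, k f qm qp = true ∧ valF ι P t f = valN ι P t f ∧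
      valN ι P t f - t * ι qm ≤
        Sr ^ 3 * (Sr * Lf P.al P.be P.ga (dvec ι P t c1 c2 c3 c4 ex ey)) ^ 2 ∧
      Sr ^ 3 * (Sr * Lf P.al P.be P.ga (dvec ι P t c1 c2 c3 c4 ex ey)) ^ 2 ≤
        valN ι P t f + t * ι qp := by
  have k0 := hb.c0
  have k1 := hb.c1
  have k2 := hb.c2
  have k3 := hb.c3
  have t0 := ht.1
  have S0 := Sr_pos.ne'
  have e := Qz_eq hP (dvec ι P t c1 c2 c3 c4 ex ey) (Sr ^ 2)
  rcases bx with ⟨lo, hi, ⟨b0, b1, b2, b3, b4, b5, b6⟩, ⟨w0, w1, w2, w3, w4, w5, w6⟩, A4, A5, A6, r7, chB⟩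
  simp only [qtm, L.frc] at h
  obtain ⟨qm, qp, h, hq⟩ := remB_sp L hP ht hb h
  dsimp only at k0 k1 k2 k3
  have tr : ∀ {a b c : ℝ}, |a + b + c| ≤ |c| + (|a| + |b|) := fun {a b c} => by
    linarith [abs_add_le (a + b) c, abs_add_le a b]
  obtain ⟨q1, q2⟩ := hq (ι c1 * (Sr * P.x1 - ι b0) + ι c4 * (Sr * P.x4 - ι b2) + t * ι ex)
    (ι c1 * (Sr * P.y1 - ι b1) + ι c4 * (Sr * P.y4 - ι b3) + t * ι ey)
    (by
      refine tr.trans ?_
      have := abs_mul_le (le_refl |ι c1|) k0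
      have := abs_mul_le (le_refl |ι c4|) k2
      simp only [L.add, L.mul, L.abs]
      rw [abs_mul t, abs_of_pos t0]
      linarith)
    (by
      refine tr.trans ?_
      have := abs_mul_le (le_refl |ι c1|) k1
      have := abs_mul_le (le_refl |ι c4|) k3
      simp only [L.add, L.mul, L.abs]
      rw [abs_mul t, abs_of_pos t0]
      linarith)
  refine ⟨_, _, _, h, by rw [valF_eq, L.zero]; ring, ?_⟩
  have e1 : Sr ^ 2 * (dvec ι P t c1 c2 c3 c4 ex ey).1 = ι c1 * ι b0 + ι c4 * ι b2 + Sr * (ι c2 + ι c3) +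
      (ι c1 * (Sr * P.x1 - ι b0) + ι c4 * (Sr * P.x4 - ι b2) + t * ι ex) := by
    simp only [dvec]; field_simp; ring
  have e2 : Sr ^ 2 * (dvec ι P t c1 c2 c3 c4 ex ey).2 = ι c1 * ι b1 + ι c4 * ι b3 +
      Sr / 2 * (ι c3 - ι c2) +
      (ι c1 * (Sr * P.y1 - ι b1) + ι c4 * (Sr * P.y4 - ι b3) + t * ι ey) := by
    simp only [dvec]; field_simp; ring
  rw [e1, e2] at e
  simp only [L.add, L.mul, L.sub, L.s1, L.hf] at q1 q2
  rw [e] at q1 q2
  simp only [valN, val4, val3, L.add, L.mul, L.sub, L.neg, L.s1, L.hf, dbl_val L]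
  generalize ι c1 * ι b0 + ι c4 * ι b2 + Sr * (ι c2 + ι c3) = vx at *
  generalize ι c1 * ι b1 + ι c4 * ι b3 + Sr / 2 * (ι c3 - ι c2) = vy at *
  simp only [Qz] at q1 q2
  constructor <;> linarith

theorem upOK_sp (ht : TT o t) {bx : Bx α} (hb : BxOK o ι P t bx) {f : Fx α} {qp b u : α}
    (h : upOK o bx f qp b u = true) {ell : ℝ} (hq : Sr ^ 3 * ell ^ 2 ≤ valN ι P t f + t * ι qp) :
    ell ≤ ι b + t * ι u := by
  obtain ⟨h1, h2⟩ := band_sp h
  have g1 := leT_sp L ht h1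
  have g2 := nonposF_sp L ht hb h2
  simp only [L.neg, L.mul, L.sub, L.add, L.s3, dbl_val L, ofN_val L] at g1 g2
  have S3 : 0 < Sr ^ 3 := pow_pos Sr_pos 3
  refine (abs_le_of_sq_le_sq' (le_of_mul_le_mul_left ?_ S3) (by linarith)).2
  cases hi : o.inner
  · rw [hi, cnd_false] at g2
    have := ht.2.2 hi
    subst this
    push_cast at g2
    linarith
  · rw [hi, cnd_true, L.zero] at g2
    push_cast at g2
    nlinarith [mul_nonneg S3.le (sq_nonneg (t * ι u))]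

theorem loOK_sp (ht : TT o t) {bx : Bx α} (hb : BxOK o ι P t bx) {f : Fx α} {qm b d : α}
    (h : loOK o bx f qm b d = true) {ell : ℝ} (h0 : 0 ≤ ell)
    (hq : valN ι P t f - t * ι qm ≤ Sr ^ 3 * ell ^ 2) : ι b + t * ι d ≤ ell := by
  rcases bor_sp h with h | h
  · linarith [leT_sp L ht h]
  · have g2 := nonposF_sp L ht hb h
    simp only [L.mul, L.add, L.s3, dbl_val L, m1_val L] at g2
    have S3 : 0 < Sr ^ 3 := pow_pos Sr_pos 3
    refine (abs_le_of_sq_le_sq' (le_of_mul_le_mul_left ?_ S3) h0).2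
    have : t * t ≤ t := by nlinarith [ht.1, ht.2.1]
    nlinarith [mul_le_mul_of_nonneg_left this (mul_nonneg S3.le (sq_nonneg (ι d)))]

theorem ptUpd_sp (ht : TT o t) {bx : Bx α} (hb : BxOK o ι P t bx) {m1 m4 kx ky ex ey : α} {f : Fx α}
    {v : Vx α} (hv : Flat o ι v) {k : Fx α → Bool} (h : ptUpd o bx m1 m4 kx ky ex ey f v k = true) :
    ∃ r, k r = true ∧ val3 ι P r = val3 ι P f ∧ val4 ι P t f +
      Sr * crs (ι m1 * (Sr * P.x1) + ι m4 * (Sr * P.x4) + ι kx + t * ι ex,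
        ι m1 * (Sr * P.y1) + ι m4 * (Sr * P.y4) + ι ky + t * ι ey) (vtx ι t v) ≤ val4 ι P t r := by
  have S0 := Sr_pos.ne'
  rcases f with ⟨c0, c1, a0, a1, a2, a3, a4, a5, a6, ch⟩
  rcases v with ⟨x0, y0, x1, y1⟩
  simp only [ptUpd, L.frc, fma_eq L] at h
  have e : ∀ K : ℝ × ℝ, Sr * crs K (vtx ι t ⟨x0, y0, x1, y1⟩) =
      K.1 * (ι y0 + t * ι y1) - K.2 * (ι x0 + t * ι x1) := fun K => by
    simp only [crs, vtx]; field_simp
  rw [e]
  rcases cnd_sp h with ⟨-, h⟩ | ⟨hi, h⟩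
  · refine ⟨_, h, rfl, ?_⟩
    have t0 := ht.1
    have tw : ∀ {x w : ℝ}, |x| ≤ t * w → |x| ≤ w := fun h => by
      have := w_nonneg t0 h
      nlinarith [ht.2.1]
    have tr : ∀ {a b c : ℝ}, |a + b + t * c| ≤ |c| + (|a| + |b|) := fun {a b c} => by
      have := abs_add_le (a + b) (t * c)
      rw [abs_mul, abs_of_pos t0] at this
      nlinarith [abs_add_le a b, abs_nonneg c, ht.2.1]
    have u1 : |ι m1 * (Sr * P.x1 - ι bx.B.a0) + ι m4 * (Sr * P.x4 - ι bx.B.a2) + t * ι ex| ≤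
        |ι ex| + (|ι m1| * ι bx.W.a0 + |ι m4| * ι bx.W.a2) :=
      tr.trans (by
        linarith [abs_mul_le (le_refl |ι m1|) (tw hb.c0), abs_mul_le (le_refl |ι m4|) (tw hb.c2)])
    have u2 : |ι m1 * (Sr * P.y1 - ι bx.B.a1) + ι m4 * (Sr * P.y4 - ι bx.B.a3) + t * ι ey| ≤
        |ι ey| + (|ι m1| * ι bx.W.a1 + |ι m4| * ι bx.W.a3) :=
      tr.trans (by
        linarith [abs_mul_le (le_refl |ι m1|) (tw hb.c1), abs_mul_le (le_refl |ι m4|) (tw hb.c3)])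
    have v1 := mul_le_mul_of_nonneg_left (abs_le.1 (abs_mul_le (le_refl |ι y1|) u1)).2 t0.le
    have v2 := mul_le_mul_of_nonneg_left (abs_le.1 (abs_mul_le (le_refl |ι x1|) u2)).1 t0.le
    simp only [val4, fmaV_val L, L.add, L.mul, L.sub, L.neg, L.abs]
    linarith
  · refine ⟨_, h, rfl, ?_⟩
    obtain ⟨z1, z2⟩ := hv hi
    dsimp only at z1 z2
    simp only [val4, fmaV_val L, L.add, L.mul, L.neg, z1, z2]
    linarith

theorem pnt_sp {bx : Bx α} (hb : BxOK o ι P t bx) {v5 v6 : Vx α} (h5 : Flat o ι v5)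
    (h6 : Flat o ι v6) {i : Nat} {k : α → α → α → α → α → α → Bool}
    (h : pnt o bx v5 v6 i k = true) : ∃ x0 y0 x1 y1 wx wy, k x0 y0 x1 y1 wx wy = true ∧
      Sr * (P.pt (vtx ι t v5) (vtx ι t v6) i).1 = ι x0 + t * ι x1 + ddx ι P bx i ∧
      Sr * (P.pt (vtx ι t v5) (vtx ι t v6) i).2 = ι y0 + t * ι y1 + ddy ι P bx i ∧
      |ddx ι P bx i| ≤ t * ι wx ∧ |ddy ι P bx i| ≤ t * ι wy ∧
      (o.inner = false → ι x1 = 0 ∧ ι y1 = 0) := by
  have S0 := Sr_pos.ne'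
  rcases cases8 i with rfl | rfl | rfl | rfl | rfl | rfl | rfl | ⟨a, rfl⟩
  on_goal 8 => exact Bool.noConfusion h
  all_goals change k _ _ _ _ _ _ = true at h
  · exact ⟨_, _, _, _, _, _, h, by simp [Prm.pt, ddx, ddy, L.zero]⟩
  · exact ⟨_, _, _, _, _, _, h, by simp [Prm.pt, ddx, L.zero], by simp [Prm.pt, ddy, L.zero],
      hb.c0, hb.c1, fun _ => ⟨L.zero, L.zero⟩⟩
  · exact ⟨_, _, _, _, _, _, h, by simp [Prm.pt, ddx, L.zero, L.s1],
      by simp [Prm.pt, ddy, L.zero, L.neg, L.hf]; ring, by simp [ddx, ddy, L.zero]⟩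
  · exact ⟨_, _, _, _, _, _, h, by simp [Prm.pt, ddx, L.zero, L.s1],
      by simp [Prm.pt, ddy, L.zero, L.hf]; ring, by simp [ddx, ddy, L.zero]⟩
  · exact ⟨_, _, _, _, _, _, h, by simp [Prm.pt, ddx, L.zero], by simp [Prm.pt, ddy, L.zero],
      hb.c2, hb.c3, fun _ => ⟨L.zero, L.zero⟩⟩
  · exact ⟨_, _, _, _, _, _, h, by simp [Prm.pt, ddx, vtx]; field_simp,
      by simp [Prm.pt, ddy, vtx]; field_simp, by simp [ddx, L.zero], by simp [ddy, L.zero], h5⟩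
  · exact ⟨_, _, _, _, _, _, h, by simp [Prm.pt, ddx, vtx]; field_simp,
      by simp [Prm.pt, ddy, vtx]; field_simp, by simp [ddx, L.zero], by simp [ddy, L.zero], h6⟩

omit L in
theorem isVar_ns {bx : Bx α} {i : Nat} (h : isVar i = false) : ddx ι P bx i = 0 ∧ ddy ι P bx i = 0 := by
  have h1 : i ≠ 1 := by rintro rfl; cases h
  have h4 : i ≠ 4 := by rintro rfl; cases h
  simp [ddx, ddy, h1, h4]

theorem qpd2_sp {bx : Bx α} {i mu : Nat} {vx vy cx cy k1 qp : α} {f : Fx α} {k : Fx α → Bool}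
    (h : qpd2 o bx i mu vx vy cx cy k1 qp f k = true) {ell : ℝ}
    (hq : Sr ^ 3 * ell ^ 2 ≤ Qz P (ι vx) (ι vy) + ι cx * ddx ι P bx i + ι cy * ddy ι P bx i + t * ι k1) :
    ∃ r, k r = true ∧ valN ι P t f + mu * Sr ^ 6 * ell ≤ valN ι P t r := by
  rcases f with ⟨c0, c1, a0, a1, a2, a3, a4, a5, a6, ch⟩
  simp only [qpd2, frcN_eq, L.frc, fma_eq L] at h
  have c := ceil_real (Nat.mul mu nS) (o.hnt (o.add (o.mul cx vx) (o.mul cy vy)) qp) ell
  generalize Nat.div (Nat.add (Nat.mul (Nat.mul mu nS) 32768) _) _ = A at h c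
  generalize Nat.div (Nat.add (Nat.mul (Nat.mul mu nS) _) 131071) _ = B at h c
  have e1 : ((Nat.mul mu nS : ℕ) : ℝ) = mu * Sr := by
    rw [Nat.mul_eq]; push_cast; simp only [nS, Sr]; norm_num
  have e2 : ι (ofN o (Nat.mul A nS2)) = A * Sr ^ 2 := by
    rw [ofN_val L, Nat.mul_eq]; push_cast; simp only [nS2, Sr]; norm_num
  have e3 : ι (ofN o (Nat.mul B nS5)) = B * Sr ^ 5 := by
    rw [ofN_val L, Nat.mul_eq]; push_cast; simp only [nS5, Sr]; norm_num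
  generalize ofN o (Nat.mul A nS2) = a at h e2
  generalize ofN o (Nat.mul B nS5) = b at h e3
  rw [e1] at c
  have c1 := mul_le_mul_of_nonneg_left c (pow_pos Sr_pos 5).le
  have c2 := mul_le_mul_of_nonneg_left hq
    (mul_nonneg (Nat.cast_nonneg (α := ℝ) A) (pow_pos Sr_pos 2).le)
  simp only [Qz] at c2
  rcases cnd_sp h with ⟨hv, h⟩ | ⟨hv, h⟩
  · rcases cnd_sp h with ⟨h1, h⟩ | ⟨h1, h⟩
    · rw [beq_sp h1] at c2
      refine ⟨_, h, ?_⟩
      simp only [ddx, ddy, if_true] at c2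
      simp only [valN, val4, val3, fmaV_val L, dbl_val L, L.add, L.mul, L.sub, e2, e3]
      linarith
    · have h4 : i = 4 := by
        rcases bor_sp hv with h | h
        · rw [h] at h1; cases h1
        · exact beq_sp h
      rw [h4] at c2
      refine ⟨_, h, ?_⟩
      simp only [ddx, ddy, if_true, show (4 : ℕ) ≠ 1 by norm_num, if_false] at c2
      simp only [valN, val4, val3, fmaV_val L, dbl_val L, L.add, L.mul, L.sub, e2, e3]
      linarith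
  · rw [(isVar_ns hv).1, (isVar_ns hv).2] at c2
    refine ⟨_, h, ?_⟩
    simp only [valN, val4, val3, fmaV_val L, dbl_val L, L.add, L.mul, e2, e3]
    linarith

theorem qpd_sp (hP : P.ok) (ht : TT o t) {bx : Bx α} (hb : BxOK o ι P t bx) {v5 v6 : Vx α}
    (h5 : Flat o ι v5) (h6 : Flat o ι v6) {g : G3} (hj : g.j = 5 ∨ g.j = 6) {f : Fx α}
    {k : Fx α → Bool} (h : qpd o bx v5 v6 g f k = true) : ∃ r, k r = true ∧
      valN ι P t f + g.k * Sr ^ 6 * Lf P.al P.be P.ga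
        (P.pt (vtx ι t v5) (vtx ι t v6) g.i - P.pt (vtx ι t v5) (vtx ι t v6) g.j) ≤ valN ι P t r := by
  have S0 := Sr_pos.ne'
  rcases g with ⟨i, j, mu⟩
  unfold qpd at h
  dsimp only at hj h ⊢
  obtain ⟨x0, y0, x1, y1, wx, wy, h, e1, e2, d1, d2, hz⟩ := pnt_sp L hb h5 h6 h
  obtain ⟨u, hu, hf, eu⟩ : ∃ u, cnd (Nat.beq j 5) v5 v6 = u ∧ Flat o ι u ∧
      P.pt (vtx ι t v5) (vtx ι t v6) j = vtx ι t u := by
    rcases hj with rfl | rfl
    · exact ⟨v5, rfl, h5, rfl⟩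
    · exact ⟨v6, rfl, h6, rfl⟩
  rw [hu] at h
  rw [eu]
  have e := Qz_eq hP (P.pt (vtx ι t v5) (vtx ι t v6) i - vtx ι t u) Sr
  rcases u with ⟨u0, z0, u1, z1⟩
  have f1 : Sr * (P.pt (vtx ι t v5) (vtx ι t v6) i - vtx ι t ⟨u0, z0, u1, z1⟩).1 =
      ι x0 - ι u0 + (ddx ι P bx i + t * (ι x1 - ι u1)) := by
    rw [Prod.fst_sub, mul_sub, e1]; simp only [vtx]; field_simp; ring
  have f2 : Sr * (P.pt (vtx ι t v5) (vtx ι t v6) i - vtx ι t ⟨u0, z0, u1, z1⟩).2 =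
      ι y0 - ι z0 + (ddy ι P bx i + t * (ι y1 - ι z1)) := by
    rw [Prod.snd_sub, mul_sub, e2]; simp only [vtx]; field_simp; ring
  rw [f1, f2] at e
  generalize Lf P.al P.be P.ga _ = ell at e ⊢
  rcases bx with ⟨lo, hi, ⟨b0, b1, b2, b3, b4, b5, b6⟩, W, A4, A5, A6, r7, chB⟩
  simp only [L.frc] at h
  rcases cnd_sp h with ⟨-, h⟩ | ⟨hi, h⟩
  · obtain ⟨qm, qp, h, hq⟩ := remB_sp L hP ht hb h
    have tr : ∀ {d w c : ℝ}, |d| ≤ t * w → |d + t * c| ≤ t * (w + |c|) := fun {d w c} hd => by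
      have := abs_add_le d (t * c)
      rw [abs_mul, abs_of_pos ht.1] at this
      linarith
    have q := (hq _ _ (by simp only [L.add, L.abs, L.sub]; exact tr d1)
      (by simp only [L.add, L.abs, L.sub]; exact tr d2)).2
    refine qpd2_sp L h ?_
    simp only [L.sub] at q
    rw [e] at q
    simp only [L.add, L.mul, L.sub, dbl_val L]
    linarith
  · obtain ⟨z1, z2⟩ := hz hi
    obtain ⟨z3, z4⟩ := hf hi
    dsimp only at z3 z4
    rw [z1, z2, z3, z4, sub_self, mul_zero, add_zero, add_zero] at e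
    rcases cnd_sp h with ⟨-, h⟩ | ⟨hv, h⟩
    · obtain ⟨qm, qp, h, hq⟩ := remB_sp L hP ht hb h
      have q := (hq _ _ d1 d2).2
      refine qpd2_sp L h ?_
      simp only [L.sub] at q
      rw [e] at q
      simp only [L.add, L.mul, L.sub, dbl_val L]
      linarith
    · refine qpd2_sp L h ?_
      rw [(isVar_ns hv).1, (isVar_ns hv).2] at e ⊢
      simp only [L.sub, L.zero, add_zero, mul_zero] at e ⊢
      linarith

theorem qall_sp (hP : P.ok) (ht : TT o t) {bx : Bx α} (hb : BxOK o ι P t bx) {v5 v6 : Vx α}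
    (h5 : Flat o ι v5) (h6 : Flat o ι v6) {k : Fx α → Bool} {pd : List G3}
    (hj : ∀ g ∈ pd, g.j = 5 ∨ g.j = 6) : ∀ {f : Fx α}, qall o bx v5 v6 pd k f = true →
      ∃ r, k r = true ∧ valN ι P t f + valP P (vtx ι t v5) (vtx ι t v6) pd ≤ valN ι P t r := by
  induction pd with
  | nil => intro f h; exact ⟨f, h, by simp [valP]⟩
  | cons g pd ih =>
    intro f h
    obtain ⟨r, h, e⟩ := qpd_sp L hP ht hb h5 h6 (hj g (by simp)) (k := qall o bx v5 v6 pd k) h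
    obtain ⟨s, h, e2⟩ := ih (fun g hg => hj g (by simp [hg])) h
    refine ⟨s, h, ?_⟩
    simp only [valP, List.map_cons, List.sum_cons] at e2 ⊢
    linarith

end

end Pool.Agent.Lib.MP_9d820d_co
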