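import Pool.Agent.Lib.MP_9d820d_co.Core

set_option autoImplicit false

namespace Pool.Agent.Lib.MP_9d820d_co

noncomputable section

namespace Red

/-- Euclidean length -/
def nr (v : ℝ × ℝ) : ℝ := Real.sqrt (v.1 ^ 2 + v.2 ^ 2)

theorem gphi_ge : (3 / 2 : ℝ) ≤ gphi := by
  have h : (2 : ℝ) ≤ Real.sqrt 5 := Real.le_sqrt_of_sq_le (by norm_num)
  unfold gphi; linarith

/-! ### (A) triples -/

theorem ord_le {a b c wa wb wc D m : ℝ} (hab : a ≤ b) (hbc : b ≤ c) (h1 : |wc - wb| ≤ D)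
    (h2 : |wa - wb| ≤ D) (hm : |a - c| ≤ m) :
    |a * (wb - wc) + b * (wc - wa) + c * (wa - wb)| ≤ D * m := by
  have hD : 0 ≤ D := (abs_nonneg _).trans h1
  have e : a * (wb - wc) + b * (wc - wa) + c * (wa - wb)
      = (b - a) * (wc - wb) + (c - b) * (wa - wb) := by ring
  have hm' : c - a ≤ m := by have := (abs_le.1 hm).1; linarith
  rw [e]
  calc _ ≤ |(b - a) * (wc - wb)| + |(c - b) * (wa - wb)| := abs_add_le _ _
    _ = (b - a) * |wc - wb| + (c - b) * |wa - wb| := by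
        rw [abs_mul, abs_mul, abs_of_nonneg (sub_nonneg.2 hab), abs_of_nonneg (sub_nonneg.2 hbc)]
    _ ≤ (b - a) * D + (c - b) * D := by
        have := sub_nonneg.2 hab
        have := sub_nonneg.2 hbc
        gcongr
    _ = D * (c - a) := by ring
    _ ≤ D * m := by gcongr

theorem tri_le {a b c wa wb wc D m : ℝ} (h1 : |wa - wb| ≤ D) (h2 : |wa - wc| ≤ D)
    (h3 : |wb - wc| ≤ D) (m1 : |a - b| ≤ m) (m2 : |a - c| ≤ m) (m3 : |b - c| ≤ m) :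
    |a * (wb - wc) + b * (wc - wa) + c * (wa - wb)| ≤ D * m := by
  have h1' : |wb - wa| ≤ D := by rwa [abs_sub_comm]
  have h2' : |wc - wa| ≤ D := by rwa [abs_sub_comm]
  have h3' : |wc - wb| ≤ D := by rwa [abs_sub_comm]
  have m1' : |b - a| ≤ m := by rwa [abs_sub_comm]
  have m2' : |c - a| ≤ m := by rwa [abs_sub_comm]
  have m3' : |c - b| ≤ m := by rwa [abs_sub_comm]
  rcases le_total a b with hab | hab <;> rcases le_total b c with hbc | hbc <;>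
    rcases le_total a c with hac | hac
  · exact ord_le hab hbc h3' h1 m2
  · exact ord_le hab hbc h3' h1 m2
  · have := ord_le hac hbc h3 h2 m1
    rw [← abs_neg] at this; convert this using 2; ring
  · have := ord_le hac hab h1' h2' m3'
    convert this using 2; ring
  · have := ord_le hab hac h2' h1' m3
    rw [← abs_neg] at this; convert this using 2; ring
  · have := ord_le hbc hac h2 h3 m1'
    convert this using 2; ring
  · have := ord_le hbc hab h1 h3' m2'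
    rw [← abs_neg] at this; convert this using 2; ring
  · have := ord_le hbc hab h1 h3' m2'
    rw [← abs_neg] at this; convert this using 2; ring

theorem abs_le_nr {u v : ℝ × ℝ} (hu : u.1 ^ 2 + u.2 ^ 2 = 1) :
    |u.1 * v.1 + u.2 * v.2| ≤ nr v := by
  apply Real.abs_le_sqrt
  nlinarith [sq_nonneg (u.1 * v.2 - u.2 * v.1)]

theorem strip_le {u p q s : ℝ × ℝ} {c r m : ℝ} (hu : u.1 ^ 2 + u.2 ^ 2 = 1)
    (hp : |crs u p - c| ≤ r) (hq : |crs u q - c| ≤ r) (hs : |crs u s - c| ≤ r)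
    (m1 : nr (p - q) ≤ m) (m2 : nr (p - s) ≤ m) (m3 : nr (q - s) ≤ m) :
    |cr3 p q s| ≤ 2 * r * m := by
  have key : ∀ a b : ℝ, |a - c| ≤ r → |b - c| ≤ r → |a - b| ≤ 2 * r := by
    intro a b ha hb
    rw [abs_le] at *
    constructor <;> linarith [ha.1, ha.2, hb.1, hb.2]
  have dot : ∀ a b : ℝ × ℝ, nr (a - b) ≤ m →
      |(u.1 * a.1 + u.2 * a.2) - (u.1 * b.1 + u.2 * b.2)| ≤ m := by
    intro a b h
    refine le_trans (le_of_eq ?_) ((abs_le_nr (v := a - b) hu).trans h)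
    congr 1; simp only [Prod.fst_sub, Prod.snd_sub]; ring
  have := tri_le (key _ _ hp hq) (key _ _ hp hs) (key _ _ hq hs) (dot _ _ m1) (dot _ _ m2)
    (dot _ _ m3)
  convert this using 2
  simp only [cr3, crs]
  linear_combination (-(p.1 * q.2 - p.2 * q.1 + (q.1 * s.2 - q.2 * s.1) +
    (s.1 * p.2 - s.2 * p.1))) * hu

/-- the point in coordinates -/
def co (x : EuclideanSpace ℝ (Fin 2)) : ℝ × ℝ := (x 0, x 1)

theorem dist_eq (a b : EuclideanSpace ℝ (Fin 2)) :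
    dist a b = Real.sqrt ((a 0 - b 0) ^ 2 + (a 1 - b 1) ^ 2) := by
  rw [EuclideanSpace.dist_eq]; simp [Fin.sum_univ_two, Real.dist_eq, sq_abs]

theorem line_unit (p v : EuclideanSpace ℝ (Fin 2)) (hv : v ≠ 0) :
    ∃ (u : ℝ × ℝ) (c : ℝ), u.1 ^ 2 + u.2 ^ 2 = 1 ∧
      ∀ (t r : ℝ) (z : EuclideanSpace ℝ (Fin 2)), dist (p + t • v) z ≤ r →
        |crs u (co z) - c| ≤ r := by
  have hpos : 0 < v 0 ^ 2 + v 1 ^ 2 := by
    by_contra hc
    apply hv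
    have h0 : v 0 = 0 := by nlinarith [sq_nonneg (v 0), sq_nonneg (v 1)]
    have h1 : v 1 = 0 := by nlinarith [sq_nonneg (v 0), sq_nonneg (v 1)]
    ext i; fin_cases i <;> simpa
  set N := Real.sqrt (v 0 ^ 2 + v 1 ^ 2) with hN
  have hN0 : 0 < N := Real.sqrt_pos.2 hpos
  have hN2 : N ^ 2 = v 0 ^ 2 + v 1 ^ 2 := Real.sq_sqrt hpos.le
  have hu : (v 0 / N) ^ 2 + (v 1 / N) ^ 2 = 1 := by field_simp; linarith
  refine ⟨(v 0 / N, v 1 / N), crs (v 0 / N, v 1 / N) (co p), hu, fun t r z h => ?_⟩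
  refine le_trans ?_ h
  rw [dist_eq]
  have := abs_le_nr (u := (v 1 / N, -(v 0 / N)))
    (v := ((p + t • v) 0 - z 0, (p + t • v) 1 - z 1)) (by simp only; linarith)
  refine le_trans (le_of_eq ?_) this
  congr 1
  simp only [crs, co, PiLp.add_apply, PiLp.smul_apply, smul_eq_mul]
  ring

/-! ### (B) width -/

theorem strict_width {n : ℕ} (x : Fin n → EuclideanSpace ℝ (Fin 2)) (i₀ : Fin n) {R : ℝ}
    (h : ¬ ∃ p v : EuclideanSpace ℝ (Fin 2), v ≠ 0 ∧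
      ∀ m : Fin n, ∃ t : ℝ, dist (p + t • v) (x m) ≤ R)
    (e : ℝ × ℝ) (he : e.1 ^ 2 + e.2 ^ 2 = 1) :
    ∃ i j, 2 * R < crs e (co (x i)) - crs e (co (x j)) := by
  obtain ⟨i, -, hi⟩ := Finset.exists_max_image Finset.univ (fun i => crs e (co (x i)))
    ⟨i₀, Finset.mem_univ _⟩
  obtain ⟨j, -, hj⟩ := Finset.exists_min_image Finset.univ (fun i => crs e (co (x i)))
    ⟨i₀, Finset.mem_univ _⟩
  refine ⟨i, j, ?_⟩
  by_contra hc
  push Not at hc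
  apply h
  set c := (crs e (co (x i)) + crs e (co (x j))) / 2 with hcdef
  refine ⟨!₂[-c * e.2, c * e.1], !₂[e.1, e.2], ?_, fun m => ⟨e.1 * x m 0 + e.2 * x m 1, ?_⟩⟩
  · intro h0
    have h1 : e.1 = 0 := by simpa using congrArg (fun z : EuclideanSpace ℝ (Fin 2) => z 0) h0
    have h2 : e.2 = 0 := by simpa using congrArg (fun z : EuclideanSpace ℝ (Fin 2) => z 1) h0
    rw [h1, h2] at he; norm_num at he
  · have hm1 := hi m (Finset.mem_univ _)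
    have hm2 := hj m (Finset.mem_univ _)
    have habs : |c - crs e (co (x m))| ≤ R := by
      rw [abs_le]; constructor <;> linarith
    rw [dist_eq]
    refine le_trans (le_of_eq ?_) habs
    rw [← Real.sqrt_sq_eq_abs]
    congr 1
    simp only [crs, co, PiLp.add_apply, PiLp.smul_apply, smul_eq_mul, Matrix.cons_val_zero,
      Matrix.cons_val_one]
    have e1 : -c * e.2 + (e.1 * x m 0 + e.2 * x m 1) * e.1 - x m 0
        = -e.2 * (c - (e.1 * x m 1 - e.2 * x m 0)) := by linear_combination (x m 0) * he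
    have e2 : c * e.1 + (e.1 * x m 0 + e.2 * x m 1) * e.2 - x m 1
        = e.1 * (c - (e.1 * x m 1 - e.2 * x m 0)) := by linear_combination (x m 1) * he
    rw [e1, e2]
    linear_combination (c - (e.1 * x m 1 - e.2 * x m 0)) ^ 2 * he

theorem uniform_width {n : ℕ} (y : Fin n → ℝ × ℝ) (i₀ : Fin n) {R : ℝ} (hR : 0 < R)
    (h : ∀ e : ℝ × ℝ, e.1 ^ 2 + e.2 ^ 2 = 1 → ∃ i j, R < crs e (y i) - crs e (y j)) :
    ∃ lam : ℝ, 1 < lam ∧ ∀ e : ℝ × ℝ, ∃ i j, lam * R * nr e ≤ crs e (y i) - crs e (y j) := by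
  have hne : (Finset.univ : Finset (Fin n × Fin n)).Nonempty := ⟨(i₀, i₀), Finset.mem_univ _⟩
  set F : ℝ × ℝ → ℝ := fun e =>
    Finset.univ.sup' hne fun ij : Fin n × Fin n => crs e (y ij.1) - crs e (y ij.2) with hF
  have hFc : Continuous F := by
    apply Continuous.finset_sup'_apply
    intro ij _
    unfold crs
    fun_prop
  have hK : IsCompact {e : ℝ × ℝ | e.1 ^ 2 + e.2 ^ 2 = 1} := by
    apply Metric.isCompact_of_isClosed_isBounded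
    · exact isClosed_eq (by fun_prop) continuous_const
    · refine (Metric.isBounded_closedBall (x := (0 : ℝ × ℝ)) (r := 1)).subset fun e he => ?_
      simp only [Set.mem_ofPred_eq] at he
      rw [mem_closedBall_zero_iff, Prod.norm_def, max_le_iff, Real.norm_eq_abs, Real.norm_eq_abs,
        abs_le, abs_le]
      refine ⟨⟨?_, ?_⟩, ?_, ?_⟩ <;> nlinarith [sq_nonneg e.1, sq_nonneg e.2]
  obtain ⟨e₀, he₀, hmin⟩ := hK.exists_isMinOn ⟨(1, 0), by simp⟩ hFc.continuousOn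
  have h0 : R < F e₀ := by
    obtain ⟨i, j, hij⟩ := h e₀ he₀
    exact hij.trans_le (Finset.le_sup' (fun ij : Fin n × Fin n =>
      crs e₀ (y ij.1) - crs e₀ (y ij.2)) (Finset.mem_univ (i, j)))
  refine ⟨F e₀ / R, (one_lt_div hR).2 h0, fun e => ?_⟩
  rw [div_mul_cancel₀ _ hR.ne']
  rcases eq_or_lt_of_le (add_nonneg (sq_nonneg e.1) (sq_nonneg e.2)) with hz | hpos
  · refine ⟨i₀, i₀, ?_⟩
    simp [nr, ← hz]
  · set N := nr e with hN
    have hN0 : 0 < N := Real.sqrt_pos.2 hpos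
    have hN2 : N ^ 2 = e.1 ^ 2 + e.2 ^ 2 := Real.sq_sqrt hpos.le
    have hu : (e.1 / N) ^ 2 + (e.2 / N) ^ 2 = 1 := by field_simp; linarith
    have h1 : F e₀ ≤ F (e.1 / N, e.2 / N) := hmin hu
    obtain ⟨ij, -, hij⟩ := Finset.exists_mem_eq_sup' hne
      fun ij : Fin n × Fin n => crs (e.1 / N, e.2 / N) (y ij.1) - crs (e.1 / N, e.2 / N) (y ij.2)
    refine ⟨ij.1, ij.2, ?_⟩
    have h2 : F (e.1 / N, e.2 / N) * N = crs e (y ij.1) - crs e (y ij.2) := by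
      simp only [hF]
      rw [hij]
      simp only [crs]
      field_simp
    rw [← h2]
    gcongr

/-! ### (C) the extremal five-tuple -/

/-- area maximizing five-tuple, with the tie broken by the triangle on vertices 0, 2, 3 -/
structure Ext (Y : Set (ℝ × ℝ)) (V0 V1 V2 V3 V4 : ℝ × ℝ) : Prop where
  m0 : V0 ∈ Y
  m1 : V1 ∈ Y
  m2 : V2 ∈ Y
  m3 : V3 ∈ Y
  m4 : V4 ∈ Y
  mx : ∀ a ∈ Y, ∀ b ∈ Y, ∀ c ∈ Y, ∀ d ∈ Y, ∀ e ∈ Y, sh5 a b c d e ≤ sh5 V0 V1 V2 V3 V4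
  tie : ∀ a ∈ Y, ∀ b ∈ Y, ∀ c ∈ Y, ∀ d ∈ Y, ∀ e ∈ Y, sh5 V0 V1 V2 V3 V4 ≤ sh5 a b c d e →
    cr3 a c d ≤ cr3 V0 V2 V3

theorem exists_ext {n : ℕ} (y : Fin n → ℝ × ℝ) (i₀ : Fin n) :
    ∃ V0 V1 V2 V3 V4, Ext (Set.range y) V0 V1 V2 V3 V4 := by
  classical
  let S : (Fin n × Fin n × Fin n × Fin n × Fin n) → ℝ := fun w =>
    sh5 (y w.1) (y w.2.1) (y w.2.2.1) (y w.2.2.2.1) (y w.2.2.2.2)
  let T : (Fin n × Fin n × Fin n × Fin n × Fin n) → ℝ := fun w =>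
    cr3 (y w.1) (y w.2.2.1) (y w.2.2.2.1)
  obtain ⟨w₀, -, hw₀⟩ := Finset.exists_max_image Finset.univ S
    ⟨(i₀, i₀, i₀, i₀, i₀), Finset.mem_univ _⟩
  obtain ⟨w, hw, hT⟩ := Finset.exists_max_image (Finset.univ.filter fun w => S w₀ ≤ S w) T
    ⟨w₀, by simp⟩
  have hw' : S w₀ ≤ S w := by simpa using hw
  refine ⟨y w.1, y w.2.1, y w.2.2.1, y w.2.2.2.1, y w.2.2.2.2, ⟨_, rfl⟩, ⟨_, rfl⟩, ⟨_, rfl⟩,
    ⟨_, rfl⟩, ⟨_, rfl⟩, ?_, ?_⟩
  · rintro _ ⟨a, rfl⟩ _ ⟨b, rfl⟩ _ ⟨c, rfl⟩ _ ⟨d, rfl⟩ _ ⟨e, rfl⟩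
    exact (hw₀ (a, b, c, d, e) (Finset.mem_univ _)).trans hw'
  · rintro _ ⟨a, rfl⟩ _ ⟨b, rfl⟩ _ ⟨c, rfl⟩ _ ⟨d, rfl⟩ _ ⟨e, rfl⟩ h
    exact hT (a, b, c, d, e) (Finset.mem_filter.2 ⟨Finset.mem_univ _, hw'.trans h⟩)

theorem sh5_rot (a b c d e : ℝ × ℝ) : sh5 b c d e a = sh5 a b c d e := by
  simp only [sh5]; ring

theorem sh5_tri (a b c : ℝ × ℝ) : sh5 a a b c c = cr3 a b c := by
  simp only [sh5, cr3, crs]; ring

theorem Ext.pos {Y : Set (ℝ × ℝ)} {V0 V1 V2 V3 V4 : ℝ × ℝ} (h : Ext Y V0 V1 V2 V3 V4)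
    {a b c : ℝ × ℝ} (ha : a ∈ Y) (hb : b ∈ Y) (hc : c ∈ Y) (habc : 0 < cr3 a b c) :
    0 < cr3 V0 V2 V3 := by
  obtain ⟨m0, m1, m2, m3, m4, mx, tie⟩ := h
  have hP : 0 < sh5 V0 V1 V2 V3 V4 := by
    have := mx a ha a ha b hb c hc c hc
    rw [sh5_tri] at this; linarith
  by_contra hT
  push Not at hT
  have t1 := (tie _ m1 _ m2 _ m3 _ m4 _ m0 (le_of_eq (by simp only [sh5]; ring))).trans hT
  have t2 := (tie _ m2 _ m3 _ m4 _ m0 _ m1 (le_of_eq (by simp only [sh5]; ring))).trans hT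
  have t3 := (tie _ m3 _ m4 _ m0 _ m1 _ m2 (le_of_eq (by simp only [sh5]; ring))).trans hT
  have t4 := (tie _ m4 _ m0 _ m1 _ m2 _ m3 (le_of_eq (by simp only [sh5]; ring))).trans hT
  have i1 : 2 * sh5 V0 V3 V1 V4 V2 = sh5 V0 V1 V2 V3 V4 - (cr3 V0 V2 V3 + cr3 V1 V3 V4 +
      cr3 V2 V4 V0 + cr3 V3 V0 V1 + cr3 V4 V1 V2) := by simp only [sh5, cr3, crs]; ring
  have i2 : cr3 V0 V2 V3 * cr3 V2 V4 V0 + cr3 V1 V3 V4 * cr3 V3 V0 V1 +
      cr3 V2 V4 V0 * cr3 V4 V1 V2 + cr3 V3 V0 V1 * cr3 V0 V2 V3 + cr3 V4 V1 V2 * cr3 V1 V3 V4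
      = sh5 V0 V3 V1 V4 V2 * (sh5 V0 V3 V1 V4 V2 - sh5 V0 V1 V2 V3 V4) := by
    simp only [sh5, cr3, crs]; ring
  have h2 : 0 < sh5 V0 V3 V1 V4 V2 := by linarith
  have h3 : 0 ≤ sh5 V0 V3 V1 V4 V2 * (sh5 V0 V3 V1 V4 V2 - sh5 V0 V1 V2 V3 V4) := by
    rw [← i2]
    have := mul_nonneg_of_nonpos_of_nonpos hT t2
    have := mul_nonneg_of_nonpos_of_nonpos t1 t3
    have := mul_nonneg_of_nonpos_of_nonpos t2 t4
    have := mul_nonneg_of_nonpos_of_nonpos t3 hT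
    have := mul_nonneg_of_nonpos_of_nonpos t4 t1
    linarith
  have h4 : sh5 V0 V1 V2 V3 V4 ≤ sh5 V0 V3 V1 V4 V2 :=
    sub_nonneg.1 (by
      by_contra hc
      push Not at hc
      nlinarith)
  have e0 := (tie _ m0 _ m3 _ m1 _ m4 _ m2 h4).trans hT
  have e1 := (tie _ m3 _ m1 _ m4 _ m2 _ m0 (h4.trans_eq (by simp only [sh5]; ring))).trans hT
  have e2 := (tie _ m1 _ m4 _ m2 _ m0 _ m3 (h4.trans_eq (by simp only [sh5]; ring))).trans hT
  have e3 := (tie _ m4 _ m2 _ m0 _ m3 _ m1 (h4.trans_eq (by simp only [sh5]; ring))).trans hT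
  have e4 := (tie _ m2 _ m0 _ m3 _ m1 _ m4 (h4.trans_eq (by simp only [sh5]; ring))).trans hT
  have i3 : cr3 V0 V1 V4 + cr3 V3 V4 V2 + cr3 V1 V2 V0 + cr3 V4 V0 V3 + cr3 V2 V3 V1
      = sh5 V0 V3 V1 V4 V2 + 2 * sh5 V0 V1 V2 V3 V4 := by simp only [sh5, cr3, crs]; ring
  linarith

/-! ### (D)-(F) the normalized frame -/

/-- the data in the frame, before the boxes are derived -/
structure Pre (X : Set (ℝ × ℝ)) (V1 V4 : ℝ × ℝ) (al be ga : ℝ) : Prop where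
  ext : Ext X (0, 0) V1 (1, -1 / 2) (1, 1 / 2) V4
  psd : ∀ v, 0 ≤ Qf al be ga v
  t3 : ∀ p ∈ X, ∀ q ∈ X, ∀ s ∈ X, ∀ m, Lf al be ga (p - q) ≤ m → Lf al be ga (p - s) ≤ m →
    Lf al be ga (q - s) ≤ m → |cr3 p q s| ≤ m
  wid : ∀ e : ℝ × ℝ, ∃ p ∈ X, ∃ q ∈ X, gphi * Lf al be ga e ≤ crs e p - crs e q
  ne : al ≠ (2 + gphi) / 4

/-- reflection in the first axis -/
def rf (p : ℝ × ℝ) : ℝ × ℝ := (p.1, -p.2)

theorem rf_rf (p : ℝ × ℝ) : rf (rf p) = p := by simp [rf]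

theorem Lf_rf (al be ga : ℝ) (v : ℝ × ℝ) : Lf al be ga (rf v) = Lf al (-be) ga v := by
  simp only [Lf, Qf, rf]; congr 1; ring

theorem rf_sub (p q : ℝ × ℝ) : rf p - rf q = rf (p - q) := by
  ext <;> simp [rf]; ring

theorem Pre.refl {X : Set (ℝ × ℝ)} {V1 V4 : ℝ × ℝ} {al be ga : ℝ} (h : Pre X V1 V4 al be ga) :
    Pre (rf ⁻¹' X) (rf V4) (rf V1) al (-be) ga := by
  obtain ⟨⟨m0, m1, m2, m3, m4, mx, tie⟩, psd, t3, wid, ne⟩ := h
  have s5 : ∀ a b c d e, sh5 (rf a) (rf e) (rf d) (rf c) (rf b) = sh5 a b c d e := by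
    intro a b c d e; simp only [sh5, crs, rf]; ring
  have s0 : sh5 (0, 0) (rf V4) (1, -1 / 2) (1, 1 / 2) (rf V1)
      = sh5 (0, 0) V1 (1, -1 / 2) (1, 1 / 2) V4 := by simp only [sh5, crs, rf]; ring
  refine ⟨⟨by simpa [rf] using m0, by simpa [rf_rf] using m4, ?_, ?_, by simpa [rf_rf] using m1,
    ?_, ?_⟩, ?_, ?_, ?_, ne⟩
  · have : rf (1, -1 / 2) = (1, 1 / 2) := by simp only [rf]; norm_num
    rw [Set.mem_preimage, this]; exact m3
  · have : rf (1, 1 / 2) = (1, -1 / 2) := by simp only [rf]; norm_num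
    rw [Set.mem_preimage, this]; exact m2
  · intro a ha b hb c hc d hd e he
    rw [s0, ← s5 a b c d e]
    exact mx _ ha _ he _ hd _ hc _ hb
  · intro a ha b hb c hc d hd e he h
    rw [s0, ← s5 a b c d e] at h
    have := tie _ ha _ he _ hd _ hc _ hb h
    refine le_trans (le_of_eq ?_) this
    simp only [cr3, crs, rf]; ring
  · intro v
    have := psd (rf v)
    refine this.trans_eq ?_
    simp only [Qf, rf]; ring
  · intro p hp q hq s hs m h1 h2 h3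
    have := t3 _ hp _ hq _ hs m (by rwa [rf_sub, Lf_rf]) (by rwa [rf_sub, Lf_rf])
      (by rwa [rf_sub, Lf_rf])
    rw [← abs_neg] at this
    refine le_trans (le_of_eq ?_) this
    congr 1
    simp only [cr3, crs, rf]; ring
  · intro e
    obtain ⟨p, hp, q, hq, h⟩ := wid (rf e)
    refine ⟨rf q, by simpa [rf_rf] using hq, rf p, by simpa [rf_rf] using hp, ?_⟩
    rw [Lf_rf] at h
    refine h.trans_eq ?_
    simp only [crs, rf]; ring

theorem Lf_symm (al be ga : ℝ) (p q : ℝ × ℝ) : Lf al be ga (p - q) = Lf al be ga (q - p) := by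
  simp only [Lf, Qf, Prod.fst_sub, Prod.snd_sub]; congr 1; ring

theorem Pre.lg {X : Set (ℝ × ℝ)} {V1 V4 : ℝ × ℝ} {al be ga : ℝ} (h : Pre X V1 V4 al be ga) :
    ∀ p ∈ X, ∀ q ∈ X, ∀ r ∈ X, Lg al be ga p q r ∨ Lg al be ga p r q ∨ Lg al be ga q r p := by
  intro p hp q hq r hr
  have L1 : Lf al be ga (p - r) ≤ Lf al be ga (p - q) → Lf al be ga (q - r) ≤ Lf al be ga (p - q) →
      Lg al be ga p q r := fun a b => ⟨h.t3 p hp q hq r hr _ le_rfl a b, a, b⟩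
  have L2 : Lf al be ga (p - q) ≤ Lf al be ga (p - r) → Lf al be ga (q - r) ≤ Lf al be ga (p - r) →
      Lg al be ga p r q := fun a b => by
    rw [Lf_symm al be ga q r] at b
    exact ⟨h.t3 p hp r hr q hq _ le_rfl a b, a, b⟩
  have L3 : Lf al be ga (p - q) ≤ Lf al be ga (q - r) → Lf al be ga (p - r) ≤ Lf al be ga (q - r) →
      Lg al be ga q r p := fun a b => by
    rw [Lf_symm al be ga p q] at a
    rw [Lf_symm al be ga p r] at b
    exact ⟨h.t3 q hq r hr p hp _ le_rfl a b, a, b⟩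
  rcases le_total (Lf al be ga (p - r)) (Lf al be ga (p - q)) with a | a
  · rcases le_total (Lf al be ga (q - r)) (Lf al be ga (p - q)) with b | b
    · exact Or.inl (L1 a b)
    · exact Or.inr (Or.inr (L3 b (a.trans b)))
  · rcases le_total (Lf al be ga (q - r)) (Lf al be ga (p - r)) with b | b
    · exact Or.inr (Or.inl (L2 a b))
    · exact Or.inr (Or.inr (L3 (a.trans b) b))

theorem st_nonneg {a b s t : ℝ} (ha : 0 ≤ a) (hb : 0 ≤ b) (h0 : a * b ≤ s * t)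
    (h2 : -s ≤ b) (_h3 : -t ≤ a) (t2 : b ≤ -s → a ≤ s) (t3 : a ≤ -t → b ≤ t) : 0 ≤ s := by
  by_contra hs
  push Not at hs
  have hab : 0 ≤ a * b := mul_nonneg ha hb
  have ht : t ≤ 0 := by
    by_contra ht
    push Not at ht
    nlinarith [mul_pos (neg_pos.2 hs) ht]
  have h2' : -s < b := by
    by_contra hc
    push Not at hc
    linarith [t2 hc]
  have h3' : -t < a := by
    by_contra hc
    push Not at hc
    linarith [t3 hc]
  nlinarith [mul_pos (sub_pos.2 h3') (show 0 < b by linarith),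
    mul_nonneg (sub_nonneg.2 h2) (neg_nonneg.2 ht)]

theorem sqrt_le_eight {a : ℝ} (ha : 0 ≤ a) (h : gphi * Real.sqrt a ≤ 4) : a ≤ 8 := by
  have h1 := gphi_ge
  have h2 := Real.sqrt_nonneg a
  have h3 : Real.sqrt a ≤ 8 / 3 := by nlinarith
  nlinarith [Real.sq_sqrt ha]

theorem Pre.cfg {X : Set (ℝ × ℝ)} {V1 V4 : ℝ × ℝ} {al be ga : ℝ} (h : Pre X V1 V4 al be ga)
    (hbe : be ≤ 0) : Cfg X V1.1 V1.2 V4.1 V4.2 al be ga := by
  have hlg := h.lg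
  obtain ⟨⟨m0, m1, m2, m3, m4, mx, tie⟩, psd, t3, wid, ne⟩ := h
  obtain ⟨x1, y1⟩ := V1
  obtain ⟨x4, y4⟩ := V4
  have T1 := tie _ m1 _ m2 _ m3 _ m4 _ m0 (le_of_eq (by simp only [sh5]; ring))
  have T2 := tie _ m2 _ m3 _ m4 _ m0 _ m1 (le_of_eq (by simp only [sh5]; ring))
  have T3 := tie _ m3 _ m4 _ m0 _ m1 _ m2 (le_of_eq (by simp only [sh5]; ring))
  have T4 := tie _ m4 _ m0 _ m1 _ m2 _ m3 (le_of_eq (by simp only [sh5]; ring))
  have E0 := mx _ m4 _ m1 _ m2 _ m3 _ m4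
  have E1 := mx _ m0 _ m0 _ m2 _ m3 _ m4
  have E4 := mx _ m0 _ m1 _ m2 _ m3 _ m3
  have E2 := mx _ m1 _ m1 _ m2 _ m3 _ m3
  have E3 := mx _ m2 _ m2 _ m3 _ m4 _ m4
  have E2' := tie _ m1 _ m1 _ m2 _ m3 _ m3
  have E3' := tie _ m2 _ m2 _ m3 _ m4 _ m4
  have R1 := fun p hp => mx _ m0 p hp _ m2 _ m3 _ m4
  have R2 := fun p hp => mx _ m0 _ m1 _ m2 _ m3 p hp
  have R3 := fun p hp => mx _ m0 _ m2 p hp _ m3 _ m4
  simp only [sh5, cr3, crs] at T1 T2 T3 T4 E0 E1 E4 E2 E3 E2' E3' R1 R2 R3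
  have ha : 0 ≤ -x1 / 2 - y1 := by linarith
  have hb : 0 ≤ y4 - x4 / 2 := by linarith
  have h0 : (-x1 / 2 - y1) * (y4 - x4 / 2) ≤ (x1 / 2 - y1) * (x4 / 2 + y4) := by linarith
  have hs : 0 ≤ x1 / 2 - y1 := st_nonneg ha hb h0 (by linarith) (by linarith)
    (fun h => by linarith [E2' (by linarith)]) (fun h => by linarith [E3' (by linarith)])
  have ht : 0 ≤ x4 / 2 + y4 := st_nonneg (s := x4 / 2 + y4) (t := x1 / 2 - y1) hb ha
    (by linarith) (by linarith) (by linarith)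
    (fun h => by linarith [E3' (by linarith)]) (fun h => by linarith [E2' (by linarith)])
  have hs1 : x1 / 2 - y1 ≤ 1 := by linarith
  have ht1 : x4 / 2 + y4 ≤ 1 := by linarith
  have hab := mul_nonneg ha hb
  have p1 := mul_nonneg hs (sub_nonneg.2 ht1)
  have p2 := mul_nonneg ht (sub_nonneg.2 hs1)
  have hb1 : y4 - x4 / 2 ≤ 1 := by linarith
  have ha1 : -x1 / 2 - y1 ≤ 1 := by linarith
  have root : ∀ p ∈ X, 0 ≤ p.1 / 2 - p.2 + 1 ∧ 0 ≤ p.1 / 2 + p.2 + 1 ∧ 0 ≤ 2 - p.1 := by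
    intro p hp
    refine ⟨?_, ?_, ?_⟩
    · linarith [R2 p hp]
    · linarith [R1 p hp]
    · linarith [R3 p hp]
  have hal0 : 0 ≤ al := by simpa [Qf] using psd (1, 0)
  have hga0 : 0 ≤ ga := by simpa [Qf] using psd (0, 1)
  have hal : al ≤ 8 := by
    obtain ⟨p, hp, q, hq, h⟩ := wid (1, 0)
    obtain ⟨a1, a2, a3⟩ := root p hp
    obtain ⟨b1, b2, b3⟩ := root q hq
    simp only [Lf, Qf, crs] at h
    norm_num at h
    exact sqrt_le_eight hal0 (by linarith)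
  have hga : ga ≤ 8 := by
    obtain ⟨p, hp, q, hq, h⟩ := wid (0, 1)
    obtain ⟨a1, a2, a3⟩ := root p hp
    obtain ⟨b1, b2, b3⟩ := root q hq
    simp only [Lf, Qf, crs] at h
    norm_num at h
    exact sqrt_le_eight hga0 (by linarith)
  have hbe8 : -8 ≤ be := by
    have := psd (1, 1)
    simp only [Qf] at this
    linarith
  refine ⟨m0, m1, m2, m3, m4, psd, hlg, mx, ?_, ?_, ?_, ?_, ⟨by linarith, by linarith⟩,
    ⟨by linarith, by linarith⟩, ⟨by linarith, by linarith⟩, ⟨by linarith, by linarith⟩,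
    ⟨hal0, hal⟩, ⟨hbe8, hbe⟩, ⟨hga0, hga⟩, root, wid, fun h => ne h.2.2.2.2.1⟩ <;>
  · simp only [cr3, crs]
    constructor <;> linarith

/-- linear part of the frame -/
def lin (g h u : ℝ × ℝ) : ℝ × ℝ := (u.1 * g.1 + u.2 * h.1, u.1 * g.2 + u.2 * h.2)

/-- the affine frame -/
def aff (o g h u : ℝ × ℝ) : ℝ × ℝ := (o.1 + u.1 * g.1 + u.2 * h.1, o.2 + u.1 * g.2 + u.2 * h.2)

theorem aff_surj (o : ℝ × ℝ) {g h : ℝ × ℝ} (hT : crs g h ≠ 0) (y : ℝ × ℝ) :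
    ∃ u, aff o g h u = y := by
  refine ⟨(crs (y - o) h / crs g h, crs g (y - o) / crs g h), ?_⟩
  ext
  · simp only [aff]; field_simp; simp only [crs, Prod.fst_sub, Prod.snd_sub]; ring
  · simp only [aff]; field_simp; simp only [crs, Prod.fst_sub, Prod.snd_sub]; ring

theorem Lf_lin (g h u : ℝ × ℝ) {k : ℝ} (hk : 0 ≤ k) :
    Lf (k ^ 2 * (g.1 ^ 2 + g.2 ^ 2)) (k ^ 2 * (g.1 * h.1 + g.2 * h.2))
      (k ^ 2 * (h.1 ^ 2 + h.2 ^ 2)) u = k * nr (lin g h u) := by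
  rw [nr, ← Real.sqrt_sq hk, ← Real.sqrt_mul (sq_nonneg k), Real.sqrt_sq hk]
  simp only [Lf, Qf, lin]; congr 1; ring

theorem exists_pre {Y : Set (ℝ × ℝ)} {V0 V1 V2 V3 V4 : ℝ × ℝ} (hE : Ext Y V0 V1 V2 V3 V4)
    (hT : 0 < cr3 V0 V2 V3) {r lam : ℝ} (hr : 0 < r) (hlam : 1 < lam)
    (h3 : ∀ p ∈ Y, ∀ q ∈ Y, ∀ s ∈ Y, ∀ m, nr (p - q) ≤ m → nr (p - s) ≤ m → nr (q - s) ≤ m →
      |cr3 p q s| ≤ 2 * r * m)
    (hw : ∀ e : ℝ × ℝ, ∃ p ∈ Y, ∃ q ∈ Y, lam * (2 * (gphi * r)) * nr e ≤ crs e p - crs e q) :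
    ∃ X W1 W4 al be ga, Pre X W1 W4 al be ga := by
  obtain ⟨m0, m1, m2, m3, m4, mx, tie⟩ := hE
  obtain ⟨g, hg⟩ : ∃ g : ℝ × ℝ, g = ((V2.1 + V3.1) / 2 - V0.1, (V2.2 + V3.2) / 2 - V0.2) :=
    ⟨_, rfl⟩
  obtain ⟨h, hh⟩ : ∃ h : ℝ × ℝ, h = (V3.1 - V2.1, V3.2 - V2.2) := ⟨_, rfl⟩
  have hgh : crs g h = cr3 V0 V2 V3 := by simp only [hg, hh, crs, cr3]; ring
  obtain ⟨T, hTd⟩ : ∃ T, T = crs g h := ⟨_, rfl⟩
  have hT0 : 0 < T := by rw [hTd, hgh]; exact hT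
  have hsurj := aff_surj V0 (g := g) (h := h) (hTd ▸ hT0.ne')
  have a0 : aff V0 g h (0, 0) = V0 := by ext <;> simp [aff]
  have a2 : aff V0 g h (1, -1 / 2) = V2 := by ext <;> simp only [aff, hg, hh] <;> ring
  have a3 : aff V0 g h (1, 1 / 2) = V3 := by ext <;> simp only [aff, hg, hh] <;> ring
  obtain ⟨W1, a1⟩ := hsurj V1
  obtain ⟨W4, a4⟩ := hsurj V4
  have s5 : ∀ a b c d e, sh5 (aff V0 g h a) (aff V0 g h b) (aff V0 g h c) (aff V0 g h d)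
      (aff V0 g h e) = T * sh5 a b c d e := by
    intro a b c d e; simp only [hTd, sh5, crs, aff]; ring
  have c3 : ∀ a b c, cr3 (aff V0 g h a) (aff V0 g h b) (aff V0 g h c) = T * cr3 a b c := by
    intro a b c; simp only [hTd, cr3, crs, aff]; ring
  have c2 : ∀ e a b, crs (lin g h e) (aff V0 g h a) - crs (lin g h e) (aff V0 g h b)
      = T * (crs e a - crs e b) := by
    intro e a b; simp only [hTd, crs, aff, lin]; ring
  have sb : ∀ a b, aff V0 g h a - aff V0 g h b = lin g h (a - b) := by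
    intro a b; ext <;> simp only [aff, lin, Prod.fst_sub, Prod.snd_sub] <;> ring
  have hgpos : 0 < g.1 ^ 2 + g.2 ^ 2 := by
    by_contra hc
    have h1 : g.1 = 0 := by nlinarith [sq_nonneg g.1, sq_nonneg g.2]
    have h2 : g.2 = 0 := by nlinarith [sq_nonneg g.1, sq_nonneg g.2]
    rw [hTd, crs, h1, h2] at hT0
    simp at hT0
  have hc0 : 0 < 2 * r / T := by positivity
  obtain ⟨mu, hmu1, hmu2, hne⟩ : ∃ mu : ℝ, 1 ≤ mu ∧ mu ≤ lam ∧
      (mu * (2 * r / T)) ^ 2 * (g.1 ^ 2 + g.2 ^ 2) ≠ (2 + gphi) / 4 := by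
    by_cases hc : (1 * (2 * r / T)) ^ 2 * (g.1 ^ 2 + g.2 ^ 2) = (2 + gphi) / 4
    · refine ⟨lam, hlam.le, le_rfl, ?_⟩
      rw [← hc]
      apply ne_of_gt
      gcongr
    · exact ⟨1, le_rfl, hlam.le, hc⟩
  obtain ⟨k, hk⟩ : ∃ k, k = mu * (2 * r / T) := ⟨_, rfl⟩
  have hk0 : 0 < k := by rw [hk]; positivity
  have hkT : k * T = mu * (2 * r) := by rw [hk]; field_simp
  rw [← hk] at hne
  have hV : sh5 V0 V1 V2 V3 V4 = T * sh5 (0, 0) W1 (1, -1 / 2) (1, 1 / 2) W4 := by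
    rw [← s5, a0, a1, a2, a3, a4]
  refine ⟨aff V0 g h ⁻¹' Y, W1, W4, k ^ 2 * (g.1 ^ 2 + g.2 ^ 2), k ^ 2 * (g.1 * h.1 + g.2 * h.2),
    k ^ 2 * (h.1 ^ 2 + h.2 ^ 2), ⟨?_, ?_, ?_, ?_, ?_, ?_, ?_⟩, ?_, ?_, ?_, hne⟩
  · rw [Set.mem_preimage, a0]; exact m0
  · rw [Set.mem_preimage, a1]; exact m1
  · rw [Set.mem_preimage, a2]; exact m2
  · rw [Set.mem_preimage, a3]; exact m3
  · rw [Set.mem_preimage, a4]; exact m4
  · intro a ha b hb c hc d hd e he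
    have := mx _ ha _ hb _ hc _ hd _ he
    rw [s5, hV] at this
    exact le_of_mul_le_mul_left this hT0
  · intro a ha b hb c hc d hd e he hle
    have := tie _ ha _ hb _ hc _ hd _ he (by rw [s5, hV]; gcongr)
    have h1 : cr3 V0 V2 V3 = T * cr3 (0, 0) (1, -1 / 2) (1, 1 / 2) := by rw [← c3, a0, a2, a3]
    rw [c3, h1] at this
    exact le_of_mul_le_mul_left this hT0
  · intro v
    have : Qf (k ^ 2 * (g.1 ^ 2 + g.2 ^ 2)) (k ^ 2 * (g.1 * h.1 + g.2 * h.2))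
        (k ^ 2 * (h.1 ^ 2 + h.2 ^ 2)) v = k ^ 2 * ((lin g h v).1 ^ 2 + (lin g h v).2 ^ 2) := by
      simp only [Qf, lin]; ring
    rw [this]; positivity
  · intro p hp q hq s hs m h1 h2 h4
    rw [Lf_lin _ _ _ hk0.le, ← sb, mul_comm, ← le_div_iff₀ hk0] at h1 h2 h4
    have hm : 0 ≤ m / k := le_trans (Real.sqrt_nonneg _) h1
    have := h3 _ hp _ hq _ hs _ h1 h2 h4
    rw [c3, abs_mul, abs_of_pos hT0] at this
    have h5 : 2 * r * (m / k) ≤ T * m := by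
      calc 2 * r * (m / k) ≤ mu * (2 * r) * (m / k) := by
            have h6 : 2 * r ≤ mu * (2 * r) := le_mul_of_one_le_left (by positivity) hmu1
            exact mul_le_mul_of_nonneg_right h6 hm
        _ = T * m := by rw [← hkT]; field_simp
    exact le_of_mul_le_mul_left (this.trans h5) hT0
  · intro e
    obtain ⟨p, hp, q, hq, hpq⟩ := hw (lin g h e)
    obtain ⟨p, rfl⟩ := hsurj p
    obtain ⟨q, rfl⟩ := hsurj q
    refine ⟨p, hp, q, hq, ?_⟩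
    rw [c2] at hpq
    rw [Lf_lin _ _ _ hk0.le]
    refine le_of_mul_le_mul_left (le_trans ?_ hpq) hT0
    have hg0 : 0 ≤ gphi := by linarith [gphi_ge]
    have hn : 0 ≤ nr (lin g h e) := Real.sqrt_nonneg _
    calc T * (gphi * (k * nr (lin g h e))) = (k * T) * gphi * nr (lin g h e) := by ring
      _ = mu * (2 * (gphi * r)) * nr (lin g h e) := by rw [hkT]; ring
      _ ≤ _ := by gcongr

theorem exists_tri {n : ℕ} (y : Fin n → ℝ × ℝ) {c : ℝ} (hc : 0 < c)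
    (hw : ∀ e : ℝ × ℝ, ∃ i j, c * nr e ≤ crs e (y i) - crs e (y j)) :
    ∃ i j k, 0 < cr3 (y i) (y j) (y k) := by
  obtain ⟨a, b, hab⟩ := hw (1, 0)
  have h1 : 0 < (y a).2 - (y b).2 := by
    simp only [nr, crs] at hab
    norm_num at hab
    linarith
  obtain ⟨i, j, hij⟩ := hw (y a - y b)
  have h2 : 0 < nr (y a - y b) := by
    apply Real.sqrt_pos.2
    simp only [Prod.fst_sub, Prod.snd_sub]
    positivity
  have h3 : 0 < crs (y a - y b) (y i) - crs (y a - y b) (y j) := (mul_pos hc h2).trans_le hij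
  have h4 : crs (y a - y b) (y i) - crs (y a - y b) (y j)
      = cr3 (y b) (y a) (y i) + cr3 (y a) (y b) (y j) := by
    simp only [cr3, crs, Prod.fst_sub, Prod.snd_sub]; ring
  by_cases h5 : 0 < cr3 (y b) (y a) (y i)
  · exact ⟨b, a, i, h5⟩
  · exact ⟨a, b, j, by linarith⟩

end Red

open Red in
theorem reduce (h : CoreStmt) :
    ∀ (r : ℝ), 0 < r → ∀ (n : ℕ) (x : Fin n → EuclideanSpace ℝ (Fin 2)),
      (∀ i j k : Fin n, ∃ p v : EuclideanSpace ℝ (Fin 2), v ≠ 0 ∧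
        ∀ m : Fin n, (m = i ∨ m = j ∨ m = k) →
          ∃ t : ℝ, dist (p + t • v) (x m) ≤ r) →
      ∃ p v : EuclideanSpace ℝ (Fin 2), v ≠ 0 ∧
        ∀ m : Fin n, ∃ t : ℝ, dist (p + t • v) (x m) ≤ ((1 + Real.sqrt 5) / 2) * r := by
  intro r hr n x h3
  by_contra hc
  rcases Nat.eq_zero_or_pos n with rfl | hn
  · refine hc ⟨0, !₂[1, 0], fun h0 => ?_, fun m => m.elim0⟩
    simpa using congrArg (fun z : EuclideanSpace ℝ (Fin 2) => z 0) h0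
  have hR : 0 < 2 * (gphi * r) := by have := gphi_ge; positivity
  obtain ⟨lam, hlam, hw⟩ := uniform_width (fun i => co (x i)) ⟨0, hn⟩ hR
    (strict_width x ⟨0, hn⟩ (R := gphi * r) hc)
  obtain ⟨V0, V1, V2, V3, V4, hE⟩ := exists_ext (fun i => co (x i)) ⟨0, hn⟩
  obtain ⟨i, j, k, hijk⟩ := exists_tri (fun i => co (x i)) (c := lam * (2 * (gphi * r)))
    (by positivity) hw
  have hT := hE.pos ⟨i, rfl⟩ ⟨j, rfl⟩ ⟨k, rfl⟩ hijk
  obtain ⟨X, W1, W4, al, be, ga, hP⟩ := exists_pre hE hT hr hlam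
    (by
      rintro _ ⟨a, rfl⟩ _ ⟨b, rfl⟩ _ ⟨c, rfl⟩ m m1 m2 m3
      obtain ⟨p, v, hv, hl⟩ := h3 a b c
      obtain ⟨u, d, hu, hud⟩ := line_unit p v hv
      obtain ⟨ta, ha⟩ := hl a (Or.inl rfl)
      obtain ⟨tb, hb⟩ := hl b (Or.inr (Or.inl rfl))
      obtain ⟨tc, hc⟩ := hl c (Or.inr (Or.inr rfl))
      exact strip_le hu (hud _ _ _ ha) (hud _ _ _ hb) (hud _ _ _ hc) m1 m2 m3)
    (fun e => by
      obtain ⟨a, b, hab⟩ := hw e
      exact ⟨_, ⟨a, rfl⟩, _, ⟨b, rfl⟩, hab⟩)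
  rcases le_total be 0 with hb | hb
  · exact h _ _ _ _ _ _ _ _ (hP.cfg hb)
  · exact h _ _ _ _ _ _ _ _ (hP.refl.cfg (neg_nonpos.2 hb))

end

end Pool.Agent.Lib.MP_9d820d_co
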