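import Pool.Agent.Lib.MP_9d820d_co.Core
import Pool.Agent.Lib.MP_9d820d_co.Defs

set_option autoImplicit false

namespace Pool.Agent.Lib.MP_9d820d_co

noncomputable section

/-- the scale -/
def Sr : ℝ := 16777212

/-- the data of a normalized configuration -/
structure Prm where
  X : Set (ℝ × ℝ)
  x1 : ℝ
  y1 : ℝ
  x4 : ℝ
  y4 : ℝ
  al : ℝ
  be : ℝ
  ga : ℝ

def Prm.ok (P : Prm) : Prop := Cfg P.X P.x1 P.y1 P.x4 P.y4 P.al P.be P.ga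

/-- the seven points in play -/
def Prm.pt (P : Prm) (p q : ℝ × ℝ) : Nat → ℝ × ℝ
  | 0 => (0, 0)
  | 1 => (P.x1, P.y1)
  | 2 => (1, -1 / 2)
  | 3 => (1, 1 / 2)
  | 4 => (P.x4, P.y4)
  | 5 => p
  | 6 => q
  | _ => (0, 0)

def Prm.V (P : Prm) (i : Nat) : ℝ × ℝ := P.pt (0, 0) (0, 0) i

/-- scaled length of the pair a b -/
def Prm.len (P : Prm) (a b : Nat) : ℝ := Sr * Lf P.al P.be P.ga (P.V a - P.V b)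

section
variable {α : Type} (o : Ops α) (ι : α → ℝ)

/-- admissible values of the parameter t -/
def TT (t : ℝ) : Prop := 0 < t ∧ t ≤ 1 ∧ (o.inner = false → t = 1)

def lvV (a : Line α) (v : Vx α) (t : ℝ) : ℝ :=
  ι a.nx * (ι v.x0 + t * ι v.x1) + ι a.ny * (ι v.y0 + t * ι v.y1) + ι a.c0 + t * ι a.c1

structure Lawful : Prop where
  add : ∀ a b, ι (o.add a b) = ι a + ι b
  sub : ∀ a b, ι (o.sub a b) = ι a - ι b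
  mul : ∀ a b, ι (o.mul a b) = ι a * ι b
  neg : ∀ a, ι (o.neg a) = -ι a
  abs : ∀ a, ι (o.abs a) = |ι a|
  ofI : ∀ n, ι (o.ofI n) = (n : ℝ)
  ltz : ∀ a, o.ltz a = true ↔ ι a < 0
  lez : ∀ a, o.lez a = true → ι a ≤ 0
  isz : ∀ a, o.isz a = true → ι a = 0
  beq : ∀ a b, o.beq a b = true → a = b
  frc : ∀ a k, o.frc a k = k a
  rd : ∀ w, ∃ a w', ∀ k, o.rd w k = k a w'
  rd1 : ∀ w, ∃ a w', ∀ k, o.rd1 w k = k a w'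
  rdL : ∀ w, ∃ a w', ∀ k, o.rdL w k = k a w'
  rdLine : ∀ w, ∃ a w', ∀ k, o.rdLine w k = k a w'
  cor : ∀ a b w k, o.cor a (o.aux a) b (o.aux b) w k = true → ∃ v w', k v w' = true ∧
    0 < ι a.nx * ι b.ny - ι a.ny * ι b.nx ∧ (∀ t, TT o t → lvV ι a v t ≤ 0 ∧ lvV ι b v t ≤ 0) ∧
    (o.inner = false → ι v.x1 = 0 ∧ ι v.y1 = 0)
  ctr : ∀ b lo hi, ∃ B W, (∀ k, o.ctr b lo hi k = k B W) ∧ ((o.inner = false → ι b = 0) →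
    ∀ t x, TT o t → ι b + t * ι lo ≤ x → x ≤ ι b + t * ι hi → |x - ι B| ≤ t * ι W)
  zero : ι o.zero = 0
  s1 : ι o.s1 = Sr
  hf : ι o.hf = Sr / 2
  s2 : ι o.s2 = Sr ^ 2
  s3 : ι o.s3 = Sr ^ 3
  s4 : ι o.s4 = Sr ^ 4
  phi0 : 0 < ι o.phi
  phi1 : ι o.phi ≤ gphi * Sr
  base0 : o.inner = false → ∀ n, ι (get7 o o.base n) = 0
  basel0 : o.inner = false → ∀ n, ι (get10 o o.basel n) = 0

variable (P : Prm)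

def valF (t : ℝ) (f : Fx α) : ℝ :=
  ι f.c0 + t * ι f.c1 + Sr * (ι f.a0 * P.x1 + ι f.a1 * P.y1 + ι f.a2 * P.x4 + ι f.a3 * P.y4 +
    ι f.a4 * P.al + ι f.a5 * P.be + ι f.a6 * P.ga) + ι f.ch * (Sr ^ 2 * crs (P.V 1) (P.V 4))

def valL (l : L10 α) : ℝ :=
  ι l.l0 * P.len 0 1 + ι l.l1 * P.len 0 2 + ι l.l2 * P.len 0 3 + ι l.l3 * P.len 0 4 + ι l.l4 * P.len 1 2 +
  ι l.l5 * P.len 1 3 + ι l.l6 * P.len 1 4 + ι l.l7 * P.len 2 3 + ι l.l8 * P.len 2 4 + ι l.l9 * P.len 3 4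

def valM (t : ℝ) (p q : ℝ × ℝ) (m : Mx α) : ℝ :=
  Sr ^ 2 * (ι m.m12 * crs (P.V 1) (P.V 2) + ι m.m13 * crs (P.V 1) (P.V 3) + ι m.m14 * crs (P.V 1) (P.V 4) +
    ι m.m23 * crs (P.V 2) (P.V 3) + ι m.m24 * crs (P.V 2) (P.V 4) + ι m.m34 * crs (P.V 3) (P.V 4) +
    ι m.m15 * crs (P.V 1) p + ι m.m25 * crs (P.V 2) p + ι m.m35 * crs (P.V 3) p + ι m.m45 * crs (P.V 4) p +
    ι m.m16 * crs (P.V 1) q + ι m.m26 * crs (P.V 2) q + ι m.m36 * crs (P.V 3) q + ι m.m46 * crs (P.V 4) q +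
    ι m.m56 * crs p q) +
  t * Sr * (crs (ι m.e5x, ι m.e5y) p + crs (ι m.e6x, ι m.e6y) q)

def valA (t : ℝ) (p q : ℝ × ℝ) (a : Acc α) : ℝ := valF ι P t a.f + valL ι P a.l + valM ι P t p q a.m

/-- value of the pending list: entries (i, j, mu) -/
def valP (p q : ℝ × ℝ) (pd : List G3) : ℝ :=
  (pd.map (fun g => (g.k : ℝ) * Sr ^ 6 * Lf P.al P.be P.ga (P.pt p q g.i - P.pt p q g.j))).sum

def lvP (t : ℝ) (a : Line α) (p : ℝ × ℝ) : ℝ :=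
  ι a.nx * (Sr * p.1) + ι a.ny * (Sr * p.2) + ι a.c0 + t * ι a.c1

def In1 (t : ℝ) (b lo hi : α) (x : ℝ) : Prop := ι b + t * ι lo ≤ x ∧ x ≤ ι b + t * ι hi

def InV (t : ℝ) (lo hi : V7 α) : Prop :=
  In1 ι t o.base.a0 lo.a0 hi.a0 (Sr * P.x1) ∧ In1 ι t o.base.a1 lo.a1 hi.a1 (Sr * P.y1) ∧
  In1 ι t o.base.a2 lo.a2 hi.a2 (Sr * P.x4) ∧ In1 ι t o.base.a3 lo.a3 hi.a3 (Sr * P.y4) ∧
  In1 ι t o.base.a4 lo.a4 hi.a4 (Sr * P.al) ∧ In1 ι t o.base.a5 lo.a5 hi.a5 (Sr * P.be) ∧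
  In1 ι t o.base.a6 lo.a6 hi.a6 (Sr * P.ga)

def InL (t : ℝ) (lo hi : L10 α) : Prop :=
  In1 ι t o.basel.l0 lo.l0 hi.l0 (P.len 0 1) ∧ In1 ι t o.basel.l1 lo.l1 hi.l1 (P.len 0 2) ∧
  In1 ι t o.basel.l2 lo.l2 hi.l2 (P.len 0 3) ∧ In1 ι t o.basel.l3 lo.l3 hi.l3 (P.len 0 4) ∧
  In1 ι t o.basel.l4 lo.l4 hi.l4 (P.len 1 2) ∧ In1 ι t o.basel.l5 lo.l5 hi.l5 (P.len 1 3) ∧
  In1 ι t o.basel.l6 lo.l6 hi.l6 (P.len 1 4) ∧ In1 ι t o.basel.l7 lo.l7 hi.l7 (P.len 2 3) ∧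
  In1 ι t o.basel.l8 lo.l8 hi.l8 (P.len 2 4) ∧ In1 ι t o.basel.l9 lo.l9 hi.l9 (P.len 3 4)

structure BxOK (t : ℝ) (bx : Bx α) : Prop where
  box : InV o ι P t bx.lo bx.hi
  c0 : |Sr * P.x1 - ι bx.B.a0| ≤ t * ι bx.W.a0
  c1 : |Sr * P.y1 - ι bx.B.a1| ≤ t * ι bx.W.a1
  c2 : |Sr * P.x4 - ι bx.B.a2| ≤ t * ι bx.W.a2
  c3 : |Sr * P.y4 - ι bx.B.a3| ≤ t * ι bx.W.a3
  c4 : |Sr * P.al - ι bx.B.a4| ≤ t * ι bx.W.a4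
  c5 : |Sr * P.be - ι bx.B.a5| ≤ t * ι bx.W.a5
  c6 : |Sr * P.ga - ι bx.B.a6| ≤ t * ι bx.W.a6
  A4 : ι bx.A4 = |ι bx.B.a4| + ι bx.W.a4
  A5 : ι bx.A5 = |ι bx.B.a5| + ι bx.W.a5
  A6 : ι bx.A6 = |ι bx.B.a6| + ι bx.W.a6
  r7 : ι bx.r7 = ι bx.W.a0 * ι bx.W.a3 + ι bx.W.a1 * ι bx.W.a2
  chB : ι bx.chB = ι bx.B.a0 * ι bx.B.a3 - ι bx.B.a1 * ι bx.B.a2

structure Inv (st : St α) (t : ℝ) (p q : ℝ × ℝ) : Prop where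
  tt : TT o t
  hp : p ∈ P.X
  hq : q ∈ P.X
  bx : BxOK o ι P t st.bx
  rng : InL o ι P t st.llo st.lhi
  facts : ∀ g ∈ st.facts, 0 ≤ valF ι P t g.f + valL ι P g.l
  gam : ∀ g ∈ st.gam, Lg P.al P.be P.ga (P.pt p q g.i) (P.pt p q g.j) (P.pt p q g.k)
  root : ∀ a ∈ st.root, ∀ r ∈ P.X, 0 ≤ lvP ι t a r
  ls5 : ∀ a ∈ st.ls5, 0 ≤ lvP ι t a p
  ls6 : ∀ a ∈ st.ls6, 0 ≤ lvP ι t a q
  ini : 0 ≤ valA ι P t p q st.ini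
  d5 : ∀ r, 0 ≤ valA ι P t p r st.d5

def Bad (st : St α) : Prop := ∀ t p q, ¬ Inv o ι P st t p q

/-- no configuration satisfies the context coded by h -/
def Good (h : Nat) : Prop := ∀ c, (∀ k, decCtx o h k = k c) → Bad o ι P c

/-- the configuration is not in the local box (only used by the integer instance) -/
def NotLoc : Prop := o.inner = false → ¬ InV o ι P 1 o.locLo o.locHi

end

def ZP.val (x : ZP) : ℝ := x.a + x.b * gphi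

end

end Pool.Agent.Lib.MP_9d820d_co
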