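import Pool.Agent.Lib.MP_9d820d_co.Nodes

set_option autoImplicit false

namespace Pool.Agent.Lib.MP_9d820d_co

theorem chk_sound {α : Type} {o : Ops α} {ι : α → ℝ} (L : Lawful o ι) (P : Prm) (hP : P.ok)
    (hloc : NotLoc o ι P) (holes : List Nat) (hh : ∀ h ∈ holes, Good o ι P h) :
    ∀ (t : Tr) (st : St α), chk o holes t st = true → Bad o ι P st := by
  intro t
  induction t with
  | lf w => exact fun st h => chkLf_sp L hP hloc hh h
  | n1 w a ha =>
    intro st h
    obtain ⟨tag, w, h, -⟩ := rdN_sp (p := 2) (w := w) (k := fun tag w => cnd (Nat.beq tag 0)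
      (ellR o w (chk o holes a) st) (ellU o w (chk o holes a) st)) h
    rcases cnd_sp h with ⟨-, h⟩ | ⟨-, h⟩
    · exact ellR_sp L hP ha h
    · exact ellU_sp L hP ha h
  | n2 w a b ha hb =>
    intro st h
    obtain ⟨tag, w, h, -⟩ := rdN_sp (p := 4) (w := w) (k := fun tag w => cnd (Nat.beq tag 0)
      (cut o w (chk o holes a) (chk o holes b) st) (cnd (Nat.beq tag 1)
      (split o w (chk o holes a) (chk o holes b) st) (addLn o w (chk o holes a) (chk o holes b) st))) h
    rcases cnd_sp h with ⟨-, h⟩ | ⟨-, h⟩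
    · exact cut_sp L ha hb h
    rcases cnd_sp h with ⟨-, h⟩ | ⟨-, h⟩
    · exact split_sp L ha hb h
    · exact addLn_sp L ha hb h
  | n3 w a b c ha hb hc =>
    intro st h
    obtain ⟨tag, w, h, -⟩ := rdN_sp (p := 4) (w := w) (k := fun tag w => cnd (Nat.beq tag 0)
      (branch w (chk o holes a) (chk o holes b) (chk o holes c) st) (rdN 2 w (fun s w =>
        cnd (Nat.beq tag 1) (queryP o s w (chk o holes a) (chk o holes b) (chk o holes c) st)
          (queryG o s w (chk o holes a) (chk o holes b) (chk o holes c) st)))) h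
    rcases cnd_sp h with ⟨-, h⟩ | ⟨-, h⟩
    · exact branch_sp hP ha hb hc h
    obtain ⟨s, w, h, -⟩ := rdN_sp h
    rcases cnd_sp h with ⟨-, h⟩ | ⟨-, h⟩
    · exact queryP_sp L hP ha hb hc h
    · exact queryG_sp L hP ha hb hc h

theorem run_good {α : Type} {o : Ops α} {ι : α → ℝ} (L : Lawful o ι) (P : Prm) (hP : P.ok)
    (hloc : NotLoc o ι P) (holes : List Nat) (h : Nat) (t : Tr) (hr : run o holes h t = true)
    (hh : ∀ h ∈ holes, Good o ι P h) : Good o ι P h := by
  intro c e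
  rw [run, e] at hr
  exact chk_sound L P hP hloc holes hh t c hr

theorem root_false {α : Type} {o : Ops α} {ι : α → ℝ} (L : Lawful o ι) (P : Prm) (hP : P.ok)
    (lo hi : V7 α) (h : Nat) (hr : rootChk o lo hi h = true) (hg : Good o ι P h)
    (t : ℝ) (ht : TT o t) (hb : InV o ι P t lo hi) : False := by
  obtain ⟨c, e, e5, e6, e1, e2, hc⟩ := decCtx_ex L h
  rw [rootChk, e] at hr
  simp only [band_eq] at hr
  obtain ⟨⟨h1, h2⟩, h3, ⟨h4, h5⟩, h6⟩ := hr
  have bx := hc P t ht (InV_mono L ht.1 hb h1 h2)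
  refine hg c e t (0, 0) (0, 0) ⟨ht, hP.m0, hP.m0, bx, InL_iff.2 fun j hj => ?_,
    by simp [isNil_sp h4], by simp [isNil_sp h5], fun g hg r hr => ?_, by simp [e5], by simp [e6],
    by rw [e1, zA_val L], fun r => by rw [e2, zA_val L]⟩
  · have h := lall_true h3 j (by interval_cases j <;> simp)
    obtain ⟨c1, c2, c3, c4, h, -, el⟩ := pairC_sp L P t h
    obtain ⟨f, qm, qp, h, -, q1, q2⟩ := qtm_sp L hP ht bx h
    rw [← el] at q1 q2
    have l0 : 0 ≤ lenJ P j := by rw [el]; exact mul_nonneg Sr_pos.le (Lf_nonneg _)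
    exact ⟨loOK_sp L ht bx (band_sp h).2 l0 q1, upOK_sp L ht bx (band_sp h).1 q2⟩
  · obtain ⟨a, ha, h⟩ := lany_true (lall_true h6 g hg)
    rw [eqLine_sp L h]
    obtain ⟨r1, r2, r3⟩ := hP.root r hr
    simp only [root0, List.mem_cons, List.not_mem_nil, or_false] at ha
    rcases ha with rfl | rfl | rfl <;>
      simp only [lvP, ofN_val L, L.ofI, L.zero, Sr, Int.cast_negSucc] <;> push_cast <;> linarith

section
variable {β : Type} (x0 x1 x2 x3 x4 x5 x6 xd : β)
theorem sel7_0 : sel7 0 x0 x1 x2 x3 x4 x5 x6 xd = x0 := rfl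
theorem sel7_1 : sel7 1 x0 x1 x2 x3 x4 x5 x6 xd = x1 := rfl
theorem sel7_2 : sel7 2 x0 x1 x2 x3 x4 x5 x6 xd = x2 := rfl
theorem sel7_3 : sel7 3 x0 x1 x2 x3 x4 x5 x6 xd = x3 := rfl
theorem sel7_4 : sel7 4 x0 x1 x2 x3 x4 x5 x6 xd = x4 := rfl
theorem sel7_5 : sel7 5 x0 x1 x2 x3 x4 x5 x6 xd = x5 := rfl
theorem sel7_6 : sel7 6 x0 x1 x2 x3 x4 x5 x6 xd = x6 := rfl
end

theorem iops_InV (P : Prm) (a b lo hi : V7 Int) :
    InV (iops a b) (fun a : Int => (a : ℝ)) P 1 lo hi ↔ ∀ n < 7,
      (get7 zops (vI lo) n).val ≤ zc P n ∧ zc P n ≤ (get7 zops (vI hi) n).val := by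
  rw [InV_iff]
  refine forall_congr' fun n => forall_congr' fun hn => ?_
  have e0 := (lawful_i a b).base0 rfl n
  have e : ∀ v : V7 Int, (get7 zops (vI v) n).val = ((get7 (iops a b) v n : ℤ) : ℝ) := fun v => by
    interval_cases n <;> exact zI_val _
  simp only [In1, e0, e, zero_add, one_mul]

/-- half sides of the local box -/
def eN (e : V7 Nat) (n : Nat) : Nat := sel7 n e.a0 e.a1 e.a2 e.a3 e.a4 e.a5 e.a6 0

theorem etaLo_val (e : V7 Nat) {n : Nat} (hn : n < 7) : (get7 zops (etaLo e) n).val = -(eN e n : ℝ) := by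
  interval_cases n <;> refine (zI_val _).trans ?_ <;> rw [nneg_eq] <;> push_cast <;> rfl

theorem etaHi_val (e : V7 Nat) {n : Nat} (hn : n < 7) (h5 : n ≠ 5) :
    (get7 zops (etaHi e) n).val = (eN e n : ℝ) := by
  interval_cases n <;> first | exact absurd rfl h5 | exact zI_val _

theorem vadd_val (u v : V7 ZP) {n : Nat} (hn : n < 7) :
    (get7 zops (vadd u v) n).val = (get7 zops u n).val + (get7 zops v n).val := by
  interval_cases n <;> exact zadd_val _ _

/-- the local theorem from the 13 faces (n, s) ≠ (5, true) -/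
theorem notLoc_of_faces (P : Prm) (hP : P.ok) (e : V7 Nat) (lo hi : V7 Int) (hl : locChk e lo hi = true)
    (hf : ∀ n : Nat, n < 7 → ∀ s : Bool, ¬ (n = 5 ∧ s = true) →
      ∃ h, faceChk e n s h = true ∧ Good zops ZP.val P h) :
    NotLoc (iops lo hi) (fun a : Int => (a : ℝ)) P := by
  intro _ hin
  have hin := (iops_InV P lo hi lo hi).1 hin
  simp only [locChk, band_eq] at hl
  obtain ⟨⟨h1, h2⟩, h3⟩ := hl
  have ep : ∀ n < 7, (0 : ℝ) < eN e n := fun n hn => by
    have : 1 ≤ eN e n := ble_sp (lall_true h3 _ (by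
      interval_cases n <;> simp [eN, sel7_0, sel7_1, sel7_2, sel7_3, sel7_4, sel7_5, sel7_6]))
    exact_mod_cast this
  have z5 : (get7 zops (etaHi e) 5).val = 0 := lawful_z.zero
  have b5 : (get7 zops zops.base 5).val = 0 := lawful_z.zero
  have d5 : zc P 5 ≤ 0 := mul_nonpos_of_nonneg_of_nonpos Sr_pos.le hP.bbe.2
  set d : Nat → ℝ := fun n => zc P n - (get7 zops zops.base n).val with hd
  have dle : ∀ n < 7, |d n| ≤ eN e n := fun n hn => by
    have a1 := leV_sp lawful_z h1 n hn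
    have a2 := leV_sp lawful_z h2 n hn
    rw [vadd_val _ _ hn] at a1 a2
    rw [etaLo_val e hn] at a1
    have a3 : (get7 zops (etaHi e) n).val ≤ eN e n := by
      by_cases h5 : n = 5
      · rw [h5, z5]; positivity
      · rw [etaHi_val e hn h5]
    rw [abs_le, hd]
    constructor <;> linarith [(hin n hn).1, (hin n hn).2]
  obtain ⟨n, hn, hmax⟩ := Finset.exists_max_image (Finset.range 7) (fun n => |d n| / eN e n)
    ⟨0, by simp⟩
  rw [Finset.mem_range] at hn
  set t := |d n| / eN e n with htd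
  have dt : ∀ m < 7, |d m| ≤ t * eN e m := fun m hm =>
    (div_le_iff₀ (ep m hm)).1 (hmax m (Finset.mem_range.2 hm))
  have dn : |d n| = t * eN e n := by rw [htd, div_mul_cancel₀ _ (ep n hn).ne']
  have t1 : t ≤ 1 := (div_le_one (ep n hn)).2 (dle n hn)
  have t0 : 0 < t := by
    by_contra hc
    have z : ∀ m < 7, zc P m = (get7 zops zops.base m).val := fun m hm => by
      have := (dt m hm).trans (mul_nonpos_of_nonpos_of_nonneg (not_lt.1 hc) (ep m hm).le)
      exact sub_eq_zero.1 (abs_nonpos_iff.1 this)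
    have z0 := z 0 (by norm_num)
    have z1 := z 1 (by norm_num)
    have z2 := z 2 (by norm_num)
    have z3 := z 3 (by norm_num)
    have z4 := z 4 (by norm_num)
    have z5 := z 5 (by norm_num)
    have z6 := z 6 (by norm_num)
    rw [b5] at z5
    simp only [zc, Sr, get7, zops, sel7_0, sel7_1, sel7_2, sel7_3, sel7_4, sel7_6, ZP.val,
      Int.cast_negSucc, Int.ofNat_eq_natCast]
      at z0 z1 z2 z3 z4 z5 z6
    push_cast at z0 z1 z2 z3 z4 z6
    exact hP.neP ⟨by linarith, by linarith, by linarith, by linarith, by linarith, by linarith,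
      by linarith⟩
  have ht : TT zops t := ⟨t0, t1, fun h => by cases h⟩
  have box : InV zops ZP.val P t (etaLo e) (etaHi e) := InV_iff.2 fun m hm => by
    have := abs_le.1 (dt m hm)
    refine ⟨by rw [etaLo_val e hm]; linarith [this.1], ?_⟩
    by_cases h5 : m = 5
    · rw [h5, z5, b5]; linarith
    · rw [etaHi_val e hm h5]; linarith [this.2]
  have old := InV_iff.1 box n hn
  rcases le_or_gt (d n) 0 with c | c
  · obtain ⟨h, h1, h2⟩ := hf n hn false (by simp)
    rw [faceChk, cnd_false] at h1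
    obtain ⟨u, h1, -, a1, a2⟩ := set7_sp zops h1
    refine root_false lawful_z P hP _ _ h h1 h2 t ht
      (InV_set box (fun _ _ _ => rfl) a2 ⟨old.1, ?_⟩)
    rw [abs_of_nonpos c] at dn
    rw [a1, etaLo_val e hn]
    linarith
  · have h5 : n ≠ 5 := by
      rintro rfl
      simp only [hd, b5] at c
      linarith
    obtain ⟨h, h1, h2⟩ := hf n hn true (by simp [h5])
    rw [faceChk, cnd_true] at h1
    obtain ⟨u, h1, -, a1, a2⟩ := set7_sp zops h1
    refine root_false lawful_z P hP _ _ h h1 h2 t ht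
      (InV_set box a2 (fun _ _ _ => rfl) ⟨?_, old.2⟩)
    rw [abs_of_pos c] at dn
    rw [a1, etaHi_val e hn h5]
    linarith

theorem global_false (P : Prm) (hP : P.ok) (lo hi : V7 Int) (h : Nat)
    (hr : rootChk (iops lo hi) boxLo boxHi h = true)
    (hg : Good (iops lo hi) (fun a : Int => (a : ℝ)) P h) : False := by
  refine root_false (lawful_i lo hi) P hP _ _ h hr hg 1 ⟨one_pos, le_rfl, fun _ => rfl⟩
    ((iops_InV P lo hi _ _).2 fun n hn => ?_)
  obtain ⟨a0, b0⟩ := hP.bx1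
  obtain ⟨a1, b1⟩ := hP.by1
  obtain ⟨a2, b2⟩ := hP.bx4
  obtain ⟨a3, b3⟩ := hP.by4
  obtain ⟨a4, b4⟩ := hP.bal
  obtain ⟨a5, b5⟩ := hP.bbe
  obtain ⟨a6, b6⟩ := hP.bga
  interval_cases n <;>
    simp only [zc, Sr, get7, vI, boxLo, boxHi, i0, sel7_0, sel7_1, sel7_2, sel7_3, sel7_4, sel7_5,
      sel7_6, zI_val, Int.cast_negSucc,
      Int.ofNat_eq_natCast] <;> push_cast <;> constructor <;> linarith

end Pool.Agent.Lib.MP_9d820d_co
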